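import Pool.Agent.RGA.Mem

set_option autoImplicit false

namespace Pool.Agent.RGA

open Finset

namespace Add

theorem dg_insert (G : Finset (Sym2 ℕ)) (e : Sym2 ℕ) (he : e ∉ G) (v : ℕ) :
    dg (insert e G) v = dg G v + (if v ∈ e then 1 else 0) := by
  unfold dg
  rw [Finset.filter_insert]
  split_ifs with h
  · rw [Finset.card_insert_of_notMem]
    intro h1
    exact he (Finset.mem_filter.mp h1).1
  · rfl

theorem ite_mem (a b v : ℕ) (hab : a ≠ b) :
    (if v ∈ s(a, b) then 1 else 0) = (if v = a then 1 else 0) + (if v = b then 1 else 0) := by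
  by_cases h1 : v = a
  · have h2 : v ≠ b := fun h => hab (h1.symm.trans h)
    rw [if_pos h1, if_neg h2, if_pos (by rw [Sym2.mem_iff]; exact Or.inl h1)]
  · by_cases h2 : v = b
    · rw [if_neg h1, if_pos h2, if_pos (by rw [Sym2.mem_iff]; exact Or.inr h2)]
    · rw [if_neg h1, if_neg h2, if_neg (by rw [Sym2.mem_iff]; tauto)]

end Add

open Pool.Agent.RGA.Add in
theorem add_proof : Stmt_Add := by
  intro D D' a b hab hD
  have key : N D' {s(a, b)} = ((gr D).filter (fun G => s(a, b) ∉ G)).card := by
    unfold N
    symm
    apply Finset.card_bij (fun G _ => insert s(a, b) G)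
    · intro G hG
      rw [Finset.mem_filter, mem_proof] at hG
      obtain ⟨⟨hl, hd⟩, hn⟩ := hG
      rw [Finset.mem_filter, mem_proof]
      refine ⟨⟨?_, ?_⟩, ?_⟩
      · intro e he
        rw [Finset.mem_insert] at he
        rcases he with rfl | he
        · rw [Sym2.mk_isDiag_iff]; exact hab
        · exact hl e he
      · intro v
        rw [dg_insert G _ hn v, hD v, hd v, ite_mem a b v hab, add_assoc]
      · rw [Finset.singleton_subset_iff]
        exact Finset.mem_insert_self _ _
    · intro G₁ h₁ G₂ h₂ h
      rw [Finset.mem_filter] at h₁ h₂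
      have h3 := congrArg (fun S => S.erase s(a, b)) h
      simp only [Finset.erase_insert h₁.2, Finset.erase_insert h₂.2] at h3
      exact h3
    · intro G' hG'
      rw [Finset.mem_filter, mem_proof, Finset.singleton_subset_iff] at hG'
      obtain ⟨⟨hl, hd⟩, hm⟩ := hG'
      refine ⟨G'.erase s(a, b), ?_, Finset.insert_erase hm⟩
      rw [Finset.mem_filter, mem_proof]
      refine ⟨⟨fun e he => hl e (Finset.mem_of_mem_erase he), ?_⟩, Finset.notMem_erase _ _⟩
      intro v
      have h4 := dg_insert (G'.erase s(a, b)) s(a, b) (Finset.notMem_erase _ _) v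
      rw [Finset.insert_erase hm, hd v, hD v, ite_mem a b v hab] at h4
      omega
  have h2 : N D ∅ = N D {s(a, b)} + ((gr D).filter (fun G => s(a, b) ∉ G)).card := by
    unfold N
    simp only [Finset.singleton_subset_iff, Finset.empty_subset, Finset.filter_true]
    rw [Finset.card_filter_add_card_filter_not]
  rw [key, h2]
  push_cast
  ring

end Pool.Agent.RGA
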