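import Pool.Agent.RGA.Stmts

/-!
BC: the Bender-Canfield formula for fixed degree, from the leaf recursion and its limit.
-/

set_option autoImplicit false

namespace Pool.Agent.RGA

open Finset

namespace BCaux

theorem Dlf_zero (n d : ℕ) : Dlf n d 0 = Dreg n d := by
  ext v
  simp only [Dlf, Dreg, Finsupp.onFinset_apply, Nat.add_zero]
  by_cases h : v < n
  · simp [h]
  · simp [h]

theorem df_step (M i : ℕ) (hM : 1 ≤ M) :
    ((M + 2 * (i + 1) - 1).doubleFactorial : ℝ)
      = ((M : ℝ) + 2 * i + 1) * ((M + 2 * i - 1).doubleFactorial : ℝ) := by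
  have h1 : M + 2 * (i + 1) - 1 = (M + 2 * i - 1) + 2 := by omega
  rw [h1, Nat.doubleFactorial_add_two]
  push_cast
  have h2 : ((M + 2 * i - 1 : ℕ) : ℝ) = (M : ℝ) + 2 * i - 1 := by
    rw [Nat.cast_sub (by omega)]
    push_cast
    ring
  rw [h2]
  ring

theorem psi_bound (a : ℝ) (ha : 0 ≤ a) (ε : ℝ) (hε : 0 < ε) :
    ∃ R : ℝ, 0 < R ∧ ∀ M : ℝ, R ≤ M → |psi a M| ≤ ε := by
  refine ⟨(a + 1) * (2 / ε + 1), by positivity, ?_⟩
  intro M hM
  have hpos : 0 < (a + 1) * (2 / ε + 1) := by positivity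
  have hMpos : 0 < M := lt_of_lt_of_le hpos hM
  have h1 : a / M ≤ ε / 2 := by
    rw [div_le_iff₀ hMpos]
    calc a ≤ (a + 1) * 1 := by linarith
      _ ≤ (a + 1) * (ε / 2 * (2 / ε + 1)) := by
          apply mul_le_mul_of_nonneg_left _ (by linarith)
          have : ε / 2 * (2 / ε + 1) = 1 + ε / 2 := by field_simp
          rw [this]
          linarith
      _ = ε / 2 * ((a + 1) * (2 / ε + 1)) := by ring
      _ ≤ ε / 2 * M := mul_le_mul_of_nonneg_left hM (by positivity)
  have h2 : a / M ≤ 1 := by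
    rw [div_le_iff₀ hMpos, one_mul]
    refine le_trans ?_ hM
    have h3 : 1 ≤ 2 / ε + 1 := by
      have : 0 < 2 / ε := by positivity
      linarith
    calc a ≤ (a + 1) * 1 := by linarith
      _ ≤ (a + 1) * (2 / ε + 1) := mul_le_mul_of_nonneg_left h3 (by linarith)
  have h0 : 0 ≤ a / M := by positivity
  unfold psi
  rw [abs_le]
  constructor
  · nlinarith
  · nlinarith

end BCaux

/-- BC -/
theorem bC_proof (hS : Stmt_LeafStep) (hL : Stmt_LeafLim) (hE : Stmt_Exi) : Stmt_BC := by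
  intro d hd ε hε
  obtain ⟨C, hC⟩ := hS d hd
  obtain ⟨n1, hn1⟩ := exists_nat_gt ((C : ℝ) / ε)
  refine ⟨max (max (d + 1) C) (n1 + 1), ?_⟩
  intro n hn hev
  have hnd1 : d + 1 ≤ n := le_trans (le_trans (le_max_left _ _) (le_max_left _ _)) hn
  have hnC : C ≤ n := le_trans (le_trans (le_max_right _ _) (le_max_left _ _)) hn
  have hnn1 : n1 + 1 ≤ n := le_trans (le_max_right _ _) hn
  have hn0 : 1 ≤ n := by omega
  have hM1 : 1 ≤ n * d := Nat.one_le_iff_ne_zero.2 (by positivity)
  have hMn : n ≤ n * d := Nat.le_mul_of_pos_right n hd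
  have hMC : C ≤ n * d := hnC.trans hMn
  set M : ℕ := n * d with hMdef
  set a : ℝ := n * d * (d - 1) / 2 with ha
  have ha0 : 0 ≤ a := by
    have : (1 : ℝ) ≤ d := by exact_mod_cast hd
    have h2 : (0 : ℝ) ≤ (d : ℝ) - 1 := by linarith
    simp only [ha]
    positivity
  set f : ℕ → ℝ := fun i => Real.log (N (Dlf n d (2 * i)) ∅)
    - Real.log ((M + 2 * i - 1).doubleFactorial : ℝ) - psi a (M + 2 * i) with hf
  set g : ℕ → ℝ := fun i => C / (2 * ((M : ℝ) + 2 * i)) with hg
  have hMr : (1 : ℝ) ≤ M := by exact_mod_cast hM1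
  have hpos0 : 0 < N (Dlf n d 0) ∅ := by
    rw [BCaux.Dlf_zero]
    exact hE n d hd hnd1 hev
  have hpos : ∀ i : ℕ, 0 < N (Dlf n d (2 * i)) ∅ := by
    intro i
    induction i with
    | zero => exact hpos0
    | succ i ih =>
      exact (hC n (2 * i) hn0 (hev.add ⟨i, by ring⟩) (by omega) ih).1
  have hstep : ∀ i : ℕ, |f (i + 1) - f i| ≤ g i - g (i + 1) := by
    intro i
    have h1 := (hC n (2 * i) hn0 (hev.add ⟨i, by ring⟩) (by omega) (hpos i)).2
    have hdf := BCaux.df_step M i hM1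
    have hdfpos : (0 : ℝ) < ((M + 2 * i - 1).doubleFactorial : ℝ) := by
      exact_mod_cast Nat.doubleFactorial_pos _
    have hlogdf : Real.log ((M + 2 * (i + 1) - 1).doubleFactorial : ℝ)
        = Real.log ((M : ℝ) + 2 * i + 1) + Real.log ((M + 2 * i - 1).doubleFactorial : ℝ) := by
      rw [hdf, Real.log_mul (by positivity) (ne_of_gt hdfpos)]
    have hMcast : ((n : ℝ) * d) = (M : ℝ) := by
      rw [hMdef]
      push_cast
      ring
    have h2 : f (i + 1) - f i = Real.log (N (Dlf n d (2 * i + 2)) ∅)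
        - Real.log (N (Dlf n d (2 * i)) ∅) - Real.log (n * d + (2 * i : ℕ) + 1)
        - (psi (n * d * (d - 1) / 2) (n * d + (2 * i : ℕ) + 2)
            - psi (n * d * (d - 1) / 2) (n * d + (2 * i : ℕ))) := by
      simp only [hf]
      rw [hlogdf]
      simp only [← ha]
      rw [hMcast]
      push_cast
      have e1 : 2 * (i + 1) = 2 * i + 2 := by ring
      rw [e1]
      have e2 : (M : ℝ) + 2 * ((i : ℝ) + 1) = M + 2 * i + 2 := by ring
      rw [e2]
      ring
    rw [h2]
    refine h1.trans ?_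
    rw [hMcast]
    simp only [hg]
    push_cast
    set m : ℝ := (M : ℝ) + 2 * i with hm
    have hm1 : 1 ≤ m := by
      have : (0 : ℝ) ≤ i := by positivity
      linarith
    have e3 : (M : ℝ) + 2 * ((i : ℝ) + 1) = m + 2 := by
      rw [hm]
      ring
    rw [e3]
    have hm0 : 0 < m := by linarith
    have hm2 : 0 < m + 2 := by linarith
    have h5 : (C : ℝ) / (2 * m) - C / (2 * (m + 2)) = C / (m * (m + 2)) := by
      field_simp
      ring
    rw [h5]
    apply div_le_div_of_nonneg_left (by positivity) (by positivity)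
    nlinarith
  have hmain : ∀ i : ℕ, |f i - f 0| ≤ g 0 - g i := by
    intro i
    induction i with
    | zero => simp
    | succ i ih =>
      calc |f (i + 1) - f 0| = |(f (i + 1) - f i) + (f i - f 0)| := by ring_nf
        _ ≤ |f (i + 1) - f i| + |f i - f 0| := abs_add_le _ _
        _ ≤ (g i - g (i + 1)) + (g 0 - g i) := add_le_add (hstep i) ih
        _ = _ := by ring
  have hg0 : ∀ i, 0 ≤ g i := by
    intro i
    simp only [hg]
    positivity
  have hgle : g 0 ≤ ε / 2 := by
    simp only [hg]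
    push_cast
    rw [mul_zero, add_zero, div_le_div_iff₀ (by positivity) (by norm_num)]
    have h1 : (C : ℝ) / ε < n := by
      refine hn1.trans_le ?_
      have : (n1 : ℝ) ≤ (n : ℝ) := by exact_mod_cast (by omega : n1 ≤ n)
      exact this
    rw [div_lt_iff₀ hε] at h1
    have h2 : (n : ℝ) ≤ M := by exact_mod_cast hMn
    nlinarith
  obtain ⟨s0, hs0⟩ := hL n d hd (ε / 4) (by linarith)
  obtain ⟨R, hR, hR'⟩ := BCaux.psi_bound a ha0 (ε / 4) (by linarith)
  obtain ⟨r, hr⟩ := exists_nat_gt R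
  set i := s0 + r with hi
  have hA := (hs0 (2 * i) (by omega) (hev.add ⟨i, by ring⟩)).2
  have hB := hR' ((M : ℝ) + 2 * i) (by
    have h1 : (r : ℝ) ≤ i := by
      rw [hi]
      push_cast
      have : (0 : ℝ) ≤ s0 := by positivity
      linarith
    have h2 : (0 : ℝ) ≤ i := by positivity
    linarith)
  have hCm := hmain i
  have hfi : f i = Real.log (N (Dlf n d (2 * i)) ∅)
      - Real.log ((M + 2 * i - 1).doubleFactorial : ℝ) - psi a (M + 2 * i) := rfl
  have hf0 : f 0 = Real.log (Rn n d) - Real.log ((n * d - 1).doubleFactorial : ℝ)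
      + ((d : ℝ) ^ 2 - 1) / 4 := by
    have h1 : f 0 = Real.log (N (Dlf n d 0) ∅)
      - Real.log ((M - 1).doubleFactorial : ℝ) - psi a (M : ℝ) := by
      simp only [hf]
      norm_num
    rw [h1, BCaux.Dlf_zero]
    have h2 : psi a (M : ℝ) = -(((d : ℝ) ^ 2 - 1) / 4) := by
      have hMpos : (0 : ℝ) < M := by linarith
      have h3 : a / M = ((d : ℝ) - 1) / 2 := by
        rw [ha, hMdef]
        push_cast
        have hn' : (n : ℝ) ≠ 0 := by positivity
        have hd' : (d : ℝ) ≠ 0 := by positivity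
        field_simp
      unfold psi
      rw [h3]
      ring
    rw [h2]
    unfold Rn
    ring
  have hgi := hg0 i
  have h6 : Real.log (Rn n d) - Real.log ((n * d - 1).doubleFactorial : ℝ)
      + n * Real.log (d.factorial : ℝ) + ((d : ℝ) ^ 2 - 1) / 4
      = (f 0 - f i) + (Real.log (N (Dlf n d (2 * i)) ∅)
        - Real.log ((M + 2 * i - 1).doubleFactorial : ℝ) + n * Real.log (d.factorial : ℝ))
        - psi a (M + 2 * i) := by
    rw [hf0, hfi]
    ring
  rw [h6]
  have h7 : |f 0 - f i| ≤ ε / 2 := by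
    rw [abs_sub_comm]
    linarith
  rw [abs_le] at *
  constructor <;> linarith [h7.1, h7.2, hA.1, hA.2, hB.1, hB.2]

end Pool.Agent.RGA
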