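import Pool.Agent.RGA.Stmts

/-!
Module BRIDGE (helper46).
-/

set_option autoImplicit false

namespace Pool.Agent.RGA

open Finset

namespace Bridge

theorem dg_eq_ncard (F : Finset (Sym2 ℕ)) (v : ℕ) : dg F v = {w : ℕ | s(v, w) ∈ F}.ncard := by
  have h : ((F.filter (fun e => v ∈ e) : Finset (Sym2 ℕ)) : Set (Sym2 ℕ))
      = (fun w => s(v, w)) '' {w : ℕ | s(v, w) ∈ F} := by
    ext e
    simp only [coe_filter, Set.mem_ofPred_eq, Set.mem_image]
    constructor
    · rintro ⟨h1, h2⟩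
      obtain ⟨w, rfl⟩ := Sym2.mem_iff_exists.1 h2
      exact ⟨w, h1, rfl⟩
    · rintro ⟨w, h1, rfl⟩
      exact ⟨h1, Sym2.mem_mk_left v w⟩
  unfold dg
  rw [← Set.ncard_coe_finset, h]
  apply Set.ncard_image_of_injective
  intro a b hab
  exact Sym2.congr_right.1 hab

open Classical in
/-- the edge set of `G` -/
noncomputable def toF {n : ℕ} (G : SimpleGraph (Fin n)) : Finset (Sym2 ℕ) :=
  (univ.filter (fun e : Sym2 (Fin n) => e ∈ G.edgeSet)).image (Sym2.map Fin.val)

theorem mem_toF {n : ℕ} (G : SimpleGraph (Fin n)) (a b : ℕ) :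
    s(a, b) ∈ toF G ↔ ∃ (ha : a < n) (hb : b < n), G.Adj ⟨a, ha⟩ ⟨b, hb⟩ := by
  unfold toF
  simp only [mem_image, mem_filter, mem_univ, true_and]
  constructor
  · rintro ⟨e, he, h⟩
    induction e using Sym2.ind with
    | _ x y =>
      rw [SimpleGraph.mem_edgeSet] at he
      rw [Sym2.map_mk, Sym2.eq_iff] at h
      rcases h with ⟨h1, h2⟩ | ⟨h1, h2⟩
      · subst h1; subst h2
        exact ⟨x.2, y.2, he⟩
      · subst h1; subst h2
        exact ⟨y.2, x.2, he.symm⟩
  · rintro ⟨ha, hb, h⟩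
    exact ⟨s(⟨a, ha⟩, ⟨b, hb⟩), (SimpleGraph.mem_edgeSet G).2 h, rfl⟩

theorem dg_toF {n : ℕ} (G : SimpleGraph (Fin n)) (v : Fin n) :
    dg (toF G) v = (G.neighborSet v).ncard := by
  rw [dg_eq_ncard]
  have h : {w : ℕ | s((v : ℕ), w) ∈ toF G} = Fin.val '' (G.neighborSet v) := by
    ext w
    simp only [Set.mem_ofPred_eq, mem_toF, Set.mem_image, SimpleGraph.mem_neighborSet]
    constructor
    · rintro ⟨h1, h2, h3⟩
      exact ⟨⟨w, h2⟩, h3, rfl⟩
    · rintro ⟨x, h1, rfl⟩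
      exact ⟨v.2, x.2, h1⟩
  rw [h]
  exact Set.ncard_image_of_injective _ Fin.val_injective

theorem dg_toF_big {n : ℕ} (G : SimpleGraph (Fin n)) (v : ℕ) (hv : n ≤ v) :
    dg (toF G) v = 0 := by
  rw [dg_eq_ncard]
  have h : {w : ℕ | s(v, w) ∈ toF G} = ∅ := by
    ext w
    simp only [Set.mem_ofPred_eq, mem_toF, Set.mem_empty_iff_false, iff_false]
    rintro ⟨h1, _⟩
    omega
  rw [h, Set.ncard_empty]

theorem lp_toF {n : ℕ} (G : SimpleGraph (Fin n)) : ∀ e ∈ toF G, ¬ e.IsDiag := by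
  intro e he hd
  induction e using Sym2.ind with
  | _ x y =>
    rw [Sym2.mk_isDiag_iff] at hd
    subst hd
    obtain ⟨h1, h2, h3⟩ := (mem_toF G x x).1 he
    exact G.loopless.irrefl _ h3

theorem toF_injective (n : ℕ) : Function.Injective (toF (n := n)) := by
  intro G H h
  ext a b
  have h1 := mem_toF G a b
  have h2 := mem_toF H a b
  rw [h] at h1
  constructor
  · intro h3
    obtain ⟨_, _, h4⟩ := h2.1 (h1.2 ⟨a.2, b.2, h3⟩)
    exact h4
  · intro h3
    obtain ⟨_, _, h4⟩ := h1.1 (h2.2 ⟨a.2, b.2, h3⟩)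
    exact h4

theorem Dreg_lt (n d v : ℕ) (h : v < n) : Dreg n d v = d := by
  unfold Dreg
  rw [Finsupp.onFinset_apply, if_pos h]

theorem Dreg_ge (n d v : ℕ) (h : n ≤ v) : Dreg n d v = 0 := by
  unfold Dreg
  rw [Finsupp.onFinset_apply, if_neg (by omega)]

/-- the graph of `F` -/
def fromF (n : ℕ) (F : Finset (Sym2 ℕ)) : SimpleGraph (Fin n) where
  Adj a b := a ≠ b ∧ s((a : ℕ), (b : ℕ)) ∈ F
  symm := ⟨fun a b h => ⟨h.1.symm, by rw [Sym2.eq_swap]; exact h.2⟩⟩
  loopless := ⟨fun a h => h.1 rfl⟩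

theorem toF_fromF (n d : ℕ) (F : Finset (Sym2 ℕ)) (h1 : ∀ e ∈ F, ¬ e.IsDiag)
    (h2 : ∀ v, dg F v = Dreg n d v) : toF (fromF n F) = F := by
  have hlt : ∀ a b : ℕ, s(a, b) ∈ F → a < n := by
    intro a b hab
    by_contra hn
    have h3 := h2 a
    rw [Dreg_ge n d a (by omega)] at h3
    unfold dg at h3
    rw [card_eq_zero] at h3
    have h4 : s(a, b) ∈ F.filter (fun e => a ∈ e) :=
      mem_filter.2 ⟨hab, Sym2.mem_mk_left a b⟩
    rw [h3] at h4
    exact absurd h4 (notMem_empty _)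
  ext e
  induction e using Sym2.ind with
  | _ a b =>
    rw [mem_toF]
    constructor
    · rintro ⟨_, _, h3⟩
      exact h3.2
    · intro h3
      refine ⟨hlt a b h3, hlt b a (by rw [Sym2.eq_swap]; exact h3), ?_, h3⟩
      intro h4
      have h5 := h1 _ h3
      rw [Sym2.mk_isDiag_iff] at h5
      exact h5 (by simpa using congrArg Fin.val h4)

theorem exists_T (n d : ℕ) (h1 : d + 1 ≤ n) (h2 : Even (n * d)) :
    ∃ T : Finset ℕ, T.card = d ∧ ∀ t ∈ T, 1 ≤ t ∧ t < n ∧ n - t ∈ T := by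
  have hc : ∀ k : ℕ, 2 * k < n → (Icc 1 k ∪ Ico (n - k) n).card = 2 * k := by
    intro k hk
    rw [card_union_of_disjoint, Nat.card_Icc, Nat.card_Ico]
    · omega
    · rw [disjoint_left]
      intro a ha hb
      rw [mem_Icc] at ha
      rw [mem_Ico] at hb
      omega
  rcases Nat.even_or_odd' d with ⟨k, hk | hk⟩
  · refine ⟨Icc 1 k ∪ Ico (n - k) n, ?_, ?_⟩
    · rw [hc k (by omega), hk]
    · intro t ht
      simp only [mem_union, mem_Icc, mem_Ico] at ht ⊢
      omega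
  · have hn : Even n := by
      rcases Nat.even_mul.1 h2 with h | h
      · exact h
      · exfalso
        rw [hk] at h
        revert h
        simp
    obtain ⟨m, hm⟩ := hn
    refine ⟨insert m (Icc 1 k ∪ Ico (n - k) n), ?_, ?_⟩
    · rw [card_insert_of_notMem, hc k (by omega), hk]
      simp only [mem_union, mem_Icc, mem_Ico]
      omega
    · intro t ht
      simp only [mem_insert, mem_union, mem_Icc, mem_Ico] at ht ⊢
      omega

/-- circulant graph -/
def circ (m : ℕ) (T : Finset ℕ) (hT : ∀ t ∈ T, 1 ≤ t ∧ t < m + 1 ∧ m + 1 - t ∈ T) :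
    SimpleGraph (Fin (m + 1)) where
  Adj a b := ((b - a : Fin (m + 1)) : ℕ) ∈ T
  symm := ⟨by
    intro a b h
    have h1 := hT _ h
    have h2 : (a - b : Fin (m + 1)) = -(b - a) := by rw [neg_sub]
    have h3 : ((-(b - a) : Fin (m + 1)) : ℕ) = m + 1 - ((b - a : Fin (m + 1)) : ℕ) := by
      rw [Fin.val_neg]
      rw [if_neg]
      intro h4
      rw [h4] at h1
      simp at h1
    rw [h2, h3]
    exact h1.2.2⟩
  loopless := ⟨by
    intro a h
    have h1 := hT _ h
    simp at h1⟩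

theorem circ_nbr (m : ℕ) (T : Finset ℕ) (hT : ∀ t ∈ T, 1 ≤ t ∧ t < m + 1 ∧ m + 1 - t ∈ T)
    (v : Fin (m + 1)) : ((circ m T hT).neighborSet v).ncard = T.card := by
  have h : (fun w : Fin (m + 1) => ((w - v : Fin (m + 1)) : ℕ)) '' ((circ m T hT).neighborSet v)
      = (T : Set ℕ) := by
    ext t
    simp only [Set.mem_image, SimpleGraph.mem_neighborSet, mem_coe]
    constructor
    · rintro ⟨w, h1, rfl⟩
      exact h1
    · intro ht
      have h1 := hT t ht
      refine ⟨⟨t, h1.2.1⟩ + v, ?_, ?_⟩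
      · change (((⟨t, h1.2.1⟩ + v) - v : Fin (m + 1)) : ℕ) ∈ T
        rw [add_sub_cancel_right]
        exact ht
      · simp only [add_sub_cancel_right]
  rw [← Set.ncard_coe_finset T, ← h]
  symm
  apply Set.ncard_image_of_injective
  intro a b hab
  have h1 : (a - v : Fin (m + 1)) = b - v := Fin.val_injective hab
  exact sub_left_injective h1

end Bridge

open Bridge in
theorem bridge_proof (hMem : Stmt_Mem) : Stmt_Bridge := by
  intro n d
  have h0 : Rn n d = (gr (Dreg n d)).card := by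
    unfold Rn N
    rw [filter_true_of_mem]
    intro G _
    exact empty_subset G
  rw [h0]
  unfold RG
  rw [← Nat.card_eq_finsetCard]
  have hmem : ∀ G : {G : SimpleGraph (Fin n) // ∀ v, (G.neighborSet v).ncard = d},
      toF G.1 ∈ gr (Dreg n d) := by
    intro G
    rw [hMem]
    refine ⟨lp_toF G.1, ?_⟩
    intro v
    by_cases hv : v < n
    · rw [Dreg_lt n d v hv]
      have := dg_toF G.1 ⟨v, hv⟩
      rw [G.2 ⟨v, hv⟩] at this
      exact this
    · rw [Dreg_ge n d v (by omega)]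
      exact dg_toF_big G.1 v (by omega)
  refine Nat.card_eq_of_bijective (fun G => (⟨toF G.1, hmem G⟩ : {F // F ∈ gr (Dreg n d)})) ?_
  constructor
  · intro G H h
    apply Subtype.ext
    apply toF_injective n
    exact congrArg Subtype.val h
  · rintro ⟨F, hF⟩
    have hF' := (hMem _ _).1 hF
    have h1 := toF_fromF n d F hF'.1 hF'.2
    refine ⟨⟨fromF n F, ?_⟩, ?_⟩
    · intro v
      rw [← dg_toF, h1, hF'.2, Dreg_lt n d v v.2]
    · apply Subtype.ext
      exact h1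

end Pool.Agent.RGA
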