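import Pool.Agent.RGA.CertH

set_option autoImplicit false

namespace Pool.Agent.RGA.CT

def e1 : Ent := ⟨2,[(0,1)],[[[.ofNat 1]],[[.ofNat 0,.ofNat 0,.negSucc 0],[.negSucc 0,.ofNat 2],[.negSucc 0]]]⟩
theorem c1 : chkE [e0] e1 true [] 0 1 2 (0,[]) [(2,[]),(3,[]),(3,[]),(3,[]),(3,[]),(4,[]),(4,[]),(4,[]),(4,[])] = true := by decide +kernel
theorem k1 (h : Hy) : e1.ok := h.step (fac (k0 h) fan) c1

def e2 : Ent := ⟨2,[(0,1),(0,2)],[[[.negSucc 0,.ofNat 1]],[[.ofNat 0,.ofNat 0,.ofNat 1,.negSucc 0],[.ofNat 1,.negSucc 2,.ofNat 2],[.ofNat 1,.negSucc 0]]]⟩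
theorem c2 : chkE [e1] e2 false [(0,1)] 0 0 2 (0,[]) [] = true := by decide +kernel
theorem k2 (h : Hy) : e2.ok := h.step (fac (k1 h) fan) c2

def e3 : Ent := ⟨2,[(0,2)],[[[.ofNat 1]],[[.ofNat 0,.negSucc 0]]]⟩
theorem c3 : chkE [e0] e3 false [] 0 0 2 (0,[]) [(2,[])] = true := by decide +kernel
theorem k3 (h : Hy) : e3.ok := h.step (fac (k0 h) fan) c3

def e4 : Ent := ⟨2,[(0,2),(1,2)],[[[.negSucc 0],[.ofNat 1]],[[],[.ofNat 1],[.negSucc 0]]]⟩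
theorem c4 : chkE [e3] e4 true [(1,2)] 0 2 3 (0,[(0,1)]) [(3,[]),(3,[]),(4,[]),(4,[]),(4,[]),(4,[]),(4,[]),(5,[]),(5,[]),(5,[]),(5,[])] = true := by decide +kernel
theorem k4 (h : Hy) : e4.ok := h.step (fac (k3 h) fan) c4

def e5 : Ent := ⟨2,[(0,1),(0,2),(2,3)],[[[.ofNat 1,.negSucc 0],[.negSucc 0,.ofNat 1]],[[.ofNat 1,.negSucc 1,.ofNat 0,.ofNat 1],[.negSucc 0,.ofNat 4,.negSucc 1,.negSucc 0],[.negSucc 0,.negSucc 0,.ofNat 2],[.ofNat 1,.negSucc 0]]]⟩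
theorem c5 : chkE [e2] e5 false [(0,1),(0,2)] 0 2 3 (0,[]) [(3,[])] = true := by decide +kernel
theorem k5 (h : Hy) : e5.ok := h.step (fac (k2 h) fan) c5

def e6 : Ent := ⟨2,[(0,1),(0,3),(1,2)],[[[.ofNat 1,.negSucc 1,.ofNat 1]],[[.ofNat 1,.negSucc 1,.ofNat 0,.ofNat 2,.negSucc 0],[.negSucc 0,.ofNat 4,.negSucc 4,.ofNat 2],[.negSucc 0,.ofNat 2,.negSucc 0]]]⟩
theorem c6 : chkE [e2] e6 false [(0,1),(1,2)] 0 0 3 (0,[(0,1)]) [(3,[])] = true := by decide +kernel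
theorem k6 (h : Hy) : e6.ok := h.step (fac (k2 h) fan) c6

def e7 : Ent := ⟨2,[(0,2),(2,3)],[[[.negSucc 0],[.ofNat 1]],[[.ofNat 0,.ofNat 2],[.negSucc 0,.negSucc 1],[.ofNat 1]]]⟩
theorem c7 : chkE [e3] e7 false [(0,2)] 0 2 3 (0,[]) [(3,[])] = true := by decide +kernel
theorem k7 (h : Hy) : e7.ok := h.step (fac (k3 h) fan) c7

def e8 : Ent := ⟨2,[(0,2),(1,3),(2,3)],[[[.ofNat 1],[.negSucc 1],[.ofNat 1]],[[.ofNat 1,.negSucc 1],[.negSucc 0,.ofNat 4],[.negSucc 0,.negSucc 1],[.ofNat 1]]]⟩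
theorem c8 : chkE [e7] e8 true [(1,3),(2,3)] 0 2 4 (0,[(0,1),(2,3)]) [(4,[]),(4,[]),(4,[]),(5,[]),(5,[]),(5,[]),(5,[]),(5,[]),(5,[]),(5,[]),(6,[]),(6,[]),(6,[]),(6,[])] = true := by decide +kernel
theorem k8 (h : Hy) : e8.ok := h.step (fac (k7 h) fan) c8

def e9 : Ent := ⟨3,[(0,1)],[[[.ofNat 1]],[[.ofNat 0,.ofNat 0,.negSucc 0],[.negSucc 0,.ofNat 2],[.negSucc 0]],[[.ofNat 0,.ofNat 0,.ofNat 1,.ofNat 0,.ofNat 1],[.ofNat 0,.negSucc 1,.ofNat 2,.negSucc 3],[.ofNat 2,.negSucc 3,.ofNat 5],[.ofNat 2,.negSucc 1]]]⟩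
theorem c9 : chkE [e0,e1,e2,e4,e5,e6,e8] e9 true [] 0 1 2 (0,[]) [(1,[]),(2,[]),(3,[]),(2,[]),(2,[(0,1)]),(4,[]),(4,[(0,1),(2,3)]),(5,[(2,3)]),(6,[])] = true := by decide +kernel
theorem k9 (h : Hy) : e9.ok := h.step (fac (k0 h) (fac (k1 h) (fac (k2 h) (fac (k4 h) (fac (k5 h) (fac (k6 h) (fac (k8 h) fan))))))) c9

def e10 : Ent := ⟨3,[(0,1),(0,2)],[[[.negSucc 0,.ofNat 1]],[[.ofNat 0,.ofNat 0,.ofNat 1,.negSucc 0],[.ofNat 1,.negSucc 2,.ofNat 2],[.ofNat 1,.negSucc 0]],[[.ofNat 0,.ofNat 0,.negSucc 0,.ofNat 1,.negSucc 0,.ofNat 1],[.ofNat 0,.ofNat 2,.negSucc 3,.ofNat 6,.negSucc 3],[.negSucc 1,.ofNat 6,.negSucc 8,.ofNat 5],[.negSucc 1,.ofNat 4,.negSucc 1]]]⟩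
theorem c10 : chkE [e9] e10 false [(0,1)] 0 0 2 (0,[]) [] = true := by decide +kernel
theorem k10 (h : Hy) : e10.ok := h.step (fac (k9 h) fan) c10

def e11 : Ent := ⟨3,[(0,2)],[[[.ofNat 1]],[[.ofNat 0,.negSucc 0]],[[.ofNat 0,.ofNat 0,.ofNat 0,.ofNat 1],[.ofNat 0,.ofNat 1,.negSucc 1],[.ofNat 0,.ofNat 1]]]⟩
theorem c11 : chkE [e0,e9] e11 false [] 0 0 2 (0,[]) [(1,[])] = true := by decide +kernel
theorem k11 (h : Hy) : e11.ok := h.step (fac (k0 h) (fac (k9 h) fan)) c11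

def e12 : Ent := ⟨2,[(0,2),(0,3),(1,2)],[[[.ofNat 1,.negSucc 0],[.negSucc 0,.ofNat 1]],[[.ofNat 1,.negSucc 1,.ofNat 1],[.negSucc 0,.ofNat 2,.negSucc 0]]]⟩
theorem c12 : chkE [e4] e12 false [(0,2),(1,2)] 0 0 3 (0,[]) [(3,[])] = true := by decide +kernel
theorem k12 (h : Hy) : e12.ok := h.step (fac (k4 h) fan) c12

def e13 : Ent := ⟨2,[(0,2),(1,2),(2,3)],[[[.ofNat 2],[.negSucc 2],[.ofNat 1]]]⟩
theorem c13 : chkE [e4] e13 false [(0,2),(1,2)] 0 2 3 (0,[]) [] = true := by decide +kernel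
theorem k13 (h : Hy) : e13.ok := h.step (fac (k4 h) fan) c13

def e14 : Ent := ⟨2,[(0,2),(0,3),(1,3),(2,4)],[[[.negSucc 0,.ofNat 1],[.ofNat 2,.negSucc 1],[.negSucc 0,.ofNat 1]],[[.negSucc 3,.ofNat 6,.negSucc 1],[.ofNat 7,.negSucc 10,.ofNat 4],[.negSucc 1,.ofNat 4,.negSucc 1],[.negSucc 0,.ofNat 1]]]⟩
theorem c14 : chkE [e12] e14 false [(0,2),(0,3),(1,3)] 0 2 4 (0,[(2,3)]) [(4,[]),(4,[])] = true := by decide +kernel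
theorem k14 (h : Hy) : e14.ok := h.step (fac (k12 h) fan) c14

def e15 : Ent := ⟨2,[(0,3),(1,3),(2,3),(2,4)],[[[.negSucc 1],[.ofNat 5],[.negSucc 3],[.ofNat 1]],[[.negSucc 3,.ofNat 4],[.ofNat 6,.negSucc 9],[.ofNat 2,.ofNat 8],[.negSucc 5,.negSucc 1],[.ofNat 2]]]⟩
theorem c15 : chkE [e13] e15 false [(0,3),(1,3),(2,3)] 0 2 4 (0,[(2,3)]) [(4,[]),(4,[])] = true := by decide +kernel
theorem k15 (h : Hy) : e15.ok := h.step (fac (k13 h) fan) c15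

def e16 : Ent := ⟨2,[(0,2),(0,4),(1,2),(2,3)],[[[.negSucc 1,.ofNat 2],[.ofNat 3,.negSucc 2],[.negSucc 0,.ofNat 1]],[[.negSucc 3,.ofNat 6,.negSucc 1],[.ofNat 4,.negSucc 6,.ofNat 3],[.ofNat 1,.ofNat 0,.negSucc 0],[.negSucc 0,.ofNat 1]]]⟩
theorem c16 : chkE [e13] e16 false [(0,2),(1,2),(2,3)] 0 0 4 (0,[]) [(4,[]),(4,[])] = true := by decide +kernel
theorem k16 (h : Hy) : e16.ok := h.step (fac (k13 h) fan) c16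

def e17 : Ent := ⟨2,[(0,3),(2,3),(2,4)],[[[.ofNat 1],[.negSucc 1],[.ofNat 1]],[[.ofNat 1,.negSucc 3],[.ofNat 1,.ofNat 8],[.negSucc 4,.negSucc 3],[.ofNat 3]]]⟩
theorem c17 : chkE [e7] e17 false [(0,3),(2,3)] 0 2 4 (0,[(2,3)]) [(4,[]),(4,[])] = true := by decide +kernel
theorem k17 (h : Hy) : e17.ok := h.step (fac (k7 h) fan) c17

def e18 : Ent := ⟨2,[(0,3),(1,4),(2,3),(2,4)],[[[.negSucc 0],[.ofNat 3],[.negSucc 2],[.ofNat 1]],[[.negSucc 3,.ofNat 4],[.ofNat 9,.negSucc 11],[.negSucc 2,.ofNat 12],[.negSucc 4,.negSucc 3],[.ofNat 3]]]⟩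
theorem c18 : chkE [e17] e18 true [(1,4),(2,3),(2,4)] 0 3 5 (0,[(0,1),(3,4)]) [(5,[]),(5,[]),(5,[]),(5,[]),(6,[]),(6,[]),(6,[]),(6,[]),(6,[]),(6,[]),(6,[]),(6,[]),(6,[]),(7,[]),(7,[]),(7,[]),(7,[])] = true := by decide +kernel
theorem k18 (h : Hy) : e18.ok := h.step (fac (k17 h) fan) c18

def e19 : Ent := ⟨3,[(0,2),(1,2)],[[[.negSucc 0],[.ofNat 1]],[[],[.ofNat 1],[.negSucc 0]],[[.ofNat 0,.ofNat 0,.ofNat 2,.negSucc 1],[.ofNat 0,.negSucc 3,.ofNat 3,.ofNat 2],[.ofNat 1,.ofNat 0,.negSucc 4],[.ofNat 0,.ofNat 4],[.negSucc 0]]]⟩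
theorem c19 : chkE [e11,e10,e4,e12,e8,e13,e14,e15,e16,e18] e19 true [(1,2)] 0 2 3 (0,[(0,1)]) [(1,[(0,1)]),(2,[]),(3,[]),(4,[(2,3)]),(3,[]),(3,[(0,1)]),(5,[]),(6,[(2,3)]),(7,[(2,3),(2,4)]),(8,[(3,4)]),(9,[(2,4)])] = true := by decide +kernel
theorem k19 (h : Hy) : e19.ok := h.step (fac (k11 h) (fac (k10 h) (fac (k4 h) (fac (k12 h) (fac (k8 h) (fac (k13 h) (fac (k14 h) (fac (k15 h) (fac (k16 h) (fac (k18 h) fan)))))))))) c19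

def e20 : Ent := ⟨2,[(0,1),(0,2),(1,2)],[[[.negSucc 0,.ofNat 2,.negSucc 0],[.ofNat 1,.negSucc 1,.ofNat 1]],[[.ofNat 3,.negSucc 7,.ofNat 8,.negSucc 3,.ofNat 1],[.negSucc 0,.ofNat 2,.negSucc 1,.ofNat 2,.negSucc 0],[.negSucc 0,.ofNat 4,.negSucc 4,.ofNat 2],[.negSucc 0,.ofNat 2,.negSucc 0]]]⟩
theorem c20 : chkE [e19] e20 true [(0,2),(1,2)] 0 1 3 (0,[]) [(3,[]),(4,[]),(4,[]),(4,[]),(4,[]),(4,[]),(5,[]),(5,[]),(5,[]),(5,[])] = true := by decide +kernel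
theorem k20 (h : Hy) : e20.ok := h.step (fac (k19 h) fan) c20

def e21 : Ent := ⟨3,[(0,1),(0,2),(2,3)],[[[.ofNat 1,.negSucc 0],[.negSucc 0,.ofNat 1]],[[.ofNat 1,.negSucc 1,.ofNat 0,.ofNat 1],[.negSucc 0,.ofNat 4,.negSucc 1,.negSucc 0],[.negSucc 0,.negSucc 0,.ofNat 2],[.ofNat 1,.negSucc 0]],[[.negSucc 2,.ofNat 8,.negSucc 6,.ofNat 3,.ofNat 0,.negSucc 0],[.ofNat 2,.negSucc 5,.ofNat 5,.negSucc 5,.ofNat 4,.ofNat 1],[.ofNat 2,.negSucc 3,.ofNat 8,.negSucc 1,.negSucc 3],[.ofNat 0,.negSucc 0,.negSucc 3,.ofNat 5],[.negSucc 0,.ofNat 3,.negSucc 1]]]⟩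
theorem c21 : chkE [e10,e20] e21 false [(0,1),(0,2)] 0 2 3 (0,[]) [(1,[])] = true := by decide +kernel
theorem k21 (h : Hy) : e21.ok := h.step (fac (k10 h) (fac (k20 h) fan)) c21

def e22 : Ent := ⟨3,[(0,1),(0,3),(1,2)],[[[.ofNat 1,.negSucc 1,.ofNat 1]],[[.ofNat 1,.negSucc 1,.ofNat 0,.ofNat 2,.negSucc 0],[.negSucc 0,.ofNat 4,.negSucc 4,.ofNat 2],[.negSucc 0,.ofNat 2,.negSucc 0]],[[.negSucc 2,.ofNat 8,.negSucc 6,.ofNat 2,.ofNat 1,.negSucc 1,.ofNat 1],[.ofNat 2,.negSucc 5,.ofNat 8,.negSucc 9,.ofNat 10,.negSucc 3],[.ofNat 2,.negSucc 7,.ofNat 15,.negSucc 13,.ofNat 5],[.ofNat 2,.negSucc 5,.ofNat 6,.negSucc 1]]]⟩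
theorem c22 : chkE [e10,e20] e22 false [(0,1),(1,2)] 0 0 3 (0,[(0,1)]) [(1,[])] = true := by decide +kernel
theorem k22 (h : Hy) : e22.ok := h.step (fac (k10 h) (fac (k20 h) fan)) c22

def e23 : Ent := ⟨3,[(0,2),(2,3)],[[[.negSucc 0],[.ofNat 1]],[[.ofNat 0,.ofNat 2],[.negSucc 0,.negSucc 1],[.ofNat 1]],[[.ofNat 0,.ofNat 0,.ofNat 0,.negSucc 0],[.ofNat 0,.ofNat 0,.ofNat 2,.ofNat 1],[.negSucc 0,.negSucc 0,.negSucc 1],[.ofNat 1,.ofNat 1]]]⟩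
theorem c23 : chkE [e11,e19] e23 false [(0,2)] 0 2 3 (0,[]) [(1,[])] = true := by decide +kernel
theorem k23 (h : Hy) : e23.ok := h.step (fac (k11 h) (fac (k19 h) fan)) c23

def e24 : Ent := ⟨2,[(0,2),(0,4),(1,3),(2,3)],[[[.negSucc 0,.ofNat 1],[.ofNat 2,.negSucc 1],[.negSucc 0,.ofNat 1]],[[.negSucc 3,.ofNat 7,.negSucc 2],[.ofNat 6,.negSucc 11,.ofNat 6],[.ofNat 0,.ofNat 3,.negSucc 2],[.negSucc 1,.ofNat 2]]]⟩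
theorem c24 : chkE [e8] e24 false [(0,2),(1,3),(2,3)] 0 0 4 (0,[]) [(4,[]),(4,[])] = true := by decide +kernel
theorem k24 (h : Hy) : e24.ok := h.step (fac (k8 h) fan) c24

def e25 : Ent := ⟨2,[(0,2),(0,3),(2,3)],[[[.negSucc 0,.ofNat 1],[.ofNat 2,.negSucc 1],[.negSucc 0,.ofNat 1]],[[.ofNat 3,.negSucc 0,.negSucc 1],[.negSucc 7,.ofNat 4,.ofNat 4],[.ofNat 7,.negSucc 4,.negSucc 1],[.negSucc 1,.ofNat 2]]]⟩
theorem c25 : chkE [e23] e25 true [(0,3),(2,3)] 0 2 4 (0,[(2,3)]) [(4,[]),(4,[]),(5,[]),(5,[]),(5,[]),(5,[]),(5,[]),(5,[]),(5,[]),(6,[]),(6,[]),(6,[]),(6,[])] = true := by decide +kernel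
theorem k25 (h : Hy) : e25.ok := h.step (fac (k23 h) fan) c25

end Pool.Agent.RGA.CT
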