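import Pool.Agent.RGA.Cert00

set_option autoImplicit false

namespace Pool.Agent.RGA.CT

def e26 : Ent := ⟨2,[(0,2),(0,3),(1,4),(2,3)],[[[.negSucc 0,.ofNat 1],[.ofNat 2,.negSucc 1],[.negSucc 0,.ofNat 1]],[[.negSucc 2,.ofNat 6,.negSucc 2],[.ofNat 4,.negSucc 9,.ofNat 6],[.ofNat 1,.ofNat 2,.negSucc 2],[.negSucc 1,.ofNat 2]]]⟩
theorem c26 : chkE [e25] e26 false [(0,2),(0,3),(2,3)] 0 1 4 (0,[]) [(4,[]),(4,[]),(4,[])] = true := by decide +kernel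
theorem k26 (h : Hy) : e26.ok := h.step (fac (k25 h) fan) c26

def e27 : Ent := ⟨2,[(0,2),(1,3),(2,3),(2,4)],[[[.negSucc 1],[.ofNat 5],[.negSucc 3],[.ofNat 1]],[[.negSucc 3,.ofNat 6],[.ofNat 4,.negSucc 14],[.ofNat 7,.ofNat 12],[.negSucc 9,.negSucc 2],[.ofNat 3]]]⟩
theorem c27 : chkE [e8] e27 false [(0,2),(1,3),(2,3)] 0 2 4 (0,[]) [(4,[])] = true := by decide +kernel
theorem k27 (h : Hy) : e27.ok := h.step (fac (k8 h) fan) c27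

def e28 : Ent := ⟨2,[(0,2),(0,3),(1,4),(2,4),(3,5)],[[[.ofNat 1,.negSucc 0],[.negSucc 2,.ofNat 3],[.ofNat 3,.negSucc 2],[.negSucc 0,.ofNat 1]],[[.ofNat 9,.negSucc 12,.ofNat 4],[.negSucc 23,.ofNat 36,.negSucc 11],[.ofNat 18,.negSucc 29,.ofNat 12],[.ofNat 0,.ofNat 4,.negSucc 3],[.negSucc 2,.ofNat 3]]]⟩
theorem c28 : chkE [e24] e28 false [(0,2),(0,3),(1,4),(2,4)] 0 3 5 (0,[(3,4)]) [(5,[]),(5,[]),(5,[])] = true := by decide +kernel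
theorem k28 (h : Hy) : e28.ok := h.step (fac (k24 h) fan) c28

def e29 : Ent := ⟨2,[(0,3),(1,4),(2,3),(2,5),(3,4)],[[[.ofNat 2],[.negSucc 6],[.ofNat 9],[.negSucc 4],[.ofNat 1]],[[.ofNat 12,.negSucc 9],[.negSucc 31,.ofNat 35],[.ofNat 19,.negSucc 44],[.ofNat 15,.ofNat 25],[.negSucc 18,.negSucc 4],[.ofNat 5]]]⟩
theorem c29 : chkE [e27] e29 false [(0,3),(1,4),(2,3),(3,4)] 0 2 5 (0,[(2,4),(3,2)]) [(5,[]),(5,[]),(5,[])] = true := by decide +kernel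
theorem k29 (h : Hy) : e29.ok := h.step (fac (k27 h) fan) c29

def e30 : Ent := ⟨2,[(0,2),(0,5),(1,3),(2,3),(2,4)],[[[.ofNat 2,.negSucc 1],[.negSucc 4,.ofNat 5],[.ofNat 4,.negSucc 3],[.negSucc 0,.ofNat 1]],[[.ofNat 12,.negSucc 19,.ofNat 8],[.negSucc 21,.ofNat 42,.negSucc 19],[.ofNat 4,.negSucc 19,.ofNat 16],[.ofNat 10,.negSucc 5,.negSucc 3],[.negSucc 3,.ofNat 4]]]⟩
theorem c30 : chkE [e27] e30 false [(0,2),(1,3),(2,3),(2,4)] 0 0 5 (0,[]) [(5,[]),(5,[]),(5,[])] = true := by decide +kernel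
theorem k30 (h : Hy) : e30.ok := h.step (fac (k27 h) fan) c30

def e31 : Ent := ⟨2,[(0,4),(2,3),(2,4),(3,5)],[[[.negSucc 0],[.ofNat 3],[.negSucc 2],[.ofNat 1]],[[.negSucc 3,.ofNat 6],[.ofNat 7,.negSucc 17],[.ofNat 3,.ofNat 18],[.negSucc 10,.negSucc 5],[.ofNat 5]]]⟩
theorem c31 : chkE [e17] e31 false [(0,4),(2,3),(2,4)] 0 3 5 (0,[(3,4)]) [(5,[]),(5,[]),(5,[])] = true := by decide +kernel
theorem k31 (h : Hy) : e31.ok := h.step (fac (k17 h) fan) c31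

def e32 : Ent := ⟨2,[(0,4),(1,5),(2,3),(2,4),(3,5)],[[[.ofNat 1],[.negSucc 3],[.ofNat 6],[.negSucc 3],[.ofNat 1]],[[.ofNat 9,.negSucc 5],[.negSucc 30,.ofNat 24],[.ofNat 34,.negSucc 35],[.negSucc 5,.ofNat 24],[.negSucc 10,.negSucc 5],[.ofNat 5]]]⟩
theorem c32 : chkE [e31] e32 true [(1,5),(2,3),(2,4),(3,5)] 0 4 6 (0,[(0,1),(2,3),(4,5)]) [(6,[]),(6,[]),(6,[]),(6,[]),(6,[]),(7,[]),(7,[]),(7,[]),(7,[]),(7,[]),(7,[]),(7,[]),(7,[]),(7,[]),(7,[]),(7,[]),(8,[]),(8,[]),(8,[]),(8,[])] = true := by decide +kernel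
theorem k32 (h : Hy) : e32.ok := h.step (fac (k31 h) fan) c32

def e33 : Ent := ⟨3,[(0,2),(1,3),(2,3)],[[[.ofNat 1],[.negSucc 1],[.ofNat 1]],[[.ofNat 1,.negSucc 1],[.negSucc 0,.ofNat 4],[.negSucc 0,.negSucc 1],[.ofNat 1]],[[.negSucc 2,.ofNat 8,.negSucc 3,.ofNat 2],[.ofNat 2,.negSucc 11,.ofNat 4,.negSucc 3],[.ofNat 5,.ofNat 2,.ofNat 4,.ofNat 2],[.negSucc 3,.ofNat 0,.negSucc 3],[.ofNat 0,.ofNat 2]]]⟩
theorem c33 : chkE [e23,e21,e8,e13,e24,e26,e18,e27,e28,e29,e30,e32] e33 true [(1,3),(2,3)] 0 2 4 (0,[(0,1),(2,3)]) [(1,[(0,1),(2,3)]),(2,[]),(3,[(2,3)]),(4,[]),(5,[(0,1)]),(6,[(3,4)]),(4,[]),(4,[(0,1),(2,3)]),(7,[]),(7,[(0,1),(2,3)]),(8,[(3,4)]),(9,[(2,3),(2,4),(2,5)]),(10,[(4,5)]),(11,[(2,3),(2,5)])] = true := by decide +kernel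
theorem k33 (h : Hy) : e33.ok := h.step (fac (k23 h) (fac (k21 h) (fac (k8 h) (fac (k13 h) (fac (k24 h) (fac (k26 h) (fac (k18 h) (fac (k27 h) (fac (k28 h) (fac (k29 h) (fac (k30 h) (fac (k32 h) fan)))))))))))) c33

def e34 : Ent := ⟨4,[(0,1)],[[[.ofNat 1]],[[.ofNat 0,.ofNat 0,.negSucc 0],[.negSucc 0,.ofNat 2],[.negSucc 0]],[[.ofNat 0,.ofNat 0,.ofNat 1,.ofNat 0,.ofNat 1],[.ofNat 0,.negSucc 1,.ofNat 2,.negSucc 3],[.ofNat 2,.negSucc 3,.ofNat 5],[.ofNat 2,.negSucc 1]],[[.ofNat 0,.ofNat 0,.negSucc 5,.ofNat 4,.negSucc 1,.ofNat 0,.negSucc 0],[.ofNat 0,.ofNat 12,.negSucc 6,.ofNat 4,.negSucc 2,.ofNat 6],[.negSucc 5,.ofNat 2,.negSucc 3,.ofNat 12,.negSucc 12],[.ofNat 0,.ofNat 4,.negSucc 14,.ofNat 12],[.negSucc 1,.ofNat 6,.negSucc 3]]]⟩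
theorem c34 : chkE [e0,e9,e10,e19,e21,e22,e33] e34 true [] 0 1 2 (0,[]) [(1,[]),(2,[]),(3,[]),(2,[]),(2,[(0,1)]),(4,[]),(4,[(0,1),(2,3)]),(5,[(2,3)]),(6,[])] = true := by decide +kernel
theorem k34 (h : Hy) : e34.ok := h.step (fac (k0 h) (fac (k9 h) (fac (k10 h) (fac (k19 h) (fac (k21 h) (fac (k22 h) (fac (k33 h) fan))))))) c34

def e35 : Ent := ⟨4,[(0,1),(0,2)],[[[.negSucc 0,.ofNat 1]],[[.ofNat 0,.ofNat 0,.ofNat 1,.negSucc 0],[.ofNat 1,.negSucc 2,.ofNat 2],[.ofNat 1,.negSucc 0]],[[.ofNat 0,.ofNat 0,.negSucc 0,.ofNat 1,.negSucc 0,.ofNat 1],[.ofNat 0,.ofNat 2,.negSucc 3,.ofNat 6,.negSucc 3],[.negSucc 1,.ofNat 6,.negSucc 8,.ofNat 5],[.negSucc 1,.ofNat 4,.negSucc 1]],[[.ofNat 0,.ofNat 0,.ofNat 6,.negSucc 9,.ofNat 6,.negSucc 1,.ofNat 1,.negSucc 0],[.ofNat 0,.negSucc 11,.ofNat 19,.negSucc 10,.ofNat 7,.negSucc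 8,.ofNat 6],[.ofNat 6,.negSucc 7,.ofNat 6,.negSucc 15,.ofNat 25,.negSucc 12],[.ofNat 0,.negSucc 3,.ofNat 19,.negSucc 26,.ofNat 12],[.ofNat 2,.negSucc 7,.ofNat 10,.negSucc 3]]]⟩
theorem c35 : chkE [e34] e35 false [(0,1)] 0 0 2 (0,[]) [] = true := by decide +kernel
theorem k35 (h : Hy) : e35.ok := h.step (fac (k34 h) fan) c35

def e36 : Ent := ⟨4,[(0,2)],[[[.ofNat 1]],[[.ofNat 0,.negSucc 0]],[[.ofNat 0,.ofNat 0,.ofNat 0,.ofNat 1],[.ofNat 0,.ofNat 1,.negSucc 1],[.ofNat 0,.ofNat 1]],[[.ofNat 0,.ofNat 0,.ofNat 0,.negSucc 0,.ofNat 0,.negSucc 0],[.ofNat 0,.ofNat 0,.ofNat 2,.negSucc 1,.ofNat 4],[.ofNat 0,.negSucc 1,.ofNat 4,.negSucc 4],[.ofNat 0,.negSucc 1,.ofNat 2]]]⟩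
theorem c36 : chkE [e0,e34] e36 false [] 0 0 2 (0,[]) [(1,[])] = true := by decide +kernel
theorem k36 (h : Hy) : e36.ok := h.step (fac (k0 h) (fac (k34 h) fan)) c36

def e37 : Ent := ⟨3,[(0,2),(0,3),(1,2)],[[[.ofNat 1,.negSucc 0],[.negSucc 0,.ofNat 1]],[[.ofNat 1,.negSucc 1,.ofNat 1],[.negSucc 0,.ofNat 2,.negSucc 0]],[[.negSucc 2,.ofNat 8,.negSucc 9,.ofNat 8,.negSucc 2],[.ofNat 2,.ofNat 0,.negSucc 3,.negSucc 0,.ofNat 3],[.negSucc 0,.negSucc 0,.ofNat 9,.negSucc 6],[.ofNat 1,.negSucc 5,.ofNat 5],[.ofNat 1,.negSucc 0]]]⟩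
theorem c37 : chkE [e19,e20] e37 false [(0,2),(1,2)] 0 0 3 (0,[]) [(1,[])] = true := by decide +kernel
theorem k37 (h : Hy) : e37.ok := h.step (fac (k19 h) (fac (k20 h) fan)) c37

def e38 : Ent := ⟨3,[(0,2),(1,2),(2,3)],[[[.ofNat 2],[.negSucc 2],[.ofNat 1]],[],[[.ofNat 0,.ofNat 0,.negSucc 3,.ofNat 4],[.ofNat 0,.ofNat 8,.negSucc 3,.negSucc 5],[.negSucc 1,.negSucc 3,.ofNat 13,.ofNat 2],[.ofNat 1,.negSucc 7,.negSucc 4],[.ofNat 2,.ofNat 4],[.negSucc 0]]]⟩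
theorem c38 : chkE [e19] e38 false [(0,2),(1,2)] 0 2 3 (0,[]) [] = true := by decide +kernel
theorem k38 (h : Hy) : e38.ok := h.step (fac (k19 h) fan) c38

def e39 : Ent := ⟨2,[(0,2),(0,3),(1,2),(1,3)],[[[.ofNat 1,.negSucc 1,.ofNat 1],[.negSucc 1,.ofNat 4,.negSucc 1],[.ofNat 1,.negSucc 1,.ofNat 1]]]⟩
theorem c39 : chkE [e37] e39 true [(0,3),(1,2),(1,3)] 0 2 4 (0,[(0,1),(2,3)]) [(4,[]),(4,[]),(5,[]),(5,[]),(5,[]),(5,[]),(5,[]),(5,[]),(5,[]),(6,[]),(6,[]),(6,[]),(6,[])] = true := by decide +kernel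
theorem k39 (h : Hy) : e39.ok := h.step (fac (k37 h) fan) c39

def e40 : Ent := ⟨2,[(0,2),(0,3),(1,3),(2,3)],[[[.ofNat 2,.negSucc 1],[.negSucc 4,.ofNat 5],[.ofNat 4,.negSucc 3],[.negSucc 0,.ofNat 1]],[[.negSucc 5,.ofNat 6],[.ofNat 17,.negSucc 16],[.negSucc 16,.ofNat 17],[.ofNat 7,.negSucc 6],[.negSucc 0,.ofNat 1]]]⟩
theorem c40 : chkE [e38] e40 true [(0,3),(1,3),(2,3)] 0 2 4 (0,[(2,3)]) [(4,[]),(4,[]),(5,[]),(5,[]),(5,[]),(5,[]),(5,[]),(5,[]),(5,[]),(6,[]),(6,[]),(6,[]),(6,[])] = true := by decide +kernel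
theorem k40 (h : Hy) : e40.ok := h.step (fac (k38 h) fan) c40

def e41 : Ent := ⟨3,[(0,2),(0,3),(1,3),(2,4)],[[[.negSucc 0,.ofNat 1],[.ofNat 2,.negSucc 1],[.negSucc 0,.ofNat 1]],[[.negSucc 3,.ofNat 6,.negSucc 1],[.ofNat 7,.negSucc 10,.ofNat 4],[.negSucc 1,.ofNat 4,.negSucc 1],[.negSucc 0,.ofNat 1]],[[.ofNat 9,.negSucc 13,.ofNat 10,.negSucc 7,.ofNat 3],[.negSucc 29,.ofNat 37,.negSucc 9,.ofNat 9,.negSucc 5],[.ofNat 34,.negSucc 37,.negSucc 4,.ofNat 6,.ofNat 3],[.negSucc 12,.ofNat 20,.ofNat 0,.negSucc 6],[.negSucc 0,.negSucc 3,.ofNat 5],[.ofNat 1,.negSucc 0]]]⟩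
theorem c41 : chkE [e37,e39,e40] e41 false [(0,2),(0,3),(1,3)] 0 2 4 (0,[(2,3)]) [(1,[]),(2,[])] = true := by decide +kernel
theorem k41 (h : Hy) : e41.ok := h.step (fac (k37 h) (fac (k39 h) (fac (k40 h) fan))) c41

def e42 : Ent := ⟨3,[(0,3),(1,3),(2,3),(2,4)],[[[.negSucc 1],[.ofNat 5],[.negSucc 3],[.ofNat 1]],[[.negSucc 3,.ofNat 4],[.ofNat 6,.negSucc 9],[.ofNat 2,.ofNat 8],[.negSucc 5,.negSucc 1],[.ofNat 2]],[[.ofNat 12,.negSucc 11,.ofNat 4,.negSucc 3],[.negSucc 41,.ofNat 34,.ofNat 0,.ofNat 10],[.ofNat 48,.negSucc 41,.negSucc 16,.negSucc 7],[.negSucc 12,.ofNat 34,.ofNat 18,.ofNat 2],[.negSucc 10,.negSucc 17,.negSucc 4],[.ofNat 7,.ofNat 4],[.negSucc 0]]]⟩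
theorem c42 : chkE [e38,e40] e42 false [(0,3),(1,3),(2,3)] 0 2 4 (0,[(2,3)]) [(1,[]),(1,[(0,1)])] = true := by decide +kernel
theorem k42 (h : Hy) : e42.ok := h.step (fac (k38 h) (fac (k40 h) fan)) c42

def e43 : Ent := ⟨2,[(0,1),(0,2),(1,2),(2,3)],[[[.ofNat 2,.negSucc 3,.ofNat 2],[.negSucc 2,.ofNat 6,.negSucc 2],[.ofNat 1,.negSucc 1,.ofNat 1]],[[.negSucc 5,.ofNat 16,.negSucc 15,.ofNat 8,.negSucc 1],[.ofNat 7,.negSucc 15,.ofNat 14,.negSucc 7,.ofNat 3],[.negSucc 1,.ofNat 0,.ofNat 5,.negSucc 1,.negSucc 0],[.ofNat 2,.negSucc 1,.negSucc 1,.ofNat 2],[.negSucc 0,.ofNat 2,.negSucc 0]]]⟩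
theorem c43 : chkE [e20] e43 false [(0,1),(0,2),(1,2)] 0 2 3 (0,[]) [] = true := by decide +kernel
theorem k43 (h : Hy) : e43.ok := h.step (fac (k20 h) fan) c43

def e44 : Ent := ⟨3,[(0,2),(0,4),(1,2),(2,3)],[[[.negSucc 1,.ofNat 2],[.ofNat 3,.negSucc 2],[.negSucc 0,.ofNat 1]],[[.negSucc 3,.ofNat 6,.negSucc 1],[.ofNat 4,.negSucc 6,.ofNat 3],[.ofNat 1,.ofNat 0,.negSucc 0],[.negSucc 0,.ofNat 1]],[[.ofNat 12,.negSucc 21,.ofNat 20,.negSucc 15,.ofNat 6],[.negSucc 31,.ofNat 37,.negSucc 5,.ofNat 10,.negSucc 8],[.ofNat 29,.negSucc 28,.negSucc 15,.ofNat 13,.ofNat 3],[.negSucc 7,.ofNat 18,.negSucc 2,.negSucc 6],[.negSucc 1,.negSucc 2,.ofNat 5],[.ofNat 1,.negSucc 0]]]⟩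
theorem c44 : chkE [e38,e43,e40] e44 false [(0,2),(1,2),(2,3)] 0 0 4 (0,[]) [(1,[]),(2,[(2,3)])] = true := by decide +kernel
theorem k44 (h : Hy) : e44.ok := h.step (fac (k38 h) (fac (k43 h) (fac (k40 h) fan))) c44

def e45 : Ent := ⟨3,[(0,3),(2,3),(2,4)],[[[.ofNat 1],[.negSucc 1],[.ofNat 1]],[[.ofNat 1,.negSucc 3],[.ofNat 1,.ofNat 8],[.negSucc 4,.negSucc 3],[.ofNat 3]],[[.negSucc 2,.ofNat 0,.ofNat 4,.ofNat 1],[.ofNat 10,.negSucc 10,.negSucc 9,.negSucc 1],[.negSucc 3,.ofNat 23,.ofNat 8,.ofNat 1],[.negSucc 9,.negSucc 12,.negSucc 1],[.ofNat 7,.ofNat 1]]]⟩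
theorem c45 : chkE [e23,e25,e33] e45 false [(0,3),(2,3)] 0 2 4 (0,[(2,3)]) [(1,[]),(2,[(2,3)])] = true := by decide +kernel
theorem k45 (h : Hy) : e45.ok := h.step (fac (k23 h) (fac (k25 h) (fac (k33 h) fan))) c45

def e46 : Ent := ⟨2,[(0,1),(0,3),(2,3),(2,4)],[[[.negSucc 0,.ofNat 1],[.ofNat 2,.negSucc 1],[.negSucc 0,.ofNat 1]],[[.negSucc 3,.ofNat 7,.negSucc 1,.negSucc 0],[.ofNat 6,.negSucc 13,.ofNat 6,.ofNat 2],[.ofNat 1,.ofNat 6,.negSucc 5,.negSucc 0],[.negSucc 3,.ofNat 2,.ofNat 2],[.ofNat 1,.negSucc 0]]]⟩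
theorem c46 : chkE [e21] e46 false [(0,1),(0,3),(2,3)] 0 2 4 (0,[(2,3)]) [(4,[]),(4,[])] = true := by decide +kernel
theorem k46 (h : Hy) : e46.ok := h.step (fac (k21 h) fan) c46

def e47 : Ent := ⟨2,[(0,3),(0,5),(1,4),(2,3),(2,4)],[[[.ofNat 1,.negSucc 0],[.negSucc 2,.ofNat 3],[.ofNat 3,.negSucc 2],[.negSucc 0,.ofNat 1]],[[.ofNat 9,.negSucc 13,.ofNat 5],[.negSucc 22,.ofNat 38,.negSucc 14],[.ofNat 15,.negSucc 29,.ofNat 15],[.ofNat 3,.ofNat 2,.negSucc 4],[.negSucc 3,.ofNat 4]]]⟩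
theorem c47 : chkE [e18] e47 false [(0,3),(1,4),(2,3),(2,4)] 0 0 5 (0,[]) [(5,[]),(5,[]),(5,[])] = true := by decide +kernel
theorem k47 (h : Hy) : e47.ok := h.step (fac (k18 h) fan) c47

def e48 : Ent := ⟨2,[(0,3),(0,4),(2,3),(2,4)],[[[.ofNat 1,.negSucc 0],[.negSucc 2,.ofNat 3],[.ofNat 3,.negSucc 2],[.negSucc 0,.ofNat 1]],[[.ofNat 0,.negSucc 3,.ofNat 4],[.ofNat 4,.ofNat 8,.negSucc 11],[.negSucc 11,.ofNat 0,.ofNat 12],[.ofNat 12,.negSucc 7,.negSucc 3],[.negSucc 3,.ofNat 4]]]⟩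
theorem c48 : chkE [e45] e48 true [(0,4),(2,3),(2,4)] 0 3 5 (0,[(3,4)]) [(5,[]),(5,[]),(5,[]),(6,[]),(6,[]),(6,[]),(6,[]),(6,[]),(6,[]),(6,[]),(6,[]),(6,[]),(7,[]),(7,[]),(7,[]),(7,[])] = true := by decide +kernel
theorem k48 (h : Hy) : e48.ok := h.step (fac (k45 h) fan) c48

def e49 : Ent := ⟨2,[(0,3),(0,4),(1,5),(2,3),(2,4)],[[[.ofNat 1,.negSucc 0],[.negSucc 2,.ofNat 3],[.ofNat 3,.negSucc 2],[.negSucc 0,.ofNat 1]],[[.ofNat 8,.negSucc 12,.ofNat 5],[.negSucc 19,.ofNat 35,.negSucc 14],[.ofNat 12,.negSucc 26,.ofNat 15],[.ofNat 4,.ofNat 1,.negSucc 4],[.negSucc 3,.ofNat 4]]]⟩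
theorem c49 : chkE [e48] e49 false [(0,3),(0,4),(2,3),(2,4)] 0 1 5 (0,[]) [(5,[]),(5,[]),(5,[]),(5,[])] = true := by decide +kernel
theorem k49 (h : Hy) : e49.ok := h.step (fac (k48 h) fan) c49

def e50 : Ent := ⟨2,[(2,3)],[[[.ofNat 1]],[[.ofNat 0,.negSucc 1],[.ofNat 1]]]⟩
theorem c50 : chkE [e0] e50 false [] 0 2 3 (0,[]) [(3,[]),(3,[])] = true := by decide +kernel
theorem k50 (h : Hy) : e50.ok := h.step (fac (k0 h) fan) c50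

end Pool.Agent.RGA.CT
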