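import Pool.Agent.RGA.Cert01

set_option autoImplicit false

namespace Pool.Agent.RGA.CT

def e51 : Ent := ⟨2,[(2,3),(2,4)],[[[.negSucc 0],[.ofNat 1]],[[.ofNat 0,.ofNat 4],[.negSucc 2,.negSucc 3],[.ofNat 3]]]⟩
theorem c51 : chkE [e50] e51 false [(2,3)] 0 2 4 (0,[]) [(4,[]),(4,[])] = true := by decide +kernel
theorem k51 (h : Hy) : e51.ok := h.step (fac (k50 h) fan) c51

def e52 : Ent := ⟨2,[(2,3),(2,4),(3,4)],[[[.negSucc 0],[.ofNat 3],[.negSucc 2],[.ofNat 1]],[[.ofNat 3,.ofNat 6],[.negSucc 14,.negSucc 17],[.ofNat 27,.ofNat 18],[.negSucc 20,.negSucc 5],[.ofNat 6]]]⟩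
theorem c52 : chkE [e51] e52 true [(2,4),(3,4)] 2 3 5 (0,[(2,3),(2,4)]) [(5,[]),(5,[]),(5,[]),(6,[]),(6,[]),(6,[]),(6,[]),(6,[]),(6,[]),(6,[]),(6,[]),(6,[]),(7,[]),(7,[]),(7,[]),(7,[])] = true := by decide +kernel
theorem k52 (h : Hy) : e52.ok := h.step (fac (k51 h) fan) c52

def e53 : Ent := ⟨2,[(0,4),(2,3),(2,4),(3,4)],[[[.ofNat 2],[.negSucc 6],[.ofNat 9],[.negSucc 4],[.ofNat 1]],[[.negSucc 5,.negSucc 9],[.ofNat 33,.ofNat 35],[.negSucc 68,.negSucc 44],[.ofNat 69,.ofNat 25],[.negSucc 32,.negSucc 4],[.ofNat 6]]]⟩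
theorem c53 : chkE [e52] e53 true [(2,3),(2,4),(3,4)] 0 4 5 (0,[]) [(5,[]),(5,[]),(5,[]),(5,[]),(6,[]),(6,[]),(6,[]),(6,[]),(6,[]),(6,[]),(6,[]),(6,[]),(7,[]),(7,[]),(7,[]),(7,[])] = true := by decide +kernel
theorem k53 (h : Hy) : e53.ok := h.step (fac (k52 h) fan) c53

def e54 : Ent := ⟨2,[(0,4),(1,5),(2,3),(2,4),(3,4)],[[[.ofNat 2],[.negSucc 6],[.ofNat 9],[.negSucc 4],[.ofNat 1]],[[.ofNat 10,.negSucc 11],[.negSucc 22,.ofNat 42],[.ofNat 3,.negSucc 53],[.ofNat 29,.ofNat 30],[.negSucc 24,.negSucc 5],[.ofNat 6]]]⟩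
theorem c54 : chkE [e53] e54 false [(0,4),(2,3),(2,4),(3,4)] 0 1 5 (0,[]) [(5,[]),(5,[]),(5,[]),(5,[])] = true := by decide +kernel
theorem k54 (h : Hy) : e54.ok := h.step (fac (k53 h) fan) c54

def e55 : Ent := ⟨2,[(0,3),(1,4),(2,3),(2,4),(2,5)],[[[.ofNat 2],[.negSucc 6],[.ofNat 9],[.negSucc 4],[.ofNat 1]],[[.ofNat 12,.negSucc 11],[.negSucc 29,.ofNat 42],[.ofNat 12,.negSucc 53],[.ofNat 24,.ofNat 30],[.negSucc 23,.negSucc 5],[.ofNat 6]]]⟩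
theorem c55 : chkE [e18] e55 false [(0,3),(1,4),(2,3),(2,4)] 0 2 5 (0,[]) [(5,[]),(5,[])] = true := by decide +kernel
theorem k55 (h : Hy) : e55.ok := h.step (fac (k18 h) fan) c55

def e56 : Ent := ⟨2,[(0,3),(1,4),(2,3),(2,4),(3,5)],[[[.ofNat 2],[.negSucc 6],[.ofNat 9],[.negSucc 4],[.ofNat 1]],[[.ofNat 14,.negSucc 9],[.negSucc 38,.ofNat 35],[.ofNat 28,.negSucc 44],[.ofNat 10,.ofNat 25],[.negSucc 17,.negSucc 4],[.ofNat 5]]]⟩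
theorem c56 : chkE [e18] e56 false [(0,3),(1,4),(2,3),(2,4)] 0 3 5 (0,[]) [(5,[]),(5,[])] = true := by decide +kernel
theorem k56 (h : Hy) : e56.ok := h.step (fac (k18 h) fan) c56

def e57 : Ent := ⟨2,[(0,3),(0,4),(1,5),(2,3),(2,5),(4,6)],[[[.negSucc 0,.ofNat 1],[.ofNat 4,.negSucc 3],[.negSucc 5,.ofNat 6],[.ofNat 4,.negSucc 3],[.negSucc 0,.ofNat 1]],[[.negSucc 15,.ofNat 22,.negSucc 5],[.ofNat 59,.negSucc 82,.ofNat 24],[.negSucc 75,.ofNat 112,.negSucc 35],[.ofNat 34,.negSucc 57,.ofNat 24],[.ofNat 4,.ofNat 2,.negSucc 5],[.negSucc 4,.ofNat 5]]]⟩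
theorem c57 : chkE [e47] e57 false [(0,3),(0,4),(1,5),(2,3),(2,5)] 0 4 6 (0,[(4,5)]) [(6,[]),(6,[]),(6,[]),(6,[])] = true := by decide +kernel
theorem k57 (h : Hy) : e57.ok := h.step (fac (k47 h) fan) c57

def e58 : Ent := ⟨2,[(0,4),(1,5),(2,4),(2,5),(3,4),(3,6)],[[[.negSucc 1],[.ofNat 9],[.negSucc 15],[.ofNat 14],[.negSucc 5],[.ofNat 1]],[[.negSucc 25,.ofNat 14],[.ofNat 103,.negSucc 62],[.negSucc 144,.ofNat 112],[.ofNat 70,.negSucc 97],[.ofNat 20,.ofNat 42],[.negSucc 28,.negSucc 6],[.ofNat 7]]]⟩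
theorem c58 : chkE [e56] e58 false [(0,4),(1,5),(2,4),(2,5),(3,4)] 0 3 6 (0,[(3,5),(4,3)]) [(6,[]),(6,[]),(6,[]),(6,[])] = true := by decide +kernel
theorem k58 (h : Hy) : e58.ok := h.step (fac (k56 h) fan) c58

def e59 : Ent := ⟨2,[(0,3),(0,6),(1,4),(2,3),(2,4),(3,5)],[[[.negSucc 1,.ofNat 2],[.ofNat 7,.negSucc 6],[.negSucc 8,.ofNat 9],[.ofNat 5,.negSucc 4],[.negSucc 0,.ofNat 1]],[[.negSucc 25,.ofNat 38,.negSucc 11],[.ofNat 79,.negSucc 120,.ofNat 42],[.negSucc 74,.ofNat 129,.negSucc 53],[.ofNat 11,.negSucc 40,.ofNat 30],[.ofNat 17,.negSucc 10,.negSucc 5],[.negSucc 5,.ofNat 6]]]⟩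
theorem c59 : chkE [e56] e59 false [(0,3),(1,4),(2,3),(2,4),(3,5)] 0 0 6 (0,[]) [(6,[]),(6,[]),(6,[]),(6,[])] = true := by decide +kernel
theorem k59 (h : Hy) : e59.ok := h.step (fac (k56 h) fan) c59

def e60 : Ent := ⟨2,[(0,5),(2,3),(2,4),(3,5),(4,6)],[[[.ofNat 1],[.negSucc 3],[.ofNat 6],[.negSucc 3],[.ofNat 1]],[[.ofNat 9,.negSucc 7],[.negSucc 28,.ofNat 32],[.ofNat 26,.negSucc 47],[.ofNat 6,.ofNat 32],[.negSucc 18,.negSucc 7],[.ofNat 7]]]⟩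
theorem c60 : chkE [e31] e60 false [(0,5),(2,3),(2,4),(3,5)] 0 4 6 (0,[(2,3),(4,5)]) [(6,[]),(6,[]),(6,[]),(6,[])] = true := by decide +kernel
theorem k60 (h : Hy) : e60.ok := h.step (fac (k31 h) fan) c60

def e61 : Ent := ⟨2,[(0,5),(1,6),(2,3),(2,4),(3,5),(4,6)],[[[.negSucc 0],[.ofNat 5],[.negSucc 9],[.ofNat 10],[.negSucc 4],[.ofNat 1]],[[.negSucc 15,.ofNat 8],[.ofNat 73,.negSucc 39],[.negSucc 124,.ofNat 80],[.ofNat 90,.negSucc 79],[.negSucc 9,.ofNat 40],[.negSucc 18,.negSucc 7],[.ofNat 7]]]⟩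
theorem c61 : chkE [e60] e61 true [(1,6),(2,3),(2,4),(3,5),(4,6)] 0 5 7 (0,[(0,1),(3,4),(5,6)]) [(7,[]),(7,[]),(7,[]),(7,[]),(7,[]),(7,[]),(8,[]),(8,[]),(8,[]),(8,[]),(8,[]),(8,[]),(8,[]),(8,[]),(8,[]),(8,[]),(8,[]),(8,[]),(8,[]),(9,[]),(9,[]),(9,[]),(9,[])] = true := by decide +kernel
theorem k61 (h : Hy) : e61.ok := h.step (fac (k60 h) fan) c61

def e62 : Ent := ⟨3,[(0,3),(1,4),(2,3),(2,4)],[[[.negSucc 0],[.ofNat 3],[.negSucc 2],[.ofNat 1]],[[.negSucc 3,.ofNat 4],[.ofNat 9,.negSucc 11],[.negSucc 2,.ofNat 12],[.negSucc 4,.negSucc 3],[.ofNat 3]],[[.ofNat 9,.negSucc 3,.ofNat 0,.negSucc 1],[.negSucc 39,.ofNat 22,.ofNat 4,.ofNat 6],[.ofNat 59,.negSucc 43,.negSucc 11,.negSucc 5],[.negSucc 26,.ofNat 40,.ofNat 12,.ofNat 2],[.negSucc 7,.negSucc 15,.negSucc 3],[.ofNat 7,.ofNat 2]]]⟩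
theorem c62 : chkE [e45,e46,e27,e18,e42,e47,e49,e54,e32,e55,e56,e57,e58,e59,e61] e62 true [(1,4),(2,3),(2,4)] 0 3 5 (0,[(0,1),(3,4)]) [(1,[(0,1),(3,4)]),(2,[(3,4)]),(3,[]),(4,[(3,4)]),(5,[]),(6,[(0,1)]),(7,[(0,1)]),(8,[(2,3),(4,5)]),(5,[]),(5,[(0,1),(3,4)]),(9,[]),(10,[]),(10,[(0,1),(3,4)]),(11,[(4,5)]),(12,[(3,4),(3,5),(3,6)]),(13,[(5,6)]),(14,[(2,4),(3,2),(3,6)])] = true := by decide +kernel
theorem k62 (h : Hy) : e62.ok := h.step (fac (k45 h) (fac (k46 h) (fac (k27 h) (fac (k18 h) (fac (k42 h) (fac (k47 h) (fac (k49 h) (fac (k54 h) (fac (k32 h) (fac (k55 h) (fac (k56 h) (fac (k57 h) (fac (k58 h) (fac (k59 h) (fac (k61 h) fan))))))))))))))) c62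

def e63 : Ent := ⟨4,[(0,2),(1,2)],[[[.negSucc 0],[.ofNat 1]],[[],[.ofNat 1],[.negSucc 0]],[[.ofNat 0,.ofNat 0,.ofNat 2,.negSucc 1],[.ofNat 0,.negSucc 3,.ofNat 3,.ofNat 2],[.ofNat 1,.ofNat 0,.negSucc 4],[.ofNat 0,.ofNat 4],[.negSucc 0]],[[.ofNat 0,.ofNat 0,.negSucc 14,.ofNat 16,.negSucc 6,.ofNat 2],[.ofNat 0,.ofNat 30,.negSucc 22,.ofNat 8,.negSucc 0,.negSucc 1],[.negSucc 14,.negSucc 1,.ofNat 10,.negSucc 13,.ofNat 8],[.ofNat 10,.negSucc 15,.ofNat 25,.negSucc 9],[.ofNat 4,.negSucc 13,.ofNat 3],[.ofNat 2,.ofNat 2],[.negSucc 0]]]⟩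
theorem c63 : chkE [e36,e35,e19,e37,e33,e38,e41,e42,e44,e62] e63 true [(1,2)] 0 2 3 (0,[(0,1)]) [(1,[(0,1)]),(2,[]),(3,[]),(4,[(2,3)]),(3,[]),(3,[(0,1)]),(5,[]),(6,[(2,3)]),(7,[(2,3),(2,4)]),(8,[(3,4)]),(9,[(2,4)])] = true := by decide +kernel
theorem k63 (h : Hy) : e63.ok := h.step (fac (k36 h) (fac (k35 h) (fac (k19 h) (fac (k37 h) (fac (k33 h) (fac (k38 h) (fac (k41 h) (fac (k42 h) (fac (k44 h) (fac (k62 h) fan)))))))))) c63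

def e64 : Ent := ⟨2,[(0,1),(0,2),(0,3),(1,2)],[[[.ofNat 2,.negSucc 4,.ofNat 4,.negSucc 0],[.negSucc 1,.ofNat 5,.negSucc 3,.ofNat 1]],[[.negSucc 5,.ofNat 19,.negSucc 23,.ofNat 16,.negSucc 5,.ofNat 1],[.ofNat 4,.negSucc 9,.ofNat 10,.negSucc 6,.ofNat 4,.negSucc 0],[.ofNat 0,.negSucc 3,.ofNat 10,.negSucc 7,.ofNat 2],[.ofNat 2,.negSucc 4,.ofNat 4,.negSucc 0]]]⟩
theorem c64 : chkE [e20] e64 false [(0,1),(0,2),(1,2)] 0 0 3 (0,[]) [] = true := by decide +kernel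
theorem k64 (h : Hy) : e64.ok := h.step (fac (k20 h) fan) c64

def e65 : Ent := ⟨2,[(0,1),(0,2),(0,3),(1,3),(2,4)],[[[.negSucc 1,.ofNat 5,.negSucc 3,.ofNat 1],[.ofNat 4,.negSucc 9,.ofNat 8,.negSucc 1],[.negSucc 1,.ofNat 5,.negSucc 3,.ofNat 1]],[[.negSucc 1,.ofNat 3,.ofNat 3,.negSucc 7,.ofNat 5,.negSucc 0],[.ofNat 4,.negSucc 9,.ofNat 4,.ofNat 8,.negSucc 7,.ofNat 2],[.ofNat 0,.ofNat 6,.negSucc 12,.ofNat 7,.ofNat 1,.negSucc 0],[.negSucc 3,.ofNat 6,.ofNat 2,.negSucc 5,.ofNat 2],[.ofNat 2,.negSucc 4,.ofNat 4,.negSucc 0]]]⟩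
theorem c65 : chkE [e64] e65 false [(0,1),(0,2),(0,3),(1,3)] 0 2 4 (0,[(2,3)]) [(4,[]),(4,[])] = true := by decide +kernel
theorem k65 (h : Hy) : e65.ok := h.step (fac (k64 h) fan) c65

def e66 : Ent := ⟨2,[(0,1),(0,2),(0,4),(1,2),(1,3)],[[[.negSucc 3,.ofNat 12,.negSucc 12,.ofNat 6,.negSucc 0],[.ofNat 4,.negSucc 11,.ofNat 13,.negSucc 5,.ofNat 1]],[[.ofNat 8,.negSucc 31,.ofNat 54,.negSucc 49,.ofNat 27,.negSucc 7,.ofNat 1],[.negSucc 7,.ofNat 24,.negSucc 29,.ofNat 24,.negSucc 14,.ofNat 6,.negSucc 0],[.ofNat 4,.negSucc 3,.negSucc 10,.ofNat 20,.negSucc 10,.ofNat 2],[.negSucc 3,.ofNat 12,.negSucc 12,.ofNat 6,.negSucc 0]]]⟩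
theorem c66 : chkE [e64] e66 false [(0,1),(0,2),(1,2),(1,3)] 0 0 4 (0,[(0,1)]) [(4,[])] = true := by decide +kernel
theorem k66 (h : Hy) : e66.ok := h.step (fac (k64 h) fan) c66

def e67 : Ent := ⟨2,[(0,2),(0,4),(1,3),(1,4),(2,3)],[[[.negSucc 0,.ofNat 2,.negSucc 0],[.ofNat 3,.negSucc 5,.ofNat 3],[.negSucc 2,.ofNat 6,.negSucc 2],[.ofNat 1,.negSucc 1,.ofNat 1]],[[.negSucc 4,.ofNat 12,.negSucc 8,.ofNat 2],[.ofNat 13,.negSucc 31,.ofNat 25,.negSucc 5],[.negSucc 8,.ofNat 24,.negSucc 20,.ofNat 6],[.negSucc 0,.ofNat 0,.ofNat 3,.negSucc 1],[.ofNat 2,.negSucc 3,.ofNat 2]]]⟩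
theorem c67 : chkE [e41] e67 true [(0,4),(1,3),(1,4),(2,3)] 0 2 5 (0,[(0,1),(2,4),(3,2)]) [(5,[]),(5,[]),(5,[]),(6,[]),(6,[]),(6,[]),(6,[]),(6,[]),(6,[]),(6,[]),(6,[]),(6,[]),(7,[]),(7,[]),(7,[]),(7,[])] = true := by decide +kernel
theorem k67 (h : Hy) : e67.ok := h.step (fac (k41 h) fan) c67

def e68 : Ent := ⟨3,[(0,1),(0,2),(1,2)],[[[.negSucc 0,.ofNat 2,.negSucc 0],[.ofNat 1,.negSucc 1,.ofNat 1]],[[.ofNat 3,.negSucc 7,.ofNat 8,.negSucc 3,.ofNat 1],[.negSucc 0,.ofNat 2,.negSucc 1,.ofNat 2,.negSucc 0],[.negSucc 0,.ofNat 4,.negSucc 4,.ofNat 2],[.negSucc 0,.ofNat 2,.negSucc 0]],[[.negSucc 15,.ofNat 50,.negSucc 60,.ofNat 38,.negSucc 13,.ofNat 4,.negSucc 0],[.ofNat 10,.negSucc 27,.ofNat 29,.negSucc 11,.ofNat 0,.ofNat 0,.ofNat 1],[.ofNat 2,.negSucc 7,.ofNat 11,.negSucc 9,.ofNat 9,.negSucc 3],[.ofNat 2,.negSucc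 7,.ofNat 15,.negSucc 13,.ofNat 5],[.ofNat 2,.negSucc 5,.ofNat 6,.negSucc 1]]]⟩
theorem c68 : chkE [e63,e20,e64,e39,e43,e65,e66,e67] e68 true [(0,2),(1,2)] 0 1 3 (0,[]) [(1,[]),(2,[]),(3,[]),(2,[]),(2,[(0,1)]),(4,[]),(5,[(2,3)]),(5,[(0,1),(2,3),(2,4)]),(6,[(3,4)]),(7,[(2,4),(3,2)])] = true := by decide +kernel
theorem k68 (h : Hy) : e68.ok := h.step (fac (k63 h) (fac (k20 h) (fac (k64 h) (fac (k39 h) (fac (k43 h) (fac (k65 h) (fac (k66 h) (fac (k67 h) fan)))))))) c68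

def e69 : Ent := ⟨4,[(0,1),(0,2),(2,3)],[[[.ofNat 1,.negSucc 0],[.negSucc 0,.ofNat 1]],[[.ofNat 1,.negSucc 1,.ofNat 0,.ofNat 1],[.negSucc 0,.ofNat 4,.negSucc 1,.negSucc 0],[.negSucc 0,.negSucc 0,.ofNat 2],[.ofNat 1,.negSucc 0]],[[.negSucc 2,.ofNat 8,.negSucc 6,.ofNat 3,.ofNat 0,.negSucc 0],[.ofNat 2,.negSucc 5,.ofNat 5,.negSucc 5,.ofNat 4,.ofNat 1],[.ofNat 2,.negSucc 3,.ofNat 8,.negSucc 1,.negSucc 3],[.ofNat 0,.negSucc 0,.negSucc 3,.ofNat 5],[.negSucc 0,.ofNat 3,.negSucc 1]],[[.ofNat 16,.negSucc 49,.ofNat 55,.negSucc 27,.ofNat 8,.negSucc 1,.ofNat 0,.ofNat 1],[.negSucc 12,.ofNat 48,.negSucc 48,.ofNat 16,.negSucc 0,.ofNat 6,.negSucc 5,.negSucc 0],[.negSucc 5,.negSucc 1,.ofNat 7,.ofNat 9,.negSucc 22,.ofNat 9,.ofNat 6],[.ofNat 6,.ofNat 0,.negSucc 19,.ofNat 23,.ofNat 4,.negSucc 12],[.negSucc 3,.ofNat 9,.negSucc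 0,.negSucc 15,.ofNat 12],[.ofNat 1,.negSucc 4,.ofNat 8,.negSucc 3]]]⟩
theorem c69 : chkE [e35,e68] e69 false [(0,1),(0,2)] 0 2 3 (0,[]) [(1,[])] = true := by decide +kernel
theorem k69 (h : Hy) : e69.ok := h.step (fac (k35 h) (fac (k68 h) fan)) c69

def e70 : Ent := ⟨4,[(0,1),(0,3),(1,2)],[[[.ofNat 1,.negSucc 1,.ofNat 1]],[[.ofNat 1,.negSucc 1,.ofNat 0,.ofNat 2,.negSucc 0],[.negSucc 0,.ofNat 4,.negSucc 4,.ofNat 2],[.negSucc 0,.ofNat 2,.negSucc 0]],[[.negSucc 2,.ofNat 8,.negSucc 6,.ofNat 2,.ofNat 1,.negSucc 1,.ofNat 1],[.ofNat 2,.negSucc 5,.ofNat 8,.negSucc 9,.ofNat 10,.negSucc 3],[.ofNat 2,.negSucc 7,.ofNat 15,.negSucc 13,.ofNat 5],[.ofNat 2,.negSucc 5,.ofNat 6,.negSucc 1]],[[.ofNat 16,.negSucc 49,.ofNat 55,.negSucc 21,.negSucc 1,.ofNat 4,.negSucc 1,.ofNat 2,.negSucc 0],[.negSucc 12,.ofNat 48,.negSucc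 66,.ofNat 44,.negSucc 16,.ofNat 14,.negSucc 14,.ofNat 6],[.negSucc 5,.ofNat 16,.negSucc 16,.ofNat 22,.negSucc 39,.ofNat 38,.negSucc 12],[.ofNat 0,.ofNat 4,.negSucc 22,.ofNat 46,.negSucc 38,.ofNat 12],[.negSucc 1,.ofNat 10,.negSucc 17,.ofNat 14,.negSucc 3]]]⟩
theorem c70 : chkE [e35,e68] e70 false [(0,1),(1,2)] 0 0 3 (0,[(0,1)]) [(1,[])] = true := by decide +kernel
theorem k70 (h : Hy) : e70.ok := h.step (fac (k35 h) (fac (k68 h) fan)) c70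

def e71 : Ent := ⟨4,[(0,2),(2,3)],[[[.negSucc 0],[.ofNat 1]],[[.ofNat 0,.ofNat 2],[.negSucc 0,.negSucc 1],[.ofNat 1]],[[.ofNat 0,.ofNat 0,.ofNat 0,.negSucc 0],[.ofNat 0,.ofNat 0,.ofNat 2,.ofNat 1],[.negSucc 0,.negSucc 0,.negSucc 1],[.ofNat 1,.ofNat 1]],[[.ofNat 0,.ofNat 0,.ofNat 0,.negSucc 0,.ofNat 2,.ofNat 1],[.ofNat 0,.ofNat 0,.ofNat 2,.negSucc 2,.negSucc 5,.negSucc 0],[.ofNat 0,.ofNat 1,.ofNat 0,.ofNat 9,.ofNat 4],[.negSucc 0,.negSucc 0,.negSucc 3,.negSucc 4],[.ofNat 1,.ofNat 0,.ofNat 2]]]⟩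
theorem c71 : chkE [e36,e63] e71 false [(0,2)] 0 2 3 (0,[]) [(1,[])] = true := by decide +kernel
theorem k71 (h : Hy) : e71.ok := h.step (fac (k36 h) (fac (k63 h) fan)) c71

def e72 : Ent := ⟨2,[(0,1),(0,2),(1,3),(2,3)],[[[.ofNat 1,.negSucc 1,.ofNat 1],[.negSucc 1,.ofNat 4,.negSucc 1],[.ofNat 1,.negSucc 1,.ofNat 1]],[[.ofNat 0,.ofNat 0,.negSucc 0,.ofNat 2,.negSucc 0],[.ofNat 0,.ofNat 2,.negSucc 1,.negSucc 1,.ofNat 2],[.negSucc 0,.negSucc 1,.ofNat 6,.negSucc 1,.negSucc 0],[.ofNat 2,.negSucc 1,.negSucc 1,.ofNat 2],[.negSucc 0,.ofNat 2,.negSucc 0]]]⟩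
theorem c72 : chkE [e33] e72 true [(0,2),(1,3),(2,3)] 0 1 4 (0,[]) [(4,[]),(4,[]),(5,[]),(5,[]),(5,[]),(5,[]),(5,[]),(5,[]),(5,[]),(6,[]),(6,[]),(6,[]),(6,[])] = true := by decide +kernel
theorem k72 (h : Hy) : e72.ok := h.step (fac (k33 h) fan) c72

def e73 : Ent := ⟨3,[(0,2),(0,4),(1,3),(2,3)],[[[.negSucc 0,.ofNat 1],[.ofNat 2,.negSucc 1],[.negSucc 0,.ofNat 1]],[[.negSucc 3,.ofNat 7,.negSucc 2],[.ofNat 6,.negSucc 11,.ofNat 6],[.ofNat 0,.ofNat 3,.negSucc 2],[.negSucc 1,.ofNat 2]],[[.ofNat 9,.negSucc 16,.ofNat 13,.negSucc 7,.ofNat 3],[.negSucc 26,.ofNat 43,.negSucc 19,.ofNat 10,.negSucc 5],[.ofNat 25,.negSucc 35,.ofNat 4,.ofNat 4,.ofNat 3],[.negSucc 4,.ofNat 11,.ofNat 0,.negSucc 5],[.negSucc 1,.negSucc 0,.ofNat 3]]]⟩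
theorem c73 : chkE [e33,e72,e40] e73 false [(0,2),(1,3),(2,3)] 0 0 4 (0,[]) [(1,[]),(2,[])] = true := by decide +kernel
theorem k73 (h : Hy) : e73.ok := h.step (fac (k33 h) (fac (k72 h) (fac (k40 h) fan))) c73

def e74 : Ent := ⟨2,[(0,2),(0,3),(0,4),(2,3)],[[[.ofNat 2,.negSucc 2,.ofNat 1],[.negSucc 3,.ofNat 6,.negSucc 1],[.ofNat 2,.negSucc 2,.ofNat 1]],[[.negSucc 5,.ofNat 3,.ofNat 6,.negSucc 2],[.ofNat 20,.negSucc 17,.negSucc 7,.ofNat 6],[.negSucc 21,.ofNat 27,.negSucc 1,.negSucc 2],[.ofNat 8,.negSucc 11,.ofNat 4]]]⟩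
theorem c74 : chkE [e25] e74 false [(0,2),(0,3),(2,3)] 0 0 4 (0,[]) [(4,[])] = true := by decide +kernel
theorem k74 (h : Hy) : e74.ok := h.step (fac (k25 h) fan) c74

def e75 : Ent := ⟨2,[(0,2),(0,3),(2,3),(2,4)],[[[.ofNat 2,.negSucc 1],[.negSucc 4,.ofNat 5],[.ofNat 4,.negSucc 3],[.negSucc 0,.ofNat 1]],[[.negSucc 5,.ofNat 0,.ofNat 6],[.ofNat 23,.negSucc 7,.negSucc 14],[.negSucc 31,.ofNat 20,.ofNat 12],[.ofNat 19,.negSucc 15,.negSucc 2],[.negSucc 3,.ofNat 4]]]⟩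
theorem c75 : chkE [e25] e75 false [(0,2),(0,3),(2,3)] 0 2 4 (0,[]) [(4,[])] = true := by decide +kernel
theorem k75 (h : Hy) : e75.ok := h.step (fac (k25 h) fan) c75

end Pool.Agent.RGA.CT
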