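import Pool.Agent.RGA.Cert02

set_option autoImplicit false

namespace Pool.Agent.RGA.CT

def e76 : Ent := ⟨2,[(0,2),(0,3),(0,4),(2,3),(4,5)],[[[.negSucc 1,.ofNat 3,.negSucc 0],[.ofNat 6,.negSucc 8,.ofNat 3],[.negSucc 5,.ofNat 9,.negSucc 2],[.ofNat 2,.negSucc 2,.ofNat 1]],[[.negSucc 1,.ofNat 11,.negSucc 12,.ofNat 4],[.negSucc 3,.negSucc 17,.ofNat 34,.negSucc 11],[.ofNat 24,.negSucc 11,.negSucc 23,.ofNat 12],[.negSucc 27,.ofNat 34,.negSucc 1,.negSucc 3],[.ofNat 10,.negSucc 14,.ofNat 5]]]⟩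
theorem c76 : chkE [e74] e76 false [(0,2),(0,3),(0,4),(2,3)] 0 4 5 (0,[]) [(5,[]),(5,[]),(5,[])] = true := by decide +kernel
theorem k76 (h : Hy) : e76.ok := h.step (fac (k74 h) fan) c76

def e77 : Ent := ⟨2,[(0,3),(0,4),(2,3),(2,5),(3,4)],[[[.negSucc 1,.ofNat 2],[.ofNat 7,.negSucc 6],[.negSucc 8,.ofNat 9],[.ofNat 5,.negSucc 4],[.negSucc 0,.ofNat 1]],[[.negSucc 1,.ofNat 12,.negSucc 9],[.negSucc 4,.negSucc 29,.ofNat 35],[.ofNat 33,.ofNat 12,.negSucc 44],[.negSucc 48,.ofNat 24,.ofNat 25],[.ofNat 29,.negSucc 23,.negSucc 4],[.negSucc 5,.ofNat 6]]]⟩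
theorem c77 : chkE [e75] e77 false [(0,3),(0,4),(2,3),(3,4)] 0 2 5 (0,[(2,4),(3,2)]) [(5,[]),(5,[]),(5,[])] = true := by decide +kernel
theorem k77 (h : Hy) : e77.ok := h.step (fac (k75 h) fan) c77

def e78 : Ent := ⟨2,[(0,2),(0,3),(0,4),(2,3),(2,5)],[[[.negSucc 3,.ofNat 6,.negSucc 1],[.ofNat 10,.negSucc 14,.ofNat 5],[.negSucc 7,.ofNat 12,.negSucc 3],[.ofNat 2,.negSucc 2,.ofNat 1]],[[.ofNat 8,.ofNat 4,.negSucc 19,.ofNat 8],[.negSucc 43,.ofNat 26,.ofNat 38,.negSucc 19],[.ofNat 76,.negSucc 81,.negSucc 9,.ofNat 16],[.negSucc 51,.ofNat 70,.negSucc 13,.negSucc 3],[.ofNat 12,.negSucc 17,.ofNat 6]]]⟩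
theorem c78 : chkE [e74] e78 false [(0,2),(0,3),(0,4),(2,3)] 0 2 5 (0,[]) [(5,[]),(5,[])] = true := by decide +kernel
theorem k78 (h : Hy) : e78.ok := h.step (fac (k74 h) fan) c78

def e79 : Ent := ⟨2,[(0,4),(0,5),(2,3),(2,4),(3,5)],[[[.negSucc 0,.ofNat 1],[.ofNat 4,.negSucc 3],[.negSucc 5,.ofNat 6],[.ofNat 4,.negSucc 3],[.negSucc 0,.ofNat 1]],[[.negSucc 4,.ofNat 11,.negSucc 5],[.ofNat 14,.negSucc 37,.ofNat 24],[.negSucc 5,.ofNat 42,.negSucc 35],[.negSucc 15,.negSucc 7,.ofNat 24],[.ofNat 19,.negSucc 12,.negSucc 5],[.negSucc 5,.ofNat 6]]]⟩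
theorem c79 : chkE [e31] e79 true [(0,5),(2,3),(2,4),(3,5)] 0 4 6 (0,[(2,3),(4,5)]) [(6,[]),(6,[]),(6,[]),(6,[]),(7,[]),(7,[]),(7,[]),(7,[]),(7,[]),(7,[]),(7,[]),(7,[]),(7,[]),(7,[]),(7,[]),(8,[]),(8,[]),(8,[]),(8,[])] = true := by decide +kernel
theorem k79 (h : Hy) : e79.ok := h.step (fac (k31 h) fan) c79

def e80 : Ent := ⟨3,[(0,2),(0,3),(2,3)],[[[.negSucc 0,.ofNat 1],[.ofNat 2,.negSucc 1],[.negSucc 0,.ofNat 1]],[[.ofNat 3,.negSucc 0,.negSucc 1],[.negSucc 7,.ofNat 4,.ofNat 4],[.ofNat 7,.negSucc 4,.negSucc 1],[.negSucc 1,.ofNat 2]],[[.negSucc 15,.ofNat 13,.ofNat 6,.negSucc 4,.ofNat 2],[.ofNat 47,.negSucc 44,.negSucc 3,.ofNat 6,.negSucc 3],[.negSucc 47,.ofNat 51,.negSucc 7,.ofNat 3,.ofNat 2],[.ofNat 19,.negSucc 18,.ofNat 4,.negSucc 3],[.negSucc 1,.ofNat 0,.ofNat 2]]]⟩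
theorem c80 : chkE [e71,e69,e25,e74,e73,e48,e26,e75,e76,e77,e78,e79] e80 true [(0,3),(2,3)] 0 2 4 (0,[(2,3)]) [(1,[(2,3)]),(2,[]),(3,[]),(4,[(2,3)]),(5,[]),(3,[]),(6,[]),(7,[]),(7,[(2,3)]),(8,[]),(9,[(2,3),(2,4),(2,5)]),(10,[]),(11,[(3,4),(3,5)])] = true := by decide +kernel
theorem k80 (h : Hy) : e80.ok := h.step (fac (k71 h) (fac (k69 h) (fac (k25 h) (fac (k74 h) (fac (k73 h) (fac (k48 h) (fac (k26 h) (fac (k75 h) (fac (k76 h) (fac (k77 h) (fac (k78 h) (fac (k79 h) fan)))))))))))) c80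

def e81 : Ent := ⟨2,[(0,1),(0,2),(0,3),(2,3)],[[[.ofNat 2,.negSucc 2,.ofNat 1],[.negSucc 3,.ofNat 6,.negSucc 1],[.ofNat 2,.negSucc 2,.ofNat 1]],[[.negSucc 5,.ofNat 9,.negSucc 4,.ofNat 3,.negSucc 0],[.ofNat 14,.negSucc 16,.ofNat 5,.negSucc 3,.ofNat 2],[.negSucc 11,.ofNat 10,.ofNat 4,.negSucc 0,.negSucc 0],[.ofNat 6,.negSucc 4,.negSucc 2,.ofNat 2],[.negSucc 1,.ofNat 3,.negSucc 0]]]⟩
theorem c81 : chkE [e80] e81 true [(0,2),(0,3),(2,3)] 0 1 4 (0,[]) [(4,[]),(5,[]),(5,[]),(5,[]),(5,[]),(5,[]),(5,[]),(5,[]),(5,[]),(6,[]),(6,[]),(6,[]),(6,[])] = true := by decide +kernel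
theorem k81 (h : Hy) : e81.ok := h.step (fac (k80 h) fan) c81

def e82 : Ent := ⟨3,[(0,2),(0,3),(1,4),(2,3)],[[[.negSucc 0,.ofNat 1],[.ofNat 2,.negSucc 1],[.negSucc 0,.ofNat 1]],[[.negSucc 2,.ofNat 6,.negSucc 2],[.ofNat 4,.negSucc 9,.ofNat 6],[.ofNat 1,.ofNat 2,.negSucc 2],[.negSucc 1,.ofNat 2]],[[.ofNat 2,.negSucc 7,.ofNat 11,.negSucc 7,.ofNat 3],[.negSucc 6,.ofNat 18,.negSucc 14,.ofNat 10,.negSucc 5],[.ofNat 6,.negSucc 12,.ofNat 0,.ofNat 4,.ofNat 3],[.ofNat 1,.ofNat 4,.ofNat 1,.negSucc 5],[.negSucc 1,.negSucc 0,.ofNat 3]]]⟩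
theorem c82 : chkE [e80,e81,e40] e82 false [(0,2),(0,3),(2,3)] 0 1 4 (0,[]) [(1,[]),(2,[(2,3)]),(2,[])] = true := by decide +kernel
theorem k82 (h : Hy) : e82.ok := h.step (fac (k80 h) (fac (k81 h) (fac (k40 h) fan))) c82

def e83 : Ent := ⟨3,[(0,2),(1,3),(2,3),(2,4)],[[[.negSucc 1],[.ofNat 5],[.negSucc 3],[.ofNat 1]],[[.negSucc 3,.ofNat 6],[.ofNat 4,.negSucc 14],[.ofNat 7,.ofNat 12],[.negSucc 9,.negSucc 2],[.ofNat 3]],[[.ofNat 12,.negSucc 21,.ofNat 8,.negSucc 3],[.negSucc 31,.ofNat 61,.negSucc 11,.ofNat 10],[.ofNat 17,.negSucc 62,.negSucc 3,.negSucc 7],[.ofNat 20,.ofNat 33,.ofNat 12,.ofNat 2],[.negSucc 22,.negSucc 10,.negSucc 3],[.ofNat 6,.ofNat 2]]]⟩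
theorem c83 : chkE [e33,e40] e83 false [(0,2),(1,3),(2,3)] 0 2 4 (0,[]) [(1,[(0,1),(2,3)])] = true := by decide +kernel
theorem k83 (h : Hy) : e83.ok := h.step (fac (k33 h) (fac (k40 h) fan)) c83

def e84 : Ent := ⟨2,[(0,2),(0,3),(1,4),(2,3),(2,4)],[[[.negSucc 1,.ofNat 2],[.ofNat 7,.negSucc 6],[.negSucc 8,.ofNat 9],[.ofNat 5,.negSucc 4],[.negSucc 0,.ofNat 1]],[[.negSucc 1,.ofNat 8,.negSucc 5],[.negSucc 0,.negSucc 19,.ofNat 21],[.ofNat 19,.ofNat 8,.negSucc 26],[.negSucc 30,.ofNat 16,.ofNat 15],[.ofNat 19,.negSucc 15,.negSucc 2],[.negSucc 3,.ofNat 4]]]⟩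
theorem c84 : chkE [e75] e84 true [(0,2),(0,3),(2,3),(2,4)] 1 4 5 (0,[]) [(5,[]),(5,[]),(5,[]),(5,[]),(6,[]),(6,[]),(6,[]),(6,[]),(6,[]),(6,[]),(6,[]),(6,[]),(6,[]),(7,[]),(7,[]),(7,[]),(7,[])] = true := by decide +kernel
theorem k84 (h : Hy) : e84.ok := h.step (fac (k75 h) fan) c84

def e85 : Ent := ⟨2,[(0,2),(1,3),(1,4),(2,3),(2,4)],[[[.negSucc 1,.ofNat 2],[.ofNat 7,.negSucc 6],[.negSucc 8,.ofNat 9],[.ofNat 5,.negSucc 4],[.negSucc 0,.ofNat 1]],[[.negSucc 3,.ofNat 10,.negSucc 5],[.ofNat 6,.negSucc 26,.ofNat 21],[.ofNat 10,.ofNat 17,.negSucc 26],[.negSucc 25,.ofNat 11,.ofNat 15],[.ofNat 18,.negSucc 14,.negSucc 2],[.negSucc 3,.ofNat 4]]]⟩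
theorem c85 : chkE [e48] e85 true [(1,3),(1,4),(2,3),(2,4)] 0 2 5 (0,[(0,1)]) [(5,[]),(5,[]),(5,[]),(5,[]),(6,[]),(6,[]),(6,[]),(6,[]),(6,[]),(6,[]),(6,[]),(6,[]),(7,[]),(7,[]),(7,[]),(7,[])] = true := by decide +kernel
theorem k85 (h : Hy) : e85.ok := h.step (fac (k48 h) fan) c85

def e86 : Ent := ⟨3,[(0,2),(0,3),(1,4),(2,4),(3,5)],[[[.ofNat 1,.negSucc 0],[.negSucc 2,.ofNat 3],[.ofNat 3,.negSucc 2],[.negSucc 0,.ofNat 1]],[[.ofNat 9,.negSucc 12,.ofNat 4],[.negSucc 23,.ofNat 36,.negSucc 11],[.ofNat 18,.negSucc 29,.ofNat 12],[.ofNat 0,.ofNat 4,.negSucc 3],[.negSucc 2,.ofNat 3]],[[.ofNat 2,.negSucc 12,.ofNat 8,.ofNat 6,.negSucc 2],[.ofNat 45,.negSucc 19,.negSucc 21,.negSucc 11,.ofNat 9],[.negSucc 143,.ofNat 138,.ofNat 15,.ofNat 0,.negSucc 8],[.ofNat 142,.negSucc 163,.ofNat 7,.ofNat 12,.ofNat 3],[.negSucc 41,.ofNat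 59,.negSucc 10,.negSucc 5],[.negSucc 2,.ofNat 0,.ofNat 3]]]⟩
theorem c86 : chkE [e73,e67,e84,e85] e86 false [(0,2),(0,3),(1,4),(2,4)] 0 3 5 (0,[(3,4)]) [(1,[(3,4)]),(2,[]),(3,[(0,1),(2,3),(2,4)])] = true := by decide +kernel
theorem k86 (h : Hy) : e86.ok := h.step (fac (k73 h) (fac (k67 h) (fac (k84 h) (fac (k85 h) fan)))) c86

def e87 : Ent := ⟨2,[(0,3),(1,4),(2,3),(2,4),(3,4)],[[[.negSucc 3],[.ofNat 16],[.negSucc 24],[.ofNat 19],[.negSucc 6],[.ofNat 1]],[[.ofNat 8,.ofNat 16],[.negSucc 55,.negSucc 63],[.ofNat 146,.ofNat 100],[.negSucc 187,.negSucc 75],[.ofNat 128,.ofNat 28],[.negSucc 43,.negSucc 3],[.ofNat 6]]]⟩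
theorem c87 : chkE [e53] e87 true [(1,4),(2,3),(2,4),(3,4)] 0 3 5 (0,[(0,1)]) [(5,[]),(5,[]),(5,[]),(5,[]),(6,[]),(6,[]),(6,[]),(6,[]),(6,[]),(6,[]),(6,[]),(6,[]),(7,[]),(7,[]),(7,[]),(7,[])] = true := by decide +kernel
theorem k87 (h : Hy) : e87.ok := h.step (fac (k53 h) fan) c87

def e88 : Ent := ⟨3,[(0,3),(1,4),(2,3),(2,5),(3,4)],[[[.ofNat 2],[.negSucc 6],[.ofNat 9],[.negSucc 4],[.ofNat 1]],[[.ofNat 12,.negSucc 9],[.negSucc 31,.ofNat 35],[.ofNat 19,.negSucc 44],[.ofNat 15,.ofNat 25],[.negSucc 18,.negSucc 4],[.ofNat 5]],[[.negSucc 13,.negSucc 11,.ofNat 4,.ofNat 4],[.ofNat 131,.negSucc 1,.negSucc 21,.negSucc 13],[.negSucc 319,.ofNat 104,.ofNat 46,.ofNat 18],[.ofNat 299,.negSucc 181,.negSucc 45,.negSucc 9],[.negSucc 76,.ofNat 122,.ofNat 22,.ofNat 2],[.negSucc 33,.negSucc 31,.negSucc 3],[.ofNat 15,.ofNat 2]]]⟩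
theorem c88 : chkE [e83,e84,e85,e87] e88 false [(0,3),(1,4),(2,3),(3,4)] 0 2 5 (0,[(2,4),(3,2)]) [(1,[(2,3)]),(2,[(2,3)]),(3,[])] = true := by decide +kernel
theorem k88 (h : Hy) : e88.ok := h.step (fac (k83 h) (fac (k84 h) (fac (k85 h) (fac (k87 h) fan)))) c88

def e89 : Ent := ⟨2,[(0,1),(0,2),(1,3),(2,3),(2,4)],[[[.negSucc 1,.ofNat 4,.negSucc 1],[.ofNat 5,.negSucc 9,.ofNat 5],[.negSucc 3,.ofNat 8,.negSucc 3],[.ofNat 1,.negSucc 1,.ofNat 1]],[[.negSucc 3,.ofNat 10,.negSucc 5,.negSucc 1,.ofNat 2],[.ofNat 6,.negSucc 20,.ofNat 19,.ofNat 1,.negSucc 4],[.ofNat 4,.ofNat 6,.negSucc 19,.ofNat 6,.ofNat 4],[.negSucc 10,.ofNat 13,.ofNat 6,.negSucc 6,.negSucc 0],[.ofNat 6,.negSucc 9,.ofNat 2,.ofNat 2],[.negSucc 0,.ofNat 2,.negSucc 0]]]⟩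
theorem c89 : chkE [e72] e89 false [(0,1),(0,2),(1,3),(2,3)] 0 2 4 (0,[]) [(4,[])] = true := by decide +kernel
theorem k89 (h : Hy) : e89.ok := h.step (fac (k72 h) fan) c89

def e90 : Ent := ⟨2,[(0,2),(0,3),(1,3),(2,3),(2,4)],[[[.negSucc 3,.ofNat 4],[.ofNat 12,.negSucc 11],[.negSucc 12,.ofNat 13],[.ofNat 6,.negSucc 5],[.negSucc 0,.ofNat 1]],[[.ofNat 8,.negSucc 3,.negSucc 3],[.negSucc 35,.ofNat 24,.ofNat 12],[.ofNat 62,.negSucc 48,.negSucc 12],[.negSucc 50,.ofNat 45,.ofNat 6],[.ofNat 20,.negSucc 18,.negSucc 0],[.negSucc 2,.ofNat 3]]]⟩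
theorem c90 : chkE [e40] e90 false [(0,2),(0,3),(1,3),(2,3)] 0 2 4 (0,[]) [(4,[])] = true := by decide +kernel
theorem k90 (h : Hy) : e90.ok := h.step (fac (k40 h) fan) c90

def e91 : Ent := ⟨3,[(0,2),(0,5),(1,3),(2,3),(2,4)],[[[.ofNat 2,.negSucc 1],[.negSucc 4,.ofNat 5],[.ofNat 4,.negSucc 3],[.negSucc 0,.ofNat 1]],[[.ofNat 12,.negSucc 19,.ofNat 8],[.negSucc 21,.ofNat 42,.negSucc 19],[.ofNat 4,.negSucc 19,.ofNat 16],[.ofNat 10,.negSucc 5,.negSucc 3],[.negSucc 3,.ofNat 4]],[[.negSucc 13,.ofNat 20,.negSucc 13,.ofNat 14,.negSucc 5],[.ofNat 99,.negSucc 135,.ofNat 45,.negSucc 22,.ofNat 15],[.negSucc 167,.ofNat 241,.negSucc 58,.negSucc 1,.negSucc 11],[.ofNat 85,.negSucc 146,.ofNat 42,.ofNat 17,.ofNat 3],[.ofNat 8,.ofNat 15,.negSucc 16,.negSucc 5],[.negSucc 9,.ofNat 7,.ofNat 3]]]⟩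
theorem c91 : chkE [e83,e89,e90,e84] e91 false [(0,2),(1,3),(2,3),(2,4)] 0 0 5 (0,[]) [(1,[]),(2,[]),(3,[(3,4)])] = true := by decide +kernel
theorem k91 (h : Hy) : e91.ok := h.step (fac (k83 h) (fac (k89 h) (fac (k90 h) (fac (k84 h) fan)))) c91

def e92 : Ent := ⟨3,[(0,4),(2,3),(2,4),(3,5)],[[[.negSucc 0],[.ofNat 3],[.negSucc 2],[.ofNat 1]],[[.negSucc 3,.ofNat 6],[.ofNat 7,.negSucc 17],[.ofNat 3,.ofNat 18],[.negSucc 10,.negSucc 5],[.ofNat 5]],[[.ofNat 9,.ofNat 18,.negSucc 11,.negSucc 0],[.negSucc 61,.negSucc 22,.ofNat 38,.ofNat 3],[.ofNat 116,.negSucc 39,.negSucc 41,.negSucc 2],[.negSucc 65,.ofNat 78,.ofNat 18,.ofNat 1],[.negSucc 12,.negSucc 33,.negSucc 1],[.ofNat 16,.ofNat 1]]]⟩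
theorem c92 : chkE [e45,e48,e62,e53] e92 false [(0,4),(2,3),(2,4)] 0 3 5 (0,[(3,4)]) [(1,[]),(2,[(3,4)]),(3,[])] = true := by decide +kernel
theorem k92 (h : Hy) : e92.ok := h.step (fac (k45 h) (fac (k48 h) (fac (k62 h) (fac (k53 h) fan)))) c92

def e93 : Ent := ⟨2,[(0,1),(0,4),(2,3),(2,4),(3,5)],[[[.ofNat 1,.negSucc 0],[.negSucc 2,.ofNat 3],[.ofNat 3,.negSucc 2],[.negSucc 0,.ofNat 1]],[[.ofNat 9,.negSucc 13,.ofNat 4,.ofNat 1],[.negSucc 22,.ofNat 40,.negSucc 13,.negSucc 2],[.ofNat 14,.negSucc 34,.ofNat 18,.ofNat 3],[.ofNat 6,.ofNat 5,.negSucc 9,.negSucc 0],[.negSucc 6,.ofNat 5,.ofNat 2],[.ofNat 1,.negSucc 0]]]⟩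
theorem c93 : chkE [e46] e93 false [(0,1),(0,4),(2,3),(2,4)] 0 3 5 (0,[(3,4)]) [(5,[]),(5,[]),(5,[])] = true := by decide +kernel
theorem k93 (h : Hy) : e93.ok := h.step (fac (k46 h) fan) c93

def e94 : Ent := ⟨2,[(0,4),(1,4),(2,3),(2,4),(3,5)],[[[.ofNat 2],[.negSucc 6],[.ofNat 9],[.negSucc 4],[.ofNat 1]],[[.ofNat 14,.negSucc 7],[.negSucc 40,.ofNat 28],[.ofNat 35,.negSucc 35],[.ofNat 1,.ofNat 20],[.negSucc 12,.negSucc 3],[.ofNat 4]]]⟩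
theorem c94 : chkE [e42] e94 false [(0,4),(1,4),(2,3),(2,4)] 0 3 5 (0,[(3,4)]) [(5,[]),(5,[]),(5,[])] = true := by decide +kernel
theorem k94 (h : Hy) : e94.ok := h.step (fac (k42 h) fan) c94

def e95 : Ent := ⟨2,[(0,4),(0,6),(1,5),(2,3),(2,4),(3,5)],[[[.negSucc 0,.ofNat 1],[.ofNat 4,.negSucc 3],[.negSucc 5,.ofNat 6],[.ofNat 4,.negSucc 3],[.negSucc 0,.ofNat 1]],[[.negSucc 15,.ofNat 23,.negSucc 6],[.ofNat 58,.negSucc 85,.ofNat 28],[.negSucc 71,.ofNat 114,.negSucc 41],[.ofNat 28,.negSucc 55,.ofNat 28],[.ofNat 8,.negSucc 0,.negSucc 6],[.negSucc 5,.ofNat 6]]]⟩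
theorem c95 : chkE [e32] e95 false [(0,4),(1,5),(2,3),(2,4),(3,5)] 0 0 6 (0,[]) [(6,[]),(6,[]),(6,[]),(6,[])] = true := by decide +kernel
theorem k95 (h : Hy) : e95.ok := h.step (fac (k32 h) fan) c95

def e96 : Ent := ⟨2,[(0,4),(0,5),(1,6),(2,3),(2,4),(3,5)],[[[.negSucc 0,.ofNat 1],[.ofNat 4,.negSucc 3],[.negSucc 5,.ofNat 6],[.ofNat 4,.negSucc 3],[.negSucc 0,.ofNat 1]],[[.negSucc 14,.ofNat 22,.negSucc 6],[.ofNat 54,.negSucc 81,.ofNat 28],[.negSucc 65,.ofNat 108,.negSucc 41],[.ofNat 24,.negSucc 51,.ofNat 28],[.ofNat 9,.negSucc 1,.negSucc 6],[.negSucc 5,.ofNat 6]]]⟩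
theorem c96 : chkE [e79] e96 false [(0,4),(0,5),(2,3),(2,4),(3,5)] 0 1 6 (0,[]) [(6,[]),(6,[]),(6,[]),(6,[]),(6,[])] = true := by decide +kernel
theorem k96 (h : Hy) : e96.ok := h.step (fac (k79 h) fan) c96

def e97 : Ent := ⟨2,[(2,3),(2,4),(3,4),(4,5)],[[[.ofNat 2],[.negSucc 6],[.ofNat 9],[.negSucc 4],[.ofNat 1]],[[.negSucc 5,.negSucc 15],[.ofNat 39,.ofNat 56],[.negSucc 89,.negSucc 71],[.ofNat 96,.ofNat 40],[.negSucc 47,.negSucc 7],[.ofNat 9]]]⟩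
theorem c97 : chkE [e52] e97 false [(2,3),(2,4),(3,4)] 0 4 5 (0,[]) [(5,[]),(5,[])] = true := by decide +kernel
theorem k97 (h : Hy) : e97.ok := h.step (fac (k52 h) fan) c97

def e98 : Ent := ⟨2,[(0,5),(2,3),(2,4),(3,4),(4,5)],[[[.negSucc 1],[.ofNat 9],[.negSucc 15],[.ofNat 14],[.negSucc 5],[.ofNat 1]],[[.negSucc 1,.ofNat 16],[.negSucc 8,.negSucc 71],[.ofNat 65,.ofNat 128],[.negSucc 129,.negSucc 111],[.ofNat 120,.ofNat 48],[.negSucc 52,.negSucc 7],[.ofNat 9]]]⟩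
theorem c98 : chkE [e97] e98 true [(2,3),(2,4),(3,4),(4,5)] 0 5 6 (0,[]) [(6,[]),(6,[]),(6,[]),(6,[]),(6,[]),(7,[]),(7,[]),(7,[]),(7,[]),(7,[]),(7,[]),(7,[]),(7,[]),(7,[]),(7,[]),(7,[]),(8,[]),(8,[]),(8,[]),(8,[])] = true := by decide +kernel
theorem k98 (h : Hy) : e98.ok := h.step (fac (k97 h) fan) c98

def e99 : Ent := ⟨2,[(0,5),(1,6),(2,3),(2,4),(3,4),(4,5)],[[[.negSucc 1],[.ofNat 9],[.negSucc 15],[.ofNat 14],[.negSucc 5],[.ofNat 1]],[[.negSucc 21,.ofNat 18],[.ofNat 81,.negSucc 80],[.negSucc 94,.ofNat 144],[.ofNat 10,.negSucc 125],[.ofNat 60,.ofNat 54],[.negSucc 42,.negSucc 8],[.ofNat 9]]]⟩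
theorem c99 : chkE [e98] e99 false [(0,5),(2,3),(2,4),(3,4),(4,5)] 0 1 6 (0,[]) [(6,[]),(6,[]),(6,[]),(6,[]),(6,[])] = true := by decide +kernel
theorem k99 (h : Hy) : e99.ok := h.step (fac (k98 h) fan) c99

def e100 : Ent := ⟨2,[(2,3),(2,5),(3,4)],[[[.ofNat 1],[.negSucc 1],[.ofNat 1]],[[.ofNat 1,.negSucc 5],[.ofNat 3,.ofNat 12],[.negSucc 8,.negSucc 5],[.ofNat 5]]]⟩
theorem c100 : chkE [e51] e100 false [(2,3),(3,4)] 0 2 5 (0,[(2,3)]) [(5,[]),(5,[]),(5,[])] = true := by decide +kernel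
theorem k100 (h : Hy) : e100.ok := h.step (fac (k51 h) fan) c100

end Pool.Agent.RGA.CT
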