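import Pool.Agent.RGA.Cert03

set_option autoImplicit false

namespace Pool.Agent.RGA.CT

def e101 : Ent := ⟨2,[(2,3),(2,4),(3,5),(4,5)],[[[.ofNat 1],[.negSucc 3],[.ofNat 6],[.negSucc 3],[.ofNat 1]],[[.ofNat 0,.negSucc 7],[.ofNat 8,.ofNat 32],[.negSucc 31,.negSucc 47],[.ofNat 48,.ofNat 32],[.negSucc 31,.negSucc 7],[.ofNat 8]]]⟩
theorem c101 : chkE [e100] e101 true [(2,4),(3,5),(4,5)] 2 3 6 (0,[(2,5),(3,4),(3,2)]) [(6,[]),(6,[]),(6,[]),(6,[]),(7,[]),(7,[]),(7,[]),(7,[]),(7,[]),(7,[]),(7,[]),(7,[]),(7,[]),(7,[]),(7,[]),(8,[]),(8,[]),(8,[]),(8,[])] = true := by decide +kernel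
theorem k101 (h : Hy) : e101.ok := h.step (fac (k100 h) fan) c101

def e102 : Ent := ⟨2,[(0,5),(2,3),(2,4),(3,5),(4,5)],[[[.negSucc 1],[.ofNat 9],[.negSucc 15],[.ofNat 14],[.negSucc 5],[.ofNat 1]],[[.negSucc 3,.ofNat 14],[.ofNat 2,.negSucc 62],[.ofNat 40,.ofNat 112],[.negSucc 99,.negSucc 97],[.ofNat 100,.ofNat 42],[.negSucc 45,.negSucc 6],[.ofNat 8]]]⟩
theorem c102 : chkE [e101] e102 true [(2,3),(2,4),(3,5),(4,5)] 0 5 6 (0,[]) [(6,[]),(6,[]),(6,[]),(6,[]),(6,[]),(7,[]),(7,[]),(7,[]),(7,[]),(7,[]),(7,[]),(7,[]),(7,[]),(7,[]),(7,[]),(8,[]),(8,[]),(8,[]),(8,[])] = true := by decide +kernel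
theorem k102 (h : Hy) : e102.ok := h.step (fac (k101 h) fan) c102

def e103 : Ent := ⟨2,[(0,5),(1,6),(2,3),(2,4),(3,5),(4,5)],[[[.negSucc 1],[.ofNat 9],[.negSucc 15],[.ofNat 14],[.negSucc 5],[.ofNat 1]],[[.negSucc 23,.ofNat 16],[.ofNat 92,.negSucc 71],[.negSucc 119,.ofNat 128],[.ofNat 40,.negSucc 111],[.ofNat 40,.ofNat 48],[.negSucc 35,.negSucc 7],[.ofNat 8]]]⟩
theorem c103 : chkE [e102] e103 false [(0,5),(2,3),(2,4),(3,5),(4,5)] 0 1 6 (0,[]) [(6,[]),(6,[]),(6,[]),(6,[]),(6,[])] = true := by decide +kernel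
theorem k103 (h : Hy) : e103.ok := h.step (fac (k102 h) fan) c103

def e104 : Ent := ⟨2,[(0,4),(1,5),(2,3),(2,4),(3,5),(3,6)],[[[.negSucc 1],[.ofNat 9],[.negSucc 15],[.ofNat 14],[.negSucc 5],[.ofNat 1]],[[.negSucc 25,.ofNat 16],[.ofNat 101,.negSucc 71],[.negSucc 135,.ofNat 128],[.ofNat 54,.negSucc 111],[.ofNat 34,.ofNat 48],[.negSucc 34,.negSucc 7],[.ofNat 8]]]⟩
theorem c104 : chkE [e32] e104 false [(0,4),(1,5),(2,3),(2,4),(3,5)] 0 3 6 (0,[]) [(6,[]),(6,[]),(6,[])] = true := by decide +kernel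
theorem k104 (h : Hy) : e104.ok := h.step (fac (k32 h) fan) c104

def e105 : Ent := ⟨2,[(0,4),(1,5),(2,3),(2,4),(3,5),(4,6)],[[[.negSucc 1],[.ofNat 9],[.negSucc 15],[.ofNat 14],[.negSucc 5],[.ofNat 1]],[[.negSucc 27,.ofNat 14],[.ofNat 112,.negSucc 62],[.negSucc 160,.ofNat 112],[.ofNat 84,.negSucc 97],[.ofNat 14,.ofNat 42],[.negSucc 27,.negSucc 6],[.ofNat 7]]]⟩
theorem c105 : chkE [e32] e105 false [(0,4),(1,5),(2,3),(2,4),(3,5)] 0 4 6 (0,[]) [(6,[]),(6,[]),(6,[])] = true := by decide +kernel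
theorem k105 (h : Hy) : e105.ok := h.step (fac (k32 h) fan) c105

def e106 : Ent := ⟨2,[(0,4),(0,5),(1,6),(2,3),(2,4),(3,6),(5,7)],[[[.ofNat 1,.negSucc 0],[.negSucc 4,.ofNat 5],[.ofNat 10,.negSucc 9],[.negSucc 9,.ofNat 10],[.ofNat 5,.negSucc 4],[.negSucc 0,.ofNat 1]],[[.ofNat 25,.negSucc 32,.ofNat 8],[.negSucc 117,.ofNat 158,.negSucc 39],[.ofNat 215,.negSucc 294,.ofNat 80],[.negSucc 179,.ofNat 260,.negSucc 79],[.ofNat 55,.negSucc 94,.ofNat 40],[.ofNat 10,.negSucc 1,.negSucc 7],[.negSucc 6,.ofNat 7]]]⟩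
theorem c106 : chkE [e95] e106 false [(0,4),(0,5),(1,6),(2,3),(2,4),(3,6)] 0 5 7 (0,[(5,6)]) [(7,[]),(7,[]),(7,[]),(7,[]),(7,[])] = true := by decide +kernel
theorem k106 (h : Hy) : e106.ok := h.step (fac (k95 h) fan) c106

def e107 : Ent := ⟨2,[(0,5),(1,6),(2,3),(2,5),(3,6),(4,5),(4,7)],[[[.ofNat 2],[.negSucc 10],[.ofNat 25],[.negSucc 29],[.ofNat 20],[.negSucc 6],[.ofNat 1]],[[.ofNat 44,.negSucc 17],[.negSucc 223,.ofNat 99],[.ofNat 451,.negSucc 224],[.negSucc 434,.ofNat 270],[.ofNat 170,.negSucc 179],[.ofNat 26,.ofNat 63],[.negSucc 40,.negSucc 8],[.ofNat 9]]]⟩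
theorem c107 : chkE [e105] e107 false [(0,5),(1,6),(2,3),(2,5),(3,6),(4,5)] 0 4 7 (0,[(4,6),(5,4)]) [(7,[]),(7,[]),(7,[]),(7,[]),(7,[])] = true := by decide +kernel
theorem k107 (h : Hy) : e107.ok := h.step (fac (k105 h) fan) c107

def e108 : Ent := ⟨2,[(0,4),(0,7),(1,5),(2,3),(2,4),(3,5),(4,6)],[[[.ofNat 2,.negSucc 1],[.negSucc 8,.ofNat 9],[.ofNat 16,.negSucc 15],[.negSucc 13,.ofNat 14],[.ofNat 6,.negSucc 5],[.negSucc 0,.ofNat 1]],[[.ofNat 44,.negSucc 59,.ofNat 16],[.negSucc 181,.ofNat 254,.negSucc 71],[.ofNat 280,.negSucc 407,.ofNat 128],[.negSucc 179,.ofNat 292,.negSucc 111],[.ofNat 20,.negSucc 67,.ofNat 48],[.ofNat 26,.negSucc 17,.negSucc 7],[.negSucc 7,.ofNat 8]]]⟩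
theorem c108 : chkE [e105] e108 false [(0,4),(1,5),(2,3),(2,4),(3,5),(4,6)] 0 0 7 (0,[]) [(7,[]),(7,[]),(7,[]),(7,[]),(7,[])] = true := by decide +kernel
theorem k108 (h : Hy) : e108.ok := h.step (fac (k105 h) fan) c108

def e109 : Ent := ⟨2,[(0,6),(2,3),(2,4),(3,5),(4,6),(5,7)],[[[.negSucc 0],[.ofNat 5],[.negSucc 9],[.ofNat 10],[.negSucc 4],[.ofNat 1]],[[.negSucc 15,.ofNat 10],[.ofNat 71,.negSucc 49],[.negSucc 114,.ofNat 100],[.ofNat 70,.negSucc 99],[.ofNat 10,.ofNat 50],[.negSucc 28,.negSucc 9],[.ofNat 9]]]⟩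
theorem c109 : chkE [e60] e109 false [(0,6),(2,3),(2,4),(3,5),(4,6)] 0 5 7 (0,[(3,4),(5,6)]) [(7,[]),(7,[]),(7,[]),(7,[]),(7,[])] = true := by decide +kernel
theorem k109 (h : Hy) : e109.ok := h.step (fac (k60 h) fan) c109

def e110 : Ent := ⟨2,[(0,6),(1,7),(2,3),(2,4),(3,5),(4,6),(5,7)],[[[.ofNat 1],[.negSucc 5],[.ofNat 15],[.negSucc 19],[.ofNat 15],[.negSucc 5],[.ofNat 1]],[[.ofNat 25,.negSucc 9],[.negSucc 140,.ofNat 60],[.ofNat 321,.negSucc 149],[.negSucc 364,.ofNat 200],[.ofNat 195,.negSucc 149],[.negSucc 14,.ofNat 60],[.negSucc 28,.negSucc 9],[.ofNat 9]]]⟩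
theorem c110 : chkE [e109] e110 true [(1,7),(2,3),(2,4),(3,5),(4,6),(5,7)] 0 6 8 (0,[(0,1),(2,3),(4,5),(6,7)]) [(8,[]),(8,[]),(8,[]),(8,[]),(8,[]),(8,[]),(8,[]),(9,[]),(9,[]),(9,[]),(9,[]),(9,[]),(9,[]),(9,[]),(9,[]),(9,[]),(9,[]),(9,[]),(9,[]),(9,[]),(9,[]),(9,[]),(10,[]),(10,[]),(10,[]),(10,[])] = true := by decide +kernel
theorem k110 (h : Hy) : e110.ok := h.step (fac (k109 h) fan) c110

def e111 : Ent := ⟨3,[(0,4),(1,5),(2,3),(2,4),(3,5)],[[[.ofNat 1],[.negSucc 3],[.ofNat 6],[.negSucc 3],[.ofNat 1]],[[.ofNat 9,.negSucc 5],[.negSucc 30,.ofNat 24],[.ofNat 34,.negSucc 35],[.negSucc 5,.ofNat 24],[.negSucc 10,.negSucc 5],[.ofNat 5]],[[.ofNat 2,.negSucc 27,.ofNat 8,.ofNat 2],[.ofNat 60,.ofNat 80,.negSucc 35,.negSucc 7],[.negSucc 243,.negSucc 37,.ofNat 64,.ofNat 12],[.ofNat 336,.negSucc 87,.negSucc 55,.negSucc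 7],[.negSucc 173,.ofNat 112,.ofNat 24,.ofNat 2],[.ofNat 4,.negSucc 39,.negSucc 3],[.ofNat 16,.ofNat 2]]]⟩
theorem c111 : chkE [e92,e93,e56,e88,e32,e94,e95,e96,e99,e103,e61,e104,e105,e106,e107,e108,e110] e111 true [(1,5),(2,3),(2,4),(3,5)] 0 4 6 (0,[(0,1),(2,3),(4,5)]) [(1,[(0,1),(2,3),(4,5)]),(2,[(2,3),(4,5)]),(3,[(4,5)]),(4,[]),(5,[(2,3),(4,5)]),(6,[]),(7,[(0,1)]),(8,[(0,1),(3,4)]),(9,[(0,1)]),(10,[(3,4),(5,6)]),(6,[]),(6,[(0,1),(2,3),(4,5)]),(11,[(0,1),(2,3),(4,5)]),(11,[]),(12,[]),(12,[(0,1),(2,3),(4,5)]),(13,[(5,6)]),(14,[(4,5),(4,6),(4,7)]),(15,[(6,7)]),(16,[(2,3),(2,5),(4,2),(4,7)])] = true := by decide +kernel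
theorem k111 (h : Hy) : e111.ok := h.step (fac (k92 h) (fac (k93 h) (fac (k56 h) (fac (k88 h) (fac (k32 h) (fac (k94 h) (fac (k95 h) (fac (k96 h) (fac (k99 h) (fac (k103 h) (fac (k61 h) (fac (k104 h) (fac (k105 h) (fac (k106 h) (fac (k107 h) (fac (k108 h) (fac (k110 h) fan))))))))))))))))) c111

def e112 : Ent := ⟨4,[(0,2),(1,3),(2,3)],[[[.ofNat 1],[.negSucc 1],[.ofNat 1]],[[.ofNat 1,.negSucc 1],[.negSucc 0,.ofNat 4],[.negSucc 0,.negSucc 1],[.ofNat 1]],[[.negSucc 2,.ofNat 8,.negSucc 3,.ofNat 2],[.ofNat 2,.negSucc 11,.ofNat 4,.negSucc 3],[.ofNat 5,.ofNat 2,.ofNat 4,.ofNat 2],[.negSucc 3,.ofNat 0,.negSucc 3],[.ofNat 0,.ofNat 2]],[[.ofNat 16,.negSucc 49,.ofNat 21,.negSucc 1,.ofNat 1,.negSucc 1],[.negSucc 12,.ofNat 116,.negSucc 55,.ofNat 0,.ofNat 6,.ofNat 4],[.negSucc 39,.negSucc 65,.ofNat 54,.negSucc 3,.negSucc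 14,.negSucc 1],[.ofNat 51,.negSucc 17,.negSucc 19,.ofNat 16,.ofNat 8],[.negSucc 9,.ofNat 20,.negSucc 2,.negSucc 9],[.negSucc 3,.negSucc 1,.ofNat 4]]]⟩
theorem c112 : chkE [e71,e69,e33,e38,e73,e82,e62,e83,e86,e88,e91,e111] e112 true [(1,3),(2,3)] 0 2 4 (0,[(0,1),(2,3)]) [(1,[(0,1),(2,3)]),(2,[]),(3,[(2,3)]),(4,[]),(5,[(0,1)]),(6,[(3,4)]),(4,[]),(4,[(0,1),(2,3)]),(7,[]),(7,[(0,1),(2,3)]),(8,[(3,4)]),(9,[(2,3),(2,4),(2,5)]),(10,[(4,5)]),(11,[(2,3),(2,5)])] = true := by decide +kernel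
theorem k112 (h : Hy) : e112.ok := h.step (fac (k71 h) (fac (k69 h) (fac (k33 h) (fac (k38 h) (fac (k73 h) (fac (k82 h) (fac (k62 h) (fac (k83 h) (fac (k86 h) (fac (k88 h) (fac (k91 h) (fac (k111 h) fan)))))))))))) c112

def e113 : Ent := ⟨5,[(0,1)],[[[.ofNat 1]],[[.ofNat 0,.ofNat 0,.negSucc 0],[.negSucc 0,.ofNat 2],[.negSucc 0]],[[.ofNat 0,.ofNat 0,.ofNat 1,.ofNat 0,.ofNat 1],[.ofNat 0,.negSucc 1,.ofNat 2,.negSucc 3],[.ofNat 2,.negSucc 3,.ofNat 5],[.ofNat 2,.negSucc 1]],[[.ofNat 0,.ofNat 0,.negSucc 5,.ofNat 4,.negSucc 1,.ofNat 0,.negSucc 0],[.ofNat 0,.ofNat 12,.negSucc 6,.ofNat 4,.negSucc 2,.ofNat 6],[.negSucc 5,.ofNat 2,.negSucc 3,.ofNat 12,.negSucc 12],[.ofNat 0,.ofNat 4,.negSucc 14,.ofNat 12],[.negSucc 1,.ofNat 6,.negSucc 3]],[[.ofNat 0,.ofNat 0,.ofNat 55,.negSucc 51,.ofNat 26,.negSucc 7,.ofNat 3,.ofNat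 0,.ofNat 1],[.ofNat 0,.negSucc 109,.ofNat 58,.negSucc 25,.ofNat 14,.negSucc 9,.ofNat 4,.negSucc 7],[.ofNat 55,.ofNat 40,.negSucc 26,.ofNat 0,.ofNat 16,.negSucc 23,.ofNat 25],[.negSucc 45,.ofNat 28,.negSucc 3,.negSucc 25,.ofNat 52,.negSucc 37],[.ofNat 0,.negSucc 7,.ofNat 30,.negSucc 47,.ofNat 28],[.ofNat 6,.negSucc 13,.ofNat 16,.negSucc 7],[.ofNat 1]]]⟩
theorem c113 : chkE [e0,e34,e35,e63,e69,e70,e112] e113 true [] 0 1 2 (0,[]) [(1,[]),(2,[]),(3,[]),(2,[]),(2,[(0,1)]),(4,[]),(4,[(0,1),(2,3)]),(5,[(2,3)]),(6,[])] = true := by decide +kernel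
theorem k113 (h : Hy) : e113.ok := h.step (fac (k0 h) (fac (k34 h) (fac (k35 h) (fac (k63 h) (fac (k69 h) (fac (k70 h) (fac (k112 h) fan))))))) c113

def e114 : Ent := ⟨5,[(0,1),(0,2)],[[[.negSucc 0,.ofNat 1]],[[.ofNat 0,.ofNat 0,.ofNat 1,.negSucc 0],[.ofNat 1,.negSucc 2,.ofNat 2],[.ofNat 1,.negSucc 0]],[[.ofNat 0,.ofNat 0,.negSucc 0,.ofNat 1,.negSucc 0,.ofNat 1],[.ofNat 0,.ofNat 2,.negSucc 3,.ofNat 6,.negSucc 3],[.negSucc 1,.ofNat 6,.negSucc 8,.ofNat 5],[.negSucc 1,.ofNat 4,.negSucc 1]],[[.ofNat 0,.ofNat 0,.ofNat 6,.negSucc 9,.ofNat 6,.negSucc 1,.ofNat 1,.negSucc 0],[.ofNat 0,.negSucc 11,.ofNat 19,.negSucc 10,.ofNat 7,.negSucc 8,.ofNat 6],[.ofNat 6,.negSucc 7,.ofNat 6,.negSucc 15,.ofNat 25,.negSucc 12],[.ofNat 0,.negSucc 3,.ofNat 19,.negSucc 26,.ofNat 12],[.ofNat 2,.negSucc 7,.ofNat 10,.negSucc 3]],[[.ofNat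 0,.ofNat 0,.negSucc 54,.ofNat 107,.negSucc 77,.ofNat 34,.negSucc 10,.ofNat 3,.negSucc 0,.ofNat 1],[.ofNat 0,.ofNat 110,.negSucc 167,.ofNat 84,.negSucc 39,.ofNat 24,.negSucc 13,.ofNat 12,.negSucc 7],[.negSucc 54,.ofNat 15,.ofNat 67,.negSucc 26,.negSucc 15,.ofNat 40,.negSucc 48,.ofNat 25],[.ofNat 46,.negSucc 73,.ofNat 32,.ofNat 22,.negSucc 77,.ofNat 90,.negSucc 37],[.ofNat 0,.ofNat 8,.negSucc 37,.ofNat 78,.negSucc 75,.ofNat 28],[.negSucc 5,.ofNat 20,.negSucc 29,.ofNat 24,.negSucc 7],[.negSucc 0,.ofNat 1]]]⟩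
theorem c114 : chkE [e113] e114 false [(0,1)] 0 0 2 (0,[]) [] = true := by decide +kernel
theorem k114 (h : Hy) : e114.ok := h.step (fac (k113 h) fan) c114

def e115 : Ent := ⟨5,[(0,2)],[[[.ofNat 1]],[[.ofNat 0,.negSucc 0]],[[.ofNat 0,.ofNat 0,.ofNat 0,.ofNat 1],[.ofNat 0,.ofNat 1,.negSucc 1],[.ofNat 0,.ofNat 1]],[[.ofNat 0,.ofNat 0,.ofNat 0,.negSucc 0,.ofNat 0,.negSucc 0],[.ofNat 0,.ofNat 0,.ofNat 2,.negSucc 1,.ofNat 4],[.ofNat 0,.negSucc 1,.ofNat 4,.negSucc 4],[.ofNat 0,.negSucc 1,.ofNat 2]],[[.ofNat 0,.ofNat 0,.ofNat 0,.ofNat 6,.negSucc 3,.ofNat 2,.ofNat 0,.ofNat 1],[.ofNat 0,.ofNat 0,.negSucc 11,.ofNat 7,.negSucc 3,.ofNat 3,.negSucc 5],[.ofNat 0,.ofNat 6,.negSucc 1,.ofNat 4,.negSucc 11,.ofNat 13],[.ofNat 0,.ofNat 0,.negSucc 3,.ofNat 15,.negSucc 11],[.ofNat 0,.ofNat 2,.negSucc 5,.ofNat 4]]]⟩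
theorem c115 : chkE [e0,e113] e115 false [] 0 0 2 (0,[]) [(1,[])] = true := by decide +kernel
theorem k115 (h : Hy) : e115.ok := h.step (fac (k0 h) (fac (k113 h) fan)) c115

def e116 : Ent := ⟨4,[(0,2),(0,3),(1,2)],[[[.ofNat 1,.negSucc 0],[.negSucc 0,.ofNat 1]],[[.ofNat 1,.negSucc 1,.ofNat 1],[.negSucc 0,.ofNat 2,.negSucc 0]],[[.negSucc 2,.ofNat 8,.negSucc 9,.ofNat 8,.negSucc 2],[.ofNat 2,.ofNat 0,.negSucc 3,.negSucc 0,.ofNat 3],[.negSucc 0,.negSucc 0,.ofNat 9,.negSucc 6],[.ofNat 1,.negSucc 5,.ofNat 5],[.ofNat 1,.negSucc 0]],[[.ofNat 16,.negSucc 49,.ofNat 76,.negSucc 68,.ofNat 37,.negSucc 12,.ofNat 3],[.negSucc 12,.ofNat 6,.ofNat 14,.negSucc 10,.ofNat 6,.ofNat 1,.negSucc 2],[.ofNat 15,.negSucc 4,.negSucc 26,.ofNat 33,.negSucc 27,.ofNat 12],[.negSucc 12,.ofNat 33,.negSucc 46,.ofNat 42,.negSucc 14],[.negSucc 4,.ofNat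 18,.negSucc 17,.ofNat 5],[.negSucc 0,.negSucc 0,.ofNat 2],[.ofNat 1,.negSucc 0]]]⟩
theorem c116 : chkE [e63,e68] e116 false [(0,2),(1,2)] 0 0 3 (0,[]) [(1,[])] = true := by decide +kernel
theorem k116 (h : Hy) : e116.ok := h.step (fac (k63 h) (fac (k68 h) fan)) c116

def e117 : Ent := ⟨4,[(0,2),(1,2),(2,3)],[[[.ofNat 2],[.negSucc 2],[.ofNat 1]],[],[[.ofNat 0,.ofNat 0,.negSucc 3,.ofNat 4],[.ofNat 0,.ofNat 8,.negSucc 3,.negSucc 5],[.negSucc 1,.negSucc 3,.ofNat 13,.ofNat 2],[.ofNat 1,.negSucc 7,.negSucc 4],[.ofNat 2,.ofNat 4],[.negSucc 0]],[[.ofNat 0,.ofNat 0,.ofNat 30,.negSucc 31,.ofNat 14,.negSucc 3],[.ofNat 0,.negSucc 59,.ofNat 27,.ofNat 4,.negSucc 4,.ofNat 6],[.ofNat 30,.ofNat 42,.negSucc 46,.ofNat 30,.negSucc 16,.negSucc 1],[.negSucc 36,.ofNat 26,.negSucc 26,.ofNat 8,.ofNat 8],[.ofNat 3,.ofNat 4,.ofNat 14,.negSucc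 9],[.ofNat 2,.negSucc 13,.ofNat 3],[.ofNat 3,.ofNat 2],[.negSucc 0]]]⟩
theorem c117 : chkE [e63] e117 false [(0,2),(1,2)] 0 2 3 (0,[]) [] = true := by decide +kernel
theorem k117 (h : Hy) : e117.ok := h.step (fac (k63 h) fan) c117

def e118 : Ent := ⟨2,[(0,2),(0,3),(0,4),(1,2),(1,3)],[[[.negSucc 1,.ofNat 5,.negSucc 3,.ofNat 1],[.ofNat 4,.negSucc 9,.ofNat 8,.negSucc 1],[.negSucc 1,.ofNat 5,.negSucc 3,.ofNat 1]],[[.negSucc 3,.ofNat 12,.negSucc 12,.ofNat 6,.negSucc 0],[.ofNat 4,.negSucc 13,.ofNat 18,.negSucc 9,.ofNat 2],[.ofNat 4,.negSucc 7,.ofNat 3,.ofNat 2,.negSucc 0],[.negSucc 3,.ofNat 10,.negSucc 7,.ofNat 2]]]⟩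
theorem c118 : chkE [e39] e118 false [(0,2),(0,3),(1,2),(1,3)] 0 0 4 (0,[]) [(4,[])] = true := by decide +kernel
theorem k118 (h : Hy) : e118.ok := h.step (fac (k39 h) fan) c118

def e119 : Ent := ⟨2,[(0,2),(0,3),(1,3),(1,4),(2,3)],[[[.negSucc 1,.ofNat 4,.negSucc 1],[.ofNat 5,.negSucc 9,.ofNat 5],[.negSucc 3,.ofNat 8,.negSucc 3],[.ofNat 1,.negSucc 1,.ofNat 1]],[[.negSucc 1,.ofNat 6,.negSucc 5,.ofNat 2],[.ofNat 1,.negSucc 6,.ofNat 11,.negSucc 4],[.ofNat 6,.negSucc 7,.negSucc 1,.ofNat 4],[.negSucc 6,.ofNat 13,.negSucc 4,.negSucc 0],[.ofNat 2,.negSucc 3,.ofNat 2]]]⟩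
theorem c119 : chkE [e40] e119 false [(0,2),(0,3),(1,3),(2,3)] 0 1 4 (0,[]) [(4,[]),(4,[])] = true := by decide +kernel
theorem k119 (h : Hy) : e119.ok := h.step (fac (k40 h) fan) c119

def e120 : Ent := ⟨2,[(0,2),(0,3),(1,2),(1,3),(2,4)],[[[.negSucc 1,.ofNat 4,.negSucc 1],[.ofNat 5,.negSucc 9,.ofNat 5],[.negSucc 3,.ofNat 8,.negSucc 3],[.ofNat 1,.negSucc 1,.ofNat 1]],[[.negSucc 3,.ofNat 8,.negSucc 3],[.ofNat 8,.negSucc 15,.ofNat 8],[.negSucc 2,.ofNat 6,.negSucc 2],[.negSucc 1,.ofNat 4,.negSucc 1],[.ofNat 1,.negSucc 1,.ofNat 1]]]⟩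
theorem c120 : chkE [e39] e120 false [(0,2),(0,3),(1,2),(1,3)] 0 2 4 (0,[]) [(4,[])] = true := by decide +kernel
theorem k120 (h : Hy) : e120.ok := h.step (fac (k39 h) fan) c120

def e121 : Ent := ⟨2,[(0,2),(0,3),(0,4),(1,3),(1,4),(2,5)],[[[.ofNat 2,.negSucc 4,.ofNat 4,.negSucc 0],[.negSucc 5,.ofNat 15,.negSucc 11,.ofNat 3],[.ofNat 6,.negSucc 14,.ofNat 12,.negSucc 2],[.negSucc 1,.ofNat 5,.negSucc 3,.ofNat 1]],[[.ofNat 16,.negSucc 43,.ofNat 42,.negSucc 15,.ofNat 2],[.negSucc 41,.ofNat 117,.negSucc 113,.ofNat 45,.negSucc 5],[.ofNat 30,.negSucc 86,.ofNat 90,.negSucc 38,.ofNat 6],[.ofNat 2,.negSucc 0,.negSucc 5,.ofNat 7,.negSucc 1],[.negSucc 5,.ofNat 15,.negSucc 11,.ofNat 3]]]⟩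
theorem c121 : chkE [e118] e121 false [(0,2),(0,3),(0,4),(1,3),(1,4)] 0 2 5 (0,[(2,4),(3,2)]) [(5,[]),(5,[]),(5,[])] = true := by decide +kernel
theorem k121 (h : Hy) : e121.ok := h.step (fac (k118 h) fan) c121

def e122 : Ent := ⟨2,[(0,3),(0,4),(1,3),(1,4),(2,3),(2,5)],[[[.ofNat 2,.negSucc 3,.ofNat 2],[.negSucc 6,.ofNat 14,.negSucc 6],[.ofNat 9,.negSucc 17,.ofNat 9],[.negSucc 4,.ofNat 10,.negSucc 4],[.ofNat 1,.negSucc 1,.ofNat 1]],[[.ofNat 16,.negSucc 35,.ofNat 24,.negSucc 3],[.negSucc 49,.ofNat 114,.negSucc 77,.ofNat 14],[.ofNat 51,.negSucc 119,.ofNat 87,.negSucc 17],[.negSucc 12,.ofNat 36,.negSucc 32,.ofNat 10],[.negSucc 6,.ofNat 12,.negSucc 2,.negSucc 1],[.ofNat 3,.negSucc 5,.ofNat 3]]]⟩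
theorem c122 : chkE [e120] e122 false [(0,3),(0,4),(1,3),(1,4),(2,3)] 0 2 5 (0,[(2,4),(3,2)]) [(5,[]),(5,[]),(5,[])] = true := by decide +kernel
theorem k122 (h : Hy) : e122.ok := h.step (fac (k120 h) fan) c122

def e123 : Ent := ⟨2,[(0,2),(0,3),(0,4),(1,2),(1,4),(2,5)],[[[.ofNat 4,.negSucc 9,.ofNat 8,.negSucc 1],[.negSucc 9,.ofNat 25,.negSucc 19,.ofNat 5],[.ofNat 8,.negSucc 19,.ofNat 16,.negSucc 3],[.negSucc 1,.ofNat 5,.negSucc 3,.ofNat 1]],[[.ofNat 20,.negSucc 53,.ofNat 50,.negSucc 17,.ofNat 2],[.negSucc 37,.ofNat 105,.negSucc 100,.ofNat 39,.negSucc 4],[.ofNat 10,.negSucc 32,.ofNat 40,.negSucc 20,.ofNat 4],[.ofNat 14,.negSucc 32,.ofNat 23,.negSucc 2,.negSucc 0],[.negSucc 5,.ofNat 15,.negSucc 11,.ofNat 3]]]⟩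
theorem c123 : chkE [e118] e123 false [(0,2),(0,3),(0,4),(1,2),(1,4)] 0 2 5 (0,[(3,4)]) [(5,[]),(5,[])] = true := by decide +kernel
theorem k123 (h : Hy) : e123.ok := h.step (fac (k118 h) fan) c123

def e124 : Ent := ⟨2,[(0,3),(0,4),(1,4),(2,3),(2,5)],[[[.ofNat 1,.negSucc 0],[.negSucc 2,.ofNat 3],[.ofNat 3,.negSucc 2],[.negSucc 0,.ofNat 1]],[[.ofNat 9,.negSucc 12,.ofNat 4],[.negSucc 23,.ofNat 36,.negSucc 11],[.ofNat 18,.negSucc 29,.ofNat 12],[.ofNat 0,.ofNat 4,.negSucc 3],[.negSucc 2,.ofNat 3]]]⟩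
theorem c124 : chkE [e41] e124 false [(0,3),(0,4),(1,4),(2,3)] 0 2 5 (0,[(2,4),(3,2)]) [(5,[]),(5,[]),(5,[])] = true := by decide +kernel
theorem k124 (h : Hy) : e124.ok := h.step (fac (k41 h) fan) c124

def e125 : Ent := ⟨2,[(0,3),(0,5),(1,4),(1,5),(2,3),(2,4)],[[[.ofNat 1,.negSucc 1,.ofNat 1],[.negSucc 3,.ofNat 8,.negSucc 3],[.ofNat 6,.negSucc 11,.ofNat 6],[.negSucc 3,.ofNat 8,.negSucc 3],[.ofNat 1,.negSucc 1,.ofNat 1]],[[.ofNat 12,.negSucc 27,.ofNat 20,.negSucc 3],[.negSucc 43,.ofNat 104,.negSucc 75,.ofNat 16],[.ofNat 56,.negSucc 135,.ofNat 104,.negSucc 23],[.negSucc 23,.ofNat 64,.negSucc 55,.ofNat 16],[.negSucc 3,.ofNat 4,.ofNat 4,.negSucc 3],[.ofNat 4,.negSucc 7,.ofNat 4]]]⟩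
theorem c125 : chkE [e124] e125 true [(0,5),(1,4),(1,5),(2,3),(2,4)] 0 3 6 (0,[(0,1),(3,5),(4,3)]) [(6,[]),(6,[]),(6,[]),(6,[]),(7,[]),(7,[]),(7,[]),(7,[]),(7,[]),(7,[]),(7,[]),(7,[]),(7,[]),(7,[]),(7,[]),(8,[]),(8,[]),(8,[]),(8,[])] = true := by decide +kernel
theorem k125 (h : Hy) : e125.ok := h.step (fac (k124 h) fan) c125

end Pool.Agent.RGA.CT
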