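import Pool.Agent.RGA.Cert04

set_option autoImplicit false

namespace Pool.Agent.RGA.CT

def e126 : Ent := ⟨3,[(0,2),(0,3),(1,2),(1,3)],[[[.ofNat 1,.negSucc 1,.ofNat 1],[.negSucc 1,.ofNat 4,.negSucc 1],[.ofNat 1,.negSucc 1,.ofNat 1]],[],[[.negSucc 13,.ofNat 42,.negSucc 51,.ofNat 38,.negSucc 17,.ofNat 4],[.ofNat 22,.negSucc 55,.ofNat 56,.negSucc 39,.ofNat 26,.negSucc 7],[.negSucc 7,.ofNat 6,.ofNat 22,.negSucc 25,.ofNat 2,.ofNat 4],[.ofNat 4,.negSucc 7,.negSucc 5,.ofNat 20,.negSucc 9],[.negSucc 1,.ofNat 12,.negSucc 17,.ofNat 8],[.negSucc 1,.ofNat 4,.negSucc 1]]]⟩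
theorem c126 : chkE [e116,e64,e39,e118,e119,e67,e120,e121,e122,e123,e125] e126 true [(0,3),(1,2),(1,3)] 0 2 4 (0,[(0,1),(2,3)]) [(1,[(0,1),(2,3)]),(2,[]),(3,[]),(4,[(0,1)]),(5,[(2,3),(2,4)]),(3,[]),(3,[(0,1)]),(6,[]),(6,[(2,3)]),(7,[(2,3),(2,4)]),(8,[(2,3),(2,4),(2,5)]),(9,[(3,4)]),(10,[(2,4),(3,5),(2,3)])] = true := by decide +kernel
theorem k126 (h : Hy) : e126.ok := h.step (fac (k116 h) (fac (k64 h) (fac (k39 h) (fac (k118 h) (fac (k119 h) (fac (k67 h) (fac (k120 h) (fac (k121 h) (fac (k122 h) (fac (k123 h) (fac (k125 h) fan))))))))))) c126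

def e127 : Ent := ⟨2,[(0,2),(0,3),(0,4),(1,3),(2,3)],[[[.negSucc 3,.ofNat 6,.negSucc 1],[.ofNat 10,.negSucc 14,.ofNat 5],[.negSucc 7,.ofNat 12,.negSucc 3],[.ofNat 2,.negSucc 2,.ofNat 1]],[[.ofNat 8,.negSucc 7,.negSucc 1,.ofNat 2],[.negSucc 31,.ofNat 38,.negSucc 0,.negSucc 4],[.ofNat 46,.negSucc 60,.ofNat 11,.ofNat 4],[.negSucc 27,.ofNat 40,.negSucc 10,.negSucc 0],[.ofNat 6,.negSucc 8,.ofNat 3]]]⟩
theorem c127 : chkE [e40] e127 false [(0,2),(0,3),(1,3),(2,3)] 0 0 4 (0,[]) [(4,[])] = true := by decide +kernel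
theorem k127 (h : Hy) : e127.ok := h.step (fac (k40 h) fan) c127

def e128 : Ent := ⟨2,[(0,3),(0,4),(1,4),(2,3),(2,4)],[[[.negSucc 1,.ofNat 2],[.ofNat 7,.negSucc 6],[.negSucc 8,.ofNat 9],[.ofNat 5,.negSucc 4],[.negSucc 0,.ofNat 1]],[[.negSucc 3,.ofNat 8,.negSucc 3],[.ofNat 8,.negSucc 21,.ofNat 14],[.ofNat 3,.ofNat 15,.negSucc 17],[.negSucc 16,.ofNat 7,.ofNat 10],[.ofNat 13,.negSucc 10,.negSucc 1],[.negSucc 2,.ofNat 3]]]⟩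
theorem c128 : chkE [e42] e128 true [(0,4),(1,4),(2,3),(2,4)] 0 3 5 (0,[(3,4)]) [(5,[]),(5,[]),(5,[]),(6,[]),(6,[]),(6,[]),(6,[]),(6,[]),(6,[]),(6,[]),(6,[]),(6,[]),(7,[]),(7,[]),(7,[]),(7,[])] = true := by decide +kernel
theorem k128 (h : Hy) : e128.ok := h.step (fac (k42 h) fan) c128

def e129 : Ent := ⟨2,[(0,2),(0,3),(1,2),(2,3),(2,4)],[[[.negSucc 5,.ofNat 6],[.ofNat 17,.negSucc 16],[.negSucc 16,.ofNat 17],[.ofNat 7,.negSucc 6],[.negSucc 0,.ofNat 1]],[[.ofNat 18,.negSucc 17],[.negSucc 68,.ofNat 69],[.ofNat 102,.negSucc 101],[.negSucc 71,.ofNat 72],[.ofNat 24,.negSucc 23],[.negSucc 2,.ofNat 3]]]⟩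
theorem c129 : chkE [e40] e129 false [(0,2),(0,3),(1,2),(2,3)] 0 2 4 (0,[(2,3)]) [] = true := by decide +kernel
theorem k129 (h : Hy) : e129.ok := h.step (fac (k40 h) fan) c129

def e130 : Ent := ⟨2,[(0,2),(0,3),(0,4),(1,4),(2,4),(3,5)],[[[.ofNat 4,.negSucc 5,.ofNat 2],[.negSucc 13,.ofNat 21,.negSucc 6],[.ofNat 18,.negSucc 26,.ofNat 9],[.negSucc 9,.ofNat 15,.negSucc 4],[.ofNat 2,.negSucc 2,.ofNat 1]],[[.ofNat 16,.negSucc 31,.ofNat 20,.negSucc 3],[.negSucc 39,.ofNat 88,.negSucc 61,.ofNat 14],[.ofNat 16,.negSucc 59,.ofNat 62,.negSucc 17],[.ofNat 32,.negSucc 27,.negSucc 13,.ofNat 10],[.negSucc 31,.ofNat 44,.negSucc 9,.negSucc 1],[.ofNat 8,.negSucc 11,.ofNat 4]]]⟩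
theorem c130 : chkE [e127] e130 false [(0,2),(0,3),(0,4),(1,4),(2,4)] 0 3 5 (0,[(3,4)]) [(5,[]),(5,[]),(5,[])] = true := by decide +kernel
theorem k130 (h : Hy) : e130.ok := h.step (fac (k127 h) fan) c130

def e131 : Ent := ⟨2,[(0,3),(0,4),(1,4),(2,3),(2,5),(3,4)],[[[.ofNat 4,.negSucc 3],[.negSucc 15,.ofNat 16],[.ofNat 25,.negSucc 24],[.negSucc 18,.ofNat 19],[.ofNat 7,.negSucc 6],[.negSucc 0,.ofNat 1]],[[.ofNat 16,.negSucc 27,.ofNat 12],[.negSucc 43,.ofNat 92,.negSucc 47],[.ofNat 20,.negSucc 94,.ofNat 75],[.ofNat 49,.ofNat 8,.negSucc 56],[.negSucc 66,.ofNat 46,.ofNat 21],[.ofNat 31,.negSucc 27,.negSucc 2],[.negSucc 4,.ofNat 5]]]⟩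
theorem c131 : chkE [e90] e131 false [(0,3),(0,4),(1,4),(2,3),(3,4)] 0 2 5 (0,[(2,4),(3,2)]) [(5,[]),(5,[]),(5,[])] = true := by decide +kernel
theorem k131 (h : Hy) : e131.ok := h.step (fac (k90 h) fan) c131

def e132 : Ent := ⟨2,[(0,2),(0,3),(0,4),(1,3),(2,3),(2,5)],[[[.ofNat 8,.negSucc 11,.ofNat 4],[.negSucc 23,.ofNat 36,.negSucc 11],[.ofNat 26,.negSucc 38,.ofNat 13],[.negSucc 11,.ofNat 18,.negSucc 5],[.ofNat 2,.negSucc 2,.ofNat 1]],[[.ofNat 0,.negSucc 15,.ofNat 24,.negSucc 7],[.ofNat 40,.negSucc 11,.negSucc 51,.ofNat 24],[.negSucc 119,.ofNat 128,.ofNat 18,.negSucc 25],[.ofNat 130,.negSucc 170,.ofNat 29,.ofNat 12],[.negSucc 59,.ofNat 86,.negSucc 23,.negSucc 1],[.ofNat 10,.negSucc 14,.ofNat 5]]]⟩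
theorem c132 : chkE [e127] e132 false [(0,2),(0,3),(0,4),(1,3),(2,3)] 0 2 5 (0,[]) [(5,[]),(5,[])] = true := by decide +kernel
theorem k132 (h : Hy) : e132.ok := h.step (fac (k127 h) fan) c132

def e133 : Ent := ⟨2,[(0,4),(0,5),(1,5),(2,3),(2,4),(3,5)],[[[.ofNat 2,.negSucc 1],[.negSucc 8,.ofNat 9],[.ofNat 16,.negSucc 15],[.negSucc 13,.ofNat 14],[.ofNat 6,.negSucc 5],[.negSucc 0,.ofNat 1]],[[.ofNat 18,.negSucc 25,.ofNat 8],[.negSucc 70,.ofNat 107,.negSucc 35],[.ofNat 99,.negSucc 162,.ofNat 64],[.negSucc 45,.ofNat 102,.negSucc 55],[.negSucc 15,.negSucc 7,.ofNat 24],[.ofNat 21,.negSucc 16,.negSucc 3],[.negSucc 4,.ofNat 5]]]⟩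
theorem c133 : chkE [e94] e133 true [(0,5),(1,5),(2,3),(2,4),(3,5)] 0 4 6 (0,[(2,3),(4,5)]) [(6,[]),(6,[]),(6,[]),(6,[]),(7,[]),(7,[]),(7,[]),(7,[]),(7,[]),(7,[]),(7,[]),(7,[]),(7,[]),(7,[]),(7,[]),(8,[]),(8,[]),(8,[]),(8,[])] = true := by decide +kernel
theorem k133 (h : Hy) : e133.ok := h.step (fac (k94 h) fan) c133

def e134 : Ent := ⟨3,[(0,2),(0,3),(1,3),(2,3)],[[[.ofNat 2,.negSucc 1],[.negSucc 4,.ofNat 5],[.ofNat 4,.negSucc 3],[.negSucc 0,.ofNat 1]],[[.negSucc 5,.ofNat 6],[.ofNat 17,.negSucc 16],[.negSucc 16,.ofNat 17],[.ofNat 7,.negSucc 6],[.negSucc 0,.ofNat 1]],[[.ofNat 32,.negSucc 25,.negSucc 19,.ofNat 20,.negSucc 5],[.negSucc 115,.ofNat 129,.ofNat 8,.negSucc 35,.ofNat 15],[.ofNat 148,.negSucc 195,.ofNat 55,.ofNat 5,.negSucc 11],[.negSucc 74,.ofNat 103,.negSucc 48,.ofNat 18,.ofNat 3],[.ofNat 11,.negSucc 4,.ofNat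 1,.negSucc 6],[.negSucc 0,.negSucc 3,.ofNat 5],[.ofNat 1,.negSucc 0]]]⟩
theorem c134 : chkE [e117,e43,e40,e127,e119,e128,e90,e129,e130,e131,e132,e133] e134 true [(0,3),(1,3),(2,3)] 0 2 4 (0,[(2,3)]) [(1,[(2,3)]),(2,[]),(3,[]),(4,[(0,1)]),(5,[(3,4)]),(3,[]),(4,[]),(6,[]),(7,[(2,3)]),(8,[(3,4)]),(9,[(2,3),(2,4),(2,5)]),(10,[]),(11,[(2,3),(2,5)])] = true := by decide +kernel
theorem k134 (h : Hy) : e134.ok := h.step (fac (k117 h) (fac (k43 h) (fac (k40 h) (fac (k127 h) (fac (k119 h) (fac (k128 h) (fac (k90 h) (fac (k129 h) (fac (k130 h) (fac (k131 h) (fac (k132 h) (fac (k133 h) fan)))))))))))) c134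

def e135 : Ent := ⟨4,[(0,2),(0,3),(1,3),(2,4)],[[[.negSucc 0,.ofNat 1],[.ofNat 2,.negSucc 1],[.negSucc 0,.ofNat 1]],[[.negSucc 3,.ofNat 6,.negSucc 1],[.ofNat 7,.negSucc 10,.ofNat 4],[.negSucc 1,.ofNat 4,.negSucc 1],[.negSucc 0,.ofNat 1]],[[.ofNat 9,.negSucc 13,.ofNat 10,.negSucc 7,.ofNat 3],[.negSucc 29,.ofNat 37,.negSucc 9,.ofNat 9,.negSucc 5],[.ofNat 34,.negSucc 37,.negSucc 4,.ofNat 6,.ofNat 3],[.negSucc 12,.ofNat 20,.ofNat 0,.negSucc 6],[.negSucc 0,.negSucc 3,.ofNat 5],[.ofNat 1,.negSucc 0]],[[.negSucc 33,.ofNat 34,.negSucc 3,.ofNat 11,.negSucc 12,.ofNat 9,.negSucc 2],[.ofNat 141,.negSucc 156,.ofNat 18,.ofNat 2,.negSucc 3,.negSucc 5,.ofNat 6],[.negSucc 227,.ofNat 275,.negSucc 55,.negSucc 4,.ofNat 32,.negSucc 14,.negSucc 2],[.ofNat 167,.negSucc 208,.ofNat 65,.negSucc 34,.ofNat 0,.ofNat 12],[.negSucc 42,.ofNat 48,.negSucc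 11,.ofNat 22,.negSucc 14],[.negSucc 2,.ofNat 11,.negSucc 12,.ofNat 5],[.negSucc 0,.negSucc 0,.ofNat 2],[.ofNat 1,.negSucc 0]]]⟩
theorem c135 : chkE [e116,e126,e134] e135 false [(0,2),(0,3),(1,3)] 0 2 4 (0,[(2,3)]) [(1,[]),(2,[])] = true := by decide +kernel
theorem k135 (h : Hy) : e135.ok := h.step (fac (k116 h) (fac (k126 h) (fac (k134 h) fan))) c135

def e136 : Ent := ⟨4,[(0,3),(1,3),(2,3),(2,4)],[[[.negSucc 1],[.ofNat 5],[.negSucc 3],[.ofNat 1]],[[.negSucc 3,.ofNat 4],[.ofNat 6,.negSucc 9],[.ofNat 2,.ofNat 8],[.negSucc 5,.negSucc 1],[.ofNat 2]],[[.ofNat 12,.negSucc 11,.ofNat 4,.negSucc 3],[.negSucc 41,.ofNat 34,.ofNat 0,.ofNat 10],[.ofNat 48,.negSucc 41,.negSucc 16,.negSucc 7],[.negSucc 12,.ofNat 34,.ofNat 18,.ofNat 2],[.negSucc 10,.negSucc 17,.negSucc 4],[.ofNat 7,.ofNat 4],[.negSucc 0]],[[.negSucc 63,.ofNat 52,.ofNat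 10,.negSucc 7,.negSucc 1,.ofNat 4],[.ofNat 256,.negSucc 221,.negSucc 4,.ofNat 28,.negSucc 10,.negSucc 9],[.negSucc 409,.ofNat 358,.negSucc 35,.negSucc 15,.ofNat 36,.ofNat 8],[.ofNat 313,.negSucc 273,.ofNat 44,.negSucc 29,.negSucc 30,.negSucc 1],[.negSucc 87,.ofNat 100,.negSucc 6,.ofNat 36,.ofNat 8],[.negSucc 18,.negSucc 9,.negSucc 8,.negSucc 9],[.ofNat 11,.negSucc 5,.ofNat 3],[.ofNat 2,.ofNat 2],[.negSucc 0]]]⟩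
theorem c136 : chkE [e117,e134] e136 false [(0,3),(1,3),(2,3)] 0 2 4 (0,[(2,3)]) [(1,[]),(1,[(0,1)])] = true := by decide +kernel
theorem k136 (h : Hy) : e136.ok := h.step (fac (k117 h) (fac (k134 h) fan)) c136

def e137 : Ent := ⟨3,[(0,1),(0,2),(1,2),(2,3)],[[[.ofNat 2,.negSucc 3,.ofNat 2],[.negSucc 2,.ofNat 6,.negSucc 2],[.ofNat 1,.negSucc 1,.ofNat 1]],[[.negSucc 5,.ofNat 16,.negSucc 15,.ofNat 8,.negSucc 1],[.ofNat 7,.negSucc 15,.ofNat 14,.negSucc 7,.ofNat 3],[.negSucc 1,.ofNat 0,.ofNat 5,.negSucc 1,.negSucc 0],[.ofNat 2,.negSucc 1,.negSucc 1,.ofNat 2],[.negSucc 0,.ofNat 2,.negSucc 0]],[[.ofNat 32,.negSucc 99,.ofNat 122,.negSucc 75,.ofNat 28,.negSucc 7,.ofNat 2],[.negSucc 41,.ofNat 122,.negSucc 134,.ofNat 70,.negSucc 15,.ofNat 4,.negSucc 2],[.ofNat 13,.negSucc 27,.ofNat 21,.ofNat 0,.negSucc 14,.ofNat 8,.ofNat 1],[.negSucc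 3,.ofNat 8,.negSucc 13,.ofNat 16,.negSucc 1,.negSucc 3],[.ofNat 0,.ofNat 2,.ofNat 1,.negSucc 7,.ofNat 5],[.ofNat 1,.negSucc 3,.ofNat 5,.negSucc 1]]]⟩
theorem c137 : chkE [e68] e137 false [(0,1),(0,2),(1,2)] 0 2 3 (0,[]) [] = true := by decide +kernel
theorem k137 (h : Hy) : e137.ok := h.step (fac (k68 h) fan) c137

def e138 : Ent := ⟨4,[(0,2),(0,4),(1,2),(2,3)],[[[.negSucc 1,.ofNat 2],[.ofNat 3,.negSucc 2],[.negSucc 0,.ofNat 1]],[[.negSucc 3,.ofNat 6,.negSucc 1],[.ofNat 4,.negSucc 6,.ofNat 3],[.ofNat 1,.ofNat 0,.negSucc 0],[.negSucc 0,.ofNat 1]],[[.ofNat 12,.negSucc 21,.ofNat 20,.negSucc 15,.ofNat 6],[.negSucc 31,.ofNat 37,.negSucc 5,.ofNat 10,.negSucc 8],[.ofNat 29,.negSucc 28,.negSucc 15,.ofNat 13,.ofNat 3],[.negSucc 7,.ofNat 18,.negSucc 2,.negSucc 6],[.negSucc 1,.negSucc 2,.ofNat 5],[.ofNat 1,.negSucc 0]],[[.negSucc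 63,.ofNat 126,.negSucc 131,.ofNat 118,.negSucc 67,.ofNat 26,.negSucc 5],[.ofNat 182,.negSucc 234,.ofNat 80,.negSucc 42,.ofNat 22,.negSucc 14,.ofNat 9],[.negSucc 254,.ofNat 286,.ofNat 1,.negSucc 61,.ofNat 56,.negSucc 22,.negSucc 2],[.ofNat 174,.negSucc 231,.ofNat 84,.negSucc 42,.ofNat 5,.ofNat 12],[.negSucc 29,.ofNat 38,.negSucc 17,.ofNat 25,.negSucc 14],[.negSucc 5,.ofNat 18,.negSucc 16,.ofNat 5],[.negSucc 1,.ofNat 0,.ofNat 2],[.ofNat 1,.negSucc 0]]]⟩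
theorem c138 : chkE [e117,e137,e134] e138 false [(0,2),(1,2),(2,3)] 0 0 4 (0,[]) [(1,[]),(2,[(2,3)])] = true := by decide +kernel
theorem k138 (h : Hy) : e138.ok := h.step (fac (k117 h) (fac (k137 h) (fac (k134 h) fan))) c138

def e139 : Ent := ⟨4,[(0,3),(2,3),(2,4)],[[[.ofNat 1],[.negSucc 1],[.ofNat 1]],[[.ofNat 1,.negSucc 3],[.ofNat 1,.ofNat 8],[.negSucc 4,.negSucc 3],[.ofNat 3]],[[.negSucc 2,.ofNat 0,.ofNat 4,.ofNat 1],[.ofNat 10,.negSucc 10,.negSucc 9,.negSucc 1],[.negSucc 3,.ofNat 23,.ofNat 8,.ofNat 1],[.negSucc 9,.negSucc 12,.negSucc 1],[.ofNat 7,.ofNat 1]],[[.ofNat 16,.negSucc 9,.negSucc 13,.ofNat 10,.negSucc 5,.negSucc 0],[.negSucc 52,.ofNat 43,.ofNat 22,.negSucc 5,.ofNat 16,.ofNat 2],[.ofNat 68,.negSucc 78,.negSucc 11,.negSucc 22,.negSucc 13,.negSucc 0],[.negSucc 25,.ofNat 71,.ofNat 16,.ofNat 24,.ofNat 4],[.negSucc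 19,.negSucc 26,.negSucc 13,.negSucc 4],[.ofNat 15,.ofNat 2,.ofNat 2]]]⟩
theorem c139 : chkE [e71,e80,e112] e139 false [(0,3),(2,3)] 0 2 4 (0,[(2,3)]) [(1,[]),(2,[(2,3)])] = true := by decide +kernel
theorem k139 (h : Hy) : e139.ok := h.step (fac (k71 h) (fac (k80 h) (fac (k112 h) fan))) c139

def e140 : Ent := ⟨3,[(0,1),(0,3),(2,3),(2,4)],[[[.negSucc 0,.ofNat 1],[.ofNat 2,.negSucc 1],[.negSucc 0,.ofNat 1]],[[.negSucc 3,.ofNat 7,.negSucc 1,.negSucc 0],[.ofNat 6,.negSucc 13,.ofNat 6,.ofNat 2],[.ofNat 1,.ofNat 6,.negSucc 5,.negSucc 0],[.negSucc 3,.ofNat 2,.ofNat 2],[.ofNat 1,.negSucc 0]],[[.ofNat 9,.negSucc 16,.ofNat 13,.negSucc 7,.ofNat 2,.ofNat 1],[.negSucc 26,.ofNat 43,.negSucc 18,.ofNat 13,.negSucc 7,.negSucc 1],[.ofNat 25,.negSucc 37,.negSucc 0,.ofNat 3,.ofNat 10,.ofNat 1],[.negSucc 3,.ofNat 16,.ofNat 5,.negSucc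 12,.negSucc 3],[.negSucc 3,.negSucc 4,.ofNat 4,.ofNat 5],[.ofNat 1,.ofNat 1,.negSucc 1]]]⟩
theorem c140 : chkE [e69,e81,e72] e140 false [(0,1),(0,3),(2,3)] 0 2 4 (0,[(2,3)]) [(1,[]),(2,[(2,3)])] = true := by decide +kernel
theorem k140 (h : Hy) : e140.ok := h.step (fac (k69 h) (fac (k81 h) (fac (k72 h) fan))) c140

def e141 : Ent := ⟨2,[(0,1),(0,3),(1,4),(2,3),(2,4)],[[[.negSucc 0,.ofNat 2,.negSucc 0],[.ofNat 3,.negSucc 5,.ofNat 3],[.negSucc 2,.ofNat 6,.negSucc 2],[.ofNat 1,.negSucc 1,.ofNat 1]],[[.negSucc 4,.ofNat 12,.negSucc 7,.ofNat 0,.ofNat 1],[.ofNat 13,.negSucc 33,.ofNat 26,.negSucc 1,.negSucc 2],[.negSucc 7,.ofNat 28,.negSucc 28,.ofNat 6,.ofNat 3],[.negSucc 3,.ofNat 0,.ofNat 11,.negSucc 5,.negSucc 0],[.ofNat 5,.negSucc 7,.ofNat 1,.ofNat 2],[.negSucc 0,.ofNat 2,.negSucc 0]]]⟩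
theorem c141 : chkE [e62] e141 true [(0,3),(1,4),(2,3),(2,4)] 0 1 5 (0,[]) [(5,[]),(5,[]),(5,[]),(6,[]),(6,[]),(6,[]),(6,[]),(6,[]),(6,[]),(6,[]),(6,[]),(6,[]),(7,[]),(7,[]),(7,[]),(7,[])] = true := by decide +kernel
theorem k141 (h : Hy) : e141.ok := h.step (fac (k62 h) fan) c141

def e142 : Ent := ⟨3,[(0,3),(0,5),(1,4),(2,3),(2,4)],[[[.ofNat 1,.negSucc 0],[.negSucc 2,.ofNat 3],[.ofNat 3,.negSucc 2],[.negSucc 0,.ofNat 1]],[[.ofNat 9,.negSucc 13,.ofNat 5],[.negSucc 22,.ofNat 38,.negSucc 14],[.ofNat 15,.negSucc 29,.ofNat 15],[.ofNat 3,.ofNat 2,.negSucc 4],[.negSucc 3,.ofNat 4]],[[.ofNat 2,.negSucc 14,.ofNat 14,.ofNat 2,.negSucc 2],[.ofNat 47,.negSucc 27,.negSucc 27,.ofNat 0,.ofNat 9],[.negSucc 141,.ofNat 166,.negSucc 2,.negSucc 11,.negSucc 8],[.ofNat 124,.negSucc 179,.ofNat 37,.ofNat 16,.ofNat 3],[.negSucc 19,.ofNat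 49,.negSucc 22,.negSucc 5],[.negSucc 10,.ofNat 8,.ofNat 3]]]⟩
theorem c142 : chkE [e62,e141,e84,e128] e142 false [(0,3),(1,4),(2,3),(2,4)] 0 0 5 (0,[]) [(1,[]),(2,[]),(3,[])] = true := by decide +kernel
theorem k142 (h : Hy) : e142.ok := h.step (fac (k62 h) (fac (k141 h) (fac (k84 h) (fac (k128 h) fan)))) c142

def e143 : Ent := ⟨2,[(0,3),(0,4),(0,5),(2,3),(2,4)],[[[.negSucc 1,.ofNat 3,.negSucc 0],[.ofNat 6,.negSucc 8,.ofNat 3],[.negSucc 5,.ofNat 9,.negSucc 2],[.ofNat 2,.negSucc 2,.ofNat 1]],[[.negSucc 3,.ofNat 16,.negSucc 16,.ofNat 5],[.ofNat 0,.negSucc 29,.ofNat 45,.negSucc 14],[.ofNat 24,.negSucc 5,.negSucc 32,.ofNat 15],[.negSucc 31,.ofNat 38,.negSucc 0,.negSucc 4],[.ofNat 12,.negSucc 17,.ofNat 6]]]⟩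
theorem c143 : chkE [e48] e143 false [(0,3),(0,4),(2,3),(2,4)] 0 0 5 (0,[]) [(5,[]),(5,[])] = true := by decide +kernel
theorem k143 (h : Hy) : e143.ok := h.step (fac (k48 h) fan) c143

def e144 : Ent := ⟨2,[(0,4),(0,5),(2,3),(2,4),(3,4)],[[[.negSucc 1,.ofNat 2],[.ofNat 7,.negSucc 6],[.negSucc 8,.ofNat 9],[.ofNat 5,.negSucc 4],[.negSucc 0,.ofNat 1]],[[.negSucc 1,.ofNat 14,.negSucc 11],[.negSucc 6,.negSucc 34,.ofNat 42],[.ofNat 40,.ofNat 14,.negSucc 53],[.negSucc 57,.ofNat 28,.ofNat 30],[.ofNat 34,.negSucc 27,.negSucc 5],[.negSucc 6,.ofNat 7]]]⟩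
theorem c144 : chkE [e53] e144 false [(0,4),(2,3),(2,4),(3,4)] 0 0 5 (0,[]) [(5,[]),(5,[]),(5,[])] = true := by decide +kernel
theorem k144 (h : Hy) : e144.ok := h.step (fac (k53 h) fan) c144

def e145 : Ent := ⟨2,[(0,3),(0,4),(2,3),(2,4),(2,5)],[[[.negSucc 1,.ofNat 2],[.ofNat 7,.negSucc 6],[.negSucc 8,.ofNat 9],[.ofNat 5,.negSucc 4],[.negSucc 0,.ofNat 1]],[[.negSucc 3,.ofNat 16,.negSucc 11],[.ofNat 0,.negSucc 41,.ofNat 42],[.ofNat 31,.ofNat 23,.negSucc 53],[.negSucc 52,.ofNat 23,.ofNat 30],[.ofNat 33,.negSucc 26,.negSucc 5],[.negSucc 6,.ofNat 7]]]⟩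
theorem c145 : chkE [e48] e145 false [(0,3),(0,4),(2,3),(2,4)] 0 2 5 (0,[]) [(5,[]),(5,[])] = true := by decide +kernel
theorem k145 (h : Hy) : e145.ok := h.step (fac (k48 h) fan) c145

def e146 : Ent := ⟨2,[(0,3),(0,4),(2,3),(2,4),(3,5)],[[[.negSucc 1,.ofNat 2],[.ofNat 7,.negSucc 6],[.negSucc 8,.ofNat 9],[.ofNat 5,.negSucc 4],[.negSucc 0,.ofNat 1]],[[.negSucc 3,.ofNat 14,.negSucc 9],[.ofNat 2,.negSucc 36,.ofNat 35],[.ofNat 24,.ofNat 21,.negSucc 44],[.negSucc 43,.ofNat 19,.ofNat 25],[.ofNat 28,.negSucc 22,.negSucc 4],[.negSucc 5,.ofNat 6]]]⟩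
theorem c146 : chkE [e48] e146 false [(0,3),(0,4),(2,3),(2,4)] 0 3 5 (0,[]) [(5,[]),(5,[])] = true := by decide +kernel
theorem k146 (h : Hy) : e146.ok := h.step (fac (k48 h) fan) c146

def e147 : Ent := ⟨2,[(0,3),(0,4),(0,5),(2,3),(2,4),(5,6)],[[[.ofNat 2,.negSucc 2,.ofNat 1],[.negSucc 7,.ofNat 12,.negSucc 3],[.ofNat 12,.negSucc 17,.ofNat 6],[.negSucc 7,.ofNat 12,.negSucc 3],[.ofNat 2,.negSucc 2,.ofNat 1]],[[.ofNat 16,.negSucc 35,.ofNat 26,.negSucc 5],[.negSucc 49,.ofNat 123,.negSucc 96,.ofNat 24],[.ofNat 40,.negSucc 131,.ofNat 128,.negSucc 35],[.ofNat 20,.ofNat 18,.negSucc 61,.ofNat 24],[.negSucc 39,.ofNat 48,.negSucc 1,.negSucc 5],[.ofNat 14,.negSucc 20,.ofNat 7]]]⟩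
theorem c147 : chkE [e143] e147 false [(0,3),(0,4),(0,5),(2,3),(2,4)] 0 5 6 (0,[]) [(6,[]),(6,[]),(6,[]),(6,[])] = true := by decide +kernel
theorem k147 (h : Hy) : e147.ok := h.step (fac (k143 h) fan) c147

def e148 : Ent := ⟨2,[(0,4),(0,5),(2,4),(2,5),(3,4),(3,6)],[[[.ofNat 2,.negSucc 1],[.negSucc 8,.ofNat 9],[.ofNat 16,.negSucc 15],[.negSucc 13,.ofNat 14],[.ofNat 6,.negSucc 5],[.negSucc 0,.ofNat 1]],[[.ofNat 16,.negSucc 29,.ofNat 14],[.negSucc 55,.ofNat 119,.negSucc 62],[.ofNat 56,.negSucc 167,.ofNat 112],[.ofNat 16,.ofNat 82,.negSucc 97],[.negSucc 63,.ofNat 22,.ofNat 42],[.ofNat 40,.negSucc 32,.negSucc 6],[.negSucc 7,.ofNat 8]]]⟩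
theorem c148 : chkE [e146] e148 false [(0,4),(0,5),(2,4),(2,5),(3,4)] 0 3 6 (0,[(3,5),(4,3)]) [(6,[]),(6,[]),(6,[]),(6,[])] = true := by decide +kernel
theorem k148 (h : Hy) : e148.ok := h.step (fac (k146 h) fan) c148

def e149 : Ent := ⟨2,[(0,3),(0,4),(0,5),(2,3),(2,4),(3,6)],[[[.ofNat 4,.negSucc 5,.ofNat 2],[.negSucc 13,.ofNat 21,.negSucc 6],[.ofNat 18,.negSucc 26,.ofNat 9],[.negSucc 9,.ofNat 15,.negSucc 4],[.ofNat 2,.negSucc 2,.ofNat 1]],[[.ofNat 20,.negSucc 53,.ofNat 46,.negSucc 11],[.negSucc 37,.ofNat 141,.negSucc 144,.ofNat 42],[.negSucc 21,.negSucc 74,.ofNat 151,.negSucc 53],[.ofNat 94,.negSucc 80,.negSucc 42,.ofNat 30],[.negSucc 69,.ofNat 93,.negSucc 16,.negSucc 5],[.ofNat 16,.negSucc 23,.ofNat 8]]]⟩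
theorem c149 : chkE [e143] e149 false [(0,3),(0,4),(0,5),(2,3),(2,4)] 0 3 6 (0,[]) [(6,[]),(6,[]),(6,[])] = true := by decide +kernel
theorem k149 (h : Hy) : e149.ok := h.step (fac (k143 h) fan) c149

def e150 : Ent := ⟨2,[(0,5),(0,6),(2,3),(2,4),(3,5),(4,6)],[[[.ofNat 1,.negSucc 0],[.negSucc 4,.ofNat 5],[.ofNat 10,.negSucc 9],[.negSucc 9,.ofNat 10],[.ofNat 5,.negSucc 4],[.negSucc 0,.ofNat 1]],[[.ofNat 12,.negSucc 19,.ofNat 8],[.negSucc 51,.ofNat 92,.negSucc 39],[.ofNat 80,.negSucc 159,.ofNat 80],[.negSucc 39,.ofNat 120,.negSucc 79],[.negSucc 19,.negSucc 19,.ofNat 40],[.ofNat 28,.negSucc 19,.negSucc 7],[.negSucc 7,.ofNat 8]]]⟩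
theorem c150 : chkE [e60] e150 true [(0,6),(2,3),(2,4),(3,5),(4,6)] 0 5 7 (0,[(3,4),(5,6)]) [(7,[]),(7,[]),(7,[]),(7,[]),(7,[]),(8,[]),(8,[]),(8,[]),(8,[]),(8,[]),(8,[]),(8,[]),(8,[]),(8,[]),(8,[]),(8,[]),(8,[]),(8,[]),(9,[]),(9,[]),(9,[]),(9,[])] = true := by decide +kernel
theorem k150 (h : Hy) : e150.ok := h.step (fac (k60 h) fan) c150

end Pool.Agent.RGA.CT
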