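import Pool.Agent.RGA.Cert05

set_option autoImplicit false

namespace Pool.Agent.RGA.CT

def e151 : Ent := ⟨3,[(0,3),(0,4),(2,3),(2,4)],[[[.ofNat 1,.negSucc 0],[.negSucc 2,.ofNat 3],[.ofNat 3,.negSucc 2],[.negSucc 0,.ofNat 1]],[[.ofNat 0,.negSucc 3,.ofNat 4],[.ofNat 4,.ofNat 8,.negSucc 11],[.negSucc 11,.ofNat 0,.ofNat 12],[.ofNat 12,.negSucc 7,.negSucc 3],[.negSucc 3,.ofNat 4]],[[.negSucc 13,.ofNat 21,.negSucc 5,.ofNat 1,.negSucc 1],[.ofNat 43,.negSucc 75,.ofNat 26,.ofNat 1,.ofNat 6],[.negSucc 33,.ofNat 93,.negSucc 43,.negSucc 8,.negSucc 5],[.negSucc 15,.negSucc 32,.ofNat 36,.ofNat 11,.ofNat 2],[.ofNat 32,.negSucc 13,.negSucc 13,.negSucc 3],[.negSucc 10,.ofNat 9,.ofNat 2]]]⟩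
theorem c151 : chkE [e139,e140,e75,e48,e143,e142,e144,e79,e49,e145,e146,e147,e148,e149,e150] e151 true [(0,4),(2,3),(2,4)] 0 3 5 (0,[(3,4)]) [(1,[(3,4)]),(2,[(3,4)]),(3,[]),(4,[]),(5,[(3,4)]),(6,[]),(7,[]),(4,[]),(8,[]),(9,[]),(10,[]),(10,[(3,4)]),(11,[]),(12,[(3,4),(3,5),(3,6)]),(13,[]),(14,[(2,3),(4,5),(4,6)])] = true := by decide +kernel
theorem k151 (h : Hy) : e151.ok := h.step (fac (k139 h) (fac (k140 h) (fac (k75 h) (fac (k48 h) (fac (k143 h) (fac (k142 h) (fac (k144 h) (fac (k79 h) (fac (k49 h) (fac (k145 h) (fac (k146 h) (fac (k147 h) (fac (k148 h) (fac (k149 h) (fac (k150 h) fan))))))))))))))) c151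

def e152 : Ent := ⟨2,[(0,1),(0,3),(0,4),(2,3),(2,4)],[[[.negSucc 1,.ofNat 3,.negSucc 0],[.ofNat 6,.negSucc 8,.ofNat 3],[.negSucc 5,.ofNat 9,.negSucc 2],[.ofNat 2,.negSucc 2,.ofNat 1]],[[.negSucc 3,.ofNat 10,.negSucc 5,.negSucc 0,.ofNat 1],[.ofNat 6,.negSucc 24,.ofNat 21,.ofNat 1,.negSucc 2],[.ofNat 8,.ofNat 12,.negSucc 25,.ofNat 3,.ofNat 3],[.negSucc 19,.ofNat 14,.ofNat 12,.negSucc 4,.negSucc 0],[.ofNat 12,.negSucc 13,.ofNat 0,.ofNat 2],[.negSucc 1,.ofNat 3,.negSucc 0]]]⟩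
theorem c152 : chkE [e151] e152 true [(0,3),(0,4),(2,3),(2,4)] 0 1 5 (0,[]) [(5,[]),(5,[]),(6,[]),(6,[]),(6,[]),(6,[]),(6,[]),(6,[]),(6,[]),(6,[]),(6,[]),(6,[]),(7,[]),(7,[]),(7,[]),(7,[])] = true := by decide +kernel
theorem k152 (h : Hy) : e152.ok := h.step (fac (k151 h) fan) c152

def e153 : Ent := ⟨3,[(0,3),(0,4),(1,5),(2,3),(2,4)],[[[.ofNat 1,.negSucc 0],[.negSucc 2,.ofNat 3],[.ofNat 3,.negSucc 2],[.negSucc 0,.ofNat 1]],[[.ofNat 8,.negSucc 12,.ofNat 5],[.negSucc 19,.ofNat 35,.negSucc 14],[.ofNat 12,.negSucc 26,.ofNat 15],[.ofNat 4,.ofNat 1,.negSucc 4],[.negSucc 3,.ofNat 4]],[[.ofNat 2,.negSucc 14,.ofNat 14,.ofNat 2,.negSucc 2],[.ofNat 39,.negSucc 18,.negSucc 28,.ofNat 0,.ofNat 9],[.negSucc 117,.ofNat 139,.ofNat 0,.negSucc 11,.negSucc 8],[.ofNat 100,.negSucc 152,.ofNat 34,.ofNat 16,.ofNat 3],[.negSucc 11,.ofNat 40,.negSucc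 21,.negSucc 5],[.negSucc 10,.ofNat 8,.ofNat 3]]]⟩
theorem c153 : chkE [e151,e152,e85,e128] e153 false [(0,3),(0,4),(2,3),(2,4)] 0 1 5 (0,[]) [(1,[]),(2,[(0,1)]),(3,[(3,4)]),(3,[])] = true := by decide +kernel
theorem k153 (h : Hy) : e153.ok := h.step (fac (k151 h) (fac (k152 h) (fac (k85 h) (fac (k128 h) fan)))) c153

def e154 : Ent := ⟨3,[(2,3)],[[[.ofNat 1]],[[.ofNat 0,.negSucc 1],[.ofNat 1]],[[.ofNat 0,.ofNat 0,.ofNat 2],[.ofNat 0,.negSucc 1],[.ofNat 1]]]⟩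
theorem c154 : chkE [e0,e115] e154 false [] 0 2 3 (0,[]) [(1,[]),(1,[(0,1)])] = true := by decide +kernel
theorem k154 (h : Hy) : e154.ok := h.step (fac (k0 h) (fac (k115 h) fan)) c154

def e155 : Ent := ⟨3,[(2,3),(2,4)],[[[.negSucc 0],[.ofNat 1]],[[.ofNat 0,.ofNat 4],[.negSucc 2,.negSucc 3],[.ofNat 3]],[[.ofNat 0,.ofNat 0,.negSucc 5],[.ofNat 0,.ofNat 12,.ofNat 6],[.negSucc 6,.negSucc 11],[.ofNat 7]]]⟩
theorem c155 : chkE [e154,e71] e155 false [(2,3)] 0 2 4 (0,[]) [(1,[]),(1,[(0,1)])] = true := by decide +kernel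
theorem k155 (h : Hy) : e155.ok := h.step (fac (k154 h) (fac (k71 h) fan)) c155

def e156 : Ent := ⟨2,[(0,5),(2,3),(2,4),(3,4)],[[[.negSucc 0],[.ofNat 3],[.negSucc 2],[.ofNat 1]],[[.negSucc 2,.ofNat 7],[.ofNat 3,.negSucc 20],[.ofNat 9,.ofNat 21],[.negSucc 14,.negSucc 6],[.ofNat 6]]]⟩
theorem c156 : chkE [e52] e156 false [(2,3),(2,4),(3,4)] 0 0 5 (0,[]) [(5,[]),(5,[]),(5,[]),(5,[])] = true := by decide +kernel
theorem k156 (h : Hy) : e156.ok := h.step (fac (k52 h) fan) c156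

def e157 : Ent := ⟨2,[(2,3),(2,5),(3,5),(4,5),(4,6)],[[[.negSucc 1],[.ofNat 9],[.negSucc 15],[.ofNat 14],[.negSucc 5],[.ofNat 1]],[[.negSucc 1,.ofNat 20],[.negSucc 12,.negSucc 89],[.ofNat 83,.ofNat 160],[.negSucc 161,.negSucc 139],[.ofNat 148,.ofNat 60],[.negSucc 64,.negSucc 9],[.ofNat 11]]]⟩
theorem c157 : chkE [e97] e157 false [(2,3),(2,5),(3,5),(4,5)] 0 4 6 (0,[(4,5)]) [(6,[]),(6,[]),(6,[]),(6,[])] = true := by decide +kernel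
theorem k157 (h : Hy) : e157.ok := h.step (fac (k97 h) fan) c157

def e158 : Ent := ⟨2,[(2,3),(2,4),(3,4),(3,6),(4,5)],[[[.negSucc 3],[.ofNat 16],[.negSucc 24],[.ofNat 19],[.negSucc 6],[.ofNat 1]],[[.ofNat 8,.ofNat 40],[.negSucc 79,.negSucc 159],[.ofNat 242,.ofNat 250],[.negSucc 337,.negSucc 189],[.ofNat 242,.ofNat 70],[.negSucc 85,.negSucc 9],[.ofNat 12]]]⟩
theorem c158 : chkE [e97] e158 false [(2,3),(2,4),(3,4),(4,5)] 0 3 6 (0,[]) [(6,[]),(6,[]),(6,[])] = true := by decide +kernel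
theorem k158 (h : Hy) : e158.ok := h.step (fac (k97 h) fan) c158

def e159 : Ent := ⟨2,[(2,3),(2,4),(3,6),(4,5)],[[[.negSucc 0],[.ofNat 3],[.negSucc 2],[.ofNat 1]],[[.negSucc 3,.ofNat 8],[.ofNat 5,.negSucc 23],[.ofNat 9,.ofNat 24],[.negSucc 16,.negSucc 7],[.ofNat 7]]]⟩
theorem c159 : chkE [e100] e159 false [(2,3),(2,4),(4,5)] 0 3 6 (0,[(3,5),(4,3)]) [(6,[]),(6,[]),(6,[]),(6,[])] = true := by decide +kernel
theorem k159 (h : Hy) : e159.ok := h.step (fac (k100 h) fan) c159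

def e160 : Ent := ⟨2,[(2,3),(2,4),(3,5),(4,6),(5,6)],[[[.negSucc 0],[.ofNat 5],[.negSucc 9],[.ofNat 10],[.negSucc 4],[.ofNat 1]],[[.negSucc 4,.ofNat 10],[.ofNat 15,.negSucc 49],[.ofNat 0,.ofNat 100],[.negSucc 49,.negSucc 99],[.ofNat 75,.ofNat 50],[.negSucc 44,.negSucc 9],[.ofNat 10]]]⟩
theorem c160 : chkE [e159] e160 true [(2,4),(3,5),(4,6),(5,6)] 2 3 7 (0,[(2,6),(3,5),(4,3)]) [(7,[]),(7,[]),(7,[]),(7,[]),(7,[]),(8,[]),(8,[]),(8,[]),(8,[]),(8,[]),(8,[]),(8,[]),(8,[]),(8,[]),(8,[]),(8,[]),(8,[]),(8,[]),(9,[]),(9,[]),(9,[]),(9,[])] = true := by decide +kernel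
theorem k160 (h : Hy) : e160.ok := h.step (fac (k159 h) fan) c160

def e161 : Ent := ⟨3,[(2,3),(2,4),(3,4)],[[[.negSucc 0],[.ofNat 3],[.negSucc 2],[.ofNat 1]],[[.ofNat 3,.ofNat 6],[.negSucc 14,.negSucc 17],[.ofNat 27,.ofNat 18],[.negSucc 20,.negSucc 5],[.ofNat 6]],[[.negSucc 15,.negSucc 23,.negSucc 11],[.ofNat 84,.ofNat 108,.ofNat 36],[.negSucc 182,.negSucc 179,.negSucc 35],[.ofNat 205,.ofNat 132,.ofNat 12],[.negSucc 116,.negSucc 35],[.ofNat 27]]]⟩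
theorem c161 : chkE [e155,e139,e52,e92,e97,e101,e156,e157,e158,e160] e161 true [(2,4),(3,4)] 2 3 5 (0,[(2,3),(2,4)]) [(1,[(2,3),(2,4)]),(1,[(0,1),(2,3),(2,4)]),(2,[]),(3,[(2,3),(2,4)]),(3,[(0,1),(2,3),(2,4)]),(4,[(2,4),(3,2)]),(5,[(3,5),(4,3)]),(6,[]),(6,[(0,1)]),(4,[(2,4),(3,2)]),(4,[(3,4)]),(4,[]),(7,[(2,5),(3,2),(4,3)]),(7,[(3,5),(4,3),(4,6)]),(8,[(2,3),(2,4),(5,6)]),(9,[(3,5),(4,3)])] = true := by decide +kernel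
theorem k161 (h : Hy) : e161.ok := h.step (fac (k155 h) (fac (k139 h) (fac (k52 h) (fac (k92 h) (fac (k97 h) (fac (k101 h) (fac (k156 h) (fac (k157 h) (fac (k158 h) (fac (k160 h) fan)))))))))) c161

def e162 : Ent := ⟨2,[(0,1),(2,3),(2,4),(3,4)],[[[.negSucc 0],[.ofNat 3],[.negSucc 2],[.ofNat 1]],[[.negSucc 2,.ofNat 6,.ofNat 1],[.ofNat 4,.negSucc 19,.negSucc 2],[.ofNat 7,.ofNat 24,.ofNat 3],[.negSucc 14,.negSucc 11,.negSucc 0],[.ofNat 8,.ofNat 2],[.negSucc 0]]]⟩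
theorem c162 : chkE [e161] e162 true [(2,3),(2,4),(3,4)] 0 1 5 (0,[]) [(5,[]),(5,[]),(5,[]),(5,[]),(6,[]),(6,[]),(6,[]),(6,[]),(6,[]),(6,[]),(6,[]),(6,[]),(6,[]),(6,[]),(7,[]),(7,[]),(7,[]),(7,[])] = true := by decide +kernel
theorem k162 (h : Hy) : e162.ok := h.step (fac (k161 h) fan) c162

def e163 : Ent := ⟨2,[(0,4),(2,3),(2,4),(3,4),(3,5)],[[[.negSucc 3],[.ofNat 16],[.negSucc 24],[.ofNat 19],[.negSucc 6],[.ofNat 1]],[[.ofNat 8,.ofNat 28],[.negSucc 67,.negSucc 111],[.ofNat 194,.ofNat 175],[.negSucc 262,.negSucc 132],[.ofNat 185,.ofNat 49],[.negSucc 64,.negSucc 6],[.ofNat 9]]]⟩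
theorem c163 : chkE [e53] e163 false [(0,4),(2,3),(2,4),(3,4)] 0 3 5 (0,[]) [(5,[]),(5,[])] = true := by decide +kernel
theorem k163 (h : Hy) : e163.ok := h.step (fac (k53 h) fan) c163

def e164 : Ent := ⟨2,[(0,4),(2,3),(2,4),(3,4),(4,5)],[[[.negSucc 5],[.ofNat 23],[.negSucc 33],[.ofNat 24],[.negSucc 7],[.ofNat 1]],[[.ofNat 18,.ofNat 36],[.negSucc 122,.negSucc 137],[.ofNat 309,.ofNat 204],[.negSucc 377,.negSucc 143],[.ofNat 240,.ofNat 48],[.negSucc 74,.negSucc 5],[.ofNat 9]]]⟩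
theorem c164 : chkE [e53] e164 false [(0,4),(2,3),(2,4),(3,4)] 0 4 5 (0,[]) [(5,[])] = true := by decide +kernel
theorem k164 (h : Hy) : e164.ok := h.step (fac (k53 h) fan) c164

def e165 : Ent := ⟨2,[(0,4),(0,5),(2,3),(2,4),(3,4),(5,6)],[[[.ofNat 2,.negSucc 1],[.negSucc 8,.ofNat 9],[.ofNat 16,.negSucc 15],[.negSucc 13,.ofNat 14],[.ofNat 6,.negSucc 5],[.negSucc 0,.ofNat 1]],[[.ofNat 16,.negSucc 29,.ofNat 14],[.negSucc 55,.ofNat 119,.negSucc 62],[.ofNat 56,.negSucc 167,.ofNat 112],[.ofNat 16,.ofNat 82,.negSucc 97],[.negSucc 63,.ofNat 22,.ofNat 42],[.ofNat 40,.negSucc 32,.negSucc 6],[.negSucc 7,.ofNat 8]]]⟩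
theorem c165 : chkE [e144] e165 false [(0,4),(0,5),(2,3),(2,4),(3,4)] 0 5 6 (0,[]) [(6,[]),(6,[]),(6,[]),(6,[])] = true := by decide +kernel
theorem k165 (h : Hy) : e165.ok := h.step (fac (k144 h) fan) c165

def e166 : Ent := ⟨2,[(0,5),(2,3),(2,5),(3,5),(4,5),(4,6)],[[[.ofNat 6],[.negSucc 28],[.ofNat 57],[.negSucc 57],[.ofNat 32],[.negSucc 8],[.ofNat 1]],[[.ofNat 12,.negSucc 47],[.ofNat 8,.ofNat 232],[.negSucc 204,.negSucc 455],[.ofNat 511,.ofNat 464],[.negSucc 573,.negSucc 255],[.ofNat 334,.ofNat 72],[.negSucc 96,.negSucc 7],[.ofNat 11]]]⟩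
theorem c166 : chkE [e164] e166 false [(0,5),(2,3),(2,5),(3,5),(4,5)] 0 4 6 (0,[(4,5)]) [(6,[]),(6,[]),(6,[]),(6,[])] = true := by decide +kernel
theorem k166 (h : Hy) : e166.ok := h.step (fac (k164 h) fan) c166

def e167 : Ent := ⟨2,[(0,4),(0,6),(2,3),(2,4),(3,4),(4,5)],[[[.ofNat 6,.negSucc 5],[.negSucc 22,.ofNat 23],[.ofNat 34,.negSucc 33],[.negSucc 23,.ofNat 24],[.ofNat 8,.negSucc 7],[.negSucc 0,.ofNat 1]],[[.ofNat 12,.negSucc 53,.ofNat 42],[.ofNat 14,.ofNat 147,.negSucc 160],[.negSucc 161,.negSucc 75,.ofNat 238],[.ofNat 292,.negSucc 123,.negSucc 167],[.negSucc 223,.ofNat 168,.ofNat 56],[.ofNat 78,.negSucc 70,.negSucc 6],[.negSucc 9,.ofNat 10]]]⟩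
theorem c167 : chkE [e164] e167 false [(0,4),(2,3),(2,4),(3,4),(4,5)] 0 0 6 (0,[]) [(6,[]),(6,[]),(6,[]),(6,[])] = true := by decide +kernel
theorem k167 (h : Hy) : e167.ok := h.step (fac (k164 h) fan) c167

def e168 : Ent := ⟨2,[(0,6),(2,3),(2,5),(3,5),(4,5),(4,6)],[[[.ofNat 2],[.negSucc 10],[.ofNat 25],[.negSucc 29],[.ofNat 20],[.negSucc 6],[.ofNat 1]],[[.ofNat 16,.negSucc 19],[.negSucc 65,.ofNat 110],[.ofNat 79,.negSucc 249],[.ofNat 35,.ofNat 300],[.negSucc 169,.negSucc 199],[.ofNat 164,.ofNat 70],[.negSucc 68,.negSucc 9],[.ofNat 11]]]⟩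
theorem c168 : chkE [e157] e168 true [(2,3),(2,5),(3,5),(4,5),(4,6)] 0 6 7 (0,[]) [(7,[]),(7,[]),(7,[]),(7,[]),(7,[]),(7,[]),(8,[]),(8,[]),(8,[]),(8,[]),(8,[]),(8,[]),(8,[]),(8,[]),(8,[]),(8,[]),(8,[]),(8,[]),(8,[]),(9,[]),(9,[]),(9,[]),(9,[])] = true := by decide +kernel
theorem k168 (h : Hy) : e168.ok := h.step (fac (k157 h) fan) c168

def e169 : Ent := ⟨3,[(0,4),(2,3),(2,4),(3,4)],[[[.ofNat 2],[.negSucc 6],[.ofNat 9],[.negSucc 4],[.ofNat 1]],[[.negSucc 5,.negSucc 9],[.ofNat 33,.ofNat 35],[.negSucc 68,.negSucc 44],[.ofNat 69,.ofNat 25],[.negSucc 32,.negSucc 4],[.ofNat 6]],[[.ofNat 32,.ofNat 54,.ofNat 8,.ofNat 2],[.negSucc 195,.negSucc 242,.negSucc 31,.negSucc 6],[.ofNat 492,.ofNat 434,.ofNat 50,.ofNat 9],[.negSucc 646,.negSucc 384,.negSucc 37,.negSucc 4],[.ofNat 469,.ofNat 171,.ofNat 14,.ofNat 1],[.negSucc 176,.negSucc 31,.negSucc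 1],[.ofNat 27,.ofNat 1]]]⟩
theorem c169 : chkE [e161,e162,e53,e144,e54,e98,e163,e164,e165,e166,e167,e168] e169 true [(2,3),(2,4),(3,4)] 0 4 5 (0,[]) [(1,[]),(2,[(2,4),(3,2)]),(2,[(3,4)]),(2,[]),(3,[]),(4,[(0,1)]),(5,[]),(3,[]),(4,[]),(6,[(2,3)]),(6,[]),(7,[]),(8,[]),(9,[(4,5),(4,6)]),(10,[(5,6)]),(11,[(4,5),(4,6)])] = true := by decide +kernel
theorem k169 (h : Hy) : e169.ok := h.step (fac (k161 h) (fac (k162 h) (fac (k53 h) (fac (k144 h) (fac (k54 h) (fac (k98 h) (fac (k163 h) (fac (k164 h) (fac (k165 h) (fac (k166 h) (fac (k167 h) (fac (k168 h) fan)))))))))))) c169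

def e170 : Ent := ⟨2,[(0,1),(0,4),(2,3),(2,4),(3,4)],[[[.negSucc 1,.ofNat 2],[.ofNat 7,.negSucc 6],[.negSucc 8,.ofNat 9],[.ofNat 5,.negSucc 4],[.negSucc 0,.ofNat 1]],[[.negSucc 1,.ofNat 10,.negSucc 5,.negSucc 1],[.negSucc 2,.negSucc 28,.ofNat 25,.ofNat 7],[.ofNat 28,.ofNat 22,.negSucc 40,.negSucc 8],[.negSucc 46,.ofNat 9,.ofNat 33,.ofNat 5],[.ofNat 33,.negSucc 18,.negSucc 12,.negSucc 0],[.negSucc 9,.ofNat 8,.ofNat 2],[.ofNat 1,.negSucc 0]]]⟩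
theorem c170 : chkE [e169] e170 true [(0,4),(2,3),(2,4),(3,4)] 0 1 5 (0,[]) [(5,[]),(5,[]),(5,[]),(6,[]),(6,[]),(6,[]),(6,[]),(6,[]),(6,[]),(6,[]),(6,[]),(6,[]),(6,[]),(7,[]),(7,[]),(7,[]),(7,[])] = true := by decide +kernel
theorem k170 (h : Hy) : e170.ok := h.step (fac (k169 h) fan) c170

def e171 : Ent := ⟨2,[(0,2),(1,2),(2,3),(2,4)],[[[.negSucc 5],[.ofNat 11],[.negSucc 5],[.ofNat 1]],[[],[.negSucc 11],[.ofNat 22],[.negSucc 11],[.ofNat 2]]]⟩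
theorem c171 : chkE [e117] e171 false [(0,2),(1,2),(2,3)] 0 2 4 (0,[]) [] = true := by decide +kernel
theorem k171 (h : Hy) : e171.ok := h.step (fac (k117 h) fan) c171

def e172 : Ent := ⟨2,[(0,4),(1,4),(2,3),(2,4),(3,4)],[[[.negSucc 5],[.ofNat 23],[.negSucc 33],[.ofNat 24],[.negSucc 7],[.ofNat 1]],[[.ofNat 18,.ofNat 12],[.negSucc 98,.negSucc 45],[.ofNat 217,.ofNat 68],[.negSucc 241,.negSucc 47],[.ofNat 144,.ofNat 16],[.negSucc 42,.negSucc 1],[.ofNat 5]]]⟩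
theorem c172 : chkE [e171] e172 true [(0,4),(1,4),(2,4),(3,4)] 2 3 5 (0,[(2,3),(2,4)]) [(5,[]),(5,[]),(5,[]),(6,[]),(6,[]),(6,[]),(6,[]),(6,[]),(6,[]),(6,[]),(6,[]),(6,[]),(7,[]),(7,[]),(7,[]),(7,[])] = true := by decide +kernel
theorem k172 (h : Hy) : e172.ok := h.step (fac (k171 h) fan) c172

def e173 : Ent := ⟨3,[(0,4),(1,5),(2,3),(2,4),(3,4)],[[[.ofNat 2],[.negSucc 6],[.ofNat 9],[.negSucc 4],[.ofNat 1]],[[.ofNat 10,.negSucc 11],[.negSucc 22,.ofNat 42],[.ofNat 3,.negSucc 53],[.ofNat 29,.ofNat 30],[.negSucc 24,.negSucc 5],[.ofNat 6]],[[.ofNat 0,.ofNat 0,.ofNat 14,.ofNat 4],[.ofNat 48,.negSucc 75,.negSucc 56,.negSucc 13],[.negSucc 113,.ofNat 270,.ofNat 91,.ofNat 18],[.ofNat 27,.negSucc 355,.negSucc 70,.negSucc 9],[.ofNat 123,.ofNat 208,.ofNat 27,.ofNat 2],[.negSucc 110,.negSucc 47,.negSucc 3],[.ofNat 27,.ofNat 2]]]⟩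
theorem c173 : chkE [e169,e170,e87,e172] e173 false [(0,4),(2,3),(2,4),(3,4)] 0 1 5 (0,[]) [(1,[]),(2,[(2,4),(3,2)]),(2,[(3,4)]),(3,[])] = true := by decide +kernel
theorem k173 (h : Hy) : e173.ok := h.step (fac (k169 h) (fac (k170 h) (fac (k87 h) (fac (k172 h) fan)))) c173

def e174 : Ent := ⟨3,[(0,3),(1,4),(2,3),(2,4),(2,5)],[[[.ofNat 2],[.negSucc 6],[.ofNat 9],[.negSucc 4],[.ofNat 1]],[[.ofNat 12,.negSucc 11],[.negSucc 29,.ofNat 42],[.ofNat 12,.negSucc 53],[.ofNat 24,.ofNat 30],[.negSucc 23,.negSucc 5],[.ofNat 6]],[[.negSucc 13,.negSucc 7,.ofNat 12,.ofNat 4],[.ofNat 127,.negSucc 43,.negSucc 49,.negSucc 13],[.negSucc 285,.ofNat 220,.ofNat 82,.ofNat 18],[.ofNat 211,.negSucc 317,.negSucc 65,.negSucc 9],[.ofNat 23,.ofNat 194,.ofNat 26,.ofNat 2],[.negSucc 85,.negSucc 45,.negSucc 3],[.ofNat 25,.ofNat 2]]]⟩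
theorem c174 : chkE [e62,e84] e174 false [(0,3),(1,4),(2,3),(2,4)] 0 2 5 (0,[]) [(1,[]),(1,[(0,1),(3,4)])] = true := by decide +kernel
theorem k174 (h : Hy) : e174.ok := h.step (fac (k62 h) (fac (k84 h) fan)) c174

def e175 : Ent := ⟨3,[(0,3),(1,4),(2,3),(2,4),(3,5)],[[[.ofNat 2],[.negSucc 6],[.ofNat 9],[.negSucc 4],[.ofNat 1]],[[.ofNat 14,.negSucc 9],[.negSucc 38,.ofNat 35],[.ofNat 28,.negSucc 44],[.ofNat 10,.ofNat 25],[.negSucc 17,.negSucc 4],[.ofNat 5]],[[.negSucc 21,.negSucc 15,.ofNat 4,.ofNat 4],[.ofNat 179,.ofNat 8,.negSucc 21,.negSucc 13],[.negSucc 423,.ofNat 100,.ofNat 46,.ofNat 18],[.ofNat 402,.negSucc 189,.negSucc 45,.negSucc 9],[.negSucc 121,.ofNat 130,.ofNat 22,.ofNat 2],[.negSucc 28,.negSucc 33,.negSucc 3],[.ofNat 16,.ofNat 2]]]⟩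
theorem c175 : chkE [e62,e128,e87] e175 false [(0,3),(1,4),(2,3),(2,4)] 0 3 5 (0,[]) [(1,[(0,1),(3,4)]),(2,[])] = true := by decide +kernel
theorem k175 (h : Hy) : e175.ok := h.step (fac (k62 h) (fac (k128 h) (fac (k87 h) fan))) c175

end Pool.Agent.RGA.CT
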