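import Pool.Agent.RGA.Cert06

set_option autoImplicit false

namespace Pool.Agent.RGA.CT

def e176 : Ent := ⟨2,[(0,3),(0,4),(1,5),(2,3),(2,4),(2,5)],[[[.ofNat 2,.negSucc 1],[.negSucc 8,.ofNat 9],[.ofNat 16,.negSucc 15],[.negSucc 13,.ofNat 14],[.ofNat 6,.negSucc 5],[.negSucc 0,.ofNat 1]],[[.ofNat 16,.negSucc 27,.ofNat 12],[.negSucc 57,.ofNat 112,.negSucc 53],[.ofNat 65,.negSucc 160,.ofNat 96],[.ofNat 0,.ofNat 84,.negSucc 83],[.negSucc 49,.ofNat 14,.ofNat 36],[.ofNat 34,.negSucc 27,.negSucc 5],[.negSucc 6,.ofNat 7]]]⟩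
theorem c176 : chkE [e145] e176 true [(0,3),(0,4),(2,3),(2,4),(2,5)] 1 5 6 (0,[]) [(6,[]),(6,[]),(6,[]),(6,[]),(6,[]),(7,[]),(7,[]),(7,[]),(7,[]),(7,[]),(7,[]),(7,[]),(7,[]),(7,[]),(7,[]),(7,[]),(8,[]),(8,[]),(8,[]),(8,[])] = true := by decide +kernel
theorem k176 (h : Hy) : e176.ok := h.step (fac (k145 h) fan) c176

def e177 : Ent := ⟨2,[(0,3),(0,4),(1,5),(2,3),(2,5),(3,4)],[[[.ofNat 2,.negSucc 1],[.negSucc 8,.ofNat 9],[.ofNat 16,.negSucc 15],[.negSucc 13,.ofNat 14],[.ofNat 6,.negSucc 5],[.negSucc 0,.ofNat 1]],[[.ofNat 16,.negSucc 25,.ofNat 10],[.negSucc 59,.ofNat 105,.negSucc 44],[.ofNat 74,.negSucc 153,.ofNat 80],[.negSucc 15,.ofNat 86,.negSucc 69],[.negSucc 35,.ofNat 6,.ofNat 30],[.ofNat 28,.negSucc 22,.negSucc 4],[.negSucc 5,.ofNat 6]]]⟩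
theorem c177 : chkE [e77] e177 true [(0,3),(0,4),(2,3),(2,5),(3,4)] 1 5 6 (0,[]) [(6,[]),(6,[]),(6,[]),(6,[]),(6,[]),(7,[]),(7,[]),(7,[]),(7,[]),(7,[]),(7,[]),(7,[]),(7,[]),(7,[]),(7,[]),(7,[]),(8,[]),(8,[]),(8,[]),(8,[])] = true := by decide +kernel
theorem k177 (h : Hy) : e177.ok := h.step (fac (k77 h) fan) c177

def e178 : Ent := ⟨2,[(0,3),(1,4),(1,5),(2,3),(2,4),(3,5)],[[[.ofNat 2,.negSucc 1],[.negSucc 8,.ofNat 9],[.ofNat 16,.negSucc 15],[.negSucc 13,.ofNat 14],[.ofNat 6,.negSucc 5],[.negSucc 0,.ofNat 1]],[[.ofNat 18,.negSucc 27,.ofNat 10],[.negSucc 68,.ofNat 114,.negSucc 44],[.ofNat 90,.negSucc 169,.ofNat 80],[.negSucc 29,.ofNat 100,.negSucc 69],[.negSucc 29,.ofNat 0,.ofNat 30],[.ofNat 27,.negSucc 21,.negSucc 4],[.negSucc 5,.ofNat 6]]]⟩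
theorem c178 : chkE [e79] e178 true [(1,4),(1,5),(2,3),(2,4),(3,5)] 0 3 6 (0,[(0,1)]) [(6,[]),(6,[]),(6,[]),(6,[]),(6,[]),(7,[]),(7,[]),(7,[]),(7,[]),(7,[]),(7,[]),(7,[]),(7,[]),(7,[]),(7,[]),(8,[]),(8,[]),(8,[]),(8,[])] = true := by decide +kernel
theorem k178 (h : Hy) : e178.ok := h.step (fac (k79 h) fan) c178

def e179 : Ent := ⟨3,[(0,3),(0,4),(1,5),(2,3),(2,5),(4,6)],[[[.negSucc 0,.ofNat 1],[.ofNat 4,.negSucc 3],[.negSucc 5,.ofNat 6],[.ofNat 4,.negSucc 3],[.negSucc 0,.ofNat 1]],[[.negSucc 15,.ofNat 22,.negSucc 5],[.ofNat 59,.negSucc 82,.ofNat 24],[.negSucc 75,.ofNat 112,.negSucc 35],[.ofNat 34,.negSucc 57,.ofNat 24],[.ofNat 4,.ofNat 2,.negSucc 5],[.negSucc 4,.ofNat 5]],[[.negSucc 63,.ofNat 125,.negSucc 65,.ofNat 2,.ofNat 3],[.ofNat 122,.negSucc 333,.ofNat 238,.negSucc 13,.negSucc 11],[.ofNat 140,.ofNat 95,.negSucc 288,.ofNat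 36,.ofNat 18],[.negSucc 499,.ofNat 460,.ofNat 96,.negSucc 43,.negSucc 11],[.ofNat 400,.negSucc 484,.ofNat 56,.ofNat 26,.ofNat 3],[.negSucc 85,.ofNat 130,.negSucc 37,.negSucc 5],[.negSucc 11,.ofNat 9,.ofNat 3]]]⟩
theorem c179 : chkE [e142,e125,e176,e177,e178] e179 false [(0,3),(0,4),(1,5),(2,3),(2,5)] 0 4 6 (0,[(4,5)]) [(1,[(4,5)]),(2,[]),(3,[]),(4,[(0,1),(3,4),(3,5)])] = true := by decide +kernel
theorem k179 (h : Hy) : e179.ok := h.step (fac (k142 h) (fac (k125 h) (fac (k176 h) (fac (k177 h) (fac (k178 h) fan))))) c179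

def e180 : Ent := ⟨2,[(0,4),(1,5),(2,3),(2,4),(3,4),(3,5)],[[[.ofNat 4],[.negSucc 19],[.ofNat 41],[.negSucc 43],[.ofNat 26],[.negSucc 7],[.ofNat 1]],[[.ofNat 16,.negSucc 27],[.negSucc 43,.ofNat 140],[.negSucc 15,.negSucc 286],[.ofNat 193,.ofNat 308],[.negSucc 291,.negSucc 181],[.ofNat 202,.ofNat 56],[.negSucc 67,.negSucc 6],[.ofNat 9]]]⟩
theorem c180 : chkE [e163] e180 true [(0,4),(2,3),(2,4),(3,4),(3,5)] 1 5 6 (0,[]) [(6,[]),(6,[]),(6,[]),(6,[]),(6,[]),(7,[]),(7,[]),(7,[]),(7,[]),(7,[]),(7,[]),(7,[]),(7,[]),(7,[]),(7,[]),(7,[]),(8,[]),(8,[]),(8,[]),(8,[])] = true := by decide +kernel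
theorem k180 (h : Hy) : e180.ok := h.step (fac (k163 h) fan) c180

def e181 : Ent := ⟨2,[(0,4),(1,5),(2,4),(2,5),(3,4),(3,5)],[[[.ofNat 4],[.negSucc 19],[.ofNat 41],[.negSucc 43],[.ofNat 26],[.negSucc 7],[.ofNat 1]],[[.ofNat 24,.negSucc 23],[.negSucc 87,.ofNat 120],[.ofNat 86,.negSucc 245],[.ofNat 64,.ofNat 264],[.negSucc 195,.negSucc 155],[.ofNat 160,.ofNat 48],[.negSucc 57,.negSucc 5],[.ofNat 8]]]⟩
theorem c181 : chkE [e102] e181 true [(1,5),(2,4),(2,5),(3,4),(3,5)] 0 4 6 (0,[(0,1),(2,3),(2,4)]) [(6,[]),(6,[]),(6,[]),(6,[]),(6,[]),(7,[]),(7,[]),(7,[]),(7,[]),(7,[]),(7,[]),(7,[]),(7,[]),(7,[]),(7,[]),(8,[]),(8,[]),(8,[]),(8,[])] = true := by decide +kernel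
theorem k181 (h : Hy) : e181.ok := h.step (fac (k102 h) fan) c181

def e182 : Ent := ⟨3,[(0,4),(1,5),(2,4),(2,5),(3,4),(3,6)],[[[.negSucc 1],[.ofNat 9],[.negSucc 15],[.ofNat 14],[.negSucc 5],[.ofNat 1]],[[.negSucc 25,.ofNat 14],[.ofNat 103,.negSucc 62],[.negSucc 144,.ofNat 112],[.ofNat 70,.negSucc 97],[.ofNat 20,.ofNat 42],[.negSucc 28,.negSucc 6],[.ofNat 7]],[[.negSucc 51,.ofNat 122,.negSucc 23,.negSucc 3],[.negSucc 43,.negSucc 446,.ofNat 116,.ofNat 18],[.ofNat 781,.ofNat 513,.negSucc 227,.negSucc 31],[.negSucc 1616,.negSucc 19,.ofNat 232,.ofNat 28],[.ofNat 1358,.negSucc 379,.negSucc 127,.negSucc 11],[.negSucc 429,.ofNat 273,.ofNat 36,.ofNat 2],[.negSucc 22,.negSucc 62,.negSucc 3],[.ofNat 27,.ofNat 2]]]⟩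
theorem c182 : chkE [e175,e177,e178,e180,e181] e182 false [(0,4),(1,5),(2,4),(2,5),(3,4)] 0 3 6 (0,[(3,5),(4,3)]) [(1,[(3,4)]),(2,[(3,5),(4,3)]),(3,[(2,3)]),(4,[])] = true := by decide +kernel
theorem k182 (h : Hy) : e182.ok := h.step (fac (k175 h) (fac (k177 h) (fac (k178 h) (fac (k180 h) (fac (k181 h) fan))))) c182

def e183 : Ent := ⟨2,[(0,1),(0,3),(1,4),(2,3),(2,4),(3,5)],[[[.ofNat 2,.negSucc 3,.ofNat 2],[.negSucc 6,.ofNat 14,.negSucc 6],[.ofNat 9,.negSucc 17,.ofNat 9],[.negSucc 4,.ofNat 10,.negSucc 4],[.ofNat 1,.negSucc 1,.ofNat 1]],[[.ofNat 18,.negSucc 41,.ofNat 28,.negSucc 1,.negSucc 1],[.negSucc 54,.ofNat 135,.negSucc 97,.ofNat 11,.ofNat 7],[.ofNat 51,.negSucc 142,.ofNat 124,.negSucc 22,.negSucc 8],[.negSucc 1,.ofNat 37,.negSucc 62,.ofNat 23,.ofNat 5],[.negSucc 19,.ofNat 27,.ofNat 5,.negSucc 10,.negSucc 0],[.ofNat 9,.negSucc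 15,.ofNat 5,.ofNat 2],[.negSucc 0,.ofNat 2,.negSucc 0]]]⟩
theorem c183 : chkE [e141] e183 false [(0,1),(0,3),(1,4),(2,3),(2,4)] 0 3 5 (0,[]) [(5,[]),(5,[])] = true := by decide +kernel
theorem k183 (h : Hy) : e183.ok := h.step (fac (k141 h) fan) c183

def e184 : Ent := ⟨2,[(0,2),(0,3),(1,4),(2,3),(2,4),(3,5)],[[[.ofNat 4,.negSucc 3],[.negSucc 15,.ofNat 16],[.ofNat 25,.negSucc 24],[.negSucc 18,.ofNat 19],[.ofNat 7,.negSucc 6],[.negSucc 0,.ofNat 1]],[[.ofNat 16,.negSucc 31,.ofNat 16],[.negSucc 39,.ofNat 104,.negSucc 63],[.ofNat 4,.negSucc 103,.ofNat 100],[.ofNat 74,.ofNat 2,.negSucc 75],[.negSucc 85,.ofNat 58,.ofNat 28],[.ofNat 38,.negSucc 33,.negSucc 3],[.negSucc 5,.ofNat 6]]]⟩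
theorem c184 : chkE [e84] e184 false [(0,2),(0,3),(1,4),(2,3),(2,4)] 0 3 5 (0,[]) [(5,[]),(5,[])] = true := by decide +kernel
theorem k184 (h : Hy) : e184.ok := h.step (fac (k84 h) fan) c184

def e185 : Ent := ⟨2,[(0,3),(0,4),(1,4),(2,3),(2,4),(3,5)],[[[.ofNat 4,.negSucc 3],[.negSucc 15,.ofNat 16],[.ofNat 25,.negSucc 24],[.negSucc 18,.ofNat 19],[.ofNat 7,.negSucc 6],[.negSucc 0,.ofNat 1]],[[.ofNat 24,.negSucc 35,.ofNat 12],[.negSucc 75,.ofNat 124,.negSucc 47],[.ofNat 70,.negSucc 144,.ofNat 75],[.ofNat 11,.ofNat 46,.negSucc 56],[.negSucc 52,.ofNat 32,.ofNat 21],[.ofNat 29,.negSucc 25,.negSucc 2],[.negSucc 4,.ofNat 5]]]⟩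
theorem c185 : chkE [e128] e185 false [(0,3),(0,4),(1,4),(2,3),(2,4)] 0 3 5 (0,[]) [(5,[]),(5,[])] = true := by decide +kernel
theorem k185 (h : Hy) : e185.ok := h.step (fac (k128 h) fan) c185

def e186 : Ent := ⟨3,[(0,3),(0,6),(1,4),(2,3),(2,4),(3,5)],[[[.negSucc 1,.ofNat 2],[.ofNat 7,.negSucc 6],[.negSucc 8,.ofNat 9],[.ofNat 5,.negSucc 4],[.negSucc 0,.ofNat 1]],[[.negSucc 25,.ofNat 38,.negSucc 11],[.ofNat 79,.negSucc 120,.ofNat 42],[.negSucc 74,.ofNat 129,.negSucc 53],[.ofNat 11,.negSucc 40,.ofNat 30],[.ofNat 17,.negSucc 10,.negSucc 5],[.negSucc 5,.ofNat 6]],[[.negSucc 51,.ofNat 130,.negSucc 85,.ofNat 2,.ofNat 6],[.negSucc 51,.negSucc 144,.ofNat 237,.negSucc 18,.negSucc 20],[.ofNat 541,.negSucc 461,.negSucc 156,.ofNat 51,.ofNat 27],[.negSucc 768,.ofNat 937,.negSucc 93,.negSucc 58,.negSucc 14],[.ofNat 361,.negSucc 538,.ofNat 144,.ofNat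 31,.ofNat 3],[.negSucc 6,.ofNat 60,.negSucc 46,.negSucc 5],[.negSucc 21,.ofNat 19,.ofNat 3]]]⟩
theorem c186 : chkE [e175,e183,e184,e185,e177] e186 false [(0,3),(1,4),(2,3),(2,4),(3,5)] 0 0 6 (0,[]) [(1,[]),(2,[]),(3,[]),(4,[(4,5)])] = true := by decide +kernel
theorem k186 (h : Hy) : e186.ok := h.step (fac (k175 h) (fac (k183 h) (fac (k184 h) (fac (k185 h) (fac (k177 h) fan))))) c186

def e187 : Ent := ⟨3,[(0,5),(2,3),(2,4),(3,5),(4,6)],[[[.ofNat 1],[.negSucc 3],[.ofNat 6],[.negSucc 3],[.ofNat 1]],[[.ofNat 9,.negSucc 7],[.negSucc 28,.ofNat 32],[.ofNat 26,.negSucc 47],[.ofNat 6,.ofNat 32],[.negSucc 18,.negSucc 7],[.ofNat 7]],[[.ofNat 2,.negSucc 67,.ofNat 24,.ofNat 1],[.ofNat 100,.ofNat 213,.negSucc 97,.negSucc 3],[.negSucc 392,.negSucc 170,.ofNat 152,.ofNat 6],[.ofNat 532,.negSucc 85,.negSucc 107,.negSucc 3],[.negSucc 267,.ofNat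 174,.ofNat 32,.ofNat 1],[.ofNat 0,.negSucc 62,.negSucc 1],[.ofNat 27,.ofNat 1]]]⟩
theorem c187 : chkE [e92,e79,e111,e98,e102] e187 false [(0,5),(2,3),(2,4),(3,5)] 0 4 6 (0,[(2,3),(4,5)]) [(1,[]),(2,[(2,3),(4,5)]),(3,[(3,4)]),(4,[])] = true := by decide +kernel
theorem k187 (h : Hy) : e187.ok := h.step (fac (k92 h) (fac (k79 h) (fac (k111 h) (fac (k98 h) (fac (k102 h) fan))))) c187

def e188 : Ent := ⟨2,[(0,1),(0,5),(2,3),(2,4),(3,5),(4,6)],[[[.negSucc 0,.ofNat 1],[.ofNat 4,.negSucc 3],[.negSucc 5,.ofNat 6],[.ofNat 4,.negSucc 3],[.negSucc 0,.ofNat 1]],[[.negSucc 15,.ofNat 23,.negSucc 5,.negSucc 0],[.ofNat 58,.negSucc 87,.ofNat 26,.ofNat 4],[.negSucc 70,.ofNat 121,.negSucc 43,.negSucc 5],[.ofNat 24,.negSucc 63,.ofNat 36,.ofNat 4],[.ofNat 14,.ofNat 1,.negSucc 13,.negSucc 0],[.negSucc 9,.ofNat 8,.ofNat 2],[.ofNat 1,.negSucc 0]]]⟩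
theorem c188 : chkE [e93] e188 false [(0,1),(0,5),(2,3),(2,4),(3,5)] 0 4 6 (0,[(2,3),(4,5)]) [(6,[]),(6,[]),(6,[]),(6,[])] = true := by decide +kernel
theorem k188 (h : Hy) : e188.ok := h.step (fac (k93 h) fan) c188

def e189 : Ent := ⟨2,[(0,4),(1,5),(2,3),(2,4),(3,6),(4,5)],[[[.negSucc 1],[.ofNat 9],[.negSucc 15],[.ofNat 14],[.negSucc 5],[.ofNat 1]],[[.negSucc 25,.ofNat 14],[.ofNat 103,.negSucc 62],[.negSucc 144,.ofNat 112],[.ofNat 70,.negSucc 97],[.ofNat 20,.ofNat 42],[.negSucc 28,.negSucc 6],[.ofNat 7]]]⟩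
theorem c189 : chkE [e88] e189 false [(0,4),(1,5),(2,3),(2,4),(4,5)] 0 3 6 (0,[(3,5),(4,3)]) [(6,[]),(6,[]),(6,[]),(6,[])] = true := by decide +kernel
theorem k189 (h : Hy) : e189.ok := h.step (fac (k88 h) fan) c189

def e190 : Ent := ⟨2,[(0,5),(1,5),(2,3),(2,4),(3,5),(4,6)],[[[.negSucc 1],[.ofNat 9],[.negSucc 15],[.ofNat 14],[.negSucc 5],[.ofNat 1]],[[.negSucc 27,.ofNat 12],[.ofNat 114,.negSucc 53],[.negSucc 169,.ofNat 96],[.ofNat 100,.negSucc 83],[.ofNat 0,.ofNat 36],[.negSucc 21,.negSucc 5],[.ofNat 6]]]⟩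
theorem c190 : chkE [e94] e190 false [(0,5),(1,5),(2,3),(2,4),(3,5)] 0 4 6 (0,[(2,3),(4,5)]) [(6,[]),(6,[]),(6,[]),(6,[])] = true := by decide +kernel
theorem k190 (h : Hy) : e190.ok := h.step (fac (k94 h) fan) c190

def e191 : Ent := ⟨2,[(0,5),(0,7),(1,6),(2,3),(2,4),(3,5),(4,6)],[[[.ofNat 1,.negSucc 0],[.negSucc 4,.ofNat 5],[.ofNat 10,.negSucc 9],[.negSucc 9,.ofNat 10],[.ofNat 5,.negSucc 4],[.negSucc 0,.ofNat 1]],[[.ofNat 25,.negSucc 33,.ofNat 9],[.negSucc 116,.ofNat 162,.negSucc 44],[.ofNat 210,.negSucc 299,.ofNat 90],[.negSucc 169,.ofNat 260,.negSucc 89],[.ofNat 45,.negSucc 89,.ofNat 45],[.ofNat 15,.negSucc 5,.negSucc 8],[.negSucc 7,.ofNat 8]]]⟩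
theorem c191 : chkE [e61] e191 false [(0,5),(1,6),(2,3),(2,4),(3,5),(4,6)] 0 0 7 (0,[]) [(7,[]),(7,[]),(7,[]),(7,[]),(7,[])] = true := by decide +kernel
theorem k191 (h : Hy) : e191.ok := h.step (fac (k61 h) fan) c191

def e192 : Ent := ⟨2,[(0,5),(0,6),(1,7),(2,3),(2,4),(3,5),(4,6)],[[[.ofNat 1,.negSucc 0],[.negSucc 4,.ofNat 5],[.ofNat 10,.negSucc 9],[.negSucc 9,.ofNat 10],[.ofNat 5,.negSucc 4],[.negSucc 0,.ofNat 1]],[[.ofNat 24,.negSucc 32,.ofNat 9],[.negSucc 111,.ofNat 157,.negSucc 44],[.ofNat 200,.negSucc 289,.ofNat 90],[.negSucc 159,.ofNat 250,.negSucc 89],[.ofNat 40,.negSucc 84,.ofNat 45],[.ofNat 16,.negSucc 6,.negSucc 8],[.negSucc 7,.ofNat 8]]]⟩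
theorem c192 : chkE [e150] e192 false [(0,5),(0,6),(2,3),(2,4),(3,5),(4,6)] 0 1 7 (0,[]) [(7,[]),(7,[]),(7,[]),(7,[]),(7,[]),(7,[])] = true := by decide +kernel
theorem k192 (h : Hy) : e192.ok := h.step (fac (k150 h) fan) c192

def e193 : Ent := ⟨2,[(0,6),(1,7),(2,3),(2,5),(3,5),(4,5),(4,6)],[[[.ofNat 2],[.negSucc 10],[.ofNat 25],[.negSucc 29],[.ofNat 20],[.negSucc 6],[.ofNat 1]],[[.ofNat 40,.negSucc 21],[.negSucc 197,.ofNat 121],[.ofNat 379,.negSucc 274],[.negSucc 324,.ofNat 330],[.ofNat 70,.negSucc 219],[.ofNat 80,.ofNat 77],[.negSucc 56,.negSucc 10],[.ofNat 11]]]⟩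
theorem c193 : chkE [e168] e193 false [(0,6),(2,3),(2,5),(3,5),(4,5),(4,6)] 0 1 7 (0,[]) [(7,[]),(7,[]),(7,[]),(7,[]),(7,[]),(7,[])] = true := by decide +kernel
theorem k193 (h : Hy) : e193.ok := h.step (fac (k168 h) fan) c193

def e194 : Ent := ⟨2,[(2,3),(2,4),(3,5),(4,5),(5,6)],[[[.negSucc 1],[.ofNat 9],[.negSucc 15],[.ofNat 14],[.negSucc 5],[.ofNat 1]],[[.negSucc 3,.ofNat 20],[.negSucc 3,.negSucc 89],[.ofNat 67,.ofNat 160],[.negSucc 147,.negSucc 139],[.ofNat 142,.ofNat 60],[.negSucc 63,.negSucc 9],[.ofNat 11]]]⟩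
theorem c194 : chkE [e101] e194 false [(2,3),(2,4),(3,5),(4,5)] 0 5 6 (0,[]) [(6,[]),(6,[]),(6,[])] = true := by decide +kernel
theorem k194 (h : Hy) : e194.ok := h.step (fac (k101 h) fan) c194

def e195 : Ent := ⟨2,[(0,6),(2,3),(2,4),(3,5),(4,5),(5,6)],[[[.ofNat 2],[.negSucc 10],[.ofNat 25],[.negSucc 29],[.ofNat 20],[.negSucc 6],[.ofNat 1]],[[.ofNat 16,.negSucc 19],[.negSucc 65,.ofNat 110],[.ofNat 79,.negSucc 249],[.ofNat 35,.ofNat 300],[.negSucc 169,.negSucc 199],[.ofNat 164,.ofNat 70],[.negSucc 68,.negSucc 9],[.ofNat 11]]]⟩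
theorem c195 : chkE [e194] e195 true [(2,3),(2,4),(3,5),(4,5),(5,6)] 0 6 7 (0,[]) [(7,[]),(7,[]),(7,[]),(7,[]),(7,[]),(7,[]),(8,[]),(8,[]),(8,[]),(8,[]),(8,[]),(8,[]),(8,[]),(8,[]),(8,[]),(8,[]),(8,[]),(8,[]),(8,[]),(9,[]),(9,[]),(9,[]),(9,[])] = true := by decide +kernel
theorem k195 (h : Hy) : e195.ok := h.step (fac (k194 h) fan) c195

def e196 : Ent := ⟨2,[(0,6),(1,7),(2,3),(2,4),(3,5),(4,5),(5,6)],[[[.ofNat 2],[.negSucc 10],[.ofNat 25],[.negSucc 29],[.ofNat 20],[.negSucc 6],[.ofNat 1]],[[.ofNat 40,.negSucc 21],[.negSucc 197,.ofNat 121],[.ofNat 379,.negSucc 274],[.negSucc 324,.ofNat 330],[.ofNat 70,.negSucc 219],[.ofNat 80,.ofNat 77],[.negSucc 56,.negSucc 10],[.ofNat 11]]]⟩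
theorem c196 : chkE [e195] e196 false [(0,6),(2,3),(2,4),(3,5),(4,5),(5,6)] 0 1 7 (0,[]) [(7,[]),(7,[]),(7,[]),(7,[]),(7,[]),(7,[])] = true := by decide +kernel
theorem k196 (h : Hy) : e196.ok := h.step (fac (k195 h) fan) c196

def e197 : Ent := ⟨2,[(0,6),(2,3),(2,4),(3,5),(4,6),(5,6)],[[[.ofNat 2],[.negSucc 10],[.ofNat 25],[.negSucc 29],[.ofNat 20],[.negSucc 6],[.ofNat 1]],[[.ofNat 18,.negSucc 17],[.negSucc 78,.ofNat 99],[.ofNat 115,.negSucc 224],[.negSucc 19,.ofNat 270],[.negSucc 119,.negSucc 179],[.ofNat 137,.ofNat 63],[.negSucc 60,.negSucc 8],[.ofNat 10]]]⟩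
theorem c197 : chkE [e160] e197 true [(2,3),(2,4),(3,5),(4,6),(5,6)] 0 6 7 (0,[]) [(7,[]),(7,[]),(7,[]),(7,[]),(7,[]),(7,[]),(8,[]),(8,[]),(8,[]),(8,[]),(8,[]),(8,[]),(8,[]),(8,[]),(8,[]),(8,[]),(8,[]),(8,[]),(9,[]),(9,[]),(9,[]),(9,[])] = true := by decide +kernel
theorem k197 (h : Hy) : e197.ok := h.step (fac (k160 h) fan) c197

def e198 : Ent := ⟨2,[(0,6),(1,7),(2,3),(2,4),(3,5),(4,6),(5,6)],[[[.ofNat 2],[.negSucc 10],[.ofNat 25],[.negSucc 29],[.ofNat 20],[.negSucc 6],[.ofNat 1]],[[.ofNat 42,.negSucc 19],[.negSucc 210,.ofNat 110],[.ofNat 415,.negSucc 249],[.negSucc 379,.ofNat 300],[.ofNat 120,.negSucc 199],[.ofNat 53,.ofNat 70],[.negSucc 48,.negSucc 9],[.ofNat 10]]]⟩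
theorem c198 : chkE [e197] e198 false [(0,6),(2,3),(2,4),(3,5),(4,6),(5,6)] 0 1 7 (0,[]) [(7,[]),(7,[]),(7,[]),(7,[]),(7,[]),(7,[])] = true := by decide +kernel
theorem k198 (h : Hy) : e198.ok := h.step (fac (k197 h) fan) c198

def e199 : Ent := ⟨2,[(0,5),(1,6),(2,4),(2,5),(3,4),(3,6),(4,7)],[[[.ofNat 2],[.negSucc 10],[.ofNat 25],[.negSucc 29],[.ofNat 20],[.negSucc 6],[.ofNat 1]],[[.ofNat 44,.negSucc 19],[.negSucc 221,.ofNat 110],[.ofNat 440,.negSucc 249],[.negSucc 409,.ofNat 300],[.ofNat 140,.negSucc 199],[.ofNat 46,.ofNat 70],[.negSucc 47,.negSucc 9],[.ofNat 10]]]⟩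
theorem c199 : chkE [e61] e199 false [(0,5),(1,6),(2,4),(2,5),(3,4),(3,6)] 0 4 7 (0,[(2,3),(2,4)]) [(7,[]),(7,[]),(7,[]),(7,[])] = true := by decide +kernel
theorem k199 (h : Hy) : e199.ok := h.step (fac (k61 h) fan) c199

def e200 : Ent := ⟨2,[(0,5),(1,6),(2,3),(2,4),(3,5),(4,6),(4,7)],[[[.ofNat 2],[.negSucc 10],[.ofNat 25],[.negSucc 29],[.ofNat 20],[.negSucc 6],[.ofNat 1]],[[.ofNat 44,.negSucc 19],[.negSucc 221,.ofNat 110],[.ofNat 440,.negSucc 249],[.negSucc 409,.ofNat 300],[.ofNat 140,.negSucc 199],[.ofNat 46,.ofNat 70],[.negSucc 47,.negSucc 9],[.ofNat 10]]]⟩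
theorem c200 : chkE [e61] e200 false [(0,5),(1,6),(2,3),(2,4),(3,5),(4,6)] 0 4 7 (0,[]) [(7,[]),(7,[]),(7,[]),(7,[])] = true := by decide +kernel
theorem k200 (h : Hy) : e200.ok := h.step (fac (k61 h) fan) c200

end Pool.Agent.RGA.CT
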