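import Pool.Agent.RGA.Cert07

set_option autoImplicit false

namespace Pool.Agent.RGA.CT

def e201 : Ent := ⟨2,[(0,5),(1,6),(2,3),(2,4),(3,5),(4,6),(5,7)],[[[.ofNat 2],[.negSucc 10],[.ofNat 25],[.negSucc 29],[.ofNat 20],[.negSucc 6],[.ofNat 1]],[[.ofNat 46,.negSucc 17],[.negSucc 234,.ofNat 99],[.ofNat 476,.negSucc 224],[.negSucc 464,.ofNat 270],[.ofNat 190,.negSucc 179],[.ofNat 19,.ofNat 63],[.negSucc 39,.negSucc 8],[.ofNat 9]]]⟩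
theorem c201 : chkE [e61] e201 false [(0,5),(1,6),(2,3),(2,4),(3,5),(4,6)] 0 5 7 (0,[]) [(7,[]),(7,[]),(7,[]),(7,[])] = true := by decide +kernel
theorem k201 (h : Hy) : e201.ok := h.step (fac (k61 h) fan) c201

def e202 : Ent := ⟨2,[(0,5),(0,6),(1,7),(2,3),(2,4),(3,5),(4,7),(6,8)],[[[.negSucc 0,.ofNat 1],[.ofNat 6,.negSucc 5],[.negSucc 14,.ofNat 15],[.ofNat 20,.negSucc 19],[.negSucc 14,.ofNat 15],[.ofNat 6,.negSucc 5],[.negSucc 0,.ofNat 1]],[[.negSucc 35,.ofNat 46,.negSucc 9],[.ofNat 207,.negSucc 266,.ofNat 60],[.negSucc 485,.ofNat 636,.negSucc 149],[.ofNat 585,.negSucc 784,.ofNat 200],[.negSucc 359,.ofNat 510,.negSucc 149],[.ofNat 81,.negSucc 140,.ofNat 60],[.ofNat 18,.negSucc 7,.negSucc 9],[.negSucc 8,.ofNat 9]]]⟩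
theorem c202 : chkE [e191] e202 false [(0,5),(0,6),(1,7),(2,3),(2,4),(3,5),(4,7)] 0 6 8 (0,[(6,7)]) [(8,[]),(8,[]),(8,[]),(8,[]),(8,[]),(8,[])] = true := by decide +kernel
theorem k202 (h : Hy) : e202.ok := h.step (fac (k191 h) fan) c202

def e203 : Ent := ⟨2,[(0,6),(1,7),(2,3),(2,4),(3,6),(4,7),(5,6),(5,8)],[[[.negSucc 1],[.ofNat 13],[.negSucc 35],[.ofNat 55],[.negSucc 49],[.ofNat 27],[.negSucc 7],[.ofNat 1]],[[.negSucc 65,.ofNat 22],[.ofNat 407,.negSucc 142],[.negSucc 1044,.ofNat 396],[.ofNat 1419,.negSucc 604],[.negSucc 1044,.ofNat 550],[.ofNat 341,.negSucc 296],[.ofNat 33,.ofNat 88],[.negSucc 54,.negSucc 10],[.ofNat 11]]]⟩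
theorem c203 : chkE [e201] e203 false [(0,6),(1,7),(2,3),(2,4),(3,6),(4,7),(5,6)] 0 5 8 (0,[(5,7),(6,5)]) [(8,[]),(8,[]),(8,[]),(8,[]),(8,[]),(8,[])] = true := by decide +kernel
theorem k203 (h : Hy) : e203.ok := h.step (fac (k201 h) fan) c203

def e204 : Ent := ⟨2,[(0,5),(0,8),(1,6),(2,3),(2,4),(3,5),(4,6),(5,7)],[[[.negSucc 1,.ofNat 2],[.ofNat 11,.negSucc 10],[.negSucc 24,.ofNat 25],[.ofNat 30,.negSucc 29],[.negSucc 19,.ofNat 20],[.ofNat 7,.negSucc 6],[.negSucc 0,.ofNat 1]],[[.negSucc 65,.ofNat 86,.negSucc 19],[.ofNat 343,.negSucc 452,.ofNat 110],[.negSucc 714,.ofNat 965,.negSucc 249],[.ofNat 740,.negSucc 1039,.ofNat 300],[.negSucc 359,.ofNat 560,.negSucc 199],[.ofNat 31,.negSucc 100,.ofNat 70],[.ofNat 37,.negSucc 26,.negSucc 9],[.negSucc 9,.ofNat 10]]]⟩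
theorem c204 : chkE [e201] e204 false [(0,5),(1,6),(2,3),(2,4),(3,5),(4,6),(5,7)] 0 0 8 (0,[]) [(8,[]),(8,[]),(8,[]),(8,[]),(8,[]),(8,[])] = true := by decide +kernel
theorem k204 (h : Hy) : e204.ok := h.step (fac (k201 h) fan) c204

def e205 : Ent := ⟨2,[(0,7),(2,3),(2,4),(3,5),(4,6),(5,7),(6,8)],[[[.ofNat 1],[.negSucc 5],[.ofNat 15],[.negSucc 19],[.ofNat 15],[.negSucc 5],[.ofNat 1]],[[.ofNat 25,.negSucc 11],[.negSucc 138,.ofNat 72],[.ofNat 309,.negSucc 179],[.negSucc 334,.ofNat 240],[.ofNat 155,.negSucc 179],[.ofNat 15,.ofNat 72],[.negSucc 40,.negSucc 11],[.ofNat 11]]]⟩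
theorem c205 : chkE [e109] e205 false [(0,7),(2,3),(2,4),(3,5),(4,6),(5,7)] 0 6 8 (0,[(2,3),(4,5),(6,7)]) [(8,[]),(8,[]),(8,[]),(8,[]),(8,[]),(8,[])] = true := by decide +kernel
theorem k205 (h : Hy) : e205.ok := h.step (fac (k109 h) fan) c205

def e206 : Ent := ⟨2,[(0,7),(1,8),(2,3),(2,4),(3,5),(4,6),(5,7),(6,8)],[[[.negSucc 0],[.ofNat 7],[.negSucc 20],[.ofNat 35],[.negSucc 34],[.ofNat 21],[.negSucc 6],[.ofNat 1]],[[.negSucc 35,.ofNat 12],[.ofNat 241,.negSucc 83],[.negSucc 678,.ofNat 252],[.ofNat 1029,.negSucc 419],[.negSucc 874,.ofNat 420],[.ofNat 371,.negSucc 251],[.negSucc 20,.ofNat 84],[.negSucc 40,.negSucc 11],[.ofNat 11]]]⟩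
theorem c206 : chkE [e205] e206 true [(1,8),(2,3),(2,4),(3,5),(4,6),(5,7),(6,8)] 0 7 9 (0,[(0,1),(3,4),(5,6),(7,8)]) [(9,[]),(9,[]),(9,[]),(9,[]),(9,[]),(9,[]),(9,[]),(9,[]),(10,[]),(10,[]),(10,[]),(10,[]),(10,[]),(10,[]),(10,[]),(10,[]),(10,[]),(10,[]),(10,[]),(10,[]),(10,[]),(10,[]),(10,[]),(10,[]),(10,[]),(11,[]),(11,[]),(11,[]),(11,[])] = true := by decide +kernel
theorem k206 (h : Hy) : e206.ok := h.step (fac (k205 h) fan) c206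

def e207 : Ent := ⟨3,[(0,5),(1,6),(2,3),(2,4),(3,5),(4,6)],[[[.negSucc 0],[.ofNat 5],[.negSucc 9],[.ofNat 10],[.negSucc 4],[.ofNat 1]],[[.negSucc 15,.ofNat 8],[.ofNat 73,.negSucc 39],[.negSucc 124,.ofNat 80],[.ofNat 90,.negSucc 79],[.negSucc 9,.ofNat 40],[.negSucc 18,.negSucc 7],[.ofNat 7]],[[.negSucc 63,.ofNat 100,.negSucc 19,.negSucc 1],[.ofNat 147,.negSucc 437,.ofNat 104,.ofNat 10],[.ofNat 198,.ofNat 688,.negSucc 219,.negSucc 19],[.negSucc 954,.negSucc 369,.ofNat 240,.ofNat 20],[.ofNat 1140,.negSucc 139,.negSucc 139,.negSucc 9],[.negSucc 530,.ofNat 230,.ofNat 40,.ofNat 2],[.ofNat 38,.negSucc 71,.negSucc 3],[.ofNat 27,.ofNat 2]]]⟩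
theorem c207 : chkE [e187,e188,e182,e105,e189,e61,e190,e191,e192,e193,e196,e198,e110,e199,e200,e201,e202,e203,e204,e206] e207 true [(1,6),(2,3),(2,4),(3,5),(4,6)] 0 5 7 (0,[(0,1),(3,4),(5,6)]) [(1,[(0,1),(3,4),(5,6)]),(2,[(2,4),(5,6)]),(3,[(3,4),(5,6)]),(4,[(5,6)]),(5,[]),(6,[(3,4),(5,6)]),(7,[]),(8,[(0,1)]),(9,[(0,1),(2,5),(3,2)]),(10,[(0,1),(2,3),(4,5)]),(11,[(0,1)]),(12,[(2,3),(4,5),(6,7)]),(7,[]),(7,[(0,1),(3,4),(5,6)]),(13,[(2,4),(3,2)]),(14,[(0,1),(3,4),(5,6)]),(14,[]),(15,[]),(15,[(0,1),(3,4),(5,6)]),(16,[(6,7)]),(17,[(5,6),(5,7),(5,8)]),(18,[(7,8)]),(19,[(2,4),(3,2),(3,6),(5,3),(5,8)])] = true := by decide +kernel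
theorem k207 (h : Hy) : e207.ok := h.step (fac (k187 h) (fac (k188 h) (fac (k182 h) (fac (k105 h) (fac (k189 h) (fac (k61 h) (fac (k190 h) (fac (k191 h) (fac (k192 h) (fac (k193 h) (fac (k196 h) (fac (k198 h) (fac (k110 h) (fac (k199 h) (fac (k200 h) (fac (k201 h) (fac (k202 h) (fac (k203 h) (fac (k204 h) (fac (k206 h) fan)))))))))))))))))))) c207

def e208 : Ent := ⟨4,[(0,3),(1,4),(2,3),(2,4)],[[[.negSucc 0],[.ofNat 3],[.negSucc 2],[.ofNat 1]],[[.negSucc 3,.ofNat 4],[.ofNat 9,.negSucc 11],[.negSucc 2,.ofNat 12],[.negSucc 4,.negSucc 3],[.ofNat 3]],[[.ofNat 9,.negSucc 3,.ofNat 0,.negSucc 1],[.negSucc 39,.ofNat 22,.ofNat 4,.ofNat 6],[.ofNat 59,.negSucc 43,.negSucc 11,.negSucc 5],[.negSucc 26,.ofNat 40,.ofNat 12,.ofNat 2],[.negSucc 7,.negSucc 15,.negSucc 3],[.ofNat 7,.ofNat 2]],[[.negSucc 33,.negSucc 39,.ofNat 53,.negSucc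 23,.ofNat 5,.ofNat 2],[.ofNat 215,.ofNat 26,.negSucc 116,.ofNat 60,.negSucc 22,.negSucc 5],[.negSucc 467,.ofNat 174,.ofNat 41,.negSucc 25,.ofNat 39,.ofNat 6],[.ofNat 438,.negSucc 277,.ofNat 45,.negSucc 41,.negSucc 28,.negSucc 1],[.negSucc 146,.ofNat 130,.negSucc 5,.ofNat 42,.ofNat 8],[.negSucc 17,.negSucc 11,.negSucc 19,.negSucc 9],[.ofNat 13,.ofNat 0,.ofNat 4],[.ofNat 1]]]⟩
theorem c208 : chkE [e139,e140,e83,e62,e136,e142,e153,e173,e111,e174,e175,e179,e182,e186,e207] e208 true [(1,4),(2,3),(2,4)] 0 3 5 (0,[(0,1),(3,4)]) [(1,[(0,1),(3,4)]),(2,[(3,4)]),(3,[]),(4,[(3,4)]),(5,[]),(6,[(0,1)]),(7,[(0,1)]),(8,[(2,3),(4,5)]),(5,[]),(5,[(0,1),(3,4)]),(9,[]),(10,[]),(10,[(0,1),(3,4)]),(11,[(4,5)]),(12,[(3,4),(3,5),(3,6)]),(13,[(5,6)]),(14,[(2,4),(3,2),(3,6)])] = true := by decide +kernel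
theorem k208 (h : Hy) : e208.ok := h.step (fac (k139 h) (fac (k140 h) (fac (k83 h) (fac (k62 h) (fac (k136 h) (fac (k142 h) (fac (k153 h) (fac (k173 h) (fac (k111 h) (fac (k174 h) (fac (k175 h) (fac (k179 h) (fac (k182 h) (fac (k186 h) (fac (k207 h) fan))))))))))))))) c208

def e209 : Ent := ⟨5,[(0,2),(1,2)],[[[.negSucc 0],[.ofNat 1]],[[],[.ofNat 1],[.negSucc 0]],[[.ofNat 0,.ofNat 0,.ofNat 2,.negSucc 1],[.ofNat 0,.negSucc 3,.ofNat 3,.ofNat 2],[.ofNat 1,.ofNat 0,.negSucc 4],[.ofNat 0,.ofNat 4],[.negSucc 0]],[[.ofNat 0,.ofNat 0,.negSucc 14,.ofNat 16,.negSucc 6,.ofNat 2],[.ofNat 0,.ofNat 30,.negSucc 22,.ofNat 8,.negSucc 0,.negSucc 1],[.negSucc 14,.negSucc 1,.ofNat 10,.negSucc 13,.ofNat 8],[.ofNat 10,.negSucc 15,.ofNat 25,.negSucc 9],[.ofNat 4,.negSucc 13,.ofNat 3],[.ofNat 2,.ofNat 2],[.negSucc 0]],[[.ofNat 0,.ofNat 0,.ofNat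 161,.negSucc 189,.ofNat 101,.negSucc 31,.ofNat 7,.negSucc 1],[.ofNat 0,.negSucc 321,.ofNat 177,.negSucc 15,.negSucc 6,.negSucc 1,.ofNat 5,.ofNat 2],[.ofNat 161,.ofNat 216,.negSucc 238,.ofNat 112,.negSucc 34,.ofNat 8,.negSucc 11],[.negSucc 202,.ofNat 122,.negSucc 67,.ofNat 56,.negSucc 34,.ofNat 26],[.ofNat 31,.negSucc 11,.negSucc 32,.ofNat 30,.negSucc 23],[.ofNat 8,.ofNat 6,.ofNat 3,.ofNat 8],[.ofNat 1,.negSucc 11,.negSucc 0],[.ofNat 3,.ofNat 2],[.negSucc 0]]]⟩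
theorem c209 : chkE [e115,e114,e63,e116,e112,e117,e135,e136,e138,e208] e209 true [(1,2)] 0 2 3 (0,[(0,1)]) [(1,[(0,1)]),(2,[]),(3,[]),(4,[(2,3)]),(3,[]),(3,[(0,1)]),(5,[]),(6,[(2,3)]),(7,[(2,3),(2,4)]),(8,[(3,4)]),(9,[(2,4)])] = true := by decide +kernel
theorem k209 (h : Hy) : e209.ok := h.step (fac (k115 h) (fac (k114 h) (fac (k63 h) (fac (k116 h) (fac (k112 h) (fac (k117 h) (fac (k135 h) (fac (k136 h) (fac (k138 h) (fac (k208 h) fan)))))))))) c209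

def e210 : Ent := ⟨3,[(0,1),(0,2),(0,3),(1,2)],[[[.ofNat 2,.negSucc 4,.ofNat 4,.negSucc 0],[.negSucc 1,.ofNat 5,.negSucc 3,.ofNat 1]],[[.negSucc 5,.ofNat 19,.negSucc 23,.ofNat 16,.negSucc 5,.ofNat 1],[.ofNat 4,.negSucc 9,.ofNat 10,.negSucc 6,.ofNat 4,.negSucc 0],[.ofNat 0,.negSucc 3,.ofNat 10,.negSucc 7,.ofNat 2],[.ofNat 2,.negSucc 4,.ofNat 4,.negSucc 0]],[[.ofNat 32,.negSucc 115,.ofNat 172,.negSucc 136,.ofNat 66,.negSucc 21,.ofNat 6,.negSucc 0],[.negSucc 25,.ofNat 85,.negSucc 109,.ofNat 69,.negSucc 17,.ofNat 1,.negSucc 1,.ofNat 1],[.ofNat 0,.ofNat 8,.negSucc 19,.ofNat 24,.negSucc 23,.ofNat 16,.negSucc 3],[.negSucc 3,.ofNat 14,.negSucc 27,.ofNat 35,.negSucc 21,.ofNat 5],[.negSucc 1,.ofNat 9,.negSucc 13,.ofNat 9,.negSucc 1]]]⟩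
theorem c210 : chkE [e68] e210 false [(0,1),(0,2),(1,2)] 0 0 3 (0,[]) [] = true := by decide +kernel
theorem k210 (h : Hy) : e210.ok := h.step (fac (k68 h) fan) c210

def e211 : Ent := ⟨2,[(0,1),(0,2),(0,3),(1,2),(1,3)],[[[.ofNat 4,.negSucc 11,.ofNat 13,.negSucc 5,.ofNat 1],[.negSucc 7,.ofNat 24,.negSucc 25,.ofNat 12,.negSucc 1],[.ofNat 4,.negSucc 11,.ofNat 13,.negSucc 5,.ofNat 1]],[[.negSucc 31,.ofNat 112,.negSucc 155,.ofNat 112,.negSucc 44,.ofNat 10,.negSucc 0],[.ofNat 60,.negSucc 203,.ofNat 275,.negSucc 191,.ofNat 77,.negSucc 17,.ofNat 2],[.negSucc 27,.ofNat 84,.negSucc 94,.ofNat 54,.negSucc 19,.ofNat 6,.negSucc 0],[.ofNat 4,.negSucc 3,.negSucc 10,.ofNat 20,.negSucc 10,.ofNat 2],[.negSucc 3,.ofNat 12,.negSucc 12,.ofNat 6,.negSucc 0]]]⟩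
theorem c211 : chkE [e210] e211 true [(0,1),(0,3),(1,2),(1,3)] 0 2 4 (0,[(0,1),(2,3)]) [(4,[]),(5,[]),(5,[]),(5,[]),(5,[]),(5,[]),(5,[]),(5,[]),(6,[]),(6,[]),(6,[]),(6,[])] = true := by decide +kernel
theorem k211 (h : Hy) : e211.ok := h.step (fac (k210 h) fan) c211

def e212 : Ent := ⟨2,[(0,1),(0,2),(0,3),(1,3),(2,3)],[[[.ofNat 4,.negSucc 9,.ofNat 8,.negSucc 1],[.negSucc 9,.ofNat 25,.negSucc 19,.ofNat 5],[.ofNat 8,.negSucc 19,.ofNat 16,.negSucc 3],[.negSucc 1,.ofNat 5,.negSucc 3,.ofNat 1]],[[.negSucc 31,.ofNat 92,.negSucc 97,.ofNat 50,.negSucc 13,.ofNat 2],[.ofNat 80,.negSucc 221,.ofNat 225,.negSucc 108,.ofNat 31,.negSucc 4],[.negSucc 67,.ofNat 174,.negSucc 153,.ofNat 62,.negSucc 17,.ofNat 4],[.ofNat 26,.negSucc 54,.ofNat 29,.ofNat 2,.negSucc 0,.negSucc 0],[.negSucc 7,.ofNat 16,.negSucc 5,.negSucc 3,.ofNat 2],[.ofNat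 2,.negSucc 4,.ofNat 4,.negSucc 0]]]⟩
theorem c212 : chkE [e134] e212 true [(0,2),(0,3),(1,3),(2,3)] 0 1 4 (0,[]) [(4,[]),(5,[]),(5,[]),(5,[]),(5,[]),(5,[]),(5,[]),(5,[]),(6,[]),(6,[]),(6,[]),(6,[])] = true := by decide +kernel
theorem k212 (h : Hy) : e212.ok := h.step (fac (k134 h) fan) c212

def e213 : Ent := ⟨3,[(0,1),(0,2),(0,3),(1,3),(2,4)],[[[.negSucc 1,.ofNat 5,.negSucc 3,.ofNat 1],[.ofNat 4,.negSucc 9,.ofNat 8,.negSucc 1],[.negSucc 1,.ofNat 5,.negSucc 3,.ofNat 1]],[[.negSucc 1,.ofNat 3,.ofNat 3,.negSucc 7,.ofNat 5,.negSucc 0],[.ofNat 4,.negSucc 9,.ofNat 4,.ofNat 8,.negSucc 7,.ofNat 2],[.ofNat 0,.ofNat 6,.negSucc 12,.ofNat 7,.ofNat 1,.negSucc 0],[.negSucc 3,.ofNat 6,.ofNat 2,.negSucc 5,.ofNat 2],[.ofNat 2,.negSucc 4,.ofNat 4,.negSucc 0]],[[.ofNat 32,.negSucc 87,.ofNat 82,.negSucc 24,.negSucc 6,.ofNat 10,.negSucc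 4,.ofNat 1],[.negSucc 85,.ofNat 231,.negSucc 211,.ofNat 79,.negSucc 13,.negSucc 1,.ofNat 6,.negSucc 1],[.ofNat 78,.negSucc 200,.ofNat 167,.negSucc 54,.ofNat 28,.negSucc 20,.ofNat 3,.ofNat 1],[.negSucc 25,.ofNat 65,.negSucc 35,.negSucc 18,.ofNat 12,.ofNat 8,.negSucc 3],[.ofNat 2,.negSucc 10,.ofNat 9,.ofNat 12,.negSucc 16,.ofNat 5],[.ofNat 0,.ofNat 4,.negSucc 9,.ofNat 8,.negSucc 1]]]⟩
theorem c213 : chkE [e210,e211,e212] e213 false [(0,1),(0,2),(0,3),(1,3)] 0 2 4 (0,[(2,3)]) [(1,[]),(2,[])] = true := by decide +kernel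
theorem k213 (h : Hy) : e213.ok := h.step (fac (k210 h) (fac (k211 h) (fac (k212 h) fan))) c213

def e214 : Ent := ⟨3,[(0,1),(0,2),(0,4),(1,2),(1,3)],[[[.negSucc 3,.ofNat 12,.negSucc 12,.ofNat 6,.negSucc 0],[.ofNat 4,.negSucc 11,.ofNat 13,.negSucc 5,.ofNat 1]],[[.ofNat 8,.negSucc 31,.ofNat 54,.negSucc 49,.ofNat 27,.negSucc 7,.ofNat 1],[.negSucc 7,.ofNat 24,.negSucc 29,.ofNat 24,.negSucc 14,.ofNat 6,.negSucc 0],[.ofNat 4,.negSucc 3,.negSucc 10,.ofNat 20,.negSucc 10,.ofNat 2],[.negSucc 3,.ofNat 12,.negSucc 12,.ofNat 6,.negSucc 0]],[[.negSucc 31,.ofNat 152,.negSucc 303,.ofNat 334,.negSucc 223,.ofNat 100,.negSucc 32,.ofNat 8,.negSucc 0],[.ofNat 8,.negSucc 55,.ofNat 138,.negSucc 155,.ofNat 82,.negSucc 17,.ofNat 5,.negSucc 3,.ofNat 1],[.ofNat 12,.negSucc 51,.ofNat 83,.negSucc 73,.ofNat 62,.negSucc 49,.ofNat 23,.negSucc 3],[.ofNat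 12,.negSucc 35,.ofNat 59,.negSucc 77,.ofNat 68,.negSucc 29,.ofNat 5],[.ofNat 0,.negSucc 7,.ofNat 24,.negSucc 25,.ofNat 12,.negSucc 1]]]⟩
theorem c214 : chkE [e210,e211] e214 false [(0,1),(0,2),(1,2),(1,3)] 0 0 4 (0,[(0,1)]) [(1,[])] = true := by decide +kernel
theorem k214 (h : Hy) : e214.ok := h.step (fac (k210 h) (fac (k211 h) fan)) c214

def e215 : Ent := ⟨2,[(0,2),(0,4),(0,5),(1,3),(1,4),(2,3)],[[[.ofNat 2,.negSucc 4,.ofNat 4,.negSucc 0],[.negSucc 5,.ofNat 15,.negSucc 11,.ofNat 3],[.ofNat 6,.negSucc 14,.ofNat 12,.negSucc 2],[.negSucc 1,.ofNat 5,.negSucc 3,.ofNat 1]],[[.ofNat 18,.negSucc 50,.ofNat 51,.negSucc 20,.ofNat 3],[.negSucc 45,.ofNat 133,.negSucc 136,.ofNat 59,.negSucc 8],[.ofNat 30,.negSucc 92,.ofNat 105,.negSucc 50,.ofNat 9],[.ofNat 6,.negSucc 8,.negSucc 2,.ofNat 9,.negSucc 2],[.negSucc 7,.ofNat 20,.negSucc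 15,.ofNat 4]]]⟩
theorem c215 : chkE [e67] e215 false [(0,2),(0,4),(1,3),(1,4),(2,3)] 0 0 5 (0,[]) [(5,[]),(5,[])] = true := by decide +kernel
theorem k215 (h : Hy) : e215.ok := h.step (fac (k67 h) fan) c215

def e216 : Ent := ⟨2,[(0,2),(0,3),(0,4),(1,4),(2,3)],[[[.negSucc 1,.ofNat 3,.negSucc 0],[.ofNat 6,.negSucc 8,.ofNat 3],[.negSucc 5,.ofNat 9,.negSucc 2],[.ofNat 2,.negSucc 2,.ofNat 1]],[[.negSucc 1,.ofNat 7,.negSucc 6,.ofNat 2],[.ofNat 0,.negSucc 11,.ofNat 18,.negSucc 5],[.ofNat 12,.negSucc 5,.negSucc 11,.ofNat 6],[.negSucc 15,.ofNat 20,.negSucc 1,.negSucc 1],[.ofNat 6,.negSucc 8,.ofNat 3]]]⟩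
theorem c216 : chkE [e74] e216 true [(0,2),(0,3),(0,4),(2,3)] 1 4 5 (0,[]) [(5,[]),(5,[]),(5,[]),(5,[]),(6,[]),(6,[]),(6,[]),(6,[]),(6,[]),(6,[]),(6,[]),(6,[]),(6,[]),(7,[]),(7,[]),(7,[]),(7,[])] = true := by decide +kernel
theorem k216 (h : Hy) : e216.ok := h.step (fac (k74 h) fan) c216

def e217 : Ent := ⟨2,[(0,2),(0,3),(0,4),(1,4),(1,5),(2,3)],[[[.ofNat 2,.negSucc 4,.ofNat 4,.negSucc 0],[.negSucc 5,.ofNat 15,.negSucc 11,.ofNat 3],[.ofNat 6,.negSucc 14,.ofNat 12,.negSucc 2],[.negSucc 1,.ofNat 5,.negSucc 3,.ofNat 1]],[[.ofNat 16,.negSucc 45,.ofNat 47,.negSucc 19,.ofNat 3],[.negSucc 39,.ofNat 118,.negSucc 124,.ofNat 56,.negSucc 8],[.ofNat 24,.negSucc 77,.ofNat 93,.negSucc 47,.ofNat 9],[.ofNat 8,.negSucc 13,.ofNat 1,.ofNat 8,.negSucc 2],[.negSucc 7,.ofNat 20,.negSucc 15,.ofNat 4]]]⟩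
theorem c217 : chkE [e216] e217 false [(0,2),(0,3),(0,4),(1,4),(2,3)] 0 1 5 (0,[]) [(5,[]),(5,[]),(5,[])] = true := by decide +kernel
theorem k217 (h : Hy) : e217.ok := h.step (fac (k216 h) fan) c217

def e218 : Ent := ⟨2,[(0,3),(0,4),(1,4),(1,5),(2,3),(2,4)],[[[.ofNat 2,.negSucc 3,.ofNat 2],[.negSucc 6,.ofNat 14,.negSucc 6],[.ofNat 9,.negSucc 17,.ofNat 9],[.negSucc 4,.ofNat 10,.negSucc 4],[.ofNat 1,.negSucc 1,.ofNat 1]],[[.ofNat 16,.negSucc 37,.ofNat 28,.negSucc 5],[.negSucc 47,.ofNat 117,.negSucc 89,.ofNat 21],[.ofNat 44,.negSucc 114,.ofNat 98,.negSucc 26],[.negSucc 3,.ofNat 23,.negSucc 33,.ofNat 15],[.negSucc 11,.ofNat 21,.negSucc 5,.negSucc 2],[.ofNat 4,.negSucc 7,.ofNat 4]]]⟩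
theorem c218 : chkE [e128] e218 false [(0,3),(0,4),(1,4),(2,3),(2,4)] 0 1 5 (0,[]) [(5,[]),(5,[]),(5,[])] = true := by decide +kernel
theorem k218 (h : Hy) : e218.ok := h.step (fac (k128 h) fan) c218

def e219 : Ent := ⟨2,[(0,2),(0,4),(1,3),(1,4),(2,3),(2,5)],[[[.ofNat 2,.negSucc 3,.ofNat 2],[.negSucc 6,.ofNat 14,.negSucc 6],[.ofNat 9,.negSucc 17,.ofNat 9],[.negSucc 4,.ofNat 10,.negSucc 4],[.ofNat 1,.negSucc 1,.ofNat 1]],[[.ofNat 18,.negSucc 41,.ofNat 30,.negSucc 5],[.negSucc 54,.ofNat 131,.negSucc 96,.ofNat 21],[.ofNat 53,.negSucc 132,.ofNat 107,.negSucc 26],[.negSucc 8,.ofNat 33,.negSucc 38,.ofNat 15],[.negSucc 10,.ofNat 19,.negSucc 4,.negSucc 2],[.ofNat 4,.negSucc 7,.ofNat 4]]]⟩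
theorem c219 : chkE [e67] e219 false [(0,2),(0,4),(1,3),(1,4),(2,3)] 0 2 5 (0,[]) [(5,[]),(5,[])] = true := by decide +kernel
theorem k219 (h : Hy) : e219.ok := h.step (fac (k67 h) fan) c219

def e220 : Ent := ⟨2,[(0,2),(0,3),(1,3),(1,4),(2,4),(3,5)],[[[.ofNat 2,.negSucc 3,.ofNat 2],[.negSucc 6,.ofNat 14,.negSucc 6],[.ofNat 9,.negSucc 17,.ofNat 9],[.negSucc 4,.ofNat 10,.negSucc 4],[.ofNat 1,.negSucc 1,.ofNat 1]],[[.ofNat 18,.negSucc 39,.ofNat 26,.negSucc 3],[.negSucc 56,.ofNat 128,.negSucc 84,.ofNat 14],[.ofNat 60,.negSucc 137,.ofNat 96,.negSucc 17],[.negSucc 17,.ofNat 46,.negSucc 37,.ofNat 10],[.negSucc 5,.ofNat 10,.negSucc 1,.negSucc 1],[.ofNat 3,.negSucc 5,.ofNat 3]]]⟩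
theorem c220 : chkE [e67] e220 false [(0,2),(0,3),(1,3),(1,4),(2,4)] 0 3 5 (0,[(3,4)]) [(5,[]),(5,[])] = true := by decide +kernel
theorem k220 (h : Hy) : e220.ok := h.step (fac (k67 h) fan) c220

def e221 : Ent := ⟨2,[(0,2),(0,3),(0,5),(1,4),(1,5),(2,4),(3,6)],[[[.negSucc 1,.ofNat 5,.negSucc 3,.ofNat 1],[.ofNat 8,.negSucc 19,.ofNat 16,.negSucc 3],[.negSucc 11,.ofNat 30,.negSucc 23,.ofNat 6],[.ofNat 8,.negSucc 19,.ofNat 16,.negSucc 3],[.negSucc 1,.ofNat 5,.negSucc 3,.ofNat 1]],[[.negSucc 33,.ofNat 93,.negSucc 87,.ofNat 33,.negSucc 3],[.ofNat 126,.negSucc 346,.ofNat 332,.negSucc 126,.ofNat 16],[.negSucc 163,.ofNat 458,.negSucc 447,.ofNat 178,.negSucc 23],[.ofNat 76,.negSucc 221,.ofNat 232,.negSucc 101,.ofNat 16],[.ofNat 6,.negSucc 6,.negSucc 7,.ofNat 13,.negSucc 3],[.negSucc 9,.ofNat 25,.negSucc 19,.ofNat 5]]]⟩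
theorem c221 : chkE [e215] e221 false [(0,2),(0,3),(0,5),(1,4),(1,5),(2,4)] 0 3 6 (0,[(3,5),(4,3)]) [(6,[]),(6,[]),(6,[]),(6,[])] = true := by decide +kernel
theorem k221 (h : Hy) : e221.ok := h.step (fac (k215 h) fan) c221

def e222 : Ent := ⟨2,[(0,3),(0,5),(1,4),(1,5),(2,3),(2,6),(3,4)],[[[.negSucc 1,.ofNat 4,.negSucc 1],[.ofNat 9,.negSucc 17,.ofNat 9],[.negSucc 15,.ofNat 32,.negSucc 15],[.ofNat 14,.negSucc 27,.ofNat 14],[.negSucc 5,.ofNat 12,.negSucc 5],[.ofNat 1,.negSucc 1,.ofNat 1]],[[.negSucc 33,.ofNat 78,.negSucc 53,.ofNat 10],[.ofNat 141,.negSucc 326,.ofNat 231,.negSucc 44],[.negSucc 217,.ofNat 516,.negSucc 377,.ofNat 80],[.ofNat 142,.negSucc 353,.ofNat 282,.negSucc 69],[.negSucc 17,.ofNat 66,.negSucc 77,.ofNat 30],[.negSucc 18,.ofNat 33,.negSucc 8,.negSucc 4],[.ofNat 6,.negSucc 11,.ofNat 6]]]⟩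
theorem c222 : chkE [e219] e222 false [(0,3),(0,5),(1,4),(1,5),(2,3),(3,4)] 0 2 6 (0,[(2,5),(3,2),(4,3)]) [(6,[]),(6,[]),(6,[]),(6,[])] = true := by decide +kernel
theorem k222 (h : Hy) : e222.ok := h.step (fac (k219 h) fan) c222

def e223 : Ent := ⟨2,[(0,2),(0,4),(0,5),(1,3),(1,5),(2,3),(2,6)],[[[.negSucc 3,.ofNat 10,.negSucc 7,.ofNat 2],[.ofNat 14,.negSucc 34,.ofNat 28,.negSucc 6],[.negSucc 17,.ofNat 45,.negSucc 35,.ofNat 9],[.ofNat 10,.negSucc 24,.ofNat 20,.negSucc 4],[.negSucc 1,.ofNat 5,.negSucc 3,.ofNat 1]],[[.negSucc 55,.ofNat 156,.negSucc 151,.ofNat 60,.negSucc 7],[.ofNat 172,.negSucc 485,.ofNat 484,.negSucc 197,.ofNat 28],[.negSucc 167,.ofNat 492,.negSucc 515,.ofNat 228,.negSucc 35],[.ofNat 32,.negSucc 119,.ofNat 164,.negSucc 95,.ofNat 20],[.ofNat 32,.negSucc 71,.ofNat 44,.ofNat 0,.negSucc 3],[.negSucc 11,.ofNat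 30,.negSucc 23,.ofNat 6]]]⟩
theorem c223 : chkE [e215] e223 false [(0,2),(0,4),(0,5),(1,3),(1,5),(2,3)] 0 2 6 (0,[(4,5)]) [(6,[]),(6,[]),(6,[])] = true := by decide +kernel
theorem k223 (h : Hy) : e223.ok := h.step (fac (k215 h) fan) c223

def e224 : Ent := ⟨2,[(0,4),(0,5),(1,5),(2,3),(2,4),(3,6)],[[[.negSucc 0,.ofNat 1],[.ofNat 4,.negSucc 3],[.negSucc 5,.ofNat 6],[.ofNat 4,.negSucc 3],[.negSucc 0,.ofNat 1]],[[.negSucc 15,.ofNat 22,.negSucc 5],[.ofNat 59,.negSucc 82,.ofNat 24],[.negSucc 75,.ofNat 112,.negSucc 35],[.ofNat 34,.negSucc 57,.ofNat 24],[.ofNat 4,.ofNat 2,.negSucc 5],[.negSucc 4,.ofNat 5]]]⟩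
theorem c224 : chkE [e124] e224 false [(0,4),(0,5),(1,5),(2,3),(2,4)] 0 3 6 (0,[(3,5),(4,3)]) [(6,[]),(6,[]),(6,[]),(6,[])] = true := by decide +kernel
theorem k224 (h : Hy) : e224.ok := h.step (fac (k124 h) fan) c224

def e225 : Ent := ⟨2,[(0,4),(0,6),(1,5),(1,6),(2,3),(2,4),(3,5)],[[[.negSucc 0,.ofNat 2,.negSucc 0],[.ofNat 5,.negSucc 9,.ofNat 5],[.negSucc 9,.ofNat 20,.negSucc 9],[.ofNat 10,.negSucc 19,.ofNat 10],[.negSucc 4,.ofNat 10,.negSucc 4],[.ofNat 1,.negSucc 1,.ofNat 1]],[[.negSucc 20,.ofNat 48,.negSucc 32,.ofNat 6],[.ofNat 99,.negSucc 227,.ofNat 159,.negSucc 29],[.negSucc 179,.ofNat 420,.negSucc 299,.ofNat 60],[.ofNat 150,.negSucc 359,.ofNat 270,.negSucc 59],[.negSucc 44,.ofNat 120,.negSucc 104,.ofNat 30],[.negSucc 8,.ofNat 12,.ofNat 3,.negSucc 5],[.ofNat 6,.negSucc 11,.ofNat 6]]]⟩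
theorem c225 : chkE [e224] e225 true [(0,6),(1,5),(1,6),(2,3),(2,4),(3,5)] 0 4 7 (0,[(0,1),(2,3),(4,6),(5,4)]) [(7,[]),(7,[]),(7,[]),(7,[]),(7,[]),(8,[]),(8,[]),(8,[]),(8,[]),(8,[]),(8,[]),(8,[]),(8,[]),(8,[]),(8,[]),(8,[]),(8,[]),(8,[]),(9,[]),(9,[]),(9,[]),(9,[])] = true := by decide +kernel
theorem k225 (h : Hy) : e225.ok := h.step (fac (k224 h) fan) c225

end Pool.Agent.RGA.CT
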