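import Pool.Agent.RGA.Cert08

set_option autoImplicit false

namespace Pool.Agent.RGA.CT

def e226 : Ent := ⟨3,[(0,2),(0,4),(1,3),(1,4),(2,3)],[[[.negSucc 0,.ofNat 2,.negSucc 0],[.ofNat 3,.negSucc 5,.ofNat 3],[.negSucc 2,.ofNat 6,.negSucc 2],[.ofNat 1,.negSucc 1,.ofNat 1]],[[.negSucc 4,.ofNat 12,.negSucc 8,.ofNat 2],[.ofNat 13,.negSucc 31,.ofNat 25,.negSucc 5],[.negSucc 8,.ofNat 24,.negSucc 20,.ofNat 6],[.negSucc 0,.ofNat 0,.ofNat 3,.negSucc 1],[.ofNat 2,.negSucc 3,.ofNat 2]],[[.ofNat 35,.negSucc 95,.ofNat 99,.negSucc 53,.ofNat 20,.negSucc 3],[.negSucc 118,.ofNat 308,.negSucc 285,.ofNat 136,.negSucc 50,.ofNat 12],[.ofNat 148,.negSucc 355,.ofNat 277,.negSucc 89,.ofNat 33,.negSucc 11],[.negSucc 78,.ofNat 178,.negSucc 103,.negSucc 5,.ofNat 7,.ofNat 4],[.ofNat 14,.negSucc 37,.ofNat 25,.ofNat 8,.negSucc 8],[.ofNat 2,.ofNat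 2,.negSucc 9,.ofNat 6],[.negSucc 0,.ofNat 2,.negSucc 0]]]⟩
theorem c226 : chkE [e135,e213,e67,e120,e215,e217,e218,e125,e219,e220,e221,e222,e223,e225] e226 true [(0,4),(1,3),(1,4),(2,3)] 0 2 5 (0,[(0,1),(2,4),(3,2)]) [(1,[(0,1),(2,4),(3,2)]),(2,[]),(3,[(2,4),(3,2)]),(4,[]),(5,[(0,1)]),(6,[(0,1)]),(7,[(3,4),(3,5)]),(4,[]),(4,[(0,1),(2,3)]),(8,[]),(8,[(0,1),(2,3)]),(9,[(3,4)]),(10,[(3,4),(3,5)]),(11,[(2,3),(2,4),(2,5),(2,6)]),(12,[(4,5)]),(13,[(2,3),(2,5),(4,6),(2,4)])] = true := by decide +kernel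
theorem k226 (h : Hy) : e226.ok := h.step (fac (k135 h) (fac (k213 h) (fac (k67 h) (fac (k120 h) (fac (k215 h) (fac (k217 h) (fac (k218 h) (fac (k125 h) (fac (k219 h) (fac (k220 h) (fac (k221 h) (fac (k222 h) (fac (k223 h) (fac (k225 h) fan)))))))))))))) c226

def e227 : Ent := ⟨4,[(0,1),(0,2),(1,2)],[[[.negSucc 0,.ofNat 2,.negSucc 0],[.ofNat 1,.negSucc 1,.ofNat 1]],[[.ofNat 3,.negSucc 7,.ofNat 8,.negSucc 3,.ofNat 1],[.negSucc 0,.ofNat 2,.negSucc 1,.ofNat 2,.negSucc 0],[.negSucc 0,.ofNat 4,.negSucc 4,.ofNat 2],[.negSucc 0,.ofNat 2,.negSucc 0]],[[.negSucc 15,.ofNat 50,.negSucc 60,.ofNat 38,.negSucc 13,.ofNat 4,.negSucc 0],[.ofNat 10,.negSucc 27,.ofNat 29,.negSucc 11,.ofNat 0,.ofNat 0,.ofNat 1],[.ofNat 2,.negSucc 7,.ofNat 11,.negSucc 9,.ofNat 9,.negSucc 3],[.ofNat 2,.negSucc 7,.ofNat 15,.negSucc 13,.ofNat 5],[.ofNat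 2,.negSucc 5,.ofNat 6,.negSucc 1]],[[.ofNat 123,.negSucc 423,.ofNat 589,.negSucc 435,.ofNat 196,.negSucc 59,.ofNat 15,.negSucc 3,.ofNat 1],[.negSucc 123,.ofNat 402,.negSucc 506,.ofNat 318,.negSucc 101,.ofNat 8,.ofNat 8,.negSucc 1,.negSucc 0],[.negSucc 3,.ofNat 24,.negSucc 50,.ofNat 48,.negSucc 16,.ofNat 4,.negSucc 9,.ofNat 6],[.ofNat 6,.negSucc 11,.ofNat 5,.ofNat 12,.negSucc 33,.ofNat 36,.negSucc 12],[.ofNat 1,.ofNat 0,.negSucc 17,.ofNat 44,.negSucc 38,.ofNat 12],[.negSucc 1,.ofNat 10,.negSucc 17,.ofNat 14,.negSucc 3]]]⟩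
theorem c227 : chkE [e209,e68,e210,e126,e137,e213,e214,e226] e227 true [(0,2),(1,2)] 0 1 3 (0,[]) [(1,[]),(2,[]),(3,[]),(2,[]),(2,[(0,1)]),(4,[]),(5,[(2,3)]),(5,[(0,1),(2,3),(2,4)]),(6,[(3,4)]),(7,[(2,4),(3,2)])] = true := by decide +kernel
theorem k227 (h : Hy) : e227.ok := h.step (fac (k209 h) (fac (k68 h) (fac (k210 h) (fac (k126 h) (fac (k137 h) (fac (k213 h) (fac (k214 h) (fac (k226 h) fan)))))))) c227

def e228 : Ent := ⟨5,[(0,1),(0,2),(2,3)],[[[.ofNat 1,.negSucc 0],[.negSucc 0,.ofNat 1]],[[.ofNat 1,.negSucc 1,.ofNat 0,.ofNat 1],[.negSucc 0,.ofNat 4,.negSucc 1,.negSucc 0],[.negSucc 0,.negSucc 0,.ofNat 2],[.ofNat 1,.negSucc 0]],[[.negSucc 2,.ofNat 8,.negSucc 6,.ofNat 3,.ofNat 0,.negSucc 0],[.ofNat 2,.negSucc 5,.ofNat 5,.negSucc 5,.ofNat 4,.ofNat 1],[.ofNat 2,.negSucc 3,.ofNat 8,.negSucc 1,.negSucc 3],[.ofNat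 0,.negSucc 0,.negSucc 3,.ofNat 5],[.negSucc 0,.ofNat 3,.negSucc 1]],[[.ofNat 16,.negSucc 49,.ofNat 55,.negSucc 27,.ofNat 8,.negSucc 1,.ofNat 0,.ofNat 1],[.negSucc 12,.ofNat 48,.negSucc 48,.ofNat 16,.negSucc 0,.ofNat 6,.negSucc 5,.negSucc 0],[.negSucc 5,.negSucc 1,.ofNat 7,.ofNat 9,.negSucc 22,.ofNat 9,.ofNat 6],[.ofNat 6,.ofNat 0,.negSucc 19,.ofNat 23,.ofNat 4,.negSucc 12],[.negSucc 3,.ofNat 9,.negSucc 0,.negSucc 15,.ofNat 12],[.ofNat 1,.negSucc 4,.ofNat 8,.negSucc 3]],[[.negSucc 122,.ofNat 424,.negSucc 533,.ofNat 329,.negSucc 117,.ofNat 26,.negSucc 3,.ofNat 1,.ofNat 0,.negSucc 0],[.ofNat 140,.negSucc 561,.ofNat 675,.negSucc 322,.ofNat 72,.ofNat 0,.negSucc 4,.negSucc 5,.ofNat 8,.ofNat 1],[.ofNat 46,.ofNat 119,.negSucc 232,.ofNat 79,.negSucc 7,.negSucc 13,.ofNat 39,.negSucc 19,.negSucc 7],[.negSucc 112,.ofNat 99,.ofNat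 37,.negSucc 51,.ofNat 73,.negSucc 76,.ofNat 8,.ofNat 25],[.ofNat 51,.negSucc 81,.ofNat 68,.negSucc 76,.ofNat 41,.ofNat 37,.negSucc 37],[.ofNat 4,.negSucc 12,.ofNat 9,.ofNat 24,.negSucc 51,.ofNat 28],[.negSucc 3,.ofNat 14,.negSucc 21,.ofNat 20,.negSucc 7],[.negSucc 0,.ofNat 1]]]⟩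
theorem c228 : chkE [e114,e227] e228 false [(0,1),(0,2)] 0 2 3 (0,[]) [(1,[])] = true := by decide +kernel
theorem k228 (h : Hy) : e228.ok := h.step (fac (k114 h) (fac (k227 h) fan)) c228

def e229 : Ent := ⟨5,[(0,1),(0,3),(1,2)],[[[.ofNat 1,.negSucc 1,.ofNat 1]],[[.ofNat 1,.negSucc 1,.ofNat 0,.ofNat 2,.negSucc 0],[.negSucc 0,.ofNat 4,.negSucc 4,.ofNat 2],[.negSucc 0,.ofNat 2,.negSucc 0]],[[.negSucc 2,.ofNat 8,.negSucc 6,.ofNat 2,.ofNat 1,.negSucc 1,.ofNat 1],[.ofNat 2,.negSucc 5,.ofNat 8,.negSucc 9,.ofNat 10,.negSucc 3],[.ofNat 2,.negSucc 7,.ofNat 15,.negSucc 13,.ofNat 5],[.ofNat 2,.negSucc 5,.ofNat 6,.negSucc 1]],[[.ofNat 16,.negSucc 49,.ofNat 55,.negSucc 21,.negSucc 1,.ofNat 4,.negSucc 1,.ofNat 2,.negSucc 0],[.negSucc 12,.ofNat 48,.negSucc 66,.ofNat 44,.negSucc 16,.ofNat 14,.negSucc 14,.ofNat 6],[.negSucc 5,.ofNat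 16,.negSucc 16,.ofNat 22,.negSucc 39,.ofNat 38,.negSucc 12],[.ofNat 0,.ofNat 4,.negSucc 22,.ofNat 46,.negSucc 38,.ofNat 12],[.negSucc 1,.ofNat 10,.negSucc 17,.ofNat 14,.negSucc 3]],[[.negSucc 122,.ofNat 424,.negSucc 533,.ofNat 274,.negSucc 10,.negSucc 51,.ofNat 30,.negSucc 9,.ofNat 3,.negSucc 1,.ofNat 1],[.ofNat 140,.negSucc 561,.ofNat 840,.negSucc 591,.ofNat 224,.negSucc 67,.ofNat 28,.negSucc 21,.ofNat 20,.negSucc 7],[.ofNat 46,.negSucc 45,.negSucc 67,.ofNat 90,.negSucc 10,.negSucc 45,.ofNat 84,.negSucc 73,.ofNat 25],[.negSucc 57,.ofNat 148,.negSucc 127,.ofNat 20,.ofNat 94,.negSucc 165,.ofNat 128,.negSucc 37],[.negSucc 0,.negSucc 3,.ofNat 41,.negSucc 113,.ofNat 154,.negSucc 103,.ofNat 28],[.ofNat 6,.negSucc 25,.ofNat 50,.negSucc 53,.ofNat 32,.negSucc 7],[.ofNat 1,.negSucc 1,.ofNat 1]]]⟩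
theorem c229 : chkE [e114,e227] e229 false [(0,1),(1,2)] 0 0 3 (0,[(0,1)]) [(1,[])] = true := by decide +kernel
theorem k229 (h : Hy) : e229.ok := h.step (fac (k114 h) (fac (k227 h) fan)) c229

def e230 : Ent := ⟨5,[(0,2),(2,3)],[[[.negSucc 0],[.ofNat 1]],[[.ofNat 0,.ofNat 2],[.negSucc 0,.negSucc 1],[.ofNat 1]],[[.ofNat 0,.ofNat 0,.ofNat 0,.negSucc 0],[.ofNat 0,.ofNat 0,.ofNat 2,.ofNat 1],[.negSucc 0,.negSucc 0,.negSucc 1],[.ofNat 1,.ofNat 1]],[[.ofNat 0,.ofNat 0,.ofNat 0,.negSucc 0,.ofNat 2,.ofNat 1],[.ofNat 0,.ofNat 0,.ofNat 2,.negSucc 2,.negSucc 5,.negSucc 0],[.ofNat 0,.ofNat 1,.ofNat 0,.ofNat 9,.ofNat 4],[.negSucc 0,.negSucc 0,.negSucc 3,.negSucc 4],[.ofNat 1,.ofNat 0,.ofNat 2]],[[.ofNat 0,.ofNat 0,.ofNat 0,.ofNat 9,.negSucc 11,.ofNat 5,.negSucc 1,.negSucc 0],[.ofNat 0,.ofNat 0,.negSucc 17,.ofNat 21,.negSucc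 5,.ofNat 1,.ofNat 8,.ofNat 1],[.ofNat 0,.ofNat 9,.negSucc 5,.negSucc 9,.ofNat 16,.negSucc 18,.negSucc 5],[.ofNat 0,.negSucc 2,.ofNat 18,.negSucc 26,.ofNat 14,.ofNat 13],[.negSucc 0,.negSucc 6,.ofNat 12,.ofNat 3,.negSucc 11],[.ofNat 1,.ofNat 0,.negSucc 5,.ofNat 4],[.ofNat 0,.ofNat 1]]]⟩
theorem c230 : chkE [e115,e209] e230 false [(0,2)] 0 2 3 (0,[]) [(1,[])] = true := by decide +kernel
theorem k230 (h : Hy) : e230.ok := h.step (fac (k115 h) (fac (k209 h) fan)) c230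

def e231 : Ent := ⟨2,[(0,1),(0,2),(0,4),(1,3),(2,3)],[[[.negSucc 1,.ofNat 5,.negSucc 3,.ofNat 1],[.ofNat 4,.negSucc 9,.ofNat 8,.negSucc 1],[.negSucc 1,.ofNat 5,.negSucc 3,.ofNat 1]],[[.negSucc 3,.ofNat 10,.negSucc 5,.negSucc 2,.ofNat 4,.negSucc 0],[.ofNat 6,.negSucc 18,.ofNat 18,.negSucc 0,.negSucc 5,.ofNat 2],[.ofNat 2,.ofNat 3,.negSucc 13,.ofNat 10,.ofNat 0,.negSucc 0],[.negSucc 5,.ofNat 11,.negSucc 1,.negSucc 4,.ofNat 2],[.ofNat 2,.negSucc 4,.ofNat 4,.negSucc 0]]]⟩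
theorem c231 : chkE [e72] e231 false [(0,1),(0,2),(1,3),(2,3)] 0 0 4 (0,[]) [(4,[])] = true := by decide +kernel
theorem k231 (h : Hy) : e231.ok := h.step (fac (k72 h) fan) c231

def e232 : Ent := ⟨2,[(0,1),(0,2),(0,3),(1,4),(2,4),(3,5)],[[[.ofNat 2,.negSucc 4,.ofNat 4,.negSucc 0],[.negSucc 5,.ofNat 15,.negSucc 11,.ofNat 3],[.ofNat 6,.negSucc 14,.ofNat 12,.negSucc 2],[.negSucc 1,.ofNat 5,.negSucc 3,.ofNat 1]],[[.ofNat 16,.negSucc 41,.ofNat 35,.negSucc 6,.negSucc 2,.ofNat 1],[.negSucc 43,.ofNat 120,.negSucc 106,.ofNat 27,.ofNat 7,.negSucc 2],[.ofNat 34,.negSucc 102,.ofNat 107,.negSucc 37,.negSucc 2,.ofNat 3],[.ofNat 2,.ofNat 9,.negSucc 28,.ofNat 22,.negSucc 2,.negSucc 0],[.negSucc 9,.ofNat 21,.negSucc 9,.negSucc 2,.ofNat 2],[.ofNat 2,.negSucc 4,.ofNat 4,.negSucc 0]]]⟩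
theorem c232 : chkE [e231] e232 false [(0,1),(0,2),(0,3),(1,4),(2,4)] 0 3 5 (0,[(3,4)]) [(5,[]),(5,[]),(5,[])] = true := by decide +kernel
theorem k232 (h : Hy) : e232.ok := h.step (fac (k231 h) fan) c232

def e233 : Ent := ⟨2,[(0,1),(0,2),(0,5),(1,3),(1,4),(2,3)],[[[.ofNat 4,.negSucc 11,.ofNat 13,.negSucc 5,.ofNat 1],[.negSucc 7,.ofNat 24,.negSucc 25,.ofNat 12,.negSucc 1],[.ofNat 4,.negSucc 11,.ofNat 13,.negSucc 5,.ofNat 1]],[[.ofNat 20,.negSucc 59,.ofNat 61,.negSucc 17,.negSucc 7,.ofNat 6,.negSucc 0],[.negSucc 31,.ofNat 104,.negSucc 119,.ofNat 50,.ofNat 6,.negSucc 9,.ofNat 2],[.ofNat 0,.negSucc 15,.ofNat 44,.negSucc 39,.ofNat 11,.ofNat 2,.negSucc 0],[.ofNat 16,.negSucc 39,.ofNat 28,.ofNat 2,.negSucc 7,.ofNat 2],[.negSucc 3,.ofNat 12,.negSucc 12,.ofNat 6,.negSucc 0]]]⟩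
theorem c233 : chkE [e231] e233 false [(0,1),(0,2),(1,3),(1,4),(2,3)] 0 0 5 (0,[(0,1),(2,3)]) [(5,[]),(5,[])] = true := by decide +kernel
theorem k233 (h : Hy) : e233.ok := h.step (fac (k231 h) fan) c233

def e234 : Ent := ⟨2,[(0,2),(0,3),(1,4),(1,5),(2,4),(3,5)],[[[.ofNat 1,.negSucc 1,.ofNat 1],[.negSucc 3,.ofNat 8,.negSucc 3],[.ofNat 6,.negSucc 11,.ofNat 6],[.negSucc 3,.ofNat 8,.negSucc 3],[.ofNat 1,.negSucc 1,.ofNat 1]],[[.ofNat 12,.negSucc 27,.ofNat 20,.negSucc 3],[.negSucc 43,.ofNat 104,.negSucc 75,.ofNat 16],[.ofNat 56,.negSucc 135,.ofNat 104,.negSucc 23],[.negSucc 23,.ofNat 64,.negSucc 55,.ofNat 16],[.negSucc 3,.ofNat 4,.ofNat 4,.negSucc 3],[.ofNat 4,.negSucc 7,.ofNat 4]]]⟩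
theorem c234 : chkE [e86] e234 true [(0,3),(1,4),(1,5),(2,4),(3,5)] 0 2 6 (0,[(0,1),(2,5),(3,4)]) [(6,[]),(6,[]),(6,[]),(6,[]),(7,[]),(7,[]),(7,[]),(7,[]),(7,[]),(7,[]),(7,[]),(7,[]),(7,[]),(7,[]),(7,[]),(8,[]),(8,[]),(8,[]),(8,[])] = true := by decide +kernel
theorem k234 (h : Hy) : e234.ok := h.step (fac (k86 h) fan) c234

def e235 : Ent := ⟨3,[(0,1),(0,2),(1,3),(2,3)],[[[.ofNat 1,.negSucc 1,.ofNat 1],[.negSucc 1,.ofNat 4,.negSucc 1],[.ofNat 1,.negSucc 1,.ofNat 1]],[[.ofNat 0,.ofNat 0,.negSucc 0,.ofNat 2,.negSucc 0],[.ofNat 0,.ofNat 2,.negSucc 1,.negSucc 1,.ofNat 2],[.negSucc 0,.negSucc 1,.ofNat 6,.negSucc 1,.negSucc 0],[.ofNat 2,.negSucc 1,.negSucc 1,.ofNat 2],[.negSucc 0,.ofNat 2,.negSucc 0]],[[.negSucc 13,.ofNat 42,.negSucc 43,.ofNat 18,.negSucc 0,.negSucc 1,.ofNat 1],[.ofNat 22,.negSucc 71,.ofNat 83,.negSucc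 41,.ofNat 11,.ofNat 0,.negSucc 1],[.ofNat 0,.ofNat 12,.negSucc 22,.ofNat 18,.negSucc 13,.ofNat 6,.ofNat 1],[.negSucc 8,.ofNat 20,.negSucc 21,.ofNat 16,.negSucc 0,.negSucc 3],[.ofNat 0,.ofNat 2,.ofNat 1,.negSucc 7,.ofNat 5],[.ofNat 1,.negSucc 3,.ofNat 5,.negSucc 1]]]⟩
theorem c235 : chkE [e112,e72,e134,e231,e119,e226,e89,e232,e233,e234] e235 true [(0,2),(1,3),(2,3)] 0 1 4 (0,[]) [(1,[]),(2,[]),(3,[]),(4,[(0,1),(2,3)]),(5,[]),(3,[]),(3,[(0,1),(2,3)]),(6,[]),(6,[(0,1),(2,3)]),(7,[(3,4)]),(7,[(0,1),(2,4),(3,2),(3,5)]),(8,[(4,5)]),(9,[(3,4)])] = true := by decide +kernel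
theorem k235 (h : Hy) : e235.ok := h.step (fac (k112 h) (fac (k72 h) (fac (k134 h) (fac (k231 h) (fac (k119 h) (fac (k226 h) (fac (k89 h) (fac (k232 h) (fac (k233 h) (fac (k234 h) fan)))))))))) c235

def e236 : Ent := ⟨4,[(0,2),(0,4),(1,3),(2,3)],[[[.negSucc 0,.ofNat 1],[.ofNat 2,.negSucc 1],[.negSucc 0,.ofNat 1]],[[.negSucc 3,.ofNat 7,.negSucc 2],[.ofNat 6,.negSucc 11,.ofNat 6],[.ofNat 0,.ofNat 3,.negSucc 2],[.negSucc 1,.ofNat 2]],[[.ofNat 9,.negSucc 16,.ofNat 13,.negSucc 7,.ofNat 3],[.negSucc 26,.ofNat 43,.negSucc 19,.ofNat 10,.negSucc 5],[.ofNat 25,.negSucc 35,.ofNat 4,.ofNat 4,.ofNat 3],[.negSucc 4,.ofNat 11,.ofNat 0,.negSucc 5],[.negSucc 1,.negSucc 0,.ofNat 3]],[[.negSucc 33,.ofNat 50,.negSucc 6,.negSucc 14,.ofNat 4,.ofNat 5,.negSucc 2],[.ofNat 125,.negSucc 219,.ofNat 107,.ofNat 6,.negSucc 25,.ofNat 2,.ofNat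 6],[.negSucc 161,.ofNat 296,.negSucc 191,.ofNat 55,.ofNat 25,.negSucc 18,.negSucc 2],[.ofNat 83,.negSucc 125,.ofNat 81,.negSucc 61,.ofNat 12,.ofNat 12],[.negSucc 10,.negSucc 4,.ofNat 21,.ofNat 10,.negSucc 14],[.ofNat 0,.ofNat 4,.negSucc 9,.ofNat 6],[.negSucc 0,.ofNat 1]]]⟩
theorem c236 : chkE [e112,e235,e134] e236 false [(0,2),(1,3),(2,3)] 0 0 4 (0,[]) [(1,[]),(2,[])] = true := by decide +kernel
theorem k236 (h : Hy) : e236.ok := h.step (fac (k112 h) (fac (k235 h) (fac (k134 h) fan))) c236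

def e237 : Ent := ⟨3,[(0,2),(0,3),(0,4),(2,3)],[[[.ofNat 2,.negSucc 2,.ofNat 1],[.negSucc 3,.ofNat 6,.negSucc 1],[.ofNat 2,.negSucc 2,.ofNat 1]],[[.negSucc 5,.ofNat 3,.ofNat 6,.negSucc 2],[.ofNat 20,.negSucc 17,.negSucc 7,.ofNat 6],[.negSucc 21,.ofNat 27,.negSucc 1,.negSucc 2],[.ofNat 8,.negSucc 11,.ofNat 4]],[[.ofNat 32,.negSucc 35,.negSucc 7,.ofNat 21,.negSucc 11,.ofNat 3],[.negSucc 105,.ofNat 129,.negSucc 7,.negSucc 26,.ofNat 18,.negSucc 5],[.ofNat 136,.negSucc 173,.ofNat 41,.negSucc 5,.ofNat 0,.ofNat 3],[.negSucc 81,.ofNat 105,.negSucc 25,.ofNat 9,.negSucc 5],[.ofNat 20,.negSucc 23,.ofNat 1,.ofNat 3]]]⟩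
theorem c237 : chkE [e80,e81] e237 false [(0,2),(0,3),(2,3)] 0 0 4 (0,[]) [(1,[])] = true := by decide +kernel
theorem k237 (h : Hy) : e237.ok := h.step (fac (k80 h) (fac (k81 h) fan)) c237

def e238 : Ent := ⟨3,[(0,2),(0,3),(2,3),(2,4)],[[[.ofNat 2,.negSucc 1],[.negSucc 4,.ofNat 5],[.ofNat 4,.negSucc 3],[.negSucc 0,.ofNat 1]],[[.negSucc 5,.ofNat 0,.ofNat 6],[.ofNat 23,.negSucc 7,.negSucc 14],[.negSucc 31,.ofNat 20,.ofNat 12],[.ofNat 19,.negSucc 15,.negSucc 2],[.negSucc 3,.ofNat 4]],[[.ofNat 32,.negSucc 19,.negSucc 17,.ofNat 10,.negSucc 3],[.negSucc 121,.ofNat 86,.ofNat 43,.negSucc 16,.ofNat 10],[.ofNat 189,.negSucc 145,.negSucc 34,.ofNat 0,.negSucc 7],[.negSucc 149,.ofNat 122,.ofNat 15,.ofNat 11,.ofNat 2],[.ofNat 61,.negSucc 49,.negSucc 6,.negSucc 3],[.negSucc 9,.ofNat 8,.ofNat 2]]]⟩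
theorem c238 : chkE [e80,e134] e238 false [(0,2),(0,3),(2,3)] 0 2 4 (0,[]) [(1,[(2,3)])] = true := by decide +kernel
theorem k238 (h : Hy) : e238.ok := h.step (fac (k80 h) (fac (k134 h) fan)) c238

def e239 : Ent := ⟨2,[(0,2),(0,3),(0,4),(2,3),(2,4)],[[[.ofNat 4,.negSucc 5,.ofNat 2],[.negSucc 13,.ofNat 21,.negSucc 6],[.ofNat 18,.negSucc 26,.ofNat 9],[.negSucc 9,.ofNat 15,.negSucc 4],[.ofNat 2,.negSucc 2,.ofNat 1]],[[.negSucc 31,.ofNat 36,.ofNat 2,.negSucc 5],[.ofNat 136,.negSucc 161,.ofNat 5,.ofNat 21],[.negSucc 227,.ofNat 288,.negSucc 32,.negSucc 26],[.ofNat 188,.negSucc 251,.ofNat 49,.ofNat 15],[.negSucc 75,.ofNat 108,.negSucc 28,.negSucc 2],[.ofNat 12,.negSucc 17,.ofNat 6]]]⟩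
theorem c239 : chkE [e238] e239 true [(0,2),(0,4),(2,3),(2,4)] 0 3 5 (0,[(3,4)]) [(5,[]),(5,[]),(6,[]),(6,[]),(6,[]),(6,[]),(6,[]),(6,[]),(6,[]),(6,[]),(6,[]),(7,[]),(7,[]),(7,[]),(7,[])] = true := by decide +kernel
theorem k239 (h : Hy) : e239.ok := h.step (fac (k238 h) fan) c239

def e240 : Ent := ⟨3,[(0,2),(0,3),(0,4),(2,3),(4,5)],[[[.negSucc 1,.ofNat 3,.negSucc 0],[.ofNat 6,.negSucc 8,.ofNat 3],[.negSucc 5,.ofNat 9,.negSucc 2],[.ofNat 2,.negSucc 2,.ofNat 1]],[[.negSucc 1,.ofNat 11,.negSucc 12,.ofNat 4],[.negSucc 3,.negSucc 17,.ofNat 34,.negSucc 11],[.ofNat 24,.negSucc 11,.negSucc 23,.ofNat 12],[.negSucc 27,.ofNat 34,.negSucc 1,.negSucc 3],[.ofNat 10,.negSucc 14,.ofNat 5]],[[.ofNat 32,.negSucc 33,.negSucc 2,.negSucc 1,.ofNat 10,.negSucc 2],[.negSucc 139,.ofNat 192,.negSucc 36,.ofNat 0,.negSucc 23,.ofNat 9],[.ofNat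 202,.negSucc 338,.ofNat 125,.ofNat 9,.ofNat 12,.negSucc 8],[.negSucc 85,.ofNat 205,.negSucc 122,.negSucc 6,.ofNat 8,.ofNat 3],[.negSucc 33,.ofNat 9,.ofNat 34,.negSucc 2,.negSucc 5],[.ofNat 26,.negSucc 32,.ofNat 4,.ofNat 3]]]⟩
theorem c240 : chkE [e237,e216,e239] e240 false [(0,2),(0,3),(0,4),(2,3)] 0 4 5 (0,[]) [(1,[]),(2,[]),(2,[(2,3)])] = true := by decide +kernel
theorem k240 (h : Hy) : e240.ok := h.step (fac (k237 h) (fac (k216 h) (fac (k239 h) fan))) c240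

def e241 : Ent := ⟨2,[(0,3),(0,4),(2,3),(2,4),(3,4)],[[[.ofNat 4,.negSucc 3],[.negSucc 15,.ofNat 16],[.ofNat 25,.negSucc 24],[.negSucc 18,.ofNat 19],[.ofNat 7,.negSucc 6],[.negSucc 0,.ofNat 1]],[[.negSucc 31,.ofNat 16,.ofNat 16],[.ofNat 156,.negSucc 91,.negSucc 63],[.negSucc 311,.ofNat 212,.ofNat 100],[.ofNat 327,.negSucc 250,.negSucc 75],[.negSucc 188,.ofNat 161,.ofNat 28],[.ofNat 57,.negSucc 52,.negSucc 3],[.negSucc 6,.ofNat 7]]]⟩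
theorem c241 : chkE [e169] e241 true [(0,4),(2,3),(2,4),(3,4)] 0 3 5 (0,[]) [(5,[]),(5,[]),(5,[]),(6,[]),(6,[]),(6,[]),(6,[]),(6,[]),(6,[]),(6,[]),(6,[]),(7,[]),(7,[]),(7,[]),(7,[])] = true := by decide +kernel
theorem k241 (h : Hy) : e241.ok := h.step (fac (k169 h) fan) c241

def e242 : Ent := ⟨3,[(0,3),(0,4),(2,3),(2,5),(3,4)],[[[.negSucc 1,.ofNat 2],[.ofNat 7,.negSucc 6],[.negSucc 8,.ofNat 9],[.ofNat 5,.negSucc 4],[.negSucc 0,.ofNat 1]],[[.negSucc 1,.ofNat 12,.negSucc 9],[.negSucc 4,.negSucc 29,.ofNat 35],[.ofNat 33,.ofNat 12,.negSucc 44],[.negSucc 48,.ofNat 24,.ofNat 25],[.ofNat 29,.negSucc 23,.negSucc 4],[.negSucc 5,.ofNat 6]],[[.ofNat 32,.negSucc 29,.negSucc 7,.ofNat 2,.ofNat 4],[.negSucc 143,.ofNat 185,.negSucc 11,.negSucc 14,.negSucc 13],[.ofNat 214,.negSucc 376,.ofNat 108,.ofNat 37,.ofNat 18],[.negSucc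 76,.ofNat 302,.negSucc 173,.negSucc 40,.negSucc 9],[.negSucc 92,.negSucc 43,.ofNat 114,.ofNat 21,.ofNat 2],[.ofNat 89,.negSucc 54,.negSucc 29,.negSucc 3],[.negSucc 20,.ofNat 19,.ofNat 2]]]⟩
theorem c242 : chkE [e238,e239,e84,e241] e242 false [(0,3),(0,4),(2,3),(3,4)] 0 2 5 (0,[(2,4),(3,2)]) [(1,[(2,3)]),(2,[(2,4),(3,2)]),(3,[])] = true := by decide +kernel
theorem k242 (h : Hy) : e242.ok := h.step (fac (k238 h) (fac (k239 h) (fac (k84 h) (fac (k241 h) fan)))) c242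

def e243 : Ent := ⟨3,[(0,2),(0,3),(0,4),(2,3),(2,5)],[[[.negSucc 3,.ofNat 6,.negSucc 1],[.ofNat 10,.negSucc 14,.ofNat 5],[.negSucc 7,.ofNat 12,.negSucc 3],[.ofNat 2,.negSucc 2,.ofNat 1]],[[.ofNat 8,.ofNat 4,.negSucc 19,.ofNat 8],[.negSucc 43,.ofNat 26,.ofNat 38,.negSucc 19],[.ofNat 76,.negSucc 81,.negSucc 9,.ofNat 16],[.negSucc 51,.ofNat 70,.negSucc 13,.negSucc 3],[.ofNat 12,.negSucc 17,.ofNat 6]],[[.negSucc 31,.ofNat 28,.ofNat 22,.negSucc 33,.ofNat 22,.negSucc 5],[.ofNat 132,.negSucc 87,.negSucc 94,.ofNat 79,.negSucc 42,.ofNat 15],[.negSucc 281,.ofNat 221,.ofNat 118,.negSucc 58,.ofNat 14,.negSucc 11],[.ofNat 340,.negSucc 349,.negSucc 25,.ofNat 20,.ofNat 13,.ofNat 3],[.negSucc 201,.ofNat 249,.negSucc 31,.negSucc 8,.negSucc 5],[.ofNat 44,.negSucc 59,.ofNat 13,.ofNat 3]]]⟩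
theorem c243 : chkE [e237,e127,e239] e243 false [(0,2),(0,3),(0,4),(2,3)] 0 2 5 (0,[]) [(1,[(2,3)]),(2,[])] = true := by decide +kernel
theorem k243 (h : Hy) : e243.ok := h.step (fac (k237 h) (fac (k127 h) (fac (k239 h) fan))) c243

def e244 : Ent := ⟨2,[(0,4),(0,5),(0,6),(2,3),(2,4),(3,5)],[[[.ofNat 2,.negSucc 2,.ofNat 1],[.negSucc 7,.ofNat 12,.negSucc 3],[.ofNat 12,.negSucc 17,.ofNat 6],[.negSucc 7,.ofNat 12,.negSucc 3],[.ofNat 2,.negSucc 2,.ofNat 1]],[[.ofNat 18,.negSucc 40,.ofNat 30,.negSucc 6],[.negSucc 55,.ofNat 140,.negSucc 111,.ofNat 28],[.ofNat 44,.negSucc 149,.ofNat 148,.negSucc 41],[.ofNat 24,.ofNat 20,.negSucc 71,.ofNat 28],[.negSucc 45,.ofNat 55,.negSucc 1,.negSucc 6],[.ofNat 16,.negSucc 23,.ofNat 8]]]⟩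
theorem c244 : chkE [e79] e244 false [(0,4),(0,5),(2,3),(2,4),(3,5)] 0 0 6 (0,[]) [(6,[]),(6,[]),(6,[])] = true := by decide +kernel
theorem k244 (h : Hy) : e244.ok := h.step (fac (k79 h) fan) c244

def e245 : Ent := ⟨2,[(0,5),(0,6),(2,3),(2,4),(3,4),(4,5)],[[[.ofNat 2,.negSucc 1],[.negSucc 8,.ofNat 9],[.ofNat 16,.negSucc 15],[.negSucc 13,.ofNat 14],[.ofNat 6,.negSucc 5],[.negSucc 0,.ofNat 1]],[[.ofNat 16,.negSucc 33,.ofNat 18],[.negSucc 51,.ofNat 133,.negSucc 80],[.ofNat 38,.negSucc 181,.ofNat 144],[.ofNat 48,.ofNat 78,.negSucc 125],[.negSucc 91,.ofNat 38,.ofNat 54],[.ofNat 52,.negSucc 42,.negSucc 8],[.negSucc 9,.ofNat 10]]]⟩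
theorem c245 : chkE [e98] e245 false [(0,5),(2,3),(2,4),(3,4),(4,5)] 0 0 6 (0,[]) [(6,[]),(6,[]),(6,[]),(6,[])] = true := by decide +kernel
theorem k245 (h : Hy) : e245.ok := h.step (fac (k98 h) fan) c245

def e246 : Ent := ⟨2,[(0,5),(0,6),(2,3),(2,4),(3,5),(4,5)],[[[.ofNat 2,.negSucc 1],[.negSucc 8,.ofNat 9],[.ofNat 16,.negSucc 15],[.negSucc 13,.ofNat 14],[.ofNat 6,.negSucc 5],[.negSucc 0,.ofNat 1]],[[.ofNat 16,.negSucc 31,.ofNat 16],[.negSucc 53,.ofNat 126,.negSucc 71],[.ofNat 47,.negSucc 174,.ofNat 128],[.ofNat 32,.ofNat 80,.negSucc 111],[.negSucc 77,.ofNat 30,.ofNat 48],[.ofNat 46,.negSucc 37,.negSucc 7],[.negSucc 8,.ofNat 9]]]⟩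
theorem c246 : chkE [e102] e246 false [(0,5),(2,3),(2,4),(3,5),(4,5)] 0 0 6 (0,[]) [(6,[]),(6,[]),(6,[]),(6,[])] = true := by decide +kernel
theorem k246 (h : Hy) : e246.ok := h.step (fac (k102 h) fan) c246

def e247 : Ent := ⟨2,[(0,4),(0,5),(2,3),(2,4),(3,5),(3,6)],[[[.ofNat 2,.negSucc 1],[.negSucc 8,.ofNat 9],[.ofNat 16,.negSucc 15],[.negSucc 13,.ofNat 14],[.ofNat 6,.negSucc 5],[.negSucc 0,.ofNat 1]],[[.ofNat 18,.negSucc 33,.ofNat 16],[.negSucc 62,.ofNat 135,.negSucc 71],[.ofNat 63,.negSucc 190,.ofNat 128],[.ofNat 18,.ofNat 94,.negSucc 111],[.negSucc 71,.ofNat 24,.ofNat 48],[.ofNat 45,.negSucc 36,.negSucc 7],[.negSucc 8,.ofNat 9]]]⟩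
theorem c247 : chkE [e79] e247 false [(0,4),(0,5),(2,3),(2,4),(3,5)] 0 3 6 (0,[]) [(6,[]),(6,[]),(6,[])] = true := by decide +kernel
theorem k247 (h : Hy) : e247.ok := h.step (fac (k79 h) fan) c247

def e248 : Ent := ⟨2,[(0,4),(0,5),(2,3),(2,4),(3,5),(4,6)],[[[.ofNat 2,.negSucc 1],[.negSucc 8,.ofNat 9],[.ofNat 16,.negSucc 15],[.negSucc 13,.ofNat 14],[.ofNat 6,.negSucc 5],[.negSucc 0,.ofNat 1]],[[.ofNat 18,.negSucc 31,.ofNat 14],[.negSucc 64,.ofNat 128,.negSucc 62],[.ofNat 72,.negSucc 183,.ofNat 112],[.ofNat 2,.ofNat 96,.negSucc 97],[.negSucc 57,.ofNat 16,.ofNat 42],[.ofNat 39,.negSucc 31,.negSucc 6],[.negSucc 7,.ofNat 8]]]⟩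
theorem c248 : chkE [e79] e248 false [(0,4),(0,5),(2,3),(2,4),(3,5)] 0 4 6 (0,[]) [(6,[]),(6,[]),(6,[])] = true := by decide +kernel
theorem k248 (h : Hy) : e248.ok := h.step (fac (k79 h) fan) c248

def e249 : Ent := ⟨2,[(0,4),(0,5),(0,6),(2,3),(2,4),(3,5),(6,7)],[[[.negSucc 1,.ofNat 3,.negSucc 0],[.ofNat 10,.negSucc 14,.ofNat 5],[.negSucc 19,.ofNat 30,.negSucc 9],[.ofNat 20,.negSucc 29,.ofNat 10],[.negSucc 9,.ofNat 15,.negSucc 4],[.ofNat 2,.negSucc 2,.ofNat 1]],[[.negSucc 33,.ofNat 67,.negSucc 40,.ofNat 8],[.ofNat 152,.negSucc 307,.ofNat 196,.negSucc 39],[.negSucc 249,.ofNat 535,.negSucc 364,.ofNat 80],[.ofNat 160,.negSucc 399,.ofNat 320,.negSucc 79],[.ofNat 10,.ofNat 65,.negSucc 114,.ofNat 40],[.negSucc 55,.ofNat 68,.negSucc 3,.negSucc 7],[.ofNat 18,.negSucc 26,.ofNat 9]]]⟩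
theorem c249 : chkE [e244] e249 false [(0,4),(0,5),(0,6),(2,3),(2,4),(3,5)] 0 6 7 (0,[]) [(7,[]),(7,[]),(7,[]),(7,[]),(7,[])] = true := by decide +kernel
theorem k249 (h : Hy) : e249.ok := h.step (fac (k244 h) fan) c249

def e250 : Ent := ⟨2,[(0,5),(0,6),(2,3),(2,5),(3,6),(4,5),(4,7)],[[[.negSucc 1,.ofNat 2],[.ofNat 11,.negSucc 10],[.negSucc 24,.ofNat 25],[.ofNat 30,.negSucc 29],[.negSucc 19,.ofNat 20],[.ofNat 7,.negSucc 6],[.negSucc 0,.ofNat 1]],[[.negSucc 33,.ofNat 52,.negSucc 17],[.ofNat 167,.negSucc 265,.ofNat 99],[.negSucc 314,.ofNat 540,.negSucc 224],[.ofNat 260,.negSucc 529,.ofNat 270],[.negSucc 39,.ofNat 220,.negSucc 179],[.negSucc 80,.ofNat 18,.ofNat 63],[.ofNat 53,.negSucc 43,.negSucc 8],[.negSucc 9,.ofNat 10]]]⟩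
theorem c250 : chkE [e248] e250 false [(0,5),(0,6),(2,3),(2,5),(3,6),(4,5)] 0 4 7 (0,[(4,6),(5,4)]) [(7,[]),(7,[]),(7,[]),(7,[]),(7,[])] = true := by decide +kernel
theorem k250 (h : Hy) : e250.ok := h.step (fac (k248 h) fan) c250

end Pool.Agent.RGA.CT
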