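import Pool.Agent.RGA.Cert09

set_option autoImplicit false

namespace Pool.Agent.RGA.CT

def e251 : Ent := ⟨2,[(0,4),(0,5),(0,6),(2,3),(2,4),(3,5),(4,7)],[[[.negSucc 3,.ofNat 6,.negSucc 1],[.ofNat 18,.negSucc 26,.ofNat 9],[.negSucc 31,.ofNat 48,.negSucc 15],[.ofNat 28,.negSucc 41,.ofNat 14],[.negSucc 11,.ofNat 18,.negSucc 5],[.ofNat 2,.negSucc 2,.ofNat 1]],[[.negSucc 55,.ofNat 116,.negSucc 75,.ofNat 16],[.ofNat 212,.negSucc 461,.ofNat 322,.negSucc 71],[.negSucc 267,.ofNat 658,.negSucc 517,.ofNat 128],[.ofNat 72,.negSucc 331,.ofNat 372,.negSucc 111],[.ofNat 112,.negSucc 71,.negSucc 87,.ofNat 48],[.negSucc 91,.ofNat 122,.negSucc 21,.negSucc 7],[.ofNat 20,.negSucc 29,.ofNat 10]]]⟩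
theorem c251 : chkE [e244] e251 false [(0,4),(0,5),(0,6),(2,3),(2,4),(3,5)] 0 4 7 (0,[]) [(7,[]),(7,[]),(7,[]),(7,[])] = true := by decide +kernel
theorem k251 (h : Hy) : e251.ok := h.step (fac (k244 h) fan) c251

def e252 : Ent := ⟨2,[(0,6),(0,7),(2,3),(2,4),(3,5),(4,6),(5,7)],[[[.negSucc 0,.ofNat 1],[.ofNat 6,.negSucc 5],[.negSucc 14,.ofNat 15],[.ofNat 20,.negSucc 19],[.negSucc 14,.ofNat 15],[.ofNat 6,.negSucc 5],[.negSucc 0,.ofNat 1]],[[.negSucc 20,.ofNat 31,.negSucc 9],[.ofNat 116,.negSucc 175,.ofNat 60],[.negSucc 254,.ofNat 405,.negSucc 149],[.ofNat 270,.negSucc 469,.ofNat 200],[.negSucc 114,.ofNat 265,.negSucc 149],[.negSucc 23,.negSucc 35,.ofNat 60],[.ofNat 39,.negSucc 28,.negSucc 9],[.negSucc 9,.ofNat 10]]]⟩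
theorem c252 : chkE [e109] e252 true [(0,7),(2,3),(2,4),(3,5),(4,6),(5,7)] 0 6 8 (0,[(2,3),(4,5),(6,7)]) [(8,[]),(8,[]),(8,[]),(8,[]),(8,[]),(8,[]),(9,[]),(9,[]),(9,[]),(9,[]),(9,[]),(9,[]),(9,[]),(9,[]),(9,[]),(9,[]),(9,[]),(9,[]),(9,[]),(9,[]),(9,[]),(10,[]),(10,[]),(10,[]),(10,[])] = true := by decide +kernel
theorem k252 (h : Hy) : e252.ok := h.step (fac (k109 h) fan) c252

def e253 : Ent := ⟨3,[(0,4),(0,5),(2,3),(2,4),(3,5)],[[[.negSucc 0,.ofNat 1],[.ofNat 4,.negSucc 3],[.negSucc 5,.ofNat 6],[.ofNat 4,.negSucc 3],[.negSucc 0,.ofNat 1]],[[.negSucc 4,.ofNat 11,.negSucc 5],[.ofNat 14,.negSucc 37,.ofNat 24],[.negSucc 5,.ofNat 42,.negSucc 35],[.negSucc 15,.negSucc 7,.ofNat 24],[.ofNat 19,.negSucc 12,.negSucc 5],[.negSucc 5,.ofNat 6]],[[.ofNat 35,.negSucc 17,.negSucc 25,.ofNat 7,.ofNat 2],[.negSucc 196,.ofNat 165,.ofNat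 72,.negSucc 31,.negSucc 7],[.ofNat 416,.negSucc 459,.negSucc 25,.ofNat 58,.ofNat 12],[.negSucc 393,.ofNat 550,.negSucc 95,.negSucc 51,.negSucc 7],[.ofNat 131,.negSucc 269,.ofNat 114,.ofNat 23,.ofNat 2],[.ofNat 31,.ofNat 13,.negSucc 39,.negSucc 3],[.negSucc 21,.ofNat 20,.ofNat 2]]]⟩
theorem c253 : chkE [e92,e93,e146,e242,e79,e244,e95,e245,e246,e150,e96,e247,e248,e249,e250,e251,e252] e253 true [(0,5),(2,3),(2,4),(3,5)] 0 4 6 (0,[(2,3),(4,5)]) [(1,[(2,3),(4,5)]),(2,[(2,3),(4,5)]),(3,[(4,5)]),(4,[]),(5,[]),(6,[(2,3),(4,5)]),(7,[(3,4)]),(8,[]),(9,[]),(5,[]),(10,[]),(11,[(2,3),(4,5)]),(11,[]),(12,[]),(12,[(2,3),(4,5)]),(13,[]),(14,[(4,5),(4,6),(4,7)]),(15,[]),(16,[(3,4),(5,6),(5,7)])] = true := by decide +kernel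
theorem k253 (h : Hy) : e253.ok := h.step (fac (k92 h) (fac (k93 h) (fac (k146 h) (fac (k242 h) (fac (k79 h) (fac (k244 h) (fac (k95 h) (fac (k245 h) (fac (k246 h) (fac (k150 h) (fac (k96 h) (fac (k247 h) (fac (k248 h) (fac (k249 h) (fac (k250 h) (fac (k251 h) (fac (k252 h) fan))))))))))))))))) c253

def e254 : Ent := ⟨4,[(0,2),(0,3),(2,3)],[[[.negSucc 0,.ofNat 1],[.ofNat 2,.negSucc 1],[.negSucc 0,.ofNat 1]],[[.ofNat 3,.negSucc 0,.negSucc 1],[.negSucc 7,.ofNat 4,.ofNat 4],[.ofNat 7,.negSucc 4,.negSucc 1],[.negSucc 1,.ofNat 2]],[[.negSucc 15,.ofNat 13,.ofNat 6,.negSucc 4,.ofNat 2],[.ofNat 47,.negSucc 44,.negSucc 3,.ofNat 6,.negSucc 3],[.negSucc 47,.ofNat 51,.negSucc 7,.ofNat 3,.ofNat 2],[.ofNat 19,.negSucc 18,.ofNat 4,.negSucc 3],[.negSucc 1,.ofNat 0,.ofNat 2]],[[.ofNat 123,.negSucc 131,.negSucc 13,.ofNat 31,.negSucc 7,.ofNat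 2,.negSucc 1],[.negSucc 415,.ofNat 491,.negSucc 29,.negSucc 62,.ofNat 10,.ofNat 4,.ofNat 4],[.ofNat 510,.negSucc 653,.ofNat 128,.ofNat 38,.negSucc 5,.negSucc 13,.negSucc 1],[.negSucc 259,.ofNat 355,.negSucc 109,.negSucc 6,.ofNat 14,.ofNat 8],[.ofNat 40,.negSucc 52,.ofNat 26,.negSucc 2,.negSucc 9],[.ofNat 2,.negSucc 5,.ofNat 0,.ofNat 4],[.ofNat 1,.negSucc 0]]]⟩
theorem c254 : chkE [e230,e228,e80,e237,e236,e151,e82,e238,e240,e242,e243,e253] e254 true [(0,3),(2,3)] 0 2 4 (0,[(2,3)]) [(1,[(2,3)]),(2,[]),(3,[]),(4,[(2,3)]),(5,[]),(3,[]),(6,[]),(7,[]),(7,[(2,3)]),(8,[]),(9,[(2,3),(2,4),(2,5)]),(10,[]),(11,[(3,4),(3,5)])] = true := by decide +kernel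
theorem k254 (h : Hy) : e254.ok := h.step (fac (k230 h) (fac (k228 h) (fac (k80 h) (fac (k237 h) (fac (k236 h) (fac (k151 h) (fac (k82 h) (fac (k238 h) (fac (k240 h) (fac (k242 h) (fac (k243 h) (fac (k253 h) fan)))))))))))) c254

def e255 : Ent := ⟨2,[(0,1),(0,2),(0,3),(0,4),(2,3)],[[[.negSucc 5,.ofNat 11,.negSucc 5,.ofNat 1],[.ofNat 12,.negSucc 21,.ofNat 12,.negSucc 1],[.negSucc 5,.ofNat 11,.negSucc 5,.ofNat 1]],[[.ofNat 18,.negSucc 32,.ofNat 24,.negSucc 13,.ofNat 6,.negSucc 0],[.negSucc 53,.ofNat 87,.negSucc 43,.ofNat 19,.negSucc 9,.ofNat 2],[.ofNat 60,.negSucc 85,.ofNat 22,.ofNat 3,.ofNat 2,.negSucc 0],[.negSucc 29,.ofNat 43,.negSucc 7,.negSucc 6,.ofNat 2],[.ofNat 6,.negSucc 10,.ofNat 6,.negSucc 0]]]⟩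
theorem c255 : chkE [e81] e255 false [(0,1),(0,2),(0,3),(2,3)] 0 0 4 (0,[]) [] = true := by decide +kernel
theorem k255 (h : Hy) : e255.ok := h.step (fac (k81 h) fan) c255

def e256 : Ent := ⟨2,[(0,1),(0,2),(0,3),(1,4),(2,3)],[[[.negSucc 1,.ofNat 5,.negSucc 3,.ofNat 1],[.ofNat 4,.negSucc 9,.ofNat 8,.negSucc 1],[.negSucc 1,.ofNat 5,.negSucc 3,.ofNat 1]],[[.negSucc 1,.ofNat 5,.negSucc 1,.negSucc 3,.ofNat 4,.negSucc 0],[.ofNat 2,.negSucc 8,.ofNat 10,.ofNat 1,.negSucc 5,.ofNat 2],[.ofNat 4,.negSucc 1,.negSucc 9,.ofNat 9,.ofNat 0,.negSucc 0],[.negSucc 5,.ofNat 11,.negSucc 1,.negSucc 4,.ofNat 2],[.ofNat 2,.negSucc 4,.ofNat 4,.negSucc 0]]]⟩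
theorem c256 : chkE [e81] e256 false [(0,1),(0,2),(0,3),(2,3)] 0 1 4 (0,[]) [(4,[]),(4,[])] = true := by decide +kernel
theorem k256 (h : Hy) : e256.ok := h.step (fac (k81 h) fan) c256

def e257 : Ent := ⟨2,[(0,1),(0,2),(0,3),(2,3),(2,4)],[[[.negSucc 3,.ofNat 6,.negSucc 1],[.ofNat 10,.negSucc 14,.ofNat 5],[.negSucc 7,.ofNat 12,.negSucc 3],[.ofNat 2,.negSucc 2,.ofNat 1]],[[.ofNat 8,.negSucc 7,.ofNat 2,.negSucc 3,.ofNat 2],[.negSucc 31,.ofNat 30,.ofNat 1,.ofNat 6,.negSucc 4],[.ofNat 50,.negSucc 46,.negSucc 8,.ofNat 2,.ofNat 4],[.negSucc 37,.ofNat 39,.ofNat 6,.negSucc 5,.negSucc 0],[.ofNat 14,.negSucc 16,.ofNat 1,.ofNat 2],[.negSucc 1,.ofNat 3,.negSucc 0]]]⟩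
theorem c257 : chkE [e81] e257 false [(0,1),(0,2),(0,3),(2,3)] 0 2 4 (0,[]) [(4,[])] = true := by decide +kernel
theorem k257 (h : Hy) : e257.ok := h.step (fac (k81 h) fan) c257

def e258 : Ent := ⟨2,[(0,1),(0,2),(0,3),(0,4),(2,3),(4,5)],[[[.ofNat 6,.negSucc 10,.ofNat 6,.negSucc 0],[.negSucc 17,.ofNat 33,.negSucc 17,.ofNat 3],[.ofNat 18,.negSucc 32,.ofNat 18,.negSucc 2],[.negSucc 5,.ofNat 11,.negSucc 5,.ofNat 1]],[[.ofNat 12,.negSucc 27,.ofNat 17,.ofNat 3,.negSucc 4,.ofNat 1],[.negSucc 11,.ofNat 52,.negSucc 48,.negSucc 0,.ofNat 13,.negSucc 2],[.negSucc 41,.ofNat 23,.ofNat 39,.negSucc 13,.negSucc 8,.ofNat 3],[.ofNat 78,.negSucc 100,.ofNat 7,.ofNat 18,.negSucc 0,.negSucc 0],[.negSucc 41,.ofNat 65,.negSucc 19,.negSucc 4,.ofNat 2],[.ofNat 6,.negSucc 10,.ofNat 6,.negSucc 0]]]⟩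
theorem c258 : chkE [e255] e258 false [(0,1),(0,2),(0,3),(0,4),(2,3)] 0 4 5 (0,[]) [(5,[]),(5,[]),(5,[])] = true := by decide +kernel
theorem k258 (h : Hy) : e258.ok := h.step (fac (k255 h) fan) c258

def e259 : Ent := ⟨2,[(0,1),(0,2),(0,3),(1,4),(2,3),(4,5)],[[[.ofNat 2,.negSucc 4,.ofNat 4,.negSucc 0],[.negSucc 5,.ofNat 15,.negSucc 11,.ofNat 3],[.ofNat 6,.negSucc 14,.ofNat 12,.negSucc 2],[.negSucc 1,.ofNat 5,.negSucc 3,.ofNat 1]],[[.ofNat 16,.negSucc 41,.ofNat 35,.negSucc 6,.negSucc 2,.ofNat 1],[.negSucc 43,.ofNat 120,.negSucc 106,.ofNat 27,.ofNat 7,.negSucc 2],[.ofNat 34,.negSucc 102,.ofNat 107,.negSucc 37,.negSucc 2,.ofNat 3],[.ofNat 2,.ofNat 9,.negSucc 28,.ofNat 22,.negSucc 2,.negSucc 0],[.negSucc 9,.ofNat 21,.negSucc 9,.negSucc 2,.ofNat 2],[.ofNat 2,.negSucc 4,.ofNat 4,.negSucc 0]]]⟩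
theorem c259 : chkE [e256] e259 false [(0,1),(0,2),(0,3),(1,4),(2,3)] 0 4 5 (0,[]) [(5,[]),(5,[]),(5,[])] = true := by decide +kernel
theorem k259 (h : Hy) : e259.ok := h.step (fac (k256 h) fan) c259

def e260 : Ent := ⟨2,[(0,1),(0,2),(0,3),(0,4),(1,5),(2,3)],[[[.ofNat 6,.negSucc 16,.ofNat 17,.negSucc 6,.ofNat 1],[.negSucc 11,.ofNat 34,.negSucc 33,.ofNat 14,.negSucc 1],[.ofNat 6,.negSucc 16,.ofNat 17,.negSucc 6,.ofNat 1]],[[.ofNat 12,.negSucc 33,.ofNat 28,.ofNat 3,.negSucc 14,.ofNat 7,.negSucc 0],[.negSucc 5,.ofNat 29,.negSucc 38,.ofNat 7,.ofNat 19,.negSucc 11,.ofNat 2],[.negSucc 29,.ofNat 61,.negSucc 22,.negSucc 15,.ofNat 6,.ofNat 3,.negSucc 0],[.ofNat 30,.negSucc 72,.ofNat 51,.negSucc 0,.negSucc 8,.ofNat 2],[.negSucc 5,.ofNat 17,.negSucc 16,.ofNat 7,.negSucc 0]]]⟩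
theorem c260 : chkE [e255] e260 false [(0,1),(0,2),(0,3),(0,4),(2,3)] 0 1 5 (0,[]) [(5,[]),(5,[]),(5,[])] = true := by decide +kernel
theorem k260 (h : Hy) : e260.ok := h.step (fac (k255 h) fan) c260

def e261 : Ent := ⟨2,[(0,2),(0,3),(0,4),(1,5),(2,3),(4,5)],[[[.ofNat 2,.negSucc 2,.ofNat 1],[.negSucc 7,.ofNat 12,.negSucc 3],[.ofNat 12,.negSucc 17,.ofNat 6],[.negSucc 7,.ofNat 12,.negSucc 3],[.ofNat 2,.negSucc 2,.ofNat 1]],[[.ofNat 16,.negSucc 31,.ofNat 20,.negSucc 3],[.negSucc 53,.ofNat 113,.negSucc 74,.ofNat 16],[.ofNat 56,.negSucc 131,.ofNat 100,.negSucc 23],[.negSucc 3,.ofNat 38,.negSucc 49,.ofNat 16],[.negSucc 23,.ofNat 28,.ofNat 0,.negSucc 3],[.ofNat 10,.negSucc 14,.ofNat 5]]]⟩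
theorem c261 : chkE [e240] e261 true [(0,2),(0,3),(0,4),(2,3),(4,5)] 1 5 6 (0,[]) [(6,[]),(6,[]),(6,[]),(6,[]),(6,[]),(7,[]),(7,[]),(7,[]),(7,[]),(7,[]),(7,[]),(7,[]),(7,[]),(7,[]),(7,[]),(7,[]),(8,[]),(8,[]),(8,[]),(8,[])] = true := by decide +kernel
theorem k261 (h : Hy) : e261.ok := h.step (fac (k240 h) fan) c261

def e262 : Ent := ⟨3,[(0,1),(0,2),(0,3),(2,3)],[[[.ofNat 2,.negSucc 2,.ofNat 1],[.negSucc 3,.ofNat 6,.negSucc 1],[.ofNat 2,.negSucc 2,.ofNat 1]],[[.negSucc 5,.ofNat 9,.negSucc 4,.ofNat 3,.negSucc 0],[.ofNat 14,.negSucc 16,.ofNat 5,.negSucc 3,.ofNat 2],[.negSucc 11,.ofNat 10,.ofNat 4,.negSucc 0,.negSucc 0],[.ofNat 6,.negSucc 4,.negSucc 2,.ofNat 2],[.negSucc 1,.ofNat 3,.negSucc 0]],[[.ofNat 32,.negSucc 41,.ofNat 9,.ofNat 0,.ofNat 3,.negSucc 2,.ofNat 1],[.negSucc 99,.ofNat 134,.negSucc 29,.negSucc 9,.ofNat 6,.ofNat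 2,.negSucc 1],[.ofNat 114,.negSucc 156,.ofNat 48,.ofNat 5,.negSucc 15,.ofNat 5,.ofNat 1],[.negSucc 55,.ofNat 76,.negSucc 35,.ofNat 18,.ofNat 2,.negSucc 3],[.ofNat 10,.negSucc 6,.ofNat 3,.negSucc 10,.ofNat 5],[.ofNat 0,.negSucc 3,.ofNat 6,.negSucc 1]]]⟩
theorem c262 : chkE [e254,e81,e255,e127,e216,e256,e257,e258,e259,e260,e261] e262 true [(0,2),(0,3),(2,3)] 0 1 4 (0,[]) [(1,[]),(2,[]),(3,[(2,3)]),(3,[]),(4,[]),(2,[]),(5,[]),(6,[]),(6,[(2,3)]),(7,[]),(8,[(4,5)]),(9,[]),(10,[])] = true := by decide +kernel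
theorem k262 (h : Hy) : e262.ok := h.step (fac (k254 h) (fac (k81 h) (fac (k255 h) (fac (k127 h) (fac (k216 h) (fac (k256 h) (fac (k257 h) (fac (k258 h) (fac (k259 h) (fac (k260 h) (fac (k261 h) fan))))))))))) c262

def e263 : Ent := ⟨4,[(0,2),(0,3),(1,4),(2,3)],[[[.negSucc 0,.ofNat 1],[.ofNat 2,.negSucc 1],[.negSucc 0,.ofNat 1]],[[.negSucc 2,.ofNat 6,.negSucc 2],[.ofNat 4,.negSucc 9,.ofNat 6],[.ofNat 1,.ofNat 2,.negSucc 2],[.negSucc 1,.ofNat 2]],[[.ofNat 2,.negSucc 7,.ofNat 11,.negSucc 7,.ofNat 3],[.negSucc 6,.ofNat 18,.negSucc 14,.ofNat 10,.negSucc 5],[.ofNat 6,.negSucc 12,.ofNat 0,.ofNat 4,.ofNat 3],[.ofNat 1,.ofNat 4,.ofNat 1,.negSucc 5],[.negSucc 1,.negSucc 0,.ofNat 3]],[[.ofNat 27,.negSucc 37,.ofNat 17,.negSucc 8,.ofNat 1,.ofNat 5,.negSucc 2],[.negSucc 79,.ofNat 83,.ofNat 6,.ofNat 3,.negSucc 19,.ofNat 2,.ofNat 6],[.ofNat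 86,.negSucc 68,.negSucc 59,.ofNat 43,.ofNat 22,.negSucc 18,.negSucc 2],[.negSucc 41,.ofNat 47,.ofNat 24,.negSucc 52,.ofNat 12,.ofNat 12],[.ofNat 10,.negSucc 27,.ofNat 23,.ofNat 10,.negSucc 14],[.ofNat 0,.ofNat 4,.negSucc 9,.ofNat 6],[.negSucc 0,.ofNat 1]]]⟩
theorem c263 : chkE [e254,e262,e134] e263 false [(0,2),(0,3),(2,3)] 0 1 4 (0,[]) [(1,[]),(2,[(2,3)]),(2,[])] = true := by decide +kernel
theorem k263 (h : Hy) : e263.ok := h.step (fac (k254 h) (fac (k262 h) (fac (k134 h) fan))) c263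

def e264 : Ent := ⟨4,[(0,2),(1,3),(2,3),(2,4)],[[[.negSucc 1],[.ofNat 5],[.negSucc 3],[.ofNat 1]],[[.negSucc 3,.ofNat 6],[.ofNat 4,.negSucc 14],[.ofNat 7,.ofNat 12],[.negSucc 9,.negSucc 2],[.ofNat 3]],[[.ofNat 12,.negSucc 21,.ofNat 8,.negSucc 3],[.negSucc 31,.ofNat 61,.negSucc 11,.ofNat 10],[.ofNat 17,.negSucc 62,.negSucc 3,.negSucc 7],[.ofNat 20,.ofNat 33,.ofNat 12,.ofNat 2],[.negSucc 22,.negSucc 10,.negSucc 3],[.ofNat 6,.ofNat 2]],[[.negSucc 63,.ofNat 126,.negSucc 21,.negSucc 15,.ofNat 4,.ofNat 4],[.ofNat 182,.negSucc 454,.ofNat 141,.ofNat 26,.negSucc 25,.negSucc 9],[.negSucc 144,.ofNat 566,.negSucc 242,.ofNat 23,.ofNat 48,.ofNat 8],[.negSucc 32,.negSucc 258,.ofNat 135,.negSucc 69,.negSucc 33,.negSucc 1],[.ofNat 100,.ofNat 13,.ofNat 9,.ofNat 47,.ofNat 8],[.negSucc 46,.ofNat 6,.negSucc 23,.negSucc 9],[.ofNat 7,.ofNat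 3,.ofNat 4]]]⟩
theorem c264 : chkE [e112,e134] e264 false [(0,2),(1,3),(2,3)] 0 2 4 (0,[]) [(1,[(0,1),(2,3)])] = true := by decide +kernel
theorem k264 (h : Hy) : e264.ok := h.step (fac (k112 h) (fac (k134 h) fan)) c264

def e265 : Ent := ⟨2,[(0,2),(0,3),(0,4),(1,5),(2,3),(2,4)],[[[.ofNat 4,.negSucc 5,.ofNat 2],[.negSucc 13,.ofNat 21,.negSucc 6],[.ofNat 18,.negSucc 26,.ofNat 9],[.negSucc 9,.ofNat 15,.negSucc 4],[.ofNat 2,.negSucc 2,.ofNat 1]],[[.ofNat 8,.negSucc 27,.ofNat 28,.negSucc 7],[.negSucc 3,.ofNat 62,.negSucc 85,.ofNat 28],[.negSucc 47,.ofNat 0,.ofNat 84,.negSucc 35],[.ofNat 88,.negSucc 91,.negSucc 15,.ofNat 20],[.negSucc 55,.ofNat 76,.negSucc 15,.negSucc 3],[.ofNat 12,.negSucc 17,.ofNat 6]]]⟩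
theorem c265 : chkE [e239] e265 false [(0,2),(0,3),(0,4),(2,3),(2,4)] 0 1 5 (0,[]) [(5,[]),(5,[]),(5,[]),(5,[])] = true := by decide +kernel
theorem k265 (h : Hy) : e265.ok := h.step (fac (k239 h) fan) c265

def e266 : Ent := ⟨2,[(0,2),(0,3),(1,4),(1,5),(2,3),(2,4)],[[[.ofNat 2,.negSucc 3,.ofNat 2],[.negSucc 6,.ofNat 14,.negSucc 6],[.ofNat 9,.negSucc 17,.ofNat 9],[.negSucc 4,.ofNat 10,.negSucc 4],[.ofNat 1,.negSucc 1,.ofNat 1]],[[.ofNat 16,.negSucc 39,.ofNat 32,.negSucc 7],[.negSucc 45,.ofNat 120,.negSucc 101,.ofNat 28],[.ofNat 37,.negSucc 109,.ofNat 109,.negSucc 35],[.ofNat 5,.ofNat 10,.negSucc 34,.ofNat 20],[.negSucc 16,.ofNat 30,.negSucc 8,.negSucc 3],[.ofNat 5,.negSucc 9,.ofNat 5]]]⟩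
theorem c266 : chkE [e84] e266 false [(0,2),(0,3),(1,4),(2,3),(2,4)] 0 1 5 (0,[]) [(5,[]),(5,[]),(5,[])] = true := by decide +kernel
theorem k266 (h : Hy) : e266.ok := h.step (fac (k84 h) fan) c266

def e267 : Ent := ⟨2,[(0,3),(0,4),(1,5),(2,3),(2,4),(3,4)],[[[.ofNat 4,.negSucc 3],[.negSucc 15,.ofNat 16],[.ofNat 25,.negSucc 24],[.negSucc 18,.ofNat 19],[.ofNat 7,.negSucc 6],[.negSucc 0,.ofNat 1]],[[.ofNat 8,.negSucc 27,.ofNat 20],[.negSucc 3,.ofNat 84,.negSucc 79],[.negSucc 61,.negSucc 62,.ofNat 125],[.ofNat 137,.negSucc 41,.negSucc 94],[.negSucc 118,.ofNat 84,.ofNat 35],[.ofNat 47,.negSucc 41,.negSucc 4],[.negSucc 6,.ofNat 7]]]⟩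
theorem c267 : chkE [e241] e267 false [(0,3),(0,4),(2,3),(2,4),(3,4)] 0 1 5 (0,[]) [(5,[]),(5,[]),(5,[]),(5,[])] = true := by decide +kernel
theorem k267 (h : Hy) : e267.ok := h.step (fac (k241 h) fan) c267

def e268 : Ent := ⟨2,[(0,2),(0,3),(0,5),(1,4),(2,3),(2,4)],[[[.ofNat 4,.negSucc 5,.ofNat 2],[.negSucc 13,.ofNat 21,.negSucc 6],[.ofNat 18,.negSucc 26,.ofNat 9],[.negSucc 9,.ofNat 15,.negSucc 4],[.ofNat 2,.negSucc 2,.ofNat 1]],[[.ofNat 16,.negSucc 39,.ofNat 32,.negSucc 7],[.negSucc 31,.ofNat 104,.negSucc 99,.ofNat 28],[.negSucc 11,.negSucc 53,.ofNat 102,.negSucc 35],[.ofNat 68,.negSucc 61,.negSucc 25,.ofNat 20],[.negSucc 51,.ofNat 70,.negSucc 13,.negSucc 3],[.ofNat 12,.negSucc 17,.ofNat 6]]]⟩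
theorem c268 : chkE [e84] e268 false [(0,2),(0,3),(1,4),(2,3),(2,4)] 0 0 5 (0,[]) [(5,[]),(5,[])] = true := by decide +kernel
theorem k268 (h : Hy) : e268.ok := h.step (fac (k84 h) fan) c268

def e269 : Ent := ⟨2,[(0,2),(0,3),(1,4),(2,3),(2,4),(2,5)],[[[.ofNat 6,.negSucc 5],[.negSucc 22,.ofNat 23],[.ofNat 34,.negSucc 33],[.negSucc 23,.ofNat 24],[.ofNat 8,.negSucc 7],[.negSucc 0,.ofNat 1]],[[.ofNat 12,.negSucc 35,.ofNat 24],[.negSucc 3,.ofNat 96,.negSucc 91],[.negSucc 92,.negSucc 42,.ofNat 136],[.ofNat 190,.negSucc 93,.negSucc 95],[.negSucc 151,.ofNat 120,.ofNat 32],[.ofNat 54,.negSucc 49,.negSucc 3],[.negSucc 6,.ofNat 7]]]⟩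
theorem c269 : chkE [e84] e269 false [(0,2),(0,3),(1,4),(2,3),(2,4)] 0 2 5 (0,[]) [(5,[])] = true := by decide +kernel
theorem k269 (h : Hy) : e269.ok := h.step (fac (k84 h) fan) c269

def e270 : Ent := ⟨2,[(0,2),(0,4),(1,3),(2,3),(2,4),(3,5)],[[[.ofNat 4,.negSucc 3],[.negSucc 15,.ofNat 16],[.ofNat 25,.negSucc 24],[.negSucc 18,.ofNat 19],[.ofNat 7,.negSucc 6],[.negSucc 0,.ofNat 1]],[[.ofNat 20,.negSucc 35,.ofNat 16],[.negSucc 55,.ofNat 120,.negSucc 63],[.ofNat 29,.negSucc 128,.ofNat 100],[.ofNat 55,.ofNat 21,.negSucc 75],[.negSucc 78,.ofNat 51,.ofNat 28],[.ofNat 37,.negSucc 32,.negSucc 3],[.negSucc 5,.ofNat 6]]]⟩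
theorem c270 : chkE [e84] e270 false [(0,2),(0,4),(1,3),(2,3),(2,4)] 0 3 5 (0,[(3,4)]) [(5,[]),(5,[])] = true := by decide +kernel
theorem k270 (h : Hy) : e270.ok := h.step (fac (k84 h) fan) c270

def e271 : Ent := ⟨2,[(0,2),(0,3),(1,4),(1,5),(2,3),(2,4),(5,6)],[[[.negSucc 1,.ofNat 4,.negSucc 1],[.ofNat 9,.negSucc 17,.ofNat 9],[.negSucc 15,.ofNat 32,.negSucc 15],[.ofNat 14,.negSucc 27,.ofNat 14],[.negSucc 5,.ofNat 12,.negSucc 5],[.ofNat 1,.negSucc 1,.ofNat 1]],[[.negSucc 33,.ofNat 78,.negSucc 53,.ofNat 10],[.ofNat 141,.negSucc 326,.ofNat 231,.negSucc 44],[.negSucc 217,.ofNat 516,.negSucc 377,.ofNat 80],[.ofNat 142,.negSucc 353,.ofNat 282,.negSucc 69],[.negSucc 17,.ofNat 66,.negSucc 77,.ofNat 30],[.negSucc 18,.ofNat 33,.negSucc 8,.negSucc 4],[.ofNat 6,.negSucc 11,.ofNat 6]]]⟩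
theorem c271 : chkE [e266] e271 false [(0,2),(0,3),(1,4),(1,5),(2,3),(2,4)] 0 5 6 (0,[]) [(6,[]),(6,[]),(6,[]),(6,[])] = true := by decide +kernel
theorem k271 (h : Hy) : e271.ok := h.step (fac (k266 h) fan) c271

def e272 : Ent := ⟨2,[(0,3),(0,5),(1,4),(2,4),(2,6),(3,4),(3,5)],[[[.negSucc 3,.ofNat 4],[.ofNat 20,.negSucc 19],[.negSucc 40,.ofNat 41],[.ofNat 44,.negSucc 43],[.negSucc 25,.ofNat 26],[.ofNat 8,.negSucc 7],[.negSucc 0,.ofNat 1]],[[.negSucc 51,.ofNat 76,.negSucc 23],[.ofNat 228,.negSucc 347,.ofNat 120],[.negSucc 372,.ofNat 619,.negSucc 245],[.ofNat 244,.negSucc 507,.ofNat 264],[.ofNat 14,.ofNat 142,.negSucc 155],[.negSucc 103,.ofNat 56,.ofNat 48],[.ofNat 51,.negSucc 44,.negSucc 5],[.negSucc 7,.ofNat 8]]]⟩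
theorem c272 : chkE [e270] e272 false [(0,3),(0,5),(1,4),(2,4),(3,4),(3,5)] 0 2 6 (0,[(2,5),(3,2),(4,3)]) [(6,[]),(6,[]),(6,[]),(6,[])] = true := by decide +kernel
theorem k272 (h : Hy) : e272.ok := h.step (fac (k270 h) fan) c272

def e273 : Ent := ⟨2,[(0,2),(0,4),(1,3),(1,6),(2,3),(2,4),(3,5)],[[[.negSucc 3,.ofNat 8,.negSucc 3],[.ofNat 16,.negSucc 31,.ofNat 16],[.negSucc 24,.ofNat 50,.negSucc 24],[.ofNat 19,.negSucc 37,.ofNat 19],[.negSucc 6,.ofNat 14,.negSucc 6],[.ofNat 1,.negSucc 1,.ofNat 1]],[[.negSucc 51,.ofNat 124,.negSucc 91,.ofNat 20],[.ofNat 180,.negSucc 439,.ofNat 340,.negSucc 79],[.negSucc 212,.ofNat 551,.negSucc 462,.ofNat 125],[.ofNat 72,.negSucc 238,.ofNat 262,.negSucc 94],[.ofNat 42,.negSucc 48,.negSucc 27,.ofNat 35],[.negSucc 35,.ofNat 67,.negSucc 25,.negSucc 4],[.ofNat 7,.negSucc 13,.ofNat 7]]]⟩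
theorem c273 : chkE [e270] e273 false [(0,2),(0,4),(1,3),(2,3),(2,4),(3,5)] 0 1 6 (0,[]) [(6,[]),(6,[]),(6,[]),(6,[])] = true := by decide +kernel
theorem k273 (h : Hy) : e273.ok := h.step (fac (k270 h) fan) c273

def e274 : Ent := ⟨2,[(0,4),(0,5),(2,3),(2,4),(3,6),(4,5)],[[[.ofNat 2,.negSucc 1],[.negSucc 8,.ofNat 9],[.ofNat 16,.negSucc 15],[.negSucc 13,.ofNat 14],[.ofNat 6,.negSucc 5],[.negSucc 0,.ofNat 1]],[[.ofNat 16,.negSucc 29,.ofNat 14],[.negSucc 55,.ofNat 119,.negSucc 62],[.ofNat 56,.negSucc 167,.ofNat 112],[.ofNat 16,.ofNat 82,.negSucc 97],[.negSucc 63,.ofNat 22,.ofNat 42],[.ofNat 40,.negSucc 32,.negSucc 6],[.negSucc 7,.ofNat 8]]]⟩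
theorem c274 : chkE [e242] e274 false [(0,4),(0,5),(2,3),(2,4),(4,5)] 0 3 6 (0,[(3,5),(4,3)]) [(6,[]),(6,[]),(6,[]),(6,[])] = true := by decide +kernel
theorem k274 (h : Hy) : e274.ok := h.step (fac (k242 h) fan) c274

def e275 : Ent := ⟨2,[(0,4),(0,5),(1,6),(2,3),(2,4),(3,6),(4,5)],[[[.negSucc 1,.ofNat 2],[.ofNat 11,.negSucc 10],[.negSucc 24,.ofNat 25],[.ofNat 30,.negSucc 29],[.negSucc 19,.ofNat 20],[.ofNat 7,.negSucc 6],[.negSucc 0,.ofNat 1]],[[.negSucc 33,.ofNat 48,.negSucc 13],[.ofNat 171,.negSucc 247,.ofNat 77],[.negSucc 336,.ofNat 512,.negSucc 174],[.ofNat 310,.negSucc 519,.ofNat 210],[.negSucc 99,.ofNat 240,.negSucc 139],[.negSucc 40,.negSucc 7,.ofNat 49],[.ofNat 39,.negSucc 31,.negSucc 6],[.negSucc 7,.ofNat 8]]]⟩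
theorem c275 : chkE [e274] e275 true [(0,4),(0,5),(2,3),(2,4),(3,6),(4,5)] 1 6 7 (0,[]) [(7,[]),(7,[]),(7,[]),(7,[]),(7,[]),(7,[]),(8,[]),(8,[]),(8,[]),(8,[]),(8,[]),(8,[]),(8,[]),(8,[]),(8,[]),(8,[]),(8,[]),(8,[]),(8,[]),(9,[]),(9,[]),(9,[]),(9,[])] = true := by decide +kernel
theorem k275 (h : Hy) : e275.ok := h.step (fac (k274 h) fan) c275

end Pool.Agent.RGA.CT
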