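import Pool.Agent.RGA.Cert10

set_option autoImplicit false

namespace Pool.Agent.RGA.CT

def e276 : Ent := ⟨3,[(0,2),(0,3),(1,4),(2,3),(2,4)],[[[.negSucc 1,.ofNat 2],[.ofNat 7,.negSucc 6],[.negSucc 8,.ofNat 9],[.ofNat 5,.negSucc 4],[.negSucc 0,.ofNat 1]],[[.negSucc 1,.ofNat 8,.negSucc 5],[.negSucc 0,.negSucc 19,.ofNat 21],[.ofNat 19,.ofNat 8,.negSucc 26],[.negSucc 30,.ofNat 16,.ofNat 15],[.ofNat 19,.negSucc 15,.negSucc 2],[.negSucc 3,.ofNat 4]],[[.ofNat 32,.negSucc 81,.ofNat 68,.negSucc 23,.ofNat 6],[.negSucc 91,.ofNat 267,.negSucc 225,.ofNat 72,.negSucc 20],[.ofNat 56,.negSucc 286,.ofNat 270,.negSucc 65,.ofNat 27],[.ofNat 73,.ofNat 73,.negSucc 136,.ofNat 6,.negSucc 14],[.negSucc 114,.ofNat 63,.ofNat 31,.ofNat 18,.ofNat 3],[.ofNat 55,.negSucc 39,.negSucc 8,.negSucc 5],[.negSucc 8,.ofNat 6,.ofNat 3]]]⟩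
theorem c276 : chkE [e238,e257,e129,e90,e84,e265,e266,e267,e177,e268,e269,e184,e270,e271,e272,e273,e275] e276 true [(0,2),(0,3),(2,3),(2,4)] 1 4 5 (0,[]) [(1,[]),(2,[]),(3,[]),(4,[]),(5,[]),(6,[]),(7,[(2,3),(2,4)]),(8,[(2,3),(2,4)]),(9,[]),(6,[]),(10,[]),(11,[]),(12,[(3,4)]),(13,[]),(14,[(2,3),(2,5),(2,6)]),(15,[(3,4),(5,6)]),(16,[(2,4),(3,5),(3,6)])] = true := by decide +kernel
theorem k276 (h : Hy) : e276.ok := h.step (fac (k238 h) (fac (k257 h) (fac (k129 h) (fac (k90 h) (fac (k84 h) (fac (k265 h) (fac (k266 h) (fac (k267 h) (fac (k177 h) (fac (k268 h) (fac (k269 h) (fac (k184 h) (fac (k270 h) (fac (k271 h) (fac (k272 h) (fac (k273 h) (fac (k275 h) fan))))))))))))))))) c276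

def e277 : Ent := ⟨2,[(0,2),(0,5),(1,3),(1,4),(2,3),(2,4)],[[[.ofNat 2,.negSucc 3,.ofNat 2],[.negSucc 6,.ofNat 14,.negSucc 6],[.ofNat 9,.negSucc 17,.ofNat 9],[.negSucc 4,.ofNat 10,.negSucc 4],[.ofNat 1,.negSucc 1,.ofNat 1]],[[.ofNat 16,.negSucc 39,.ofNat 32,.negSucc 7],[.negSucc 45,.ofNat 120,.negSucc 101,.ofNat 28],[.ofNat 37,.negSucc 109,.ofNat 109,.negSucc 35],[.ofNat 5,.ofNat 10,.negSucc 34,.ofNat 20],[.negSucc 16,.ofNat 30,.negSucc 8,.negSucc 3],[.ofNat 5,.negSucc 9,.ofNat 5]]]⟩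
theorem c277 : chkE [e85] e277 false [(0,2),(1,3),(1,4),(2,3),(2,4)] 0 0 5 (0,[]) [(5,[]),(5,[]),(5,[])] = true := by decide +kernel
theorem k277 (h : Hy) : e277.ok := h.step (fac (k85 h) fan) c277

def e278 : Ent := ⟨2,[(0,2),(1,3),(1,4),(1,5),(2,3),(2,4)],[[[.ofNat 4,.negSucc 5,.ofNat 2],[.negSucc 13,.ofNat 21,.negSucc 6],[.ofNat 18,.negSucc 26,.ofNat 9],[.negSucc 9,.ofNat 15,.negSucc 4],[.ofNat 2,.negSucc 2,.ofNat 1]],[[.ofNat 24,.negSucc 51,.ofNat 36,.negSucc 7],[.negSucc 59,.ofNat 146,.negSucc 113,.ofNat 28],[.ofNat 24,.negSucc 107,.ofNat 120,.negSucc 35],[.ofNat 48,.negSucc 31,.negSucc 35,.ofNat 20],[.negSucc 47,.ofNat 64,.negSucc 11,.negSucc 3],[.ofNat 12,.negSucc 17,.ofNat 6]]]⟩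
theorem c278 : chkE [e85] e278 false [(0,2),(1,3),(1,4),(2,3),(2,4)] 0 1 5 (0,[]) [(5,[]),(5,[])] = true := by decide +kernel
theorem k278 (h : Hy) : e278.ok := h.step (fac (k85 h) fan) c278

def e279 : Ent := ⟨2,[(0,2),(1,3),(1,4),(2,3),(2,4),(2,5)],[[[.ofNat 6,.negSucc 5],[.negSucc 22,.ofNat 23],[.ofNat 34,.negSucc 33],[.negSucc 23,.ofNat 24],[.ofNat 8,.negSucc 7],[.negSucc 0,.ofNat 1]],[[.ofNat 24,.negSucc 47,.ofNat 24],[.negSucc 49,.ofNat 142,.negSucc 91],[.negSucc 24,.negSucc 110,.ofNat 136],[.ofNat 142,.negSucc 45,.negSucc 95],[.negSucc 135,.ofNat 104,.ofNat 32],[.ofNat 52,.negSucc 47,.negSucc 3],[.negSucc 6,.ofNat 7]]]⟩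
theorem c279 : chkE [e85] e279 false [(0,2),(1,3),(1,4),(2,3),(2,4)] 0 2 5 (0,[]) [(5,[])] = true := by decide +kernel
theorem k279 (h : Hy) : e279.ok := h.step (fac (k85 h) fan) c279

def e280 : Ent := ⟨2,[(0,2),(0,4),(1,3),(2,3),(2,5),(3,4)],[[[.ofNat 4,.negSucc 3],[.negSucc 15,.ofNat 16],[.ofNat 25,.negSucc 24],[.negSucc 18,.ofNat 19],[.ofNat 7,.negSucc 6],[.negSucc 0,.ofNat 1]],[[.ofNat 20,.negSucc 35,.ofNat 16],[.negSucc 55,.ofNat 120,.negSucc 63],[.ofNat 29,.negSucc 128,.ofNat 100],[.ofNat 55,.ofNat 21,.negSucc 75],[.negSucc 78,.ofNat 51,.ofNat 28],[.ofNat 37,.negSucc 32,.negSucc 3],[.negSucc 5,.ofNat 6]]]⟩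
theorem c280 : chkE [e85] e280 false [(0,2),(0,4),(1,3),(2,3),(3,4)] 0 2 5 (0,[(0,1),(2,3)]) [(5,[]),(5,[])] = true := by decide +kernel
theorem k280 (h : Hy) : e280.ok := h.step (fac (k85 h) fan) c280

def e281 : Ent := ⟨2,[(0,2),(0,3),(1,4),(1,5),(2,4),(2,5),(3,6)],[[[.negSucc 1,.ofNat 4,.negSucc 1],[.ofNat 9,.negSucc 17,.ofNat 9],[.negSucc 15,.ofNat 32,.negSucc 15],[.ofNat 14,.negSucc 27,.ofNat 14],[.negSucc 5,.ofNat 12,.negSucc 5],[.ofNat 1,.negSucc 1,.ofNat 1]],[[.negSucc 33,.ofNat 78,.negSucc 53,.ofNat 10],[.ofNat 141,.negSucc 326,.ofNat 231,.negSucc 44],[.negSucc 217,.ofNat 516,.negSucc 377,.ofNat 80],[.ofNat 142,.negSucc 353,.ofNat 282,.negSucc 69],[.negSucc 17,.ofNat 66,.negSucc 77,.ofNat 30],[.negSucc 18,.ofNat 33,.negSucc 8,.negSucc 4],[.ofNat 6,.negSucc 11,.ofNat 6]]]⟩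
theorem c281 : chkE [e277] e281 false [(0,2),(0,3),(1,4),(1,5),(2,4),(2,5)] 0 3 6 (0,[(3,5),(4,3)]) [(6,[]),(6,[]),(6,[]),(6,[])] = true := by decide +kernel
theorem k281 (h : Hy) : e281.ok := h.step (fac (k277 h) fan) c281

def e282 : Ent := ⟨2,[(0,3),(1,4),(1,5),(2,3),(2,6),(3,4),(3,5)],[[[.negSucc 5,.ofNat 6],[.ofNat 29,.negSucc 28],[.negSucc 56,.ofNat 57],[.ofNat 58,.negSucc 57],[.negSucc 31,.ofNat 32],[.ofNat 9,.negSucc 8],[.negSucc 0,.ofNat 1]],[[.negSucc 65,.ofNat 102,.negSucc 35],[.ofNat 265,.negSucc 438,.ofNat 174],[.negSucc 365,.ofNat 708,.negSucc 341],[.ofNat 125,.negSucc 472,.ofNat 348],[.ofNat 170,.ofNat 22,.negSucc 191],[.negSucc 188,.ofNat 135,.ofNat 54],[.ofNat 70,.negSucc 63,.negSucc 5],[.negSucc 8,.ofNat 9]]]⟩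
theorem c282 : chkE [e279] e282 false [(0,3),(1,4),(1,5),(2,3),(3,4),(3,5)] 0 2 6 (0,[(2,5),(3,2),(4,3)]) [(6,[]),(6,[]),(6,[]),(6,[])] = true := by decide +kernel
theorem k282 (h : Hy) : e282.ok := h.step (fac (k279 h) fan) c282

def e283 : Ent := ⟨2,[(0,2),(0,6),(1,3),(1,4),(2,3),(2,4),(2,5)],[[[.negSucc 5,.ofNat 12,.negSucc 5],[.ofNat 23,.negSucc 45,.ofNat 23],[.negSucc 33,.ofNat 68,.negSucc 33],[.ofNat 24,.negSucc 47,.ofNat 24],[.negSucc 7,.ofNat 16,.negSucc 7],[.ofNat 1,.negSucc 1,.ofNat 1]],[[.negSucc 65,.ofNat 162,.negSucc 125,.ofNat 30],[.ofNat 205,.negSucc 524,.ofNat 435,.negSucc 114],[.negSucc 189,.ofNat 550,.negSucc 529,.ofNat 170],[.negSucc 7,.negSucc 103,.ofNat 232,.negSucc 119],[.ofNat 104,.negSucc 167,.ofNat 24,.ofNat 40],[.negSucc 52,.ofNat 101,.negSucc 42,.negSucc 4],[.ofNat 8,.negSucc 15,.ofNat 8]]]⟩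
theorem c283 : chkE [e279] e283 false [(0,2),(1,3),(1,4),(2,3),(2,4),(2,5)] 0 0 6 (0,[]) [(6,[]),(6,[]),(6,[]),(6,[])] = true := by decide +kernel
theorem k283 (h : Hy) : e283.ok := h.step (fac (k279 h) fan) c283

def e284 : Ent := ⟨2,[(0,4),(0,5),(2,3),(2,6),(3,4),(3,5)],[[[.ofNat 2,.negSucc 1],[.negSucc 8,.ofNat 9],[.ofNat 16,.negSucc 15],[.negSucc 13,.ofNat 14],[.ofNat 6,.negSucc 5],[.negSucc 0,.ofNat 1]],[[.ofNat 16,.negSucc 31,.ofNat 16],[.negSucc 53,.ofNat 126,.negSucc 71],[.ofNat 47,.negSucc 174,.ofNat 128],[.ofNat 32,.ofNat 80,.negSucc 111],[.negSucc 77,.ofNat 30,.ofNat 48],[.ofNat 46,.negSucc 37,.negSucc 7],[.negSucc 8,.ofNat 9]]]⟩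
theorem c284 : chkE [e145] e284 false [(0,4),(0,5),(2,3),(3,4),(3,5)] 0 2 6 (0,[(2,5),(3,2),(4,3)]) [(6,[]),(6,[]),(6,[]),(6,[])] = true := by decide +kernel
theorem k284 (h : Hy) : e284.ok := h.step (fac (k145 h) fan) c284

def e285 : Ent := ⟨2,[(0,4),(0,5),(1,6),(2,3),(2,6),(3,4),(3,5)],[[[.negSucc 1,.ofNat 2],[.ofNat 11,.negSucc 10],[.negSucc 24,.ofNat 25],[.ofNat 30,.negSucc 29],[.negSucc 19,.ofNat 20],[.ofNat 7,.negSucc 6],[.negSucc 0,.ofNat 1]],[[.negSucc 33,.ofNat 50,.negSucc 15],[.ofNat 169,.negSucc 256,.ofNat 88],[.negSucc 325,.ofNat 526,.negSucc 199],[.ofNat 285,.negSucc 524,.ofNat 240],[.negSucc 69,.ofNat 230,.negSucc 159],[.negSucc 60,.ofNat 5,.ofNat 56],[.ofNat 46,.negSucc 37,.negSucc 7],[.negSucc 8,.ofNat 9]]]⟩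
theorem c285 : chkE [e284] e285 true [(0,4),(0,5),(2,3),(2,6),(3,4),(3,5)] 1 6 7 (0,[]) [(7,[]),(7,[]),(7,[]),(7,[]),(7,[]),(7,[]),(8,[]),(8,[]),(8,[]),(8,[]),(8,[]),(8,[]),(8,[]),(8,[]),(8,[]),(8,[]),(8,[]),(8,[]),(8,[]),(9,[]),(9,[]),(9,[]),(9,[])] = true := by decide +kernel
theorem k285 (h : Hy) : e285.ok := h.step (fac (k284 h) fan) c285

def e286 : Ent := ⟨3,[(0,2),(1,3),(1,4),(2,3),(2,4)],[[[.negSucc 1,.ofNat 2],[.ofNat 7,.negSucc 6],[.negSucc 8,.ofNat 9],[.ofNat 5,.negSucc 4],[.negSucc 0,.ofNat 1]],[[.negSucc 3,.ofNat 10,.negSucc 5],[.ofNat 6,.negSucc 26,.ofNat 21],[.ofNat 10,.ofNat 17,.negSucc 26],[.negSucc 25,.ofNat 11,.ofNat 15],[.ofNat 18,.negSucc 14,.negSucc 2],[.negSucc 3,.ofNat 4]],[[.ofNat 60,.negSucc 117,.ofNat 76,.negSucc 23,.ofNat 6],[.negSucc 203,.ofNat 409,.negSucc 255,.ofNat 72,.negSucc 20],[.ofNat 231,.negSucc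 504,.ofNat 313,.negSucc 65,.ofNat 27],[.negSucc 59,.ofNat 235,.negSucc 165,.ofNat 6,.negSucc 14],[.negSucc 65,.ofNat 5,.ofNat 40,.ofNat 18,.ofNat 3],[.ofNat 48,.negSucc 31,.negSucc 9,.negSucc 5],[.negSucc 8,.ofNat 6,.ofNat 3]]]⟩
theorem c286 : chkE [e151,e152,e85,e128,e277,e265,e176,e278,e279,e280,e281,e282,e283,e285] e286 true [(1,3),(1,4),(2,3),(2,4)] 0 2 5 (0,[(0,1)]) [(1,[(0,1)]),(2,[]),(3,[(0,1),(3,4)]),(3,[(0,1)]),(4,[]),(5,[(0,1)]),(6,[(0,1)]),(4,[]),(7,[]),(8,[]),(9,[(0,1),(2,3)]),(9,[(0,1),(2,3),(2,4)]),(10,[(3,4),(3,5)]),(11,[(2,3),(2,4),(2,5),(2,6)]),(12,[(5,6)]),(13,[(0,1),(2,3),(2,4),(2,5),(2,6)])] = true := by decide +kernel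
theorem k286 (h : Hy) : e286.ok := h.step (fac (k151 h) (fac (k152 h) (fac (k85 h) (fac (k128 h) (fac (k277 h) (fac (k265 h) (fac (k176 h) (fac (k278 h) (fac (k279 h) (fac (k280 h) (fac (k281 h) (fac (k282 h) (fac (k283 h) (fac (k285 h) fan)))))))))))))) c286

def e287 : Ent := ⟨4,[(0,2),(0,3),(1,4),(2,4),(3,5)],[[[.ofNat 1,.negSucc 0],[.negSucc 2,.ofNat 3],[.ofNat 3,.negSucc 2],[.negSucc 0,.ofNat 1]],[[.ofNat 9,.negSucc 12,.ofNat 4],[.negSucc 23,.ofNat 36,.negSucc 11],[.ofNat 18,.negSucc 29,.ofNat 12],[.ofNat 0,.ofNat 4,.negSucc 3],[.negSucc 2,.ofNat 3]],[[.ofNat 2,.negSucc 12,.ofNat 8,.ofNat 6,.negSucc 2],[.ofNat 45,.negSucc 19,.negSucc 21,.negSucc 11,.ofNat 9],[.negSucc 143,.ofNat 138,.ofNat 15,.ofNat 0,.negSucc 8],[.ofNat 142,.negSucc 163,.ofNat 7,.ofNat 12,.ofNat 3],[.negSucc 41,.ofNat 59,.negSucc 10,.negSucc 5],[.negSucc 2,.ofNat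 0,.ofNat 3]],[[.negSucc 92,.ofNat 246,.negSucc 235,.ofNat 117,.negSucc 35,.negSucc 0,.ofNat 3],[.ofNat 262,.negSucc 752,.ofNat 678,.negSucc 282,.ofNat 114,.negSucc 8,.negSucc 8],[.negSucc 12,.ofNat 572,.negSucc 626,.ofNat 137,.negSucc 110,.ofNat 33,.ofNat 9],[.negSucc 610,.ofNat 350,.ofNat 179,.ofNat 111,.ofNat 9,.negSucc 34,.negSucc 2],[.ofNat 687,.negSucc 642,.negSucc 14,.negSucc 79,.ofNat 39,.ofNat 12],[.negSucc 241,.ofNat 238,.ofNat 27,.negSucc 7,.negSucc 14],[.ofNat 11,.negSucc 10,.negSucc 5,.ofNat 6],[.negSucc 0,.ofNat 1]]]⟩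
theorem c287 : chkE [e236,e226,e276,e286] e287 false [(0,2),(0,3),(1,4),(2,4)] 0 3 5 (0,[(3,4)]) [(1,[(3,4)]),(2,[]),(3,[(0,1),(2,3),(2,4)])] = true := by decide +kernel
theorem k287 (h : Hy) : e287.ok := h.step (fac (k236 h) (fac (k226 h) (fac (k276 h) (fac (k286 h) fan)))) c287

def e288 : Ent := ⟨2,[(0,3),(0,5),(1,4),(2,3),(2,4),(3,4)],[[[.ofNat 4,.negSucc 3],[.negSucc 15,.ofNat 16],[.ofNat 25,.negSucc 24],[.negSucc 18,.ofNat 19],[.ofNat 7,.negSucc 6],[.negSucc 0,.ofNat 1]],[[.ofNat 16,.negSucc 35,.ofNat 20],[.negSucc 35,.ofNat 116,.negSucc 79],[.negSucc 11,.negSucc 112,.ofNat 125],[.ofNat 99,.negSucc 3,.negSucc 94],[.negSucc 104,.ofNat 70,.ofNat 35],[.ofNat 45,.negSucc 39,.negSucc 4],[.negSucc 6,.ofNat 7]]]⟩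
theorem c288 : chkE [e87] e288 false [(0,3),(1,4),(2,3),(2,4),(3,4)] 0 0 5 (0,[]) [(5,[]),(5,[]),(5,[])] = true := by decide +kernel
theorem k288 (h : Hy) : e288.ok := h.step (fac (k87 h) fan) c288

def e289 : Ent := ⟨2,[(0,3),(1,4),(2,3),(2,4),(2,5),(3,4)],[[[.ofNat 8],[.negSucc 35],[.ofNat 66],[.negSucc 62],[.ofNat 33],[.negSucc 8],[.ofNat 1]],[[.ofNat 0,.negSucc 47],[.ofNat 72,.ofNat 216],[.negSucc 323,.negSucc 395],[.ofNat 594,.ofNat 378],[.negSucc 566,.negSucc 197],[.ofNat 297,.ofNat 54],[.negSucc 80,.negSucc 5],[.ofNat 9]]]⟩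
theorem c289 : chkE [e87] e289 false [(0,3),(1,4),(2,3),(2,4),(3,4)] 0 2 5 (0,[]) [(5,[]),(5,[])] = true := by decide +kernel
theorem k289 (h : Hy) : e289.ok := h.step (fac (k87 h) fan) c289

def e290 : Ent := ⟨2,[(0,3),(1,4),(2,3),(2,4),(3,4),(3,5)],[[[.ofNat 12],[.negSucc 51],[.ofNat 91],[.negSucc 81],[.ofNat 40],[.negSucc 9],[.ofNat 1]],[[.negSucc 11,.negSucc 59],[.ofNat 160,.ofNat 260],[.negSucc 558,.negSucc 454],[.ofNat 901,.ofNat 410],[.negSucc 777,.negSucc 199],[.ofNat 370,.ofNat 50],[.negSucc 90,.negSucc 4],[.ofNat 9]]]⟩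
theorem c290 : chkE [e87] e290 false [(0,3),(1,4),(2,3),(2,4),(3,4)] 0 3 5 (0,[]) [(5,[])] = true := by decide +kernel
theorem k290 (h : Hy) : e290.ok := h.step (fac (k87 h) fan) c290

def e291 : Ent := ⟨2,[(0,3),(0,5),(1,4),(2,3),(2,4),(3,4),(5,6)],[[[.negSucc 3,.ofNat 4],[.ofNat 20,.negSucc 19],[.negSucc 40,.ofNat 41],[.ofNat 44,.negSucc 43],[.negSucc 25,.ofNat 26],[.ofNat 8,.negSucc 7],[.negSucc 0,.ofNat 1]],[[.negSucc 51,.ofNat 76,.negSucc 23],[.ofNat 228,.negSucc 347,.ofNat 120],[.negSucc 372,.ofNat 619,.negSucc 245],[.ofNat 244,.negSucc 507,.ofNat 264],[.ofNat 14,.ofNat 142,.negSucc 155],[.negSucc 103,.ofNat 56,.ofNat 48],[.ofNat 51,.negSucc 44,.negSucc 5],[.negSucc 7,.ofNat 8]]]⟩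
theorem c291 : chkE [e288] e291 false [(0,3),(0,5),(1,4),(2,3),(2,4),(3,4)] 0 5 6 (0,[]) [(6,[]),(6,[]),(6,[]),(6,[])] = true := by decide +kernel
theorem k291 (h : Hy) : e291.ok := h.step (fac (k288 h) fan) c291

def e292 : Ent := ⟨2,[(0,4),(1,5),(2,4),(2,5),(3,4),(3,6),(4,5)],[[[.negSucc 11],[.ofNat 64],[.negSucc 142],[.ofNat 173],[.negSucc 121],[.ofNat 50],[.negSucc 10],[.ofNat 1]],[[.negSucc 71,.ofNat 84],[.ofNat 252,.negSucc 447],[.negSucc 153,.ofNat 1001],[.negSucc 534,.negSucc 1210],[.ofNat 1171,.ofNat 854],[.negSucc 1041,.negSucc 349],[.ofNat 484,.ofNat 77],[.negSucc 114,.negSucc 6],[.ofNat 11]]]⟩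
theorem c292 : chkE [e290] e292 false [(0,4),(1,5),(2,4),(2,5),(3,4),(4,5)] 0 3 6 (0,[(3,5),(4,3)]) [(6,[]),(6,[]),(6,[]),(6,[])] = true := by decide +kernel
theorem k292 (h : Hy) : e292.ok := h.step (fac (k290 h) fan) c292

def e293 : Ent := ⟨2,[(0,3),(0,6),(1,4),(2,3),(2,4),(3,4),(3,5)],[[[.negSucc 11,.ofNat 12],[.ofNat 52,.negSucc 51],[.negSucc 90,.ofNat 91],[.ofNat 82,.negSucc 81],[.negSucc 39,.ofNat 40],[.ofNat 10,.negSucc 9],[.negSucc 0,.ofNat 1]],[[.negSucc 71,.ofNat 144,.negSucc 71],[.ofNat 192,.negSucc 503,.ofNat 312],[.negSucc 25,.ofNat 572,.negSucc 545],[.negSucc 417,.negSucc 73,.ofNat 492],[.ofNat 580,.negSucc 339,.negSucc 239],[.negSucc 339,.ofNat 280,.ofNat 60],[.ofNat 94,.negSucc 87,.negSucc 5],[.negSucc 9,.ofNat 10]]]⟩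
theorem c293 : chkE [e290] e293 false [(0,3),(1,4),(2,3),(2,4),(3,4),(3,5)] 0 0 6 (0,[]) [(6,[]),(6,[]),(6,[]),(6,[])] = true := by decide +kernel
theorem k293 (h : Hy) : e293.ok := h.step (fac (k290 h) fan) c293

def e294 : Ent := ⟨2,[(0,5),(2,4),(2,5),(3,4),(3,6),(4,5)],[[[.ofNat 4],[.negSucc 19],[.ofNat 41],[.negSucc 43],[.ofNat 26],[.negSucc 7],[.ofNat 1]],[[.ofNat 16,.negSucc 35],[.negSucc 35,.ofNat 180],[.negSucc 55,.negSucc 368],[.ofNat 275,.ofNat 396],[.negSucc 379,.negSucc 233],[.ofNat 254,.ofNat 72],[.negSucc 83,.negSucc 8],[.ofNat 11]]]⟩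
theorem c294 : chkE [e163] e294 false [(0,5),(2,4),(2,5),(3,4),(4,5)] 0 3 6 (0,[(3,5),(4,3)]) [(6,[]),(6,[]),(6,[]),(6,[])] = true := by decide +kernel
theorem k294 (h : Hy) : e294.ok := h.step (fac (k163 h) fan) c294

def e295 : Ent := ⟨2,[(0,5),(1,6),(2,4),(2,5),(3,4),(3,6),(4,5)],[[[.negSucc 3],[.ofNat 24],[.negSucc 60],[.ofNat 85],[.negSucc 69],[.ofNat 34],[.negSucc 8],[.ofNat 1]],[[.negSucc 51,.ofNat 36],[.ofNat 268,.negSucc 215],[.negSucc 528,.ofNat 549],[.ofNat 434,.negSucc 764],[.ofNat 25,.ofNat 630],[.negSucc 327,.negSucc 305],[.ofNat 257,.ofNat 81],[.negSucc 85,.negSucc 8],[.ofNat 11]]]⟩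
theorem c295 : chkE [e294] e295 true [(0,5),(2,4),(2,5),(3,4),(3,6),(4,5)] 1 6 7 (0,[]) [(7,[]),(7,[]),(7,[]),(7,[]),(7,[]),(7,[]),(8,[]),(8,[]),(8,[]),(8,[]),(8,[]),(8,[]),(8,[]),(8,[]),(8,[]),(8,[]),(8,[]),(8,[]),(8,[]),(9,[]),(9,[]),(9,[]),(9,[])] = true := by decide +kernel
theorem k295 (h : Hy) : e295.ok := h.step (fac (k294 h) fan) c295

def e296 : Ent := ⟨3,[(0,3),(1,4),(2,3),(2,4),(3,4)],[[[.negSucc 3],[.ofNat 16],[.negSucc 24],[.ofNat 19],[.negSucc 6],[.ofNat 1]],[[.ofNat 8,.ofNat 16],[.negSucc 55,.negSucc 63],[.ofNat 146,.ofNat 100],[.negSucc 187,.negSucc 75],[.ofNat 128,.ofNat 28],[.negSucc 43,.negSucc 3],[.ofNat 6]],[[.negSucc 31,.negSucc 167,.ofNat 20,.negSucc 7],[.ofNat 328,.ofNat 736,.negSucc 63,.ofNat 32],[.negSucc 1103,.negSucc 1313,.ofNat 61,.negSucc 49],[.ofNat 1818,.ofNat 1230,.ofNat 5,.ofNat 38],[.negSucc 1655,.negSucc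 647,.negSucc 40,.negSucc 13],[.ofNat 852,.ofNat 192,.ofNat 23,.ofNat 2],[.negSucc 231,.negSucc 29,.negSucc 3],[.ofNat 26,.ofNat 2]]]⟩
theorem c296 : chkE [e169,e170,e87,e172,e288,e267,e180,e289,e290,e291,e292,e293,e295] e296 true [(1,4),(2,3),(2,4),(3,4)] 0 3 5 (0,[(0,1)]) [(1,[(0,1)]),(2,[(2,3)]),(2,[]),(3,[]),(4,[]),(5,[(0,1)]),(6,[(0,1)]),(4,[]),(4,[(0,1),(3,4)]),(7,[]),(8,[]),(8,[(0,1),(3,4)]),(9,[]),(10,[(3,4),(3,5),(3,6)]),(11,[(5,6)]),(12,[(0,1),(3,4),(3,5),(3,6)])] = true := by decide +kernel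
theorem k296 (h : Hy) : e296.ok := h.step (fac (k169 h) (fac (k170 h) (fac (k87 h) (fac (k172 h) (fac (k288 h) (fac (k267 h) (fac (k180 h) (fac (k289 h) (fac (k290 h) (fac (k291 h) (fac (k292 h) (fac (k293 h) (fac (k295 h) fan))))))))))))) c296

def e297 : Ent := ⟨4,[(0,3),(1,4),(2,3),(2,5),(3,4)],[[[.ofNat 2],[.negSucc 6],[.ofNat 9],[.negSucc 4],[.ofNat 1]],[[.ofNat 12,.negSucc 9],[.negSucc 31,.ofNat 35],[.ofNat 19,.negSucc 44],[.ofNat 15,.ofNat 25],[.negSucc 18,.negSucc 4],[.ofNat 5]],[[.negSucc 13,.negSucc 11,.ofNat 4,.ofNat 4],[.ofNat 131,.negSucc 1,.negSucc 21,.negSucc 13],[.negSucc 319,.ofNat 104,.ofNat 46,.ofNat 18],[.ofNat 299,.negSucc 181,.negSucc 45,.negSucc 9],[.negSucc 76,.ofNat 122,.ofNat 22,.ofNat 2],[.negSucc 33,.negSucc 31,.negSucc 3],[.ofNat 15,.ofNat 2]],[[.ofNat 4,.ofNat 242,.negSucc 141,.ofNat 72,.negSucc 15,.negSucc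 3],[.negSucc 319,.negSucc 866,.ofNat 395,.negSucc 205,.ofNat 72,.ofNat 14],[.ofNat 1537,.ofNat 1079,.negSucc 325,.ofNat 143,.negSucc 127,.negSucc 17],[.negSucc 2902,.negSucc 400,.ofNat 58,.ofNat 97,.ofNat 112,.ofNat 10],[.ofNat 2601,.negSucc 237,.negSucc 41,.negSucc 168,.negSucc 47,.negSucc 1],[.negSucc 1038,.ofNat 253,.ofNat 95,.ofNat 73,.ofNat 8],[.ofNat 94,.negSucc 74,.negSucc 41,.negSucc 9],[.ofNat 26,.ofNat 7,.ofNat 4]]]⟩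
theorem c297 : chkE [e264,e276,e286,e296] e297 false [(0,3),(1,4),(2,3),(3,4)] 0 2 5 (0,[(2,4),(3,2)]) [(1,[(2,3)]),(2,[(2,3)]),(3,[])] = true := by decide +kernel
theorem k297 (h : Hy) : e297.ok := h.step (fac (k264 h) (fac (k276 h) (fac (k286 h) (fac (k296 h) fan)))) c297

def e298 : Ent := ⟨3,[(0,1),(0,2),(1,3),(2,3),(2,4)],[[[.negSucc 1,.ofNat 4,.negSucc 1],[.ofNat 5,.negSucc 9,.ofNat 5],[.negSucc 3,.ofNat 8,.negSucc 3],[.ofNat 1,.negSucc 1,.ofNat 1]],[[.negSucc 3,.ofNat 10,.negSucc 5,.negSucc 1,.ofNat 2],[.ofNat 6,.negSucc 20,.ofNat 19,.ofNat 1,.negSucc 4],[.ofNat 4,.ofNat 6,.negSucc 19,.ofNat 6,.ofNat 4],[.negSucc 10,.ofNat 13,.ofNat 6,.negSucc 6,.negSucc 0],[.ofNat 6,.negSucc 9,.ofNat 2,.ofNat 2],[.negSucc 0,.ofNat 2,.negSucc 0]],[[.ofNat 60,.negSucc 175,.ofNat 186,.negSucc 85,.ofNat 16,.ofNat 2,.negSucc 1],[.negSucc 145,.ofNat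 428,.negSucc 446,.ofNat 207,.negSucc 49,.ofNat 3,.ofNat 5],[.ofNat 102,.negSucc 311,.ofNat 321,.negSucc 137,.ofNat 47,.negSucc 15,.negSucc 3],[.ofNat 0,.ofNat 39,.negSucc 47,.negSucc 3,.negSucc 2,.ofNat 15,.ofNat 1],[.negSucc 22,.ofNat 26,.negSucc 5,.ofNat 22,.negSucc 14,.negSucc 3],[.ofNat 8,.negSucc 4,.negSucc 8,.ofNat 1,.ofNat 5],[.negSucc 0,.ofNat 0,.ofNat 3,.negSucc 1]]]⟩
theorem c298 : chkE [e235,e212] e298 false [(0,1),(0,2),(1,3),(2,3)] 0 2 4 (0,[]) [(1,[(0,1),(2,3)])] = true := by decide +kernel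
theorem k298 (h : Hy) : e298.ok := h.step (fac (k235 h) (fac (k212 h) fan)) c298

def e299 : Ent := ⟨2,[(0,2),(0,3),(1,2),(1,3),(2,3)],[[[.ofNat 4,.negSucc 7,.ofNat 4],[.negSucc 11,.ofNat 24,.negSucc 11],[.ofNat 13,.negSucc 25,.ofNat 13],[.negSucc 5,.ofNat 12,.negSucc 5],[.ofNat 1,.negSucc 1,.ofNat 1]],[[.negSucc 31,.ofNat 72,.negSucc 47,.ofNat 8],[.ofNat 100,.negSucc 223,.ofNat 148,.negSucc 23],[.negSucc 115,.ofNat 258,.negSucc 167,.ofNat 26],[.ofNat 61,.negSucc 133,.ofNat 85,.negSucc 11],[.negSucc 13,.ofNat 30,.negSucc 17,.ofNat 2],[.ofNat 1,.negSucc 1,.ofNat 1]]]⟩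
theorem c299 : chkE [e134] e299 true [(0,3),(1,2),(1,3),(2,3)] 0 2 4 (0,[(0,1)]) [(4,[]),(4,[]),(5,[]),(5,[]),(5,[]),(5,[]),(5,[]),(5,[]),(6,[]),(6,[]),(6,[]),(6,[])] = true := by decide +kernel
theorem k299 (h : Hy) : e299.ok := h.step (fac (k134 h) fan) c299

def e300 : Ent := ⟨3,[(0,2),(0,3),(1,3),(2,3),(2,4)],[[[.negSucc 3,.ofNat 4],[.ofNat 12,.negSucc 11],[.negSucc 12,.ofNat 13],[.ofNat 6,.negSucc 5],[.negSucc 0,.ofNat 1]],[[.ofNat 8,.negSucc 3,.negSucc 3],[.negSucc 35,.ofNat 24,.ofNat 12],[.ofNat 62,.negSucc 48,.negSucc 12],[.negSucc 50,.ofNat 45,.ofNat 6],[.ofNat 20,.negSucc 18,.negSucc 0],[.negSucc 2,.ofNat 3]],[[.negSucc 31,.negSucc 19,.ofNat 88,.negSucc 47,.ofNat 12],[.ofNat 180,.negSucc 67,.negSucc 191,.ofNat 116,.negSucc 35],[.negSucc 367,.ofNat 311,.ofNat 90,.negSucc 71,.ofNat 39],[.ofNat 361,.negSucc 365,.ofNat 42,.negSucc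 18,.negSucc 17],[.negSucc 184,.ofNat 173,.negSucc 20,.ofNat 30,.ofNat 3],[.ofNat 52,.negSucc 32,.negSucc 11,.negSucc 6],[.negSucc 8,.ofNat 4,.ofNat 5],[.ofNat 1,.negSucc 0]]]⟩
theorem c300 : chkE [e134,e299] e300 false [(0,2),(0,3),(1,3),(2,3)] 0 2 4 (0,[]) [(1,[])] = true := by decide +kernel
theorem k300 (h : Hy) : e300.ok := h.step (fac (k134 h) (fac (k299 h) fan)) c300

end Pool.Agent.RGA.CT
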