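import Pool.Agent.RGA.Cert11

set_option autoImplicit false

namespace Pool.Agent.RGA.CT

def e301 : Ent := ⟨4,[(0,2),(0,5),(1,3),(2,3),(2,4)],[[[.ofNat 2,.negSucc 1],[.negSucc 4,.ofNat 5],[.ofNat 4,.negSucc 3],[.negSucc 0,.ofNat 1]],[[.ofNat 12,.negSucc 19,.ofNat 8],[.negSucc 21,.ofNat 42,.negSucc 19],[.ofNat 4,.negSucc 19,.ofNat 16],[.ofNat 10,.negSucc 5,.negSucc 3],[.negSucc 3,.ofNat 4]],[[.negSucc 13,.ofNat 20,.negSucc 13,.ofNat 14,.negSucc 5],[.ofNat 99,.negSucc 135,.ofNat 45,.negSucc 22,.ofNat 15],[.negSucc 167,.ofNat 241,.negSucc 58,.negSucc 1,.negSucc 11],[.ofNat 85,.negSucc 146,.ofNat 42,.ofNat 17,.ofNat 3],[.ofNat 8,.ofNat 15,.negSucc 16,.negSucc 5],[.negSucc 9,.ofNat 7,.ofNat 3]],[[.ofNat 4,.ofNat 88,.negSucc 193,.ofNat 152,.negSucc 53,.negSucc 1,.ofNat 6],[.negSucc 165,.ofNat 70,.ofNat 227,.negSucc 237,.ofNat 141,.negSucc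 18,.negSucc 14],[.ofNat 652,.negSucc 830,.ofNat 263,.negSucc 58,.negSucc 92,.ofNat 56,.ofNat 12],[.negSucc 904,.ofNat 1203,.negSucc 427,.ofNat 216,.negSucc 35,.negSucc 46,.negSucc 2],[.ofNat 478,.negSucc 615,.ofNat 126,.negSucc 56,.ofNat 57,.ofNat 12],[.negSucc 43,.ofNat 70,.ofNat 9,.negSucc 19,.negSucc 14],[.negSucc 17,.ofNat 15,.negSucc 2,.ofNat 6],[.negSucc 0,.ofNat 1]]]⟩
theorem c301 : chkE [e264,e298,e300,e276] e301 false [(0,2),(1,3),(2,3),(2,4)] 0 0 5 (0,[]) [(1,[]),(2,[]),(3,[(3,4)])] = true := by decide +kernel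
theorem k301 (h : Hy) : e301.ok := h.step (fac (k264 h) (fac (k298 h) (fac (k300 h) (fac (k276 h) fan)))) c301

def e302 : Ent := ⟨4,[(0,4),(2,3),(2,4),(3,5)],[[[.negSucc 0],[.ofNat 3],[.negSucc 2],[.ofNat 1]],[[.negSucc 3,.ofNat 6],[.ofNat 7,.negSucc 17],[.ofNat 3,.ofNat 18],[.negSucc 10,.negSucc 5],[.ofNat 5]],[[.ofNat 9,.ofNat 18,.negSucc 11,.negSucc 0],[.negSucc 61,.negSucc 22,.ofNat 38,.ofNat 3],[.ofNat 116,.negSucc 39,.negSucc 41,.negSucc 2],[.negSucc 65,.ofNat 78,.ofNat 18,.ofNat 1],[.negSucc 12,.negSucc 33,.negSucc 1],[.ofNat 16,.ofNat 1]],[[.negSucc 33,.negSucc 73,.ofNat 16,.negSucc 12,.ofNat 10,.ofNat 1],[.ofNat 249,.ofNat 360,.negSucc 87,.ofNat 15,.negSucc 33,.negSucc 2],[.negSucc 764,.negSucc 532,.ofNat 186,.ofNat 38,.ofNat 42,.ofNat 3],[.ofNat 1105,.ofNat 175,.negSucc 191,.negSucc 73,.negSucc 21,.negSucc 0],[.negSucc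 704,.ofNat 183,.ofNat 100,.ofNat 39,.ofNat 4],[.ofNat 114,.negSucc 114,.negSucc 23,.negSucc 4],[.ofNat 36,.ofNat 4,.ofNat 2]]]⟩
theorem c302 : chkE [e139,e151,e208,e169] e302 false [(0,4),(2,3),(2,4)] 0 3 5 (0,[(3,4)]) [(1,[]),(2,[(3,4)]),(3,[])] = true := by decide +kernel
theorem k302 (h : Hy) : e302.ok := h.step (fac (k139 h) (fac (k151 h) (fac (k208 h) (fac (k169 h) fan)))) c302

def e303 : Ent := ⟨3,[(0,1),(0,4),(2,3),(2,4),(3,5)],[[[.ofNat 1,.negSucc 0],[.negSucc 2,.ofNat 3],[.ofNat 3,.negSucc 2],[.negSucc 0,.ofNat 1]],[[.ofNat 9,.negSucc 13,.ofNat 4,.ofNat 1],[.negSucc 22,.ofNat 40,.negSucc 13,.negSucc 2],[.ofNat 14,.negSucc 34,.ofNat 18,.ofNat 3],[.ofNat 6,.ofNat 5,.negSucc 9,.negSucc 0],[.negSucc 6,.ofNat 5,.ofNat 2],[.ofNat 1,.negSucc 0]],[[.ofNat 2,.negSucc 14,.ofNat 7,.ofNat 11,.negSucc 3,.negSucc 0],[.ofNat 47,.negSucc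 13,.negSucc 27,.negSucc 23,.ofNat 16,.ofNat 3],[.negSucc 148,.ofNat 139,.ofNat 36,.ofNat 1,.negSucc 23,.negSucc 2],[.ofNat 142,.negSucc 181,.negSucc 7,.ofNat 31,.ofNat 16,.ofNat 1],[.negSucc 31,.ofNat 77,.negSucc 16,.negSucc 23,.negSucc 3],[.negSucc 12,.negSucc 3,.ofNat 12,.ofNat 5],[.ofNat 3,.negSucc 0,.negSucc 1]]]⟩
theorem c303 : chkE [e140,e152,e141,e170] e303 false [(0,1),(0,4),(2,3),(2,4)] 0 3 5 (0,[(3,4)]) [(1,[]),(2,[(3,4)]),(3,[])] = true := by decide +kernel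
theorem k303 (h : Hy) : e303.ok := h.step (fac (k140 h) (fac (k152 h) (fac (k141 h) (fac (k170 h) fan)))) c303

def e304 : Ent := ⟨3,[(0,4),(1,4),(2,3),(2,4),(3,5)],[[[.ofNat 2],[.negSucc 6],[.ofNat 9],[.negSucc 4],[.ofNat 1]],[[.ofNat 14,.negSucc 7],[.negSucc 40,.ofNat 28],[.ofNat 35,.negSucc 35],[.ofNat 1,.ofNat 20],[.negSucc 12,.negSucc 3],[.ofNat 4]],[[.negSucc 21,.negSucc 15,.ofNat 4,.ofNat 4],[.ofNat 179,.ofNat 20,.negSucc 23,.negSucc 13],[.negSucc 435,.ofNat 62,.ofNat 53,.ofNat 18],[.ofNat 442,.negSucc 149,.negSucc 54,.negSucc 9],[.negSucc 168,.ofNat 118,.ofNat 27,.ofNat 2],[.negSucc 7,.negSucc 37,.negSucc 4],[.ofNat 15,.ofNat 4],[.negSucc 0]]]⟩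
theorem c304 : chkE [e136,e128,e172] e304 false [(0,4),(1,4),(2,3),(2,4)] 0 3 5 (0,[(3,4)]) [(1,[]),(1,[(0,1)]),(2,[])] = true := by decide +kernel
theorem k304 (h : Hy) : e304.ok := h.step (fac (k136 h) (fac (k128 h) (fac (k172 h) fan))) c304

def e305 : Ent := ⟨2,[(0,1),(0,4),(1,5),(2,3),(2,4),(3,5)],[[[.ofNat 1,.negSucc 1,.ofNat 1],[.negSucc 3,.ofNat 8,.negSucc 3],[.ofNat 6,.negSucc 11,.ofNat 6],[.negSucc 3,.ofNat 8,.negSucc 3],[.ofNat 1,.negSucc 1,.ofNat 1]],[[.ofNat 12,.negSucc 27,.ofNat 19,.negSucc 1,.negSucc 0],[.negSucc 43,.ofNat 106,.negSucc 75,.ofNat 10,.ofNat 4],[.ofNat 55,.negSucc 141,.ofNat 113,.negSucc 19,.negSucc 5],[.negSucc 19,.ofNat 68,.negSucc 71,.ofNat 20,.ofNat 4],[.negSucc 9,.ofNat 8,.ofNat 13,.negSucc 9,.negSucc 0],[.ofNat 8,.negSucc 13,.ofNat 4,.ofNat 2],[.negSucc 0,.ofNat 2,.negSucc 0]]]⟩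
theorem c305 : chkE [e111] e305 true [(0,4),(1,5),(2,3),(2,4),(3,5)] 0 1 6 (0,[]) [(6,[]),(6,[]),(6,[]),(6,[]),(7,[]),(7,[]),(7,[]),(7,[]),(7,[]),(7,[]),(7,[]),(7,[]),(7,[]),(7,[]),(7,[]),(8,[]),(8,[]),(8,[]),(8,[])] = true := by decide +kernel
theorem k305 (h : Hy) : e305.ok := h.step (fac (k111 h) fan) c305

def e306 : Ent := ⟨2,[(0,3),(0,4),(1,5),(2,3),(2,4),(3,5)],[[[.ofNat 2,.negSucc 1],[.negSucc 8,.ofNat 9],[.ofNat 16,.negSucc 15],[.negSucc 13,.ofNat 14],[.ofNat 6,.negSucc 5],[.negSucc 0,.ofNat 1]],[[.ofNat 16,.negSucc 25,.ofNat 10],[.negSucc 59,.ofNat 105,.negSucc 44],[.ofNat 74,.negSucc 153,.ofNat 80],[.negSucc 15,.ofNat 86,.negSucc 69],[.negSucc 35,.ofNat 6,.ofNat 30],[.ofNat 28,.negSucc 22,.negSucc 4],[.negSucc 5,.ofNat 6]]]⟩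
theorem c306 : chkE [e146] e306 true [(0,3),(0,4),(2,3),(2,4),(3,5)] 1 5 6 (0,[]) [(6,[]),(6,[]),(6,[]),(6,[]),(6,[]),(7,[]),(7,[]),(7,[]),(7,[]),(7,[]),(7,[]),(7,[]),(7,[]),(7,[]),(7,[]),(7,[]),(8,[]),(8,[]),(8,[]),(8,[])] = true := by decide +kernel
theorem k306 (h : Hy) : e306.ok := h.step (fac (k146 h) fan) c306

def e307 : Ent := ⟨3,[(0,4),(0,6),(1,5),(2,3),(2,4),(3,5)],[[[.negSucc 0,.ofNat 1],[.ofNat 4,.negSucc 3],[.negSucc 5,.ofNat 6],[.ofNat 4,.negSucc 3],[.negSucc 0,.ofNat 1]],[[.negSucc 15,.ofNat 23,.negSucc 6],[.ofNat 58,.negSucc 85,.ofNat 28],[.negSucc 71,.ofNat 114,.negSucc 41],[.ofNat 28,.negSucc 55,.ofNat 28],[.ofNat 8,.negSucc 0,.negSucc 6],[.negSucc 5,.ofNat 6]],[[.negSucc 63,.ofNat 136,.negSucc 82,.ofNat 8,.ofNat 3],[.ofNat 111,.negSucc 350,.ofNat 290,.negSucc 37,.negSucc 11],[.ofNat 174,.ofNat 63,.negSucc 326,.ofNat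 72,.ofNat 18],[.negSucc 525,.ofNat 538,.ofNat 68,.negSucc 67,.negSucc 11],[.ofNat 384,.negSucc 521,.ofNat 103,.ofNat 32,.ofNat 3],[.negSucc 56,.ofNat 117,.negSucc 53,.negSucc 5],[.negSucc 21,.ofNat 19,.ofNat 3]]]⟩
theorem c307 : chkE [e111,e305,e177,e306,e133] e307 false [(0,4),(1,5),(2,3),(2,4),(3,5)] 0 0 6 (0,[]) [(1,[]),(2,[(2,3)]),(3,[]),(4,[])] = true := by decide +kernel
theorem k307 (h : Hy) : e307.ok := h.step (fac (k111 h) (fac (k305 h) (fac (k177 h) (fac (k306 h) (fac (k133 h) fan))))) c307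

def e308 : Ent := ⟨2,[(0,1),(0,4),(0,5),(2,3),(2,4),(3,5)],[[[.ofNat 2,.negSucc 2,.ofNat 1],[.negSucc 7,.ofNat 12,.negSucc 3],[.ofNat 12,.negSucc 17,.ofNat 6],[.negSucc 7,.ofNat 12,.negSucc 3],[.ofNat 2,.negSucc 2,.ofNat 1]],[[.ofNat 18,.negSucc 34,.ofNat 19,.negSucc 0,.negSucc 0],[.negSucc 61,.ofNat 129,.negSucc 76,.ofNat 6,.ofNat 4],[.ofNat 66,.negSucc 162,.ofNat 117,.negSucc 13,.negSucc 5],[.negSucc 3,.ofNat 62,.negSucc 77,.ofNat 16,.ofNat 4],[.negSucc 33,.ofNat 27,.ofNat 17,.negSucc 8,.negSucc 0],[.ofNat 18,.negSucc 22,.ofNat 3,.ofNat 2],[.negSucc 1,.ofNat 3,.negSucc 0]]]⟩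
theorem c308 : chkE [e253] e308 true [(0,4),(0,5),(2,3),(2,4),(3,5)] 0 1 6 (0,[]) [(6,[]),(6,[]),(6,[]),(7,[]),(7,[]),(7,[]),(7,[]),(7,[]),(7,[]),(7,[]),(7,[]),(7,[]),(7,[]),(7,[]),(7,[]),(8,[]),(8,[]),(8,[]),(8,[])] = true := by decide +kernel
theorem k308 (h : Hy) : e308.ok := h.step (fac (k253 h) fan) c308

def e309 : Ent := ⟨3,[(0,4),(0,5),(1,6),(2,3),(2,4),(3,5)],[[[.negSucc 0,.ofNat 1],[.ofNat 4,.negSucc 3],[.negSucc 5,.ofNat 6],[.ofNat 4,.negSucc 3],[.negSucc 0,.ofNat 1]],[[.negSucc 14,.ofNat 22,.negSucc 6],[.ofNat 54,.negSucc 81,.ofNat 28],[.negSucc 65,.ofNat 108,.negSucc 41],[.ofNat 24,.negSucc 51,.ofNat 28],[.ofNat 9,.negSucc 1,.negSucc 6],[.negSucc 5,.ofNat 6]],[[.negSucc 54,.ofNat 125,.negSucc 80,.ofNat 8,.ofNat 3],[.ofNat 85,.negSucc 317,.ofNat 283,.negSucc 37,.negSucc 11],[.ofNat 188,.ofNat 41,.negSucc 318,.ofNat 72,.ofNat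 18],[.negSucc 501,.ofNat 516,.ofNat 66,.negSucc 67,.negSucc 11],[.ofNat 353,.negSucc 488,.ofNat 101,.ofNat 32,.ofNat 3],[.negSucc 46,.ofNat 106,.negSucc 52,.negSucc 5],[.negSucc 21,.ofNat 19,.ofNat 3]]]⟩
theorem c309 : chkE [e253,e308,e178,e133] e309 false [(0,4),(0,5),(2,3),(2,4),(3,5)] 0 1 6 (0,[]) [(1,[]),(2,[(0,1),(2,3),(4,5)]),(2,[(0,1)]),(3,[(2,3),(4,5)]),(3,[])] = true := by decide +kernel
theorem k309 (h : Hy) : e309.ok := h.step (fac (k253 h) (fac (k308 h) (fac (k178 h) (fac (k133 h) fan)))) c309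

def e310 : Ent := ⟨3,[(2,3),(2,4),(3,4),(4,5)],[[[.ofNat 2],[.negSucc 6],[.ofNat 9],[.negSucc 4],[.ofNat 1]],[[.negSucc 5,.negSucc 15],[.ofNat 39,.ofNat 56],[.negSucc 89,.negSucc 71],[.ofNat 96,.ofNat 40],[.negSucc 47,.negSucc 7],[.ofNat 9]],[[.ofNat 32,.ofNat 60,.ofNat 44],[.negSucc 201,.negSucc 353,.negSucc 153],[.ofNat 567,.ofNat 774,.ofNat 198],[.negSucc 862,.negSucc 797,.negSucc 109],[.ofNat 727,.ofNat 390,.ofNat 22],[.negSucc 314,.negSucc 71],[.ofNat 54]]]⟩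
theorem c310 : chkE [e161,e169] e310 false [(2,3),(2,4),(3,4)] 0 4 5 (0,[]) [(1,[]),(1,[(0,1)])] = true := by decide +kernel
theorem k310 (h : Hy) : e310.ok := h.step (fac (k161 h) (fac (k169 h) fan)) c310

def e311 : Ent := ⟨2,[(0,1),(2,3),(2,4),(3,4),(4,5)],[[[.ofNat 2],[.negSucc 6],[.ofNat 9],[.negSucc 4],[.ofNat 1]],[[.ofNat 10,.negSucc 15,.negSucc 1],[.negSucc 18,.ofNat 60,.ofNat 7],[.negSucc 12,.negSucc 85,.negSucc 8],[.ofNat 54,.ofNat 58,.ofNat 5],[.negSucc 43,.negSucc 17,.negSucc 0],[.ofNat 13,.ofNat 2],[.negSucc 0]]]⟩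
theorem c311 : chkE [e162] e311 false [(0,1),(2,3),(2,4),(3,4)] 0 4 5 (0,[]) [(5,[]),(5,[])] = true := by decide +kernel
theorem k311 (h : Hy) : e311.ok := h.step (fac (k162 h) fan) c311

def e312 : Ent := ⟨2,[(2,4),(2,5),(3,4),(3,5),(4,5)],[[[.ofNat 4],[.negSucc 19],[.ofNat 41],[.negSucc 43],[.ofNat 26],[.negSucc 7],[.ofNat 1]],[[.negSucc 31,.negSucc 39],[.ofNat 212,.ofNat 200],[.negSucc 587,.negSucc 409],[.ofNat 885,.ofNat 440],[.negSucc 779,.negSucc 259],[.ofNat 402,.ofNat 80],[.negSucc 111,.negSucc 9],[.ofNat 13]]]⟩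
theorem c312 : chkE [e310] e312 true [(2,5),(3,4),(3,5),(4,5)] 2 4 6 (0,[(2,5),(3,2),(4,3)]) [(6,[]),(6,[]),(6,[]),(6,[]),(7,[]),(7,[]),(7,[]),(7,[]),(7,[]),(7,[]),(7,[]),(7,[]),(7,[]),(7,[]),(8,[]),(8,[]),(8,[]),(8,[])] = true := by decide +kernel
theorem k312 (h : Hy) : e312.ok := h.step (fac (k310 h) fan) c312

def e313 : Ent := ⟨2,[(0,6),(2,4),(2,5),(3,4),(3,5),(4,5)],[[[.ofNat 4],[.negSucc 19],[.ofNat 41],[.negSucc 43],[.ofNat 26],[.negSucc 7],[.ofNat 1]],[[.ofNat 8,.negSucc 43],[.ofNat 12,.ofNat 220],[.negSucc 177,.negSucc 450],[.ofNat 445,.ofNat 484],[.negSucc 519,.negSucc 285],[.ofNat 322,.ofNat 88],[.negSucc 101,.negSucc 10],[.ofNat 13]]]⟩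
theorem c313 : chkE [e312] e313 false [(2,4),(2,5),(3,4),(3,5),(4,5)] 0 0 6 (0,[]) [(6,[]),(6,[]),(6,[]),(6,[]),(6,[])] = true := by decide +kernel
theorem k313 (h : Hy) : e313.ok := h.step (fac (k312 h) fan) c313

def e314 : Ent := ⟨2,[(0,5),(2,3),(2,4),(3,4),(3,5),(4,6)],[[[.ofNat 4],[.negSucc 19],[.ofNat 41],[.negSucc 43],[.ofNat 26],[.negSucc 7],[.ofNat 1]],[[.ofNat 16,.negSucc 39],[.negSucc 31,.ofNat 200],[.negSucc 75,.negSucc 409],[.ofNat 316,.ofNat 440],[.negSucc 423,.negSucc 259],[.ofNat 280,.ofNat 80],[.negSucc 91,.negSucc 9],[.ofNat 12]]]⟩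
theorem c314 : chkE [e98] e314 false [(0,5),(2,3),(2,4),(3,4),(3,5)] 0 4 6 (0,[(3,4)]) [(6,[]),(6,[]),(6,[])] = true := by decide +kernel
theorem k314 (h : Hy) : e314.ok := h.step (fac (k98 h) fan) c314

def e315 : Ent := ⟨2,[(0,5),(2,3),(2,4),(3,4),(4,5),(4,6)],[[[.ofNat 6],[.negSucc 28],[.ofNat 57],[.negSucc 57],[.ofNat 32],[.negSucc 8],[.ofNat 1]],[[.ofNat 12,.negSucc 59],[.ofNat 20,.ofNat 290],[.negSucc 262,.negSucc 569],[.ofNat 625,.ofNat 580],[.negSucc 689,.negSucc 319],[.ofNat 398,.ofNat 90],[.negSucc 114,.negSucc 9],[.ofNat 13]]]⟩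
theorem c315 : chkE [e98] e315 false [(0,5),(2,3),(2,4),(3,4),(4,5)] 0 4 6 (0,[]) [(6,[]),(6,[])] = true := by decide +kernel
theorem k315 (h : Hy) : e315.ok := h.step (fac (k98 h) fan) c315

def e316 : Ent := ⟨2,[(0,5),(2,3),(2,4),(3,4),(4,5),(5,6)],[[[.ofNat 4],[.negSucc 19],[.ofNat 41],[.negSucc 43],[.ofNat 26],[.negSucc 7],[.ofNat 1]],[[.ofNat 20,.negSucc 35],[.negSucc 55,.ofNat 180],[.negSucc 14,.negSucc 368],[.ofNat 231,.ofNat 396],[.negSucc 353,.negSucc 233],[.ofNat 246,.ofNat 72],[.negSucc 82,.negSucc 8],[.ofNat 11]]]⟩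
theorem c316 : chkE [e98] e316 false [(0,5),(2,3),(2,4),(3,4),(4,5)] 0 5 6 (0,[]) [(6,[]),(6,[]),(6,[])] = true := by decide +kernel
theorem k316 (h : Hy) : e316.ok := h.step (fac (k98 h) fan) c316

def e317 : Ent := ⟨2,[(0,5),(0,6),(2,3),(2,4),(3,4),(4,5),(6,7)],[[[.negSucc 1,.ofNat 2],[.ofNat 11,.negSucc 10],[.negSucc 24,.ofNat 25],[.ofNat 30,.negSucc 29],[.negSucc 19,.ofNat 20],[.ofNat 7,.negSucc 6],[.negSucc 0,.ofNat 1]],[[.negSucc 33,.ofNat 54,.negSucc 19],[.ofNat 165,.negSucc 274,.ofNat 110],[.negSucc 303,.ofNat 554,.negSucc 249],[.ofNat 235,.negSucc 534,.ofNat 300],[.negSucc 9,.ofNat 210,.negSucc 199],[.negSucc 100,.ofNat 31,.ofNat 70],[.ofNat 60,.negSucc 49,.negSucc 9],[.negSucc 10,.ofNat 11]]]⟩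
theorem c317 : chkE [e245] e317 false [(0,5),(0,6),(2,3),(2,4),(3,4),(4,5)] 0 6 7 (0,[]) [(7,[]),(7,[]),(7,[]),(7,[]),(7,[])] = true := by decide +kernel
theorem k317 (h : Hy) : e317.ok := h.step (fac (k245 h) fan) c317

def e318 : Ent := ⟨2,[(0,6),(2,3),(2,5),(3,5),(4,6),(4,7),(5,6)],[[[.negSucc 3],[.ofNat 24],[.negSucc 60],[.ofNat 85],[.negSucc 69],[.ofNat 34],[.negSucc 8],[.ofNat 1]],[[.negSucc 51,.ofNat 44],[.ofNat 260,.negSucc 263],[.negSucc 480,.ofNat 671],[.ofNat 312,.negSucc 934],[.ofNat 195,.ofNat 770],[.negSucc 467,.negSucc 373],[.ofNat 325,.ofNat 99],[.negSucc 103,.negSucc 10],[.ofNat 13]]]⟩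
theorem c318 : chkE [e316] e318 false [(0,6),(2,3),(2,5),(3,5),(4,6),(5,6)] 0 4 7 (0,[(4,6),(5,4)]) [(7,[]),(7,[]),(7,[]),(7,[]),(7,[])] = true := by decide +kernel
theorem k318 (h : Hy) : e318.ok := h.step (fac (k316 h) fan) c318

def e319 : Ent := ⟨2,[(0,5),(0,7),(2,3),(2,4),(3,4),(4,5),(5,6)],[[[.negSucc 3,.ofNat 4],[.ofNat 20,.negSucc 19],[.negSucc 40,.ofNat 41],[.ofNat 44,.negSucc 43],[.negSucc 25,.ofNat 26],[.ofNat 8,.negSucc 7],[.negSucc 0,.ofNat 1]],[[.negSucc 51,.ofNat 92,.negSucc 39],[.ofNat 212,.negSucc 411,.ofNat 200],[.negSucc 292,.ofNat 703,.negSucc 409],[.ofNat 80,.negSucc 519,.ofNat 440],[.ofNat 190,.ofNat 70,.negSucc 259],[.negSucc 207,.ofNat 128,.ofNat 80],[.ofNat 83,.negSucc 72,.negSucc 9],[.negSucc 11,.ofNat 12]]]⟩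
theorem c319 : chkE [e316] e319 false [(0,5),(2,3),(2,4),(3,4),(4,5),(5,6)] 0 0 7 (0,[]) [(7,[]),(7,[]),(7,[]),(7,[]),(7,[])] = true := by decide +kernel
theorem k319 (h : Hy) : e319.ok := h.step (fac (k316 h) fan) c319

def e320 : Ent := ⟨2,[(2,3),(2,6),(3,6),(4,5),(4,6),(5,7)],[[[.ofNat 2],[.negSucc 10],[.ofNat 25],[.negSucc 29],[.ofNat 20],[.negSucc 6],[.ofNat 1]],[[.ofNat 16,.negSucc 23],[.negSucc 61,.ofNat 132],[.ofNat 57,.negSucc 299],[.ofNat 85,.ofNat 360],[.negSucc 229,.negSucc 239],[.ofNat 204,.ofNat 84],[.negSucc 82,.negSucc 11],[.ofNat 13]]]⟩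
theorem c320 : chkE [e157] e320 false [(2,3),(2,6),(3,6),(4,5),(4,6)] 0 5 7 (0,[(5,6)]) [(7,[]),(7,[]),(7,[]),(7,[]),(7,[])] = true := by decide +kernel
theorem k320 (h : Hy) : e320.ok := h.step (fac (k157 h) fan) c320

def e321 : Ent := ⟨2,[(0,7),(2,3),(2,6),(3,6),(4,5),(4,6),(5,7)],[[[.negSucc 1],[.ofNat 13],[.negSucc 35],[.ofNat 55],[.negSucc 49],[.ofNat 27],[.negSucc 7],[.ofNat 1]],[[.negSucc 33,.ofNat 24],[.ofNat 195,.negSucc 155],[.negSucc 442,.ofNat 432],[.ofNat 467,.negSucc 659],[.negSucc 134,.ofNat 600],[.negSucc 190,.negSucc 323],[.ofNat 215,.ofNat 96],[.negSucc 86,.negSucc 11],[.ofNat 13]]]⟩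
theorem c321 : chkE [e320] e321 true [(2,3),(2,6),(3,6),(4,5),(4,6),(5,7)] 0 7 8 (0,[]) [(8,[]),(8,[]),(8,[]),(8,[]),(8,[]),(8,[]),(8,[]),(9,[]),(9,[]),(9,[]),(9,[]),(9,[]),(9,[]),(9,[]),(9,[]),(9,[]),(9,[]),(9,[]),(9,[]),(9,[]),(9,[]),(9,[]),(10,[]),(10,[]),(10,[]),(10,[])] = true := by decide +kernel
theorem k321 (h : Hy) : e321.ok := h.step (fac (k320 h) fan) c321

def e322 : Ent := ⟨3,[(0,5),(2,3),(2,4),(3,4),(4,5)],[[[.negSucc 1],[.ofNat 9],[.negSucc 15],[.ofNat 14],[.negSucc 5],[.ofNat 1]],[[.negSucc 1,.ofNat 16],[.negSucc 8,.negSucc 71],[.ofNat 65,.ofNat 128],[.negSucc 129,.negSucc 111],[.ofNat 120,.ofNat 48],[.negSucc 52,.negSucc 7],[.ofNat 9]],[[.ofNat 32,.negSucc 27,.negSucc 39,.negSucc 1],[.negSucc 145,.ofNat 274,.ofNat 184,.ofNat 9],[.ofNat 157,.negSucc 891,.negSucc 337,.negSucc 15],[.ofNat 246,.ofNat 1389,.ofNat 312,.ofNat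 14],[.negSucc 753,.negSucc 1135,.negSucc 147,.negSucc 5],[.ofNat 734,.ofNat 472,.ofNat 32,.ofNat 1],[.negSucc 322,.negSucc 79,.negSucc 1],[.ofNat 54,.ofNat 1]]]⟩
theorem c322 : chkE [e310,e311,e163,e164,e98,e245,e99,e313,e168,e314,e315,e316,e317,e318,e319,e321] e322 true [(2,3),(2,4),(3,4),(4,5)] 0 5 6 (0,[]) [(1,[]),(2,[(2,4),(3,2)]),(2,[(3,4)]),(3,[]),(4,[]),(5,[]),(6,[(0,1)]),(7,[(2,4),(3,2),(3,5)]),(7,[(3,4),(3,5)]),(8,[(4,5)]),(5,[]),(6,[]),(9,[(2,4),(3,2)]),(9,[(3,4)]),(10,[]),(11,[]),(12,[]),(13,[(4,5),(4,6),(4,7)]),(14,[(6,7)]),(15,[(4,6),(5,4),(5,7)])] = true := by decide +kernel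
theorem k322 (h : Hy) : e322.ok := h.step (fac (k310 h) (fac (k311 h) (fac (k163 h) (fac (k164 h) (fac (k98 h) (fac (k245 h) (fac (k99 h) (fac (k313 h) (fac (k168 h) (fac (k314 h) (fac (k315 h) (fac (k316 h) (fac (k317 h) (fac (k318 h) (fac (k319 h) (fac (k321 h) fan)))))))))))))))) c322

def e323 : Ent := ⟨2,[(0,1),(0,5),(2,3),(2,4),(3,4),(4,5)],[[[.ofNat 2,.negSucc 1],[.negSucc 8,.ofNat 9],[.ofNat 16,.negSucc 15],[.negSucc 13,.ofNat 14],[.ofNat 6,.negSucc 5],[.negSucc 0,.ofNat 1]],[[.ofNat 16,.negSucc 29,.ofNat 12,.ofNat 2],[.negSucc 55,.ofNat 123,.negSucc 57,.negSucc 8],[.ofNat 54,.negSucc 183,.ofNat 114,.ofNat 16],[.ofNat 25,.ofNat 105,.negSucc 115,.negSucc 13],[.negSucc 79,.ofNat 10,.ofNat 64,.ofNat 6],[.ofNat 54,.negSucc 34,.negSucc 17,.negSucc 0],[.negSucc 13,.ofNat 12,.ofNat 2],[.ofNat 1,.negSucc 0]]]⟩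
theorem c323 : chkE [e322] e323 true [(0,5),(2,3),(2,4),(3,4),(4,5)] 0 1 6 (0,[]) [(6,[]),(6,[]),(6,[]),(6,[]),(7,[]),(7,[]),(7,[]),(7,[]),(7,[]),(7,[]),(7,[]),(7,[]),(7,[]),(7,[]),(7,[]),(7,[]),(8,[]),(8,[]),(8,[]),(8,[])] = true := by decide +kernel
theorem k323 (h : Hy) : e323.ok := h.step (fac (k322 h) fan) c323

def e324 : Ent := ⟨2,[(0,4),(1,5),(2,3),(2,4),(3,4),(4,5)],[[[.ofNat 6],[.negSucc 28],[.ofNat 57],[.negSucc 57],[.ofNat 32],[.negSucc 8],[.ofNat 1]],[[.ofNat 12,.negSucc 35],[.negSucc 3,.ofNat 174],[.negSucc 146,.negSucc 341],[.ofNat 397,.ofNat 348],[.negSucc 457,.negSucc 191],[.ofNat 270,.ofNat 54],[.negSucc 78,.negSucc 5],[.ofNat 9]]]⟩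
theorem c324 : chkE [e164] e324 true [(0,4),(2,3),(2,4),(3,4),(4,5)] 1 5 6 (0,[]) [(6,[]),(6,[]),(6,[]),(6,[]),(6,[]),(7,[]),(7,[]),(7,[]),(7,[]),(7,[]),(7,[]),(7,[]),(7,[]),(7,[]),(7,[]),(7,[]),(8,[]),(8,[]),(8,[]),(8,[])] = true := by decide +kernel
theorem k324 (h : Hy) : e324.ok := h.step (fac (k164 h) fan) c324

def e325 : Ent := ⟨2,[(0,5),(1,5),(2,3),(2,4),(3,4),(4,5)],[[[.ofNat 4],[.negSucc 19],[.ofNat 41],[.negSucc 43],[.ofNat 26],[.negSucc 7],[.ofNat 1]],[[.ofNat 20,.negSucc 23],[.negSucc 67,.ofNat 120],[.ofNat 45,.negSucc 245],[.ofNat 108,.ofNat 264],[.negSucc 221,.negSucc 155],[.ofNat 168,.ofNat 48],[.negSucc 58,.negSucc 5],[.ofNat 8]]]⟩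
theorem c325 : chkE [e322] e325 true [(1,5),(2,3),(2,4),(3,4),(4,5)] 0 5 6 (0,[(0,1)]) [(6,[]),(6,[]),(6,[]),(6,[]),(6,[]),(7,[]),(7,[]),(7,[]),(7,[]),(7,[]),(7,[]),(7,[]),(7,[]),(7,[]),(7,[]),(8,[]),(8,[]),(8,[]),(8,[])] = true := by decide +kernel
theorem k325 (h : Hy) : e325.ok := h.step (fac (k322 h) fan) c325

end Pool.Agent.RGA.CT
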