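import Pool.Agent.RGA.Cert12

set_option autoImplicit false

namespace Pool.Agent.RGA.CT

def e326 : Ent := ⟨3,[(0,5),(1,6),(2,3),(2,4),(3,4),(4,5)],[[[.negSucc 1],[.ofNat 9],[.negSucc 15],[.ofNat 14],[.negSucc 5],[.ofNat 1]],[[.negSucc 21,.ofNat 18],[.ofNat 81,.negSucc 80],[.negSucc 94,.ofNat 144],[.ofNat 10,.negSucc 125],[.ofNat 60,.ofNat 54],[.negSucc 42,.negSucc 8],[.ofNat 9]],[[.negSucc 47,.ofNat 118,.negSucc 51,.negSucc 3],[.negSucc 17,.negSucc 350,.ofNat 242,.ofNat 18],[.ofNat 561,.ofNat 130,.negSucc 451,.negSucc 31],[.negSucc 1049,.ofNat 632,.ofNat 428,.ofNat 28],[.ofNat 630,.negSucc 937,.negSucc 211,.negSucc 11],[.ofNat 78,.ofNat 509,.ofNat 50,.ofNat 2],[.negSucc 206,.negSucc 101,.negSucc 3],[.ofNat 54,.ofNat 2]]]⟩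
theorem c326 : chkE [e322,e323,e180,e324,e325] e326 false [(0,5),(2,3),(2,4),(3,4),(4,5)] 0 1 6 (0,[]) [(1,[]),(2,[(0,1),(2,4),(3,2)]),(2,[(0,1),(3,4)]),(3,[(0,1)]),(4,[])] = true := by decide +kernel
theorem k326 (h : Hy) : e326.ok := h.step (fac (k322 h) (fac (k323 h) (fac (k180 h) (fac (k324 h) (fac (k325 h) fan))))) c326

def e327 : Ent := ⟨3,[(2,3),(2,5),(3,4)],[[[.ofNat 1],[.negSucc 1],[.ofNat 1]],[[.ofNat 1,.negSucc 5],[.ofNat 3,.ofNat 12],[.negSucc 8,.negSucc 5],[.ofNat 5]],[[.negSucc 2,.negSucc 7,.ofNat 14],[.ofNat 18,.negSucc 13,.negSucc 27],[.negSucc 10,.ofNat 52,.ofNat 14],[.negSucc 19,.negSucc 29],[.ofNat 16]]]⟩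
theorem c327 : chkE [e155,e139,e161] e327 false [(2,3),(3,4)] 0 2 5 (0,[(2,3)]) [(1,[(2,3)]),(1,[(0,1),(2,3)]),(2,[])] = true := by decide +kernel
theorem k327 (h : Hy) : e327.ok := h.step (fac (k155 h) (fac (k139 h) (fac (k161 h) fan))) c327

def e328 : Ent := ⟨2,[(0,6),(2,3),(2,4),(3,5),(4,5)],[[[.ofNat 1],[.negSucc 3],[.ofNat 6],[.negSucc 3],[.ofNat 1]],[[.ofNat 8,.negSucc 8],[.negSucc 23,.ofNat 36],[.ofNat 16,.negSucc 53],[.ofNat 16,.ofNat 36],[.negSucc 23,.negSucc 8],[.ofNat 8]]]⟩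
theorem c328 : chkE [e101] e328 false [(2,3),(2,4),(3,5),(4,5)] 0 0 6 (0,[]) [(6,[]),(6,[]),(6,[]),(6,[]),(6,[])] = true := by decide +kernel
theorem k328 (h : Hy) : e328.ok := h.step (fac (k101 h) fan) c328

def e329 : Ent := ⟨2,[(2,3),(2,4),(3,6),(4,6),(5,6),(5,7)],[[[.ofNat 2],[.negSucc 10],[.ofNat 25],[.negSucc 29],[.ofNat 20],[.negSucc 6],[.ofNat 1]],[[.ofNat 16,.negSucc 23],[.negSucc 61,.ofNat 132],[.ofNat 57,.negSucc 299],[.ofNat 85,.ofNat 360],[.negSucc 229,.negSucc 239],[.ofNat 204,.ofNat 84],[.negSucc 82,.negSucc 11],[.ofNat 13]]]⟩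
theorem c329 : chkE [e194] e329 false [(2,3),(2,4),(3,6),(4,6),(5,6)] 0 5 7 (0,[(5,6)]) [(7,[]),(7,[]),(7,[]),(7,[]),(7,[])] = true := by decide +kernel
theorem k329 (h : Hy) : e329.ok := h.step (fac (k194 h) fan) c329

def e330 : Ent := ⟨2,[(2,3),(2,4),(3,5),(4,5),(4,7),(5,6)],[[[.ofNat 4],[.negSucc 19],[.ofNat 41],[.negSucc 43],[.ofNat 26],[.negSucc 7],[.ofNat 1]],[[.ofNat 20,.negSucc 47],[.negSucc 43,.ofNat 240],[.negSucc 74,.negSucc 491],[.ofNat 354,.ofNat 528],[.negSucc 485,.negSucc 311],[.ofNat 324,.ofNat 96],[.negSucc 106,.negSucc 11],[.ofNat 14]]]⟩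
theorem c330 : chkE [e194] e330 false [(2,3),(2,4),(3,5),(4,5),(5,6)] 0 4 7 (0,[]) [(7,[]),(7,[]),(7,[]),(7,[])] = true := by decide +kernel
theorem k330 (h : Hy) : e330.ok := h.step (fac (k194 h) fan) c330

def e331 : Ent := ⟨2,[(2,3),(2,4),(3,5),(4,7),(5,6)],[[[.ofNat 1],[.negSucc 3],[.ofNat 6],[.negSucc 3],[.ofNat 1]],[[.ofNat 9,.negSucc 9],[.negSucc 26,.ofNat 40],[.ofNat 18,.negSucc 59],[.ofNat 18,.ofNat 40],[.negSucc 26,.negSucc 9],[.ofNat 9]]]⟩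
theorem c331 : chkE [e159] e331 false [(2,3),(2,4),(3,5),(5,6)] 0 4 7 (0,[(2,3),(4,6),(5,4)]) [(7,[]),(7,[]),(7,[]),(7,[]),(7,[])] = true := by decide +kernel
theorem k331 (h : Hy) : e331.ok := h.step (fac (k159 h) fan) c331

def e332 : Ent := ⟨2,[(2,3),(2,4),(3,5),(4,6),(5,7),(6,7)],[[[.ofNat 1],[.negSucc 5],[.ofNat 15],[.negSucc 19],[.ofNat 15],[.negSucc 5],[.ofNat 1]],[[.ofNat 12,.negSucc 11],[.negSucc 59,.ofNat 72],[.ofNat 108,.negSucc 179],[.negSucc 59,.ofNat 240],[.negSucc 59,.negSucc 179],[.ofNat 108,.ofNat 72],[.negSucc 59,.negSucc 11],[.ofNat 12]]]⟩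
theorem c332 : chkE [e331] e332 true [(2,4),(3,5),(4,6),(5,7),(6,7)] 2 3 8 (0,[(2,7),(3,6),(3,2)]) [(8,[]),(8,[]),(8,[]),(8,[]),(8,[]),(8,[]),(9,[]),(9,[]),(9,[]),(9,[]),(9,[]),(9,[]),(9,[]),(9,[]),(9,[]),(9,[]),(9,[]),(9,[]),(9,[]),(9,[]),(9,[]),(10,[]),(10,[]),(10,[]),(10,[])] = true := by decide +kernel
theorem k332 (h : Hy) : e332.ok := h.step (fac (k331 h) fan) c332

def e333 : Ent := ⟨3,[(2,3),(2,4),(3,5),(4,5)],[[[.ofNat 1],[.negSucc 3],[.ofNat 6],[.negSucc 3],[.ofNat 1]],[[.ofNat 0,.negSucc 7],[.ofNat 8,.ofNat 32],[.negSucc 31,.negSucc 47],[.ofNat 48,.ofNat 32],[.negSucc 31,.negSucc 7],[.ofNat 8]],[[.negSucc 13,.ofNat 0,.ofNat 24],[.ofNat 64,.negSucc 63,.negSucc 95],[.negSucc 75,.ofNat 256,.ofNat 144],[.negSucc 55,.negSucc 383,.negSucc 95],[.ofNat 194,.ofNat 256,.ofNat 24],[.negSucc 151,.negSucc 63],[.ofNat 40]]]⟩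
theorem c333 : chkE [e327,e302,e101,e310,e187,e194,e157,e160,e328,e329,e330,e332] e333 true [(2,4),(3,5),(4,5)] 2 3 6 (0,[(2,5),(3,4),(3,2)]) [(1,[(2,4),(3,5)]),(1,[(0,1),(2,4),(3,5)]),(2,[]),(3,[(3,5),(4,3)]),(4,[(2,4),(3,5)]),(4,[(0,1),(2,4),(3,5)]),(5,[(2,5)]),(6,[(2,4),(3,2),(3,5)]),(7,[(3,6),(4,3)]),(8,[]),(8,[(0,1)]),(5,[(2,5)]),(5,[(2,3),(2,5),(4,2)]),(5,[(2,3),(4,5)]),(5,[]),(9,[(2,6),(5,2)]),(9,[(2,3),(2,6),(4,2),(5,4),(5,7)]),(10,[(2,4),(3,5),(6,7)]),(11,[(3,7),(4,3),(6,4)])] = true := by decide +kernel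
theorem k333 (h : Hy) : e333.ok := h.step (fac (k327 h) (fac (k302 h) (fac (k101 h) (fac (k310 h) (fac (k187 h) (fac (k194 h) (fac (k157 h) (fac (k160 h) (fac (k328 h) (fac (k329 h) (fac (k330 h) (fac (k332 h) fan)))))))))))) c333

def e334 : Ent := ⟨2,[(0,1),(2,3),(2,4),(3,5),(4,5)],[[[.ofNat 1],[.negSucc 3],[.ofNat 6],[.negSucc 3],[.ofNat 1]],[[.ofNat 8,.negSucc 7,.negSucc 0],[.negSucc 24,.ofNat 34,.ofNat 4],[.ofNat 19,.negSucc 55,.negSucc 5],[.ofNat 14,.ofNat 44,.ofNat 4],[.negSucc 25,.negSucc 15,.negSucc 0],[.ofNat 11,.ofNat 2],[.negSucc 0]]]⟩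
theorem c334 : chkE [e333] e334 true [(2,3),(2,4),(3,5),(4,5)] 0 1 6 (0,[]) [(6,[]),(6,[]),(6,[]),(6,[]),(6,[]),(7,[]),(7,[]),(7,[]),(7,[]),(7,[]),(7,[]),(7,[]),(7,[]),(7,[]),(7,[]),(7,[]),(7,[]),(8,[]),(8,[]),(8,[]),(8,[])] = true := by decide +kernel
theorem k334 (h : Hy) : e334.ok := h.step (fac (k333 h) fan) c334

def e335 : Ent := ⟨2,[(0,5),(2,4),(2,5),(3,4),(3,5),(4,6)],[[[.ofNat 4],[.negSucc 19],[.ofNat 41],[.negSucc 43],[.ofNat 26],[.negSucc 7],[.ofNat 1]],[[.ofNat 24,.negSucc 35],[.negSucc 75,.ofNat 180],[.ofNat 26,.negSucc 368],[.ofNat 187,.ofNat 396],[.negSucc 327,.negSucc 233],[.ofNat 238,.ofNat 72],[.negSucc 81,.negSucc 8],[.ofNat 11]]]⟩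
theorem c335 : chkE [e102] e335 false [(0,5),(2,4),(2,5),(3,4),(3,5)] 0 4 6 (0,[(2,3),(2,4)]) [(6,[]),(6,[]),(6,[])] = true := by decide +kernel
theorem k335 (h : Hy) : e335.ok := h.step (fac (k102 h) fan) c335

def e336 : Ent := ⟨2,[(0,5),(2,3),(2,4),(3,5),(4,5),(4,6)],[[[.ofNat 4],[.negSucc 19],[.ofNat 41],[.negSucc 43],[.ofNat 26],[.negSucc 7],[.ofNat 1]],[[.ofNat 20,.negSucc 35],[.negSucc 55,.ofNat 180],[.negSucc 14,.negSucc 368],[.ofNat 231,.ofNat 396],[.negSucc 353,.negSucc 233],[.ofNat 246,.ofNat 72],[.negSucc 82,.negSucc 8],[.ofNat 11]]]⟩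
theorem c336 : chkE [e102] e336 false [(0,5),(2,3),(2,4),(3,5),(4,5)] 0 4 6 (0,[]) [(6,[]),(6,[]),(6,[])] = true := by decide +kernel
theorem k336 (h : Hy) : e336.ok := h.step (fac (k102 h) fan) c336

def e337 : Ent := ⟨2,[(0,5),(2,3),(2,4),(3,5),(4,5),(5,6)],[[[.ofNat 6],[.negSucc 28],[.ofNat 57],[.negSucc 57],[.ofNat 32],[.negSucc 8],[.ofNat 1]],[[.ofNat 24,.negSucc 47],[.negSucc 49,.ofNat 232],[.negSucc 90,.negSucc 455],[.ofNat 395,.ofNat 464],[.negSucc 509,.negSucc 255],[.ofNat 316,.ofNat 72],[.negSucc 94,.negSucc 7],[.ofNat 11]]]⟩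
theorem c337 : chkE [e102] e337 false [(0,5),(2,3),(2,4),(3,5),(4,5)] 0 5 6 (0,[]) [(6,[]),(6,[])] = true := by decide +kernel
theorem k337 (h : Hy) : e337.ok := h.step (fac (k102 h) fan) c337

def e338 : Ent := ⟨2,[(0,5),(0,6),(2,3),(2,4),(3,5),(4,5),(6,7)],[[[.negSucc 1,.ofNat 2],[.ofNat 11,.negSucc 10],[.negSucc 24,.ofNat 25],[.ofNat 30,.negSucc 29],[.negSucc 19,.ofNat 20],[.ofNat 7,.negSucc 6],[.negSucc 0,.ofNat 1]],[[.negSucc 33,.ofNat 52,.negSucc 17],[.ofNat 167,.negSucc 265,.ofNat 99],[.negSucc 314,.ofNat 540,.negSucc 224],[.ofNat 260,.negSucc 529,.ofNat 270],[.negSucc 39,.ofNat 220,.negSucc 179],[.negSucc 80,.ofNat 18,.ofNat 63],[.ofNat 53,.negSucc 43,.negSucc 8],[.negSucc 9,.ofNat 10]]]⟩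
theorem c338 : chkE [e246] e338 false [(0,5),(0,6),(2,3),(2,4),(3,5),(4,5)] 0 6 7 (0,[]) [(7,[]),(7,[]),(7,[]),(7,[]),(7,[])] = true := by decide +kernel
theorem k338 (h : Hy) : e338.ok := h.step (fac (k246 h) fan) c338

def e339 : Ent := ⟨2,[(0,6),(2,3),(2,4),(3,6),(4,6),(5,6),(5,7)],[[[.negSucc 5],[.ofNat 35],[.negSucc 85],[.ofNat 115],[.negSucc 89],[.ofNat 41],[.negSucc 9],[.ofNat 1]],[[.negSucc 65,.ofNat 60],[.ofNat 307,.negSucc 349],[.negSucc 490,.ofNat 860],[.ofNat 147,.negSucc 1149],[.ofNat 505,.ofNat 900],[.negSucc 718,.negSucc 409],[.ofNat 423,.ofNat 100],[.negSucc 118,.negSucc 9],[.ofNat 13]]]⟩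
theorem c339 : chkE [e337] e339 false [(0,6),(2,3),(2,4),(3,6),(4,6),(5,6)] 0 5 7 (0,[(5,6)]) [(7,[]),(7,[]),(7,[]),(7,[]),(7,[])] = true := by decide +kernel
theorem k339 (h : Hy) : e339.ok := h.step (fac (k337 h) fan) c339

def e340 : Ent := ⟨2,[(0,5),(0,7),(2,3),(2,4),(3,5),(4,5),(5,6)],[[[.negSucc 5,.ofNat 6],[.ofNat 29,.negSucc 28],[.negSucc 56,.ofNat 57],[.ofNat 58,.negSucc 57],[.negSucc 31,.ofNat 32],[.ofNat 9,.negSucc 8],[.negSucc 0,.ofNat 1]],[[.negSucc 65,.ofNat 120,.negSucc 53],[.ofNat 247,.negSucc 507,.ofNat 261],[.negSucc 278,.ofNat 792,.negSucc 512],[.negSucc 45,.negSucc 475,.ofNat 522],[.ofNat 344,.negSucc 55,.negSucc 287],[.negSucc 284,.ofNat 204,.ofNat 81],[.ofNat 97,.negSucc 87,.negSucc 8],[.negSucc 11,.ofNat 12]]]⟩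
theorem c340 : chkE [e337] e340 false [(0,5),(2,3),(2,4),(3,5),(4,5),(5,6)] 0 0 7 (0,[]) [(7,[]),(7,[]),(7,[]),(7,[]),(7,[])] = true := by decide +kernel
theorem k340 (h : Hy) : e340.ok := h.step (fac (k337 h) fan) c340

def e341 : Ent := ⟨2,[(0,7),(2,3),(2,4),(3,6),(4,6),(5,6),(5,7)],[[[.negSucc 1],[.ofNat 13],[.negSucc 35],[.ofNat 55],[.negSucc 49],[.ofNat 27],[.negSucc 7],[.ofNat 1]],[[.negSucc 33,.ofNat 24],[.ofNat 195,.negSucc 155],[.negSucc 442,.ofNat 432],[.ofNat 467,.negSucc 659],[.negSucc 134,.ofNat 600],[.negSucc 190,.negSucc 323],[.ofNat 215,.ofNat 96],[.negSucc 86,.negSucc 11],[.ofNat 13]]]⟩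
theorem c341 : chkE [e329] e341 true [(2,3),(2,4),(3,6),(4,6),(5,6),(5,7)] 0 7 8 (0,[]) [(8,[]),(8,[]),(8,[]),(8,[]),(8,[]),(8,[]),(8,[]),(9,[]),(9,[]),(9,[]),(9,[]),(9,[]),(9,[]),(9,[]),(9,[]),(9,[]),(9,[]),(9,[]),(9,[]),(9,[]),(9,[]),(9,[]),(10,[]),(10,[]),(10,[]),(10,[])] = true := by decide +kernel
theorem k341 (h : Hy) : e341.ok := h.step (fac (k329 h) fan) c341

def e342 : Ent := ⟨3,[(0,5),(2,3),(2,4),(3,5),(4,5)],[[[.negSucc 1],[.ofNat 9],[.negSucc 15],[.ofNat 14],[.negSucc 5],[.ofNat 1]],[[.negSucc 3,.ofNat 14],[.ofNat 2,.negSucc 62],[.ofNat 40,.ofNat 112],[.negSucc 99,.negSucc 97],[.ofNat 100,.ofNat 42],[.negSucc 45,.negSucc 6],[.ofNat 8]],[[.ofNat 60,.ofNat 4,.negSucc 27,.negSucc 1],[.negSucc 325,.ofNat 92,.ofNat 130,.ofNat 9],[.ofNat 652,.negSucc 464,.negSucc 241,.negSucc 15],[.negSucc 507,.ofNat 861,.ofNat 228,.ofNat 14],[.negSucc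 67,.negSucc 773,.negSucc 111,.negSucc 5],[.ofNat 362,.ofNat 342,.ofNat 26,.ofNat 1],[.negSucc 211,.negSucc 60,.negSucc 1],[.ofNat 40,.ofNat 1]]]⟩
theorem c342 : chkE [e333,e334,e102,e246,e103,e313,e195,e335,e336,e337,e338,e339,e340,e341] e342 true [(2,3),(2,4),(3,5),(4,5)] 0 5 6 (0,[]) [(1,[]),(2,[(2,5)]),(2,[(2,3),(2,5),(4,2)]),(2,[(2,3),(4,5)]),(2,[]),(3,[]),(4,[(0,1)]),(5,[(2,4),(3,2)]),(6,[]),(3,[]),(4,[]),(7,[(2,4),(3,2)]),(8,[(3,4)]),(8,[]),(9,[]),(10,[]),(11,[(5,6),(5,7)]),(12,[(6,7)]),(13,[(5,6),(5,7)])] = true := by decide +kernel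
theorem k342 (h : Hy) : e342.ok := h.step (fac (k333 h) (fac (k334 h) (fac (k102 h) (fac (k246 h) (fac (k103 h) (fac (k313 h) (fac (k195 h) (fac (k335 h) (fac (k336 h) (fac (k337 h) (fac (k338 h) (fac (k339 h) (fac (k340 h) (fac (k341 h) fan)))))))))))))) c342

def e343 : Ent := ⟨2,[(0,1),(0,5),(2,3),(2,4),(3,5),(4,5)],[[[.ofNat 2,.negSucc 1],[.negSucc 8,.ofNat 9],[.ofNat 16,.negSucc 15],[.negSucc 13,.ofNat 14],[.ofNat 6,.negSucc 5],[.negSucc 0,.ofNat 1]],[[.ofNat 16,.negSucc 27,.ofNat 10,.ofNat 2],[.negSucc 57,.ofNat 116,.negSucc 48,.negSucc 8],[.ofNat 63,.negSucc 176,.ofNat 98,.ofNat 16],[.ofNat 9,.ofNat 107,.negSucc 101,.negSucc 13],[.negSucc 65,.ofNat 2,.ofNat 58,.ofNat 6],[.ofNat 48,.negSucc 29,.negSucc 16,.negSucc 0],[.negSucc 12,.ofNat 11,.ofNat 2],[.ofNat 1,.negSucc 0]]]⟩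
theorem c343 : chkE [e342] e343 true [(0,5),(2,3),(2,4),(3,5),(4,5)] 0 1 6 (0,[]) [(6,[]),(6,[]),(6,[]),(6,[]),(7,[]),(7,[]),(7,[]),(7,[]),(7,[]),(7,[]),(7,[]),(7,[]),(7,[]),(7,[]),(7,[]),(7,[]),(8,[]),(8,[]),(8,[]),(8,[])] = true := by decide +kernel
theorem k343 (h : Hy) : e343.ok := h.step (fac (k342 h) fan) c343

def e344 : Ent := ⟨2,[(0,4),(1,5),(2,3),(2,4),(3,5),(4,5)],[[[.ofNat 4],[.negSucc 19],[.ofNat 41],[.negSucc 43],[.ofNat 26],[.negSucc 7],[.ofNat 1]],[[.ofNat 20,.negSucc 23],[.negSucc 67,.ofNat 120],[.ofNat 45,.negSucc 245],[.ofNat 108,.ofNat 264],[.negSucc 221,.negSucc 155],[.ofNat 168,.ofNat 48],[.negSucc 58,.negSucc 5],[.ofNat 8]]]⟩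
theorem c344 : chkE [e342] e344 true [(1,5),(2,3),(2,4),(3,5),(4,5)] 0 4 6 (0,[(0,1)]) [(6,[]),(6,[]),(6,[]),(6,[]),(6,[]),(7,[]),(7,[]),(7,[]),(7,[]),(7,[]),(7,[]),(7,[]),(7,[]),(7,[]),(7,[]),(8,[]),(8,[]),(8,[]),(8,[])] = true := by decide +kernel
theorem k344 (h : Hy) : e344.ok := h.step (fac (k342 h) fan) c344

def e345 : Ent := ⟨2,[(0,3),(1,3),(2,3),(2,5),(3,4)],[[[.ofNat 6],[.negSucc 16],[.ofNat 17],[.negSucc 6],[.ofNat 1]],[[.ofNat 18,.negSucc 11],[.negSucc 26,.ofNat 34],[.negSucc 16,.negSucc 33],[.ofNat 47,.ofNat 14],[.negSucc 24,.negSucc 1],[.ofNat 4]]]⟩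
theorem c345 : chkE [e171] e345 false [(0,3),(1,3),(2,3),(3,4)] 0 2 5 (0,[(2,3)]) [(5,[]),(5,[]),(5,[])] = true := by decide +kernel
theorem k345 (h : Hy) : e345.ok := h.step (fac (k171 h) fan) c345

def e346 : Ent := ⟨2,[(0,5),(1,5),(2,3),(2,4),(3,5),(4,5)],[[[.ofNat 6],[.negSucc 28],[.ofNat 57],[.negSucc 57],[.ofNat 32],[.negSucc 8],[.ofNat 1]],[[.ofNat 24,.negSucc 23],[.negSucc 73,.ofNat 116],[.ofNat 25,.negSucc 227],[.ofNat 167,.ofNat 232],[.negSucc 277,.negSucc 127],[.ofNat 188,.ofNat 36],[.negSucc 58,.negSucc 3],[.ofNat 7]]]⟩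
theorem c346 : chkE [e345] e346 true [(0,5),(1,5),(2,4),(3,5),(4,5)] 2 3 6 (0,[(2,5),(3,4),(3,2)]) [(6,[]),(6,[]),(6,[]),(6,[]),(7,[]),(7,[]),(7,[]),(7,[]),(7,[]),(7,[]),(7,[]),(7,[]),(7,[]),(7,[]),(7,[]),(8,[]),(8,[]),(8,[]),(8,[])] = true := by decide +kernel
theorem k346 (h : Hy) : e346.ok := h.step (fac (k345 h) fan) c346

def e347 : Ent := ⟨3,[(0,5),(1,6),(2,3),(2,4),(3,5),(4,5)],[[[.negSucc 1],[.ofNat 9],[.negSucc 15],[.ofNat 14],[.negSucc 5],[.ofNat 1]],[[.negSucc 23,.ofNat 16],[.ofNat 92,.negSucc 71],[.negSucc 119,.ofNat 128],[.ofNat 40,.negSucc 111],[.ofNat 40,.ofNat 48],[.negSucc 35,.negSucc 7],[.ofNat 8]],[[.negSucc 43,.ofNat 128,.negSucc 37,.negSucc 3],[.negSucc 65,.negSucc 435,.ofNat 179,.ofNat 18],[.ofNat 756,.ofNat 390,.negSucc 339,.negSucc 31],[.negSucc 1443,.ofNat 242,.ofNat 330,.ofNat 28],[.ofNat 1076,.negSucc 627,.negSucc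 169,.negSucc 11],[.negSucc 209,.ofNat 384,.ofNat 43,.ofNat 2],[.negSucc 107,.negSucc 81,.negSucc 3],[.ofNat 40,.ofNat 2]]]⟩
theorem c347 : chkE [e342,e343,e181,e344,e346] e347 false [(0,5),(2,3),(2,4),(3,5),(4,5)] 0 1 6 (0,[]) [(1,[]),(2,[(2,5),(3,2),(4,3)]),(3,[(2,3),(2,5),(4,2)]),(3,[(2,3),(4,5)]),(4,[])] = true := by decide +kernel
theorem k347 (h : Hy) : e347.ok := h.step (fac (k342 h) (fac (k343 h) (fac (k181 h) (fac (k344 h) (fac (k346 h) fan))))) c347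

def e348 : Ent := ⟨3,[(0,4),(1,5),(2,3),(2,4),(3,5),(3,6)],[[[.negSucc 1],[.ofNat 9],[.negSucc 15],[.ofNat 14],[.negSucc 5],[.ofNat 1]],[[.negSucc 25,.ofNat 16],[.ofNat 101,.negSucc 71],[.negSucc 135,.ofNat 128],[.ofNat 54,.negSucc 111],[.ofNat 34,.ofNat 48],[.negSucc 34,.negSucc 7],[.ofNat 8]],[[.negSucc 51,.ofNat 136,.negSucc 35,.negSucc 3],[.negSucc 57,.negSucc 473,.ofNat 170,.ofNat 18],[.ofNat 820,.ofNat 463,.negSucc 323,.negSucc 31],[.negSucc 1620,.ofNat 170,.ofNat 316,.ofNat 28],[.ofNat 1264,.negSucc 589,.negSucc 163,.negSucc 11],[.negSucc 303,.ofNat 374,.ofNat 42,.ofNat 2],[.negSucc 87,.negSucc 80,.negSucc 3],[.ofNat 39,.ofNat 2]]]⟩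
theorem c348 : chkE [e111,e306,e177,e180] e348 false [(0,4),(1,5),(2,3),(2,4),(3,5)] 0 3 6 (0,[]) [(1,[]),(2,[(0,1),(4,5)]),(3,[])] = true := by decide +kernel
theorem k348 (h : Hy) : e348.ok := h.step (fac (k111 h) (fac (k306 h) (fac (k177 h) (fac (k180 h) fan)))) c348

def e349 : Ent := ⟨3,[(0,4),(1,5),(2,3),(2,4),(3,5),(4,6)],[[[.negSucc 1],[.ofNat 9],[.negSucc 15],[.ofNat 14],[.negSucc 5],[.ofNat 1]],[[.negSucc 27,.ofNat 14],[.ofNat 112,.negSucc 62],[.negSucc 160,.ofNat 112],[.ofNat 84,.negSucc 97],[.ofNat 14,.ofNat 42],[.negSucc 27,.negSucc 6],[.ofNat 7]],[[.negSucc 57,.ofNat 134,.negSucc 23,.negSucc 3],[.negSucc 46,.negSucc 498,.ofNat 116,.ofNat 18],[.ofNat 868,.ofNat 600,.negSucc 227,.negSucc 31],[.negSucc 1814,.negSucc 87,.ofNat 232,.ofNat 28],[.ofNat 1550,.negSucc 357,.negSucc 127,.negSucc 11],[.negSucc 516,.ofNat 273,.ofNat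 36,.ofNat 2],[.negSucc 7,.negSucc 63,.negSucc 3],[.ofNat 27,.ofNat 2]]]⟩
theorem c349 : chkE [e111,e133,e180,e344] e349 false [(0,4),(1,5),(2,3),(2,4),(3,5)] 0 4 6 (0,[]) [(1,[(0,1),(2,3),(4,5)]),(2,[]),(3,[])] = true := by decide +kernel
theorem k349 (h : Hy) : e349.ok := h.step (fac (k111 h) (fac (k133 h) (fac (k180 h) (fac (k344 h) fan)))) c349

def e350 : Ent := ⟨2,[(0,4),(0,5),(1,6),(2,3),(2,4),(3,5),(3,6)],[[[.negSucc 1,.ofNat 2],[.ofNat 11,.negSucc 10],[.negSucc 24,.ofNat 25],[.ofNat 30,.negSucc 29],[.negSucc 19,.ofNat 20],[.ofNat 7,.negSucc 6],[.negSucc 0,.ofNat 1]],[[.negSucc 33,.ofNat 50,.negSucc 15],[.ofNat 169,.negSucc 256,.ofNat 88],[.negSucc 325,.ofNat 526,.negSucc 199],[.ofNat 285,.negSucc 524,.ofNat 240],[.negSucc 69,.ofNat 230,.negSucc 159],[.negSucc 60,.ofNat 5,.ofNat 56],[.ofNat 46,.negSucc 37,.negSucc 7],[.negSucc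 8,.ofNat 9]]]⟩
theorem c350 : chkE [e247] e350 true [(0,4),(0,5),(2,3),(2,4),(3,5),(3,6)] 1 6 7 (0,[]) [(7,[]),(7,[]),(7,[]),(7,[]),(7,[]),(7,[]),(8,[]),(8,[]),(8,[]),(8,[]),(8,[]),(8,[]),(8,[]),(8,[]),(8,[]),(8,[]),(8,[]),(8,[]),(8,[]),(9,[]),(9,[]),(9,[]),(9,[])] = true := by decide +kernel
theorem k350 (h : Hy) : e350.ok := h.step (fac (k247 h) fan) c350

end Pool.Agent.RGA.CT
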