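import Pool.Agent.RGA.Cert13

set_option autoImplicit false

namespace Pool.Agent.RGA.CT

def e351 : Ent := ⟨2,[(0,4),(1,5),(1,6),(2,3),(2,4),(3,5),(4,6)],[[[.negSucc 1,.ofNat 2],[.ofNat 11,.negSucc 10],[.negSucc 24,.ofNat 25],[.ofNat 30,.negSucc 29],[.negSucc 19,.ofNat 20],[.ofNat 7,.negSucc 6],[.negSucc 0,.ofNat 1]],[[.negSucc 35,.ofNat 50,.negSucc 13],[.ofNat 182,.negSucc 258,.ofNat 77],[.negSucc 361,.ofNat 537,.negSucc 174],[.ofNat 340,.negSucc 549,.ofNat 210],[.negSucc 119,.ofNat 260,.negSucc 139],[.negSucc 33,.negSucc 14,.ofNat 49],[.ofNat 38,.negSucc 30,.negSucc 6],[.negSucc 7,.ofNat 8]]]⟩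
theorem c351 : chkE [e150] e351 true [(1,5),(1,6),(2,3),(2,4),(3,5),(4,6)] 0 4 7 (0,[(0,1)]) [(7,[]),(7,[]),(7,[]),(7,[]),(7,[]),(7,[]),(8,[]),(8,[]),(8,[]),(8,[]),(8,[]),(8,[]),(8,[]),(8,[]),(8,[]),(8,[]),(8,[]),(8,[]),(9,[]),(9,[]),(9,[]),(9,[])] = true := by decide +kernel
theorem k351 (h : Hy) : e351.ok := h.step (fac (k150 h) fan) c351

def e352 : Ent := ⟨3,[(0,4),(0,5),(1,6),(2,3),(2,4),(3,6),(5,7)],[[[.ofNat 1,.negSucc 0],[.negSucc 4,.ofNat 5],[.ofNat 10,.negSucc 9],[.negSucc 9,.ofNat 10],[.ofNat 5,.negSucc 4],[.negSucc 0,.ofNat 1]],[[.ofNat 25,.negSucc 32,.ofNat 8],[.negSucc 117,.ofNat 158,.negSucc 39],[.ofNat 215,.negSucc 294,.ofNat 80],[.negSucc 179,.ofNat 260,.negSucc 79],[.ofNat 55,.negSucc 94,.ofNat 40],[.ofNat 10,.negSucc 1,.negSucc 7],[.negSucc 6,.ofNat 7]],[[.ofNat 223,.negSucc 381,.ofNat 176,.negSucc 13,.negSucc 2],[.negSucc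 839,.ofNat 1571,.negSucc 821,.ofNat 76,.ofNat 15],[.ofNat 878,.negSucc 2144,.ofNat 1467,.negSucc 169,.negSucc 29],[.ofNat 405,.ofNat 530,.negSucc 1164,.ofNat 200,.ofNat 30],[.negSucc 1404,.ofNat 1280,.ofNat 270,.negSucc 129,.negSucc 14],[.ofNat 922,.negSucc 1112,.ofNat 144,.ofNat 44,.ofNat 3],[.negSucc 159,.ofNat 239,.negSucc 72,.negSucc 5],[.negSucc 22,.ofNat 20,.ofNat 3]]]⟩
theorem c352 : chkE [e307,e225,e285,e350,e275,e351] e352 false [(0,4),(0,5),(1,6),(2,3),(2,4),(3,6)] 0 5 7 (0,[(5,6)]) [(1,[(5,6)]),(2,[(2,3)]),(3,[]),(4,[]),(5,[(0,1),(2,3),(4,5),(4,6)])] = true := by decide +kernel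
theorem k352 (h : Hy) : e352.ok := h.step (fac (k307 h) (fac (k225 h) (fac (k285 h) (fac (k350 h) (fac (k275 h) (fac (k351 h) fan)))))) c352

def e353 : Ent := ⟨2,[(0,5),(1,6),(2,4),(2,5),(3,4),(3,5),(4,6)],[[[.negSucc 3],[.ofNat 24],[.negSucc 60],[.ofNat 85],[.negSucc 69],[.ofNat 34],[.negSucc 8],[.ofNat 1]],[[.negSucc 55,.ofNat 36],[.ofNat 292,.negSucc 215],[.negSucc 589,.ofNat 549],[.ofNat 519,.negSucc 764],[.negSucc 44,.ofNat 630],[.negSucc 293,.negSucc 305],[.ofNat 248,.ofNat 81],[.negSucc 84,.negSucc 8],[.ofNat 11]]]⟩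
theorem c353 : chkE [e335] e353 true [(0,5),(2,4),(2,5),(3,4),(3,5),(4,6)] 1 6 7 (0,[]) [(7,[]),(7,[]),(7,[]),(7,[]),(7,[]),(7,[]),(8,[]),(8,[]),(8,[]),(8,[]),(8,[]),(8,[]),(8,[]),(8,[]),(8,[]),(8,[]),(8,[]),(8,[]),(8,[]),(9,[]),(9,[]),(9,[]),(9,[])] = true := by decide +kernel
theorem k353 (h : Hy) : e353.ok := h.step (fac (k335 h) fan) c353

def e354 : Ent := ⟨2,[(0,5),(1,6),(2,3),(2,5),(3,6),(4,5),(4,6)],[[[.negSucc 3],[.ofNat 24],[.negSucc 60],[.ofNat 85],[.negSucc 69],[.ofNat 34],[.negSucc 8],[.ofNat 1]],[[.negSucc 59,.ofNat 32],[.ofNat 320,.negSucc 191],[.negSucc 674,.ofNat 488],[.ofNat 665,.negSucc 679],[.negSucc 199,.ofNat 560],[.negSucc 189,.negSucc 271],[.ofNat 205,.ofNat 72],[.negSucc 74,.negSucc 7],[.ofNat 10]]]⟩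
theorem c354 : chkE [e197] e354 true [(1,6),(2,3),(2,5),(3,6),(4,5),(4,6)] 0 5 7 (0,[(0,1),(3,4),(3,5)]) [(7,[]),(7,[]),(7,[]),(7,[]),(7,[]),(7,[]),(8,[]),(8,[]),(8,[]),(8,[]),(8,[]),(8,[]),(8,[]),(8,[]),(8,[]),(8,[]),(8,[]),(8,[]),(9,[]),(9,[]),(9,[]),(9,[])] = true := by decide +kernel
theorem k354 (h : Hy) : e354.ok := h.step (fac (k197 h) fan) c354

def e355 : Ent := ⟨3,[(0,5),(1,6),(2,3),(2,5),(3,6),(4,5),(4,7)],[[[.ofNat 2],[.negSucc 10],[.ofNat 25],[.negSucc 29],[.ofNat 20],[.negSucc 6],[.ofNat 1]],[[.ofNat 44,.negSucc 17],[.negSucc 223,.ofNat 99],[.ofNat 451,.negSucc 224],[.negSucc 434,.ofNat 270],[.ofNat 170,.negSucc 179],[.ofNat 26,.ofNat 63],[.negSucc 40,.negSucc 8],[.ofNat 9]],[[.ofNat 296,.negSucc 335,.ofNat 52,.ofNat 4],[.negSucc 1023,.ofNat 1674,.negSucc 293,.negSucc 21],[.ofNat 458,.negSucc 3238,.ofNat 694,.ofNat 50],[.ofNat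 2670,.ofNat 2843,.negSucc 879,.negSucc 59],[.negSucc 5099,.negSucc 699,.ofNat 640,.ofNat 40],[.ofNat 3804,.negSucc 623,.negSucc 261,.negSucc 13],[.negSucc 1165,.ofNat 481,.ofNat 54,.ofNat 2],[.ofNat 22,.negSucc 100,.negSucc 3],[.ofNat 40,.ofNat 2]]]⟩
theorem c355 : chkE [e349,e275,e351,e295,e353,e354] e355 false [(0,5),(1,6),(2,3),(2,5),(3,6),(4,5)] 0 4 7 (0,[(4,6),(5,4)]) [(1,[(4,5)]),(2,[(4,6),(5,4)]),(3,[(2,4)]),(4,[(3,4)]),(5,[])] = true := by decide +kernel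
theorem k355 (h : Hy) : e355.ok := h.step (fac (k349 h) (fac (k275 h) (fac (k351 h) (fac (k295 h) (fac (k353 h) (fac (k354 h) fan)))))) c355

def e356 : Ent := ⟨2,[(0,1),(0,4),(1,5),(2,3),(2,4),(3,5),(4,6)],[[[.negSucc 1,.ofNat 4,.negSucc 1],[.ofNat 9,.negSucc 17,.ofNat 9],[.negSucc 15,.ofNat 32,.negSucc 15],[.ofNat 14,.negSucc 27,.ofNat 14],[.negSucc 5,.ofNat 12,.negSucc 5],[.ofNat 1,.negSucc 1,.ofNat 1]],[[.negSucc 35,.ofNat 82,.negSucc 53,.ofNat 6,.ofNat 2],[.ofNat 150,.negSucc 348,.ofNat 239,.negSucc 30,.negSucc 8],[.negSucc 231,.ofNat 562,.negSucc 411,.ofNat 66,.ofNat 16],[.ofNat 147,.negSucc 395,.ofNat 337,.negSucc 73,.negSucc 13],[.negSucc 7,.ofNat 74,.negSucc 117,.ofNat 46,.ofNat 6],[.negSucc 31,.ofNat 47,.ofNat 1,.negSucc 14,.negSucc 0],[.ofNat 12,.negSucc 21,.ofNat 8,.ofNat 2],[.negSucc 0,.ofNat 2,.negSucc 0]]]⟩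
theorem c356 : chkE [e305] e356 false [(0,1),(0,4),(1,5),(2,3),(2,4),(3,5)] 0 4 6 (0,[]) [(6,[]),(6,[]),(6,[])] = true := by decide +kernel
theorem k356 (h : Hy) : e356.ok := h.step (fac (k305 h) fan) c356

def e357 : Ent := ⟨2,[(0,3),(0,4),(1,5),(2,3),(2,5),(3,4),(4,6)],[[[.negSucc 3,.ofNat 4],[.ofNat 20,.negSucc 19],[.negSucc 40,.ofNat 41],[.ofNat 44,.negSucc 43],[.negSucc 25,.ofNat 26],[.ofNat 8,.negSucc 7],[.negSucc 0,.ofNat 1]],[[.negSucc 51,.ofNat 76,.negSucc 23],[.ofNat 228,.negSucc 347,.ofNat 120],[.negSucc 372,.ofNat 619,.negSucc 245],[.ofNat 244,.negSucc 507,.ofNat 264],[.ofNat 14,.ofNat 142,.negSucc 155],[.negSucc 103,.ofNat 56,.ofNat 48],[.ofNat 51,.negSucc 44,.negSucc 5],[.negSucc 7,.ofNat 8]]]⟩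
theorem c357 : chkE [e177] e357 false [(0,3),(0,4),(1,5),(2,3),(2,5),(3,4)] 0 4 6 (0,[]) [(6,[]),(6,[]),(6,[])] = true := by decide +kernel
theorem k357 (h : Hy) : e357.ok := h.step (fac (k177 h) fan) c357

def e358 : Ent := ⟨2,[(0,3),(0,4),(1,5),(2,3),(2,4),(3,5),(4,6)],[[[.negSucc 3,.ofNat 4],[.ofNat 20,.negSucc 19],[.negSucc 40,.ofNat 41],[.ofNat 44,.negSucc 43],[.negSucc 25,.ofNat 26],[.ofNat 8,.negSucc 7],[.negSucc 0,.ofNat 1]],[[.negSucc 55,.ofNat 80,.negSucc 23],[.ofNat 248,.negSucc 367,.ofNat 120],[.negSucc 413,.ofNat 660,.negSucc 245],[.ofNat 288,.negSucc 551,.ofNat 264],[.negSucc 11,.ofNat 168,.negSucc 155],[.negSucc 95,.ofNat 48,.ofNat 48],[.ofNat 50,.negSucc 43,.negSucc 5],[.negSucc 7,.ofNat 8]]]⟩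
theorem c358 : chkE [e306] e358 false [(0,3),(0,4),(1,5),(2,3),(2,4),(3,5)] 0 4 6 (0,[]) [(6,[]),(6,[]),(6,[])] = true := by decide +kernel
theorem k358 (h : Hy) : e358.ok := h.step (fac (k306 h) fan) c358

def e359 : Ent := ⟨2,[(0,4),(0,5),(1,5),(2,3),(2,4),(3,5),(4,6)],[[[.negSucc 3,.ofNat 4],[.ofNat 20,.negSucc 19],[.negSucc 40,.ofNat 41],[.ofNat 44,.negSucc 43],[.negSucc 25,.ofNat 26],[.ofNat 8,.negSucc 7],[.negSucc 0,.ofNat 1]],[[.negSucc 59,.ofNat 80,.negSucc 19],[.ofNat 272,.negSucc 371,.ofNat 100],[.negSucc 474,.ofNat 680,.negSucc 204],[.ofNat 373,.negSucc 592,.ofNat 220],[.negSucc 81,.ofNat 212,.negSucc 129],[.negSucc 61,.ofNat 22,.ofNat 40],[.ofNat 41,.negSucc 35,.negSucc 4],[.negSucc 6,.ofNat 7]]]⟩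
theorem c359 : chkE [e133] e359 false [(0,4),(0,5),(1,5),(2,3),(2,4),(3,5)] 0 4 6 (0,[]) [(6,[]),(6,[]),(6,[])] = true := by decide +kernel
theorem k359 (h : Hy) : e359.ok := h.step (fac (k133 h) fan) c359

def e360 : Ent := ⟨3,[(0,4),(0,7),(1,5),(2,3),(2,4),(3,5),(4,6)],[[[.ofNat 2,.negSucc 1],[.negSucc 8,.ofNat 9],[.ofNat 16,.negSucc 15],[.negSucc 13,.ofNat 14],[.ofNat 6,.negSucc 5],[.negSucc 0,.ofNat 1]],[[.ofNat 44,.negSucc 59,.ofNat 16],[.negSucc 181,.ofNat 254,.negSucc 71],[.ofNat 280,.negSucc 407,.ofNat 128],[.negSucc 179,.ofNat 292,.negSucc 111],[.ofNat 20,.negSucc 67,.ofNat 48],[.ofNat 26,.negSucc 17,.negSucc 7],[.negSucc 7,.ofNat 8]],[[.ofNat 296,.negSucc 557,.ofNat 294,.negSucc 25,.negSucc 5],[.negSucc 801,.ofNat 1837,.negSucc 1190,.ofNat 129,.ofNat 27],[.ofNat 53,.negSucc 1494,.ofNat 1752,.negSucc 261,.negSucc 47],[.ofNat 1853,.negSucc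 1197,.negSucc 974,.ofNat 278,.ofNat 42],[.negSucc 2261,.ofNat 2532,.negSucc 89,.negSucc 161,.negSucc 17],[.ofNat 952,.negSucc 1294,.ofNat 291,.ofNat 49,.ofNat 3],[.negSucc 54,.ofNat 145,.negSucc 83,.negSucc 5],[.negSucc 34,.ofNat 32,.ofNat 3]]]⟩
theorem c360 : chkE [e349,e356,e357,e358,e359,e275] e360 false [(0,4),(1,5),(2,3),(2,4),(3,5),(4,6)] 0 0 7 (0,[]) [(1,[]),(2,[(2,3)]),(3,[]),(4,[]),(5,[(5,6)])] = true := by decide +kernel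
theorem k360 (h : Hy) : e360.ok := h.step (fac (k349 h) (fac (k356 h) (fac (k357 h) (fac (k358 h) (fac (k359 h) (fac (k275 h) fan)))))) c360

def e361 : Ent := ⟨3,[(0,6),(2,3),(2,4),(3,5),(4,6),(5,7)],[[[.negSucc 0],[.ofNat 5],[.negSucc 9],[.ofNat 10],[.negSucc 4],[.ofNat 1]],[[.negSucc 15,.ofNat 10],[.ofNat 71,.negSucc 49],[.negSucc 114,.ofNat 100],[.ofNat 70,.negSucc 99],[.ofNat 10,.ofNat 50],[.negSucc 28,.negSucc 9],[.ofNat 9]],[[.negSucc 63,.ofNat 162,.negSucc 39,.negSucc 0],[.ofNat 85,.negSucc 714,.ofNat 202,.ofNat 5],[.ofNat 495,.ofNat 1144,.negSucc 409,.negSucc 9],[.negSucc 1509,.negSucc 664,.ofNat 420,.ofNat 10],[.ofNat 1630,.negSucc 149,.negSucc 219,.negSucc 4],[.negSucc 710,.ofNat 323,.ofNat 50,.ofNat 1],[.ofNat 35,.negSucc 99,.negSucc 1],[.ofNat 40,.ofNat 1]]]⟩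
theorem c361 : chkE [e187,e150,e207,e168,e195,e197] e361 false [(0,6),(2,3),(2,4),(3,5),(4,6)] 0 5 7 (0,[(3,4),(5,6)]) [(1,[]),(2,[(3,4),(5,6)]),(3,[(2,5),(3,2)]),(4,[(2,3),(4,5)]),(5,[])] = true := by decide +kernel
theorem k361 (h : Hy) : e361.ok := h.step (fac (k187 h) (fac (k150 h) (fac (k207 h) (fac (k168 h) (fac (k195 h) (fac (k197 h) fan)))))) c361

def e362 : Ent := ⟨2,[(0,1),(0,6),(2,3),(2,4),(3,5),(4,6),(5,7)],[[[.ofNat 1,.negSucc 0],[.negSucc 4,.ofNat 5],[.ofNat 10,.negSucc 9],[.negSucc 9,.ofNat 10],[.ofNat 5,.negSucc 4],[.negSucc 0,.ofNat 1]],[[.ofNat 25,.negSucc 33,.ofNat 8,.ofNat 1],[.negSucc 116,.ofNat 164,.negSucc 41,.negSucc 4],[.ofNat 209,.negSucc 308,.ofNat 90,.ofNat 10],[.negSucc 164,.ofNat 275,.negSucc 99,.negSucc 9],[.ofNat 35,.negSucc 99,.ofNat 60,.ofNat 5],[.ofNat 25,.negSucc 5,.negSucc 17,.negSucc 0],[.negSucc 12,.ofNat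 11,.ofNat 2],[.ofNat 1,.negSucc 0]]]⟩
theorem c362 : chkE [e188] e362 false [(0,1),(0,6),(2,3),(2,4),(3,5),(4,6)] 0 5 7 (0,[(3,4),(5,6)]) [(7,[]),(7,[]),(7,[]),(7,[]),(7,[])] = true := by decide +kernel
theorem k362 (h : Hy) : e362.ok := h.step (fac (k188 h) fan) c362

def e363 : Ent := ⟨2,[(0,5),(1,6),(2,3),(2,5),(3,7),(4,5),(4,6)],[[[.ofNat 2],[.negSucc 10],[.ofNat 25],[.negSucc 29],[.ofNat 20],[.negSucc 6],[.ofNat 1]],[[.ofNat 44,.negSucc 17],[.negSucc 223,.ofNat 99],[.ofNat 451,.negSucc 224],[.negSucc 434,.ofNat 270],[.ofNat 170,.negSucc 179],[.ofNat 26,.ofNat 63],[.negSucc 40,.negSucc 8],[.ofNat 9]]]⟩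
theorem c363 : chkE [e182] e363 false [(0,5),(1,6),(2,3),(2,5),(4,5),(4,6)] 0 3 7 (0,[(2,3),(2,6),(4,2),(5,4)]) [(7,[]),(7,[]),(7,[]),(7,[]),(7,[])] = true := by decide +kernel
theorem k363 (h : Hy) : e363.ok := h.step (fac (k182 h) fan) c363

def e364 : Ent := ⟨2,[(0,5),(1,6),(2,3),(2,4),(3,5),(4,7),(5,6)],[[[.ofNat 2],[.negSucc 10],[.ofNat 25],[.negSucc 29],[.ofNat 20],[.negSucc 6],[.ofNat 1]],[[.ofNat 44,.negSucc 17],[.negSucc 223,.ofNat 99],[.ofNat 451,.negSucc 224],[.negSucc 434,.ofNat 270],[.ofNat 170,.negSucc 179],[.ofNat 26,.ofNat 63],[.negSucc 40,.negSucc 8],[.ofNat 9]]]⟩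
theorem c364 : chkE [e189] e364 false [(0,5),(1,6),(2,3),(2,4),(3,5),(5,6)] 0 4 7 (0,[(2,3),(4,6),(5,4)]) [(7,[]),(7,[]),(7,[]),(7,[]),(7,[])] = true := by decide +kernel
theorem k364 (h : Hy) : e364.ok := h.step (fac (k189 h) fan) c364

def e365 : Ent := ⟨2,[(0,6),(1,6),(2,3),(2,4),(3,5),(4,6),(5,7)],[[[.ofNat 2],[.negSucc 10],[.ofNat 25],[.negSucc 29],[.ofNat 20],[.negSucc 6],[.ofNat 1]],[[.ofNat 46,.negSucc 15],[.negSucc 236,.ofNat 88],[.ofNat 487,.negSucc 199],[.negSucc 489,.ofNat 240],[.ofNat 220,.negSucc 159],[.negSucc 0,.ofNat 56],[.negSucc 32,.negSucc 7],[.ofNat 8]]]⟩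
theorem c365 : chkE [e190] e365 false [(0,6),(1,6),(2,3),(2,4),(3,5),(4,6)] 0 5 7 (0,[(3,4),(5,6)]) [(7,[]),(7,[]),(7,[]),(7,[]),(7,[])] = true := by decide +kernel
theorem k365 (h : Hy) : e365.ok := h.step (fac (k190 h) fan) c365

def e366 : Ent := ⟨2,[(0,6),(0,8),(1,7),(2,3),(2,4),(3,5),(4,6),(5,7)],[[[.negSucc 0,.ofNat 1],[.ofNat 6,.negSucc 5],[.negSucc 14,.ofNat 15],[.ofNat 20,.negSucc 19],[.negSucc 14,.ofNat 15],[.ofNat 6,.negSucc 5],[.negSucc 0,.ofNat 1]],[[.negSucc 35,.ofNat 47,.negSucc 10],[.ofNat 206,.negSucc 271,.ofNat 66],[.negSucc 479,.ofNat 645,.negSucc 164],[.ofNat 570,.negSucc 789,.ofNat 220],[.negSucc 339,.ofNat 505,.negSucc 164],[.ofNat 66,.negSucc 131,.ofNat 66],[.ofNat 24,.negSucc 12,.negSucc 10],[.negSucc 9,.ofNat 10]]]⟩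
theorem c366 : chkE [e110] e366 false [(0,6),(1,7),(2,3),(2,4),(3,5),(4,6),(5,7)] 0 0 8 (0,[]) [(8,[]),(8,[]),(8,[]),(8,[]),(8,[]),(8,[])] = true := by decide +kernel
theorem k366 (h : Hy) : e366.ok := h.step (fac (k110 h) fan) c366

def e367 : Ent := ⟨2,[(0,6),(0,7),(1,8),(2,3),(2,4),(3,5),(4,6),(5,7)],[[[.negSucc 0,.ofNat 1],[.ofNat 6,.negSucc 5],[.negSucc 14,.ofNat 15],[.ofNat 20,.negSucc 19],[.negSucc 14,.ofNat 15],[.ofNat 6,.negSucc 5],[.negSucc 0,.ofNat 1]],[[.negSucc 34,.ofNat 46,.negSucc 10],[.ofNat 200,.negSucc 265,.ofNat 66],[.negSucc 464,.ofNat 630,.negSucc 164],[.ofNat 550,.negSucc 769,.ofNat 220],[.negSucc 324,.ofNat 490,.negSucc 164],[.ofNat 60,.negSucc 125,.ofNat 66],[.ofNat 25,.negSucc 13,.negSucc 10],[.negSucc 9,.ofNat 10]]]⟩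
theorem c367 : chkE [e252] e367 false [(0,6),(0,7),(2,3),(2,4),(3,5),(4,6),(5,7)] 0 1 8 (0,[]) [(8,[]),(8,[]),(8,[]),(8,[]),(8,[]),(8,[]),(8,[])] = true := by decide +kernel
theorem k367 (h : Hy) : e367.ok := h.step (fac (k252 h) fan) c367

def e368 : Ent := ⟨2,[(0,7),(1,8),(2,3),(2,6),(3,6),(4,5),(4,6),(5,7)],[[[.negSucc 1],[.ofNat 13],[.negSucc 35],[.ofNat 55],[.negSucc 49],[.ofNat 27],[.negSucc 7],[.ofNat 1]],[[.negSucc 61,.ofNat 26],[.ofNat 377,.negSucc 168],[.negSucc 946,.ofNat 468],[.ofNat 1237,.negSucc 714],[.negSucc 834,.ofNat 650],[.ofNat 187,.negSucc 350],[.ofNat 103,.ofNat 104],[.negSucc 72,.negSucc 12],[.ofNat 13]]]⟩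
theorem c368 : chkE [e321] e368 false [(0,7),(2,3),(2,6),(3,6),(4,5),(4,6),(5,7)] 0 1 8 (0,[]) [(8,[]),(8,[]),(8,[]),(8,[]),(8,[]),(8,[]),(8,[])] = true := by decide +kernel
theorem k368 (h : Hy) : e368.ok := h.step (fac (k321 h) fan) c368

def e369 : Ent := ⟨2,[(0,7),(1,8),(2,3),(2,4),(3,6),(4,6),(5,6),(5,7)],[[[.negSucc 1],[.ofNat 13],[.negSucc 35],[.ofNat 55],[.negSucc 49],[.ofNat 27],[.negSucc 7],[.ofNat 1]],[[.negSucc 61,.ofNat 26],[.ofNat 377,.negSucc 168],[.negSucc 946,.ofNat 468],[.ofNat 1237,.negSucc 714],[.negSucc 834,.ofNat 650],[.ofNat 187,.negSucc 350],[.ofNat 103,.ofNat 104],[.negSucc 72,.negSucc 12],[.ofNat 13]]]⟩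
theorem c369 : chkE [e341] e369 false [(0,7),(2,3),(2,4),(3,6),(4,6),(5,6),(5,7)] 0 1 8 (0,[]) [(8,[]),(8,[]),(8,[]),(8,[]),(8,[]),(8,[]),(8,[])] = true := by decide +kernel
theorem k369 (h : Hy) : e369.ok := h.step (fac (k341 h) fan) c369

def e370 : Ent := ⟨2,[(2,3),(2,4),(3,5),(4,6),(5,6),(6,7)],[[[.ofNat 2],[.negSucc 10],[.ofNat 25],[.negSucc 29],[.ofNat 20],[.negSucc 6],[.ofNat 1]],[[.ofNat 18,.negSucc 23],[.negSucc 72,.ofNat 132],[.ofNat 82,.negSucc 299],[.ofNat 55,.ofNat 360],[.negSucc 209,.negSucc 239],[.ofNat 197,.ofNat 84],[.negSucc 81,.negSucc 11],[.ofNat 13]]]⟩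
theorem c370 : chkE [e160] e370 false [(2,3),(2,4),(3,5),(4,6),(5,6)] 0 6 7 (0,[]) [(7,[]),(7,[]),(7,[]),(7,[])] = true := by decide +kernel
theorem k370 (h : Hy) : e370.ok := h.step (fac (k160 h) fan) c370

def e371 : Ent := ⟨2,[(0,7),(2,3),(2,4),(3,5),(4,6),(5,6),(6,7)],[[[.negSucc 1],[.ofNat 13],[.negSucc 35],[.ofNat 55],[.negSucc 49],[.ofNat 27],[.negSucc 7],[.ofNat 1]],[[.negSucc 33,.ofNat 24],[.ofNat 195,.negSucc 155],[.negSucc 442,.ofNat 432],[.ofNat 467,.negSucc 659],[.negSucc 134,.ofNat 600],[.negSucc 190,.negSucc 323],[.ofNat 215,.ofNat 96],[.negSucc 86,.negSucc 11],[.ofNat 13]]]⟩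
theorem c371 : chkE [e370] e371 true [(2,3),(2,4),(3,5),(4,6),(5,6),(6,7)] 0 7 8 (0,[]) [(8,[]),(8,[]),(8,[]),(8,[]),(8,[]),(8,[]),(8,[]),(9,[]),(9,[]),(9,[]),(9,[]),(9,[]),(9,[]),(9,[]),(9,[]),(9,[]),(9,[]),(9,[]),(9,[]),(9,[]),(9,[]),(9,[]),(10,[]),(10,[]),(10,[]),(10,[])] = true := by decide +kernel
theorem k371 (h : Hy) : e371.ok := h.step (fac (k370 h) fan) c371

def e372 : Ent := ⟨2,[(0,7),(1,8),(2,3),(2,4),(3,5),(4,6),(5,6),(6,7)],[[[.negSucc 1],[.ofNat 13],[.negSucc 35],[.ofNat 55],[.negSucc 49],[.ofNat 27],[.negSucc 7],[.ofNat 1]],[[.negSucc 61,.ofNat 26],[.ofNat 377,.negSucc 168],[.negSucc 946,.ofNat 468],[.ofNat 1237,.negSucc 714],[.negSucc 834,.ofNat 650],[.ofNat 187,.negSucc 350],[.ofNat 103,.ofNat 104],[.negSucc 72,.negSucc 12],[.ofNat 13]]]⟩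
theorem c372 : chkE [e371] e372 false [(0,7),(2,3),(2,4),(3,5),(4,6),(5,6),(6,7)] 0 1 8 (0,[]) [(8,[]),(8,[]),(8,[]),(8,[]),(8,[]),(8,[]),(8,[])] = true := by decide +kernel
theorem k372 (h : Hy) : e372.ok := h.step (fac (k371 h) fan) c372

def e373 : Ent := ⟨2,[(0,7),(2,3),(2,4),(3,5),(4,6),(5,7),(6,7)],[[[.negSucc 1],[.ofNat 13],[.negSucc 35],[.ofNat 55],[.negSucc 49],[.ofNat 27],[.negSucc 7],[.ofNat 1]],[[.negSucc 35,.ofNat 22],[.ofNat 210,.negSucc 142],[.negSucc 491,.ofNat 396],[.ofNat 558,.negSucc 604],[.negSucc 239,.ofNat 550],[.negSucc 113,.negSucc 296],[.ofNat 180,.ofNat 88],[.negSucc 77,.negSucc 10],[.ofNat 12]]]⟩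
theorem c373 : chkE [e332] e373 true [(2,3),(2,4),(3,5),(4,6),(5,7),(6,7)] 0 7 8 (0,[]) [(8,[]),(8,[]),(8,[]),(8,[]),(8,[]),(8,[]),(8,[]),(9,[]),(9,[]),(9,[]),(9,[]),(9,[]),(9,[]),(9,[]),(9,[]),(9,[]),(9,[]),(9,[]),(9,[]),(9,[]),(9,[]),(10,[]),(10,[]),(10,[]),(10,[])] = true := by decide +kernel
theorem k373 (h : Hy) : e373.ok := h.step (fac (k332 h) fan) c373

def e374 : Ent := ⟨2,[(0,7),(1,8),(2,3),(2,4),(3,5),(4,6),(5,7),(6,7)],[[[.negSucc 1],[.ofNat 13],[.negSucc 35],[.ofNat 55],[.negSucc 49],[.ofNat 27],[.negSucc 7],[.ofNat 1]],[[.negSucc 63,.ofNat 24],[.ofNat 392,.negSucc 155],[.negSucc 995,.ofNat 432],[.ofNat 1328,.negSucc 659],[.negSucc 939,.ofNat 600],[.ofNat 264,.negSucc 323],[.ofNat 68,.ofNat 96],[.negSucc 63,.negSucc 11],[.ofNat 12]]]⟩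
theorem c374 : chkE [e373] e374 false [(0,7),(2,3),(2,4),(3,5),(4,6),(5,7),(6,7)] 0 1 8 (0,[]) [(8,[]),(8,[]),(8,[]),(8,[]),(8,[]),(8,[]),(8,[])] = true := by decide +kernel
theorem k374 (h : Hy) : e374.ok := h.step (fac (k373 h) fan) c374

def e375 : Ent := ⟨2,[(0,6),(1,7),(2,3),(2,5),(3,6),(4,5),(4,7),(5,8)],[[[.negSucc 1],[.ofNat 13],[.negSucc 35],[.ofNat 55],[.negSucc 49],[.ofNat 27],[.negSucc 7],[.ofNat 1]],[[.negSucc 65,.ofNat 24],[.ofNat 405,.negSucc 155],[.negSucc 1031,.ofNat 432],[.ofNat 1383,.negSucc 659],[.negSucc 989,.ofNat 600],[.ofNat 291,.negSucc 323],[.ofNat 60,.ofNat 96],[.negSucc 62,.negSucc 11],[.ofNat 12]]]⟩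
theorem c375 : chkE [e110] e375 false [(0,6),(1,7),(2,3),(2,5),(3,6),(4,5),(4,7)] 0 5 8 (0,[(3,4),(3,5)]) [(8,[]),(8,[]),(8,[]),(8,[]),(8,[])] = true := by decide +kernel
theorem k375 (h : Hy) : e375.ok := h.step (fac (k110 h) fan) c375

end Pool.Agent.RGA.CT
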