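import Pool.Agent.RGA.Cert14

set_option autoImplicit false

namespace Pool.Agent.RGA.CT

def e376 : Ent := ⟨2,[(0,6),(1,7),(2,3),(2,4),(3,5),(4,6),(5,7),(5,8)],[[[.negSucc 1],[.ofNat 13],[.negSucc 35],[.ofNat 55],[.negSucc 49],[.ofNat 27],[.negSucc 7],[.ofNat 1]],[[.negSucc 65,.ofNat 24],[.ofNat 405,.negSucc 155],[.negSucc 1031,.ofNat 432],[.ofNat 1383,.negSucc 659],[.negSucc 989,.ofNat 600],[.ofNat 291,.negSucc 323],[.ofNat 60,.ofNat 96],[.negSucc 62,.negSucc 11],[.ofNat 12]]]⟩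
theorem c376 : chkE [e110] e376 false [(0,6),(1,7),(2,3),(2,4),(3,5),(4,6),(5,7)] 0 5 8 (0,[]) [(8,[]),(8,[]),(8,[]),(8,[]),(8,[])] = true := by decide +kernel
theorem k376 (h : Hy) : e376.ok := h.step (fac (k110 h) fan) c376

def e377 : Ent := ⟨2,[(0,6),(1,7),(2,3),(2,4),(3,5),(4,6),(5,7),(6,8)],[[[.negSucc 1],[.ofNat 13],[.negSucc 35],[.ofNat 55],[.negSucc 49],[.ofNat 27],[.negSucc 7],[.ofNat 1]],[[.negSucc 67,.ofNat 22],[.ofNat 420,.negSucc 142],[.negSucc 1080,.ofNat 396],[.ofNat 1474,.negSucc 604],[.negSucc 1094,.ofNat 550],[.ofNat 368,.negSucc 296],[.ofNat 25,.ofNat 88],[.negSucc 53,.negSucc 10],[.ofNat 11]]]⟩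
theorem c377 : chkE [e110] e377 false [(0,6),(1,7),(2,3),(2,4),(3,5),(4,6),(5,7)] 0 6 8 (0,[]) [(8,[]),(8,[]),(8,[]),(8,[]),(8,[])] = true := by decide +kernel
theorem k377 (h : Hy) : e377.ok := h.step (fac (k110 h) fan) c377

def e378 : Ent := ⟨2,[(0,6),(0,7),(1,8),(2,3),(2,4),(3,5),(4,6),(5,8),(7,9)],[[[.ofNat 1,.negSucc 0],[.negSucc 6,.ofNat 7],[.ofNat 21,.negSucc 20],[.negSucc 34,.ofNat 35],[.ofNat 35,.negSucc 34],[.negSucc 20,.ofNat 21],[.ofNat 7,.negSucc 6],[.negSucc 0,.ofNat 1]],[[.ofNat 49,.negSucc 60,.ofNat 12],[.negSucc 331,.ofNat 416,.negSucc 83],[.ofNat 952,.negSucc 1203,.ofNat 252],[.negSucc 1483,.ofNat 1904,.negSucc 419],[.ofNat 1330,.negSucc 1749,.ofNat 420],[.negSucc 643,.ofNat 896,.negSucc 251],[.ofNat 112,.negSucc 195,.ofNat 84],[.ofNat 28,.negSucc 15,.negSucc 11],[.negSucc 10,.ofNat 11]]]⟩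
theorem c378 : chkE [e366] e378 false [(0,6),(0,7),(1,8),(2,3),(2,4),(3,5),(4,6),(5,8)] 0 7 9 (0,[(7,8)]) [(9,[]),(9,[]),(9,[]),(9,[]),(9,[]),(9,[]),(9,[])] = true := by decide +kernel
theorem k378 (h : Hy) : e378.ok := h.step (fac (k366 h) fan) c378

def e379 : Ent := ⟨2,[(0,7),(1,8),(2,3),(2,4),(3,5),(4,7),(5,8),(6,7),(6,9)],[[[.ofNat 2],[.negSucc 14],[.ofNat 49],[.negSucc 90],[.ofNat 105],[.negSucc 76],[.ofNat 35],[.negSucc 8],[.ofNat 1]],[[.ofNat 92,.negSucc 25],[.negSucc 663,.ofNat 195],[.ofNat 2059,.negSucc 636],[.negSucc 3548,.ofNat 1183],[.ofNat 3647,.negSucc 1364],[.negSucc 2176,.ofNat 1001],[.ofNat 609,.negSucc 454],[.ofNat 41,.ofNat 117],[.negSucc 70,.negSucc 12],[.ofNat 13]]]⟩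
theorem c379 : chkE [e377] e379 false [(0,7),(1,8),(2,3),(2,4),(3,5),(4,7),(5,8),(6,7)] 0 6 9 (0,[(6,8),(7,6)]) [(9,[]),(9,[]),(9,[]),(9,[]),(9,[]),(9,[]),(9,[])] = true := by decide +kernel
theorem k379 (h : Hy) : e379.ok := h.step (fac (k377 h) fan) c379

def e380 : Ent := ⟨2,[(0,6),(0,9),(1,7),(2,3),(2,4),(3,5),(4,6),(5,7),(6,8)],[[[.ofNat 2,.negSucc 1],[.negSucc 12,.ofNat 13],[.ofNat 36,.negSucc 35],[.negSucc 54,.ofNat 55],[.ofNat 50,.negSucc 49],[.negSucc 26,.ofNat 27],[.ofNat 8,.negSucc 7],[.negSucc 0,.ofNat 1]],[[.ofNat 92,.negSucc 115,.ofNat 24],[.negSucc 573,.ofNat 730,.negSucc 155],[.ofNat 1500,.negSucc 1931,.ofNat 432],[.negSucc 2097,.ofNat 2758,.negSucc 659],[.ofNat 1640,.negSucc 2239,.ofNat 600],[.negSucc 641,.ofNat 966,.negSucc 323],[.ofNat 44,.negSucc 139,.ofNat 96],[.ofNat 50,.negSucc 37,.negSucc 11],[.negSucc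 11,.ofNat 12]]]⟩
theorem c380 : chkE [e377] e380 false [(0,6),(1,7),(2,3),(2,4),(3,5),(4,6),(5,7),(6,8)] 0 0 9 (0,[]) [(9,[]),(9,[]),(9,[]),(9,[]),(9,[]),(9,[]),(9,[])] = true := by decide +kernel
theorem k380 (h : Hy) : e380.ok := h.step (fac (k377 h) fan) c380

def e381 : Ent := ⟨2,[(0,8),(2,3),(2,4),(3,5),(4,6),(5,7),(6,8),(7,9)],[[[.negSucc 0],[.ofNat 7],[.negSucc 20],[.ofNat 35],[.negSucc 34],[.ofNat 21],[.negSucc 6],[.ofNat 1]],[[.negSucc 35,.ofNat 14],[.ofNat 239,.negSucc 97],[.negSucc 664,.ofNat 294],[.ofNat 987,.negSucc 489],[.negSucc 804,.ofNat 490],[.ofNat 301,.negSucc 293],[.ofNat 21,.ofNat 98],[.negSucc 54,.negSucc 13],[.ofNat 13]]]⟩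
theorem c381 : chkE [e205] e381 false [(0,8),(2,3),(2,4),(3,5),(4,6),(5,7),(6,8)] 0 7 9 (0,[(3,4),(5,6),(7,8)]) [(9,[]),(9,[]),(9,[]),(9,[]),(9,[]),(9,[]),(9,[])] = true := by decide +kernel
theorem k381 (h : Hy) : e381.ok := h.step (fac (k205 h) fan) c381

def e382 : Ent := ⟨2,[(0,8),(1,9),(2,3),(2,4),(3,5),(4,6),(5,7),(6,8),(7,9)],[[[.ofNat 1],[.negSucc 7],[.ofNat 28],[.negSucc 55],[.ofNat 70],[.negSucc 55],[.ofNat 28],[.negSucc 7],[.ofNat 1]],[[.ofNat 49,.negSucc 13],[.negSucc 378,.ofNat 112],[.ofNat 1268,.negSucc 391],[.negSucc 2379,.ofNat 784],[.ofNat 2702,.negSucc 979],[.negSucc 1833,.ofNat 784],[.ofNat 644,.negSucc 391],[.negSucc 27,.ofNat 112],[.negSucc 54,.negSucc 13],[.ofNat 13]]]⟩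
theorem c382 : chkE [e381] e382 true [(1,9),(2,3),(2,4),(3,5),(4,6),(5,7),(6,8),(7,9)] 0 8 10 (0,[(0,1),(2,3),(4,5),(6,7),(8,9)]) [(10,[]),(10,[]),(10,[]),(10,[]),(10,[]),(10,[]),(10,[]),(10,[]),(10,[]),(11,[]),(11,[]),(11,[]),(11,[]),(11,[]),(11,[]),(11,[]),(11,[]),(11,[]),(11,[]),(11,[]),(11,[]),(11,[]),(11,[]),(11,[]),(11,[]),(11,[]),(11,[]),(11,[]),(12,[]),(12,[]),(12,[]),(12,[])] = true := by decide +kernel
theorem k382 (h : Hy) : e382.ok := h.step (fac (k381 h) fan) c382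

def e383 : Ent := ⟨3,[(0,6),(1,7),(2,3),(2,4),(3,5),(4,6),(5,7)],[[[.ofNat 1],[.negSucc 5],[.ofNat 15],[.negSucc 19],[.ofNat 15],[.negSucc 5],[.ofNat 1]],[[.ofNat 25,.negSucc 9],[.negSucc 140,.ofNat 60],[.ofNat 321,.negSucc 149],[.negSucc 364,.ofNat 200],[.ofNat 195,.negSucc 149],[.negSucc 14,.ofNat 60],[.negSucc 28,.negSucc 9],[.ofNat 9]],[[.ofNat 223,.negSucc 223,.ofNat 36,.ofNat 2],[.negSucc 997,.ofNat 1244,.negSucc 219,.negSucc 11],[.ofNat 1345,.negSucc 2757,.ofNat 564,.ofNat 30],[.ofNat 400,.ofNat 2968,.negSucc 779,.negSucc 39],[.negSucc 2854,.negSucc 1329,.ofNat 620,.ofNat 30],[.ofNat 2962,.negSucc 195,.negSucc 275,.negSucc 11],[.negSucc 1216,.ofNat 406,.ofNat 60,.ofNat 2],[.ofNat 100,.negSucc 111,.negSucc 3],[.ofNat 40,.ofNat 2]]]⟩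
theorem c383 : chkE [e361,e362,e355,e363,e201,e364,e110,e365,e366,e367,e368,e369,e372,e374,e206,e375,e376,e377,e378,e379,e380,e382] e383 true [(1,7),(2,3),(2,4),(3,5),(4,6),(5,7)] 0 6 8 (0,[(0,1),(2,3),(4,5),(6,7)]) [(1,[(0,1),(2,3),(4,5),(6,7)]),(2,[(2,5),(3,2),(6,7)]),(3,[(3,5),(4,3),(6,7)]),(4,[(2,3),(4,5),(6,7)]),(5,[(6,7)]),(6,[]),(7,[(2,3),(4,5),(6,7)]),(8,[]),(9,[(0,1)]),(10,[(0,1),(2,6),(3,4),(3,2)]),(11,[(0,1),(2,3),(2,6),(4,2)]),(12,[(0,1),(3,4),(5,6)]),(13,[(0,1)]),(14,[(3,4),(5,6),(7,8)]),(8,[]),(8,[(0,1),(2,3),(4,5),(6,7)]),(15,[(0,1),(2,5),(3,2),(6,7)]),(15,[(3,5),(4,3)]),(16,[(0,1),(2,3),(4,5),(6,7)]),(16,[]),(17,[]),(17,[(0,1),(2,3),(4,5),(6,7)]),(18,[(7,8)]),(19,[(6,7),(6,8),(6,9)]),(20,[(8,9)]),(21,[(2,3),(2,5),(4,2),(4,7),(6,4),(6,9)])] = true := by decide +kernel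
theorem k383 (h : Hy) : e383.ok := h.step (fac (k361 h) (fac (k362 h) (fac (k355 h) (fac (k363 h) (fac (k201 h) (fac (k364 h) (fac (k110 h) (fac (k365 h) (fac (k366 h) (fac (k367 h) (fac (k368 h) (fac (k369 h) (fac (k372 h) (fac (k374 h) (fac (k206 h) (fac (k375 h) (fac (k376 h) (fac (k377 h) (fac (k378 h) (fac (k379 h) (fac (k380 h) (fac (k382 h) fan)))))))))))))))))))))) c383

def e384 : Ent := ⟨4,[(0,4),(1,5),(2,3),(2,4),(3,5)],[[[.ofNat 1],[.negSucc 3],[.ofNat 6],[.negSucc 3],[.ofNat 1]],[[.ofNat 9,.negSucc 5],[.negSucc 30,.ofNat 24],[.ofNat 34,.negSucc 35],[.negSucc 5,.ofNat 24],[.negSucc 10,.negSucc 5],[.ofNat 5]],[[.ofNat 2,.negSucc 27,.ofNat 8,.ofNat 2],[.ofNat 60,.ofNat 80,.negSucc 35,.negSucc 7],[.negSucc 243,.negSucc 37,.ofNat 64,.ofNat 12],[.ofNat 336,.negSucc 87,.negSucc 55,.negSucc 7],[.negSucc 173,.ofNat 112,.ofNat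 24,.ofNat 2],[.ofNat 4,.negSucc 39,.negSucc 3],[.ofNat 16,.ofNat 2]],[[.negSucc 92,.ofNat 256,.negSucc 102,.ofNat 46,.negSucc 10,.negSucc 1],[.ofNat 252,.negSucc 1203,.ofNat 398,.negSucc 155,.ofNat 52,.ofNat 8],[.ofNat 305,.ofNat 2154,.negSucc 583,.ofNat 154,.negSucc 97,.negSucc 11],[.negSucc 1841,.negSucc 1691,.ofNat 420,.ofNat 24,.ofNat 92,.ofNat 8],[.ofNat 2534,.ofNat 348,.negSucc 194,.negSucc 125,.negSucc 42,.negSucc 1],[.negSucc 1427,.ofNat 252,.ofNat 98,.ofNat 68,.ofNat 8],[.ofNat 237,.negSucc 117,.negSucc 37,.negSucc 9],[.ofNat 34,.ofNat 4,.ofNat 4],[.ofNat 1]]]⟩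
theorem c384 : chkE [e302,e303,e175,e297,e111,e304,e307,e309,e326,e347,e207,e348,e349,e352,e355,e360,e383] e384 true [(1,5),(2,3),(2,4),(3,5)] 0 4 6 (0,[(0,1),(2,3),(4,5)]) [(1,[(0,1),(2,3),(4,5)]),(2,[(2,3),(4,5)]),(3,[(4,5)]),(4,[]),(5,[(2,3),(4,5)]),(6,[]),(7,[(0,1)]),(8,[(0,1),(3,4)]),(9,[(0,1)]),(10,[(3,4),(5,6)]),(6,[]),(6,[(0,1),(2,3),(4,5)]),(11,[(0,1),(2,3),(4,5)]),(11,[]),(12,[]),(12,[(0,1),(2,3),(4,5)]),(13,[(5,6)]),(14,[(4,5),(4,6),(4,7)]),(15,[(6,7)]),(16,[(2,3),(2,5),(4,2),(4,7)])] = true := by decide +kernel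
theorem k384 (h : Hy) : e384.ok := h.step (fac (k302 h) (fac (k303 h) (fac (k175 h) (fac (k297 h) (fac (k111 h) (fac (k304 h) (fac (k307 h) (fac (k309 h) (fac (k326 h) (fac (k347 h) (fac (k207 h) (fac (k348 h) (fac (k349 h) (fac (k352 h) (fac (k355 h) (fac (k360 h) (fac (k383 h) fan))))))))))))))))) c384

def e385 : Ent := ⟨5,[(0,2),(1,3),(2,3)],[[[.ofNat 1],[.negSucc 1],[.ofNat 1]],[[.ofNat 1,.negSucc 1],[.negSucc 0,.ofNat 4],[.negSucc 0,.negSucc 1],[.ofNat 1]],[[.negSucc 2,.ofNat 8,.negSucc 3,.ofNat 2],[.ofNat 2,.negSucc 11,.ofNat 4,.negSucc 3],[.ofNat 5,.ofNat 2,.ofNat 4,.ofNat 2],[.negSucc 3,.ofNat 0,.negSucc 3],[.ofNat 0,.ofNat 2]],[[.ofNat 16,.negSucc 49,.ofNat 21,.negSucc 1,.ofNat 1,.negSucc 1],[.negSucc 12,.ofNat 116,.negSucc 55,.ofNat 0,.ofNat 6,.ofNat 4],[.negSucc 39,.negSucc 65,.ofNat 54,.negSucc 3,.negSucc 14,.negSucc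 1],[.ofNat 51,.negSucc 17,.negSucc 19,.ofNat 16,.ofNat 8],[.negSucc 9,.ofNat 20,.negSucc 2,.negSucc 9],[.negSucc 3,.negSucc 1,.ofNat 4]],[[.negSucc 122,.ofNat 424,.negSucc 95,.negSucc 93,.ofNat 54,.negSucc 7,.negSucc 0,.ofNat 2],[.ofNat 140,.negSucc 1437,.ofNat 698,.ofNat 8,.negSucc 83,.ofNat 26,.negSucc 9,.negSucc 3],[.ofNat 484,.ofNat 1342,.negSucc 1015,.ofNat 262,.negSucc 22,.negSucc 1,.ofNat 23,.ofNat 2],[.negSucc 935,.negSucc 15,.ofNat 282,.negSucc 137,.ofNat 58,.negSucc 41,.negSucc 11],[.ofNat 446,.negSucc 325,.ofNat 156,.negSucc 63,.ofNat 19,.ofNat 26],[.ofNat 10,.negSucc 19,.negSucc 7,.ofNat 18,.negSucc 23],[.negSucc 12,.ofNat 32,.negSucc 15,.ofNat 8],[.negSucc 7,.ofNat 2]]]⟩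
theorem c385 : chkE [e230,e228,e112,e117,e236,e263,e208,e264,e287,e297,e301,e384] e385 true [(1,3),(2,3)] 0 2 4 (0,[(0,1),(2,3)]) [(1,[(0,1),(2,3)]),(2,[]),(3,[(2,3)]),(4,[]),(5,[(0,1)]),(6,[(3,4)]),(4,[]),(4,[(0,1),(2,3)]),(7,[]),(7,[(0,1),(2,3)]),(8,[(3,4)]),(9,[(2,3),(2,4),(2,5)]),(10,[(4,5)]),(11,[(2,3),(2,5)])] = true := by decide +kernel
theorem k385 (h : Hy) : e385.ok := h.step (fac (k230 h) (fac (k228 h) (fac (k112 h) (fac (k117 h) (fac (k236 h) (fac (k263 h) (fac (k208 h) (fac (k264 h) (fac (k287 h) (fac (k297 h) (fac (k301 h) (fac (k384 h) fan)))))))))))) c385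

def e386 : Ent := ⟨6,[(0,1)],[[[.ofNat 1]],[[.ofNat 0,.ofNat 0,.negSucc 0],[.negSucc 0,.ofNat 2],[.negSucc 0]],[[.ofNat 0,.ofNat 0,.ofNat 1,.ofNat 0,.ofNat 1],[.ofNat 0,.negSucc 1,.ofNat 2,.negSucc 3],[.ofNat 2,.negSucc 3,.ofNat 5],[.ofNat 2,.negSucc 1]],[[.ofNat 0,.ofNat 0,.negSucc 5,.ofNat 4,.negSucc 1,.ofNat 0,.negSucc 0],[.ofNat 0,.ofNat 12,.negSucc 6,.ofNat 4,.negSucc 2,.ofNat 6],[.negSucc 5,.ofNat 2,.negSucc 3,.ofNat 12,.negSucc 12],[.ofNat 0,.ofNat 4,.negSucc 14,.ofNat 12],[.negSucc 1,.ofNat 6,.negSucc 3]],[[.ofNat 0,.ofNat 0,.ofNat 55,.negSucc 51,.ofNat 26,.negSucc 7,.ofNat 3,.ofNat 0,.ofNat 1],[.ofNat 0,.negSucc 109,.ofNat 58,.negSucc 25,.ofNat 14,.negSucc 9,.ofNat 4,.negSucc 7],[.ofNat 55,.ofNat 40,.negSucc 26,.ofNat 0,.ofNat 16,.negSucc 23,.ofNat 25],[.negSucc 45,.ofNat 28,.negSucc 3,.negSucc 25,.ofNat 52,.negSucc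 37],[.ofNat 0,.negSucc 7,.ofNat 30,.negSucc 47,.ofNat 28],[.ofNat 6,.negSucc 13,.ofNat 16,.negSucc 7],[.ofNat 1]],[[.ofNat 0,.ofNat 0,.negSucc 653,.ofNat 720,.negSucc 405,.ofNat 152,.negSucc 46,.ofNat 12,.negSucc 3,.ofNat 0,.negSucc 0],[.ofNat 0,.ofNat 1308,.negSucc 456,.ofNat 12,.negSucc 19,.ofNat 60,.negSucc 38,.ofNat 20,.negSucc 4,.ofNat 10],[.negSucc 653,.negSucc 1245,.ofNat 859,.negSucc 293,.ofNat 28,.ofNat 42,.negSucc 44,.ofNat 40,.negSucc 40],[.ofNat 983,.negSucc 129,.ofNat 15,.negSucc 15,.negSucc 31,.ofNat 84,.negSucc 124,.ofNat 88],[.negSucc 334,.ofNat 172,.negSucc 60,.ofNat 58,.negSucc 133,.ofNat 190,.negSucc 103],[.negSucc 25,.ofNat 40,.negSucc 61,.ofNat 120,.negSucc 139,.ofNat 64],[.negSucc 3,.ofNat 18,.negSucc 39,.ofNat 40,.negSucc 15],[.ofNat 3,.negSucc 1],[.ofNat 1]]]⟩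
theorem c386 : chkE [e0,e113,e114,e209,e228,e229,e385] e386 true [] 0 1 2 (0,[]) [(1,[]),(2,[]),(3,[]),(2,[]),(2,[(0,1)]),(4,[]),(4,[(0,1),(2,3)]),(5,[(2,3)]),(6,[])] = true := by decide +kernel
theorem k386 (h : Hy) : e386.ok := h.step (fac (k0 h) (fac (k113 h) (fac (k114 h) (fac (k209 h) (fac (k228 h) (fac (k229 h) (fac (k385 h) fan))))))) c386

end Pool.Agent.RGA.CT
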