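import Pool.Agent.RGA.Step

/-!
The hypotheses of the certificate, and the initial entry.
-/

set_option autoImplicit false

namespace Pool.Agent.RGA.CT

/-- the statements used by the certificate -/
structure Hy : Prop where
  hP : Stmt_PendN
  hC : Stmt_CoreN
  hL : Stmt_Lev0
  hI : Stmt_Iso
  hPos : Stmt_Pos

/-- the entry of the empty pattern -/
def e0 : Ent := ⟨10, [], cst 1⟩

lemma k0 (h : Hy) : e0.ok := by
  show Ex 10 (cst 1) (qq [])
  obtain ⟨A, hA⟩ := h.hPos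
  refine ⟨A, fun n d k hD => ?_⟩
  have h1 : A * d ^ A ≤ n := by
    refine le_trans ?_ hD.2.2.1
    exact Nat.mul_le_mul (by omega) (Nat.pow_le_pow_right hD.d_pos (by omega))
  have h2 := (hA n d k hD.d_pos hD.2.1 h1 hD.2.2.2).1
  have h3 : qq [] n d k = 1 := by
    have h4 : (N (Dm n d k) ∅ : ℝ) ≠ 0 := by exact_mod_cast h2.ne'
    have h5 : toF [] = ∅ := rfl
    unfold qq P Wt
    rw [h5]
    simp [tch, h4]
  rw [h3, ev3_cst]
  have hx := hD.x_pos
  simp only [Int.cast_one, sub_self, abs_zero]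
  positivity

lemma fan : ∀ e ∈ ([] : List Ent), e.ok := by simp

lemma fac {e : Ent} {l : List Ent} (h : e.ok) (hl : ∀ e ∈ l, e.ok) : ∀ e' ∈ e :: l, e'.ok :=
  List.forall_mem_cons.2 ⟨h, hl⟩

/-- check of an entry -/
def chkE (tbl : List Ent) (e : Ent) (co : Bool) (L : List (ℕ × ℕ)) (u v t : ℕ) (r0 : Ref)
    (rs : List Ref) : Bool :=
  match e.J with
  | 0 => false
  | J + 1 => chk tbl ⟨co, J, L, u, v, t, r0, rs, e.L, e.p⟩

lemma Hy.step (h : Hy) {tbl : List Ent} (ht : ∀ e ∈ tbl, e.ok) {e : Ent} {co : Bool}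
    {L : List (ℕ × ℕ)} {u v t : ℕ} {r0 : Ref} {rs : List Ref}
    (hc : chkE tbl e co L u v t r0 rs = true) : e.ok := by
  obtain ⟨J, F, p⟩ := e
  cases J with
  | zero => simp [chkE] at hc
  | succ J =>
    have h1 := chk_ok h.hP h.hC h.hL h.hI ht (i := ⟨co, J, L, u, v, t, r0, rs, F, p⟩) hc
    exact h1

end Pool.Agent.RGA.CT
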