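import Pool.Agent.RGA.Stmts

/-!
Module COMPL (helper46).
-/

set_option autoImplicit false

namespace Pool.Agent.RGA

open Finset

namespace Compl

theorem ncard_compl_nbr {n : ℕ} (G : SimpleGraph (Fin n)) (v : Fin n) :
    (G.neighborSet v).ncard + (Gᶜ.neighborSet v).ncard + 1 = n := by
  rw [SimpleGraph.neighborSet_compl]
  have h1 : v ∈ (G.neighborSet v)ᶜ := by
    intro h
    exact G.loopless.irrefl v h
  have h2 := Set.ncard_diff_singleton_add_one h1
  have h3 := Set.ncard_add_ncard_compl (G.neighborSet v)
  rw [Nat.card_eq_fintype_card, Fintype.card_fin] at h3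
  omega

end Compl

theorem compl_proof : Stmt_Compl := by
  intro n d hd hn
  constructor
  · unfold RG
    apply Nat.card_congr
    refine Equiv.subtypeEquiv (Function.Involutive.toPerm (fun G : SimpleGraph (Fin n) => Gᶜ)
      (fun G => compl_compl G)) ?_
    intro G
    change (∀ v, (G.neighborSet v).ncard = n - 1 - d) ↔ ∀ v, (Gᶜ.neighborSet v).ncard = d
    constructor
    · intro h v
      have h1 := Compl.ncard_compl_nbr G v
      have h2 := h v
      omega
    · intro h v
      have h1 := Compl.ncard_compl_nbr G v
      have h2 := h v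
      omega
  · have hn1 : ((n : ℝ) - 1) ≠ 0 := by
      have : (3 : ℝ) ≤ n := by exact_mod_cast (by omega : 3 ≤ n)
      linarith
    have hlam : lam n (n - 1 - d) = 1 - lam n d := by
      unfold lam
      have : ((n - 1 - d : ℕ) : ℝ) = (n : ℝ) - 1 - d := by
        rw [Nat.cast_sub (by omega), Nat.cast_sub (by omega)]
        push_cast; ring
      rw [this]
      field_simp
    have hLam : Lam n (n - 1 - d) = Lam n d := by
      unfold Lam
      rw [hlam]
      ring
    have hS : S7 n (n - 1 - d) = S7 n d := by
      unfold S7
      rw [hLam]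
    have hch : (n - 1).choose (n - 1 - d) = (n - 1).choose d := Nat.choose_symm (by omega)
    unfold Mnd Bnd
    rw [hS, hlam, hch]
    have e : 1 - (1 - lam n d) = lam n d := by ring
    rw [e]
    ring

end Pool.Agent.RGA
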