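import Pool.Agent.RGA.Stmts

/-!
CORE: the estimate in the sparse range, from the increment bound and the limit.
-/

set_option autoImplicit false

namespace Pool.Agent.RGA

open Finset

namespace Core

theorem tele_ineq (m : ℝ) (hm : 1 ≤ m) :
    1 / m ^ 5 ≤ 31 * (1 / m ^ 4 - 1 / (m + 2) ^ 4) := by
  have h0 : 0 < m := by linarith
  have h2 : 0 < m + 2 := by linarith
  rw [div_sub_div _ _ (by positivity) (by positivity), ← mul_div_assoc,
    div_le_div_iff₀ (by positivity) (by positivity)]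
  have e1 : 1 * (m + 2) ^ 4 - m ^ 4 * 1 = 8 * m ^ 3 + 24 * m ^ 2 + 32 * m + 16 := by ring
  rw [e1]
  have hk : (m + 2) ^ 4 ≤ 31 * (8 * m ^ 3 + 24 * m ^ 2 + 32 * m + 16) * m := by
    nlinarith [pow_pos h0 2, pow_pos h0 3, pow_pos h0 4, pow_le_pow_left₀ (by norm_num) hm 2,
      pow_le_pow_left₀ (by norm_num) hm 3, pow_le_pow_left₀ (by norm_num) hm 4]
  calc 1 * (m ^ 4 * (m + 2) ^ 4) = m ^ 4 * (m + 2) ^ 4 := by ring
    _ ≤ m ^ 4 * (31 * (8 * m ^ 3 + 24 * m ^ 2 + 32 * m + 16) * m) :=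
        mul_le_mul_of_nonneg_left hk (by positivity)
    _ = 31 * (8 * m ^ 3 + 24 * m ^ 2 + 32 * m + 16) * m ^ 5 := by ring

theorem step_bound (A : ℕ) (n d : ℕ) (hd : 1 ≤ d) (m : ℕ) (hn : 1 ≤ n) (hm : n ≤ m)
    (hA : d ^ A ≤ n) :
    (A : ℝ) * ((d : ℝ) ^ 2 * xx m d ^ 5 + (d : ℝ) ^ A * xx m d ^ 6)
      ≤ (62 * A / (d : ℝ) ^ 3) * (1 / (m : ℝ) ^ 4 - 1 / ((m : ℝ) + 2) ^ 4) := by
  have hd' : (1 : ℝ) ≤ d := by exact_mod_cast hd
  have hm' : (1 : ℝ) ≤ m := by exact_mod_cast hn.trans hm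
  have hdm : ((d : ℝ)) ^ A ≤ m := by exact_mod_cast hA.trans hm
  have h0d : (0 : ℝ) < d := by linarith
  have h0m : (0 : ℝ) < m := by linarith
  have t := tele_ineq m hm'
  have e1 : (d : ℝ) ^ 2 * xx m d ^ 5 = 1 / (d : ℝ) ^ 3 * (1 / (m : ℝ) ^ 5) := by
    unfold xx
    field_simp
  have e2 : (d : ℝ) ^ A * xx m d ^ 6 ≤ 1 / (d : ℝ) ^ 3 * (1 / (m : ℝ) ^ 5) := by
    have : xx m d ^ 6 = 1 / ((m : ℝ) ^ 6 * (d : ℝ) ^ 6) := by
      unfold xx
      rw [one_div_pow, mul_pow]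
    rw [this, mul_one_div, one_div_mul_one_div, div_le_div_iff₀ (by positivity) (by positivity)]
    calc (d : ℝ) ^ A * ((d : ℝ) ^ 3 * (m : ℝ) ^ 5) ≤ m * ((d : ℝ) ^ 3 * (m : ℝ) ^ 5) :=
          mul_le_mul_of_nonneg_right hdm (by positivity)
      _ = (m : ℝ) ^ 6 * ((d : ℝ) ^ 3 * 1) := by ring
      _ ≤ (m : ℝ) ^ 6 * ((d : ℝ) ^ 3 * (d : ℝ) ^ 3) := by
          apply mul_le_mul_of_nonneg_left _ (by positivity)
          apply mul_le_mul_of_nonneg_left _ (by positivity)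
          exact one_le_pow₀ hd'
      _ = 1 * ((m : ℝ) ^ 6 * (d : ℝ) ^ 6) := by ring
  have h3 : (d : ℝ) ^ 2 * xx m d ^ 5 + (d : ℝ) ^ A * xx m d ^ 6
      ≤ 2 / (d : ℝ) ^ 3 * (31 * (1 / (m : ℝ) ^ 4 - 1 / ((m : ℝ) + 2) ^ 4)) := by
    calc (d : ℝ) ^ 2 * xx m d ^ 5 + (d : ℝ) ^ A * xx m d ^ 6
        ≤ 2 / (d : ℝ) ^ 3 * (1 / (m : ℝ) ^ 5) := by
          rw [e1]
          have : 2 / (d : ℝ) ^ 3 * (1 / (m : ℝ) ^ 5)
            = 1 / (d : ℝ) ^ 3 * (1 / (m : ℝ) ^ 5) + 1 / (d : ℝ) ^ 3 * (1 / (m : ℝ) ^ 5) := by ring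
          linarith
      _ ≤ _ := mul_le_mul_of_nonneg_left t (by positivity)
  calc (A : ℝ) * ((d : ℝ) ^ 2 * xx m d ^ 5 + (d : ℝ) ^ A * xx m d ^ 6)
      ≤ (A : ℝ) * (2 / (d : ℝ) ^ 3 * (31 * (1 / (m : ℝ) ^ 4 - 1 / ((m : ℝ) + 2) ^ 4))) :=
        mul_le_mul_of_nonneg_left h3 (by positivity)
    _ = _ := by ring

end Core

/-- CORE -/
theorem core_proof (hDel : Stmt_Del) (hBC : Stmt_BC) (hM : Stmt_MInf) : Stmt_Core := by
  obtain ⟨A, hA⟩ := hDel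
  refine ⟨62 * A + 1, ?_⟩
  intro n d hd hn hev
  have hdpos : 0 < d := hd
  have hA1 : A * d ^ A ≤ n := by
    refine le_trans ?_ hn
    exact Nat.mul_le_mul (by omega) (Nat.pow_le_pow_right hdpos (by omega))
  have hA2 : d ^ A ≤ n := by
    refine le_trans ?_ hn
    calc d ^ A = 1 * d ^ A := (one_mul _).symm
      _ ≤ (62 * A + 1) * d ^ (62 * A + 1) :=
        Nat.mul_le_mul (by omega) (Nat.pow_le_pow_right hdpos (by omega))
  have hn1 : 1 ≤ n := le_trans (Nat.one_le_pow _ _ hdpos) hA2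
  set K : ℝ := 62 * A / (d : ℝ) ^ 3 with hK
  have hKnn : 0 ≤ K := by positivity
  set g : ℕ → ℝ := fun i => 1 / ((n : ℝ) + 2 * i) ^ 4 with hg
  have hevi : ∀ i : ℕ, Even ((n + 2 * i) * d) := by
    intro i
    rw [add_mul]
    exact hev.add ⟨i * d, by ring⟩
  have hstep : ∀ i : ℕ, |Lnd (n + 2 * (i + 1)) d - Lnd (n + 2 * i) d| ≤ K * (g i - g (i + 1)) := by
    intro i
    have h1 := hA (n + 2 * i) d hd (hA1.trans (by omega)) (hevi i)
    have h2 := Core.step_bound A n d hd (n + 2 * i) hn1 (by omega) hA2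
    have h3 : n + 2 * (i + 1) = n + 2 * i + 2 := by ring
    rw [h3]
    refine h1.trans (h2.trans (le_of_eq ?_))
    simp only [hg, hK]
    push_cast
    ring_nf
  have hmain : ∀ i : ℕ, |Lnd n d| ≤ |Lnd (n + 2 * i) d| + K * (g 0 - g i) := by
    intro i
    induction i with
    | zero => simp
    | succ i ih =>
      have h1 := hstep i
      have h2 : |Lnd (n + 2 * i) d| ≤ |Lnd (n + 2 * (i + 1)) d|
          + |Lnd (n + 2 * (i + 1)) d - Lnd (n + 2 * i) d| := by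
        have := abs_sub_abs_le_abs_sub (Lnd (n + 2 * i) d) (Lnd (n + 2 * (i + 1)) d)
        rw [abs_sub_comm] at this
        linarith
      calc |Lnd n d| ≤ |Lnd (n + 2 * i) d| + K * (g 0 - g i) := ih
        _ ≤ |Lnd (n + 2 * (i + 1)) d| + K * (g i - g (i + 1)) + K * (g 0 - g i) := by linarith
        _ = _ := by ring
  have hlim : ∀ ε : ℝ, 0 < ε → ∃ i : ℕ, |Lnd (n + 2 * i) d| ≤ ε := by
    intro ε hε
    obtain ⟨n1, h1⟩ := hBC d hd (ε / 2) (by linarith)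
    obtain ⟨n2, h2⟩ := hM d hd (ε / 2) (by linarith)
    refine ⟨n1 + n2, ?_⟩
    have a1 := h1 (n + 2 * (n1 + n2)) (by omega) (hevi _)
    have a2 := h2 (n + 2 * (n1 + n2)) (by omega) (hevi _)
    rw [abs_le] at a1 a2 ⊢
    unfold Lnd
    constructor <;> linarith [a1.1, a1.2, a2.1, a2.2]
  have hg0 : ∀ i, 0 ≤ g i := by
    intro i
    simp only [hg]
    positivity
  have hfin : |Lnd n d| ≤ K * g 0 := by
    refine le_of_forall_pos_le_add ?_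
    intro ε hε
    obtain ⟨i, hi⟩ := hlim ε hε
    have h1 := hmain i
    have h2 : K * (g 0 - g i) ≤ K * g 0 :=
      mul_le_mul_of_nonneg_left (by linarith [hg0 i]) hKnn
    linarith
  refine hfin.trans ?_
  have hd' : (0 : ℝ) < d := by exact_mod_cast hdpos
  have hn' : (0 : ℝ) < n := by exact_mod_cast hn1
  simp only [hg, hK]
  push_cast
  rw [mul_zero, add_zero, div_mul_div_comm, mul_one]
  gcongr
  linarith

end Pool.Agent.RGA
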