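import Pool.Agent.RGA.Defs

/-!
Exact statements of all modules (MP_3a123b_co). Module file `Pool/Agent/RGA/<Name>.lean` proves
`theorem <name>_proof : Stmt_<Name>`; any other `Stmt_*` may be taken as a hypothesis.
-/

set_option autoImplicit false

namespace Pool.Agent.RGA

open Finset

/-! ### BAS: exact relations for arbitrary degree sequences -/

/-- MEM -/
def Stmt_Mem : Prop :=
  ∀ (D : ℕ →₀ ℕ) (G : Finset (Sym2 ℕ)),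
    G ∈ gr D ↔ (∀ e ∈ G, ¬ e.IsDiag) ∧ ∀ v, dg G v = D v

/-- DEG: sum over the possible further neighbours of `v` -/
def Stmt_Deg : Prop :=
  ∀ (D : ℕ →₀ ℕ) (F : Finset (Sym2 ℕ)) (v : ℕ), Lpl F →
    ∑ w ∈ D.support.filter (fun w => w ≠ v ∧ s(v, w) ∉ F), (N D (F ∪ {s(v, w)}) : ℝ)
      = ((D v : ℝ) - dg F v) * N D F

/-- SW: the switching `uv, yz <-> uy, vz` -/
def Stmt_Sw : Prop :=
  ∀ (D : ℕ →₀ ℕ) (F : Finset (Sym2 ℕ)) (u v y z : ℕ), Lpl F →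
    u ≠ v → u ≠ y → u ≠ z → v ≠ y → v ≠ z → y ≠ z →
    s(u, v) ∉ F → s(y, z) ∉ F → s(u, y) ∉ F → s(v, z) ∉ F →
    (N D (F ∪ {s(u, v), s(y, z)}) : ℝ) - N D (F ∪ {s(u, v), s(y, z), s(u, y)})
        - N D (F ∪ {s(u, v), s(y, z), s(v, z)})
      = N D (F ∪ {s(u, y), s(v, z)}) - N D (F ∪ {s(u, y), s(v, z), s(u, v)})
        - N D (F ∪ {s(u, y), s(v, z), s(y, z)})

/-- PERM: relabelling -/
def Stmt_Perm : Prop :=
  ∀ (D D' : ℕ →₀ ℕ) (σ : Equiv.Perm ℕ) (F : Finset (Sym2 ℕ)), (∀ v, D' (σ v) = D v) →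
    N D' (F.image (Sym2.map σ)) = N D F

/-- ADD: adding the edge `ab` -/
def Stmt_Add : Prop :=
  ∀ (D D' : ℕ →₀ ℕ) (a b : ℕ), a ≠ b →
    (∀ v, D' v = D v + (if v = a then 1 else 0) + (if v = b then 1 else 0)) →
    (N D' {s(a, b)} : ℝ) = N D ∅ - N D {s(a, b)}

/-- REM: removing a set of edges each of which has a saturated end -/
def Stmt_Rem : Prop :=
  ∀ (D D' : ℕ →₀ ℕ) (F : Finset (Sym2 ℕ)), Lpl F → (∀ v, D v = D' v + dg F v) →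
    (∀ e ∈ F, ∃ v ∈ e, D' v = 0) → N D F = N D' ∅

/-! ### MOD: relations in the model `Dm n d k` with fresh vertices `t`, `t + 1` -/

/-- PENDN: pendant edge at `v` with fresh end `t` -/
def Stmt_PendN : Prop :=
  ∀ (n d k t v : ℕ) (F : Finset (Sym2 ℕ)), Lpl F → (∀ w ∈ tch F, w < t) → 2 ≤ t → t ≤ n + 1 →
    v < t →
    ((n : ℝ) + 2 - t) * N (Dm n d k) (F ∪ {s(v, t)})
      = ((Dm n d k v : ℝ) - dg F v) * N (Dm n d k) F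
        - ∑ w ∈ (range t).filter (fun w => w ≠ v ∧ s(v, w) ∉ F), (N (Dm n d k) (F ∪ {s(v, w)}) : ℝ)

/-- COREN: the basic recursion, from one switching with the fresh vertices `y = t`, `z = t + 1`.
Here `F` is the set without the edge `uv`. -/
def Stmt_CoreN : Prop :=
  ∀ (n d k t u v : ℕ) (F : Finset (Sym2 ℕ)), Lpl F → (∀ w ∈ tch F, w < t) → 2 ≤ t → t ≤ n →
    u < t → v < t → u ≠ v → s(u, v) ∉ F →
    ((n : ℝ) + 2 - t) * d * N (Dm n d k) (F ∪ {s(u, v)})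
      = ((Dm n d k u : ℝ) - dg F u) * ((Dm n d k v : ℝ) - dg F v) * N (Dm n d k) F
        - ((Dm n d k v : ℝ) - dg F v) *
            ∑ w ∈ (range t).filter (fun w => w ≠ u ∧ s(u, w) ∉ F),
              (N (Dm n d k) (F ∪ {s(u, w)}) : ℝ)
        - ((n : ℝ) + 2 - t) *
            ∑ w ∈ (range (t + 1)).filter (fun w => w ≠ v ∧ s(v, w) ∉ F),
              (N (Dm n d k) (F ∪ {s(u, t), s(v, w)}) : ℝ)
        + ((n : ℝ) + 2 - t) *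
            ∑ w ∈ range t, (N (Dm n d k) (F ∪ {s(u, v), s(t, w)}) : ℝ)
        + ((n : ℝ) + 2 - t) * ((n : ℝ) + 1 - t) *
            ((N (Dm n d k) (F ∪ {s(u, v), s(t, t + 1), s(u, t)}) : ℝ)
              + N (Dm n d k) (F ∪ {s(u, v), s(t, t + 1), s(v, t + 1)})
              - N (Dm n d k) (F ∪ {s(u, v), s(u, t), s(v, t + 1)})
              - N (Dm n d k) (F ∪ {s(u, t), s(v, t + 1), s(t, t + 1)}))

/-! ### GEN: bounds for arbitrary degree sequences of maximum degree `≤ Δ` -/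

/-- UB -/
def Stmt_UB : Prop :=
  ∀ e : ℕ, ∃ C : ℕ, ∀ (D : ℕ →₀ ℕ) (Δ : ℕ) (F : Finset (Sym2 ℕ)), 1 ≤ Δ → (∀ v, D v ≤ Δ) →
    Lpl F → F.card = e → C * Δ ^ C ≤ tot D →
    P D F ≤ (C : ℝ) * (Δ : ℝ) ^ C * Wt D F / (tot D : ℝ) ^ e

/-- L0: leading order -/
def Stmt_L0 : Prop :=
  ∀ e : ℕ, ∃ C : ℕ, ∀ (D : ℕ →₀ ℕ) (Δ : ℕ) (F : Finset (Sym2 ℕ)), 1 ≤ Δ → (∀ v, D v ≤ Δ) →
    Lpl F → F.card = e → C * Δ ^ C ≤ tot D → 0 < N D ∅ →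
    |P D F - FF D F / (tot D : ℝ) ^ e|
      ≤ (C : ℝ) * (Δ : ℝ) ^ C * Wt D F / (tot D : ℝ) ^ (e + 1)

/-! ### Existence, positivity, the quotient of two consecutive counts -/

/-- EXI -/
def Stmt_Exi : Prop := ∀ n d : ℕ, 1 ≤ d → d + 1 ≤ n → Even (n * d) → 0 < Rn n d

/-- SHIFT -/
def Stmt_Shift : Prop :=
  ∀ n d : ℕ, N (Dm n d 0) ∅ = Rn n d ∧ N (Dm n d d) ∅ = Rn (n + 2) d

/-- POS -/
def Stmt_Pos : Prop :=
  ∃ A : ℕ, ∀ n d k : ℕ, 1 ≤ d → k ≤ d → A * d ^ A ≤ n → Even (n * d) →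
    0 < N (Dm n d k) ∅ ∧ rho n d k ≤ 1 / 2 ∧ (1 ≤ k → 0 < rho n d k)

/-- RATIO -/
def Stmt_Ratio : Prop :=
  ∃ A : ℕ, ∀ n d : ℕ, 1 ≤ d → A * d ^ A ≤ n → Even (n * d) →
    Real.log (Rn (n + 2) d) - Real.log (Rn n d)
      = ∑ k ∈ Finset.Icc 1 d, (Real.log (1 - rho n d k) - Real.log (rho n d k))
        - Real.log (1 - rho n d d)

/-! ### The approximation `M (n, d)` -/

/-- DELM: exact formula for the increment of `log M` -/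
def Stmt_DelM : Prop :=
  ∀ n d : ℕ, 1 ≤ d → 2 * d + 4 ≤ n →
    Real.log (Mnd (n + 2) d) - Real.log (Mnd n d)
      = ∑ k ∈ Finset.Icc 1 d, (2 * Real.log (1 - (k : ℝ) / n) - 2 * Real.log k)
        + d * Real.log ((n : ℝ) * d)
        + ((n : ℝ) + 2) * (Real.log (1 + 1 / n) - Real.log (1 - (d : ℝ) / n)
            - Real.log (1 - ((d : ℝ) - 1) / n))
        - (((n : ℝ) + 2) * d / 2) * Real.log (1 + 1 / n)
        + ((n : ℝ) * d / 2) * Real.log (1 - 1 / n)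
        + (((n : ℝ) + 2) * ((n : ℝ) + 1 - d) / 2)
            * (Real.log (1 - ((d : ℝ) - 1) / n) - Real.log (1 + 1 / n))
        - ((n : ℝ) * ((n : ℝ) - 1 - d) / 2)
            * (Real.log (1 - ((d : ℝ) + 1) / n) - Real.log (1 - 1 / n))
        + S7 (n + 2) d - S7 n d

/-- DEL: the increment of the error (the explicit computation) -/
def Stmt_Del : Prop :=
  ∃ A : ℕ, ∀ n d : ℕ, 1 ≤ d → A * d ^ A ≤ n → Even (n * d) →
    |Lnd (n + 2) d - Lnd n d| ≤ A * ((d : ℝ) ^ 2 * xx n d ^ 5 + (d : ℝ) ^ A * xx n d ^ 6)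

/-- MINF: `log M` for fixed `d` (Stirling) -/
def Stmt_MInf : Prop :=
  ∀ d : ℕ, 1 ≤ d → ∀ ε : ℝ, 0 < ε → ∃ n₀ : ℕ, ∀ n : ℕ, n₀ ≤ n → Even (n * d) →
    |Real.log (Mnd n d) - Real.log ((n * d - 1).doubleFactorial : ℝ) + n * Real.log (d.factorial : ℝ)
      + ((d : ℝ) ^ 2 - 1) / 4| ≤ ε

/-! ### Bender-Canfield for fixed `d`, via leaves -/

/-- LEAFID: the probability that two leaves are adjacent; `D = Dlf n d (s + 2)` has `s + 2`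
leaves, the last two are `a = n + s`, `b = n + s + 1`. -/
def Stmt_LeafId : Prop :=
  ∀ n d s : ℕ, 1 ≤ d →
    N (Dlf n d (s + 2)) {s(n + s, n + s + 1)} = N (Dlf n d s) ∅ ∧
    ((n : ℝ) * d + s + 1) * N (Dlf n d (s + 2)) {s(n + s, n + s + 1)}
      = N (Dlf n d (s + 2)) ∅ - n * N (Dlf n d (s + 2)) {s(n + s, 0), s(n + s + 1, 0)}
        - n * ((n : ℝ) - 1)
          * N (Dlf n d (s + 2)) {s(n + s, 0), s(n + s + 1, 1), s(0, 1)}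

/-- the exponent of the probability of simplicity -/
noncomputable def psi (a M : ℝ) : ℝ := -(a / M) - (a / M) ^ 2

/-- LEAFSTEP -/
def Stmt_LeafStep : Prop :=
  ∀ d : ℕ, 1 ≤ d → ∃ C : ℕ, ∀ n s : ℕ, 1 ≤ n → Even (n * d + s) → C ≤ n * d + s →
    0 < N (Dlf n d s) ∅ →
    0 < N (Dlf n d (s + 2)) ∅ ∧
    |Real.log (N (Dlf n d (s + 2)) ∅) - Real.log (N (Dlf n d s) ∅) - Real.log (n * d + s + 1)
        - (psi (n * d * (d - 1) / 2) (n * d + s + 2) - psi (n * d * (d - 1) / 2) (n * d + s))|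
      ≤ (C : ℝ) / ((n : ℝ) * d + s + 2) ^ 2

/-- LEAFLIM -/
def Stmt_LeafLim : Prop :=
  ∀ n d : ℕ, 1 ≤ d → ∀ ε : ℝ, 0 < ε → ∃ s₀ : ℕ, ∀ s : ℕ, s₀ ≤ s → Even (n * d + s) →
    0 < N (Dlf n d s) ∅ ∧
    |Real.log (N (Dlf n d s) ∅) - Real.log ((n * d + s - 1).doubleFactorial : ℝ)
      + n * Real.log (d.factorial : ℝ)| ≤ ε

/-- BC -/
def Stmt_BC : Prop :=
  ∀ d : ℕ, 1 ≤ d → ∀ ε : ℝ, 0 < ε → ∃ n₀ : ℕ, ∀ n : ℕ, n₀ ≤ n → Even (n * d) →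
    |Real.log (Rn n d) - Real.log ((n * d - 1).doubleFactorial : ℝ) + n * Real.log (d.factorial : ℝ)
      + ((d : ℝ) ^ 2 - 1) / 4| ≤ ε

/-! ### Conclusion -/

/-- CORE: the estimate in the sparse range -/
def Stmt_Core : Prop :=
  ∃ A : ℕ, ∀ n d : ℕ, 1 ≤ d → A * d ^ A ≤ n → Even (n * d) →
    |Lnd n d| ≤ (A : ℝ) / ((d : ℝ) ^ 3 * (n : ℝ) ^ 4)

/-- BRIDGE -/
def Stmt_Bridge : Prop := ∀ n d : ℕ, RG n d = Rn n d

/-- COMPL -/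
def Stmt_Compl : Prop :=
  ∀ n d : ℕ, 1 ≤ d → d + 2 ≤ n → RG n (n - 1 - d) = RG n d ∧ Mnd n (n - 1 - d) = Mnd n d

/-- FINAL -/
def Stmt_Final : Prop :=
  ∃ σ : ℝ, 0 < σ ∧ ∃ C : ℝ, ∃ n₀ : ℕ, ∀ n d : ℕ, n₀ ≤ n → 1 ≤ d → d ≤ n - 2 → Even (d * n) →
    ((d : ℝ) ≤ (n : ℝ) ^ σ ∨ ((n : ℝ) - 1 - d) ≤ (n : ℝ) ^ σ) →
    |Real.log (RG n d) - Real.log (Mnd n d)|
      ≤ C / ((d : ℝ) ^ 3 * ((n : ℝ) - d) ^ 3 * n)

end Pool.Agent.RGA
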