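import Pool.Agent.RGA.Defs
import Pool.Agent.RGA.Stmts

set_option autoImplicit false

namespace Pool.Agent.RGA

open Finset

namespace CoreN

lemma dg_zero {F : Finset (Sym2 ℕ)} {v : ℕ} (h : v ∉ tch F) : dg F v = 0 := by
  unfold dg
  rw [card_eq_zero, filter_eq_empty_iff]
  intro e he hv
  apply h
  unfold tch
  rw [mem_biUnion]
  exact ⟨e, he, by rw [Sym2.mem_toFinset]; exact hv⟩

lemma tch_union (F G : Finset (Sym2 ℕ)) : tch (F ∪ G) = tch F ∪ tch G := by
  unfold tch
  exact union_biUnion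

lemma tch_single (a b : ℕ) : tch {s(a, b)} = {a, b} := by
  unfold tch
  rw [singleton_biUnion, Sym2.toFinset_mk_eq]

lemma mem_tch_add {F : Finset (Sym2 ℕ)} {a b w : ℕ} :
    w ∈ tch (F ∪ {s(a, b)}) ↔ w ∈ tch F ∨ w = a ∨ w = b := by
  rw [tch_union, tch_single, mem_union, mem_insert, mem_singleton]

lemma lpl_add {F : Finset (Sym2 ℕ)} (hF : Lpl F) {a b : ℕ} (hab : a ≠ b) :
    Lpl (F ∪ {s(a, b)}) := by
  intro e he
  rw [mem_union, mem_singleton] at he
  rcases he with he | he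
  · exact hF e he
  · rw [he]
    intro h
    exact hab (Sym2.mk_isDiag_iff.1 h)

lemma dg_add_ne {F : Finset (Sym2 ℕ)} {a b v : ℕ} (h1 : v ≠ a) (h2 : v ≠ b) :
    dg (F ∪ {s(a, b)}) v = dg F v := by
  unfold dg
  congr 1
  ext e
  rw [mem_filter, mem_filter, mem_union, mem_singleton]
  constructor
  · rintro ⟨h | h, hv⟩
    · exact ⟨h, hv⟩
    · exfalso
      rw [h, Sym2.mem_iff] at hv
      rcases hv with hv | hv
      · exact h1 hv
      · exact h2 hv
  · rintro ⟨h, hv⟩
    exact ⟨Or.inl h, hv⟩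

lemma not_mem_of_fresh {F : Finset (Sym2 ℕ)} {a b : ℕ} (h : b ∉ tch F) : s(a, b) ∉ F := by
  intro he
  apply h
  unfold tch
  rw [mem_biUnion]
  exact ⟨s(a, b), he, by rw [Sym2.mem_toFinset]; exact Sym2.mem_mk_right a b⟩

lemma not_mem_of_fresh' {F : Finset (Sym2 ℕ)} {a b : ℕ} (h : a ∉ tch F) : s(a, b) ∉ F := by
  rw [Sym2.eq_swap]
  exact not_mem_of_fresh h

lemma Dm_apply {n d k t : ℕ} (h2 : 2 ≤ t) (ht : t ≤ n + 1) : Dm n d k t = d := by
  unfold Dm
  rw [Finsupp.onFinset_apply, if_neg (by omega), if_pos (by omega)]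

end CoreN

open CoreN

theorem coreN_proof (hP : Stmt_PendN) (hS : Stmt_Sw) : Stmt_CoreN := by
  intro n d k t u v F hF hfr h2 htn hu hv huv huvF
  have htF : t ∉ tch F := fun h => lt_irrefl _ (hfr t h)
  have htF' : t + 1 ∉ tch F := fun h => by have := hfr (t + 1) h; omega
  -- (a)
  have ha := hP n d k (t + 1) t (F ∪ {s(u, v)}) (lpl_add hF huv)
    (by
      intro w hw
      rw [mem_tch_add] at hw
      rcases hw with hw | hw | hw
      · have := hfr w hw
        omega
      · omega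
      · omega) (by omega) (by omega) (by omega)
  have hfa : (range (t + 1)).filter (fun w => w ≠ t ∧ s(t, w) ∉ F ∪ {s(u, v)}) = range t := by
    ext w
    rw [mem_filter, mem_range, mem_range]
    constructor
    · rintro ⟨h1, h3, _⟩
      omega
    · intro h
      refine ⟨by omega, by omega, ?_⟩
      apply not_mem_of_fresh'
      intro h3
      rw [mem_tch_add] at h3
      rcases h3 with h3 | h3 | h3
      · exact htF h3
      · omega
      · omega
  rw [hfa, dg_add_ne (by omega) (by omega), dg_zero htF, Dm_apply h2 (by omega)] at ha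
  -- (b)
  have hb := hP n d k (t + 1) v (F ∪ {s(u, t)}) (lpl_add hF (by omega))
    (by
      intro w hw
      rw [mem_tch_add] at hw
      rcases hw with hw | hw | hw
      · have := hfr w hw
        omega
      · omega
      · omega) (by omega) (by omega) (by omega)
  have hfb : (range (t + 1)).filter (fun w => w ≠ v ∧ s(v, w) ∉ F ∪ {s(u, t)})
      = (range (t + 1)).filter (fun w => w ≠ v ∧ s(v, w) ∉ F) := by
    ext w
    rw [mem_filter, mem_filter, mem_union, mem_singleton]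
    constructor
    · rintro ⟨h1, h3, h4⟩
      exact ⟨h1, h3, fun h => h4 (Or.inl h)⟩
    · rintro ⟨h1, h3, h4⟩
      refine ⟨h1, h3, ?_⟩
      rintro (h | h)
      · exact h4 h
      · have : v ∈ s(u, t) := by
          rw [← h]
          exact Sym2.mem_mk_left v w
        rw [Sym2.mem_iff] at this
        rcases this with h5 | h5
        · exact huv h5.symm
        · omega
  rw [hfb, dg_add_ne (Ne.symm huv) (by omega)] at hb
  -- (c)
  have hc := hP n d k t u F hF hfr h2 (by omega) hu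
  -- (d)
  have hd := hS (Dm n d k) F u v t (t + 1) hF huv (by omega) (by omega) (by omega) (by omega)
    (by omega) huvF (not_mem_of_fresh htF') (not_mem_of_fresh htF) (not_mem_of_fresh htF')
  -- rewrite the sets
  have e1 : F ∪ {s(u, v)} ∪ {s(t, t + 1)} = F ∪ {s(u, v), s(t, t + 1)} := by
    rw [union_assoc, ← insert_eq]
  have e2 : F ∪ {s(u, t)} ∪ {s(v, t + 1)} = F ∪ {s(u, t), s(v, t + 1)} := by
    rw [union_assoc, ← insert_eq]
  have e3 : ∀ w, F ∪ {s(u, v)} ∪ {s(t, w)} = F ∪ {s(u, v), s(t, w)} := by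
    intro w
    rw [union_assoc, ← insert_eq]
  have e4 : ∀ w, F ∪ {s(u, t)} ∪ {s(v, w)} = F ∪ {s(u, t), s(v, w)} := by
    intro w
    rw [union_assoc, ← insert_eq]
  have e5 : F ∪ {s(u, t), s(v, t + 1), s(u, v)} = F ∪ {s(u, v), s(u, t), s(v, t + 1)} := by
    ext e
    simp only [mem_union, mem_insert, mem_singleton]
    tauto
  rw [e1] at ha
  rw [e2] at hb
  simp only [e3] at ha
  simp only [e4] at hb
  rw [e5] at hd
  set S1 := ∑ w ∈ (range t).filter (fun w => w ≠ u ∧ s(u, w) ∉ F),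
              (N (Dm n d k) (F ∪ {s(u, w)}) : ℝ) with hS1
  set S2 := ∑ w ∈ (range (t + 1)).filter (fun w => w ≠ v ∧ s(v, w) ∉ F),
              (N (Dm n d k) (F ∪ {s(u, t), s(v, w)}) : ℝ) with hS2
  set S3 := ∑ w ∈ range t, (N (Dm n d k) (F ∪ {s(u, v), s(t, w)}) : ℝ) with hS3
  push_cast at ha hb
  generalize (N (Dm n d k) (F ∪ {s(u, v)}) : ℝ) = X0 at *
  generalize (N (Dm n d k) (F ∪ {s(u, v), s(t, t + 1)}) : ℝ) = X1 at *
  generalize (N (Dm n d k) (F ∪ {s(u, t), s(v, t + 1)}) : ℝ) = X2 at *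
  generalize (N (Dm n d k) (F ∪ {s(u, t)}) : ℝ) = X3 at *
  generalize (N (Dm n d k) F : ℝ) = X4 at *
  generalize (N (Dm n d k) (F ∪ {s(u, v), s(t, t + 1), s(u, t)}) : ℝ) = Y1 at *
  generalize (N (Dm n d k) (F ∪ {s(u, v), s(t, t + 1), s(v, t + 1)}) : ℝ) = Y2 at *
  generalize (N (Dm n d k) (F ∪ {s(u, v), s(u, t), s(v, t + 1)}) : ℝ) = Y3 at *
  generalize (N (Dm n d k) (F ∪ {s(u, t), s(v, t + 1), s(t, t + 1)}) : ℝ) = Y4 at *
  generalize ((Dm n d k u : ℝ) - dg F u) = A at *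
  generalize ((Dm n d k v : ℝ) - dg F v) = B at *
  linear_combination (-((n : ℝ) + 2 - t)) * ha + ((n : ℝ) + 2 - t) * hb + B * hc
    + (((n : ℝ) + 2 - t) * ((n : ℝ) + 1 - t)) * hd

end Pool.Agent.RGA
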