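import Mathlib

/-!
Regular graphs, high precision asymptotics in the sparse range (MP_3a123b_co): definitions.

Graphs are finite sets of edges `s(a, b)` on the vertex set `ℕ`; a degree sequence is a finitely
supported function `D : ℕ →₀ ℕ`.
-/

set_option autoImplicit false

namespace Pool.Agent.RGA

open Finset

/-- degree of the vertex `v` in the edge set `F` -/
def dg (F : Finset (Sym2 ℕ)) (v : ℕ) : ℕ := (F.filter (fun e => v ∈ e)).card

/-- no loops -/
def Lpl (F : Finset (Sym2 ℕ)) : Prop := ∀ e ∈ F, ¬ e.IsDiag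

/-- all simple graphs with degree sequence `D` -/
def gr (D : ℕ →₀ ℕ) : Finset (Finset (Sym2 ℕ)) :=
  (D.support.sym2.powerset).filter
    (fun G => (∀ e ∈ G, ¬ e.IsDiag) ∧ ∀ v ∈ D.support, dg G v = D v)

/-- number of graphs with degree sequence `D` that contain all edges of `F` -/
def N (D : ℕ →₀ ℕ) (F : Finset (Sym2 ℕ)) : ℕ := ((gr D).filter (fun G => F ⊆ G)).card

/-- probability that the uniform random graph with degree sequence `D` contains `F` -/
noncomputable def P (D : ℕ →₀ ℕ) (F : Finset (Sym2 ℕ)) : ℝ := (N D F : ℝ) / (N D ∅ : ℝ)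

/-- vertices touched by `F` -/
def tch (F : Finset (Sym2 ℕ)) : Finset ℕ := F.biUnion (fun e => e.toFinset)

/-- sum of the degrees -/
def tot (D : ℕ →₀ ℕ) : ℕ := ∑ v ∈ D.support, D v

/-- product of the degrees over the touched vertices -/
noncomputable def Wt (D : ℕ →₀ ℕ) (F : Finset (Sym2 ℕ)) : ℝ := ∏ v ∈ tch F, (D v : ℝ)

/-- product of the falling factorials `(D v)_{dg F v}` -/
noncomputable def FF (D : ℕ →₀ ℕ) (F : Finset (Sym2 ℕ)) : ℝ :=
  ∏ v ∈ tch F, ((D v).descFactorial (dg F v) : ℝ)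

/-- degree sequence `(k, k, d, ..., d)`: vertices `0, 1` have degree `k`, the `n` vertices
`2, ..., n + 1` have degree `d` -/
noncomputable def Dm (n d k : ℕ) : ℕ →₀ ℕ :=
  Finsupp.onFinset (range (n + 2)) (fun v => if v < 2 then k else if v < n + 2 then d else 0)
    (by
      intro v hv
      rw [mem_range]
      by_contra h
      apply hv
      rw [if_neg (by omega), if_neg (by omega)])

/-- degree sequence `(d, ..., d)` on `0, ..., n - 1` -/
noncomputable def Dreg (n d : ℕ) : ℕ →₀ ℕ :=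
  Finsupp.onFinset (range n) (fun v => if v < n then d else 0)
    (by
      intro v hv
      rw [mem_range]
      by_contra h
      apply hv
      rw [if_neg h])

/-- degree sequence: `d` on `0, ..., n - 1` and `1` on the leaves `n, ..., n + s - 1` -/
noncomputable def Dlf (n d s : ℕ) : ℕ →₀ ℕ :=
  Finsupp.onFinset (range (n + s)) (fun v => if v < n then d else if v < n + s then 1 else 0)
    (by
      intro v hv
      rw [mem_range]
      by_contra h
      apply hv
      rw [if_neg (by omega), if_neg h])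

/-- number of `d`-regular graphs on `n` vertices -/
noncomputable def Rn (n d : ℕ) : ℕ := N (Dreg n d) ∅

/-- probability of the edge between the two special vertices -/
noncomputable def rho (n d k : ℕ) : ℝ := P (Dm n d k) {s(0, 1)}

/-- the small parameter `1 / (n d)` -/
noncomputable def xx (n d : ℕ) : ℝ := 1 / ((n : ℝ) * (d : ℝ))

/-! ### The approximation `M (n, d)` of the problem -/

/-- the seven polynomials of the problem -/
noncomputable def pj : ℕ → ℝ → ℝ
  | 1, x => x / 4
  | 2, x => -(x ^ 2 / 4)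
  | 3, x => (2 * x ^ 2 - 23 * x ^ 3) / 24
  | 4, x => (22 * x ^ 3 - 129 * x ^ 4) / 24
  | 5, x => (-3 * x ^ 3 + 115 * x ^ 4 - 483 * x ^ 5) / 12
  | 6, x => (-375 * x ^ 4 + 6615 * x ^ 5 - 22097 * x ^ 6) / 60
  | 7, x => (1046 * x ^ 4 - 87318 * x ^ 5 + 1002900 * x ^ 6 - 2791541 * x ^ 7) / 720
  | _, _ => 0

/-- density `d / (n - 1)` -/
noncomputable def lam (n d : ℕ) : ℝ := (d : ℝ) / ((n : ℝ) - 1)

/-- `λ (1 - λ)` -/
noncomputable def Lam (n d : ℕ) : ℝ := lam n d * (1 - lam n d)

/-- the exponent `∑_{j ≤ 7} p_j(Λ) / (Λ^j n^(j-1))` -/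
noncomputable def S7 (n d : ℕ) : ℝ :=
  ∑ j ∈ Finset.Icc 1 7, pj j (Lam n d) / (Lam n d ^ j * (n : ℝ) ^ (j - 1))

/-- `B (n, d)` -/
noncomputable def Bnd (n d : ℕ) : ℝ :=
  Real.sqrt 2 * ((n - 1).choose d : ℝ) ^ n
    * (lam n d) ^ (lam n d * (n.choose 2 : ℝ))
    * (1 - lam n d) ^ ((1 - lam n d) * (n.choose 2 : ℝ))

/-- `M (n, d)` -/
noncomputable def Mnd (n d : ℕ) : ℝ := Bnd n d * Real.exp (S7 n d)

/-- the number of labelled `d`-regular simple graphs on `n` vertices -/
noncomputable def RG (n d : ℕ) : ℕ := Nat.card {G : SimpleGraph (Fin n) // ∀ v, (G.neighborSet v).ncard = d}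

/-- error of the approximation, internal count -/
noncomputable def Lnd (n d : ℕ) : ℝ := Real.log (Rn n d) - Real.log (Mnd n d)

end Pool.Agent.RGA
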