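import Pool.Agent.RGA.Mem

set_option autoImplicit false

namespace Pool.Agent.RGA

open Finset

namespace Deg

/-- number of graphs containing `F` and a further edge, as a sum of indicators -/
theorem N_insert (D : ℕ →₀ ℕ) (F : Finset (Sym2 ℕ)) (e : Sym2 ℕ) :
    (N D (F ∪ {e}) : ℝ) = ∑ G ∈ (gr D).filter (fun G => F ⊆ G), if e ∈ G then (1 : ℝ) else 0 := by
  unfold N
  rw [Finset.sum_ite, Finset.sum_const_zero, add_zero, Finset.sum_const, nsmul_eq_mul, mul_one,
    Finset.filter_filter]
  congr 2
  ext G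
  simp only [Finset.mem_filter, Finset.union_subset_iff, Finset.singleton_subset_iff]

theorem count_nb (D : ℕ →₀ ℕ) (F G : Finset (Sym2 ℕ)) (v : ℕ) (hG : G ∈ gr D) (hFG : F ⊆ G) :
    ((D.support.filter (fun w => w ≠ v ∧ s(v, w) ∉ F)).filter (fun w => s(v, w) ∈ G)).card
      + dg F v = D v := by
  have hG' := (mem_proof D G).mp hG
  have h1 : ((D.support.filter (fun w => w ≠ v ∧ s(v, w) ∉ F)).filter
      (fun w => s(v, w) ∈ G)).card = ((G \ F).filter (fun e => v ∈ e)).card := by
    apply Finset.card_bij (fun w _ => s(v, w))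
    · intro w hw
      rw [Finset.mem_filter, Finset.mem_filter] at hw
      rw [Finset.mem_filter, Finset.mem_sdiff]
      exact ⟨⟨hw.2, hw.1.2.2⟩, Sym2.mem_mk_left v w⟩
    · intro a _ b _ hab
      rw [Sym2.eq_iff] at hab
      rcases hab with h | h
      · exact h.2
      · rw [h.2, h.1]
    · intro e he
      rw [Finset.mem_filter, Finset.mem_sdiff] at he
      obtain ⟨⟨heG, heF⟩, hv⟩ := he
      obtain ⟨w, rfl⟩ := hv
      refine ⟨w, ?_, rfl⟩
      rw [Finset.mem_filter, Finset.mem_filter]
      refine ⟨⟨?_, ?_, heF⟩, heG⟩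
      · rw [Finsupp.mem_support_iff, ← hG'.2 w]
        unfold dg
        intro h0
        rw [Finset.card_eq_zero, Finset.filter_eq_empty_iff] at h0
        exact h0 heG (Sym2.mem_mk_right v w)
      · intro h
        apply hG'.1 _ heG
        rw [h]
        exact Sym2.mk_isDiag_iff.mpr rfl
  rw [h1, ← hG'.2 v]
  unfold dg
  rw [← Finset.card_union_of_disjoint]
  · congr 1
    rw [← Finset.filter_union, Finset.sdiff_union_of_subset hFG]
  · apply Finset.disjoint_filter_filter
    exact Finset.sdiff_disjoint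

end Deg

open Deg in
theorem deg_proof : Stmt_Deg := by
  intro D F v _
  rw [Finset.sum_congr rfl (fun w _ => N_insert D F s(v, w)), Finset.sum_comm]
  have h : ∀ G ∈ (gr D).filter (fun G => F ⊆ G),
      (∑ w ∈ D.support.filter (fun w => w ≠ v ∧ s(v, w) ∉ F), if s(v, w) ∈ G then (1 : ℝ) else 0)
        = (D v : ℝ) - dg F v := by
    intro G hG
    rw [Finset.mem_filter] at hG
    rw [Finset.sum_ite, Finset.sum_const_zero, add_zero, Finset.sum_const, nsmul_eq_mul, mul_one]
    have := count_nb D F G v hG.1 hG.2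
    rw [← this]
    push_cast
    ring
  rw [Finset.sum_congr rfl h, Finset.sum_const, nsmul_eq_mul]
  unfold N
  ring

end Pool.Agent.RGA
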