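import Pool.Agent.RGA.Ex
import Pool.Agent.RGA.Stmts

/-!
Patterns as lists of edges, the normalised probabilities `qq`, and the explicit expansion of
the probability `rho` of the edge between the two special vertices.
-/

set_option autoImplicit false

namespace Pool.Agent.RGA

/-- the edge set of a pattern -/
def toF (L : List (ℕ × ℕ)) : Finset (Sym2 ℕ) := (L.map (fun e => s(e.1, e.2))).toFinset

/-- normalised probability: `P(F) / (Wt(F) x^|F|)` -/
noncomputable def qq (L : List (ℕ × ℕ)) (n d k : ℕ) : ℝ :=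
  P (Dm n d k) (toF L) / (Wt (Dm n d k) (toF L) * xx n d ^ L.length)

/-- expansion of `rho / (k^2 x)` up to `x^5` -/
def p01 : P3 :=
  [[[1]], [[0, 0, -1], [-1, 2], [-1]], [[0, 0, 1, 0, 1], [0, -2, 2, -4], [2, -4, 5], [2, -2]], [[0, 0, -6, 4, -2, 0, -1], [0, 12, -7, 4, -3, 6], [-6, 2, -4, 12, -13], [0, 4, -15, 12], [-2, 6, -4]], [[0, 0, 55, -52, 26, -8, 3, 0, 1], [0, -110, 58, -26, 14, -10, 4, -8], [55, 40, -27, 0, 16, -24, 25], [-46, 28, -4, -26, 52, -38], [0, -8, 30, -48, 28], [6, -14, 16, -8], [1]], [[0, 0, -654, 720, -406, 152, -47, 12, -4, 0, -1], [0, 1308, -457, 12, -20, 60, -39, 20, -5, 10], [-654, -1246, 859, -294, 28, 42, -45, 40, -41], [983, -130, 15, -16, -32, 84, -125, 88], [-335, 172, -61, 58, -134, 190, -104], [-26, 40, -62, 120, -140, 64], [-4, 18, -40, 40, -16], [3, -2], [1]]]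

/-- Q6: the expansion of `rho n d k = k^2 x * qq [(0, 1)] n d k` -/
def Stmt_Q6 : Prop := Ex 6 p01 (qq [(0, 1)])

end Pool.Agent.RGA
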