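import Pool.Agent.RGA.DelFinD

/-!
DELFIN: the increment of the error, from the expansion of `rho`.
-/

set_option autoImplicit false

namespace Pool.Agent.RGA

open Finset

/-- `420 n ^ 2 (log (1 - c / n) + c / n)` -/
noncomputable def La (c n : ℝ) : ℝ := 420 * (n ^ 2 * (Real.log (1 - c / n) + c / n))

/-- the part of `840 R` without `S7` -/
noncomputable def TT (n d : ℕ) : ℝ :=
  -840 * (d : ℝ) + 840 * ((d * d + 2 * d) * (d * xx n d))
    - ((1 + 2 * (d * xx n d)) * (1 - d * xx n d)) * La (-1) n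
    + (1 - d * xx n d) * La 1 n
    - (2 * (d * xx n d)) * (1 + 2 * (d * xx n d)) * La d n
    + ((1 + 2 * (d * xx n d)) * (1 - (1 + d) * (d * xx n d))) * La (d - 1) n
    - (1 - (1 + d) * (d * xx n d)) * La (d + 1) n

lemma ex_T : Ex 6 pT (fun n d _ => TT n d) := by
  have l1 := ex_l420 (cst (-1)) (fun _ _ _ => (-1 : ℝ)) (fun n d k => by simp)
  have l2 := ex_l420 (cst 1) (fun _ _ _ => (1 : ℝ)) (fun n d k => by simp)
  have l3 := ex_l420 vd (fun _ d _ => (d : ℝ)) (fun n d k => by simp)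
  have l4 := ex_l420 (add3 vd (cst (-1))) (fun _ d _ => (d : ℝ) - 1)
    (fun n d k => by simp [ev3_add, sub_eq_add_neg])
  have l5 := ex_l420 (add3 vd (cst 1)) (fun _ d _ => (d : ℝ) + 1) (fun n d k => by simp [ev3_add])
  have dx := exD.mul exX
  have c (m : ℤ) := exC m
  have a1 := (c 1).add ((c 2).mul dx)
  have a2 := (c 1).sub dx
  have a3 := (c 1).sub (((c 1).add exD).mul dx)
  have h := (((((((c (-840)).mul exD).add ((c 840).mul (((exD.mul exD).add
    ((c 2).mul exD)).mul dx))).sub ((a1.mul a2).mulT l1)).add (a2.mulT l2)).sub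
    ((((c 2).mul dx).mul a1).mulT l3)).add ((a1.mul a3).mulT l4)).sub (a3.mulT l5)
  refine (h.change (q := pT) le_rfl (by decide +kernel)).congr_all fun n d k => ?_
  simp only [TT, La]
  push_cast
  rfl

/-- the total -/
noncomputable def gg (n d k : ℕ) : ℝ :=
  84 * (∑ j ∈ Finset.Icc 1 k, (60 * Real.log (1 - rho n d j)
    - 60 * Real.log (qq [(0, 1)] n d j) - 2 * (60 * Real.log (1 - (j : ℝ) / n))))
  - 84 * (60 * Real.log (1 - rho n d k))
  - (6 * TT n d + 7 * (720 * S7 (n + 2) d - 720 * S7 n d))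

lemma gg_bound (h6 : Stmt_Q6) : ∃ A : ℕ, ∀ n d : ℕ, Dom A n d d →
    |gg n d d| ≤ A * ((d : ℝ) ^ 2 * xx n d ^ 5 + (d : ℝ) ^ A * xx n d ^ 6) := by
  have h := (((ex_R h6).smul 84).sub ((ex_L1 h6).smul 84)).sub
    ((ex_T.smul 6).add ((ex_S7'.sub ex_S7).smul 7))
  obtain ⟨A, hA⟩ := h
  refine ⟨A + 3010896, fun n d hD => ?_⟩
  have h1 := hA n d d (hD.mono (by omega))
  have hd := hD.dR
  have hx := hD.x_pos
  rw [← ev2_dg3] at h1
  beta_reduce at h1
  have h2 : ev2 (xx n d) d (add2 (dg3 (add3 (add3 (mul3 (cst 84) pR) (neg3 (mul3 (cst 84) pL1)))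
      (neg3 (add3 (mul3 (cst 6) pT) (mul3 (cst 7) (add3 pS2 (neg3 pS)))))))
      [[], [], [], [], [], [0, -500640, 2510256]]) = 0 :=
    ev2_of_z2 _ _ _ (by decide +kernel)
  rw [ev2_add] at h2
  have h3 : ev2 (xx n d) d [[], [], [], [], [], [0, -500640, 2510256]]
      = xx n d ^ 5 * (-500640 * d + 2510256 * d ^ 2) := by
    simp only [ev2, ev1, pev]
    push_cast
    ring
  rw [h3] at h2
  have h4 : gg n d d = (84 : ℤ) * (∑ j ∈ Finset.Icc 1 d, (60 * Real.log (1 - rho n d j)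
    - 60 * Real.log (qq [(0, 1)] n d j) - 2 * (60 * Real.log (1 - (j : ℝ) / n))))
    - (84 : ℤ) * (60 * Real.log (1 - rho n d d))
    - ((6 : ℤ) * TT n d + (7 : ℤ) * (720 * S7 (n + 2) d - 720 * S7 n d)) := by
    rw [gg]
    push_cast
    rfl
  rw [← h4] at h1
  have h5 : |gg n d d - xx n d ^ 5 * (500640 * d - 2510256 * d ^ 2)|
      ≤ A * (d : ℝ) ^ A * xx n d ^ 6 := by
    refine le_trans (le_of_eq ?_) h1
    congr 1
    linarith
  have h6 : |xx n d ^ 5 * (500640 * d - 2510256 * (d : ℝ) ^ 2)|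
      ≤ 3010896 * ((d : ℝ) ^ 2 * xx n d ^ 5) := by
    rw [abs_mul, abs_of_pos (by positivity)]
    have e1 : |500640 * d - 2510256 * (d : ℝ) ^ 2| ≤ 3010896 * (d : ℝ) ^ 2 := by
      rw [abs_le]
      constructor <;> nlinarith
    calc xx n d ^ 5 * |500640 * d - 2510256 * (d : ℝ) ^ 2|
        ≤ xx n d ^ 5 * (3010896 * (d : ℝ) ^ 2) := mul_le_mul_of_nonneg_left e1 (by positivity)
      _ = _ := by ring
  have h7 : (d : ℝ) ^ A ≤ (d : ℝ) ^ (A + 3010896) := pow_le_pow_right₀ hd (by omega)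
  have h8 : 0 ≤ (d : ℝ) ^ 2 * xx n d ^ 5 := by positivity
  have h9 : 0 ≤ xx n d ^ 6 := by positivity
  have h10 : 0 ≤ (A : ℝ) := Nat.cast_nonneg _
  have h11 : (A : ℝ) * (d : ℝ) ^ A * xx n d ^ 6
      ≤ ((A : ℝ) + 3010896) * ((d : ℝ) ^ (A + 3010896) * xx n d ^ 6) := by
    rw [mul_assoc]
    apply mul_le_mul (by linarith) (mul_le_mul_of_nonneg_right h7 h9) (by positivity)
      (by positivity)
  calc |gg n d d| = |(gg n d d - xx n d ^ 5 * (500640 * d - 2510256 * d ^ 2))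
        + xx n d ^ 5 * (500640 * d - 2510256 * d ^ 2)| := by ring_nf
    _ ≤ |gg n d d - xx n d ^ 5 * (500640 * d - 2510256 * d ^ 2)|
        + |xx n d ^ 5 * (500640 * d - 2510256 * d ^ 2)| := abs_add_le _ _
    _ ≤ A * (d : ℝ) ^ A * xx n d ^ 6 + 3010896 * ((d : ℝ) ^ 2 * xx n d ^ 5) := add_le_add h5 h6
    _ ≤ _ := by
        rw [mul_add]
        push_cast
        nlinarith [mul_nonneg h10 h8]

/-- the algebra of the logarithms -/
lemma R_eq (n d a b c e f : ℝ) (hn : n ≠ 0) :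
    840 * ((n + 2) * (a - b - c) - ((n + 2) * d / 2) * a + (n * d / 2) * e
      + ((n + 2) * (n + 1 - d) / 2) * (c - a) - (n * (n - 1 - d) / 2) * (f - e))
    = -840 * d + 840 * ((d * d + 2 * d) * (1 / n))
      - ((1 + 2 * (1 / n)) * (1 - 1 / n)) * (420 * (n ^ 2 * (a + -1 / n)))
      + (1 - 1 / n) * (420 * (n ^ 2 * (e + 1 / n)))
      - (2 * (1 / n)) * (1 + 2 * (1 / n)) * (420 * (n ^ 2 * (b + d / n)))
      + ((1 + 2 * (1 / n)) * (1 - (1 + d) * (1 / n))) * (420 * (n ^ 2 * (c + (d - 1) / n)))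
      - (1 - (1 + d) * (1 / n)) * (420 * (n ^ 2 * (f + (d + 1) / n))) := by
  field_simp
  ring

theorem del_of_q6 (h6 : Stmt_Q6) (hR : Stmt_Ratio) (hM : Stmt_DelM) (hP : Stmt_Pos) :
    Stmt_Del := by
  obtain ⟨A, hA⟩ := gg_bound h6
  obtain ⟨B, hB⟩ := hR
  obtain ⟨C, hC⟩ := hP
  refine ⟨A + B + C + 6, fun n d hd hn hev => ?_⟩
  have hd1 : ∀ m : ℕ, m ≤ A + B + C + 6 → m * d ^ m ≤ n := fun m hm =>
    (Nat.mul_le_mul hm (Nat.pow_le_pow_right hd hm)).trans hn
  have hD : Dom A n d d := ⟨hd, le_rfl, hd1 _ (by omega), hev⟩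
  have hb := hd1 6 (by omega)
  have hb2 : 2 * d + 4 ≤ n := by
    have : d ≤ d ^ 6 := Nat.le_self_pow (by omega) _
    omega
  have r1 := hB n d hd (hd1 _ (by omega)) hev
  have m1 := hM n d hd hb2
  have hnR := hD.nR
  have hdR := hD.dR
  have hx := hD.x_pos
  have hdx := hD.dx
  -- the identity
  have key : 5040 * (Lnd (n + 2) d - Lnd n d) = gg n d d := by
    have e1 : ∀ k ∈ Finset.Icc 1 d, Real.log (1 - rho n d k) - Real.log (rho n d k)
        = (Real.log (1 - rho n d k) - Real.log (qq [(0, 1)] n d k)) - 2 * Real.log k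
          + Real.log ((n : ℝ) * d) := by
      intro k hk
      rw [Finset.mem_Icc] at hk
      have hDk : Dom A n d k := ⟨hk.1, hk.2, hD.2.2.1, hD.2.2.2⟩
      have hkR := hDk.kR
      obtain ⟨_, _, p3⟩ := hC n d k hd hk.2 (hd1 _ (by omega)) hev
      have p4 := p3 hk.1
      have p5 := rho_eq hDk
      have p6 : 0 < qq [(0, 1)] n d k := by
        rw [p5] at p4
        have : 0 < (k : ℝ) * k := by positivity
        exact (mul_pos_iff_of_pos_left hx).1 ((mul_pos_iff_of_pos_left this).1 p4)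
      rw [p5, Real.log_mul (by positivity) (by positivity), Real.log_mul (by positivity)
        (by positivity), Real.log_mul hx.ne' p6.ne']
      have p7 : Real.log (xx n d) = - Real.log ((n : ℝ) * d) := by
        rw [xx, one_div, Real.log_inv]
      rw [p7]
      ring
    rw [Finset.sum_congr rfl e1, Finset.sum_add_distrib, Finset.sum_sub_distrib,
      Finset.sum_const, Nat.card_Icc, Nat.add_sub_cancel, nsmul_eq_mul] at r1
    rw [Finset.sum_sub_distrib] at m1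
    have g1 : ∑ j ∈ Finset.Icc 1 d, (60 * Real.log (1 - rho n d j)
        - 60 * Real.log (qq [(0, 1)] n d j) - 2 * (60 * Real.log (1 - (j : ℝ) / n)))
        = 60 * (∑ k ∈ Finset.Icc 1 d, (Real.log (1 - rho n d k)
            - Real.log (qq [(0, 1)] n d k)))
          - 60 * ∑ k ∈ Finset.Icc 1 d, 2 * Real.log (1 - (k : ℝ) / n) := by
      rw [Finset.mul_sum, Finset.mul_sum, ← Finset.sum_sub_distrib]
      refine Finset.sum_congr rfl fun k _ => ?_
      ring
    have hn0 : (n : ℝ) ≠ 0 := by linarith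
    have t1 := R_eq n d (Real.log (1 + 1 / n)) (Real.log (1 - (d : ℝ) / n))
      (Real.log (1 - ((d : ℝ) - 1) / n)) (Real.log (1 - 1 / n))
      (Real.log (1 - ((d : ℝ) + 1) / n)) hn0
    have t2 : TT n d = 840 * (((n : ℝ) + 2) * (Real.log (1 + 1 / n) - Real.log (1 - (d : ℝ) / n)
            - Real.log (1 - ((d : ℝ) - 1) / n))
        - (((n : ℝ) + 2) * d / 2) * Real.log (1 + 1 / n)
        + ((n : ℝ) * d / 2) * Real.log (1 - 1 / n)
        + (((n : ℝ) + 2) * ((n : ℝ) + 1 - d) / 2)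
            * (Real.log (1 - ((d : ℝ) - 1) / n) - Real.log (1 + 1 / n))
        - ((n : ℝ) * ((n : ℝ) - 1 - d) / 2)
            * (Real.log (1 - ((d : ℝ) + 1) / n) - Real.log (1 - 1 / n))) := by
      rw [t1]
      simp only [TT, La, hdx]
      have e3 : (1 : ℝ) - -1 / n = 1 + 1 / n := by ring
      rw [e3]
    rw [gg, g1, t2]
    simp only [Lnd]
    linarith
  have h7 := hA n d hD
  rw [← key, abs_mul, abs_of_pos (by norm_num : (0 : ℝ) < 5040)] at h7
  have h8 : (d : ℝ) ^ A ≤ (d : ℝ) ^ (A + B + C + 6) := pow_le_pow_right₀ hdR (by omega)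
  have h9 : (A : ℝ) ≤ ((A + B + C + 6 : ℕ) : ℝ) := by exact_mod_cast (by omega)
  have h10 : (A : ℝ) * ((d : ℝ) ^ 2 * xx n d ^ 5 + (d : ℝ) ^ A * xx n d ^ 6)
      ≤ ((A + B + C + 6 : ℕ) : ℝ) * ((d : ℝ) ^ 2 * xx n d ^ 5
        + (d : ℝ) ^ (A + B + C + 6) * xx n d ^ 6) := by
    apply mul_le_mul h9 _ (by positivity) (by positivity)
    have := mul_le_mul_of_nonneg_right h8 (pow_nonneg hx.le 6)
    linarith
  have h11 : 0 ≤ |Lnd (n + 2) d - Lnd n d| := abs_nonneg _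
  linarith

end Pool.Agent.RGA
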