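import Pool.Agent.RGA.DelDefs

/-!
Calculus of expansions: truncated products, logarithms, sums over `k`, the diagonal `k = d`.
-/

set_option autoImplicit false

namespace Pool.Agent.RGA

open Finset

/-! ### Truncated products -/

/-- product modulo `x ^ m` -/
def mulT : ℕ → P3 → P3 → P3
  | 0, _, _ => []
  | _ + 1, [], _ => []
  | m + 1, a :: l, q => add3 ((q.take (m + 1)).map (mul2 a)) ([] :: mulT m l q)

lemma ev3_map_mul2 (x d k : ℝ) (a : P2) (q : P3) :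
    ev3 x d k (q.map (mul2 a)) = ev2 d k a * ev3 x d k q :=
  pev_map (fun b => ev2_mul d k a b) x q

lemma mulT_spec (m : ℕ) (p q : P3) : ∃ r : P3, ∀ x d k : ℝ,
    ev3 x d k p * ev3 x d k q = ev3 x d k (mulT m p q) + x ^ m * ev3 x d k r := by
  induction m generalizing p with
  | zero => exact ⟨mul3 p q, fun x d k => by simp [mulT, ev3_mul]⟩
  | succ m ih =>
    cases p with
    | nil => exact ⟨[], fun x d k => by simp [mulT]⟩
    | cons a l =>
      obtain ⟨r, hr⟩ := ih l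
      refine ⟨add3 ((q.drop (m + 1)).map (mul2 a)) r, fun x d k => ?_⟩
      have h1 := hr x d k
      have h2 := ev3_take_drop x d k (m + 1) q
      have h3 : ev3 x d k (a :: l) = ev2 d k a + x * ev3 x d k l := rfl
      have h4 : ev3 x d k ([] :: mulT m l q) = x * ev3 x d k (mulT m l q) := by
        show ev2 d k [] + x * ev3 x d k (mulT m l q) = _
        simp [ev2, pev]
      rw [mulT, ev3_add, ev3_add, ev3_map_mul2, ev3_map_mul2, h3, h4, add_mul, h2]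
      have h5 : x * ev3 x d k l * (ev3 x d k (List.take (m + 1) q)
          + x ^ (m + 1) * ev3 x d k (List.drop (m + 1) q)) = x * (ev3 x d k l * ev3 x d k q) := by
        rw [← h2]; ring
      rw [h5, h1]
      ring

/-- changing a polynomial by a multiple of `x ^ J` -/
lemma Ex.of_eq {J : ℕ} {p q r : P3} {f : ℕ → ℕ → ℕ → ℝ} (hf : Ex J p f)
    (h : ∀ x d k : ℝ, ev3 x d k p = ev3 x d k q + x ^ J * ev3 x d k r) : Ex J q f := by
  obtain ⟨A, hA⟩ := hf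
  obtain ⟨B, hB⟩ := poly_bound r
  refine ⟨A + B, fun n d k hD => ?_⟩
  have h1 := hA n d k (hD.mono (by omega))
  have h2 := hB n d k (hD.mono (by omega))
  have hd := hD.dR
  have hx := hD.x_pos
  have hx0 : 0 ≤ xx n d ^ J := pow_nonneg hx.le _
  rw [h] at h1
  have m1 : (A : ℝ) * (d : ℝ) ^ A ≤ (A : ℝ) * (d : ℝ) ^ (A + B) :=
    mul_le_mul_of_nonneg_left (pow_le_pow_right₀ hd (by omega)) (Nat.cast_nonneg _)
  have m2 : (B : ℝ) * (d : ℝ) ^ B ≤ (B : ℝ) * (d : ℝ) ^ (A + B) :=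
    mul_le_mul_of_nonneg_left (pow_le_pow_right₀ hd (by omega)) (Nat.cast_nonneg _)
  calc |f n d k - ev3 (xx n d) d k q|
      = |(f n d k - (ev3 (xx n d) d k q + xx n d ^ J * ev3 (xx n d) d k r))
          + xx n d ^ J * ev3 (xx n d) d k r| := by ring_nf
    _ ≤ |f n d k - (ev3 (xx n d) d k q + xx n d ^ J * ev3 (xx n d) d k r)|
          + |xx n d ^ J * ev3 (xx n d) d k r| := abs_add_le _ _
    _ ≤ A * (d : ℝ) ^ A * xx n d ^ J + xx n d ^ J * (B * (d : ℝ) ^ B) := by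
        apply add_le_add h1
        rw [abs_mul, abs_of_nonneg hx0]
        exact mul_le_mul_of_nonneg_left h2 hx0
    _ = (A * (d : ℝ) ^ A + B * (d : ℝ) ^ B) * xx n d ^ J := by ring
    _ ≤ (((A + B : ℕ) : ℝ) * (d : ℝ) ^ (A + B)) * xx n d ^ J := by
        apply mul_le_mul_of_nonneg_right _ hx0
        push_cast
        linarith

lemma Ex.mulT {J : ℕ} {p q : P3} {f g : ℕ → ℕ → ℕ → ℝ} (hf : Ex J p f) (hg : Ex J q g) :
    Ex J (mulT J p q) (fun n d k => f n d k * g n d k) := by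
  obtain ⟨r, hr⟩ := mulT_spec J p q
  exact Ex.of_eq (q := RGA.mulT J p q) (r := r) (hf.mul hg) fun x d k => by rw [ev3_mul, hr]

lemma Ex.smul {J : ℕ} {p : P3} {f : ℕ → ℕ → ℕ → ℝ} (c : ℤ) (hf : Ex J p f) :
    Ex J (mul3 (cst c) p) (fun n d k => (c : ℝ) * f n d k) :=
  ((Ex.poly J (cst c)).mul hf).congr_all fun n d k => by rw [ev3_cst]

lemma Ex.sub {J : ℕ} {p q : P3} {f g : ℕ → ℕ → ℕ → ℝ} (hf : Ex J p f) (hg : Ex J q g) :
    Ex J (add3 p (neg3 q)) (fun n d k => f n d k - g n d k) :=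
  (hf.add (hg.smul (-1))).congr_all fun n d k => by push_cast; ring

/-- a polynomial with prescribed values -/
lemma Ex.ofPoly {J : ℕ} (p : P3) {f : ℕ → ℕ → ℕ → ℝ}
    (h : ∀ n d k, f n d k = ev3 (xx n d) d k p) : Ex J p f :=
  (Ex.poly J p).congr_all h

/-! ### Logarithms -/

/-- `60 log (1 + p)` modulo `x ^ 6` for `p = O(x)` -/
def lg60 (p : P3) : P3 :=
  mulT 6 p (add3 (cst 60) (mulT 6 p (add3 (cst (-30)) (mulT 6 p (add3 (cst 20)
    (mulT 6 p (add3 (cst (-15)) (mulT 6 p (cst 12)))))))))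

/-- the logarithm of a small perturbation of `1` -/
lemma log_taylor {f : ℝ} (hf : |f| ≤ 1 / 2) :
    |60 * Real.log (1 + f) - f * (60 + f * (-30 + f * (20 + f * (-15 + f * 12))))|
      ≤ 120 * |f| ^ 6 := by
  have h1 : |(-f)| < 1 := by rw [abs_neg]; linarith
  have h2 := Real.abs_log_sub_add_sum_range_le h1 5
  rw [abs_neg, sub_neg_eq_add] at h2
  have h3 : |f| ^ (5 + 1) / (1 - |f|) ≤ 2 * |f| ^ 6 := by
    rw [div_le_iff₀ (by linarith)]
    have e1 := mul_nonneg (pow_nonneg (abs_nonneg f) 6) (show 0 ≤ 1 - 2 * |f| by linarith)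
    show |f| ^ 6 ≤ 2 * |f| ^ 6 * (1 - |f|)
    linarith
  have h4 : (∑ i ∈ range 5, (-f) ^ (i + 1) / ((i : ℝ) + 1))
      = -(f - f ^ 2 / 2 + f ^ 3 / 3 - f ^ 4 / 4 + f ^ 5 / 5) := by
    simp only [Finset.sum_range_succ, Finset.sum_range_zero]
    norm_num
    ring
  rw [h4] at h2
  have h5 : 60 * Real.log (1 + f) - f * (60 + f * (-30 + f * (20 + f * (-15 + f * 12))))
      = 60 * (-(f - f ^ 2 / 2 + f ^ 3 / 3 - f ^ 4 / 4 + f ^ 5 / 5) + Real.log (1 + f)) := by ring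
  rw [h5, abs_mul, abs_of_pos (by norm_num : (0 : ℝ) < 60)]
  linarith

/-- smallness of functions whose expansion starts with `x` -/
lemma Ex.small {J : ℕ} {p : P3} {f : ℕ → ℕ → ℕ → ℝ} (hf : Ex (J + 1) p f)
    (h0 : z3 (p.take 1) = true) :
    ∃ A : ℕ, ∀ n d k : ℕ, Dom A n d k → |f n d k| ≤ A * (d : ℝ) ^ A * xx n d := by
  obtain ⟨A, hA⟩ := hf
  obtain ⟨B, hB⟩ := poly_bound (p.drop 1)
  refine ⟨A + B, fun n d k hD => ?_⟩
  have h1 := hA n d k (hD.mono (by omega))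
  have h2 := hB n d k (hD.mono (by omega))
  have h3 := ev3_of_take (xx n d) d k 1 p h0
  have hd := hD.dR
  have hx := hD.x_pos
  rw [pow_one] at h3
  have h4 : xx n d ^ (J + 1) ≤ xx n d := by
    calc xx n d ^ (J + 1) ≤ xx n d ^ 1 := pow_le_pow_of_le_one hx.le hD.x_le (by omega)
      _ = xx n d := pow_one _
  have m1 : (A : ℝ) * (d : ℝ) ^ A ≤ (A : ℝ) * (d : ℝ) ^ (A + B) :=
    mul_le_mul_of_nonneg_left (pow_le_pow_right₀ hd (by omega)) (Nat.cast_nonneg _)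
  have m2 : (B : ℝ) * (d : ℝ) ^ B ≤ (B : ℝ) * (d : ℝ) ^ (A + B) :=
    mul_le_mul_of_nonneg_left (pow_le_pow_right₀ hd (by omega)) (Nat.cast_nonneg _)
  have m3 : 0 ≤ (A : ℝ) * (d : ℝ) ^ A := by positivity
  calc |f n d k| = |(f n d k - ev3 (xx n d) d k p) + ev3 (xx n d) d k p| := by ring_nf
    _ ≤ |f n d k - ev3 (xx n d) d k p| + |ev3 (xx n d) d k p| := abs_add_le _ _
    _ ≤ A * (d : ℝ) ^ A * xx n d + xx n d * (B * (d : ℝ) ^ B) := by
        apply add_le_add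
        · exact h1.trans (mul_le_mul_of_nonneg_left h4 m3)
        · rw [h3, abs_mul, abs_of_pos hx]
          exact mul_le_mul_of_nonneg_left h2 hx.le
    _ = (A * (d : ℝ) ^ A + B * (d : ℝ) ^ B) * xx n d := by ring
    _ ≤ (((A + B : ℕ) : ℝ) * (d : ℝ) ^ (A + B)) * xx n d := by
        apply mul_le_mul_of_nonneg_right _ hx.le
        push_cast
        linarith

/-- adding an error `O(d ^ A x ^ J)` -/
lemma Ex.of_close {J : ℕ} {p : P3} {f g : ℕ → ℕ → ℕ → ℝ} (hf : Ex J p f)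
    (h : ∃ A : ℕ, ∀ n d k : ℕ, Dom A n d k → |g n d k - f n d k| ≤ A * (d : ℝ) ^ A * xx n d ^ J) :
    Ex J p g := by
  obtain ⟨A, hA⟩ := hf
  obtain ⟨B, hB⟩ := h
  refine ⟨A + B, fun n d k hD => ?_⟩
  have h1 := hA n d k (hD.mono (by omega))
  have h2 := hB n d k (hD.mono (by omega))
  have hd := hD.dR
  have hx := hD.x_pos
  have hx0 : 0 ≤ xx n d ^ J := pow_nonneg hx.le _
  have m1 : (A : ℝ) * (d : ℝ) ^ A ≤ (A : ℝ) * (d : ℝ) ^ (A + B) :=
    mul_le_mul_of_nonneg_left (pow_le_pow_right₀ hd (by omega)) (Nat.cast_nonneg _)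
  have m2 : (B : ℝ) * (d : ℝ) ^ B ≤ (B : ℝ) * (d : ℝ) ^ (A + B) :=
    mul_le_mul_of_nonneg_left (pow_le_pow_right₀ hd (by omega)) (Nat.cast_nonneg _)
  calc |g n d k - ev3 (xx n d) d k p|
      = |(g n d k - f n d k) + (f n d k - ev3 (xx n d) d k p)| := by ring_nf
    _ ≤ |g n d k - f n d k| + |f n d k - ev3 (xx n d) d k p| := abs_add_le _ _
    _ ≤ B * (d : ℝ) ^ B * xx n d ^ J + A * (d : ℝ) ^ A * xx n d ^ J := add_le_add h2 h1
    _ = (A * (d : ℝ) ^ A + B * (d : ℝ) ^ B) * xx n d ^ J := by ring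
    _ ≤ (((A + B : ℕ) : ℝ) * (d : ℝ) ^ (A + B)) * xx n d ^ J := by
        apply mul_le_mul_of_nonneg_right _ hx0
        push_cast
        linarith

/-- `(A d ^ A x) ^ 6` -/
lemma pow6_bound {A n d k : ℕ} {f : ℝ} (hD : Dom A n d k) (C : ℕ)
    (hf : |f| ≤ A * (d : ℝ) ^ A * xx n d) :
    (C : ℝ) * |f| ^ 6 ≤ ((C * A ^ 6 + 6 * A : ℕ) : ℝ) * (d : ℝ) ^ (C * A ^ 6 + 6 * A) * xx n d ^ 6 := by
  have hd := hD.dR
  have hx := hD.x_pos
  have h1 : |f| ^ 6 ≤ (A * (d : ℝ) ^ A * xx n d) ^ 6 := pow_le_pow_left₀ (abs_nonneg _) hf 6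
  have h2 : (d : ℝ) ^ (6 * A) ≤ (d : ℝ) ^ (C * A ^ 6 + 6 * A) := pow_le_pow_right₀ hd (by omega)
  have h3 : ((C * A ^ 6 : ℕ) : ℝ) ≤ ((C * A ^ 6 + 6 * A : ℕ) : ℝ) := by
    exact_mod_cast Nat.le_add_right _ _
  calc (C : ℝ) * |f| ^ 6 ≤ C * (A * (d : ℝ) ^ A * xx n d) ^ 6 :=
        mul_le_mul_of_nonneg_left h1 (Nat.cast_nonneg _)
    _ = ((C * A ^ 6 : ℕ) : ℝ) * (d : ℝ) ^ (6 * A) * xx n d ^ 6 := by push_cast; ring
    _ ≤ _ := by
        apply mul_le_mul_of_nonneg_right _ (pow_nonneg hx.le _)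
        exact mul_le_mul h3 h2 (by positivity) (by positivity)

lemma Ex.log {p : P3} {f : ℕ → ℕ → ℕ → ℝ} (hf : Ex 6 p f) (h0 : z3 (p.take 1) = true) :
    Ex 6 (lg60 p) (fun n d k => 60 * Real.log (1 + f n d k)) := by
  have hg : Ex 6 (lg60 p) (fun n d k => f n d k * (60 + f n d k * (-30 + f n d k * (20 +
      f n d k * (-15 + f n d k * 12))))) := by
    have c12 : Ex 6 (cst 12) (fun _ _ _ => (12 : ℝ)) := Ex.ofPoly _ fun n d k => by simp
    have c15 : Ex 6 (cst (-15)) (fun _ _ _ => (-15 : ℝ)) := Ex.ofPoly _ fun n d k => by simp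
    have c20 : Ex 6 (cst 20) (fun _ _ _ => (20 : ℝ)) := Ex.ofPoly _ fun n d k => by simp
    have c30 : Ex 6 (cst (-30)) (fun _ _ _ => (-30 : ℝ)) := Ex.ofPoly _ fun n d k => by simp
    have c60 : Ex 6 (cst 60) (fun _ _ _ => (60 : ℝ)) := Ex.ofPoly _ fun n d k => by simp
    exact hf.mulT (c60.add (hf.mulT (c30.add (hf.mulT (c20.add (hf.mulT (c15.add (hf.mulT c12))))))))
  refine hg.of_close ?_
  obtain ⟨A, hA⟩ := hf.small h0
  refine ⟨120 * A ^ 6 + 6 * A + 2 * A, fun n d k hD => ?_⟩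
  have h1 := hA n d k (hD.mono (by omega))
  have h2 := hD.small' (C := 2 * A) (by omega)
  have hd := hD.dR
  have hx := hD.x_pos
  have h3 : |f n d k| ≤ 1 / 2 := by
    have e1 : (d : ℝ) ^ A ≤ (d : ℝ) ^ (2 * A) := pow_le_pow_right₀ hd (by omega)
    have e2 : (A : ℝ) * (d : ℝ) ^ A * xx n d ≤ (A : ℝ) * (d : ℝ) ^ (2 * A) * xx n d :=
      mul_le_mul_of_nonneg_right (mul_le_mul_of_nonneg_left e1 (Nat.cast_nonneg _)) hx.le
    push_cast at h2
    linarith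
  refine (log_taylor h3).trans ?_
  have h4 := pow6_bound (hD.mono (show A ≤ _ by omega)) 120 h1
  push_cast at h4
  refine h4.trans ?_
  apply mul_le_mul_of_nonneg_right _ (pow_nonneg hx.le _)
  have h5 := bound_mono hd (show 120 * A ^ 6 + 6 * A ≤ 120 * A ^ 6 + 6 * A + 2 * A by omega)
  push_cast at h5 ⊢
  exact h5

/-! ### Sums over `k` -/

/-- evaluation at `k - 1` -/
def sh1 : P1 → P1
  | [] => []
  | a :: l => add1 [a] (mul1 [-1, 1] (sh1 l))

lemma ev1_sh1 (k : ℝ) (p : P1) : ev1 k (sh1 p) = ev1 (k - 1) p := by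
  induction p with
  | nil => rfl
  | cons a l ih =>
    rw [sh1, ev1_add, ev1_mul, ih]
    show ((a : ℝ) + k * 0) + (((-1 : ℤ) : ℝ) + k * (((1 : ℤ) : ℝ) + k * 0)) * ev1 (k - 1) l
      = (a : ℝ) + (k - 1) * ev1 (k - 1) l
    push_cast
    ring

/-- evaluation at `k - 1` -/
def sh3 (p : P3) : P3 := p.map (fun q => q.map sh1)

lemma ev3_sh3 (x d k : ℝ) (p : P3) : ev3 x d k (sh3 p) = ev3 x d (k - 1) p := by
  have h2 : ∀ q : P2, ev2 d k (q.map sh1) = ev2 d (k - 1) q := by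
    intro q
    induction q with
    | nil => rfl
    | cons a l ih =>
      show ev1 k (sh1 a) + d * ev2 d k (l.map sh1) = ev1 (k - 1) a + d * ev2 d (k - 1) l
      rw [ev1_sh1, ih]
  induction p with
  | nil => rfl
  | cons a l ih =>
    show ev2 d k (a.map sh1) + x * ev3 x d k (sh3 l) = ev2 d (k - 1) a + x * ev3 x d (k - 1) l
    rw [h2, ih]

/-- the terms without `k` -/
def k0 (p : P3) : P3 := p.map (fun q => q.map (fun r => r.take 1))

lemma ev3_k0 (x d : ℝ) (p : P3) : ev3 x d 0 (k0 p) = ev3 x d 0 p := by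
  have h1 : ∀ r : P1, ev1 0 (r.take 1) = ev1 0 r := by
    intro r
    cases r with
    | nil => rfl
    | cons a l =>
      show (a : ℝ) + 0 * 0 = (a : ℝ) + 0 * ev1 0 l
      ring
  have h2 : ∀ q : P2, ev2 d 0 (q.map (fun r => r.take 1)) = ev2 d 0 q := by
    intro q
    induction q with
    | nil => rfl
    | cons a l ih =>
      show ev1 0 (a.take 1) + d * ev2 d 0 (l.map (fun r => r.take 1)) = ev1 0 a + d * ev2 d 0 l
      rw [h1, ih]
  induction p with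
  | nil => rfl
  | cons a l ih =>
    show ev2 d 0 (a.map (fun r => r.take 1)) + x * ev3 x d 0 (k0 l)
      = ev2 d 0 a + x * ev3 x d 0 l
    rw [h2, ih]

lemma sum_poly (x d : ℝ) (p R : P3)
    (hR : z3 (add3 (add3 R (neg3 (sh3 R))) (neg3 p)) = true) (hR0 : z3 (k0 R) = true) (m : ℕ) :
    ∑ k ∈ Finset.Icc 1 m, ev3 x d k p = ev3 x d m R := by
  induction m with
  | zero =>
    simp only [Nat.cast_zero]
    rw [← ev3_k0, ev3_of_z3 _ _ _ _ hR0]
    simp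
  | succ m ih =>
    rw [Finset.sum_Icc_succ_top (by omega), ih]
    have h := ev3_of_z3 x d ((m + 1 : ℕ) : ℝ) _ hR
    rw [ev3_add, ev3_add, ev3_neg, ev3_neg, ev3_sh3] at h
    have h2 : ((m + 1 : ℕ) : ℝ) - 1 = m := by push_cast; ring
    rw [h2] at h
    linarith

lemma Ex.sum {J : ℕ} {p : P3} {f : ℕ → ℕ → ℕ → ℝ} (hf : Ex J p f) (R : P3)
    (hR : z3 (add3 (add3 R (neg3 (sh3 R))) (neg3 p)) = true) (hR0 : z3 (k0 R) = true) :
    Ex J R (fun n d k => ∑ j ∈ Finset.Icc 1 k, f n d j) := by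
  obtain ⟨A, hA⟩ := hf
  refine ⟨A + 1, fun n d k hD => ?_⟩
  have hd := hD.dR
  have hx := hD.x_pos
  have hx0 : 0 ≤ xx n d ^ J := pow_nonneg hx.le _
  rw [← sum_poly (xx n d) d p R hR hR0 k, ← Finset.sum_sub_distrib]
  have h1 : ∀ j ∈ Finset.Icc 1 k, |f n d j - ev3 (xx n d) d j p|
      ≤ A * (d : ℝ) ^ A * xx n d ^ J := by
    intro j hj
    rw [Finset.mem_Icc] at hj
    refine hA n d j ?_
    obtain ⟨a1, a2, a3, a4⟩ := hD.mono (show A ≤ A + 1 by omega)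
    exact ⟨hj.1, hj.2.trans a2, a3, a4⟩
  refine (Finset.abs_sum_le_sum_abs _ _).trans ((Finset.sum_le_sum h1).trans ?_)
  rw [Finset.sum_const, Nat.card_Icc, nsmul_eq_mul, Nat.add_sub_cancel, ← mul_assoc]
  apply mul_le_mul_of_nonneg_right _ hx0
  have hk := hD.kd
  have hk0 : (0 : ℝ) ≤ k := Nat.cast_nonneg _
  calc (k : ℝ) * (A * (d : ℝ) ^ A) ≤ d * (A * (d : ℝ) ^ A) :=
        mul_le_mul_of_nonneg_right hk (by positivity)
    _ = A * (d : ℝ) ^ (A + 1) := by ring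
    _ ≤ ((A + 1 : ℕ) : ℝ) * (d : ℝ) ^ (A + 1) := by
        apply mul_le_mul_of_nonneg_right _ (by positivity)
        push_cast
        linarith

/-! ### The diagonal `k = d` -/

/-- `k := d` -/
def dg2 : P2 → P1
  | [] => []
  | a :: l => add1 a (0 :: dg2 l)

lemma ev1_dg2 (d : ℝ) (p : P2) : ev1 d (dg2 p) = ev2 d d p := by
  induction p with
  | nil => rfl
  | cons a l ih =>
    rw [dg2, ev1_add]
    show ev1 d a + (((0 : ℤ) : ℝ) + d * ev1 d (dg2 l)) = ev1 d a + d * ev2 d d l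
    rw [ih]
    push_cast
    ring

/-- `k := d` -/
def dg3 (p : P3) : P2 := p.map dg2

lemma ev2_dg3 (x d : ℝ) (p : P3) : ev2 x d (dg3 p) = ev3 x d d p := by
  induction p with
  | nil => rfl
  | cons a l ih =>
    show ev1 d (dg2 a) + x * ev2 x d (dg3 l) = ev2 d d a + x * ev3 x d d l
    rw [ev1_dg2, ih]

end Pool.Agent.RGA
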