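import Pool.Agent.RGA.DelFinA

/-!
Explicit expansions for the increment of the error.
-/

set_option autoImplicit false

namespace Pool.Agent.RGA

open Finset

/-! ### The polynomials -/

/-- expansion of `-rho` -/
def pRho : P3 := [[], [[0, 0, -1]], [[0, 0, 0, 0, 1], [0, 0, 1, -2], [0, 0, 1]], [[0, 0, 0, 0,
  -1, 0, -1], [0, 0, 0, 2, -2, 4], [0, 0, -2, 4, -5], [0, 0, -2, 2]], [[0, 0, 0, 0, 6, -4, 2,
  0, 1], [0, 0, 0, -12, 7, -4, 3, -6], [0, 0, 6, -2, 4, -12, 13], [0, 0, 0, -4, 15, -12], [0,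
  0, 2, -6, 4]], [[0, 0, 0, 0, -55, 52, -26, 8, -3, 0, -1], [0, 0, 0, 110, -58, 26, -14, 10,
  -4, 8], [0, 0, -55, -40, 27, 0, -16, 24, -25], [0, 0, 46, -28, 4, 26, -52, 38], [0, 0, 0, 8,
  -30, 48, -28], [0, 0, -6, 14, -16, 8], [0, 0, -1]]]

/-- expansion of `60 log (1 - rho)` -/
def pL1 : P3 := [[], [[0, 0, -60]], [[0, 0, 0, 0, 30], [0, 0, 60, -120], [0, 0, 60]], [[0, 0,
  0, 0, -60, 0, -20], [0, 0, 0, 120, -60, 120], [0, 0, -120, 240, -240], [0, 0, -120, 120]],
  [[0, 0, 0, 0, 360, -240, 60, 0, 15], [0, 0, 0, -720, 420, -120, 60, -120], [0, 0, 360, -120,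
  90, -360, 360], [0, 0, 0, -240, 720, -480], [0, 0, 120, -360, 210]], [[0, 0, 0, 0, -3300,
  3120, -1200, 240, -60, 0, -12], [0, 0, 0, 6600, -3480, 840, -360, 240, -60, 120], [0, 0,
  -3300, -2400, 1980, -240, -360, 480, -480], [0, 0, 2760, -1680, 360, 720, -1440, 960], [0, 0,
  0, 480, -1440, 1920, -960], [0, 0, -360, 840, -840, 360], [0, 0, -60]]]

/-- expansion of `q - 1` -/
def pQ : P3 := [[], [[0, 0, -1], [-1, 2], [-1]], [[0, 0, 1, 0, 1], [0, -2, 2, -4], [2, -4, 5],
  [2, -2]], [[0, 0, -6, 4, -2, 0, -1], [0, 12, -7, 4, -3, 6], [-6, 2, -4, 12, -13], [0, 4, -15,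
  12], [-2, 6, -4]], [[0, 0, 55, -52, 26, -8, 3, 0, 1], [0, -110, 58, -26, 14, -10, 4, -8],
  [55, 40, -27, 0, 16, -24, 25], [-46, 28, -4, -26, 52, -38], [0, -8, 30, -48, 28], [6, -14,
  16, -8], [1]], [[0, 0, -654, 720, -406, 152, -47, 12, -4, 0, -1], [0, 1308, -457, 12, -20,
  60, -39, 20, -5, 10], [-654, -1246, 859, -294, 28, 42, -45, 40, -41], [983, -130, 15, -16,
  -32, 84, -125, 88], [-335, 172, -61, 58, -134, 190, -104], [-26, 40, -62, 120, -140, 64],
  [-4, 18, -40, 40, -16], [3, -2], [1]]]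

/-- expansion of `60 log q` -/
def pL2 : P3 := [[], [[0, 0, -60], [-60, 120], [-60]], [[0, 0, 60, 0, 30], [0, -120, 60, -120],
  [90, -120, 120], [60], [-30]], [[0, 0, -360, 240, -60, 0, -20], [0, 720, -360, 0, -60, 120],
  [-360, 0, 240, 240, -240], [100, -240, -240, 160], [60], [60], [-20]], [[0, 0, 3300, -3120,
  1170, -240, 60, 0, 15], [0, -6600, 3120, 240, -180, -120, 60, -120], [3300, 3120, -4380,
  1440, 90, -360, 360], [-3120, 3360, -1080, -480, 720, -480], [-375, -240, 960, -480, 240],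
  [300, -600], [90], [60], [-15]], [[0, 0, -39240, 43200, -20700, 5760, -1200, 240, -60, 0,
  -12], [0, 78480, -24120, -17040, 10920, -1680, -360, 240, -60, 120], [-39240, -81360, 76980,
  -27840, 4980, 0, -360, 480, -480], [62280, -20040, -4560, 4800, -1440, 720, -1440, 960],
  [-19200, 20160, -12240, 3840, -1440, 1920, -960], [-4452, 5760, -2520, 720, -960, 384],
  [-420, -240, 900], [480, -840], [120], [60], [-12]]]

/-- expansion of `- k / n` -/
def pK : P3 := [[], [[], [0, -1]]]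

/-- expansion of `60 log (1 - k / n)` -/
def pL3 : P3 := [[], [[], [0, -60]], [[], [], [0, 0, -30]], [[], [], [], [0, 0, 0, -20]], [[],
  [], [], [], [0, 0, 0, 0, -15]], [[], [], [], [], [], [0, 0, 0, 0, 0, -12]]]

/-- expansion of `60 (log (1 - rho) - log q - 2 log (1 - k / n))` -/
def pF : P3 := [[], [[], [60], [60]], [[0, 0, -60], [0, 120], [-90, 120], [-60], [30]], [[0, 0,
  360, -240], [0, -720, 360, 120], [360, 0, -360], [-100, 240, 120], [-60], [-60], [20]], [[0,
  0, -3300, 3120, -810], [0, 6600, -3120, -960, 600], [-3300, -3120, 4740, -1560], [3120,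
  -3360, 1080, 240], [375, 240, -840, 120], [-300, 600], [-90], [-60], [15]], [[0, 0, 39240,
  -43200, 17400, -2640], [0, -78480, 24120, 23640, -14400, 2520], [39240, 81360, -80280, 25440,
  -3000, -240], [-62280, 20040, 7320, -6480, 1800], [19200, -20160, 12240, -3360], [4452,
  -5760, 2160, 120, 120], [420, 240, -960], [-480, 840], [-120], [-60], [12]]]

/-- the sum over `k` of `pF` -/
def pR : P3 := [[], [[], [0, 60], [0, 60]], [[0, -10, -30, -20], [0, 60, 60], [0, -30, 60], [0,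
  -60], [0, 30]], [[0, 60, 120, 0, -60], [0, -300, -150, 180, 30], [0, 300, -180, -120], [0,
  40, 180, 40], [0, -60], [0, -60], [0, 20]], [[0, -523, -870, 190, 375, -162], [0, 2760, 1500,
  -1320, 60, 120], [0, -4070, 420, 800, -390], [0, 1620, -1080, 480, 60], [0, 355, -270, -220,
  30], [0, 0, 300], [0, -90], [0, -60], [0, 15]], [[0, 5960, 9040, -2720, -3200, 2160, -440],
  [0, -34740, -21480, 15060, -240, -1620, 420], [0, 66640, 6920, -15040, 4760, -720, -40], [0,
  -51100, 12060, -200, -720, 360], [0, 11160, -4800, 2400, -840], [0, 1928, -1770, 820, 90,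
  24], [0, 380, -360, -320], [0, -60, 420], [0, -120], [0, -60], [0, 12]]]

/-- expansion of `n / (n + 2)` -/
def pw : P3 := [[[1]], [[], [-2]], [[], [], [4]], [[], [], [], [-8]], [[], [], [], [], [16]],
  [[], [], [], [], [], [-32]]]

/-- expansion of `theta n` -/
def pth : P3 := [[[1]], [[], [-1], [1]], [[], [], [], [], [1]], [[], [], [], [], [], [1], [1]],
  [[], [], [], [], [], [], [1], [2], [1]], [[], [], [], [], [], [], [], [1], [3], [3], [1]]]

/-- expansion of `theta (n + 2)` -/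
def pth2 : P3 := [[[1]], [[], [-1], [1]], [[], [], [2], [-2], [1]], [[], [], [], [-4], [4],
  [-3], [1]], [[], [], [], [], [8], [-8], [7], [-4], [1]], [[], [], [], [], [], [-16], [16],
  [-15], [11], [-5], [1]]]

/-- expansion of `720 S7 n` -/
def pS : P3 := [[[180]], [[60], [-180]], [[-180], [600], [-630]], [[1046], [-4140], [5880],
  [-3210], [60]], [[], [-3138], [-75360], [63840], [-22620], [720], [60]], [[], [], [3138],
  [163860], [764160], [-199284], [6900], [780], [60]]]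

/-- expansion of `720 S7 (n + 2)` -/
def pS2 : P3 := [[[180]], [[60], [-180]], [[-180], [480], [-270]], [[1046], [-3420], [3720],
  [-1410], [60]], [[], [-9414], [-52680], [35280], [-9480], [360], [60]], [[], [], [53346],
  [673140], [376320], [-78084], [2580], [300], [60]]]

/-- expansion of `840 R` without the part `S7` -/
def pT : P3 := [[], [[], [], [1680], [840]], [[], [], [], [-700], [420], [420]], [[], [], [],
  [], [560], [-420], [], [280]], [[], [], [], [], [], [-798], [420], [-140], [-210], [210]],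
  [[], [], [], [], [], [], [672], [-1260], [], [140], [-336], [168]]]


/-! ### Elementary expansions -/

lemma exX : Ex 6 vx (fun n d _ => xx n d) := Ex.ofPoly _ fun _ _ _ => by rw [ev3_vx]
lemma exD : Ex 6 vd (fun _ d _ => (d : ℝ)) := Ex.ofPoly _ fun _ _ _ => by rw [ev3_vd]
lemma exK : Ex 6 vk (fun _ _ k => (k : ℝ)) := Ex.ofPoly _ fun _ _ _ => by rw [ev3_vk]
lemma exC (c : ℤ) : Ex 6 (cst c) (fun _ _ _ => (c : ℝ)) := Ex.ofPoly _ fun _ _ _ => by
  rw [ev3_cst]

lemma Dom.dx {A n d k : ℕ} (h : Dom A n d k) : (d : ℝ) * xx n d = 1 / n := by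
  have h1 := h.dR
  have h2 := h.nR
  unfold xx
  field_simp

lemma rho_eq {A n d k : ℕ} (h : Dom A n d k) :
    rho n d k = (k : ℝ) * k * (xx n d * qq [(0, 1)] n d k) := by
  have h1 := h.kR
  have h2 := h.x_pos
  have h3 : toF [(0, 1)] = {s(0, 1)} := by simp [toF]
  have h4 : Wt (Dm n d k) {s(0, 1)} = (k : ℝ) * k := by
    have h5 : tch {s(0, 1)} = {0, 1} := by
      simp [tch, Sym2.toFinset_mk_eq]
    rw [Wt, h5, Finset.prod_pair (by norm_num)]
    simp [Dm]
  rw [rho, qq, h3, h4, List.length_singleton, pow_one]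
  field_simp

lemma ex_rho (h6 : Stmt_Q6) : Ex 6 pRho (fun n d k => -rho n d k) := by
  have h1 := ((exK.mul exK).mul (exX.mul h6)).smul (-1)
  have h2 := h1.change (q := pRho) le_rfl (by decide +kernel)
  refine h2.congr ⟨0, fun n d k hD => ?_⟩
  rw [rho_eq hD]
  push_cast
  ring

lemma ex_L1 (h6 : Stmt_Q6) : Ex 6 pL1 (fun n d k => 60 * Real.log (1 - rho n d k)) :=
  (((ex_rho h6).log (by decide +kernel)).change (q := pL1) le_rfl (by decide +kernel)).congr_all
    fun n d k => by rw [sub_eq_add_neg]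

lemma ex_L2 (h6 : Stmt_Q6) : Ex 6 pL2 (fun n d k => 60 * Real.log (qq [(0, 1)] n d k)) := by
  have h1 : Ex 6 p01 (qq [(0, 1)]) := h6
  have h2 := (h1.add (exC (-1))).change (q := pQ) le_rfl (by decide +kernel)
  refine ((h2.log (by decide +kernel)).change (q := pL2) le_rfl (by decide +kernel)).congr_all
    fun n d k => ?_
  congr 2
  push_cast
  ring

lemma ex_L3 : Ex 6 pL3 (fun n d k => 60 * Real.log (1 - (k : ℝ) / n)) := by
  have h1 := (((exD.mul exX).mul exK).smul (-1)).change (q := pK) le_rfl (by decide +kernel)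
  refine ((h1.log (by decide +kernel)).change (q := pL3) le_rfl (by decide +kernel)).congr
    ⟨0, fun n d k hD => ?_⟩
  congr 2
  rw [hD.dx]
  push_cast
  ring

lemma ex_F (h6 : Stmt_Q6) : Ex 6 pF (fun n d k => 60 * Real.log (1 - rho n d k)
    - 60 * Real.log (qq [(0, 1)] n d k) - 2 * (60 * Real.log (1 - (k : ℝ) / n))) :=
  (((ex_L1 h6).sub (ex_L2 h6)).sub (ex_L3.smul 2)).change (q := pF) le_rfl (by decide +kernel)
    |>.congr_all fun n d k => by push_cast; ring

lemma ex_R (h6 : Stmt_Q6) : Ex 6 pR (fun n d k => ∑ j ∈ Finset.Icc 1 k,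
    (60 * Real.log (1 - rho n d j)
    - 60 * Real.log (qq [(0, 1)] n d j) - 2 * (60 * Real.log (1 - (j : ℝ) / n)))) :=
  (ex_F h6).sum pR (by decide +kernel) (by decide +kernel)

end Pool.Agent.RGA
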