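import Pool.Agent.RGA.DelFinB

/-!
Expansions of the terms of `log M (n + 2, d) - log M (n, d)`.
-/

set_option autoImplicit false

namespace Pool.Agent.RGA

open Finset

/-! ### `420 n ^ 2 (log (1 - c / n) + c / n)` -/

/-- powers -/
def pw3 (p : P3) : ℕ → P3
  | 0 => cst 1
  | m + 1 => mul3 p (pw3 p m)

lemma ev3_pw3 (x d k : ℝ) (p : P3) (m : ℕ) : ev3 x d k (pw3 p m) = ev3 x d k p ^ m := by
  induction m with
  | zero => simp [pw3]
  | succ m ih => rw [pw3, ev3_mul, ih, pow_succ']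

/-- the expansion for the polynomial `c` -/
def l420 (c : P3) : P3 :=
  neg3 (mul3 (pw3 c 2) (add3 (cst 210) (mul3 (mul3 c (mul3 vd vx)) (add3 (cst 140)
    (mul3 (mul3 c (mul3 vd vx)) (add3 (cst 105) (mul3 (mul3 c (mul3 vd vx)) (add3 (cst 84)
    (mul3 (mul3 c (mul3 vd vx)) (add3 (cst 70) (mul3 (mul3 c (mul3 vd vx)) (cst 60))))))))))))

lemma log_taylor7 {u : ℝ} (hu : |u| ≤ 1 / 2) :
    |Real.log (1 - u) + u + u ^ 2 / 2 + u ^ 3 / 3 + u ^ 4 / 4 + u ^ 5 / 5 + u ^ 6 / 6 + u ^ 7 / 7|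
      ≤ 2 * |u| ^ 8 := by
  have h1 : |u| < 1 := by linarith
  have h2 := Real.abs_log_sub_add_sum_range_le h1 7
  have h3 : |u| ^ (7 + 1) / (1 - |u|) ≤ 2 * |u| ^ 8 := by
    rw [div_le_iff₀ (by linarith)]
    have e1 := mul_nonneg (pow_nonneg (abs_nonneg u) 8) (show 0 ≤ 1 - 2 * |u| by linarith)
    show |u| ^ 8 ≤ 2 * |u| ^ 8 * (1 - |u|)
    linarith
  have h4 : (∑ i ∈ range 7, u ^ (i + 1) / ((i : ℝ) + 1))
      = u + u ^ 2 / 2 + u ^ 3 / 3 + u ^ 4 / 4 + u ^ 5 / 5 + u ^ 6 / 6 + u ^ 7 / 7 := by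
    simp only [Finset.sum_range_succ, Finset.sum_range_zero]
    norm_num
  rw [h4] at h2
  have h5 : Real.log (1 - u) + u + u ^ 2 / 2 + u ^ 3 / 3 + u ^ 4 / 4 + u ^ 5 / 5 + u ^ 6 / 6
      + u ^ 7 / 7 = (u + u ^ 2 / 2 + u ^ 3 / 3 + u ^ 4 / 4 + u ^ 5 / 5 + u ^ 6 / 6 + u ^ 7 / 7)
        + Real.log (1 - u) := by ring
  rw [h5]
  exact h2.trans h3

lemma ex_l420 (pc : P3) (c : ℕ → ℕ → ℕ → ℝ) (hc : ∀ n d k, c n d k = ev3 (xx n d) d k pc) :
    Ex 6 (l420 pc) (fun n d k => 420 * ((n : ℝ) ^ 2 * (Real.log (1 - c n d k / n)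
      + c n d k / n))) := by
  refine (Ex.poly 6 (l420 pc)).of_close ?_
  obtain ⟨B, hB⟩ := poly_bound pc
  refine ⟨840 * B ^ 8 + (8 * B + 6) + (2 * B + 2), fun n d k hD => ?_⟩
  have h1 := hB n d k (hD.mono (by omega))
  rw [← hc] at h1
  have hd := hD.dR
  have hn := hD.nR
  have hx := hD.x_pos
  have hdx := hD.dx
  have hn0 : (0 : ℝ) < n := by linarith
  -- `u = c / n`
  have hu : |c n d k / n| ≤ B * (d : ℝ) ^ B * (d * xx n d) := by
    rw [hdx, abs_div, abs_of_pos hn0, div_eq_mul_one_div]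
    exact mul_le_mul_of_nonneg_right h1 (by positivity)
  have hu2 : |c n d k / n| ≤ 1 / 2 := by
    have h2 := hD.small' (C := 2 * B + 2) (by omega)
    have e1 : (d : ℝ) ^ (B + 1) ≤ (d : ℝ) ^ (2 * B + 2) := pow_le_pow_right₀ hd (by omega)
    have e2 : (B : ℝ) * (d : ℝ) ^ (B + 1) * xx n d ≤ (B : ℝ) * (d : ℝ) ^ (2 * B + 2) * xx n d :=
      mul_le_mul_of_nonneg_right (mul_le_mul_of_nonneg_left e1 (Nat.cast_nonneg _)) hx.le
    have e3 : 0 ≤ (d : ℝ) ^ (2 * B + 2) * xx n d := by positivity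
    push_cast at h2
    have e4 : B * (d : ℝ) ^ B * (d * xx n d) = (B : ℝ) * (d : ℝ) ^ (B + 1) * xx n d := by ring
    rw [e4] at hu
    nlinarith
  have h3 := log_taylor7 hu2
  have h4 : 420 * ((n : ℝ) ^ 2 * (Real.log (1 - c n d k / n) + c n d k / n))
      - ev3 (xx n d) d k (l420 pc)
      = 420 * (n : ℝ) ^ 2 * (Real.log (1 - c n d k / n) + c n d k / n
        + (c n d k / n) ^ 2 / 2 + (c n d k / n) ^ 3 / 3 + (c n d k / n) ^ 4 / 4
        + (c n d k / n) ^ 5 / 5 + (c n d k / n) ^ 6 / 6 + (c n d k / n) ^ 7 / 7) := by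
    simp only [l420, ev3_neg, ev3_mul, ev3_add, ev3_cst, ev3_vd, ev3_vx, ev3_pw3, hdx]
    rw [← hc]
    push_cast
    field_simp
    ring
  rw [h4, abs_mul, abs_of_pos (by positivity)]
  have h5 : |c n d k / n| ^ 8 ≤ (B * (d : ℝ) ^ B * (d * xx n d)) ^ 6 * (|c n d k / n|) ^ 2 := by
    calc |c n d k / n| ^ 8 = |c n d k / n| ^ 6 * |c n d k / n| ^ 2 := by ring
      _ ≤ _ := mul_le_mul_of_nonneg_right (pow_le_pow_left₀ (abs_nonneg _) hu 6) (by positivity)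
  have h6 : (n : ℝ) ^ 2 * |c n d k / n| ^ 2 = |c n d k| ^ 2 := by
    rw [abs_div, abs_of_pos hn0]
    field_simp
  have h7 : |c n d k| ^ 2 ≤ (B * (d : ℝ) ^ B) ^ 2 := pow_le_pow_left₀ (abs_nonneg _) h1 2
  have hT := bound_mono hd (show 840 * B ^ 8 + (8 * B + 6)
    ≤ 840 * B ^ 8 + (8 * B + 6) + (2 * B + 2) by omega)
  have e5 : (d : ℝ) ^ (8 * B + 6) ≤ (d : ℝ) ^ (840 * B ^ 8 + (8 * B + 6)) :=
    pow_le_pow_right₀ hd (by omega)
  calc 420 * (n : ℝ) ^ 2 * |Real.log (1 - c n d k / n) + c n d k / n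
        + (c n d k / n) ^ 2 / 2 + (c n d k / n) ^ 3 / 3 + (c n d k / n) ^ 4 / 4
        + (c n d k / n) ^ 5 / 5 + (c n d k / n) ^ 6 / 6 + (c n d k / n) ^ 7 / 7|
      ≤ 420 * (n : ℝ) ^ 2 * (2 * |c n d k / n| ^ 8) :=
        mul_le_mul_of_nonneg_left h3 (by positivity)
    _ ≤ 420 * (n : ℝ) ^ 2 * (2 * ((B * (d : ℝ) ^ B * (d * xx n d)) ^ 6
          * (|c n d k / n|) ^ 2)) := by
        apply mul_le_mul_of_nonneg_left _ (by positivity)
        linarith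
    _ = 840 * (B * (d : ℝ) ^ B * (d * xx n d)) ^ 6 * ((n : ℝ) ^ 2 * |c n d k / n| ^ 2) := by ring
    _ ≤ 840 * (B * (d : ℝ) ^ B * (d * xx n d)) ^ 6 * (B * (d : ℝ) ^ B) ^ 2 := by
        rw [h6]
        exact mul_le_mul_of_nonneg_left h7 (by positivity)
    _ = (840 * (B : ℝ) ^ 8) * (d : ℝ) ^ (8 * B + 6) * xx n d ^ 6 := by ring
    _ ≤ ((840 * B ^ 8 + (8 * B + 6) : ℕ) : ℝ) * (d : ℝ) ^ (840 * B ^ 8 + (8 * B + 6))
          * xx n d ^ 6 := by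
        apply mul_le_mul_of_nonneg_right _ (pow_nonneg hx.le _)
        apply mul_le_mul _ e5 (by positivity) (by positivity)
        push_cast
        nlinarith [Nat.cast_nonneg (α := ℝ) B]
    _ ≤ _ := mul_le_mul_of_nonneg_right hT (pow_nonneg hx.le _)

/-! ### The functions `w = n / (n + 2)` and `theta` -/

/-- `1 / Λ = (n / d) theta` -/
noncomputable def theta (n d : ℕ) : ℝ := ((n : ℝ) - 1) ^ 2 / (n * ((n : ℝ) - 1 - d))

/-- `n / (n + 2)` -/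
noncomputable def ww (n : ℕ) : ℝ := (n : ℝ) / (n + 2)

lemma Dom.n_big {A n d k : ℕ} (h : Dom (A + 2) n d k) : d + 2 ≤ n := by
  obtain ⟨h1, h2, h3, h4⟩ := h
  have h5 : d ≤ d ^ (A + 2 + 1) := Nat.le_self_pow (by omega) _
  have h6 : (A + 2 + 1) * d ^ (A + 2 + 1) ≥ 3 * d ^ (A + 2 + 1) :=
    Nat.mul_le_mul_right _ (by omega)
  omega

lemma ex_w : Ex 6 pw (fun n _ _ => ww n) := by
  refine Ex.div (a := mul3 (cst (-2)) vd) (h := fun _ _ _ => ((1 : ℤ) : ℝ)) (exC 1)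
    ⟨0, fun n d k hD => ?_⟩ (by decide +kernel)
  have hn := hD.nR
  have hdx := hD.dx
  rw [ev3_mul, ev3_cst, ev3_vd]
  have e : xx n d * (((-2 : ℤ) : ℝ) * d) = -2 * (1 / n) := by
    rw [← hdx]; push_cast; ring
  rw [e, ww]
  push_cast
  field_simp
  ring

lemma ex_th : Ex 6 pth (fun n d _ => theta n d) := by
  have h1 : Ex 6 (mul3 (add3 (cst 1) (neg3 (mul3 vd vx))) (add3 (cst 1) (neg3 (mul3 vd vx))))
      (fun n d _ => (1 - (d : ℝ) * xx n d) * (1 - (d : ℝ) * xx n d)) :=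
    Ex.ofPoly _ fun n d k => by
      simp only [ev3_neg, ev3_mul, ev3_add, ev3_cst, ev3_vd, ev3_vx]
      push_cast
      ring
  refine Ex.div (a := mul3 vd (add3 vd (cst 1))) h1 ⟨2, fun n d k hD => ?_⟩ (by decide +kernel)
  have hn := hD.nR
  have hdx := hD.dx
  have hb := Dom.n_big (A := 0) hD
  have hb' : (d : ℝ) + 2 ≤ n := by exact_mod_cast hb
  have hb'' : (n : ℝ) - 1 - d ≠ 0 := by
    have : 0 < (n : ℝ) - 1 - d := by linarith
    exact this.ne'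
  rw [ev3_mul, ev3_add, ev3_cst, ev3_vd]
  have e : xx n d * ((d : ℝ) * (d + ((1 : ℤ) : ℝ))) = (1 / n) * (d + 1) := by
    rw [← hdx]; push_cast; ring
  rw [e, hdx, theta]
  field_simp
  ring

lemma ex_th2 : Ex 6 pth2 (fun n d _ => theta (n + 2) d) := by
  have h1 : Ex 6 (mul3 (add3 (cst 1) (mul3 vd vx)) (add3 (cst 1) (mul3 vd vx)))
      (fun n d _ => (1 + (d : ℝ) * xx n d) * (1 + (d : ℝ) * xx n d)) :=
    Ex.ofPoly _ fun n d k => by
      simp only [ev3_neg, ev3_mul, ev3_add, ev3_cst, ev3_vd, ev3_vx]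
      push_cast
      ring
  refine Ex.div (a := mul3 vd (add3 vd (cst (-1)))) (ex_w.mul h1) ⟨2, fun n d k hD => ?_⟩
    (by decide +kernel)
  have hn := hD.nR
  have hdx := hD.dx
  have hb := Dom.n_big (A := 0) hD
  have hb' : (d : ℝ) + 2 ≤ n := by exact_mod_cast hb
  have hb'' : (n : ℝ) + 2 - 1 - d ≠ 0 := by
    have : 0 < (n : ℝ) + 2 - 1 - d := by linarith
    exact this.ne'
  rw [ev3_mul, ev3_add, ev3_cst, ev3_vd]
  have e : xx n d * ((d : ℝ) * (d + ((-1 : ℤ) : ℝ))) = (1 / n) * (d - 1) := by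
    rw [← hdx]; push_cast; ring
  rw [e, hdx, theta, ww]
  push_cast
  field_simp
  ring

end Pool.Agent.RGA
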