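import Pool.Agent.RGA.DelFinC

/-!
The expansion of the exponent `S7`.
-/

set_option autoImplicit false

namespace Pool.Agent.RGA

open Finset

/-- `720 S7` as a polynomial in `θ`, `d` and `y = 1 / (n d)` -/
noncomputable def SPr (θ d y : ℝ) : ℝ :=
  180 + y * ((-180 * d + 60 * θ) + y * ((-690 * (d * d) + (660 * (d * θ) + -180 * (θ * θ)))
    + y * ((-3870 * (d * (d * d)) + (6900 * ((d * d) * θ) + (-4500 * (d * (θ * θ))
        + 1046 * (θ * (θ * θ)))))
    + y * ((-28980 * ((d * d) * (d * d)) + (79380 * ((d * (d * d)) * θ)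
        + -87318 * ((d * d) * (θ * θ))))
    + y * ((-265164 * ((d * d) * (d * (d * d))) + 1002900 * (((d * d) * (d * d)) * θ))
    + y * (-2791541 * ((d * (d * d)) * (d * (d * d)))))))))

/-- the polynomial version -/
def SPp (t y : P3) : P3 :=
  add3 (cst 180) (mulT 6 y (add3 (add3 (mul3 (cst (-180)) vd) (mul3 (cst 60) t))
    (mulT 6 y (add3 (add3 (mul3 (cst (-690)) (mul3 vd vd)) (add3 (mul3 (cst 660) (mul3 vd t))
      (mul3 (cst (-180)) (mulT 6 t t))))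
    (mulT 6 y (add3 (add3 (mul3 (cst (-3870)) (mul3 vd (mul3 vd vd)))
      (add3 (mul3 (cst 6900) (mul3 (mul3 vd vd) t)) (add3 (mul3 (cst (-4500))
        (mul3 vd (mulT 6 t t))) (mul3 (cst 1046) (mulT 6 t (mulT 6 t t))))))
    (mulT 6 y (add3 (add3 (mul3 (cst (-28980)) (mul3 (mul3 vd vd) (mul3 vd vd)))
      (add3 (mul3 (cst 79380) (mul3 (mul3 vd (mul3 vd vd)) t))
        (mul3 (cst (-87318)) (mul3 (mul3 vd vd) (mulT 6 t t)))))
    (mulT 6 y (add3 (add3 (mul3 (cst (-265164)) (mul3 (mul3 vd vd) (mul3 vd (mul3 vd vd))))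
      (mul3 (cst 1002900) (mul3 (mul3 (mul3 vd vd) (mul3 vd vd)) t)))
    (mulT 6 y (mul3 (cst (-2791541))
      (mul3 (mul3 vd (mul3 vd vd)) (mul3 vd (mul3 vd vd)))))))))))))))

lemma ex_SP {t y : P3} {θ g : ℕ → ℕ → ℕ → ℝ} (ht : Ex 6 t θ) (hy : Ex 6 y g) :
    Ex 6 (SPp t y) (fun n d k => SPr (θ n d k) d (g n d k)) := by
  have htt := ht.mulT ht
  have httt := ht.mulT htt
  have dd := exD.mul exD
  have ddd := exD.mul dd
  have c (m : ℤ) := exC m
  have h := (c 180).add (hy.mulT ((((c (-180)).mul exD).add ((c 60).mul ht)).add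
    (hy.mulT ((((c (-690)).mul dd).add (((c 660).mul (exD.mul ht)).add ((c (-180)).mul htt))).add
    (hy.mulT ((((c (-3870)).mul ddd).add (((c 6900).mul (dd.mul ht)).add
      (((c (-4500)).mul (exD.mul htt)).add ((c 1046).mul httt)))).add
    (hy.mulT ((((c (-28980)).mul (dd.mul dd)).add (((c 79380).mul (ddd.mul ht)).add
      ((c (-87318)).mul (dd.mul htt)))).add
    (hy.mulT ((((c (-265164)).mul (dd.mul ddd)).add ((c 1002900).mul ((dd.mul dd).mul ht))).add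
    (hy.mulT ((c (-2791541)).mul (ddd.mul ddd)))))))))))))
  refine h.congr_all fun n d k => ?_
  simp only [SPr]
  push_cast
  rfl

lemma term_eq (j : ℕ) (n d θ : ℝ) (hn : n ≠ 0) (hd : d ≠ 0) (hθ : θ ≠ 0) :
    720 * (pj j (d / (n * θ)) / ((d / (n * θ)) ^ j * n ^ (j - 1))) =
      match j with
      | 1 => 180
      | 2 => -180 * d * (1 / (n * d))
      | 3 => 60 * θ * (1 / (n * d)) - 690 * d ^ 2 * (1 / (n * d)) ^ 2
      | 4 => 660 * d * θ * (1 / (n * d)) ^ 2 - 3870 * d ^ 3 * (1 / (n * d)) ^ 3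
      | 5 => -180 * θ ^ 2 * (1 / (n * d)) ^ 2 + 6900 * d ^ 2 * θ * (1 / (n * d)) ^ 3
          - 28980 * d ^ 4 * (1 / (n * d)) ^ 4
      | 6 => -4500 * d * θ ^ 2 * (1 / (n * d)) ^ 3 + 79380 * d ^ 3 * θ * (1 / (n * d)) ^ 4
          - 265164 * d ^ 5 * (1 / (n * d)) ^ 5
      | 7 => 1046 * θ ^ 3 * (1 / (n * d)) ^ 3 - 87318 * d ^ 2 * θ ^ 2 * (1 / (n * d)) ^ 4
          + 1002900 * d ^ 4 * θ * (1 / (n * d)) ^ 5 - 2791541 * d ^ 6 * (1 / (n * d)) ^ 6
      | _ => 0 := by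
  match j with
  | 0 => simp [pj]
  | 1 => simp only [pj]; field_simp; ring
  | 2 => simp only [pj]; field_simp; ring
  | 3 => simp only [pj]; field_simp; ring
  | 4 => simp only [pj]; field_simp; ring
  | 5 => simp only [pj]; field_simp; ring
  | 6 => simp only [pj]; field_simp; ring
  | 7 => simp only [pj]; field_simp; ring
  | (m + 8) => simp [pj]

lemma S7_eq (n d : ℕ) (hd : 1 ≤ d) (hn : d + 2 ≤ n) :
    720 * S7 n d = SPr (theta n d) d (xx n d) := by
  have hn' : (d : ℝ) + 2 ≤ n := by exact_mod_cast hn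
  have hd' : (1 : ℝ) ≤ d := by exact_mod_cast hd
  have h1 : (n : ℝ) ≠ 0 := by linarith
  have h2 : (d : ℝ) ≠ 0 := by linarith
  have h3 : (n : ℝ) - 1 - d ≠ 0 := by linarith
  have h4 : (n : ℝ) - 1 ≠ 0 := by linarith
  have h5 : theta n d ≠ 0 := by
    rw [theta]
    exact div_ne_zero (pow_ne_zero _ h4) (mul_ne_zero h1 h3)
  have h6 : Lam n d = d / (n * theta n d) := by
    rw [Lam, lam, theta]
    field_simp
  have h7 : S7 n d = pj 1 (Lam n d) / (Lam n d ^ 1 * (n : ℝ) ^ (1 - 1))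
      + pj 2 (Lam n d) / (Lam n d ^ 2 * (n : ℝ) ^ (2 - 1))
      + pj 3 (Lam n d) / (Lam n d ^ 3 * (n : ℝ) ^ (3 - 1))
      + pj 4 (Lam n d) / (Lam n d ^ 4 * (n : ℝ) ^ (4 - 1))
      + pj 5 (Lam n d) / (Lam n d ^ 5 * (n : ℝ) ^ (5 - 1))
      + pj 6 (Lam n d) / (Lam n d ^ 6 * (n : ℝ) ^ (6 - 1))
      + pj 7 (Lam n d) / (Lam n d ^ 7 * (n : ℝ) ^ (7 - 1)) := by
    rw [S7]
    have : Finset.Icc 1 7 = {1, 2, 3, 4, 5, 6, 7} := by decide
    rw [this, Finset.sum_insert (by decide), Finset.sum_insert (by decide),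
      Finset.sum_insert (by decide), Finset.sum_insert (by decide), Finset.sum_insert (by decide),
      Finset.sum_insert (by decide), Finset.sum_singleton]
    ring
  have t1 := term_eq 1 n d (theta n d) h1 h2 h5
  have t2 := term_eq 2 n d (theta n d) h1 h2 h5
  have t3 := term_eq 3 n d (theta n d) h1 h2 h5
  have t4 := term_eq 4 n d (theta n d) h1 h2 h5
  have t5 := term_eq 5 n d (theta n d) h1 h2 h5
  have t6 := term_eq 6 n d (theta n d) h1 h2 h5
  have t7 := term_eq 7 n d (theta n d) h1 h2 h5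
  rw [h7, h6]
  simp only [mul_add] at *
  rw [t1, t2, t3, t4, t5, t6, t7]
  simp only [SPr, xx]
  ring

lemma ex_S7 : Ex 6 pS (fun n d _ => 720 * S7 n d) :=
  ((ex_SP ex_th exX).change (q := pS) le_rfl (by decide +kernel)).congr
    ⟨2, fun n d k hD => S7_eq n d hD.d_pos (Dom.n_big (A := 0) hD)⟩

lemma ex_S7' : Ex 6 pS2 (fun n d _ => 720 * S7 (n + 2) d) := by
  refine ((ex_SP ex_th2 (exX.mul ex_w)).change (q := pS2) le_rfl (by decide +kernel)).congr
    ⟨2, fun n d k hD => ?_⟩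
  have hb := Dom.n_big (A := 0) hD
  rw [S7_eq (n + 2) d hD.d_pos (by omega)]
  congr 1
  have hn := hD.nR
  have hd := hD.dR
  rw [xx, xx, ww]
  push_cast
  field_simp

end Pool.Agent.RGA
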