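import Pool.Agent.RGA.LogM

/-!
MP_3a123b_co: DELM, the exact formula for the increment of `log M`.
-/

set_option autoImplicit false

namespace Pool.Agent.RGA

open LogM in
theorem delM_proof : Stmt_DelM := by
  intro n d hd hn
  have hd' : (1 : ℝ) ≤ d := by exact_mod_cast hd
  have hn' : 2 * (d : ℝ) + 4 ≤ n := by exact_mod_cast hn
  have hn0 : (0 : ℝ) < n := by linarith
  rw [log_Mnd hd (by omega : d + 2 ≤ n + 2), log_Mnd hd (by omega : d + 2 ≤ n),
    sum_shift d (by omega), log_factorial d]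
  have hlog : ∀ a : ℝ, 0 < (n : ℝ) + a → Real.log (1 + a / n) = Real.log ((n : ℝ) + a) - Real.log n := by
    intro a ha
    rw [← Real.log_div ha.ne' hn0.ne']
    congr 1
    field_simp
  have hlog' : ∀ a : ℝ, 0 < (n : ℝ) - a → Real.log (1 - a / n) = Real.log ((n : ℝ) - a) - Real.log n := by
    intro a ha
    rw [← Real.log_div ha.ne' hn0.ne']
    congr 1
    field_simp
  have hs : ∑ k ∈ Finset.Icc 1 d, (2 * Real.log (1 - (k : ℝ) / n) - 2 * Real.log k)
      = 2 * ∑ k ∈ Finset.Icc 1 d, Real.log ((n : ℝ) - k)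
        - 2 * ∑ k ∈ Finset.Icc 1 d, Real.log (k : ℝ) - 2 * d * Real.log n := by
    have : ∀ k ∈ Finset.Icc 1 d, (2 * Real.log (1 - (k : ℝ) / n) - 2 * Real.log k)
        = 2 * Real.log ((n : ℝ) - k) - 2 * Real.log (k : ℝ) - 2 * Real.log n := by
      intro k hk
      rw [Finset.mem_Icc] at hk
      have hk' : (k : ℝ) ≤ d := by exact_mod_cast hk.2
      rw [hlog' k (by linarith)]
      ring
    rw [Finset.sum_congr rfl this, Finset.sum_sub_distrib, Finset.sum_sub_distrib,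
      ← Finset.mul_sum, ← Finset.mul_sum, Finset.sum_const, Nat.card_Icc]
    simp only [nsmul_eq_mul, Nat.add_sub_cancel]
    ring
  rw [hs, hlog 1 (by linarith), hlog' d (by linarith), hlog' ((d : ℝ) - 1) (by linarith),
    hlog' 1 (by linarith), hlog' ((d : ℝ) + 1) (by linarith),
    Real.log_mul hn0.ne' (by linarith)]
  have e1 : ((n + 2 : ℕ) : ℝ) = (n : ℝ) + 2 := by push_cast; ring
  rw [e1]
  have e2 : (n : ℝ) + 2 - 1 = (n : ℝ) + 1 := by ring
  have e3 : (n : ℝ) + 2 - 1 - d = (n : ℝ) + 1 - d := by ring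
  have e4 : (n : ℝ) - ((d : ℝ) - 1) = (n : ℝ) + 1 - d := by ring
  have e5 : (n : ℝ) - ((d : ℝ) + 1) = (n : ℝ) - 1 - d := by ring
  rw [e3, e2, e4, e5]
  ring

end Pool.Agent.RGA
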