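import Mathlib

/-!
Computable polynomials in `x, d, k` with integer coefficients (nested lists) and their evaluation.
-/

set_option autoImplicit false

namespace Pool.Agent.RGA

/-! ### Generic lists of coefficients -/

section Generic

variable {α : Type}

/-- addition of coefficient lists -/
def padd (add : α → α → α) : List α → List α → List α
  | [], m => m
  | a :: l, [] => a :: l
  | a :: l, b :: m => add a b :: padd add l m

/-- multiplication of coefficient lists -/
def pmul (add mul : α → α → α) (zero : α) : List α → List α → List α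
  | [], _ => []
  | a :: l, m => padd add (m.map (mul a)) (zero :: pmul add mul zero l m)

/-- evaluation of a coefficient list -/
noncomputable def pev (e : α → ℝ) (y : ℝ) : List α → ℝ
  | [] => 0
  | a :: l => e a + y * pev e y l

lemma pev_padd {add : α → α → α} {e : α → ℝ} (h : ∀ a b, e (add a b) = e a + e b) (y : ℝ)
    (l m : List α) : pev e y (padd add l m) = pev e y l + pev e y m := by
  induction l generalizing m with
  | nil => simp [padd, pev]
  | cons a l ih =>
    cases m with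
    | nil => simp [padd, pev]
    | cons b m => simp only [padd, pev, h, ih]; ring

lemma pev_map {f : α → α} {e : α → ℝ} {c : ℝ} (h : ∀ a, e (f a) = c * e a) (y : ℝ)
    (l : List α) : pev e y (l.map f) = c * pev e y l := by
  induction l with
  | nil => simp [pev]
  | cons a l ih => simp only [List.map_cons, pev, h, ih]; ring

lemma pev_pmul {add mul : α → α → α} {zero : α} {e : α → ℝ}
    (ha : ∀ a b, e (add a b) = e a + e b) (hm : ∀ a b, e (mul a b) = e a * e b)
    (h0 : e zero = 0) (y : ℝ) (l m : List α) :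
    pev e y (pmul add mul zero l m) = pev e y l * pev e y m := by
  induction l with
  | nil => simp [pmul, pev]
  | cons a l ih =>
    simp only [pmul, pev_padd ha, pev, h0, ih, pev_map (hm a)]
    ring

end Generic

/-! ### Level 1: polynomials in `k` -/

/-- polynomials in `k` -/
abbrev P1 := List Int
/-- polynomials in `d, k` -/
abbrev P2 := List (List Int)
/-- polynomials in `x, d, k` -/
abbrev P3 := List (List (List Int))

def add1 : P1 → P1 → P1 := padd Int.add
def mul1 : P1 → P1 → P1 := pmul Int.add Int.mul 0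
noncomputable def ev1 (k : ℝ) : P1 → ℝ := pev (fun c : Int => (c : ℝ)) k

def add2 : P2 → P2 → P2 := padd add1
def mul2 : P2 → P2 → P2 := pmul add1 mul1 []
noncomputable def ev2 (d k : ℝ) : P2 → ℝ := pev (ev1 k) d

def add3 : P3 → P3 → P3 := padd add2
def mul3 : P3 → P3 → P3 := pmul add2 mul2 []
noncomputable def ev3 (x d k : ℝ) : P3 → ℝ := pev (ev2 d k) x

lemma ev1_add (k : ℝ) (a b : P1) : ev1 k (add1 a b) = ev1 k a + ev1 k b :=
  pev_padd (fun a b => by show ((a + b : Int) : ℝ) = _; push_cast; ring) _ _ _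

lemma ev1_mul (k : ℝ) (a b : P1) : ev1 k (mul1 a b) = ev1 k a * ev1 k b :=
  pev_pmul (fun a b => by show ((a + b : Int) : ℝ) = _; push_cast; ring)
    (fun a b => by show ((a * b : Int) : ℝ) = _; push_cast; ring) (by simp) _ _ _

lemma ev2_add (d k : ℝ) (a b : P2) : ev2 d k (add2 a b) = ev2 d k a + ev2 d k b :=
  pev_padd (ev1_add k) _ _ _

lemma ev2_mul (d k : ℝ) (a b : P2) : ev2 d k (mul2 a b) = ev2 d k a * ev2 d k b :=
  pev_pmul (ev1_add k) (ev1_mul k) (by simp [ev1, pev]) _ _ _

lemma ev3_add (x d k : ℝ) (a b : P3) : ev3 x d k (add3 a b) = ev3 x d k a + ev3 x d k b :=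
  pev_padd (ev2_add d k) _ _ _

lemma ev3_mul (x d k : ℝ) (a b : P3) : ev3 x d k (mul3 a b) = ev3 x d k a * ev3 x d k b :=
  pev_pmul (ev2_add d k) (ev2_mul d k) (by simp [ev2, pev]) _ _ _

/-- constants -/
def cst (c : Int) : P3 := [[[c]]]
/-- the variable `x` -/
def vx : P3 := [[], [[1]]]
/-- the variable `d` -/
def vd : P3 := [[[], [1]]]
/-- the variable `k` -/
def vk : P3 := [[[0, 1]]]

@[simp] lemma ev3_cst (x d k : ℝ) (c : Int) : ev3 x d k (cst c) = c := by
  simp [cst, ev3, ev2, ev1, pev]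
@[simp] lemma ev3_vx (x d k : ℝ) : ev3 x d k vx = x := by simp [vx, ev3, ev2, ev1, pev]
@[simp] lemma ev3_vd (x d k : ℝ) : ev3 x d k vd = d := by simp [vd, ev3, ev2, ev1, pev]
@[simp] lemma ev3_vk (x d k : ℝ) : ev3 x d k vk = k := by simp [vk, ev3, ev2, ev1, pev]
@[simp] lemma ev3_nil (x d k : ℝ) : ev3 x d k [] = 0 := by simp [ev3, pev]

/-- negation -/
def neg3 (p : P3) : P3 := mul3 (cst (-1)) p

lemma ev3_neg (x d k : ℝ) (p : P3) : ev3 x d k (neg3 p) = - ev3 x d k p := by
  simp [neg3, ev3_mul]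

/-- zero test -/
def z1 (p : P1) : Bool := p.all (fun c => c == 0)
def z2 (p : P2) : Bool := p.all z1
def z3 (p : P3) : Bool := p.all z2

lemma ev1_of_z1 (k : ℝ) (p : P1) (h : z1 p = true) : ev1 k p = 0 := by
  induction p with
  | nil => simp [ev1, pev]
  | cons a l ih =>
    simp only [z1, List.all_cons, Bool.and_eq_true, beq_iff_eq] at h
    have := ih (by simpa [z1] using h.2)
    simp only [ev1] at this
    simp [ev1, pev, h.1, this]

lemma ev2_of_z2 (d k : ℝ) (p : P2) (h : z2 p = true) : ev2 d k p = 0 := by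
  induction p with
  | nil => simp [ev2, pev]
  | cons a l ih =>
    simp only [z2, List.all_cons, Bool.and_eq_true] at h
    have := ih (by simpa [z2] using h.2)
    simp only [ev2] at this
    simp [ev2, pev, ev1_of_z1 k a h.1, this]

lemma ev3_of_z3 (x d k : ℝ) (p : P3) (h : z3 p = true) : ev3 x d k p = 0 := by
  induction p with
  | nil => simp [ev3, pev]
  | cons a l ih =>
    simp only [z3, List.all_cons, Bool.and_eq_true] at h
    have := ih (by simpa [z3] using h.2)
    simp only [ev3] at this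
    simp [ev3, pev, ev2_of_z2 d k a h.1, this]

/-- if the first `m` coefficients (in `x`) vanish, the polynomial is divisible by `x ^ m` -/
lemma ev3_of_take (x d k : ℝ) (m : ℕ) (p : P3) (h : z3 (p.take m) = true) :
    ev3 x d k p = x ^ m * ev3 x d k (p.drop m) := by
  induction m generalizing p with
  | zero => simp
  | succ m ih =>
    cases p with
    | nil => simp
    | cons a l =>
      simp only [List.take_succ_cons, z3, List.all_cons, Bool.and_eq_true] at h
      have := ih l (by simpa [z3] using h.2)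
      simp only [ev3] at this
      simp only [ev3, pev, ev2_of_z2 d k a h.1, List.drop_succ_cons, this]
      ring

lemma ev3_take_drop (x d k : ℝ) (m : ℕ) (p : P3) :
    ev3 x d k p = ev3 x d k (p.take m) + x ^ m * ev3 x d k (p.drop m) := by
  induction m generalizing p with
  | zero => simp
  | succ m ih =>
    cases p with
    | nil => simp
    | cons a l =>
      have := ih l
      simp only [ev3] at this
      simp only [ev3, pev, List.take_succ_cons, List.drop_succ_cons]
      rw [this]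
      ring

/-! ### Bounds -/

lemma ev1_bound (p : P1) : ∃ A : ℕ, ∀ d k : ℝ, 1 ≤ d → 0 ≤ k → k ≤ d → |ev1 k p| ≤ A * d ^ A := by
  induction p with
  | nil => exact ⟨0, fun d k _ _ _ => by simp [ev1, pev]⟩
  | cons a l ih =>
    obtain ⟨A, hA⟩ := ih
    refine ⟨a.natAbs + A + 1, fun d k hd hk hkd => ?_⟩
    have h1 := hA d k hd hk hkd
    have h0 : (0 : ℝ) ≤ d := by linarith
    simp only [ev1] at h1
    simp only [ev1, pev]
    have h2 : |(a : ℝ)| ≤ (a.natAbs : ℝ) := by
      rw [Nat.cast_natAbs, Int.cast_abs]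
    have hp1 : (1 : ℝ) ≤ d ^ (a.natAbs + A + 1) := one_le_pow₀ hd
    have hp2 : d * d ^ A ≤ d ^ (a.natAbs + A + 1) := by
      rw [← pow_succ']
      exact pow_le_pow_right₀ hd (by omega)
    have h3 : |k * pev (fun c : Int => (c : ℝ)) k l| ≤ d * (A * d ^ A) := by
      rw [abs_mul, abs_of_nonneg hk]
      exact mul_le_mul hkd h1 (abs_nonneg _) h0
    calc |(a : ℝ) + k * pev (fun c : Int => (c : ℝ)) k l|
        ≤ |(a : ℝ)| + |k * pev (fun c : Int => (c : ℝ)) k l| := abs_add_le _ _
      _ ≤ (a.natAbs : ℝ) * 1 + A * (d * d ^ A) := by nlinarith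
      _ ≤ (a.natAbs : ℝ) * d ^ (a.natAbs + A + 1) + A * d ^ (a.natAbs + A + 1) := by
          apply add_le_add
          · exact mul_le_mul_of_nonneg_left hp1 (Nat.cast_nonneg _)
          · exact mul_le_mul_of_nonneg_left hp2 (Nat.cast_nonneg _)
      _ ≤ ((a.natAbs + A + 1 : ℕ) : ℝ) * d ^ (a.natAbs + A + 1) := by
          push_cast
          nlinarith [pow_nonneg h0 (a.natAbs + A + 1)]

lemma bound_mono {d : ℝ} (hd : 1 ≤ d) {A B : ℕ} (h : A ≤ B) :
    (A : ℝ) * d ^ A ≤ (B : ℝ) * d ^ B := by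
  have h0 : (0 : ℝ) ≤ d := by linarith
  have h1 : d ^ A ≤ d ^ B := pow_le_pow_right₀ hd h
  have h2 : (A : ℝ) ≤ B := by exact_mod_cast h
  exact mul_le_mul h2 h1 (pow_nonneg h0 _) (Nat.cast_nonneg _)

lemma pev_bound_step {α : Type} (e : ℝ → ℝ → α → ℝ)
    (he : ∀ a : α, ∃ A : ℕ, ∀ d k : ℝ, 1 ≤ d → 0 ≤ k → k ≤ d → |e d k a| ≤ A * d ^ A)
    (l : List α) :
    ∃ A : ℕ, ∀ y d k : ℝ, 0 ≤ y → y ≤ d → 1 ≤ d → 0 ≤ k → k ≤ d →
      |pev (e d k) y l| ≤ A * d ^ A := by
  induction l with
  | nil => exact ⟨0, fun y d k _ _ _ _ _ => by simp [pev]⟩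
  | cons a l ih =>
    obtain ⟨A, hA⟩ := ih
    obtain ⟨B, hB⟩ := he a
    refine ⟨A + B + 1, fun y d k hy hyd hd hk hkd => ?_⟩
    have h0 : (0 : ℝ) ≤ d := by linarith
    have h1 := hA y d k hy hyd hd hk hkd
    have h2 := hB d k hd hk hkd
    simp only [pev]
    have hp1 : d ^ B ≤ d ^ (A + B + 1) := pow_le_pow_right₀ hd (by omega)
    have hp2 : d * d ^ A ≤ d ^ (A + B + 1) := by
      rw [← pow_succ']
      exact pow_le_pow_right₀ hd (by omega)
    have h3 : |y * pev (e d k) y l| ≤ d * (A * d ^ A) := by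
      rw [abs_mul, abs_of_nonneg hy]
      exact mul_le_mul hyd h1 (abs_nonneg _) h0
    calc |e d k a + y * pev (e d k) y l|
        ≤ |e d k a| + |y * pev (e d k) y l| := abs_add_le _ _
      _ ≤ B * d ^ B + A * (d * d ^ A) := by nlinarith
      _ ≤ B * d ^ (A + B + 1) + A * d ^ (A + B + 1) := by
          apply add_le_add
          · exact mul_le_mul_of_nonneg_left hp1 (Nat.cast_nonneg _)
          · exact mul_le_mul_of_nonneg_left hp2 (Nat.cast_nonneg _)
      _ ≤ ((A + B + 1 : ℕ) : ℝ) * d ^ (A + B + 1) := by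
          push_cast
          nlinarith [pow_nonneg h0 (A + B + 1)]

lemma ev2_bound (p : P2) : ∃ A : ℕ, ∀ d k : ℝ, 1 ≤ d → 0 ≤ k → k ≤ d →
    |ev2 d k p| ≤ A * d ^ A := by
  obtain ⟨A, hA⟩ := pev_bound_step (fun _ k a => ev1 k a) ev1_bound p
  exact ⟨A, fun d k hd hk hkd => hA d d k (by linarith) le_rfl hd hk hkd⟩

lemma ev3_bound (p : P3) : ∃ A : ℕ, ∀ x d k : ℝ, 0 ≤ x → x ≤ 1 → 1 ≤ d → 0 ≤ k → k ≤ d →
    |ev3 x d k p| ≤ A * d ^ A := by
  obtain ⟨A, hA⟩ := pev_bound_step (fun d k a => ev2 d k a) ev2_bound p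
  exact ⟨A, fun x d k hx hx1 hd hk hkd => hA x d k hx (by linarith) hd hk hkd⟩

end Pool.Agent.RGA
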