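import Pool.Agent.RGA.Defs
import Pool.Agent.RGA.Poly

/-!
Functions of `(n, d, k)` with an expansion in `x = 1 / (n d)`, uniformly for `A d ^ A ≤ n`.
-/

set_option autoImplicit false

namespace Pool.Agent.RGA

/-- the domain -/
def Dom (A n d k : ℕ) : Prop := 1 ≤ k ∧ k ≤ d ∧ (A + 1) * d ^ (A + 1) ≤ n ∧ Even (n * d)

lemma Dom.mono {A B n d k : ℕ} (h : Dom B n d k) (hAB : A ≤ B) : Dom A n d k := by
  obtain ⟨h1, h2, h3, h4⟩ := h
  refine ⟨h1, h2, le_trans ?_ h3, h4⟩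
  exact Nat.mul_le_mul (by omega) (Nat.pow_le_pow_right (by omega) (by omega))

lemma Dom.d_pos {A n d k : ℕ} (h : Dom A n d k) : 1 ≤ d := le_trans h.1 h.2.1

lemma Dom.n_pos {A n d k : ℕ} (h : Dom A n d k) : 1 ≤ n := by
  have h1 := h.d_pos
  have h2 : 1 ≤ d ^ (A + 1) := Nat.one_le_pow _ _ h1
  have h3 := h.2.2.1
  nlinarith

lemma Dom.dR {A n d k : ℕ} (h : Dom A n d k) : (1 : ℝ) ≤ d := by exact_mod_cast h.d_pos
lemma Dom.nR {A n d k : ℕ} (h : Dom A n d k) : (1 : ℝ) ≤ n := by exact_mod_cast h.n_pos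
lemma Dom.kR {A n d k : ℕ} (h : Dom A n d k) : (1 : ℝ) ≤ k := by exact_mod_cast h.1
lemma Dom.kd {A n d k : ℕ} (h : Dom A n d k) : (k : ℝ) ≤ d := by exact_mod_cast h.2.1

lemma Dom.x_pos {A n d k : ℕ} (h : Dom A n d k) : 0 < xx n d := by
  have h1 := h.dR
  have h2 := h.nR
  unfold xx
  have : (0 : ℝ) < (n : ℝ) * d := by nlinarith
  positivity

/-- the main smallness: `(A + 1) d ^ (A + 2) x ≤ 1` -/
lemma Dom.small {A n d k : ℕ} (h : Dom A n d k) : ((A : ℝ) + 1) * (d : ℝ) ^ (A + 2) * xx n d ≤ 1 := by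
  have h1 := h.dR
  have h2 := h.nR
  have h3 : ((A : ℝ) + 1) * (d : ℝ) ^ (A + 1) ≤ n := by exact_mod_cast h.2.2.1
  unfold xx
  have hpos : (0 : ℝ) < (n : ℝ) * d := by nlinarith
  rw [mul_one_div, div_le_one hpos, show (d : ℝ) ^ (A + 2) = (d : ℝ) ^ (A + 1) * d by ring,
    ← mul_assoc]
  exact mul_le_mul_of_nonneg_right h3 (by linarith)

lemma Dom.x_le {A n d k : ℕ} (h : Dom A n d k) : xx n d ≤ 1 := by
  have h1 := h.small
  have h2 := h.dR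
  have h3 := h.x_pos
  have h4 : (1 : ℝ) ≤ (d : ℝ) ^ (A + 2) := one_le_pow₀ h2
  have h5 : (0 : ℝ) ≤ (A : ℝ) := Nat.cast_nonneg _
  nlinarith [mul_nonneg h5 h3.le, mul_le_mul_of_nonneg_right h4 h3.le]

/-- if `C ≤ A` then `C d ^ C x ≤ 1` -/
lemma Dom.small' {A C n d k : ℕ} (h : Dom A n d k) (hC : C ≤ A) :
    (C : ℝ) * (d : ℝ) ^ C * xx n d ≤ 1 := by
  refine le_trans ?_ h.small
  apply mul_le_mul_of_nonneg_right _ h.x_pos.le
  have h2 := h.dR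
  have h3 : (d : ℝ) ^ C ≤ (d : ℝ) ^ (A + 2) := pow_le_pow_right₀ h2 (by omega)
  have h4 : (C : ℝ) ≤ (A : ℝ) + 1 := by exact_mod_cast (by omega : C ≤ A + 1)
  exact mul_le_mul h4 h3 (by positivity) (by positivity)

/-- expansion with error `O(d ^ A x ^ J)` -/
def Ex (J : ℕ) (p : P3) (f : ℕ → ℕ → ℕ → ℝ) : Prop :=
  ∃ A : ℕ, ∀ n d k : ℕ, Dom A n d k →
    |f n d k - ev3 (xx n d) d k p| ≤ A * (d : ℝ) ^ A * xx n d ^ J

lemma Ex.congr {J : ℕ} {p : P3} {f g : ℕ → ℕ → ℕ → ℝ} (h : Ex J p f)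
    (hfg : ∃ A : ℕ, ∀ n d k : ℕ, Dom A n d k → g n d k = f n d k) : Ex J p g := by
  obtain ⟨A, hA⟩ := h
  obtain ⟨B, hB⟩ := hfg
  refine ⟨A + B, fun n d k hD => ?_⟩
  rw [hB n d k (hD.mono (by omega))]
  refine le_trans (hA n d k (hD.mono (by omega))) ?_
  apply mul_le_mul_of_nonneg_right _ (pow_nonneg hD.x_pos.le _)
  exact bound_mono hD.dR (by omega)

lemma Ex.congr_all {J : ℕ} {p : P3} {f g : ℕ → ℕ → ℕ → ℝ} (h : Ex J p f)
    (hfg : ∀ n d k : ℕ, g n d k = f n d k) : Ex J p g :=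
  h.congr ⟨0, fun n d k _ => hfg n d k⟩

/-- polynomials are bounded on the domain -/
lemma poly_bound (p : P3) : ∃ A : ℕ, ∀ n d k : ℕ, Dom A n d k →
    |ev3 (xx n d) d k p| ≤ A * (d : ℝ) ^ A := by
  obtain ⟨A, hA⟩ := ev3_bound p
  exact ⟨A, fun n d k hD => hA _ _ _ hD.x_pos.le hD.x_le hD.dR (by linarith [hD.kR]) hD.kd⟩

/-- functions with an expansion are bounded -/
lemma Ex.bound {J : ℕ} {p : P3} {f : ℕ → ℕ → ℕ → ℝ} (h : Ex J p f) :
    ∃ A : ℕ, ∀ n d k : ℕ, Dom A n d k → |f n d k| ≤ A * (d : ℝ) ^ A := by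
  obtain ⟨A, hA⟩ := h
  obtain ⟨B, hB⟩ := poly_bound p
  refine ⟨A + B, fun n d k hD => ?_⟩
  have h1 := hA n d k (hD.mono (by omega))
  have h2 := hB n d k (hD.mono (by omega))
  have h3 : xx n d ^ J ≤ 1 := pow_le_one₀ hD.x_pos.le hD.x_le
  have hd := hD.dR
  have h4 : (A : ℝ) * (d : ℝ) ^ A * xx n d ^ J ≤ A * (d : ℝ) ^ A :=
    mul_le_of_le_one_right (by positivity) h3
  have h5 : (d : ℝ) ^ A ≤ (d : ℝ) ^ (A + B) := pow_le_pow_right₀ hd (by omega)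
  have h6 : (d : ℝ) ^ B ≤ (d : ℝ) ^ (A + B) := pow_le_pow_right₀ hd (by omega)
  have h7 : (A : ℝ) * (d : ℝ) ^ A ≤ A * (d : ℝ) ^ (A + B) :=
    mul_le_mul_of_nonneg_left h5 (Nat.cast_nonneg _)
  have h8 : (B : ℝ) * (d : ℝ) ^ B ≤ B * (d : ℝ) ^ (A + B) :=
    mul_le_mul_of_nonneg_left h6 (Nat.cast_nonneg _)
  calc |f n d k| = |(f n d k - ev3 (xx n d) d k p) + ev3 (xx n d) d k p| := by ring_nf
    _ ≤ |f n d k - ev3 (xx n d) d k p| + |ev3 (xx n d) d k p| := abs_add_le _ _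
    _ ≤ ((A + B : ℕ) : ℝ) * (d : ℝ) ^ (A + B) := by push_cast; linarith

/-- a polynomial expands into itself -/
lemma Ex.poly (J : ℕ) (p : P3) : Ex J p (fun n d k => ev3 (xx n d) d k p) :=
  ⟨0, fun n d k hD => by simp⟩

/-- product of two bounds -/
lemma bound_mul {d : ℝ} (hd : 1 ≤ d) (A B : ℕ) :
    ((A : ℝ) * d ^ A) * ((B : ℝ) * d ^ B) ≤ ((A * B + A + B : ℕ) : ℝ) * d ^ (A * B + A + B) := by
  have h0 : (0 : ℝ) ≤ d := by linarith
  have h1 : d ^ A * d ^ B ≤ d ^ (A * B + A + B) := by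
    rw [← pow_add]; exact pow_le_pow_right₀ hd (by omega)
  have h2 : (A : ℝ) * B ≤ ((A * B + A + B : ℕ) : ℝ) := by push_cast; nlinarith [Nat.cast_nonneg (α := ℝ) A, Nat.cast_nonneg (α := ℝ) B]
  calc ((A : ℝ) * d ^ A) * ((B : ℝ) * d ^ B) = (A * B) * (d ^ A * d ^ B) := by ring
    _ ≤ _ := mul_le_mul h2 h1 (by positivity) (Nat.cast_nonneg _)

lemma Ex.add {J : ℕ} {p q : P3} {f g : ℕ → ℕ → ℕ → ℝ} (hf : Ex J p f) (hg : Ex J q g) :
    Ex J (add3 p q) (fun n d k => f n d k + g n d k) := by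
  obtain ⟨A, hA⟩ := hf
  obtain ⟨B, hB⟩ := hg
  refine ⟨A + B, fun n d k hD => ?_⟩
  have h1 := hA n d k (hD.mono (by omega))
  have h2 := hB n d k (hD.mono (by omega))
  have hd := hD.dR
  rw [ev3_add]
  have h3 : (d : ℝ) ^ A ≤ (d : ℝ) ^ (A + B) := pow_le_pow_right₀ hd (by omega)
  have h4 : (d : ℝ) ^ B ≤ (d : ℝ) ^ (A + B) := pow_le_pow_right₀ hd (by omega)
  have hx : 0 ≤ xx n d ^ J := pow_nonneg hD.x_pos.le _
  calc |f n d k + g n d k - (ev3 (xx n d) d k p + ev3 (xx n d) d k q)|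
      = |(f n d k - ev3 (xx n d) d k p) + (g n d k - ev3 (xx n d) d k q)| := by ring_nf
    _ ≤ |f n d k - ev3 (xx n d) d k p| + |g n d k - ev3 (xx n d) d k q| := abs_add_le _ _
    _ ≤ A * (d : ℝ) ^ A * xx n d ^ J + B * (d : ℝ) ^ B * xx n d ^ J := add_le_add h1 h2
    _ = (A * (d : ℝ) ^ A + B * (d : ℝ) ^ B) * xx n d ^ J := by ring
    _ ≤ (((A + B : ℕ) : ℝ) * (d : ℝ) ^ (A + B)) * xx n d ^ J := by
        apply mul_le_mul_of_nonneg_right _ hx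
        push_cast
        nlinarith [Nat.cast_nonneg (α := ℝ) A, Nat.cast_nonneg (α := ℝ) B]

lemma Ex.mul {J : ℕ} {p q : P3} {f g : ℕ → ℕ → ℕ → ℝ} (hf : Ex J p f) (hg : Ex J q g) :
    Ex J (mul3 p q) (fun n d k => f n d k * g n d k) := by
  obtain ⟨A', hA'⟩ := hf.bound
  obtain ⟨B', hB'⟩ := poly_bound q
  obtain ⟨A, hA⟩ := hf
  obtain ⟨B, hB⟩ := hg
  set E1 := A' * B + A' + B with hE1
  set E2 := A * B' + A + B' with hE2
  refine ⟨A + B + A' + B' + E1 + E2, fun n d k hD => ?_⟩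
  have h1 := hA n d k (hD.mono (by omega))
  have h2 := hB n d k (hD.mono (by omega))
  have h3 := hA' n d k (hD.mono (by omega))
  have h4 := hB' n d k (hD.mono (by omega))
  have hd := hD.dR
  rw [ev3_mul]
  have hx : 0 ≤ xx n d ^ J := pow_nonneg hD.x_pos.le _
  have m1 := bound_mul hd A' B
  have m2 := bound_mul hd A B'
  rw [← hE1] at m1
  rw [← hE2] at m2
  set T := A + B + A' + B' + E1 + E2 with hT
  have m3 := bound_mono hd (show E1 + E2 ≤ T by omega)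
  have m4 : (d : ℝ) ^ E1 ≤ (d : ℝ) ^ (E1 + E2) := pow_le_pow_right₀ hd (by omega)
  have m5 : (d : ℝ) ^ E2 ≤ (d : ℝ) ^ (E1 + E2) := pow_le_pow_right₀ hd (by omega)
  have m6 : (E1 : ℝ) * (d : ℝ) ^ E1 + (E2 : ℝ) * (d : ℝ) ^ E2
      ≤ ((E1 + E2 : ℕ) : ℝ) * (d : ℝ) ^ (E1 + E2) := by
    push_cast
    nlinarith [Nat.cast_nonneg (α := ℝ) E1, Nat.cast_nonneg (α := ℝ) E2]
  calc |f n d k * g n d k - ev3 (xx n d) d k p * ev3 (xx n d) d k q|
      = |f n d k * (g n d k - ev3 (xx n d) d k q)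
          + (f n d k - ev3 (xx n d) d k p) * ev3 (xx n d) d k q| := by ring_nf
    _ ≤ |f n d k * (g n d k - ev3 (xx n d) d k q)|
          + |(f n d k - ev3 (xx n d) d k p) * ev3 (xx n d) d k q| := abs_add_le _ _
    _ = |f n d k| * |g n d k - ev3 (xx n d) d k q|
          + |f n d k - ev3 (xx n d) d k p| * |ev3 (xx n d) d k q| := by rw [abs_mul, abs_mul]
    _ ≤ (A' * (d : ℝ) ^ A') * (B * (d : ℝ) ^ B * xx n d ^ J)
          + (A * (d : ℝ) ^ A * xx n d ^ J) * (B' * (d : ℝ) ^ B') := by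
        apply add_le_add
        · exact mul_le_mul h3 h2 (abs_nonneg _) (by positivity)
        · exact mul_le_mul h1 h4 (abs_nonneg _) (by positivity)
    _ = ((A' * (d : ℝ) ^ A') * (B * (d : ℝ) ^ B) + (A * (d : ℝ) ^ A) * (B' * (d : ℝ) ^ B'))
          * xx n d ^ J := by ring
    _ ≤ ((T : ℝ) * (d : ℝ) ^ T) * xx n d ^ J := by
        apply mul_le_mul_of_nonneg_right _ hx
        linarith

lemma Ex.xmul {J : ℕ} {p : P3} {f : ℕ → ℕ → ℕ → ℝ} (hf : Ex J p f) :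
    Ex (J + 1) (mul3 vx p) (fun n d k => xx n d * f n d k) := by
  obtain ⟨A, hA⟩ := hf
  refine ⟨A, fun n d k hD => ?_⟩
  have h1 := hA n d k hD
  have hx := hD.x_pos
  rw [ev3_mul, ev3_vx, ← mul_sub, abs_mul, abs_of_pos hx]
  calc xx n d * |f n d k - ev3 (xx n d) d k p|
      ≤ xx n d * (A * (d : ℝ) ^ A * xx n d ^ J) := mul_le_mul_of_nonneg_left h1 hx.le
    _ = A * (d : ℝ) ^ A * xx n d ^ (J + 1) := by ring

/-- changing the polynomial beyond the precision, and lowering the precision -/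
lemma Ex.change {J J' : ℕ} {p q : P3} {f : ℕ → ℕ → ℕ → ℝ} (hf : Ex J p f) (hJ : J' ≤ J)
    (hz : z3 ((add3 p (neg3 q)).take J') = true) : Ex J' q f := by
  obtain ⟨A, hA⟩ := hf
  set r := (add3 p (neg3 q)).drop J' with hr
  obtain ⟨B, hB⟩ := poly_bound r
  refine ⟨A + B, fun n d k hD => ?_⟩
  have h1 := hA n d k (hD.mono (by omega))
  have h2 := hB n d k (hD.mono (by omega))
  have h3 := ev3_of_take (xx n d) d k J' _ hz
  rw [ev3_add, ev3_neg, ← hr] at h3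
  have hd := hD.dR
  have hx := hD.x_pos
  have hx0 : 0 ≤ xx n d ^ J' := pow_nonneg hx.le _
  have h5 : xx n d ^ J ≤ xx n d ^ J' := pow_le_pow_of_le_one hx.le hD.x_le hJ
  calc |f n d k - ev3 (xx n d) d k q|
      = |(f n d k - ev3 (xx n d) d k p) + (ev3 (xx n d) d k p + -ev3 (xx n d) d k q)| := by
        ring_nf
    _ ≤ |f n d k - ev3 (xx n d) d k p| + |ev3 (xx n d) d k p + -ev3 (xx n d) d k q| :=
        abs_add_le _ _
    _ ≤ A * (d : ℝ) ^ A * xx n d ^ J' + xx n d ^ J' * (B * (d : ℝ) ^ B) := by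
        apply add_le_add
        · exact le_trans h1 (mul_le_mul_of_nonneg_left h5 (by positivity))
        · rw [h3, abs_mul, abs_of_nonneg hx0]
          exact mul_le_mul_of_nonneg_left h2 hx0
    _ = (A * (d : ℝ) ^ A + B * (d : ℝ) ^ B) * xx n d ^ J' := by ring
    _ ≤ (((A + B : ℕ) : ℝ) * (d : ℝ) ^ (A + B)) * xx n d ^ J' := by
        apply mul_le_mul_of_nonneg_right _ hx0
        have h6 : (d : ℝ) ^ A ≤ (d : ℝ) ^ (A + B) := pow_le_pow_right₀ hd (by omega)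
        have h7 : (d : ℝ) ^ B ≤ (d : ℝ) ^ (A + B) := pow_le_pow_right₀ hd (by omega)
        push_cast
        nlinarith [Nat.cast_nonneg (α := ℝ) A, Nat.cast_nonneg (α := ℝ) B]

/-- division by `1 - x a` -/
lemma Ex.div {J : ℕ} {r a p : P3} {g h : ℕ → ℕ → ℕ → ℝ} (hr : Ex J r h)
    (hrel : ∃ A : ℕ, ∀ n d k : ℕ, Dom A n d k →
      (1 - xx n d * ev3 (xx n d) d k a) * g n d k = h n d k)
    (hz : z3 ((add3 r (neg3 (mul3 (add3 (cst 1) (neg3 (mul3 vx a))) p))).take J) = true) :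
    Ex J p g := by
  have h1 : Ex J (mul3 (add3 (cst 1) (neg3 (mul3 vx a))) p) h := hr.change le_rfl hz
  obtain ⟨A, hA⟩ := h1
  obtain ⟨B, hB⟩ := hrel
  obtain ⟨C, hC⟩ := poly_bound a
  refine ⟨2 * (A + B + C), fun n d k hD => ?_⟩
  have k1 := hA n d k (hD.mono (by omega))
  have k2 := hB n d k (hD.mono (by omega))
  have k3 := hC n d k (hD.mono (by omega))
  have hd := hD.dR
  have hx := hD.x_pos
  -- `|x a| ≤ 1 / 2`
  have k4 : |xx n d * ev3 (xx n d) d k a| ≤ 1 / 2 := by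
    rw [abs_mul, abs_of_pos hx]
    have s := hD.small' (C := 2 * (A + B + C)) le_rfl
    have s2 : (C : ℝ) * (d : ℝ) ^ C * 2 ≤ ((2 * (A + B + C) : ℕ) : ℝ) * (d : ℝ) ^ (2 * (A + B + C)) := by
      have e1 : (d : ℝ) ^ C ≤ (d : ℝ) ^ (2 * (A + B + C)) := pow_le_pow_right₀ hd (by omega)
      have e2 : (C : ℝ) * 2 ≤ ((2 * (A + B + C) : ℕ) : ℝ) := by
        push_cast
        nlinarith [Nat.cast_nonneg (α := ℝ) A, Nat.cast_nonneg (α := ℝ) B]
      calc (C : ℝ) * (d : ℝ) ^ C * 2 = (C * 2) * (d : ℝ) ^ C := by ring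
        _ ≤ _ := mul_le_mul e2 e1 (by positivity) (Nat.cast_nonneg _)
    have s3 : xx n d * |ev3 (xx n d) d k a| ≤ xx n d * (C * (d : ℝ) ^ C) :=
      mul_le_mul_of_nonneg_left k3 hx.le
    have s4 : (C : ℝ) * (d : ℝ) ^ C * 2 * xx n d ≤ 1 :=
      le_trans (mul_le_mul_of_nonneg_right s2 hx.le) s
    nlinarith
  have k5 : 1 / 2 ≤ 1 - xx n d * ev3 (xx n d) d k a := by
    have := (abs_le.mp k4).2
    linarith
  rw [← k2, ev3_mul, ev3_add, ev3_neg, ev3_mul, ev3_cst, ev3_vx] at k1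
  have k6 : (1 - xx n d * ev3 (xx n d) d k a) * g n d k
      - (((1 : ℤ) : ℝ) + -(xx n d * ev3 (xx n d) d k a)) * ev3 (xx n d) d k p
      = (1 - xx n d * ev3 (xx n d) d k a) * (g n d k - ev3 (xx n d) d k p) := by
    push_cast; ring
  rw [k6, abs_mul, abs_of_pos (by linarith : 0 < 1 - xx n d * ev3 (xx n d) d k a)] at k1
  have k7 : 1 / 2 * |g n d k - ev3 (xx n d) d k p| ≤ A * (d : ℝ) ^ A * xx n d ^ J :=
    le_trans (mul_le_mul_of_nonneg_right k5 (abs_nonneg _)) k1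
  have k8 : (A : ℝ) * (d : ℝ) ^ A * 2 ≤ ((2 * (A + B + C) : ℕ) : ℝ) * (d : ℝ) ^ (2 * (A + B + C)) := by
    have e1 : (d : ℝ) ^ A ≤ (d : ℝ) ^ (2 * (A + B + C)) := pow_le_pow_right₀ hd (by omega)
    have e2 : (A : ℝ) * 2 ≤ ((2 * (A + B + C) : ℕ) : ℝ) := by
      push_cast
      nlinarith [Nat.cast_nonneg (α := ℝ) C, Nat.cast_nonneg (α := ℝ) B]
    calc (A : ℝ) * (d : ℝ) ^ A * 2 = (A * 2) * (d : ℝ) ^ A := by ring
      _ ≤ _ := mul_le_mul e2 e1 (by positivity) (Nat.cast_nonneg _)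
  have hx0 : 0 ≤ xx n d ^ J := pow_nonneg hx.le _
  calc |g n d k - ev3 (xx n d) d k p| ≤ (A : ℝ) * (d : ℝ) ^ A * 2 * xx n d ^ J := by linarith
    _ ≤ _ := mul_le_mul_of_nonneg_right k8 hx0

/-- sum over a list of `(coefficient, expansion, function)` -/
def sumP : List (P3 × P3) → P3
  | [] => []
  | (c, p) :: l => add3 (mul3 c p) (sumP l)

end Pool.Agent.RGA
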