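import Pool.Agent.RGA.Bridge

/-!
Module EXI (helper46).
-/

set_option autoImplicit false

namespace Pool.Agent.RGA

open Finset

open Bridge in
theorem exi_proof (hBridge : Stmt_Bridge) : Stmt_Exi := by
  intro n d _ hn he
  rw [← hBridge n d]
  unfold RG
  rw [Nat.card_pos_iff]
  refine ⟨?_, inferInstance⟩
  obtain ⟨T, hT1, hT2⟩ := exists_T n d hn he
  obtain ⟨m, rfl⟩ : ∃ m, n = m + 1 := ⟨n - 1, by omega⟩
  refine ⟨⟨circ m T hT2, ?_⟩⟩
  intro v
  rw [circ_nbr, hT1]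

end Pool.Agent.RGA
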