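import Pool.Agent.RGA.Stmts

/-!
Conclusion (MP_3a123b_co).
-/

set_option autoImplicit false

namespace Pool.Agent.RGA

open Finset

theorem final_proof (hCore : Stmt_Core) (hBridge : Stmt_Bridge) (hCompl : Stmt_Compl) :
    Stmt_Final := by
  obtain ⟨A, hA⟩ := hCore
  have key : ∀ n d : ℕ, 1 ≤ d → A ^ (A + 1) ≤ n → 1 ≤ n →
      (d : ℝ) ≤ (n : ℝ) ^ (1 / ((A : ℝ) + 1)) → A * d ^ A ≤ n := by
    intro n d hd hn hn1 h
    have h1 : (d : ℝ) ^ (A + 1) ≤ n := by
      have h2 := pow_le_pow_left₀ (by positivity : (0 : ℝ) ≤ d) h (A + 1)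
      refine h2.trans (le_of_eq ?_)
      rw [← Real.rpow_natCast, ← Real.rpow_mul (by positivity)]
      have : 1 / ((A : ℝ) + 1) * ((A + 1 : ℕ) : ℝ) = 1 := by
        push_cast
        field_simp
      rw [this, Real.rpow_one]
    have h2 : d ^ (A + 1) ≤ n := by exact_mod_cast h1
    have h3 : (A * d ^ A) ^ (A + 1) ≤ n ^ (A + 1) := by
      calc (A * d ^ A) ^ (A + 1) = A ^ (A + 1) * (d ^ (A + 1)) ^ A := by
            rw [mul_pow, ← pow_mul, ← pow_mul, mul_comm A (A + 1)]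
        _ ≤ n * n ^ A := Nat.mul_le_mul hn (Nat.pow_le_pow_left h2 A)
        _ = n ^ (A + 1) := by rw [pow_succ, mul_comm]
    exact (Nat.pow_le_pow_iff_left (by omega)).1 h3
  refine ⟨1 / ((A : ℝ) + 1), by positivity, 8 * A, A ^ (A + 1) + 2, ?_⟩
  intro n d hn hd hdn hev hor
  have hn1 : A ^ (A + 1) ≤ n := by omega
  have hn2 : 2 ≤ n := by omega
  have hdn' : d + 2 ≤ n := by omega
  have hn0 : (0 : ℝ) < n := by
    have : 0 < n := by omega
    exact_mod_cast this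
  have hd0 : (0 : ℝ) < d := by
    have : 0 < d := by omega
    exact_mod_cast this
  have hdn0 : (d : ℝ) + 2 ≤ n := by exact_mod_cast hdn'
  have hev' : Even (n * d) := by rwa [mul_comm]
  rcases hor with h | h
  · have h1 := hA n d hd (key n d hd hn1 (by omega) h) hev'
    rw [Lnd, ← hBridge] at h1
    refine h1.trans ?_
    have h4 : (0 : ℝ) < (n : ℝ) - d := by linarith
    have h5 : ((n : ℝ) - d) ^ 3 ≤ (n : ℝ) ^ 3 := pow_le_pow_left₀ h4.le (by linarith) 3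
    have h6 : (d : ℝ) ^ 3 * ((n : ℝ) - d) ^ 3 * n ≤ (d : ℝ) ^ 3 * (n : ℝ) ^ 4 := by
      have : (d : ℝ) ^ 3 * (n : ℝ) ^ 4 = (d : ℝ) ^ 3 * (n : ℝ) ^ 3 * n := by ring
      rw [this]
      gcongr
    have h7 : (A : ℝ) ≤ 8 * A := by
      have : (0 : ℝ) ≤ A := by positivity
      linarith
    exact div_le_div₀ (by positivity) h7 (by positivity) h6
  · obtain ⟨e, he⟩ : ∃ e, n = d + 1 + e := ⟨n - (d + 1), by omega⟩
    have he1 : 1 ≤ e := by omega
    have hes : n - 1 - d = e := by omega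
    have her : (n : ℝ) - 1 - d = e := by
      rw [he]; push_cast; ring
    obtain ⟨hc1, hc2⟩ := hCompl n d hd hdn'
    rw [hes] at hc1 hc2
    rw [her] at h
    have hev2 : Even (n * e) := by
      have h1 : Even (n * (n - 1)) := Nat.even_mul_pred_self n
      have h2 : n * (n - 1) = n * d + n * e := by
        rw [← mul_add]
        congr 1
        omega
      rw [h2] at h1
      exact (Nat.even_add.1 h1).1 hev'
    have h1 := hA n e he1 (key n e he1 hn1 (by omega) h) hev2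
    rw [Lnd, ← hBridge, hc1, hc2] at h1
    refine h1.trans ?_
    have he0 : (1 : ℝ) ≤ e := by exact_mod_cast he1
    have h3 : (n : ℝ) - d = e + 1 := by linarith
    have h5 : ((n : ℝ) - d) ^ 3 ≤ (2 * (e : ℝ)) ^ 3 := by
      rw [h3]
      exact pow_le_pow_left₀ (by positivity) (by linarith) 3
    have h6 : (d : ℝ) ^ 3 ≤ (n : ℝ) ^ 3 := pow_le_pow_left₀ hd0.le (by linarith) 3
    rw [div_le_div_iff₀ (by positivity) (by rw [h3]; positivity)]
    have h7 : (d : ℝ) ^ 3 * ((n : ℝ) - d) ^ 3 * n ≤ (n : ℝ) ^ 3 * (2 * (e : ℝ)) ^ 3 * n := by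
      have : (0 : ℝ) ≤ ((n : ℝ) - d) ^ 3 := by rw [h3]; positivity
      gcongr
    calc (A : ℝ) * ((d : ℝ) ^ 3 * ((n : ℝ) - d) ^ 3 * n)
        ≤ (A : ℝ) * ((n : ℝ) ^ 3 * (2 * (e : ℝ)) ^ 3 * n) :=
          mul_le_mul_of_nonneg_left h7 (by positivity)
      _ = 8 * (A : ℝ) * ((e : ℝ) ^ 3 * (n : ℝ) ^ 4) := by ring

end Pool.Agent.RGA
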