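import Pool.Agent.RGA.Mem

set_option autoImplicit false

namespace Pool.Agent.RGA

open Finset

namespace Perm

theorem map_inj (σ : Equiv.Perm ℕ) : Function.Injective (Sym2.map σ) :=
  Sym2.map.injective σ.injective

theorem mem_map (σ : Equiv.Perm ℕ) (e : Sym2 ℕ) (v : ℕ) : σ v ∈ Sym2.map σ e ↔ v ∈ e := by
  rw [Sym2.mem_map]
  constructor
  · rintro ⟨w, hw, h⟩
    rw [← σ.injective h]
    exact hw
  · intro h
    exact ⟨v, h, rfl⟩

theorem diag_map (σ : Equiv.Perm ℕ) (e : Sym2 ℕ) : (Sym2.map σ e).IsDiag ↔ e.IsDiag := by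
  induction e using Sym2.inductionOn with
  | hf a b =>
    rw [Sym2.map_mk, Sym2.mk_isDiag_iff, Sym2.mk_isDiag_iff]
    exact ⟨fun h => σ.injective h, fun h => congrArg σ h⟩

theorem dg_image (σ : Equiv.Perm ℕ) (G : Finset (Sym2 ℕ)) (v : ℕ) :
    dg (G.image (Sym2.map σ)) (σ v) = dg G v := by
  unfold dg
  rw [Finset.filter_image, Finset.card_image_of_injective _ (map_inj σ)]
  congr 1
  ext e
  rw [Finset.mem_filter, Finset.mem_filter, mem_map]

theorem image_mem (D D' : ℕ →₀ ℕ) (σ : Equiv.Perm ℕ) (h : ∀ v, D' (σ v) = D v)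
    (G : Finset (Sym2 ℕ)) : G.image (Sym2.map σ) ∈ gr D' ↔ G ∈ gr D := by
  rw [mem_proof, mem_proof]
  constructor
  · rintro ⟨hl, hd⟩
    refine ⟨?_, ?_⟩
    · intro e he
      rw [← diag_map σ e]
      exact hl _ (Finset.mem_image_of_mem _ he)
    · intro v
      rw [← dg_image σ G v, hd (σ v), h v]
  · rintro ⟨hl, hd⟩
    refine ⟨?_, ?_⟩
    · intro e he
      rw [Finset.mem_image] at he
      obtain ⟨e', he', rfl⟩ := he
      rw [diag_map]
      exact hl e' he'
    · intro v
      obtain ⟨w, rfl⟩ := σ.surjective v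
      rw [dg_image, hd w, h w]

end Perm

open Pool.Agent.RGA.Perm in
theorem perm_proof : Stmt_Perm := by
  intro D D' σ F h
  unfold N
  symm
  apply Finset.card_bij (fun G _ => G.image (Sym2.map σ))
  · intro G hG
    rw [Finset.mem_filter] at hG
    rw [Finset.mem_filter]
    exact ⟨(image_mem D D' σ h G).mpr hG.1, Finset.image_subset_image hG.2⟩
  · intro G₁ _ G₂ _ h'
    exact Finset.image_injective (map_inj σ) h'
  · intro G' hG'
    rw [Finset.mem_filter] at hG'
    have hs : (G'.image (Sym2.map σ.symm)).image (Sym2.map σ) = G' := by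
      rw [Finset.image_image, ← Sym2.map_comp]
      have : (σ : ℕ → ℕ) ∘ (σ.symm : ℕ → ℕ) = id := by
        funext x; simp
      rw [this, Sym2.map_id, Finset.image_id]
    refine ⟨G'.image (Sym2.map σ.symm), ?_, hs⟩
    rw [Finset.mem_filter]
    refine ⟨?_, ?_⟩
    · rw [← image_mem D D' σ h, hs]
      exact hG'.1
    · rw [← Finset.image_subset_image_iff (map_inj σ), hs]
      exact hG'.2

end Pool.Agent.RGA
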