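import Pool.Agent.RGA.RelAux
import Pool.Agent.RGA.Perm

/-!
ISO: relabelling of two vertices of the same degree does not change `qq`.
-/

set_option autoImplicit false

namespace Pool.Agent.RGA

open Finset

namespace Iso

theorem swv_eq (a b v : ℕ) : swv a b v = Equiv.swap a b v := by
  unfold swv
  rw [Equiv.swap_apply_def]
  by_cases h1 : v = a
  · have : Nat.beq v a = true := by simpa using h1
    rw [if_pos this, if_pos h1]
  · have h1' : ¬ (Nat.beq v a = true) := by simpa using h1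
    rw [if_neg h1', if_neg h1]
    by_cases h2 : v = b
    · have : Nat.beq v b = true := by simpa using h2
      rw [if_pos this, if_pos h2]
    · have h2' : ¬ (Nat.beq v b = true) := by simpa using h2
      rw [if_neg h2', if_neg h2]

theorem toF_swE (a b : ℕ) (L : List (ℕ × ℕ)) :
    toF (swE a b L) = (toF L).image (Sym2.map (Equiv.swap a b)) := by
  ext e
  simp only [toF, swE, List.map_map, List.mem_toFinset, List.mem_map, Finset.mem_image,
    Function.comp]
  constructor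
  · rintro ⟨f, hf, rfl⟩
    refine ⟨s(f.1, f.2), ⟨f, hf, rfl⟩, ?_⟩
    rw [s_nrm, swv_eq, swv_eq]
    rfl
  · rintro ⟨_, ⟨f, hf, rfl⟩, rfl⟩
    refine ⟨f, hf, ?_⟩
    rw [s_nrm, swv_eq, swv_eq]
    rfl

theorem Dm_swap (a b n d k : ℕ)
    (h : (2 ≤ a ∧ a < n + 2 ∧ 2 ≤ b ∧ b < n + 2) ∨ (a < 2 ∧ b < 2)) (v : ℕ) :
    Dm n d k (Equiv.swap a b v) = Dm n d k v := by
  have hD : ∀ w, Dm n d k w = if w < 2 then k else if w < n + 2 then d else 0 := fun w => rfl
  rw [Equiv.swap_apply_def]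
  by_cases h1 : v = a
  · rw [if_pos h1, hD, hD]
    subst h1
    split_ifs <;> first | rfl | omega
  · rw [if_neg h1]
    by_cases h2 : v = b
    · rw [if_pos h2, hD, hD]
      subst h2
      split_ifs <;> first | rfl | omega
    · rw [if_neg h2]

theorem tch_image (σ : Equiv.Perm ℕ) (F : Finset (Sym2 ℕ)) :
    tch (F.image (Sym2.map σ)) = (tch F).image σ := by
  ext v
  rw [mem_tch, Finset.mem_image]
  constructor
  · rintro ⟨e, he, hv⟩
    obtain ⟨f, hf, rfl⟩ := Finset.mem_image.mp he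
    obtain ⟨w, hw, rfl⟩ := Sym2.mem_map.mp hv
    exact ⟨w, (mem_tch F w).mpr ⟨f, hf, hw⟩, rfl⟩
  · rintro ⟨w, hw, rfl⟩
    obtain ⟨f, hf, hw'⟩ := (mem_tch F w).mp hw
    exact ⟨_, Finset.mem_image_of_mem _ hf, Sym2.mem_map.mpr ⟨w, hw', rfl⟩⟩

theorem Wt_image (D : ℕ →₀ ℕ) (σ : Equiv.Perm ℕ) (F : Finset (Sym2 ℕ)) (h : ∀ v, D (σ v) = D v) :
    Wt D (F.image (Sym2.map σ)) = Wt D F := by
  unfold Wt
  rw [tch_image, Finset.prod_image (fun x _ y _ hxy => σ.injective hxy)]
  exact Finset.prod_congr rfl (fun v _ => by rw [h v])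

end Iso

theorem iso_proof (hPerm : Stmt_Perm) : Stmt_Iso := by
  intro L a b n d k h
  have hD := Iso.Dm_swap a b n d k h
  have hN := hPerm (Dm n d k) (Dm n d k) (Equiv.swap a b) (toF L) hD
  unfold qq P
  rw [Iso.toF_swE, Iso.Wt_image _ _ _ hD, hN]
  have hl : (swE a b L).length = L.length := by
    unfold swE
    rw [List.length_map]
  rw [hl]

end Pool.Agent.RGA
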