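import Pool.Agent.RGA.UB

/-!
# RGA: module L0
-/

set_option autoImplicit false

namespace Pool.Agent.RGA

open Finset

namespace L0

open UB

variable {D : ℕ →₀ ℕ}

lemma desc_succ (n k : ℕ) :
    ((n.descFactorial (k + 1) : ℕ) : ℝ) = ((n : ℝ) - k) * (n.descFactorial k : ℕ) := by
  rw [Nat.descFactorial_succ]
  rcases le_or_gt k n with h | h
  · push_cast [Nat.cast_sub h]; ring
  · rw [Nat.descFactorial_eq_zero_iff_lt.2 h]; simp

lemma FF_superset (D : ℕ →₀ ℕ) (F : Finset (Sym2 ℕ)) {W : Finset ℕ} (hW : tch F ⊆ W) :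
    FF D F = ∏ x ∈ W, ((D x).descFactorial (dg F x) : ℝ) := by
  unfold FF
  refine prod_subset hW fun x _ hx => ?_
  rw [dg_eq_zero hx]; simp

lemma FF_add (D : ℕ →₀ ℕ) {F' : Finset (Sym2 ℕ)} {u v : ℕ} (huv : u ≠ v) (hn : s(u, v) ∉ F') :
    FF D (F' ∪ {s(u, v)}) = ((D u : ℝ) - dg F' u) * ((D v : ℝ) - dg F' v) * FF D F' := by
  have hW : tch (F' ∪ {s(u, v)}) ⊆ insert v (insert u (tch F' \ {u, v})) := by
    rw [tch_add]
    intro x
    simp only [mem_union, mem_insert, mem_singleton, mem_sdiff]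
    tauto
  have hW' : tch F' ⊆ insert v (insert u (tch F' \ {u, v})) := by
    intro x
    simp only [mem_insert, mem_sdiff, mem_singleton]
    tauto
  rw [FF_superset D _ hW, FF_superset D F' hW']
  have hv : v ∉ insert u (tch F' \ {u, v}) := by
    simp only [mem_insert, mem_sdiff, mem_singleton, not_or]
    exact ⟨Ne.symm huv, fun h => h.2.2 trivial⟩
  have hu : u ∉ tch F' \ {u, v} := by
    simp
  rw [prod_insert hv, prod_insert hu, prod_insert hv, prod_insert hu, dg_add_eq F' hn]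
  have hdv : dg (F' ∪ {s(u, v)}) v = dg F' v + 1 := by
    rw [Sym2.eq_swap]
    exact dg_add_eq F' (by rw [Sym2.eq_swap]; exact hn)
  rw [hdv, desc_succ, desc_succ]
  have : ∏ x ∈ tch F' \ {u, v}, ((D x).descFactorial (dg (F' ∪ {s(u, v)}) x) : ℝ)
      = ∏ x ∈ tch F' \ {u, v}, ((D x).descFactorial (dg F' x) : ℝ) := by
    refine prod_congr rfl fun x hx => ?_
    simp only [mem_sdiff, mem_insert, mem_singleton, not_or] at hx
    rw [dg_add_ne F' hx.2.1 hx.2.2]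
  rw [this]
  ring

/-- weights of subsets -/
lemma prod_le_of_subset {W W' : Finset ℕ} (h : W ⊆ W') (h1 : ∀ x ∈ W', 1 ≤ D x) :
    ∏ x ∈ W, (D x : ℝ) ≤ ∏ x ∈ W', (D x : ℝ) := by
  rw [← prod_sdiff h]
  have h2 : (1 : ℝ) ≤ ∏ x ∈ W' \ W, (D x : ℝ) := by
    refine one_le_prod fun x hx => ?_
    exact_mod_cast h1 x (mem_sdiff.1 hx).1
  have h3 : (0 : ℝ) ≤ ∏ x ∈ W, (D x : ℝ) := prod_nonneg fun _ _ => by positivity
  nlinarith

lemma Wt_le {F H : Finset (Sym2 ℕ)} (h : tch H ⊆ tch F) (h1 : ∀ x ∈ tch F, 1 ≤ D x) :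
    Wt D H ≤ Wt D F := prod_le_of_subset h h1

lemma dg_le_card (F : Finset (Sym2 ℕ)) (x : ℕ) : dg F x ≤ F.card := card_filter_le _ _

/-- `|D_x - f_x| ≤ (Δ + e) [1 or D_x]` -/
lemma abs_le_if (F' : Finset (Sym2 ℕ)) {Δ : ℕ} (hΔ : 1 ≤ Δ) (hD : ∀ v, D v ≤ Δ) (x : ℕ) :
    |(D x : ℝ) - dg F' x| ≤ ((Δ : ℝ) + F'.card) * (if x ∈ tch F' then 1 else (D x : ℝ)) := by
  have h1 : (D x : ℝ) ≤ Δ := by exact_mod_cast hD x
  have h2 : (0 : ℝ) ≤ dg F' x := by positivity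
  have h3 : (0 : ℝ) ≤ D x := by positivity
  have h4 : (dg F' x : ℝ) ≤ F'.card := by exact_mod_cast dg_le_card F' x
  have h5 : (1 : ℝ) ≤ Δ := by exact_mod_cast hΔ
  have h6 : (0 : ℝ) ≤ F'.card := by positivity
  split_ifs with h
  · rw [abs_le]; constructor <;> linarith
  · rw [dg_eq_zero h, Nat.cast_zero, sub_zero, abs_of_nonneg h3]
    nlinarith

/-- `|D_v - f'_v| Wt(H) ≤ (Δ + e) Wt(F)` for `F' ⊆ H`, `tch H ⊆ tch F`, `v ∈ tch F` -/
lemma abs_mul_Wt_le {F' F H : Finset (Sym2 ℕ)} {Δ v : ℕ} (hΔ : 1 ≤ Δ) (hD : ∀ v, D v ≤ Δ)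
    (h1 : ∀ x ∈ tch F, 1 ≤ D x) (hv : v ∈ tch F) (hF'H : F' ⊆ H) (hHF : tch H ⊆ tch F) :
    |(D v : ℝ) - dg F' v| * Wt D H ≤ ((Δ : ℝ) + F'.card) * Wt D F := by
  have h5 : (1 : ℝ) ≤ Δ := by exact_mod_cast hΔ
  have h6 : (0 : ℝ) ≤ F'.card := by positivity
  have h7 := Wt_nonneg D H
  have h8 := Wt_nonneg D F
  have h9 := Wt_le hHF h1
  have h10 : (0 : ℝ) ≤ |(D v : ℝ) - dg F' v| := abs_nonneg _
  by_cases hvH : v ∈ tch H
  · have h2 : |(D v : ℝ) - dg F' v| ≤ (Δ : ℝ) + F'.card := by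
      have h1 : (D v : ℝ) ≤ Δ := by exact_mod_cast hD v
      have h2 : (0 : ℝ) ≤ dg F' v := by positivity
      have h3 : (0 : ℝ) ≤ D v := by positivity
      have h4 : (dg F' v : ℝ) ≤ F'.card := by exact_mod_cast dg_le_card F' v
      rw [abs_le]; constructor <;> linarith
    exact mul_le_mul h2 h9 h7 (by positivity)
  · have hvF' : v ∉ tch F' := by
      intro h
      obtain ⟨e, he, hve⟩ := mem_tch.1 h
      exact hvH (mem_tch.2 ⟨e, hF'H he, hve⟩)
    have h3 : (0 : ℝ) ≤ D v := by positivity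
    rw [dg_eq_zero hvF', Nat.cast_zero, sub_zero, abs_of_nonneg h3]
    have h11 : (D v : ℝ) * Wt D H ≤ Wt D F := by
      unfold Wt
      rw [← prod_insert (f := fun x => (D x : ℝ)) hvH]
      refine prod_le_of_subset ?_ h1
      intro x hx
      rw [mem_insert] at hx
      rcases hx with rfl | hx
      · exact hv
      · exact hHF hx
    nlinarith

/-- sums over `D.support ∩ tch F` -/
lemma sum_tch_le {F : Finset (Sym2 ℕ)} {f : ℕ → ℝ} {c : ℝ} (hc : 0 ≤ c) {S : Finset ℕ} (hS : S ⊆ tch F)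
    (hf : ∀ w ∈ S, f w ≤ c) : ∑ w ∈ S, f w ≤ 2 * F.card * c := by
  calc ∑ w ∈ S, f w ≤ ∑ _w ∈ S, c := sum_le_sum hf
    _ = S.card * c := by rw [sum_const, nsmul_eq_mul]
    _ ≤ 2 * F.card * c := by
        refine mul_le_mul_of_nonneg_right ?_ hc
        exact_mod_cast (card_le_card hS).trans (card_tch_le F)

/-- exact form of `R1` -/
lemma R1_eq (hDeg : Stmt_Deg) {F' : Finset (Sym2 ℕ)} {u v : ℕ} (hF' : Lpl F') (huv : u ≠ v) :
    ∑ y ∈ T D (F' ∪ {s(u, v)}), ∑ z ∈ (T D (F' ∪ {s(u, v)})).erase y,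
      (N D (F' ∪ {s(u, y)} ∪ {s(v, z)}) : ℝ)
    = ((D u : ℝ) - dg F' u) * ((D v : ℝ) - dg F' v) * N D F'
      - ((D v : ℝ) - dg F' v) * ∑ w ∈ D.support.filter (fun w => w ∈ tch (F' ∪ {s(u, v)}) ∧ w ≠ u ∧ s(u, w) ∉ F'),
          (N D (F' ∪ {s(u, w)}) : ℝ)
      - ∑ y ∈ T D (F' ∪ {s(u, v)}), (N D (F' ∪ {s(u, y)} ∪ {s(v, y)}) : ℝ)
      - ∑ w ∈ D.support.filter (fun w => w ∈ tch (F' ∪ {s(u, v)}) ∧ w ≠ v ∧ s(v, w) ∉ F'),
          ∑ y ∈ T D (F' ∪ {s(u, v)}), (N D (F' ∪ {s(v, w)} ∪ {s(u, y)}) : ℝ) := by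
  have hu : ∑ y ∈ T D (F' ∪ {s(u, v)}), (N D (F' ∪ {s(u, y)}) : ℝ)
      = ((D u : ℝ) - dg F' u) * N D F' -
        ∑ w ∈ D.support.filter (fun w => w ∈ tch (F' ∪ {s(u, v)}) ∧ w ≠ u ∧ s(u, w) ∉ F'),
          (N D (F' ∪ {s(u, w)}) : ℝ) := by
    rw [← hDeg D F' u hF', eq_sub_iff_add_eq]
    have hdec : D.support.filter (fun w => w ≠ u ∧ s(u, w) ∉ F') = T D (F' ∪ {s(u, v)}) ∪
        D.support.filter (fun w => w ∈ tch (F' ∪ {s(u, v)}) ∧ w ≠ u ∧ s(u, w) ∉ F') := by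
      ext w
      simp only [mem_filter, mem_union, mem_T]
      constructor
      · rintro ⟨hw, h1, h2⟩
        by_cases hwt : w ∈ tch (F' ∪ {s(u, v)})
        · exact Or.inr ⟨hw, hwt, h1, h2⟩
        · exact Or.inl ⟨hw, hwt⟩
      · rintro (⟨hw, hwt⟩ | ⟨hw, _, h1, h2⟩)
        · rw [tch_add] at hwt
          simp only [mem_union, mem_insert, mem_singleton, not_or] at hwt
          refine ⟨hw, hwt.2.1, ?_⟩
          rw [Sym2.eq_swap]; exact not_mem_of_tch hwt.1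
        · exact ⟨hw, h1, h2⟩
    have hdisj : Disjoint (T D (F' ∪ {s(u, v)}))
        (D.support.filter (fun w => w ∈ tch (F' ∪ {s(u, v)}) ∧ w ≠ u ∧ s(u, w) ∉ F')) := by
      rw [disjoint_left]
      intro w hw hw'
      rw [mem_T] at hw
      rw [mem_filter] at hw'
      exact hw.2 hw'.2.1
    rw [hdec, sum_union hdisj]
  have hin : ∀ y ∈ T D (F' ∪ {s(u, v)}), ∑ z ∈ (T D (F' ∪ {s(u, v)})).erase y,
        (N D (F' ∪ {s(u, y)} ∪ {s(v, z)}) : ℝ)
      = ((D v : ℝ) - dg F' v) * N D (F' ∪ {s(u, y)}) - N D (F' ∪ {s(u, y)} ∪ {s(v, y)})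
        - ∑ w ∈ D.support.filter (fun w => w ∈ tch (F' ∪ {s(u, v)}) ∧ w ≠ v ∧ s(v, w) ∉ F'),
          (N D (F' ∪ {s(v, w)} ∪ {s(u, y)}) : ℝ) := by
    intro y hy
    have hy0 := mem_T.1 hy
    rw [tch_add] at hy0
    simp only [mem_union, mem_insert, mem_singleton, not_or] at hy0
    obtain ⟨hys, hy1, hyu, hyv⟩ := hy0
    have h1 := hDeg D (F' ∪ {s(u, y)}) v (lpl_add hF' (Ne.symm hyu))
    rw [dg_add_ne F' (Ne.symm huv) (Ne.symm hyv)] at h1
    rw [← h1]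
    have hswap : ∑ w ∈ D.support.filter (fun w => w ∈ tch (F' ∪ {s(u, v)}) ∧ w ≠ v ∧ s(v, w) ∉ F'),
          (N D (F' ∪ {s(v, w)} ∪ {s(u, y)}) : ℝ)
        = ∑ w ∈ D.support.filter (fun w => w ∈ tch (F' ∪ {s(u, v)}) ∧ w ≠ v ∧ s(v, w) ∉ F'),
          (N D (F' ∪ {s(u, y)} ∪ {s(v, w)}) : ℝ) := by
      refine sum_congr rfl fun w _ => ?_
      rw [union_assoc, union_comm {s(v, w)}, ← union_assoc]
    rw [hswap, eq_sub_iff_add_eq, eq_sub_iff_add_eq]
    have hdec : D.support.filter (fun w => w ≠ v ∧ s(v, w) ∉ F' ∪ {s(u, y)}) =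
        insert y (((T D (F' ∪ {s(u, v)})).erase y) ∪
          D.support.filter (fun w => w ∈ tch (F' ∪ {s(u, v)}) ∧ w ≠ v ∧ s(v, w) ∉ F')) := by
      ext w
      simp only [mem_filter, mem_union, mem_T, mem_insert, mem_erase, mem_singleton, not_or]
      constructor
      · rintro ⟨hw, h1, h2, _⟩
        by_cases hwy : w = y
        · exact Or.inl hwy
        · right
          by_cases hwt : w ∈ tch (F' ∪ {s(u, v)})
          · exact Or.inr ⟨hw, hwt, h1, h2⟩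
          · exact Or.inl ⟨hwy, hw, hwt⟩
      · have hne : ∀ w, s(v, w) ≠ s(u, y) := by
          intro w h
          rw [Sym2.eq_iff] at h
          rcases h with ⟨h, _⟩ | ⟨h, _⟩
          · exact huv h.symm
          · exact hyv h.symm
        rintro (rfl | ⟨hwy, hw, hwt⟩ | ⟨hw, _, h1, h2⟩)
        · refine ⟨hys, hyv, ?_, hne _⟩
          rw [Sym2.eq_swap]; exact not_mem_of_tch hy1
        · rw [tch_add] at hwt
          simp only [mem_union, mem_insert, mem_singleton, not_or] at hwt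
          refine ⟨hw, hwt.2.2, ?_, hne _⟩
          rw [Sym2.eq_swap]; exact not_mem_of_tch hwt.1
        · exact ⟨hw, h1, h2, hne _⟩
    have hdisj : Disjoint ((T D (F' ∪ {s(u, v)})).erase y)
        (D.support.filter (fun w => w ∈ tch (F' ∪ {s(u, v)}) ∧ w ≠ v ∧ s(v, w) ∉ F')) := by
      rw [disjoint_left]
      intro w hw hw'
      rw [mem_erase, mem_T] at hw
      rw [mem_filter] at hw'
      exact hw.2.2 hw'.2.1
    have hynot : y ∉ ((T D (F' ∪ {s(u, v)})).erase y) ∪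
          D.support.filter (fun w => w ∈ tch (F' ∪ {s(u, v)}) ∧ w ≠ v ∧ s(v, w) ∉ F') := by
      rw [mem_union, not_or]
      refine ⟨by simp, ?_⟩
      intro h
      rw [mem_filter] at h
      exact (mem_T.1 hy).2 h.2.1
    rw [hdec, sum_insert hynot, sum_union hdisj]
    ring
  rw [sum_congr rfl hin, sum_sub_distrib, sum_sub_distrib, ← mul_sum, hu]
  rw [sum_comm (s := T D (F' ∪ {s(u, v)}))]
  ring

/-- the bound for one more edge, with all error terms -/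
lemma step (hMem : Stmt_Mem) (hDeg : Stmt_Deg) (hSw : Stmt_Sw) {F' : Finset (Sym2 ℕ)} {u v : ℕ}
    (hF' : Lpl F') (huv : u ≠ v) (hn : s(u, v) ∉ F') {Δ : ℕ} (hΔ : 1 ≤ Δ) (hD : ∀ v, D v ≤ Δ)
    (h1 : ∀ x ∈ tch (F' ∪ {s(u, v)}), 1 ≤ D x) {e : ℕ} (hc : F'.card = e) (hN : 0 < N D ∅)
    (hM : 0 < tot D) {K : ℕ}
    (hUB : ∀ H : Finset (Sym2 ℕ), Lpl H → (H.card = e + 1 ∨ H.card = e + 2 ∨ H.card = e + 3) →
      P D H ≤ (K : ℝ) * (Δ : ℝ) ^ K * Wt D H / (tot D : ℝ) ^ H.card) :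
    |(tot D : ℝ) * P D (F' ∪ {s(u, v)}) - ((D u : ℝ) - dg F' u) * ((D v : ℝ) - dg F' v) * P D F'|
      ≤ (4 * ((e : ℝ) + 1) * Δ + 3 * Δ ^ 2 + 2 + 2 * (e + 1) * (Δ + e) + 2 * (e + 1) * Δ) *
        ((K : ℝ) * (Δ : ℝ) ^ K * Wt D (F' ∪ {s(u, v)}) / (tot D : ℝ) ^ (e + 1)) := by
  set F := F' ∪ {s(u, v)} with hFdef
  have hF : Lpl F := lpl_add hF' huv
  have hcF : F.card = e + 1 := by
    rw [hFdef, card_union_of_disjoint (by simpa using hn), card_singleton, hc]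
  have hMr : (0 : ℝ) < tot D := by exact_mod_cast hM
  have hNr : (0 : ℝ) < N D ∅ := by exact_mod_cast hN
  set B : ℝ := (K : ℝ) * (Δ : ℝ) ^ K * Wt D F / (tot D : ℝ) ^ (e + 1) with hB
  have hWF := Wt_nonneg D F
  have hB0 : 0 ≤ B := by positivity
  have hΔr : (1 : ℝ) ≤ Δ := by exact_mod_cast hΔ
  have hNP : ∀ H, (N D H : ℝ) = P D H * N D ∅ := by
    intro H
    unfold P
    field_simp
  have hPle : ∀ H, Lpl H → H.card = e + 1 → tch H ⊆ tch F → (N D H : ℝ) ≤ B * N D ∅ := by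
    intro H hH hcH hHF
    rw [hNP H]
    refine mul_le_mul_of_nonneg_right ?_ hNr.le
    have h2 := hUB H hH (Or.inl hcH)
    rw [hcH] at h2
    refine h2.trans ?_
    rw [hB]
    have h3 := Wt_le (D := D) hHF h1
    gcongr
  -- the terms of the identity
  have hsum := sum_sw (D := D) hSw hF' huv hn
  simp only [sum_sub_distrib] at hsum
  rw [R1_eq hDeg hF' huv, ← hFdef] at hsum
  have hS1 := S1_bounds (D := D) hDeg hF hD
  rw [hcF] at hS1
  push_cast at hS1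
  have hut : u ∈ tch F := by rw [hFdef, tch_add]; simp
  have hvt : v ∈ tch F := by rw [hFdef, tch_add]; simp
  have hS2 := two_step (D := D) hDeg hF hD hut
  have hS3 := two_step (D := D) hDeg hF hD hvt
  rw [sum_symm] at hS3
  have hNF : (N D F : ℝ) ≤ B * N D ∅ := hPle F hF hcF Subset.rfl
  have hNF0 : (0 : ℝ) ≤ N D F := by positivity
  have hS20 : (0 : ℝ) ≤ ∑ y ∈ T D F, ∑ z ∈ (T D F).erase y, (N D (F ∪ {s(y, u)} ∪ {s(y, z)}) : ℝ) :=
    sum_nonneg fun _ _ => sum_nonneg fun _ _ => by positivity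
  have hS30 : (0 : ℝ) ≤ ∑ y ∈ T D F, ∑ z ∈ (T D F).erase y, (N D (F ∪ {s(z, v)} ∪ {s(z, y)}) : ℝ) :=
    sum_nonneg fun _ _ => sum_nonneg fun _ _ => by positivity
  -- `R2`
  have hR20 : (0 : ℝ) ≤ ∑ y ∈ T D F, ∑ z ∈ (T D F).erase y, (N D (F ∪ {s(u, y)} ∪ {s(v, z)}) : ℝ) :=
    sum_nonneg fun _ _ => sum_nonneg fun _ _ => by positivity
  have hR2 : ∑ y ∈ T D F, ∑ z ∈ (T D F).erase y, (N D (F ∪ {s(u, y)} ∪ {s(v, z)}) : ℝ)
      ≤ Δ * (Δ * N D F) := by
    calc ∑ y ∈ T D F, ∑ z ∈ (T D F).erase y, (N D (F ∪ {s(u, y)} ∪ {s(v, z)}) : ℝ)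
        ≤ ∑ y ∈ T D F, (Δ : ℝ) * N D (F ∪ {s(u, y)}) := by
          refine sum_le_sum fun y hy => ?_
          rw [mem_T] at hy
          have hyu : y ≠ u := fun h => hy.2 (h ▸ hut)
          have hyv : y ≠ v := fun h => hy.2 (h ▸ hvt)
          refine deg_le' hDeg (D := D) (lpl_add hF (Ne.symm hyu)) v (T := (T D F).erase y)
            ((erase_subset _ _).trans T_sub) ?_ (hD v)
          intro z hz
          rw [mem_erase, mem_T] at hz
          refine ⟨fun h => hz.2.2 (h ▸ hvt), ?_⟩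
          rw [mem_union, mem_singleton, not_or]
          refine ⟨by rw [Sym2.eq_swap]; exact not_mem_of_tch hz.2.2, fun h => ?_⟩
          rw [Sym2.eq_iff] at h
          rcases h with ⟨h, _⟩ | ⟨h, _⟩
          · exact huv h.symm
          · exact hyv h.symm
      _ = Δ * ∑ y ∈ T D F, (N D (F ∪ {s(u, y)}) : ℝ) := by rw [mul_sum]
      _ ≤ Δ * (Δ * N D F) := by
          refine mul_le_mul_of_nonneg_left ?_ (by positivity)
          refine deg_le' hDeg hF u T_sub ?_ (hD u)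
          intro y hy
          rw [mem_T] at hy
          refine ⟨fun h => hy.2 (h ▸ hut), ?_⟩
          rw [Sym2.eq_swap]; exact not_mem_of_tch hy.2
  -- sums of degrees over fresh vertices
  have hsumD : ∑ y ∈ T D F, (D y : ℝ) ≤ tot D := by
    rw [tot_eq]
    have : (0 : ℝ) ≤ ∑ w ∈ D.support.filter (fun w => w ∈ tch F), (D w : ℝ) :=
      sum_nonneg fun _ _ => by positivity
    linarith
  -- `R3`
  have hR30 : (0 : ℝ) ≤ ∑ y ∈ T D F, ∑ z ∈ (T D F).erase y,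
      (N D (F' ∪ {s(u, y)} ∪ {s(v, z)} ∪ {s(y, z)}) : ℝ) :=
    sum_nonneg fun _ _ => sum_nonneg fun _ _ => by positivity
  have hR3 : ∑ y ∈ T D F, ∑ z ∈ (T D F).erase y,
      (N D (F' ∪ {s(u, y)} ∪ {s(v, z)} ∪ {s(y, z)}) : ℝ) ≤ B * N D ∅ := by
    have hterm : ∀ y ∈ T D F, ∀ z ∈ (T D F).erase y,
        (N D (F' ∪ {s(u, y)} ∪ {s(v, z)} ∪ {s(y, z)}) : ℝ)
          ≤ (K : ℝ) * (Δ : ℝ) ^ K * Wt D F / (tot D : ℝ) ^ (e + 3) * N D ∅ * (D y * D z) := by
      intro y hy z hz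
      rw [mem_erase] at hz
      obtain ⟨hzy, hz⟩ := hz
      have hy0 := mem_T.1 hy
      have hz0 := mem_T.1 hz
      have hy1 := hy0.2
      have hz1 := hz0.2
      rw [hFdef, tch_add] at hy1 hz1
      simp only [mem_union, mem_insert, mem_singleton, not_or] at hy1 hz1
      obtain ⟨hya, hyu, hyv⟩ := hy1
      obtain ⟨hza, hzu, hzv⟩ := hz1
      have hl1 : Lpl (F' ∪ {s(u, y)}) := lpl_add hF' (Ne.symm hyu)
      have hl2 : Lpl (F' ∪ {s(u, y)} ∪ {s(v, z)}) := lpl_add hl1 (Ne.symm hzv)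
      have hl3 : Lpl (F' ∪ {s(u, y)} ∪ {s(v, z)} ∪ {s(y, z)}) := lpl_add hl2 (Ne.symm hzy)
      have hn1 : s(u, y) ∉ F' := by rw [Sym2.eq_swap]; exact not_mem_of_tch hya
      have hn2 : s(v, z) ∉ F' ∪ {s(u, y)} := by
        rw [mem_union, mem_singleton, not_or]
        refine ⟨by rw [Sym2.eq_swap]; exact not_mem_of_tch hza, fun h => ?_⟩
        rw [Sym2.eq_iff] at h
        rcases h with ⟨h, _⟩ | ⟨h, _⟩
        · exact huv h.symm
        · exact hyv h.symm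
      have hn3 : s(y, z) ∉ F' ∪ {s(u, y)} ∪ {s(v, z)} := by
        rw [mem_union, mem_union, mem_singleton, mem_singleton, not_or, not_or]
        refine ⟨⟨not_mem_of_tch hya, fun h => ?_⟩, fun h => ?_⟩
        · rw [Sym2.eq_iff] at h
          rcases h with ⟨h, _⟩ | ⟨_, h⟩
          · exact hyu h
          · exact hzu h
        · rw [Sym2.eq_iff] at h
          rcases h with ⟨h, _⟩ | ⟨h, _⟩
          · exact hyv h
          · exact hzy h.symm
      have hcard : (F' ∪ {s(u, y)} ∪ {s(v, z)} ∪ {s(y, z)}).card = e + 3 := by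
        rw [card_union_of_disjoint (by rw [disjoint_singleton_right]; exact hn3),
          card_union_of_disjoint (by rw [disjoint_singleton_right]; exact hn2),
          card_union_of_disjoint (by rw [disjoint_singleton_right]; exact hn1),
          card_singleton, card_singleton, card_singleton, hc]
      have hW : Wt D (F' ∪ {s(u, y)} ∪ {s(v, z)} ∪ {s(y, z)}) = Wt D F * (D y * D z) := by
        unfold Wt
        have ht : tch (F' ∪ {s(u, y)} ∪ {s(v, z)} ∪ {s(y, z)}) = insert y (insert z (tch F)) := by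
          rw [tch_add, tch_add, tch_add, hFdef, tch_add]
          ext x
          simp only [mem_union, mem_insert, mem_singleton]
          tauto
        rw [ht, prod_insert, prod_insert hz0.2]
        · ring
        · rw [mem_insert, not_or]
          exact ⟨Ne.symm hzy, hy0.2⟩
      have h2 := hUB _ hl3 (Or.inr (Or.inr hcard))
      rw [hcard, hW] at h2
      rw [hNP]
      calc P D (F' ∪ {s(u, y)} ∪ {s(v, z)} ∪ {s(y, z)}) * N D ∅
          ≤ ((K : ℝ) * (Δ : ℝ) ^ K * (Wt D F * (D y * D z)) / (tot D : ℝ) ^ (e + 3)) * N D ∅ :=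
            mul_le_mul_of_nonneg_right h2 hNr.le
        _ = _ := by ring
    calc ∑ y ∈ T D F, ∑ z ∈ (T D F).erase y, (N D (F' ∪ {s(u, y)} ∪ {s(v, z)} ∪ {s(y, z)}) : ℝ)
        ≤ ∑ y ∈ T D F, ∑ z ∈ (T D F).erase y,
          (K : ℝ) * (Δ : ℝ) ^ K * Wt D F / (tot D : ℝ) ^ (e + 3) * N D ∅ * (D y * D z) :=
          sum_le_sum fun y hy => sum_le_sum fun z hz => hterm y hy z hz
      _ ≤ ∑ y ∈ T D F, ∑ z ∈ T D F,
          (K : ℝ) * (Δ : ℝ) ^ K * Wt D F / (tot D : ℝ) ^ (e + 3) * N D ∅ * (D y * D z) :=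
          sum_le_sum fun y _ => sum_le_sum_of_subset_of_nonneg (erase_subset _ _)
            (fun z _ _ => by positivity)
      _ = (K : ℝ) * (Δ : ℝ) ^ K * Wt D F / (tot D : ℝ) ^ (e + 3) * N D ∅ *
          ((∑ y ∈ T D F, (D y : ℝ)) * ∑ z ∈ T D F, (D z : ℝ)) := by
          rw [sum_mul_sum, mul_sum]
          refine sum_congr rfl fun y _ => ?_
          rw [mul_sum]
      _ ≤ (K : ℝ) * (Δ : ℝ) ^ K * Wt D F / (tot D : ℝ) ^ (e + 3) * N D ∅ *
          ((tot D : ℝ) * tot D) := by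
          refine mul_le_mul_of_nonneg_left ?_ (by positivity)
          exact mul_le_mul hsumD hsumD (sum_nonneg fun _ _ => by positivity) hMr.le
      _ = B * N D ∅ := by
          rw [hB]
          field_simp
          ring
  -- `E(ii)`
  have hE20 : (0 : ℝ) ≤ ∑ y ∈ T D F, (N D (F' ∪ {s(u, y)} ∪ {s(v, y)}) : ℝ) :=
    sum_nonneg fun _ _ => by positivity
  have hE2 : ∑ y ∈ T D F, (N D (F' ∪ {s(u, y)} ∪ {s(v, y)}) : ℝ) ≤ B * N D ∅ := by
    have hterm : ∀ y ∈ T D F, (N D (F' ∪ {s(u, y)} ∪ {s(v, y)}) : ℝ)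
          ≤ (K : ℝ) * (Δ : ℝ) ^ K * Wt D F / (tot D : ℝ) ^ (e + 2) * N D ∅ * D y := by
      intro y hy
      have hy0 := mem_T.1 hy
      have hy1 := hy0.2
      rw [hFdef, tch_add] at hy1
      simp only [mem_union, mem_insert, mem_singleton, not_or] at hy1
      obtain ⟨hya, hyu, hyv⟩ := hy1
      have hl1 : Lpl (F' ∪ {s(u, y)}) := lpl_add hF' (Ne.symm hyu)
      have hl2 : Lpl (F' ∪ {s(u, y)} ∪ {s(v, y)}) := lpl_add hl1 (Ne.symm hyv)
      have hn1 : s(u, y) ∉ F' := by rw [Sym2.eq_swap]; exact not_mem_of_tch hya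
      have hn2 : s(v, y) ∉ F' ∪ {s(u, y)} := by
        rw [mem_union, mem_singleton, not_or]
        refine ⟨by rw [Sym2.eq_swap]; exact not_mem_of_tch hya, fun h => ?_⟩
        rw [Sym2.eq_iff] at h
        rcases h with ⟨h, _⟩ | ⟨h, _⟩
        · exact huv h.symm
        · exact hyv h.symm
      have hcard : (F' ∪ {s(u, y)} ∪ {s(v, y)}).card = e + 2 := by
        rw [card_union_of_disjoint (by rw [disjoint_singleton_right]; exact hn2),
          card_union_of_disjoint (by rw [disjoint_singleton_right]; exact hn1),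
          card_singleton, card_singleton, hc]
      have hW : Wt D (F' ∪ {s(u, y)} ∪ {s(v, y)}) = Wt D F * D y := by
        unfold Wt
        have ht : tch (F' ∪ {s(u, y)} ∪ {s(v, y)}) = insert y (tch F) := by
          rw [tch_add, tch_add, hFdef, tch_add]
          ext x
          simp only [mem_union, mem_insert, mem_singleton]
          tauto
        rw [ht, prod_insert hy0.2]
        ring
      have h2 := hUB _ hl2 (Or.inr (Or.inl hcard))
      rw [hcard, hW] at h2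
      rw [hNP]
      calc P D (F' ∪ {s(u, y)} ∪ {s(v, y)}) * N D ∅
          ≤ ((K : ℝ) * (Δ : ℝ) ^ K * (Wt D F * D y) / (tot D : ℝ) ^ (e + 2)) * N D ∅ :=
            mul_le_mul_of_nonneg_right h2 hNr.le
        _ = _ := by ring
    calc ∑ y ∈ T D F, (N D (F' ∪ {s(u, y)} ∪ {s(v, y)}) : ℝ)
        ≤ ∑ y ∈ T D F, (K : ℝ) * (Δ : ℝ) ^ K * Wt D F / (tot D : ℝ) ^ (e + 2) * N D ∅ * D y :=
          sum_le_sum hterm
      _ = (K : ℝ) * (Δ : ℝ) ^ K * Wt D F / (tot D : ℝ) ^ (e + 2) * N D ∅ * ∑ y ∈ T D F, (D y : ℝ) := by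
          rw [mul_sum]
      _ ≤ (K : ℝ) * (Δ : ℝ) ^ K * Wt D F / (tot D : ℝ) ^ (e + 2) * N D ∅ * tot D :=
          mul_le_mul_of_nonneg_left hsumD (by positivity)
      _ = B * N D ∅ := by
          rw [hB]
          field_simp
          ring
  -- `E(i)`
  set W1 := D.support.filter (fun w => w ∈ tch F ∧ w ≠ u ∧ s(u, w) ∉ F') with hW1
  have hW1s : W1 ⊆ tch F := fun w hw => (mem_filter.1 hw).2.1
  have hE1 : |(D v : ℝ) - dg F' v| * ∑ w ∈ W1, (N D (F' ∪ {s(u, w)}) : ℝ)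
      ≤ 2 * (e + 1) * ((Δ + e) * (B * N D ∅)) := by
    rw [mul_sum]
    have hh := sum_tch_le (F := F) (f := fun w => |(D v : ℝ) - dg F' v| * (N D (F' ∪ {s(u, w)}) : ℝ))
      (c := (Δ + e) * (B * N D ∅)) (by positivity) hW1s (by
        intro w hw
        rw [hW1, mem_filter] at hw
        obtain ⟨_, hwt, hwu, hwn⟩ := hw
        have hl : Lpl (F' ∪ {s(u, w)}) := lpl_add hF' (Ne.symm hwu)
        have hcard : (F' ∪ {s(u, w)}).card = e + 1 := by
          rw [card_union_of_disjoint (by rw [disjoint_singleton_right]; exact hwn),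
            card_singleton, hc]
        have htc : tch (F' ∪ {s(u, w)}) ⊆ tch F := by
          rw [tch_add]
          intro x
          simp only [mem_union, mem_insert, mem_singleton]
          rintro (hx | rfl | rfl)
          · rw [hFdef, tch_add]; exact mem_union_left _ hx
          · exact hut
          · exact hwt
        have h2 := hUB _ hl (Or.inl hcard)
        rw [hcard] at h2
        have h3 := abs_mul_Wt_le (D := D) (F' := F') (F := F) (H := F' ∪ {s(u, w)}) hΔ hD h1 hvt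
          subset_union_left htc
        rw [hc] at h3
        change |(D v : ℝ) - dg F' v| * (N D (F' ∪ {s(u, w)}) : ℝ) ≤ _
        rw [hNP, ← mul_assoc, ← mul_assoc]
        refine mul_le_mul_of_nonneg_right ?_ hNr.le
        calc |(D v : ℝ) - dg F' v| * P D (F' ∪ {s(u, w)})
            ≤ |(D v : ℝ) - dg F' v| * ((K : ℝ) * (Δ : ℝ) ^ K * Wt D (F' ∪ {s(u, w)}) / (tot D : ℝ) ^ (e + 1)) :=
              mul_le_mul_of_nonneg_left h2 (abs_nonneg _)
          _ = (K : ℝ) * (Δ : ℝ) ^ K / (tot D : ℝ) ^ (e + 1) *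
              (|(D v : ℝ) - dg F' v| * Wt D (F' ∪ {s(u, w)})) := by ring
          _ ≤ (K : ℝ) * (Δ : ℝ) ^ K / (tot D : ℝ) ^ (e + 1) * ((Δ + e) * Wt D F) :=
              mul_le_mul_of_nonneg_left h3 (by positivity)
          _ = (Δ + e) * B := by rw [hB]; ring)
    rw [hcF] at hh
    push_cast at hh
    exact hh
  have hE10 : (0 : ℝ) ≤ ∑ w ∈ W1, (N D (F' ∪ {s(u, w)}) : ℝ) := sum_nonneg fun _ _ => by positivity
  -- `E(iii)`
  set W2 := D.support.filter (fun w => w ∈ tch F ∧ w ≠ v ∧ s(v, w) ∉ F') with hW2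
  have hW2s : W2 ⊆ tch F := fun w hw => (mem_filter.1 hw).2.1
  have hE30 : (0 : ℝ) ≤ ∑ w ∈ W2, ∑ y ∈ T D F, (N D (F' ∪ {s(v, w)} ∪ {s(u, y)}) : ℝ) :=
    sum_nonneg fun _ _ => sum_nonneg fun _ _ => by positivity
  have hE3 : ∑ w ∈ W2, ∑ y ∈ T D F, (N D (F' ∪ {s(v, w)} ∪ {s(u, y)}) : ℝ)
      ≤ 2 * (e + 1) * (Δ * (B * N D ∅)) := by
    have hh := sum_tch_le (F := F)
      (f := fun w => ∑ y ∈ T D F, (N D (F' ∪ {s(v, w)} ∪ {s(u, y)}) : ℝ))
      (c := Δ * (B * N D ∅)) (by positivity) hW2s (by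
        intro w hw
        rw [hW2, mem_filter] at hw
        obtain ⟨_, hwt, hwv, hwn⟩ := hw
        have hl : Lpl (F' ∪ {s(v, w)}) := lpl_add hF' (Ne.symm hwv)
        have hcard : (F' ∪ {s(v, w)}).card = e + 1 := by
          rw [card_union_of_disjoint (by rw [disjoint_singleton_right]; exact hwn),
            card_singleton, hc]
        have htc : tch (F' ∪ {s(v, w)}) ⊆ tch F := by
          rw [tch_add]
          intro x
          simp only [mem_union, mem_insert, mem_singleton]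
          rintro (hx | rfl | rfl)
          · rw [hFdef, tch_add]; exact mem_union_left _ hx
          · exact hvt
          · exact hwt
        have h2 := deg_le' hDeg (D := D) hl u (T := T D F) T_sub (by
          intro y hy
          rw [mem_T] at hy
          refine ⟨fun h => hy.2 (h ▸ hut), ?_⟩
          rw [Sym2.eq_swap (a := u) (b := y)]
          exact not_mem_of_tch fun h => hy.2 (htc h)) (hD u)
        refine h2.trans (mul_le_mul_of_nonneg_left (hPle _ hl hcard htc) (by positivity)))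
    rw [hcF] at hh
    push_cast at hh
    exact hh
  -- conclusion
  have hgoal : |(tot D : ℝ) * N D F - ((D u : ℝ) - dg F' u) * ((D v : ℝ) - dg F' v) * N D F'|
      ≤ (4 * ((e : ℝ) + 1) * Δ + 3 * Δ ^ 2 + 2 + 2 * (e + 1) * (Δ + e) + 2 * (e + 1) * Δ) * (B * N D ∅) := by
    have ha1 : |((D v : ℝ) - dg F' v) * ∑ w ∈ W1, (N D (F' ∪ {s(u, w)}) : ℝ)|
        ≤ 2 * (e + 1) * ((Δ + e) * (B * N D ∅)) := by
      rw [abs_mul, abs_of_nonneg hE10]; exact hE1
    have hBN : 0 ≤ B * N D ∅ := by positivity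
    have hΔ2 : Δ * (Δ * (N D F : ℝ)) ≤ Δ ^ 2 * (B * N D ∅) := by
      calc Δ * (Δ * (N D F : ℝ)) = Δ ^ 2 * N D F := by ring
        _ ≤ _ := mul_le_mul_of_nonneg_left hNF (by positivity)
    have hΔ4 : 4 * ((e : ℝ) + 1) * Δ * N D F ≤ 4 * ((e : ℝ) + 1) * Δ * (B * N D ∅) :=
      mul_le_mul_of_nonneg_left hNF (by positivity)
    obtain ⟨hS1a, hS1b⟩ := hS1
    rw [abs_le] at ha1 ⊢
    obtain ⟨ha, hb⟩ := ha1
    constructor
    · nlinarith
    · nlinarith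
  have hdiv : (tot D : ℝ) * P D F - ((D u : ℝ) - dg F' u) * ((D v : ℝ) - dg F' v) * P D F'
      = ((tot D : ℝ) * N D F - ((D u : ℝ) - dg F' u) * ((D v : ℝ) - dg F' v) * N D F') / N D ∅ := by
    unfold P
    ring
  rw [hdiv, abs_div, abs_of_pos hNr, div_le_iff₀ hNr]
  refine hgoal.trans (le_of_eq ?_)
  ring

end L0

open UB L0

theorem l0_proof (hMem : Stmt_Mem) (hDeg : Stmt_Deg) (hSw : Stmt_Sw) (hUB : Stmt_UB) : Stmt_L0 := by
  intro e
  induction e with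
  | zero =>
    refine ⟨1, fun D Δ F hΔ hD hF hc hM hN => ?_⟩
    rw [card_eq_zero] at hc
    subst hc
    have hNr : (0 : ℝ) < N D ∅ := by exact_mod_cast hN
    have h1 : P D ∅ = 1 := div_self hNr.ne'
    have h2 : FF D ∅ = 1 := by simp [FF, tch]
    rw [h1, h2, pow_zero, div_one, sub_self, abs_zero]
    have := Wt_nonneg D ∅
    positivity
  | succ e ih =>
    obtain ⟨C, hC⟩ := ih
    obtain ⟨C1, hC1⟩ := hUB (e + 1)
    obtain ⟨C2, hC2⟩ := hUB (e + 2)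
    obtain ⟨C3, hC3⟩ := hUB (e + 3)
    obtain ⟨K, hK1, hK2, hK3⟩ : ∃ K, C1 ≤ K ∧ C2 ≤ K ∧ C3 ≤ K :=
      ⟨C1 + C2 + C3, by omega, by omega, by omega⟩
    refine ⟨K * (16 * (e + 1) * (e + 1)) + (e + 1) ^ 2 * C + K + C + 2, fun D Δ F hΔ hD hF hc hM hN => ?_⟩
    set CC := K * (16 * (e + 1) * (e + 1)) + (e + 1) ^ 2 * C + K + C + 2 with hCC
    obtain ⟨F', u, v, hF', hc', huv, hn, rfl⟩ := exists_split hF hc
    have hΔr : (1 : ℝ) ≤ Δ := by exact_mod_cast hΔ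
    have hNr : (0 : ℝ) < N D ∅ := by exact_mod_cast hN
    have hKCC : K ≤ CC := by omega
    have hCCC : C ≤ CC := by omega
    have hMpos : 0 < tot D := by
      have h1 : 0 < CC * Δ ^ CC := Nat.mul_pos (by omega) (Nat.pow_pos hΔ)
      omega
    have hMr : (0 : ℝ) < tot D := by exact_mod_cast hMpos
    have hWF := Wt_nonneg D (F' ∪ {s(u, v)})
    by_cases h0 : ∃ x ∈ tch (F' ∪ {s(u, v)}), D x = 0
    · -- everything vanishes
      obtain ⟨x, hx, hx0⟩ := h0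
      have hN0 : N D (F' ∪ {s(u, v)}) = 0 := by
        by_contra hne
        have h1 := dg_le_of_pos hMem hne x
        have h2 := one_le_dg hx
        omega
      have hFF : FF D (F' ∪ {s(u, v)}) = 0 := by
        unfold FF
        refine prod_eq_zero hx ?_
        rw [hx0, Nat.descFactorial_eq_zero_iff_lt.2]
        · simp
        · exact one_le_dg hx
      have hP : P D (F' ∪ {s(u, v)}) = 0 := by
        unfold P
        rw [hN0]; simp
      rw [hP, hFF, zero_div, sub_zero, abs_zero]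
      positivity
    push Not at h0
    have h1 : ∀ x ∈ tch (F' ∪ {s(u, v)}), 1 ≤ D x := fun x hx => Nat.one_le_iff_ne_zero.2 (h0 x hx)
    have hUBall : ∀ H : Finset (Sym2 ℕ), Lpl H → (H.card = e + 1 ∨ H.card = e + 2 ∨ H.card = e + 3) →
        P D H ≤ (K : ℝ) * (Δ : ℝ) ^ K * Wt D H / (tot D : ℝ) ^ H.card := by
      intro H hH hcH
      have hWH := Wt_nonneg D H
      have hmono : ∀ C' : ℕ, C' ≤ K → (C' : ℝ) * (Δ : ℝ) ^ C' * Wt D H / (tot D : ℝ) ^ H.card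
          ≤ (K : ℝ) * (Δ : ℝ) ^ K * Wt D H / (tot D : ℝ) ^ H.card := by
        intro C' hC'
        have h2 : (C' : ℝ) * (Δ : ℝ) ^ C' ≤ (K : ℝ) * (Δ : ℝ) ^ K := by exact_mod_cast C_mono hC' hΔ
        gcongr
      rcases hcH with h | h | h
      · have := hC1 D Δ H hΔ hD hH h ((C_mono (by omega) hΔ).trans hM)
        rw [← h] at this
        exact this.trans (hmono C1 hK1)
      · have := hC2 D Δ H hΔ hD hH h ((C_mono (by omega) hΔ).trans hM)
        rw [← h] at this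
        exact this.trans (hmono C2 hK2)
      · have := hC3 D Δ H hΔ hD hH h ((C_mono (by omega) hΔ).trans hM)
        rw [← h] at this
        exact this.trans (hmono C3 hK3)
    have hstep := step hMem hDeg hSw hF' huv hn hΔ hD h1 hc' hN hMpos hUBall
    have hIH := hC D Δ F' hΔ hD hF' hc' ((C_mono hCCC hΔ).trans hM) hN
    have hFFa := FF_add D huv hn
    -- the second term
    have hab : |((D u : ℝ) - dg F' u) * ((D v : ℝ) - dg F' v)| * Wt D F'
        ≤ ((Δ : ℝ) + e) ^ 2 * Wt D (F' ∪ {s(u, v)}) := by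
      have h2 := abs_le_if (D := D) F' hΔ hD u
      have h3 := abs_le_if (D := D) F' hΔ hD v
      rw [hc'] at h2 h3
      rw [abs_mul, Wt_add D F' huv]
      have hifn : ∀ x, (0 : ℝ) ≤ (if x ∈ tch F' then 1 else (D x : ℝ)) := by
        intro x
        split_ifs <;> positivity
      have hW' := Wt_nonneg D F'
      calc |(D u : ℝ) - dg F' u| * |(D v : ℝ) - dg F' v| * Wt D F'
          ≤ ((((Δ : ℝ) + e) * (if u ∈ tch F' then 1 else (D u : ℝ))) *
            (((Δ : ℝ) + e) * (if v ∈ tch F' then 1 else (D v : ℝ)))) * Wt D F' := by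
            refine mul_le_mul_of_nonneg_right ?_ hW'
            exact mul_le_mul h2 h3 (abs_nonneg _) (mul_nonneg (by positivity) (hifn u))
        _ = _ := by ring
    have hsec : |((D u : ℝ) - dg F' u) * ((D v : ℝ) - dg F' v) * (P D F' - FF D F' / (tot D : ℝ) ^ e)|
        ≤ ((Δ : ℝ) + e) ^ 2 * ((C : ℝ) * (Δ : ℝ) ^ C * Wt D (F' ∪ {s(u, v)}) / (tot D : ℝ) ^ (e + 1)) := by
      rw [abs_mul]
      calc |((D u : ℝ) - dg F' u) * ((D v : ℝ) - dg F' v)| * |P D F' - FF D F' / (tot D : ℝ) ^ e|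
          ≤ |((D u : ℝ) - dg F' u) * ((D v : ℝ) - dg F' v)| *
            ((C : ℝ) * (Δ : ℝ) ^ C * Wt D F' / (tot D : ℝ) ^ (e + 1)) :=
            mul_le_mul_of_nonneg_left hIH (abs_nonneg _)
        _ = (C : ℝ) * (Δ : ℝ) ^ C / (tot D : ℝ) ^ (e + 1) *
            (|((D u : ℝ) - dg F' u) * ((D v : ℝ) - dg F' v)| * Wt D F') := by ring
        _ ≤ (C : ℝ) * (Δ : ℝ) ^ C / (tot D : ℝ) ^ (e + 1) *
            (((Δ : ℝ) + e) ^ 2 * Wt D (F' ∪ {s(u, v)})) :=
            mul_le_mul_of_nonneg_left hab (by positivity)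
        _ = _ := by ring
    set W := Wt D (F' ∪ {s(u, v)}) with hWdef
    have hsplit : P D (F' ∪ {s(u, v)}) - FF D (F' ∪ {s(u, v)}) / (tot D : ℝ) ^ (e + 1)
        = (((tot D : ℝ) * P D (F' ∪ {s(u, v)}) - ((D u : ℝ) - dg F' u) * ((D v : ℝ) - dg F' v) * P D F')
          + ((D u : ℝ) - dg F' u) * ((D v : ℝ) - dg F' v) * (P D F' - FF D F' / (tot D : ℝ) ^ e)) / tot D := by
      rw [hFFa]
      field_simp
      ring
    rw [hsplit, abs_div, abs_of_pos hMr, div_le_iff₀ hMr]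
    refine (abs_add_le _ _).trans ((add_le_add hstep hsec).trans ?_)
    -- numerical estimates
    have he0 : (0 : ℝ) ≤ e := by positivity
    have hΔe : (Δ : ℝ) + e ≤ (e + 1) * Δ := by nlinarith
    have hcoef1 : (4 * ((e : ℝ) + 1) * Δ + 3 * Δ ^ 2 + 2 + 2 * (e + 1) * (Δ + e) + 2 * (e + 1) * Δ)
        ≤ 16 * (e + 1) * (e + 1) * (Δ : ℝ) ^ 2 := by
      have h2 : (Δ : ℝ) ≤ Δ ^ 2 := by nlinarith
      have h3 : (1 : ℝ) ≤ (Δ : ℝ) ^ 2 := by nlinarith
      have h4 : 2 * ((e : ℝ) + 1) * (Δ + e) ≤ 2 * (e + 1) * ((e + 1) * Δ ^ 2) := by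
        refine mul_le_mul_of_nonneg_left (hΔe.trans ?_) (by positivity)
        exact mul_le_mul_of_nonneg_left h2 (by positivity)
      have h5 : 4 * ((e : ℝ) + 1) * Δ ≤ 4 * (e + 1) * Δ ^ 2 := mul_le_mul_of_nonneg_left h2 (by positivity)
      have h6 : 2 * ((e : ℝ) + 1) * Δ ≤ 2 * (e + 1) * Δ ^ 2 := mul_le_mul_of_nonneg_left h2 (by positivity)
      have h7 : (0 : ℝ) ≤ (Δ : ℝ) ^ 2 := by positivity
      have h8 : (0 : ℝ) ≤ e * (Δ : ℝ) ^ 2 := by positivity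
      have h9 : (0 : ℝ) ≤ e * e * (Δ : ℝ) ^ 2 := by positivity
      nlinarith
    have hcoef2 : ((Δ : ℝ) + e) ^ 2 ≤ (e + 1) ^ 2 * (Δ : ℝ) ^ 2 := by
      calc ((Δ : ℝ) + e) ^ 2 ≤ ((e + 1) * Δ) ^ 2 := pow_le_pow_left₀ (by positivity) hΔe 2
        _ = _ := by ring
    have hpow1 : (Δ : ℝ) ^ 2 * (Δ : ℝ) ^ K ≤ (Δ : ℝ) ^ CC := by
      rw [← pow_add]; exact pow_le_pow_right₀ hΔr (by omega)
    have hpow2 : (Δ : ℝ) ^ 2 * (Δ : ℝ) ^ C ≤ (Δ : ℝ) ^ CC := by
      rw [← pow_add]; exact pow_le_pow_right₀ hΔr (by omega)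
    have hWM : 0 ≤ W / (tot D : ℝ) ^ (e + 1) := by positivity
    have ht1 : (4 * ((e : ℝ) + 1) * Δ + 3 * Δ ^ 2 + 2 + 2 * (e + 1) * (Δ + e) + 2 * (e + 1) * Δ) *
        ((K : ℝ) * (Δ : ℝ) ^ K * W / (tot D : ℝ) ^ (e + 1))
        ≤ (16 * (e + 1) * (e + 1) * K) * (Δ : ℝ) ^ CC * (W / (tot D : ℝ) ^ (e + 1)) := by
      calc _ ≤ (16 * (e + 1) * (e + 1) * (Δ : ℝ) ^ 2) * ((K : ℝ) * (Δ : ℝ) ^ K * W / (tot D : ℝ) ^ (e + 1)) :=
            mul_le_mul_of_nonneg_right hcoef1 (by positivity)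
        _ = (16 * (e + 1) * (e + 1) * K) * ((Δ : ℝ) ^ 2 * (Δ : ℝ) ^ K) * (W / (tot D : ℝ) ^ (e + 1)) := by ring
        _ ≤ _ := mul_le_mul_of_nonneg_right (mul_le_mul_of_nonneg_left hpow1 (by positivity)) hWM
    have ht2 : ((Δ : ℝ) + e) ^ 2 * ((C : ℝ) * (Δ : ℝ) ^ C * W / (tot D : ℝ) ^ (e + 1))
        ≤ ((e + 1) ^ 2 * C) * (Δ : ℝ) ^ CC * (W / (tot D : ℝ) ^ (e + 1)) := by
      calc _ ≤ ((e + 1) ^ 2 * (Δ : ℝ) ^ 2) * ((C : ℝ) * (Δ : ℝ) ^ C * W / (tot D : ℝ) ^ (e + 1)) :=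
            mul_le_mul_of_nonneg_right hcoef2 (by positivity)
        _ = ((e + 1) ^ 2 * C) * ((Δ : ℝ) ^ 2 * (Δ : ℝ) ^ C) * (W / (tot D : ℝ) ^ (e + 1)) := by ring
        _ ≤ _ := mul_le_mul_of_nonneg_right (mul_le_mul_of_nonneg_left hpow2 (by positivity)) hWM
    have hCCr : (16 * ((e : ℝ) + 1) * (e + 1) * K) + ((e + 1) ^ 2 * C) ≤ (CC : ℝ) := by
      rw [hCC]
      push_cast
      have : (0 : ℝ) ≤ (K : ℝ) + C + 2 := by positivity
      nlinarith
    calc _ ≤ (16 * ((e : ℝ) + 1) * (e + 1) * K) * (Δ : ℝ) ^ CC * (W / (tot D : ℝ) ^ (e + 1))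
          + ((e + 1) ^ 2 * C) * (Δ : ℝ) ^ CC * (W / (tot D : ℝ) ^ (e + 1)) := add_le_add ht1 ht2
      _ = ((16 * ((e : ℝ) + 1) * (e + 1) * K) + ((e + 1) ^ 2 * C)) * ((Δ : ℝ) ^ CC * (W / (tot D : ℝ) ^ (e + 1))) := by
          ring
      _ ≤ (CC : ℝ) * ((Δ : ℝ) ^ CC * (W / (tot D : ℝ) ^ (e + 1))) :=
          mul_le_mul_of_nonneg_right hCCr (by positivity)
      _ = (CC : ℝ) * (Δ : ℝ) ^ CC * W / (tot D : ℝ) ^ (e + 1 + 1) * tot D := by
          field_simp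
          try ring

end Pool.Agent.RGA
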