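import Pool.Agent.RGA.Stmts

/-!
Module LEAFID (MP_3a123b_co): the probability that two leaves are adjacent.
-/

set_option autoImplicit false

namespace Pool.Agent.RGA

open Finset

namespace LeafId

theorem Dlf_apply (n d s v : ℕ) :
    Dlf n d s v = if v < n then d else if v < n + s then 1 else 0 := rfl

theorem mem_supp {n d s : ℕ} (hd : 1 ≤ d) (v : ℕ) : v ∈ (Dlf n d s).support ↔ v < n + s := by
  rw [Finsupp.mem_support_iff, Dlf_apply]
  split_ifs <;> omega

theorem supp_eq {n d s : ℕ} (hd : 1 ≤ d) : (Dlf n d s).support = range (n + s) := by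
  ext v
  rw [mem_supp hd, mem_range]

/-- too many edges at a vertex. -/
theorem N_zero (hMem : Stmt_Mem) (D : ℕ →₀ ℕ) (F : Finset (Sym2 ℕ)) (v : ℕ) (h : D v < dg F v) :
    N D F = 0 := by
  unfold N
  rw [Finset.card_eq_zero, Finset.filter_eq_empty_iff]
  intro G hG hF
  have h1 := ((hMem D G).1 hG).2 v
  have h2 : dg F v ≤ dg G v := Finset.card_le_card (Finset.filter_subset_filter _ hF)
  omega

theorem dg_pair {e e' : Sym2 ℕ} (v : ℕ) (F : Finset (Sym2 ℕ)) (h : e ∈ F) (h' : e' ∈ F)
    (hne : e ≠ e') (hv : v ∈ e) (hv' : v ∈ e') : 2 ≤ dg F v := by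
  unfold dg
  have : ({e, e'} : Finset (Sym2 ℕ)) ⊆ F.filter (fun e => v ∈ e) := by
    intro x hx
    rw [Finset.mem_insert, Finset.mem_singleton] at hx
    rw [Finset.mem_filter]
    rcases hx with rfl | rfl
    · exact ⟨h, hv⟩
    · exact ⟨h', hv'⟩
  have h2 := Finset.card_le_card this
  rwa [Finset.card_pair hne] at h2

theorem N_swap (hPerm : Stmt_Perm) (D : ℕ →₀ ℕ) (u w : ℕ) (h : D u = D w)
    (F : Finset (Sym2 ℕ)) : N D (F.image (Sym2.map (Equiv.swap u w))) = N D F := by
  apply hPerm D D (Equiv.swap u w) F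
  intro v
  by_cases h1 : v = u
  · rw [h1, Equiv.swap_apply_left, h]
  · by_cases h2 : v = w
    · rw [h2, Equiv.swap_apply_right, h]
    · rw [Equiv.swap_apply_of_ne_of_ne h1 h2]

theorem dg_empty (v : ℕ) : dg ∅ v = 0 := by unfold dg; simp

theorem dg_single (e : Sym2 ℕ) (v : ℕ) : dg {e} v = if v ∈ e then 1 else 0 := by
  unfold dg
  rw [Finset.filter_singleton]
  split_ifs <;> simp

theorem Lpl_single {a b : ℕ} (h : a ≠ b) : Lpl {s(a, b)} := by
  intro e he
  rw [Finset.mem_singleton] at he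
  rw [he, Sym2.mk_isDiag_iff]
  exact h

theorem part1 (hRem : Stmt_Rem) (n d s : ℕ) :
    N (Dlf n d (s + 2)) {s(n + s, n + s + 1)} = N (Dlf n d s) ∅ := by
  apply hRem _ _ _ (Lpl_single (by omega))
  · intro v
    rw [dg_single, Dlf_apply, Dlf_apply]
    simp only [Sym2.mem_iff]
    split_ifs <;> omega
  · intro e he
    rw [Finset.mem_singleton] at he
    refine ⟨n + s, by rw [he]; simp, ?_⟩
    rw [Dlf_apply]
    split_ifs <;> omega

theorem Lpl_empty : Lpl ∅ := fun e he => absurd he (Finset.notMem_empty e)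

/-- the first relation: further neighbours of the leaf `a`. -/
theorem rel1 (hDeg : Stmt_Deg) (hPerm : Stmt_Perm) (n d s : ℕ) (hd : 1 ≤ d) :
    ((s : ℝ) + 1) * N (Dlf n d (s + 2)) {s(n + s, n + s + 1)}
      + n * N (Dlf n d (s + 2)) {s(n + s, 0)} = N (Dlf n d (s + 2)) ∅ := by
  set D := Dlf n d (s + 2) with hD
  have h := hDeg D ∅ (n + s) Lpl_empty
  rw [dg_empty] at h
  have hDa : D (n + s) = 1 := by rw [hD, Dlf_apply]; split_ifs <;> omega
  rw [hDa] at h
  have hset : D.support.filter (fun w => w ≠ n + s ∧ s(n + s, w) ∉ (∅ : Finset (Sym2 ℕ)))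
      = range n ∪ (Ico n (n + s + 2)).erase (n + s) := by
    ext w
    rw [Finset.mem_filter, mem_supp hd, Finset.mem_union, Finset.mem_erase, Finset.mem_range,
      Finset.mem_Ico]
    simp only [Finset.notMem_empty, not_false_eq_true, and_true]
    omega
  rw [hset, Finset.sum_union] at h
  · have h1 : ∑ w ∈ range n, (N D (∅ ∪ {s(n + s, w)}) : ℝ) = n * N D {s(n + s, 0)} := by
      rw [Finset.sum_congr rfl (g := fun _ => (N D {s(n + s, 0)} : ℝ)), Finset.sum_const,
        Finset.card_range, nsmul_eq_mul]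
      intro w hw
      rw [Finset.mem_range] at hw
      rw [Finset.empty_union]
      have hDw : D 0 = D w := by
        rw [hD, Dlf_apply, Dlf_apply, if_pos (by omega), if_pos hw]
      have := N_swap hPerm D 0 w hDw {s(n + s, 0)}
      rw [Finset.image_singleton, Sym2.map_mk, Equiv.swap_apply_left,
        Equiv.swap_apply_of_ne_of_ne (by omega) (by omega)] at this
      exact_mod_cast this
    have h2 : ∑ w ∈ (Ico n (n + s + 2)).erase (n + s), (N D (∅ ∪ {s(n + s, w)}) : ℝ) =
        ((s : ℝ) + 1) * N D {s(n + s, n + s + 1)} := by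
      rw [Finset.sum_congr rfl (g := fun _ => (N D {s(n + s, n + s + 1)} : ℝ)), Finset.sum_const,
        Finset.card_erase_of_mem (by rw [Finset.mem_Ico]; omega), Nat.card_Ico, nsmul_eq_mul]
      · have : n + s + 2 - n - 1 = s + 1 := by omega
        rw [this]
        push_cast
        ring
      intro w hw
      rw [Finset.mem_erase, Finset.mem_Ico] at hw
      rw [Finset.empty_union]
      have hDw : D (n + s + 1) = D w := by
        rw [hD, Dlf_apply, Dlf_apply, if_neg (by omega), if_pos (by omega), if_neg (by omega),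
          if_pos (by omega)]
      have := N_swap hPerm D (n + s + 1) w hDw {s(n + s, n + s + 1)}
      rw [Finset.image_singleton, Sym2.map_mk, Equiv.swap_apply_left,
        Equiv.swap_apply_of_ne_of_ne (by omega) (by omega)] at this
      exact_mod_cast this
    rw [h1, h2] at h
    push_cast at h
    linarith
  · rw [Finset.disjoint_left]
    intro w hw
    rw [Finset.mem_range] at hw
    rw [Finset.mem_erase, Finset.mem_Ico]
    omega

/-- the other vertices. -/
def Cs (n s : ℕ) : Finset ℕ :=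
  (range (n + s + 2)).filter (fun w => w ≠ 0 ∧ w ≠ n + s ∧ w ≠ n + s + 1)

theorem mem_Cs {n s w : ℕ} : w ∈ Cs n s ↔ w < n + s + 2 ∧ w ≠ 0 ∧ w ≠ n + s ∧ w ≠ n + s + 1 := by
  unfold Cs
  rw [Finset.mem_filter, Finset.mem_range]

theorem rel2 (hMem : Stmt_Mem) (hDeg : Stmt_Deg) (hSw : Stmt_Sw) (hPerm : Stmt_Perm) (n d s : ℕ)
    (hd : 1 ≤ d) (hn : 1 ≤ n) :
    (d : ℝ) * N (Dlf n d (s + 2)) {s(n + s, n + s + 1)} = N (Dlf n d (s + 2)) {s(n + s, 0)}
      - N (Dlf n d (s + 2)) {s(n + s, 0), s(n + s + 1, 0)}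
      - ((n : ℝ) - 1) * N (Dlf n d (s + 2)) {s(n + s, 0), s(n + s + 1, 1), s(0, 1)} := by
  set D := Dlf n d (s + 2) with hD
  have hDa : D (n + s) = 1 := by rw [hD, Dlf_apply]; split_ifs <;> omega
  have hDb : D (n + s + 1) = 1 := by rw [hD, Dlf_apply]; split_ifs <;> omega
  have hD0 : D 0 = d := by rw [hD, Dlf_apply, if_pos (by omega)]
  -- two edges at a leaf
  have hleaf : ∀ (v : ℕ) (F : Finset (Sym2 ℕ)) (e e' : Sym2 ℕ), D v = 1 → e ∈ F → e' ∈ F → e ≠ e' →
      v ∈ e → v ∈ e' → N D F = 0 := by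
    intro v F e e' h1 h2 h3 h4 h5 h6
    apply N_zero hMem D F v
    have := dg_pair v F h2 h3 h4 h5 h6
    omega
  -- the switching
  have hsw : ∀ c ∈ Cs n s, (N D {s(n + s, n + s + 1), s(0, c)} : ℝ) =
      N D {s(n + s, 0), s(n + s + 1, c)} - N D {s(n + s, 0), s(n + s + 1, c), s(0, c)} := by
    intro c hc
    rw [mem_Cs] at hc
    have h := hSw D ∅ (n + s) (n + s + 1) 0 c Lpl_empty (by omega) (by omega) (by omega) (by omega)
      (by omega) (by omega) (by simp) (by simp) (by simp) (by simp)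
    simp only [Finset.empty_union] at h
    rw [hleaf (n + s) {s(n + s, n + s + 1), s(0, c), s(n + s, 0)} s(n + s, n + s + 1) s(n + s, 0)
        hDa (by simp) (by simp) (by rw [Ne, Sym2.eq_iff]; omega) (by simp) (by simp),
      hleaf (n + s + 1) {s(n + s, n + s + 1), s(0, c), s(n + s + 1, c)} s(n + s, n + s + 1)
        s(n + s + 1, c) hDb (by simp) (by simp) (by rw [Ne, Sym2.eq_iff]; omega) (by simp) (by simp),
      hleaf (n + s) {s(n + s, 0), s(n + s + 1, c), s(n + s, n + s + 1)} s(n + s, 0)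
        s(n + s, n + s + 1) hDa (by simp) (by simp) (by rw [Ne, Sym2.eq_iff]; omega) (by simp)
        (by simp)] at h
    push_cast at h
    linarith
  -- first sum
  have hS1 : ∑ c ∈ Cs n s, (N D {s(n + s, n + s + 1), s(0, c)} : ℝ) =
      (d : ℝ) * N D {s(n + s, n + s + 1)} := by
    have h := hDeg D {s(n + s, n + s + 1)} 0 (Lpl_single (by omega))
    have hdg : dg {s(n + s, n + s + 1)} 0 = 0 := by
      rw [dg_single, if_neg]
      rw [Sym2.mem_iff]
      omega
    rw [hdg, hD0] at h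
    have hset : D.support.filter (fun w => w ≠ 0 ∧ s(0, w) ∉ ({s(n + s, n + s + 1)} : Finset (Sym2 ℕ)))
        = insert (n + s) (insert (n + s + 1) (Cs n s)) := by
      ext w
      rw [Finset.mem_filter, mem_supp hd, Finset.mem_insert, Finset.mem_insert, mem_Cs,
        Finset.mem_singleton, Sym2.eq_iff]
      omega
    rw [hset, Finset.sum_insert (by rw [Finset.mem_insert, mem_Cs]; omega),
      Finset.sum_insert (by rw [mem_Cs]; omega),
      hleaf (n + s) ({s(n + s, n + s + 1)} ∪ {s(0, n + s)}) s(n + s, n + s + 1) s(0, n + s) hDa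
        (by simp) (by simp) (by rw [Ne, Sym2.eq_iff]; omega) (by simp) (by simp),
      hleaf (n + s + 1) ({s(n + s, n + s + 1)} ∪ {s(0, n + s + 1)}) s(n + s, n + s + 1)
        s(0, n + s + 1) hDb
        (by simp) (by simp) (by rw [Ne, Sym2.eq_iff]; omega) (by simp) (by simp)] at h
    push_cast at h
    rw [zero_add, zero_add, sub_zero] at h
    rw [← h]
    apply Finset.sum_congr rfl
    intro c _
    rfl
  -- second sum
  have hS2 : ∑ c ∈ Cs n s, (N D {s(n + s, 0), s(n + s + 1, c)} : ℝ) =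
      N D {s(n + s, 0)} - N D {s(n + s, 0), s(n + s + 1, 0)} := by
    have h := hDeg D {s(n + s, 0)} (n + s + 1) (Lpl_single (by omega))
    have hdg : dg {s(n + s, 0)} (n + s + 1) = 0 := by
      rw [dg_single, if_neg]
      rw [Sym2.mem_iff]
      omega
    rw [hdg, hDb] at h
    have hset : D.support.filter (fun w => w ≠ n + s + 1 ∧
        s(n + s + 1, w) ∉ ({s(n + s, 0)} : Finset (Sym2 ℕ)))
        = insert (n + s) (insert 0 (Cs n s)) := by
      ext w
      rw [Finset.mem_filter, mem_supp hd, Finset.mem_insert, Finset.mem_insert, mem_Cs,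
        Finset.mem_singleton, Sym2.eq_iff]
      omega
    rw [hset, Finset.sum_insert (by rw [Finset.mem_insert, mem_Cs]; omega),
      Finset.sum_insert (by rw [mem_Cs]; omega),
      hleaf (n + s) ({s(n + s, 0)} ∪ {s(n + s + 1, n + s)}) s(n + s, 0) s(n + s + 1, n + s) hDa
        (by simp) (by simp) (by rw [Ne, Sym2.eq_iff]; omega) (by simp) (by simp)] at h
    push_cast at h
    rw [zero_add, sub_zero, one_mul] at h
    have h' : (N D ({s(n + s, 0)} ∪ {s(n + s + 1, 0)}) : ℝ) +
        ∑ c ∈ Cs n s, (N D ({s(n + s, 0)} ∪ {s(n + s + 1, c)}) : ℝ) = N D {s(n + s, 0)} := h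
    have e : ∀ c, ({s(n + s, 0)} ∪ {s(n + s + 1, c)} : Finset (Sym2 ℕ)) =
      {s(n + s, 0), s(n + s + 1, c)} := fun c => rfl
    simp only [e] at h'
    linarith
  -- third sum
  have hS3 : ∑ c ∈ Cs n s, (N D {s(n + s, 0), s(n + s + 1, c), s(0, c)} : ℝ) =
      ((n : ℝ) - 1) * N D {s(n + s, 0), s(n + s + 1, 1), s(0, 1)} := by
    have hsub : Ico 1 n ⊆ Cs n s := by
      intro c hc
      rw [Finset.mem_Ico] at hc
      rw [mem_Cs]
      omega
    rw [← Finset.sum_subset hsub]
    · rw [Finset.sum_congr rfl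
        (g := fun _ => (N D {s(n + s, 0), s(n + s + 1, 1), s(0, 1)} : ℝ)), Finset.sum_const,
        Nat.card_Ico, nsmul_eq_mul, Nat.cast_sub hn]
      · push_cast; ring
      intro c hc
      rw [Finset.mem_Ico] at hc
      have hDw : D 1 = D c := by
        rw [hD, Dlf_apply, Dlf_apply, if_pos (by omega), if_pos (by omega)]
      have := N_swap hPerm D 1 c hDw {s(n + s, 0), s(n + s + 1, 1), s(0, 1)}
      rw [Finset.image_insert, Finset.image_insert, Finset.image_singleton, Sym2.map_mk,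
        Sym2.map_mk, Sym2.map_mk, Equiv.swap_apply_left,
        Equiv.swap_apply_of_ne_of_ne (a := 1) (b := c) (x := n + s) (by omega) (by omega),
        Equiv.swap_apply_of_ne_of_ne (a := 1) (b := c) (x := 0) (by omega) (by omega),
        Equiv.swap_apply_of_ne_of_ne (a := 1) (b := c) (x := n + s + 1) (by omega) (by omega)] at this
      exact_mod_cast this
    · intro c hc hc'
      rw [mem_Cs] at hc
      rw [Finset.mem_Ico] at hc'
      have hDc : D c = 1 := by rw [hD, Dlf_apply]; split_ifs <;> omega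
      rw [hleaf c _ s(n + s + 1, c) s(0, c) hDc (by simp) (by simp) (by rw [Ne, Sym2.eq_iff]; omega)
        (by simp) (by simp)]
      simp
  have hsum := Finset.sum_congr rfl hsw
  rw [Finset.sum_sub_distrib, hS1, hS2, hS3] at hsum
  linarith

end LeafId

theorem leafId_proof (hMem : Stmt_Mem) (hDeg : Stmt_Deg) (hSw : Stmt_Sw) (hPerm : Stmt_Perm)
    (hRem : Stmt_Rem) : Stmt_LeafId := by
  intro n d s hd
  refine ⟨LeafId.part1 hRem n d s, ?_⟩
  have h1 := LeafId.rel1 hDeg hPerm n d s hd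
  rcases Nat.eq_zero_or_pos n with hn | hn
  · subst hn
    simp only [Nat.cast_zero, zero_mul, add_zero, zero_add, sub_zero] at h1 ⊢
    linarith
  · have h2 := LeafId.rel2 hMem hDeg hSw hPerm n d s hd hn
    have h3 : (n : ℝ) * ((d : ℝ) * N (Dlf n d (s + 2)) {s(n + s, n + s + 1)}) =
      n * (N (Dlf n d (s + 2)) {s(n + s, 0)}
      - N (Dlf n d (s + 2)) {s(n + s, 0), s(n + s + 1, 0)}
      - ((n : ℝ) - 1) * N (Dlf n d (s + 2)) {s(n + s, 0), s(n + s + 1, 1), s(0, 1)}) := by rw [h2]
    linarith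

end Pool.Agent.RGA
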