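import Pool.Agent.RGA.LeafId

/-!
Module LEAFLIM (MP_3a123b_co): many leaves.
-/

set_option autoImplicit false

namespace Pool.Agent.RGA

open Finset Filter Topology

namespace LeafLim

open LeafId

/-! ### double factorials -/

theorem tendsto_log_sub (c : ℝ) :
    Tendsto (fun M : ℕ => Real.log ((M : ℝ) - c) - Real.log M) atTop (𝓝 0) := by
  have h1 : Tendsto (fun M : ℕ => 1 - c / (M : ℝ)) atTop (𝓝 (1 - 0)) :=
    tendsto_const_nhds.sub (tendsto_const_div_atTop_nhds_zero_nat c)
  rw [sub_zero] at h1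
  have h2 := (Real.continuousAt_log one_ne_zero).tendsto.comp h1
  rw [Real.log_one] at h2
  refine h2.congr' ?_
  filter_upwards [eventually_gt_atTop (⌈c⌉₊ + 1)] with M hM
  have hM0 : (0 : ℝ) < M := by exact_mod_cast (by omega : 0 < M)
  have hMc : c < M := lt_of_le_of_lt (Nat.le_ceil c) (by exact_mod_cast (by omega : ⌈c⌉₊ < M))
  rw [Function.comp_apply, ← Real.log_div (by linarith) hM0.ne']
  congr 1
  field_simp

theorem df_tendsto (d : ℕ) : Tendsto (fun M : ℕ => Real.log ((M - 1).doubleFactorial : ℝ)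
    - Real.log ((M - 1 - 2 * d).doubleFactorial : ℝ) - d * Real.log M) atTop (𝓝 0) := by
  induction d with
  | zero => simp
  | succ d ih =>
    have h := ih.add (tendsto_log_sub (1 + 2 * d))
    rw [add_zero] at h
    refine h.congr' ?_
    filter_upwards [eventually_gt_atTop (2 * d + 3)] with M hM
    obtain ⟨m, hm⟩ : ∃ m, M = m + 2 * d + 3 := ⟨M - (2 * d + 3), by omega⟩
    have e1 : M - 1 - 2 * d = m + 2 := by omega
    have e2 : M - 1 - 2 * (d + 1) = m := by omega
    rw [e1, e2, Nat.doubleFactorial_add_two]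
    have hpos : (0 : ℝ) < (m.doubleFactorial : ℝ) := by exact_mod_cast Nat.doubleFactorial_pos m
    rw [Nat.cast_mul, Real.log_mul (by positivity) hpos.ne']
    have e3 : (M : ℝ) - (1 + 2 * d) = ((m + 2 : ℕ) : ℝ) := by rw [hm]; push_cast; ring
    rw [e3]
    push_cast
    ring

/-! ### the degree sequence -/

theorem tot_Dlf (n d s : ℕ) (hd : 1 ≤ d) : tot (Dlf n d s) = n * d + s := by
  unfold tot
  rw [supp_eq hd, Finset.sum_range_add]
  have h1 : ∑ v ∈ range n, Dlf n d s v = n * d := by
    rw [Finset.sum_congr rfl (g := fun _ => d)]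
    · simp
    · intro v hv
      rw [Finset.mem_range] at hv
      rw [Dlf_apply, if_pos hv]
  have h2 : ∑ i ∈ range s, Dlf n d s (n + i) = s := by
    rw [Finset.sum_congr rfl (g := fun _ => 1)]
    · simp
    · intro i hi
      rw [Finset.mem_range] at hi
      rw [Dlf_apply, if_neg (by omega), if_pos (by omega)]
  rw [h1, h2]

/-- the star at the last regular vertex -/
def Fs (n d s : ℕ) : Finset (Sym2 ℕ) := (range d).image (fun i => s(n, n + 1 + s + i))

theorem mem_Fs {n d s : ℕ} {e : Sym2 ℕ} : e ∈ Fs n d s ↔ ∃ i < d, s(n, n + 1 + s + i) = e := by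
  unfold Fs
  simp [Finset.mem_image]

theorem inj_Fs (n s : ℕ) : Function.Injective (fun i => s(n, n + 1 + s + i)) := by
  intro i j hij
  simp only [Sym2.eq_iff] at hij
  omega

theorem card_Fs (n d s : ℕ) : (Fs n d s).card = d := by
  unfold Fs
  rw [Finset.card_image_of_injective _ (inj_Fs n s), Finset.card_range]

theorem Lpl_Fs (n d s : ℕ) : Lpl (Fs n d s) := by
  intro e he
  obtain ⟨i, _, rfl⟩ := mem_Fs.1 he
  rw [Sym2.mk_isDiag_iff]
  omega

theorem dg_Fs (n d s v : ℕ) : dg (Fs n d s) v =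
    if v = n then d else if n + 1 + s ≤ v ∧ v < n + 1 + s + d then 1 else 0 := by
  unfold dg Fs
  rw [Finset.filter_image, Finset.card_image_of_injective _ (inj_Fs n s)]
  simp only [Sym2.mem_iff]
  split_ifs with h1 h2
  · rw [Finset.filter_true_of_mem (fun i _ => Or.inl h1), Finset.card_range]
  · rw [Finset.card_eq_one]
    refine ⟨v - (n + 1 + s), ?_⟩
    ext i
    rw [Finset.mem_filter, Finset.mem_range, Finset.mem_singleton]
    omega
  · rw [Finset.card_eq_zero, Finset.filter_eq_empty_iff]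
    intro i hi
    rw [Finset.mem_range] at hi
    omega

/-- the rest -/
noncomputable def Dr (n d s : ℕ) : ℕ →₀ ℕ :=
  Finsupp.onFinset (range (n + 1 + s)) (fun v => if v < n then d else if v = n then 0 else
    if v < n + 1 + s then 1 else 0)
    (by
      intro v hv
      rw [mem_range]
      by_contra h
      apply hv
      rw [if_neg (by omega), if_neg (by omega), if_neg h])

theorem Dr_apply (n d s v : ℕ) : Dr n d s v = if v < n then d else if v = n then 0 else
    if v < n + 1 + s then 1 else 0 := rfl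

theorem N_star (hRem : Stmt_Rem) (hPerm : Stmt_Perm) (n d s : ℕ) :
    N (Dlf (n + 1) d (s + d)) (Fs n d s) = N (Dlf n d s) ∅ := by
  have h1 : N (Dlf (n + 1) d (s + d)) (Fs n d s) = N (Dr n d s) ∅ := by
    apply hRem _ _ _ (Lpl_Fs n d s)
    · intro v
      rw [dg_Fs, Dlf_apply, Dr_apply]
      split_ifs <;> omega
    · intro e he
      obtain ⟨i, _, rfl⟩ := mem_Fs.1 he
      refine ⟨n, by simp, ?_⟩
      rw [Dr_apply, if_neg (by omega), if_pos rfl]
  have h2 := hPerm (Dlf n d s) (Dr n d s) (Equiv.swap n (n + s)) ∅ (by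
    intro v
    rw [Dlf_apply]
    by_cases hv : v = n
    · rw [hv, Equiv.swap_apply_left, Dr_apply]
      split_ifs <;> omega
    · by_cases hv' : v = n + s
      · rw [hv', Equiv.swap_apply_right, Dr_apply]
        split_ifs <;> omega
      · rw [Equiv.swap_apply_of_ne_of_ne hv hv', Dr_apply]
        split_ifs <;> omega)
  rw [Finset.image_empty] at h2
  rw [h1, h2]

theorem tch_Fs (n d s : ℕ) (hd : 1 ≤ d) :
    tch (Fs n d s) = insert n ((range d).image (fun i => n + 1 + s + i)) := by
  ext v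
  unfold tch
  rw [Finset.mem_biUnion, Finset.mem_insert, Finset.mem_image]
  constructor
  · rintro ⟨e, he, hv⟩
    obtain ⟨i, hi, rfl⟩ := mem_Fs.1 he
    rw [Sym2.mem_toFinset, Sym2.mem_iff] at hv
    rcases hv with hv | hv
    · exact Or.inl hv
    · exact Or.inr ⟨i, Finset.mem_range.2 hi, hv.symm⟩
  · rintro (hv | ⟨i, hi, hv⟩)
    · refine ⟨s(n, n + 1 + s + 0), mem_Fs.2 ⟨0, hd, rfl⟩, ?_⟩
      rw [Sym2.mem_toFinset, Sym2.mem_iff]
      exact Or.inl hv
    · refine ⟨s(n, n + 1 + s + i), mem_Fs.2 ⟨i, Finset.mem_range.1 hi, rfl⟩, ?_⟩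
      rw [Sym2.mem_toFinset, Sym2.mem_iff]
      exact Or.inr hv.symm

theorem FF_Fs (n d s : ℕ) (hd : 1 ≤ d) :
    FF (Dlf (n + 1) d (s + d)) (Fs n d s) = (d.factorial : ℝ) := by
  unfold FF
  rw [tch_Fs n d s hd, Finset.prod_insert, Finset.prod_eq_one]
  · rw [dg_Fs, if_pos rfl, Dlf_apply, if_pos (by omega), Nat.descFactorial_self, mul_one]
  · intro v hv
    rw [Finset.mem_image] at hv
    obtain ⟨i, hi, rfl⟩ := hv
    rw [Finset.mem_range] at hi
    rw [dg_Fs, if_neg (by omega), if_pos (by omega), Dlf_apply, if_neg (by omega),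
      if_pos (by omega)]
    simp
  · rw [Finset.mem_image]
    rintro ⟨i, _, hi⟩
    omega

theorem Wt_Fs (n d s : ℕ) (hd : 1 ≤ d) :
    Wt (Dlf (n + 1) d (s + d)) (Fs n d s) = (d : ℝ) := by
  unfold Wt
  rw [tch_Fs n d s hd, Finset.prod_insert, Finset.prod_eq_one]
  · rw [Dlf_apply, if_pos (by omega), mul_one]
  · intro v hv
    rw [Finset.mem_image] at hv
    obtain ⟨i, hi, rfl⟩ := hv
    rw [Finset.mem_range] at hi
    rw [Dlf_apply, if_neg (by omega), if_pos (by omega)]
    simp
  · rw [Finset.mem_image]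
    rintro ⟨i, _, hi⟩
    omega

theorem abs_log_le {x : ℝ} (h : |x - 1| ≤ 1 / 2) : |Real.log x| ≤ 2 * |x - 1| := by
  have h1 := abs_le.1 h
  have hx : 0 < x := by linarith [h1.1]
  have h2 := Real.log_le_sub_one_of_pos hx
  have h3 := Real.one_sub_inv_le_log_of_pos hx
  have h4 : -(2 * |x - 1|) ≤ 1 - x⁻¹ := by
    have e : 1 - x⁻¹ = (x - 1) / x := by field_simp
    rw [e, le_div_iff₀ hx]
    have h5 := neg_abs_le (x - 1)
    have h6 := abs_nonneg (x - 1)
    nlinarith
  rw [abs_le]
  have h7 := le_abs_self (x - 1)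
  have h8 := abs_nonneg (x - 1)
  constructor <;> linarith

/-- no regular vertices -/
theorem base (hLeaf : Stmt_LeafId) (d : ℕ) (hd : 1 ≤ d) (s : ℕ) :
    N (Dlf 0 d (2 * s)) ∅ = (2 * s - 1).doubleFactorial := by
  induction s with
  | zero =>
    have h0 : Dlf 0 d (2 * 0) = 0 := by
      ext v
      rw [Dlf_apply]
      simp
    rw [h0]
    have h1 : gr (0 : ℕ →₀ ℕ) = {∅} := by
      unfold gr
      rw [Finsupp.support_zero, Finset.sym2_empty, Finset.powerset_empty]
      ext x
      simp only [Finset.mem_filter, Finset.mem_singleton]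
      constructor
      · exact fun h => h.1
      · rintro rfl
        simp
    unfold N
    rw [h1]
    decide
  | succ s ih =>
    obtain ⟨h1, h2⟩ := hLeaf 0 d (2 * s) hd
    rw [h1, ih] at h2
    have e1 : 2 * (s + 1) = 2 * s + 2 := by ring
    rw [e1]
    have h3 : (N (Dlf 0 d (2 * s + 2)) ∅ : ℝ) = (2 * s + 1 : ℕ) * ((2 * s - 1).doubleFactorial : ℕ) := by
      push_cast at h2 ⊢
      linarith
    have h4 : N (Dlf 0 d (2 * s + 2)) ∅ = (2 * s + 1) * (2 * s - 1).doubleFactorial := by
      exact_mod_cast h3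
    rw [h4]
    rcases Nat.eq_zero_or_pos s with hs | hs
    · subst hs
      decide
    · obtain ⟨t, rfl⟩ : ∃ t, s = t + 1 := ⟨s - 1, by omega⟩
      have e2 : 2 * (t + 1) + 2 - 1 = (2 * (t + 1) - 1) + 2 := by omega
      rw [e2, Nat.doubleFactorial_add_two]
      congr 1

end LeafLim

open LeafLim LeafId

theorem leafLim_proof (hLeaf : Stmt_LeafId) (hRem : Stmt_Rem) (hPerm : Stmt_Perm)
    (hL0 : Stmt_L0) : Stmt_LeafLim := by
  intro n d hd
  induction n with
  | zero =>
    intro ε hε
    refine ⟨0, fun s _ hs => ?_⟩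
    rw [Nat.zero_mul, Nat.zero_add] at hs
    obtain ⟨t, ht⟩ := hs
    have ht' : s = 2 * t := by omega
    subst ht'
    have h := base hLeaf d hd t
    rw [h]
    refine ⟨Nat.doubleFactorial_pos _, ?_⟩
    rw [Nat.zero_mul, Nat.zero_add]
    simp only [Nat.cast_zero, zero_mul, add_zero, sub_self, abs_zero]
    exact hε.le
  | succ n ih =>
    intro ε hε
    obtain ⟨s₁, h1⟩ := ih (ε / 3) (by positivity)
    obtain ⟨C, hC⟩ := hL0 d
    have hdf := df_tendsto d
    rw [Metric.tendsto_atTop] at hdf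
    obtain ⟨M₁, hM₁⟩ := hdf (ε / 3) (by positivity)
    have hfac : (0 : ℝ) < (d.factorial : ℝ) := by exact_mod_cast d.factorial_pos
    set K : ℝ := (C : ℝ) * (d : ℝ) ^ C * d / d.factorial with hK
    have hK0 : 0 ≤ K := by positivity
    obtain ⟨M₂, hM₂⟩ := exists_nat_ge (2 * K + 6 * K / ε + 1)
    refine ⟨s₁ + d + M₁ + M₂ + C * d ^ C, fun s hs heven => ?_⟩
    obtain ⟨t, rfl⟩ : ∃ t, s = t + d := ⟨s - d, by omega⟩
    have heven' : Even (n * d + t) := by
      have : (n + 1) * d + (t + d) = (n * d + t) + 2 * d := by ring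
      rw [this] at heven
      exact (Nat.even_add.1 heven).2 ⟨d, by ring⟩
    obtain ⟨hN', h2⟩ := h1 t (by omega) heven'
    set D := Dlf (n + 1) d (t + d) with hD
    have hstar := N_star hRem hPerm n d t
    rw [← hD] at hstar
    have hNpos : 0 < N D ∅ := by
      have : N D (Fs n d t) ≤ N D ∅ := by
        unfold N
        apply Finset.card_le_card
        intro G hG
        rw [Finset.mem_filter] at hG ⊢
        exact ⟨hG.1, Finset.empty_subset _⟩
      omega
    have htot : tot D = (n + 1) * d + (t + d) := tot_Dlf _ _ _ hd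
    have hb := hC D d (Fs n d t) hd (by
      intro v
      rw [hD, Dlf_apply]
      split_ifs <;> omega) (Lpl_Fs n d t) (card_Fs n d t) (by rw [htot]; omega) hNpos
    rw [hD, FF_Fs n d t hd, Wt_Fs n d t hd, ← hD, htot] at hb
    set M : ℕ := (n + 1) * d + (t + d) with hM
    have hMM : M₂ + 1 ≤ M := by omega
    have hMr : (M₂ : ℝ) + 1 ≤ M := by exact_mod_cast hMM
    have hKe : 0 ≤ 6 * K / ε := by positivity
    have hM0 : (0 : ℝ) < M := by linarith
    have hP : P D (Fs n d t) = (N (Dlf n d t) ∅ : ℝ) / N D ∅ := by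
      unfold P
      rw [hstar]
    have hNr : (0 : ℝ) < N D ∅ := by exact_mod_cast hNpos
    have hN'r : (0 : ℝ) < N (Dlf n d t) ∅ := by exact_mod_cast hN'
    have hP0 : 0 < P D (Fs n d t) := by rw [hP]; positivity
    set x : ℝ := P D (Fs n d t) * (M : ℝ) ^ d / d.factorial with hx
    have hx0 : 0 < x := by positivity
    have hx1 : |x - 1| ≤ K / M := by
      have e : x - 1 = (P D (Fs n d t) - (d.factorial : ℝ) / (M : ℝ) ^ d) *
          ((M : ℝ) ^ d / d.factorial) := by
        rw [hx]
        field_simp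
      rw [e, abs_mul, abs_of_pos (show 0 < (M : ℝ) ^ d / d.factorial by positivity)]
      refine (mul_le_mul_of_nonneg_right hb (by positivity)).trans (le_of_eq ?_)
      rw [hK, pow_succ]
      field_simp
    have hx2 : K / M ≤ 1 / 2 := by
      rw [div_le_iff₀ hM0]
      linarith
    have hx3 : K / M ≤ ε / 6 := by
      rw [div_le_iff₀ hM0]
      have : 6 * K / ε ≤ M := by linarith
      rw [div_le_iff₀ hε] at this
      linarith
    have hlx : |Real.log x| ≤ ε / 3 := by
      refine (abs_log_le (hx1.trans hx2)).trans ?_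
      linarith
    have hlogx : Real.log x = Real.log (N (Dlf n d t) ∅) - Real.log (N D ∅) + d * Real.log M
        - Real.log (d.factorial : ℝ) := by
      rw [hx, Real.log_div (by positivity) hfac.ne', Real.log_mul hP0.ne' (by positivity),
        Real.log_pow, hP, Real.log_div hN'r.ne' hNr.ne']
    have h3 := hM₁ M (by omega)
    rw [Real.dist_eq, sub_zero] at h3
    have e4 : M - 1 - 2 * d = n * d + t - 1 := by
      have : M = n * d + t + 2 * d := by rw [hM]; ring
      omega
    rw [e4] at h3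
    refine ⟨hNpos, ?_⟩
    have e5 : Real.log (N D ∅) - Real.log ((M - 1).doubleFactorial : ℝ)
        + ((n + 1 : ℕ) : ℝ) * Real.log (d.factorial : ℝ) =
        (Real.log (N (Dlf n d t) ∅) - Real.log ((n * d + t - 1).doubleFactorial : ℝ)
          + n * Real.log (d.factorial : ℝ))
        - (Real.log ((M - 1).doubleFactorial : ℝ) - Real.log ((n * d + t - 1).doubleFactorial : ℝ)
          - d * Real.log M) - Real.log x := by
      rw [hlogx]
      push_cast
      ring
    rw [e5]
    have h4 := abs_le.1 h2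
    have h5 := abs_lt.1 h3
    have h6 := abs_le.1 hlx
    rw [abs_le]
    constructor <;> linarith [h4.1, h4.2, h5.1, h5.2, h6.1, h6.2]

end Pool.Agent.RGA
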