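import Pool.Agent.RGA.Sw

set_option autoImplicit false

namespace Pool.Agent.RGA

open Finset

namespace LeafStep

theorem P_nonneg (D : ℕ →₀ ℕ) (F : Finset (Sym2 ℕ)) : 0 ≤ P D F := by
  unfold P
  positivity

theorem Dlf_apply (n d s v : ℕ) :
    Dlf n d s v = if v < n then d else if v < n + s then 1 else 0 := by
  unfold Dlf
  rw [Finsupp.onFinset_apply]

theorem Dlf_le (n d s v : ℕ) (hd : 1 ≤ d) : Dlf n d s v ≤ d := by
  rw [Dlf_apply]
  split_ifs <;> omega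

theorem tot_Dlf (n d s : ℕ) : tot (Dlf n d s) = n * d + s := by
  have h1 : tot (Dlf n d s) = ∑ v ∈ range (n + s), Dlf n d s v := by
    unfold tot
    apply Finset.sum_subset
    · intro v hv
      rw [Finsupp.mem_support_iff, Dlf_apply] at hv
      rw [mem_range]
      by_contra h
      apply hv
      rw [if_neg (by omega), if_neg h]
    · intro v _ hv
      exact Finsupp.notMem_support_iff.mp hv
  rw [h1, Finset.sum_range_add]
  have h2 : ∑ v ∈ range n, Dlf n d s v = n * d := by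
    rw [Finset.sum_congr rfl (g := fun _ => d)]
    · rw [Finset.sum_const, card_range, smul_eq_mul]
    · intro v hv
      rw [mem_range] at hv
      rw [Dlf_apply, if_pos hv]
  have h3 : ∑ v ∈ range s, Dlf n d s (n + v) = s := by
    rw [Finset.sum_congr rfl (g := fun _ => 1)]
    · rw [Finset.sum_const, card_range, smul_eq_mul, mul_one]
    · intro v hv
      rw [mem_range] at hv
      rw [Dlf_apply, if_neg (by omega), if_pos (by omega)]
  rw [h2, h3]

/-- the cherry -/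
theorem cherry (D : ℕ →₀ ℕ) (a b c : ℕ) (hab : a ≠ b) (hac : a ≠ c) (hbc : b ≠ c) (d : ℕ)
    (ha : D a = 1) (hb : D b = 1) (hc : D c = d) :
    Lpl {s(a, c), s(b, c)} ∧ ({s(a, c), s(b, c)} : Finset (Sym2 ℕ)).card = 2 ∧
      Wt D {s(a, c), s(b, c)} = d ∧ FF D {s(a, c), s(b, c)} = (d : ℝ) * (d - 1) := by
  have hne : s(a, c) ≠ s(b, c) := by
    intro h
    rw [Sym2.eq_iff] at h
    omega
  have ht : tch {s(a, c), s(b, c)} = {a, b, c} := by
    unfold tch
    ext x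
    simp only [Finset.mem_biUnion, Finset.mem_insert, Finset.mem_singleton, Sym2.mem_toFinset,
      exists_eq_or_imp, exists_eq_left, Sym2.mem_iff]
    tauto
  have hd : ∀ v, dg {s(a, c), s(b, c)} v
      = (if v ∈ s(a, c) then 1 else 0) + (if v ∈ s(b, c) then 1 else 0) := Sw.dg_pair _ _ hne
  refine ⟨?_, ?_, ?_, ?_⟩
  · intro e he
    rw [Finset.mem_insert, Finset.mem_singleton] at he
    rcases he with rfl | rfl
    · rw [Sym2.mk_isDiag_iff]; exact hac
    · rw [Sym2.mk_isDiag_iff]; exact hbc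
  · exact Finset.card_pair hne
  · unfold Wt
    rw [ht, Finset.prod_insert (by simp [hab, hac]), Finset.prod_insert (by simp [hbc]),
      Finset.prod_singleton, ha, hb, hc]
    push_cast
    ring
  · unfold FF
    rw [ht, Finset.prod_insert (by simp [hab, hac]), Finset.prod_insert (by simp [hbc]),
      Finset.prod_singleton, ha, hb, hc, hd, hd, hd]
    have e1 : (if a ∈ s(a, c) then 1 else 0) + (if a ∈ s(b, c) then 1 else 0) = 1 := by
      simp [Sym2.mem_iff, hab, hac]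
    have e2 : (if b ∈ s(a, c) then 1 else 0) + (if b ∈ s(b, c) then 1 else 0) = 1 := by
      simp [Sym2.mem_iff, hab.symm, hbc]
    have e3 : (if c ∈ s(a, c) then 1 else 0) + (if c ∈ s(b, c) then 1 else 0) = 2 := by
      simp [Sym2.mem_iff]
    rw [e1, e2, e3]
    rw [Nat.descFactorial_one]
    have : ((d.descFactorial 2 : ℕ) : ℝ) = (d : ℝ) * (d - 1) := by
      rcases d with _ | d
      · simp
      · rw [Nat.succ_descFactorial_succ, Nat.descFactorial_one]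
        push_cast
        ring
    rw [this]
    push_cast
    ring

/-- the path -/
theorem path (D : ℕ →₀ ℕ) (a b c e : ℕ) (hab : a ≠ b) (hac : a ≠ c) (hae : a ≠ e) (hbc : b ≠ c)
    (hbe : b ≠ e) (hce : c ≠ e) (d : ℕ)
    (ha : D a = 1) (hb : D b = 1) (hc : D c = d) (he : D e = d) :
    Lpl {s(a, c), s(b, e), s(c, e)} ∧
      ({s(a, c), s(b, e), s(c, e)} : Finset (Sym2 ℕ)).card = 3 ∧
      Wt D {s(a, c), s(b, e), s(c, e)} = (d : ℝ) ^ 2 ∧
      FF D {s(a, c), s(b, e), s(c, e)} = ((d : ℝ) * (d - 1)) ^ 2 := by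
  have h1 : s(a, c) ≠ s(b, e) := by
    intro h; rw [Sym2.eq_iff] at h; omega
  have h2 : s(a, c) ≠ s(c, e) := by
    intro h; rw [Sym2.eq_iff] at h; omega
  have h3 : s(b, e) ≠ s(c, e) := by
    intro h; rw [Sym2.eq_iff] at h; omega
  have ht : tch {s(a, c), s(b, e), s(c, e)} = {a, b, c, e} := by
    unfold tch
    ext x
    simp only [Finset.mem_biUnion, Finset.mem_insert, Finset.mem_singleton, Sym2.mem_toFinset,
      exists_eq_or_imp, exists_eq_left, Sym2.mem_iff]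
    tauto
  have hd : ∀ v, dg {s(a, c), s(b, e), s(c, e)} v
      = (if v ∈ s(a, c) then 1 else 0)
        + ((if v ∈ s(b, e) then 1 else 0) + (if v ∈ s(c, e) then 1 else 0)) := by
    intro v
    have h4 : ({s(a, c), s(b, e), s(c, e)} : Finset (Sym2 ℕ)) = {s(a, c)} ∪ {s(b, e), s(c, e)} := by
      rw [Finset.insert_eq]
    rw [h4, Sw.dg_union, Sw.dg_single, Sw.dg_pair _ _ h3]
    rw [Finset.disjoint_singleton_left]
    simp [h1, h2]
  refine ⟨?_, ?_, ?_, ?_⟩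
  · intro f hf
    rw [Finset.mem_insert, Finset.mem_insert, Finset.mem_singleton] at hf
    rcases hf with rfl | rfl | rfl
    · rw [Sym2.mk_isDiag_iff]; exact hac
    · rw [Sym2.mk_isDiag_iff]; exact hbe
    · rw [Sym2.mk_isDiag_iff]; exact hce
  · rw [Finset.card_insert_of_notMem (by simp [h1, h2]), Finset.card_pair h3]
  · unfold Wt
    rw [ht, Finset.prod_insert (by simp [hab, hac, hae]), Finset.prod_insert (by simp [hbc, hbe]),
      Finset.prod_insert (by simp [hce]), Finset.prod_singleton, ha, hb, hc, he]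
    push_cast
    ring
  · unfold FF
    rw [ht, Finset.prod_insert (by simp [hab, hac, hae]), Finset.prod_insert (by simp [hbc, hbe]),
      Finset.prod_insert (by simp [hce]), Finset.prod_singleton, ha, hb, hc, he, hd, hd, hd, hd]
    have e1 : (if a ∈ s(a, c) then 1 else 0)
        + ((if a ∈ s(b, e) then 1 else 0) + (if a ∈ s(c, e) then 1 else 0)) = 1 := by
      simp [Sym2.mem_iff, hab, hac, hae]
    have e2 : (if b ∈ s(a, c) then 1 else 0)
        + ((if b ∈ s(b, e) then 1 else 0) + (if b ∈ s(c, e) then 1 else 0)) = 1 := by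
      simp [Sym2.mem_iff, hab.symm, hbc, hbe]
    have e3 : (if c ∈ s(a, c) then 1 else 0)
        + ((if c ∈ s(b, e) then 1 else 0) + (if c ∈ s(c, e) then 1 else 0)) = 2 := by
      simp [Sym2.mem_iff, hbc.symm, hce]
    have e4 : (if e ∈ s(a, c) then 1 else 0)
        + ((if e ∈ s(b, e) then 1 else 0) + (if e ∈ s(c, e) then 1 else 0)) = 2 := by
      simp [Sym2.mem_iff, hae.symm, hce.symm]
    rw [e1, e2, e3, e4]
    rw [Nat.descFactorial_one]
    have : ((d.descFactorial 2 : ℕ) : ℝ) = (d : ℝ) * (d - 1) := by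
      rcases d with _ | d
      · simp
      · rw [Nat.succ_descFactorial_succ, Nat.descFactorial_one]
        push_cast
        ring
    rw [this]
    push_cast
    ring

set_option maxHeartbeats 1000000 in
/-- the analytic core -/
theorem core (d K1 K2 : ℝ) (hd : 1 ≤ d) (hK1 : 0 ≤ K1) (hK2 : 0 ≤ K2) :
    ∃ C : ℝ, 0 ≤ C ∧ ∀ n M P1 P2 : ℝ, 1 ≤ n → n * d + 2 ≤ M → C ≤ M → 0 ≤ P1 → 0 ≤ P2 →
      |P1 - d * (d - 1) / M ^ 2| ≤ K1 / M ^ 3 →
      (2 ≤ n → |P2 - (d * (d - 1)) ^ 2 / M ^ 3| ≤ K2 / M ^ 4) →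
      (2 ≤ n ∨ n = 1) →
      n * P1 + n * (n - 1) * P2 ≤ 1 / 2 ∧
      |(-Real.log (1 - (n * P1 + n * (n - 1) * P2)))
        - (psi (n * d * (d - 1) / 2) M - psi (n * d * (d - 1) / 2) (M - 2))| ≤ C / M ^ 2 := by
  set K3 := K1 + K2 + d ^ 4 with hK3
  set K4 := d + d ^ 2 + K3 + d ^ 2 with hK4
  have hd4 : 0 ≤ d ^ 4 := by positivity
  have hd2 : 0 ≤ d ^ 2 := by positivity
  refine ⟨4 + 2 * K4 + (K3 + 4 * d ^ 2 + 12 * d ^ 4 + 2 * K4 ^ 2), by positivity, ?_⟩
  intro n M P1 P2 hn hM hC hP1 hP2 h1 h2 hn2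
  have hK3' : 0 ≤ K3 := by positivity
  have hK4' : 0 ≤ K4 := by positivity
  have hM4 : 4 ≤ M := by nlinarith [sq_nonneg K4, sq_nonneg d]
  have hM0 : 0 < M := by linarith
  have hMK : 2 * K4 ≤ M := by nlinarith [sq_nonneg K4, sq_nonneg d]
  have hnM : n ≤ M := by nlinarith
  have hndM : n * d ≤ M := by linarith
  have hn0 : 0 < n := by linarith
  set a := n * d * (d - 1) / 2 with ha
  have ha0 : 0 ≤ a := by
    rw [ha]
    have : 0 ≤ d - 1 := by linarith
    positivity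
  have haM : 2 * a ≤ M * d := by
    rw [ha]
    nlinarith
  set u := n * P1 + n * (n - 1) * P2 with hu
  have hu0 : 0 ≤ u := by
    rw [hu]
    have : 0 ≤ n - 1 := by linarith
    positivity
  -- first term
  have t1 : |n * P1 - 2 * a / M ^ 2| ≤ K1 / M ^ 2 := by
    have e : n * P1 - 2 * a / M ^ 2 = n * (P1 - d * (d - 1) / M ^ 2) := by
      rw [ha]; field_simp
    rw [e, abs_mul, abs_of_pos hn0]
    calc n * |P1 - d * (d - 1) / M ^ 2| ≤ M * (K1 / M ^ 3) := by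
          apply mul_le_mul hnM h1 (abs_nonneg _) hM0.le
      _ = K1 / M ^ 2 := by field_simp
  -- second term
  have t2 : |n * (n - 1) * P2 - 4 * a ^ 2 / M ^ 3| ≤ (K2 + d ^ 4) / M ^ 2 := by
    have e : n * (n - 1) * P2 - 4 * a ^ 2 / M ^ 3
        = n * (n - 1) * (P2 - (d * (d - 1)) ^ 2 / M ^ 3) - n * (d * (d - 1)) ^ 2 / M ^ 3 := by
      rw [ha]; field_simp; ring
    rw [e]
    have b1 : |n * (n - 1) * (P2 - (d * (d - 1)) ^ 2 / M ^ 3)| ≤ K2 / M ^ 2 := by
      rcases hn2 with h | h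
      · have hn1 : 0 ≤ n - 1 := by linarith
        rw [abs_mul, abs_of_nonneg (by positivity : 0 ≤ n * (n - 1))]
        calc n * (n - 1) * |P2 - (d * (d - 1)) ^ 2 / M ^ 3| ≤ (M * M) * (K2 / M ^ 4) := by
              apply mul_le_mul _ (h2 h) (abs_nonneg _) (by positivity)
              apply mul_le_mul hnM (by linarith) hn1 hM0.le
          _ = K2 / M ^ 2 := by field_simp
      · rw [h]
        simp only [sub_self, mul_zero, zero_mul, abs_zero]
        positivity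
    have b2 : |n * (d * (d - 1)) ^ 2 / M ^ 3| ≤ d ^ 4 / M ^ 2 := by
      rw [abs_of_nonneg (by positivity)]
      have : n * (d * (d - 1)) ^ 2 ≤ M * d ^ 4 := by
        apply mul_le_mul hnM _ (by positivity) hM0.le
        have : d * (d - 1) ≤ d ^ 2 := by nlinarith
        calc (d * (d - 1)) ^ 2 ≤ (d ^ 2) ^ 2 := by
              apply pow_le_pow_left₀ _ this
              have : 0 ≤ d - 1 := by linarith
              positivity
          _ = d ^ 4 := by ring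
      calc n * (d * (d - 1)) ^ 2 / M ^ 3 ≤ M * d ^ 4 / M ^ 3 := by gcongr
        _ = d ^ 4 / M ^ 2 := by field_simp
    calc _ ≤ |n * (n - 1) * (P2 - (d * (d - 1)) ^ 2 / M ^ 3)| + |n * (d * (d - 1)) ^ 2 / M ^ 3| :=
          abs_sub _ _
      _ ≤ K2 / M ^ 2 + d ^ 4 / M ^ 2 := add_le_add b1 b2
      _ = _ := by ring
  have t3 : |u - (2 * a / M ^ 2 + 4 * a ^ 2 / M ^ 3)| ≤ K3 / M ^ 2 := by
    have e : u - (2 * a / M ^ 2 + 4 * a ^ 2 / M ^ 3)
        = (n * P1 - 2 * a / M ^ 2) + (n * (n - 1) * P2 - 4 * a ^ 2 / M ^ 3) := by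
      rw [hu]; ring
    rw [e]
    calc _ ≤ |n * P1 - 2 * a / M ^ 2| + |n * (n - 1) * P2 - 4 * a ^ 2 / M ^ 3| := abs_add_le _ _
      _ ≤ K1 / M ^ 2 + (K2 + d ^ 4) / M ^ 2 := add_le_add t1 t2
      _ = _ := by rw [hK3]; ring
  -- size of u
  have a1 : 2 * a / M ^ 2 ≤ d / M := by
    rw [div_le_div_iff₀ (by positivity) hM0]
    nlinarith
  have a2 : 4 * a ^ 2 / M ^ 3 ≤ d ^ 2 / M := by
    rw [div_le_div_iff₀ (by positivity) hM0]
    have : (2 * a) ^ 2 ≤ (M * d) ^ 2 := pow_le_pow_left₀ (by positivity) haM 2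
    calc 4 * a ^ 2 * M = (2 * a) ^ 2 * M := by ring
      _ ≤ (M * d) ^ 2 * M := mul_le_mul_of_nonneg_right this hM0.le
      _ = d ^ 2 * M ^ 3 := by ring
  have a3 : K3 / M ^ 2 ≤ K3 / M := by
    apply div_le_div_of_nonneg_left hK3' hM0
    nlinarith
  have hu4 : u ≤ K4 / M := by
    have := (abs_le.mp t3).2
    have e : K4 / M = d / M + d ^ 2 / M + K3 / M + d ^ 2 / M := by rw [hK4]; ring
    have : 0 ≤ d ^ 2 / M := by positivity
    linarith
  have hu5 : u ≤ 1 / 2 := by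
    have : K4 / M ≤ 1 / 2 := by
      rw [div_le_div_iff₀ hM0 (by norm_num)]
      linarith
    linarith
  refine ⟨hu5, ?_⟩
  have l1 : |(-Real.log (1 - u)) - u| ≤ 2 * K4 ^ 2 / M ^ 2 := by
    have h := Real.abs_log_sub_add_sum_range_le (x := u) (by rw [abs_of_nonneg hu0]; linarith) 1
    rw [Finset.sum_range_one, abs_of_nonneg hu0] at h
    norm_num at h
    have e : (-Real.log (1 - u)) - u = -(u + Real.log (1 - u)) := by ring
    rw [e, abs_neg]
    calc |u + Real.log (1 - u)| ≤ u ^ 2 / (1 - u) := h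
      _ ≤ u ^ 2 / (1 / 2) := by
          apply div_le_div_of_nonneg_left (by positivity) (by norm_num)
          linarith
      _ = 2 * u ^ 2 := by ring
      _ ≤ 2 * (K4 / M) ^ 2 := by
          have := pow_le_pow_left₀ hu0 hu4 2
          linarith
      _ = 2 * K4 ^ 2 / M ^ 2 := by field_simp
  have hM2 : M / 2 ≤ M - 2 := by linarith
  have hM2' : 0 < M - 2 := by linarith
  have l2 : |(psi a M - psi a (M - 2)) - (2 * a / M ^ 2 + 4 * a ^ 2 / M ^ 3)|
      ≤ (4 * d ^ 2 + 12 * d ^ 4) / M ^ 2 := by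
    have hne : M - 2 ≠ 0 := hM2'.ne'
    have e : (psi a M - psi a (M - 2)) - (2 * a / M ^ 2 + 4 * a ^ 2 / M ^ 3)
        = 4 * a / (M ^ 2 * (M - 2)) + 4 * a ^ 2 * (3 * M - 4) / (M ^ 3 * (M - 2) ^ 2) := by
      unfold psi
      field_simp
      ring
    have h3M : 0 ≤ 3 * M - 4 := by linarith
    rw [e, abs_of_nonneg (by positivity)]
    have c1 : 4 * a / (M ^ 2 * (M - 2)) ≤ 4 * d ^ 2 / M ^ 2 := by
      rw [div_le_div_iff₀ (by positivity) (by positivity)]
      have : 4 * a ≤ 4 * d ^ 2 * (M - 2) := by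
        nlinarith
      calc 4 * a * M ^ 2 ≤ (4 * d ^ 2 * (M - 2)) * M ^ 2 := by
            apply mul_le_mul_of_nonneg_right this (by positivity)
        _ = _ := by ring
    have c2 : 4 * a ^ 2 * (3 * M - 4) / (M ^ 3 * (M - 2) ^ 2) ≤ 12 * d ^ 4 / M ^ 2 := by
      rw [div_le_div_iff₀ (by positivity) (by positivity)]
      have k1 : a ≤ (M - 2) * d := by nlinarith
      have k2 : a ^ 2 ≤ ((M - 2) * d) ^ 2 := pow_le_pow_left₀ ha0 k1 2
      have k3 : d ^ 2 ≤ d ^ 4 := by nlinarith [sq_nonneg (d ^ 2 - 1)]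
      calc 4 * a ^ 2 * (3 * M - 4) * M ^ 2 ≤ 4 * ((M - 2) * d) ^ 2 * (3 * M) * M ^ 2 := by
            gcongr
            linarith
        _ = 12 * d ^ 2 * (M ^ 3 * (M - 2) ^ 2) := by ring
        _ ≤ 12 * d ^ 4 * (M ^ 3 * (M - 2) ^ 2) := by gcongr
    calc _ ≤ 4 * d ^ 2 / M ^ 2 + 12 * d ^ 4 / M ^ 2 := add_le_add c1 c2
      _ = _ := by ring
  have e : (-Real.log (1 - u)) - (psi a M - psi a (M - 2))
      = ((-Real.log (1 - u)) - u) + (u - (2 * a / M ^ 2 + 4 * a ^ 2 / M ^ 3))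
        - ((psi a M - psi a (M - 2)) - (2 * a / M ^ 2 + 4 * a ^ 2 / M ^ 3)) := by ring
  rw [e]
  calc _ ≤ |((-Real.log (1 - u)) - u) + (u - (2 * a / M ^ 2 + 4 * a ^ 2 / M ^ 3))|
        + |(psi a M - psi a (M - 2)) - (2 * a / M ^ 2 + 4 * a ^ 2 / M ^ 3)| := abs_sub _ _
    _ ≤ (|(-Real.log (1 - u)) - u| + |u - (2 * a / M ^ 2 + 4 * a ^ 2 / M ^ 3)|)
        + |(psi a M - psi a (M - 2)) - (2 * a / M ^ 2 + 4 * a ^ 2 / M ^ 3)| := by
        gcongr
        exact abs_add_le _ _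
    _ ≤ (2 * K4 ^ 2 / M ^ 2 + K3 / M ^ 2) + (4 * d ^ 2 + 12 * d ^ 4) / M ^ 2 := by
        gcongr
    _ = (K3 + 4 * d ^ 2 + 12 * d ^ 4 + 2 * K4 ^ 2) / M ^ 2 := by ring
    _ ≤ (4 + 2 * K4 + (K3 + 4 * d ^ 2 + 12 * d ^ 4 + 2 * K4 ^ 2)) / M ^ 2 :=
        div_le_div_of_nonneg_right (by linarith) (by positivity)

end LeafStep

open Pool.Agent.RGA.LeafStep in
theorem leafStep_proof (hL0 : Stmt_L0) (hId : Stmt_LeafId) : Stmt_LeafStep := by
  intro d hd
  obtain ⟨C2, hC2⟩ := hL0 2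
  obtain ⟨C3, hC3⟩ := hL0 3
  have hdR : (1 : ℝ) ≤ d := by exact_mod_cast hd
  obtain ⟨C, hC0, hC⟩ := core (d : ℝ) ((C2 : ℝ) * (d : ℝ) ^ C2 * d) ((C3 : ℝ) * (d : ℝ) ^ C3 * d ^ 2)
    hdR (by positivity) (by positivity)
  refine ⟨⌈C⌉₊ + C2 * d ^ C2 + C3 * d ^ C3, ?_⟩
  intro n s hn _ hbig hpos
  obtain ⟨id1, id2⟩ := hId n d s hd
  set D := Dlf n d (s + 2) with hD
  set M : ℝ := (n : ℝ) * d + s + 2 with hM
  have htot : tot D = n * d + (s + 2) := tot_Dlf n d (s + 2)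
  have htotR : (tot D : ℝ) = M := by rw [htot, hM]; push_cast; ring
  have hnR : (1 : ℝ) ≤ n := by exact_mod_cast hn
  have hM2 : (n : ℝ) * d + 2 ≤ M := by
    rw [hM]
    have : (0 : ℝ) ≤ s := Nat.cast_nonneg s
    linarith
  have hMC : (((⌈C⌉₊ + C2 * d ^ C2 + C3 * d ^ C3 : ℕ) : ℕ) : ℝ) ≤ M := by
    have : (((⌈C⌉₊ + C2 * d ^ C2 + C3 * d ^ C3 : ℕ) : ℕ) : ℝ) ≤ ((n * d + s : ℕ) : ℝ) := by
      exact_mod_cast hbig
    rw [hM]
    push_cast at this ⊢
    linarith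
  have hMC' : C ≤ M := by
    refine le_trans (Nat.le_ceil C) (le_trans ?_ hMC)
    exact_mod_cast (by omega : ⌈C⌉₊ ≤ ⌈C⌉₊ + C2 * d ^ C2 + C3 * d ^ C3)
  have hM1 : 0 < M - 1 := by nlinarith
  have hM0 : 0 < M := by linarith
  -- positivity of the new count
  have hnpos : (0 : ℝ) < (N (Dlf n d s) ∅ : ℝ) := by exact_mod_cast hpos
  have hge : (M - 1) * (N (Dlf n d s) ∅ : ℝ) ≤ (N D ∅ : ℝ) := by
    have h1 : (n : ℝ) * d + s + 1 = M - 1 := by rw [hM]; ring
    rw [h1, id1] at id2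
    have h2 : (0 : ℝ) ≤ n * N D {s(n + s, 0), s(n + s + 1, 0)} := by positivity
    have h3 : (0 : ℝ) ≤ n * ((n : ℝ) - 1) * N D {s(n + s, 0), s(n + s + 1, 1), s(0, 1)} := by
      have : (0 : ℝ) ≤ (n : ℝ) - 1 := by linarith
      positivity
    linarith
  have hN0 : (0 : ℝ) < (N D ∅ : ℝ) := lt_of_lt_of_le (by positivity) hge
  have hN0' : 0 < N D ∅ := by exact_mod_cast hN0
  refine ⟨hN0', ?_⟩
  -- L0
  have hΔ : ∀ v, D v ≤ d := fun v => Dlf_le n d (s + 2) v hd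
  have hDa : D (n + s) = 1 := by
    rw [hD, Dlf_apply, if_neg (by omega), if_pos (by omega)]
  have hDb : D (n + s + 1) = 1 := by
    rw [hD, Dlf_apply, if_neg (by omega), if_pos (by omega)]
  have hD0 : D 0 = d := by
    rw [hD, Dlf_apply, if_pos (by omega)]
  have ch := cherry D (n + s) (n + s + 1) 0 (by omega) (by omega) (by omega) d hDa hDb hD0
  have q1 := hC2 D d {s(n + s, 0), s(n + s + 1, 0)} hd hΔ ch.1 ch.2.1 (by rw [htot]; omega) hN0'
  rw [ch.2.2.1, ch.2.2.2, htotR] at q1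
  have q2 : (2 : ℝ) ≤ n →
      |P D {s(n + s, 0), s(n + s + 1, 1), s(0, 1)} - ((d : ℝ) * (d - 1)) ^ 2 / M ^ 3|
        ≤ ((C3 : ℝ) * (d : ℝ) ^ C3 * d ^ 2) / M ^ 4 := by
    intro h
    have h2 : 2 ≤ n := by exact_mod_cast h
    have hD1 : D 1 = d := by
      rw [hD, Dlf_apply, if_pos (by omega)]
    have pa := path D (n + s) (n + s + 1) 0 1 (by omega) (by omega) (by omega) (by omega)
      (by omega) (by omega) d hDa hDb hD0 hD1
    have q := hC3 D d {s(n + s, 0), s(n + s + 1, 1), s(0, 1)} hd hΔ pa.1 pa.2.1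
      (by rw [htot]; omega) hN0'
    rw [pa.2.2.1, pa.2.2.2, htotR] at q
    exact q
  have hn2 : (2 : ℝ) ≤ n ∨ (n : ℝ) = 1 := by
    rcases Nat.lt_or_ge 1 n with h | h
    · left; exact_mod_cast h
    · right; exact_mod_cast (by omega : n = 1)
  obtain ⟨r1, r2⟩ := hC (n : ℝ) M (P D {s(n + s, 0), s(n + s + 1, 0)})
    (P D {s(n + s, 0), s(n + s + 1, 1), s(0, 1)}) hnR hM2 hMC' (P_nonneg _ _) (P_nonneg _ _)
    q1 q2 hn2
  set u := (n : ℝ) * P D {s(n + s, 0), s(n + s + 1, 0)}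
    + n * ((n : ℝ) - 1) * P D {s(n + s, 0), s(n + s + 1, 1), s(0, 1)} with hu
  have key : (M - 1) * (N (Dlf n d s) ∅ : ℝ) = (1 - u) * N D ∅ := by
    have h1 : (n : ℝ) * d + s + 1 = M - 1 := by rw [hM]; ring
    rw [h1, id1] at id2
    rw [id2, hu]
    unfold P
    field_simp
    ring
  have hlog : Real.log (N D ∅) - Real.log (N (Dlf n d s) ∅) - Real.log ((n : ℝ) * d + s + 1)
      = - Real.log (1 - u) := by
    have h1 : (n : ℝ) * d + s + 1 = M - 1 := by rw [hM]; ring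
    have h2 := congrArg Real.log key
    rw [Real.log_mul hM1.ne' hnpos.ne', Real.log_mul (by linarith) hN0.ne'] at h2
    rw [h1]
    linarith
  have hM4 : (n : ℝ) * d + s = M - 2 := by rw [hM]; ring
  rw [hlog, hM4]
  refine le_trans r2 ?_
  apply div_le_div_of_nonneg_right _ (by positivity)
  refine le_trans (Nat.le_ceil C) ?_
  exact_mod_cast (by omega : ⌈C⌉₊ ≤ ⌈C⌉₊ + C2 * d ^ C2 + C3 * d ^ C3)

end Pool.Agent.RGA
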