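import Pool.Agent.RGA.Stmts

/-!
Positivity of the counts and the bound for `rho` (MP_3a123b_co).
-/

set_option autoImplicit false

namespace Pool.Agent.RGA

open Finset

namespace Pos

theorem Dm_apply (n d k v : ℕ) :
    Dm n d k v = if v < 2 then k else if v < n + 2 then d else 0 := rfl

theorem Dm_le {n d k : ℕ} (h : k ≤ d) (v : ℕ) : Dm n d k v ≤ d := by
  rw [Dm_apply]
  split_ifs <;> omega

theorem tot_Dm (n d k : ℕ) : tot (Dm n d k) = n * d + 2 * k := by
  have h1 : tot (Dm n d k) = ∑ v ∈ range (n + 2), Dm n d k v := by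
    refine Finset.sum_subset ?_ ?_
    · intro v hv
      by_contra h
      rw [mem_range, not_lt] at h
      rw [Finsupp.mem_support_iff] at hv
      apply hv
      rw [Dm_apply, if_neg (by omega), if_neg (by omega)]
    · intro v _ hv
      rwa [Finsupp.notMem_support_iff] at hv
  rw [h1, Finset.sum_range_succ', Finset.sum_range_succ']
  have h2 : ∀ i ∈ range n, Dm n d k (i + 1 + 1) = d := by
    intro i hi
    rw [mem_range] at hi
    rw [Dm_apply, if_neg (by omega), if_pos (by omega)]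
  rw [Finset.sum_congr rfl h2]
  simp [Dm_apply]
  ring

theorem tch_01 : tch {s(0, 1)} = {0, 1} := by
  ext v
  simp [tch]

theorem Wt_Dm (n d k : ℕ) : Wt (Dm n d k) {s(0, 1)} = (k : ℝ) * k := by
  rw [Wt, tch_01, Finset.prod_pair (by norm_num)]
  simp [Dm_apply]

theorem Lpl_01 : Lpl {s(0, 1)} := by
  intro e he
  rw [mem_singleton] at he
  subst he
  simp

theorem N_le (D : ℕ →₀ ℕ) (F : Finset (Sym2 ℕ)) : N D F ≤ N D ∅ := by
  refine Finset.card_le_card ?_
  intro G hG
  rw [mem_filter] at hG ⊢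
  exact ⟨hG.1, empty_subset _⟩

end Pos

open Pos

theorem pos_proof (hExi : Stmt_Exi) (hShift : Stmt_Shift) (hAdd : Stmt_Add) (hUB : Stmt_UB) :
    Stmt_Pos := by
  obtain ⟨C, hC⟩ := hUB 1
  refine ⟨2 * C + 2, ?_⟩
  intro n d k hd hk hn hev
  -- size of `n`
  have hdpow : ∀ j ≤ 2 * C + 2, d ^ j ≤ d ^ (2 * C + 2) := fun j hj => Nat.pow_le_pow_right hd hj
  have hn1 : C * d ^ C ≤ n := by
    have := hdpow C (by omega)
    exact (Nat.mul_le_mul (by omega) this).trans hn
  have hn2 : 2 * (C * d ^ C * d ^ 2) ≤ n := by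
    have h1 := hdpow (C + 2) (by omega)
    have h2 : d ^ C * d ^ 2 = d ^ (C + 2) := by rw [pow_add]
    rw [mul_assoc, h2, ← mul_assoc]
    exact (Nat.mul_le_mul (by omega) h1).trans hn
  have hnd : d + 1 ≤ n := by
    have h1 := hdpow 1 (by omega)
    rw [pow_one] at h1
    nlinarith
  have hrho : ∀ j ≤ d, rho n d j ≤ 1 / 2 := by
    intro j hj
    have hb := hC (Dm n d j) d {s(0, 1)} hd (Dm_le hj) Lpl_01 (card_singleton _) (by
      rw [tot_Dm]
      nlinarith)
    rw [Wt_Dm, tot_Dm, pow_one] at hb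
    refine hb.trans ?_
    have h0 : (0 : ℝ) < ((n * d + 2 * j : ℕ) : ℝ) := by
      have : 0 < n * d + 2 * j := Nat.add_pos_left (Nat.mul_pos (by omega) (by omega)) _
      exact_mod_cast this
    rw [div_le_div_iff₀ h0 (by norm_num)]
    have h3 : C * d ^ C * (j * j) * 2 ≤ n * d + 2 * j := by
      have h4 : j * j ≤ d ^ 2 := by nlinarith
      have h5 : C * d ^ C * (j * j) ≤ C * d ^ C * d ^ 2 := Nat.mul_le_mul_left _ h4
      nlinarith
    have h6 : ((C * d ^ C * (j * j) * 2 : ℕ) : ℝ) ≤ ((n * d + 2 * j : ℕ) : ℝ) := by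
      exact_mod_cast h3
    push_cast at h6 ⊢
    linarith
  have hadd : ∀ j, (N (Dm n d (j + 1)) {s(0, 1)} : ℝ)
      = N (Dm n d j) ∅ - N (Dm n d j) {s(0, 1)} := by
    intro j
    refine hAdd (Dm n d j) (Dm n d (j + 1)) 0 1 (by norm_num) ?_
    intro v
    rw [Dm_apply, Dm_apply]
    split_ifs <;> omega
  have hpos : ∀ j ≤ d, 0 < N (Dm n d j) ∅ ∧ (1 ≤ j → 0 < N (Dm n d j) {s(0, 1)}) := by
    intro j
    induction j with
    | zero =>
      intro _
      refine ⟨?_, fun h => by omega⟩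
      rw [(hShift n d).1]
      exact hExi n d hd hnd hev
    | succ j ih =>
      intro hj
      obtain ⟨h1, -⟩ := ih (by omega)
      have h2 := hrho j (by omega)
      have h1' : (0 : ℝ) < N (Dm n d j) ∅ := by exact_mod_cast h1
      rw [rho, P, div_le_div_iff₀ h1' (by norm_num)] at h2
      have h3 := hadd j
      have h4 : (0 : ℝ) < N (Dm n d (j + 1)) {s(0, 1)} := by linarith
      have h5 : 0 < N (Dm n d (j + 1)) {s(0, 1)} := by exact_mod_cast h4
      exact ⟨h5.trans_le (N_le _ _), fun _ => h5⟩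
  refine ⟨(hpos k hk).1, hrho k hk, fun h1 => ?_⟩
  have h2 : (0 : ℝ) < N (Dm n d k) ∅ := by exact_mod_cast (hpos k hk).1
  have h3 : (0 : ℝ) < N (Dm n d k) {s(0, 1)} := by exact_mod_cast (hpos k hk).2 h1
  exact div_pos h3 h2

end Pool.Agent.RGA
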