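import Pool.Agent.RGA.RelAux
import Pool.Agent.RGA.Pos

/-!
LEV0: leading order of `qq` (MP_3a123b_co).
-/

set_option autoImplicit false

namespace Pool.Agent.RGA

open Finset

namespace Lev0

lemma ev_dvs (x : ℝ) (n d k v f : ℕ) (hv : v < n + 2) :
    ev3 x d k (dvs v f) = (Dm n d k v : ℝ) - f := by
  unfold dvs
  rw [ev3_add, ev_dv x n d k v hv, ev3_cst]
  push_cast; ring

lemma ev_fallP (x : ℝ) (n d k v : ℕ) (hv : v < n + 2) (f : ℕ) :
    (Dm n d k v : ℝ) * ev3 x d k (fallP v (f + 1)) = ((Dm n d k v).descFactorial (f + 1) : ℝ) := by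
  induction f with
  | zero => simp [fallP]
  | succ f ih =>
    have h1 : fallP v (f + 1 + 1) = mul3 (dvs v (f + 1)) (fallP v (f + 1)) := rfl
    rw [h1, ev3_mul, ev_dvs x n d k v (f + 1) hv, Nat.descFactorial_succ]
    have h2 : (Dm n d k v : ℝ) * (((Dm n d k v : ℝ) - ((f + 1 : ℕ) : ℝ)) * ev3 x d k (fallP v (f + 1)))
        = ((Dm n d k v : ℝ) - ((f + 1 : ℕ) : ℝ)) * ((Dm n d k v : ℝ) * ev3 x d k (fallP v (f + 1))) := by ring
    rw [h2, ih]
    by_cases hle : f + 1 ≤ Dm n d k v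
    · rw [Nat.cast_mul, Nat.cast_sub hle]
    · push Not at hle
      have h3 : (Dm n d k v).descFactorial (f + 1) = 0 := Nat.descFactorial_eq_zero_iff_lt.mpr hle
      rw [h3]; simp

lemma ev_leadP (x : ℝ) (n d k : ℕ) (L : List (ℕ × ℕ)) (t : ℕ) :
    ev3 x d k (leadP L t) = ∏ v ∈ range t, ev3 x d k (fallP v (dl L v)) := by
  induction t with
  | zero => simp [leadP]
  | succ t ih =>
    have h1 : leadP L (t + 1) = mul3 (fallP t (dl L t)) (leadP L t) := rfl
    rw [h1, ev3_mul, ih, Finset.prod_range_succ, mul_comm]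

/-- `FF = Wt * lead` -/
lemma FF_eq (x : ℝ) {n d k t : ℕ} {L : List (ℕ × ℕ)} (h : okP L t = true) (ht : t ≤ n + 2) :
    FF (Dm n d k) (toF L) = Wt (Dm n d k) (toF L) * ev3 x d k (leadP L t) := by
  have h1 : ev3 x d k (leadP L t) = ∏ v ∈ tch (toF L), ev3 x d k (fallP v (dl L v)) := by
    rw [ev_leadP x n d k L t]
    symm
    refine Finset.prod_subset (fun v hv => mem_range.mpr (tch_lt h v hv)) fun v _ hv => ?_
    have h2 : dl L v = 0 := by
      by_contra h3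
      exact hv ((mem_tch_toF L v).mpr ((dl_pos_iff L v).mp h3))
    rw [h2]
    simp [fallP]
  rw [h1, FF, Wt, ← Finset.prod_mul_distrib]
  refine Finset.prod_congr rfl fun v hv => ?_
  have h2 : dl L v ≠ 0 := (dl_pos_iff L v).mpr ((mem_tch_toF L v).mp hv)
  obtain ⟨f, hf⟩ := Nat.exists_eq_succ_of_ne_zero h2
  have hv' : v < n + 2 := by have := tch_lt h v hv; omega
  rw [dg_toF h, hf]
  exact (ev_fallP x n d k v hv' f).symm

lemma card_toF {L : List (ℕ × ℕ)} {t : ℕ} (h : okP L t = true) : (toF L).card = L.length := by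
  induction L with
  | nil => simp [toF]
  | cons e L ih =>
    have h' := h
    rw [okP_cons] at h'
    obtain ⟨h1, h2, h3, h4⟩ := h'
    rw [toF_cons, Finset.card_insert_of_notMem (sE_not_mem h4 h1 h3), ih h4]
    simp

/-- Bernoulli -/
lemma bern (y : ℝ) (hy : 0 ≤ y) (e : ℕ) : 1 - 1 / (1 + y) ^ e ≤ e * y ∧ 0 ≤ 1 - 1 / (1 + y) ^ e := by
  have h1 : (0 : ℝ) < 1 + y := by linarith
  constructor
  · have h2 : -2 ≤ 1 / (1 + y) - 1 := by
      have : 0 < 1 / (1 + y) := by positivity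
      linarith
    have h3 := one_add_mul_le_pow h2 e
    rw [show (1 : ℝ) + (1 / (1 + y) - 1) = 1 / (1 + y) by ring, one_div_pow] at h3
    have h4 : 1 / (1 + y) - 1 ≥ -y := by
      rw [ge_iff_le, neg_le_sub_iff_le_add, div_add' _ _ _ h1.ne', le_div_iff₀ h1]
      nlinarith
    have h5 : (e : ℝ) * (1 / (1 + y) - 1) ≥ e * (-y) := mul_le_mul_of_nonneg_left h4 (Nat.cast_nonneg _)
    linarith
  · have h2 : 1 ≤ (1 + y) ^ e := one_le_pow₀ (by linarith)
    have h3 : 1 / (1 + y) ^ e ≤ 1 := by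
      rw [div_le_one (by positivity)]; exact h2
    linarith

end Lev0

open Lev0 in
theorem lev0_proof (hL0 : Stmt_L0) (hPos : Stmt_Pos) : Stmt_Lev0 := by
  intro L t hok
  obtain ⟨C, hC⟩ := hL0 L.length
  obtain ⟨A, hA⟩ := hPos
  obtain ⟨B, hB⟩ := poly_bound (leadP L t)
  set e := L.length with he
  refine ⟨t + C + A + B + (C + 2 * e * B + 1), fun n d k hD => ?_⟩
  have hd := hD.dR
  have hn := hD.nR
  have hx := hD.x_pos
  have hk1 := hD.1
  have hkd := hD.2.1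
  have hd1 := hD.d_pos
  set T := t + C + A + B + (C + 2 * e * B + 1) with hT
  have hnT : (T + 1) * d ^ (T + 1) ≤ n := hD.2.2.1
  have hdp : 1 ≤ d ^ (T + 1) := Nat.one_le_pow _ _ hd1
  have htn : t ≤ n + 2 := by nlinarith
  have hAn : A * d ^ A ≤ n := by
    refine le_trans (Nat.mul_le_mul (by omega) (Nat.pow_le_pow_right hd1 (by omega))) hnT
  have hCn : C * d ^ C ≤ n := by
    refine le_trans (Nat.mul_le_mul (by omega) (Nat.pow_le_pow_right hd1 (by omega))) hnT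
  have hN0 : 0 < N (Dm n d k) ∅ := (hA n d k hd1 hkd hAn hD.2.2.2).1
  have htot : tot (Dm n d k) = n * d + 2 * k := Pos.tot_Dm n d k
  have hCt : C * d ^ C ≤ tot (Dm n d k) := by
    rw [htot]
    have : n ≤ n * d := Nat.le_mul_of_pos_right n hd1
    omega
  have key := hC (Dm n d k) d (toF L) hd1 (Pos.Dm_le hkd) (Lpl_toF hok) (card_toF hok) hCt hN0
  have hW := Wt_pos hok htn hk1 hkd
  set W := Wt (Dm n d k) (toF L) with hWdef
  set x := xx n d with hxdef
  set S : ℝ := (tot (Dm n d k) : ℝ) with hS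
  have hnd : (0 : ℝ) < (n : ℝ) * d := by nlinarith
  have hxn : x * ((n : ℝ) * d) = 1 := by
    rw [hxdef]; unfold xx; field_simp
  have hSv : S = (n : ℝ) * d + 2 * k := by rw [hS, htot]; push_cast; ring
  have hSpos : 0 < S := by
    have : (0 : ℝ) ≤ k := Nat.cast_nonneg _
    rw [hSv]; linarith
  have hxS : x * S = 1 + 2 * k * x := by rw [hSv, mul_add, hxn]; ring
  rw [FF_eq x hok htn] at key
  set l := ev3 x d k (leadP L t) with hl
  have hBl : |l| ≤ B * (d : ℝ) ^ B := hB n d k (hD.mono (by omega))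
  -- divide by `W x^e`
  have hden : 0 < W * x ^ e := by positivity
  have q1 : qq L n d k = P (Dm n d k) (toF L) / (W * x ^ e) := rfl
  have y0 : 0 ≤ 2 * k * x := by positivity
  obtain ⟨b1, b2⟩ := bern (2 * k * x) y0 e
  have e1 : qq L n d k - l = (P (Dm n d k) (toF L) - W * l / S ^ e) / (W * x ^ e)
      - l * (1 - 1 / (1 + 2 * k * x) ^ e) := by
    rw [q1, ← hxS, mul_pow]
    field_simp
    ring
  have n1 : |(P (Dm n d k) (toF L) - W * l / S ^ e) / (W * x ^ e)| ≤ C * (d : ℝ) ^ C * x := by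
    rw [abs_div, abs_of_pos hden, div_le_iff₀ hden]
    refine key.trans ?_
    rw [div_le_iff₀ (by positivity)]
    have hxS1 : 1 ≤ x * S := by rw [hxS]; linarith
    have h1 : 1 ≤ (x * S) ^ (e + 1) := one_le_pow₀ hxS1
    calc (C : ℝ) * (d : ℝ) ^ C * W = (C : ℝ) * (d : ℝ) ^ C * W * 1 := by ring
      _ ≤ (C : ℝ) * (d : ℝ) ^ C * W * (x * S) ^ (e + 1) := mul_le_mul_of_nonneg_left h1 (by positivity)
      _ = C * (d : ℝ) ^ C * x * (W * x ^ e) * S ^ (e + 1) := by rw [mul_pow]; ring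
  have n2 : |l * (1 - 1 / (1 + 2 * k * x) ^ e)| ≤ (B * (d : ℝ) ^ B) * (e * (2 * k * x)) := by
    rw [abs_mul, abs_of_nonneg b2]
    exact mul_le_mul hBl b1 b2 (by positivity)
  have hkd' : (k : ℝ) ≤ d := hD.kd
  have n3 : (B * (d : ℝ) ^ B) * (e * (2 * k * x)) ≤ 2 * e * B * (d : ℝ) ^ (B + 1) * x := by
    calc (B * (d : ℝ) ^ B) * (e * (2 * k * x)) = (2 * e * B * (d : ℝ) ^ B * x) * k := by ring
      _ ≤ (2 * e * B * (d : ℝ) ^ B * x) * d := mul_le_mul_of_nonneg_left hkd' (by positivity)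
      _ = _ := by ring
  have p1 : (d : ℝ) ^ C ≤ (d : ℝ) ^ T := pow_le_pow_right₀ hd (by omega)
  have p2 : (d : ℝ) ^ (B + 1) ≤ (d : ℝ) ^ T := pow_le_pow_right₀ hd (by omega)
  have m1 : (C : ℝ) * (d : ℝ) ^ C * x ≤ C * (d : ℝ) ^ T * x :=
    mul_le_mul_of_nonneg_right (mul_le_mul_of_nonneg_left p1 (Nat.cast_nonneg _)) hx.le
  have m2 : 2 * e * B * (d : ℝ) ^ (B + 1) * x ≤ 2 * e * B * (d : ℝ) ^ T * x :=
    mul_le_mul_of_nonneg_right (mul_le_mul_of_nonneg_left p2 (by positivity)) hx.le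
  have m3 : (C : ℝ) * (d : ℝ) ^ T * x + 2 * e * B * (d : ℝ) ^ T * x ≤ T * (d : ℝ) ^ T * x := by
    have hc : (C : ℝ) + 2 * e * B ≤ T := by
      rw [hT]; push_cast
      have a1 : (0 : ℝ) ≤ t := Nat.cast_nonneg _
      have a2 : (0 : ℝ) ≤ A := Nat.cast_nonneg _
      have a3 : (0 : ℝ) ≤ B := Nat.cast_nonneg _
      have a4 : (0 : ℝ) ≤ C := Nat.cast_nonneg _
      linarith
    have hp : 0 ≤ (d : ℝ) ^ T * x := by positivity
    nlinarith [mul_le_mul_of_nonneg_right hc hp]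
  rw [pow_one, e1]
  refine (abs_sub _ _).trans ?_
  linarith

end Pool.Agent.RGA
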