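import Pool.Agent.RGA.Stmts

/-!
MP_3a123b_co: the logarithm of `M (n, d)`.
-/

set_option autoImplicit false

namespace Pool.Agent.RGA.LogM

open Finset

lemma log_choose {n d : ℕ} (hn : d + 1 ≤ n) :
    Real.log ((n - 1).choose d : ℝ)
      = ∑ i ∈ Finset.Icc 1 d, Real.log ((n : ℝ) - i) - Real.log (d.factorial : ℝ) := by
  have h1 : (((n - 1).descFactorial d : ℕ) : ℝ)
      = (d.factorial : ℝ) * ((n - 1).choose d : ℝ) := by
    exact_mod_cast Nat.descFactorial_eq_factorial_mul_choose (n - 1) d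
  have h2 : ∀ e : ℕ, e + 1 ≤ n →
      (((n - 1).descFactorial e : ℕ) : ℝ) = ∏ i ∈ Finset.Icc 1 e, ((n : ℝ) - i) := by
    intro e
    induction e with
    | zero => intro _; simp
    | succ e ih =>
      intro he
      rw [Nat.descFactorial_succ, Nat.cast_mul, ih (by omega),
        Finset.prod_Icc_succ_top (by omega), mul_comm]
      congr 1
      have h : n - 1 - e = n - (e + 1) := by omega
      rw [h, Nat.cast_sub (by omega)]
  have hpos : ∀ i ∈ Finset.Icc 1 d, ((n : ℝ) - i) ≠ 0 := by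
    intro i hi
    rw [Finset.mem_Icc] at hi
    have h3 : (i : ℝ) + 1 ≤ n := by exact_mod_cast (by omega : i + 1 ≤ n)
    intro h4
    linarith
  have hc : ((n - 1).choose d : ℝ) ≠ 0 := by
    have h5 : 0 < (n - 1).choose d := Nat.choose_pos (by omega)
    exact_mod_cast h5.ne'
  have hf : (d.factorial : ℝ) ≠ 0 := by exact_mod_cast (Nat.factorial_pos d).ne'
  have h6 : Real.log (((n - 1).descFactorial d : ℕ) : ℝ)
      = ∑ i ∈ Finset.Icc 1 d, Real.log ((n : ℝ) - i) := by
    rw [h2 d hn, Real.log_prod hpos]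
  rw [h1, Real.log_mul hf hc] at h6
  linarith

lemma log_Mnd {n d : ℕ} (hd : 1 ≤ d) (hn : d + 2 ≤ n) :
    Real.log (Mnd n d)
      = (1 / 2) * Real.log 2
        + n * (∑ i ∈ Finset.Icc 1 d, Real.log ((n : ℝ) - i) - Real.log (d.factorial : ℝ))
        + ((n : ℝ) * d / 2) * (Real.log d - Real.log ((n : ℝ) - 1))
        + ((n : ℝ) * ((n : ℝ) - 1 - d) / 2)
            * (Real.log ((n : ℝ) - 1 - d) - Real.log ((n : ℝ) - 1))
        + S7 n d := by
  have hd' : (1 : ℝ) ≤ d := by exact_mod_cast hd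
  have hn' : (d : ℝ) + 2 ≤ n := by exact_mod_cast hn
  have hn1 : (0 : ℝ) < (n : ℝ) - 1 := by linarith
  have hnd : (0 : ℝ) < (n : ℝ) - 1 - d := by linarith
  have hlam : 0 < lam n d := by
    unfold lam
    positivity
  have h1lam : 1 - lam n d = ((n : ℝ) - 1 - d) / ((n : ℝ) - 1) := by
    unfold lam
    field_simp
  have h1lam' : 0 < 1 - lam n d := by
    rw [h1lam]
    positivity
  have hc : (0 : ℝ) < ((n - 1).choose d : ℝ) := by
    have h5 : 0 < (n - 1).choose d := Nat.choose_pos (by omega)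
    exact_mod_cast h5
  have hs : (0 : ℝ) < Real.sqrt 2 := by positivity
  have e1 : lam n d * (n.choose 2 : ℝ) = (n : ℝ) * d / 2 := by
    rw [Nat.cast_choose_two]
    unfold lam
    field_simp
  have e2 : (1 - lam n d) * (n.choose 2 : ℝ) = (n : ℝ) * ((n : ℝ) - 1 - d) / 2 := by
    rw [Nat.cast_choose_two, h1lam]
    field_simp
  have hB : Real.log (Bnd n d) = (1 / 2) * Real.log 2
        + n * (∑ i ∈ Finset.Icc 1 d, Real.log ((n : ℝ) - i) - Real.log (d.factorial : ℝ))
        + ((n : ℝ) * d / 2) * (Real.log d - Real.log ((n : ℝ) - 1))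
        + ((n : ℝ) * ((n : ℝ) - 1 - d) / 2)
            * (Real.log ((n : ℝ) - 1 - d) - Real.log ((n : ℝ) - 1)) := by
    unfold Bnd
    rw [e1, e2]
    have p1 : (0 : ℝ) < (lam n d) ^ ((n : ℝ) * d / 2) := Real.rpow_pos_of_pos hlam _
    have p2 : (0 : ℝ) < (1 - lam n d) ^ ((n : ℝ) * ((n : ℝ) - 1 - d) / 2) :=
      Real.rpow_pos_of_pos h1lam' _
    have p3 : (0 : ℝ) < ((n - 1).choose d : ℝ) ^ n := by positivity
    rw [Real.log_mul (by positivity) p2.ne', Real.log_mul (by positivity) p1.ne',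
      Real.log_mul hs.ne' p3.ne', Real.log_rpow hlam, Real.log_rpow h1lam', Real.log_pow,
      log_choose (by omega), h1lam, Real.log_div hnd.ne' hn1.ne', Real.log_sqrt (by norm_num)]
    have : Real.log (lam n d) = Real.log d - Real.log ((n : ℝ) - 1) := by
      unfold lam
      rw [Real.log_div (by linarith) hn1.ne']
    rw [this]
    ring
  have hBpos : Bnd n d ≠ 0 := by
    unfold Bnd
    have p1 : (0 : ℝ) < (lam n d) ^ (lam n d * (n.choose 2 : ℝ)) := Real.rpow_pos_of_pos hlam _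
    have p2 : (0 : ℝ) < (1 - lam n d) ^ ((1 - lam n d) * (n.choose 2 : ℝ)) :=
      Real.rpow_pos_of_pos h1lam' _
    positivity
  unfold Mnd
  rw [Real.log_mul hBpos (Real.exp_pos _).ne', Real.log_exp, hB]

/-- telescoping -/
lemma sum_shift {n : ℕ} (d : ℕ) (hn : d + 2 ≤ n) :
    ∑ i ∈ Finset.Icc 1 d, Real.log (((n + 2 : ℕ) : ℝ) - i)
      = ∑ i ∈ Finset.Icc 1 d, Real.log ((n : ℝ) - i) + Real.log ((n : ℝ) + 1) + Real.log n
        - Real.log ((n : ℝ) - d) - Real.log ((n : ℝ) + 1 - d) := by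
  induction d with
  | zero => simp
  | succ d ih =>
    rw [Finset.sum_Icc_succ_top (by omega), Finset.sum_Icc_succ_top (by omega), ih (by omega)]
    push_cast
    have e1 : (n : ℝ) + 2 - (d + 1) = (n : ℝ) + 1 - d := by ring
    have e2 : (n : ℝ) + 1 - (d + 1) = (n : ℝ) - d := by ring
    rw [e1, e2]
    ring

lemma log_factorial (d : ℕ) :
    Real.log (d.factorial : ℝ) = ∑ k ∈ Finset.Icc 1 d, Real.log (k : ℝ) := by
  induction d with
  | zero => simp
  | succ d ih =>
    rw [Finset.sum_Icc_succ_top (by omega), ← ih, Nat.factorial_succ, Nat.cast_mul,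
      Real.log_mul (by positivity) (by positivity), add_comm]

end Pool.Agent.RGA.LogM
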