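import Pool.Agent.RGA.LogM

/-!
MP_3a123b_co: MINF, the limit of `log M (n, d)` for fixed `d` (Stirling).
-/

set_option autoImplicit false

namespace Pool.Agent.RGA.MInf

open Finset Filter Topology

open scoped Nat

lemma log_doubleFactorial (m : ℕ) (hm : 1 ≤ m) :
    Real.log ((2 * m - 1)‼ : ℝ)
      = Real.log (Stirling.stirlingSeq (2 * m)) - Real.log (Stirling.stirlingSeq m)
        + (1 / 2) * Real.log 2 + m * Real.log (2 * m) - m := by
  have h1 : (2 * m)! = (2 ^ m * m !) * (2 * m - 1)‼ := by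
    have h := Nat.factorial_eq_mul_doubleFactorial (2 * m - 1)
    have e : 2 * m - 1 + 1 = 2 * m := by omega
    rw [e, Nat.doubleFactorial_two_mul] at h
    exact h
  have hm' : (0 : ℝ) < m := by exact_mod_cast hm
  have h2 : Real.log ((2 * m)! : ℝ) = m * Real.log 2 + Real.log (m ! : ℝ)
      + Real.log ((2 * m - 1)‼ : ℝ) := by
    rw [h1]
    push_cast
    have a1 : (m ! : ℝ) ≠ 0 := by exact_mod_cast (Nat.factorial_pos m).ne'
    have a2 : ((2 * m - 1)‼ : ℝ) ≠ 0 := by exact_mod_cast (Nat.doubleFactorial_pos _).ne'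
    rw [Real.log_mul (by positivity) a2, Real.log_mul (by positivity) a1, Real.log_pow]
  have h3 := Stirling.log_stirlingSeq_formula (2 * m)
  have h4 := Stirling.log_stirlingSeq_formula m
  rw [h2] at h3
  push_cast at h3
  rw [Real.log_div (by positivity) (Real.exp_pos _).ne', Real.log_exp] at h3 h4
  have e1 : Real.log (2 * (2 * (m : ℝ))) = Real.log 2 + Real.log (2 * m) := by
    rw [Real.log_mul (by norm_num) (by positivity)]
  have e2 : Real.log (2 * (m : ℝ)) = Real.log 2 + Real.log m := by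
    rw [Real.log_mul (by norm_num) (by positivity)]
  rw [e1, e2] at h3
  rw [e2] at h4
  rw [h3, h4, e2]
  ring

/-- `1 / n → 0` -/
lemma y_lim : Tendsto (fun n : ℕ => (1 : ℝ) / n) atTop (𝓝 0) :=
  tendsto_const_div_atTop_nhds_zero_nat 1

/-- `n (log (n - i) - log n) → - i` -/
lemma t1_lim (i : ℕ) :
    Tendsto (fun n : ℕ => (n : ℝ) * (Real.log ((n : ℝ) - i) - Real.log n)) atTop (𝓝 (-(i : ℝ))) := by
  rw [← tendsto_sub_nhds_zero_iff]
  have hb : Tendsto (fun n : ℕ => (i : ℝ) ^ 2 * (1 / n) / (1 - i * (1 / (n : ℝ)))) atTop (𝓝 0) := by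
    have h : Tendsto (fun n : ℕ => (i : ℝ) ^ 2 * (1 / n) / (1 - i * (1 / (n : ℝ)))) atTop
        (𝓝 ((i : ℝ) ^ 2 * 0 / (1 - (i : ℝ) * 0))) :=
      ((y_lim.const_mul ((i : ℝ) ^ 2)).div
        ((y_lim.const_mul (i : ℝ)).const_sub (1 : ℝ)) (by norm_num))
    simpa using h
  refine squeeze_zero_norm' ?_ hb
  filter_upwards [eventually_gt_atTop i] with n hn
  have hn' : (i : ℝ) < n := by exact_mod_cast hn
  have hi : (0 : ℝ) ≤ i := Nat.cast_nonneg _
  have hn0 : (0 : ℝ) < n := by linarith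
  have hx : |(i : ℝ) / n| < 1 := by
    rw [abs_of_nonneg (by positivity), div_lt_one hn0]
    exact hn'
  have h := Real.abs_log_sub_add_sum_range_le hx 1
  simp only [Finset.sum_range_one, zero_add, pow_one, Nat.cast_zero, div_one] at h
  have hl : Real.log (1 - (i : ℝ) / n) = Real.log ((n : ℝ) - i) - Real.log n := by
    rw [← Real.log_div (by linarith) hn0.ne']
    congr 1
    field_simp
  rw [hl, abs_of_nonneg (a := (i : ℝ) / n) (by positivity)] at h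
  rw [Real.norm_eq_abs]
  have e1 : (n : ℝ) * (Real.log ((n : ℝ) - i) - Real.log n) - -(i : ℝ)
      = n * ((i : ℝ) / n + (Real.log ((n : ℝ) - i) - Real.log n)) := by
    field_simp
    ring
  rw [e1, abs_mul, abs_of_pos hn0]
  have h1 : (1 : ℝ) - i / n ≠ 0 := by
    have : (i : ℝ) / n < 1 := by rw [div_lt_one hn0]; exact hn'
    linarith
  calc (n : ℝ) * |(i : ℝ) / n + (Real.log ((n : ℝ) - i) - Real.log n)|
      ≤ n * (((i : ℝ) / n) ^ (1 + 1) / (1 - (i : ℝ) / n)) := by gcongr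
    _ = (i : ℝ) ^ 2 * (1 / n) / (1 - i * (1 / (n : ℝ))) := by
      rw [mul_one_div]
      have h2 : (n : ℝ) - i ≠ 0 := by linarith
      have h3 : (1 : ℝ) - i / n = ((n : ℝ) - i) / n := by field_simp
      rw [h3, show (1 + 1 : ℕ) = 2 from rfl]
      field_simp

/-- `n d / 2 + (n (n - 1 - d) / 2) (log (n - 1 - d) - log (n - 1)) → d² / 4` -/
lemma t3_lim (d : ℕ) :
    Tendsto (fun n : ℕ => (n : ℝ) * d / 2 + ((n : ℝ) * ((n : ℝ) - 1 - d) / 2)
            * (Real.log ((n : ℝ) - 1 - d) - Real.log ((n : ℝ) - 1))) atTop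
      (𝓝 ((d : ℝ) ^ 2 / 4)) := by
  have hy := y_lim
  have hy1 : Tendsto (fun n : ℕ => 1 - (1 : ℝ) / n) atTop (𝓝 1) := by
    simpa using hy.const_sub (1 : ℝ)
  have hx : Tendsto (fun n : ℕ => (d : ℝ) * (1 / n) / (1 - (1 : ℝ) / n)) atTop (𝓝 0) := by
    have h : Tendsto (fun n : ℕ => (d : ℝ) * (1 / n) / (1 - (1 : ℝ) / n)) atTop
        (𝓝 ((d : ℝ) * 0 / 1)) := (hy.const_mul (d : ℝ)).div hy1 one_ne_zero
    simpa using h
  have hmain : Tendsto (fun n : ℕ => (1 / (1 - (1 : ℝ) / n)) * ((d : ℝ) ^ 2 / 4)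
      * (1 + (d : ℝ) * (1 / n) / (1 - (1 : ℝ) / n))) atTop (𝓝 ((d : ℝ) ^ 2 / 4)) := by
    have h := ((tendsto_const_nhds (x := (1 : ℝ))).div hy1 one_ne_zero).mul_const
      ((d : ℝ) ^ 2 / 4) |>.mul (hx.const_add 1)
    simpa using h
  have herr : Tendsto (fun n : ℕ => (d : ℝ) ^ 3 * (1 / n) / (2 * (1 - (1 : ℝ) / n) ^ 2)) atTop
      (𝓝 0) := by
    have h : Tendsto (fun n : ℕ => (d : ℝ) ^ 3 * (1 / n) / (2 * (1 - (1 : ℝ) / n) ^ 2)) atTop
        (𝓝 ((d : ℝ) ^ 3 * 0 / (2 * 1 ^ 2))) :=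
      (hy.const_mul ((d : ℝ) ^ 3)).div ((hy1.pow 2).const_mul 2) (by norm_num)
    simpa using h
  have hdiff : Tendsto (fun n : ℕ => ((n : ℝ) * d / 2 + ((n : ℝ) * ((n : ℝ) - 1 - d) / 2)
            * (Real.log ((n : ℝ) - 1 - d) - Real.log ((n : ℝ) - 1)))
      - (1 / (1 - (1 : ℝ) / n)) * ((d : ℝ) ^ 2 / 4)
      * (1 + (d : ℝ) * (1 / n) / (1 - (1 : ℝ) / n))) atTop (𝓝 0) := by
    refine squeeze_zero_norm' ?_ herr
    filter_upwards [eventually_gt_atTop (d + 2)] with n hn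
    have hn' : (d : ℝ) + 2 < n := by exact_mod_cast hn
    have hd0 : (0 : ℝ) ≤ d := Nat.cast_nonneg _
    have hn0 : (0 : ℝ) < n := by linarith
    have hn1 : (0 : ℝ) < (n : ℝ) - 1 := by linarith
    have hnd : (0 : ℝ) < (n : ℝ) - 1 - d := by linarith
    have hxx : |(d : ℝ) / ((n : ℝ) - 1)| < 1 := by
      rw [abs_of_nonneg (by positivity), div_lt_one hn1]
      linarith
    have h := Real.abs_log_sub_add_sum_range_le hxx 2
    rw [Finset.sum_range_succ, Finset.sum_range_one] at h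
    norm_num at h
    have hl : Real.log (1 - (d : ℝ) / ((n : ℝ) - 1))
        = Real.log ((n : ℝ) - 1 - d) - Real.log ((n : ℝ) - 1) := by
      rw [← Real.log_div hnd.ne' hn1.ne']
      congr 1
      field_simp
    rw [hl, abs_of_nonneg (a := (d : ℝ) / ((n : ℝ) - 1)) (by positivity)] at h
    rw [Real.norm_eq_abs]
    have h1x : (1 : ℝ) - d / ((n : ℝ) - 1) = ((n : ℝ) - 1 - d) / ((n : ℝ) - 1) := by
      field_simp
    rw [h1x] at h
    have e0 : (1 : ℝ) - 1 / n = ((n : ℝ) - 1) / n := by field_simp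
    have e1 : ((n : ℝ) * d / 2 + ((n : ℝ) * ((n : ℝ) - 1 - d) / 2)
            * (Real.log ((n : ℝ) - 1 - d) - Real.log ((n : ℝ) - 1)))
      - (1 / (1 - (1 : ℝ) / n)) * ((d : ℝ) ^ 2 / 4)
      * (1 + (d : ℝ) * (1 / n) / (1 - (1 : ℝ) / n))
      = ((n : ℝ) * ((n : ℝ) - 1 - d) / 2) * ((d : ℝ) / ((n : ℝ) - 1) + ((d : ℝ) / ((n : ℝ) - 1)) ^ 2 / 2
          + (Real.log ((n : ℝ) - 1 - d) - Real.log ((n : ℝ) - 1))) := by
      rw [e0]
      generalize Real.log ((n : ℝ) - 1 - d) - Real.log ((n : ℝ) - 1) = L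
      field_simp
      ring
    rw [e1, abs_mul, abs_of_pos (by positivity)]
    calc ((n : ℝ) * ((n : ℝ) - 1 - d) / 2) * |(d : ℝ) / ((n : ℝ) - 1) + ((d : ℝ) / ((n : ℝ) - 1)) ^ 2 / 2
          + (Real.log ((n : ℝ) - 1 - d) - Real.log ((n : ℝ) - 1))|
        ≤ ((n : ℝ) * ((n : ℝ) - 1 - d) / 2)
          * (((d : ℝ) / ((n : ℝ) - 1)) ^ 3 / (((n : ℝ) - 1 - d) / ((n : ℝ) - 1))) := by
          gcongr
      _ = (d : ℝ) ^ 3 * (1 / n) / (2 * (1 - (1 : ℝ) / n) ^ 2) := by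
        rw [e0]
        field_simp
  have h := hdiff.add hmain
  simpa using h

/-- `Λ n → d` -/
lemma Lam_lim (d : ℕ) : Tendsto (fun n : ℕ => Lam n d * n) atTop (𝓝 (d : ℝ)) := by
  have hy := y_lim
  have hy1 : Tendsto (fun n : ℕ => 1 - (1 : ℝ) / n) atTop (𝓝 1) := by
    simpa using hy.const_sub (1 : ℝ)
  have hx : Tendsto (fun n : ℕ => (d : ℝ) * (1 / n) / (1 - (1 : ℝ) / n)) atTop (𝓝 0) := by
    have h : Tendsto (fun n : ℕ => (d : ℝ) * (1 / n) / (1 - (1 : ℝ) / n)) atTop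
        (𝓝 ((d : ℝ) * 0 / 1)) := (hy.const_mul (d : ℝ)).div hy1 one_ne_zero
    simpa using h
  have h : Tendsto (fun n : ℕ => (d : ℝ) / (1 - (1 : ℝ) / n)
      * (1 - (d : ℝ) * (1 / n) / (1 - (1 : ℝ) / n))) atTop (𝓝 (d : ℝ)) := by
    have h := ((tendsto_const_nhds (x := (d : ℝ))).div hy1 one_ne_zero).mul (hx.const_sub 1)
    simpa using h
  refine h.congr' ?_
  filter_upwards [eventually_gt_atTop 2] with n hn
  have hn' : (2 : ℝ) < n := by exact_mod_cast hn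
  have hn0 : (0 : ℝ) < n := by linarith
  have hn1 : (n : ℝ) - 1 ≠ 0 := by linarith
  have e0 : (1 : ℝ) - 1 / n = ((n : ℝ) - 1) / n := by field_simp
  rw [e0]
  unfold Lam lam
  field_simp

/-- `S7 → 1 / 4` -/
lemma S7_lim (d : ℕ) (hd : 1 ≤ d) : Tendsto (fun n : ℕ => S7 n d) atTop (𝓝 (1 / 4 : ℝ)) := by
  have hd' : (d : ℝ) ≠ 0 := by exact_mod_cast (by omega : d ≠ 0)
  have hy := y_lim
  have hL := Lam_lim d
  have hw : Tendsto (fun n : ℕ => 1 / (Lam n d * n)) atTop (𝓝 (1 / (d : ℝ))) :=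
    (tendsto_const_nhds (x := (1 : ℝ))).div hL hd'
  have hcont : Continuous (fun p : ℝ × ℝ => (1 : ℝ) / 4 - p.2 / 4 + (2 * p.1 * p.2 - 23 * p.2 ^ 2) / 24
      + (22 * p.1 * p.2 ^ 2 - 129 * p.2 ^ 3) / 24
      + (-3 * p.1 ^ 2 * p.2 ^ 2 + 115 * p.1 * p.2 ^ 3 - 483 * p.2 ^ 4) / 12
      + (-375 * p.1 ^ 2 * p.2 ^ 3 + 6615 * p.1 * p.2 ^ 4 - 22097 * p.2 ^ 5) / 60
      + (1046 * p.1 ^ 3 * p.2 ^ 3 - 87318 * p.1 ^ 2 * p.2 ^ 4 + 1002900 * p.1 * p.2 ^ 5
        - 2791541 * p.2 ^ 6) / 720) := by fun_prop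
  have h := (hcont.tendsto (1 / (d : ℝ), (0 : ℝ))).comp (hw.prodMk_nhds hy)
  have e : ((1 : ℝ) / 4 - (0 : ℝ) / 4 + (2 * (1 / (d : ℝ)) * 0 - 23 * 0 ^ 2) / 24
      + (22 * (1 / (d : ℝ)) * 0 ^ 2 - 129 * 0 ^ 3) / 24
      + (-3 * (1 / (d : ℝ)) ^ 2 * 0 ^ 2 + 115 * (1 / (d : ℝ)) * 0 ^ 3 - 483 * 0 ^ 4) / 12
      + (-375 * (1 / (d : ℝ)) ^ 2 * 0 ^ 3 + 6615 * (1 / (d : ℝ)) * 0 ^ 4 - 22097 * 0 ^ 5) / 60
      + (1046 * (1 / (d : ℝ)) ^ 3 * 0 ^ 3 - 87318 * (1 / (d : ℝ)) ^ 2 * 0 ^ 4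
        + 1002900 * (1 / (d : ℝ)) * 0 ^ 5 - 2791541 * 0 ^ 6) / 720) = 1 / 4 := by norm_num
  simp only [e] at h
  refine h.congr' ?_
  have hLpos : ∀ᶠ n : ℕ in atTop, 0 < Lam n d * n :=
    hL.eventually (lt_mem_nhds (by positivity : (0 : ℝ) < d))
  filter_upwards [eventually_gt_atTop 2, hLpos] with n hn hLn
  have hn' : (2 : ℝ) < n := by exact_mod_cast hn
  have hn0 : (n : ℝ) ≠ 0 := by linarith
  have hL0 : Lam n d ≠ 0 := by
    intro h0
    rw [h0, zero_mul] at hLn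
    exact lt_irrefl _ hLn
  simp only [Function.comp]
  unfold S7
  have hI : Finset.Icc 1 7 = {1, 2, 3, 4, 5, 6, 7} := by decide
  rw [hI]
  simp only [Finset.sum_insert, Finset.mem_insert, Finset.mem_singleton, Finset.sum_singleton, pj]
  norm_num
  generalize Lam n d = L at *
  generalize (n : ℝ) = m at *
  field_simp
  ring

end Pool.Agent.RGA.MInf

namespace Pool.Agent.RGA

open Finset Filter Topology MInf LogM

open scoped Nat

theorem mInf_proof : Stmt_MInf := by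
  intro d hd ε hε
  have hd' : (1 : ℝ) ≤ d := by exact_mod_cast hd
  -- the Stirling part
  have hst : Tendsto (fun n : ℕ => Real.log (Stirling.stirlingSeq n)) atTop
      (𝓝 (Real.log (Real.sqrt Real.pi))) := by
    refine Tendsto.log Stirling.tendsto_stirlingSeq_sqrt_pi ?_
    positivity
  have h2m : Tendsto (fun m : ℕ => 2 * m) atTop atTop :=
    tendsto_id.const_mul_atTop' (by norm_num)
  have hst2 : Tendsto (fun m : ℕ => Real.log (Stirling.stirlingSeq (2 * m))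
      - Real.log (Stirling.stirlingSeq m)) atTop (𝓝 0) := by
    have := (hst.comp h2m).sub hst
    simpa using this
  have hmn : Tendsto (fun n : ℕ => n * d / 2) atTop atTop := by
    refine tendsto_atTop_mono' atTop (f₁ := fun n => n / 2) ?_ ?_
    · filter_upwards with n
      exact Nat.div_le_div_right (Nat.le_mul_of_pos_right n (by omega))
    · exact Nat.tendsto_div_const_atTop (by norm_num)
  have hst3 := hst2.comp hmn
  -- everything else
  have hsum : Tendsto (fun n : ℕ => ∑ i ∈ Finset.Icc 1 d, (n : ℝ) * (Real.log ((n : ℝ) - i) - Real.log n))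
      atTop (𝓝 (∑ i ∈ Finset.Icc 1 d, (-(i : ℝ)))) :=
    tendsto_finset_sum _ (fun i _ => t1_lim i)
  have hone := (t1_lim 1).const_mul (-(d : ℝ) / 2)
  have htot := (((((hsum.add hone).add (t3_lim d)).add (S7_lim d hd)).sub hst3).add_const
    (((d : ℝ) ^ 2 - 1) / 4))
  have hval : (∑ i ∈ Finset.Icc 1 d, (-(i : ℝ))) + -(d : ℝ) / 2 * -((1 : ℕ) : ℝ) + (d : ℝ) ^ 2 / 4 + 1 / 4
      - 0 + ((d : ℝ) ^ 2 - 1) / 4 = 0 := by
    have hg : ∀ e : ℕ, ∑ i ∈ Finset.Icc 1 e, (-(i : ℝ)) = -((e : ℝ) * (e + 1) / 2) := by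
      intro e
      induction e with
      | zero => simp
      | succ e ih =>
        rw [Finset.sum_Icc_succ_top (by omega), ih]
        push_cast
        ring
    rw [hg]
    push_cast
    ring
  rw [hval] at htot
  have hev := (tendsto_order.1 (htot.abs)).2 ε (by simpa using hε)
  obtain ⟨n₀, hn₀⟩ := eventually_atTop.1 hev
  refine ⟨max n₀ (d + 2), ?_⟩
  intro n hn heven
  have hn1 : d + 2 ≤ n := le_trans (le_max_right _ _) hn
  have hh := (hn₀ n (le_trans (le_max_left _ _) hn)).le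
  obtain ⟨m, hm⟩ := heven
  have hm2 : n * d = 2 * m := by omega
  have hm1 : 1 ≤ m := by
    have : 1 ≤ n * d := Nat.mul_pos (by omega) (by omega)
    omega
  have hmd : n * d / 2 = m := by omega
  simp only [Function.comp, hmd] at hh
  have hnR : (d : ℝ) + 2 ≤ n := by exact_mod_cast hn1
  have hn0 : (0 : ℝ) < n := by linarith
  have hmR : (n : ℝ) * d = 2 * m := by exact_mod_cast hm2
  rw [log_Mnd hd hn1, hm2, log_doubleFactorial m hm1, ← hmR,
    Real.log_mul hn0.ne' (by linarith)]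
  refine le_trans (le_of_eq ?_) hh
  congr 1
  rw [← Finset.mul_sum, Finset.sum_sub_distrib, Finset.sum_const, Nat.card_Icc]
  have hmm : (m : ℝ) = n * d / 2 := by rw [hmR]; ring
  rw [hmm]
  simp only [nsmul_eq_mul, Nat.add_sub_cancel, Nat.cast_one]
  ring

end Pool.Agent.RGA
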