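import Pool.Agent.RGA.Stmts

set_option autoImplicit false

namespace Pool.Agent.RGA

open Finset

theorem mem_proof : Stmt_Mem := by
  intro D G
  unfold gr
  rw [Finset.mem_filter, Finset.mem_powerset]
  constructor
  · rintro ⟨hsub, hl, hd⟩
    refine ⟨hl, ?_⟩
    intro v
    by_cases hv : v ∈ D.support
    · exact hd v hv
    · have h0 : D v = 0 := Finsupp.notMem_support_iff.mp hv
      rw [h0]
      unfold dg
      rw [Finset.card_eq_zero, Finset.filter_eq_empty_iff]
      intro e he hve
      have h1 := hsub he
      rw [Finset.mem_sym2_iff] at h1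
      exact hv (h1 v hve)
  · rintro ⟨hl, hd⟩
    refine ⟨?_, hl, fun v _ => hd v⟩
    intro e he
    rw [Finset.mem_sym2_iff]
    intro v hv
    rw [Finsupp.mem_support_iff, ← hd v]
    unfold dg
    intro h0
    rw [Finset.card_eq_zero, Finset.filter_eq_empty_iff] at h0
    exact h0 he hv

end Pool.Agent.RGA
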