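import Pool.Agent.RGA.Stmts

/-!
Module PENDN (MP_3a123b_co): pendant edge with a fresh end.
-/

set_option autoImplicit false

namespace Pool.Agent.RGA.PendN

open Finset

theorem Dm_apply (n d k v : ℕ) :
    Dm n d k v = if v < 2 then k else if v < n + 2 then d else 0 := rfl

/-- an edge at a vertex of degree `0` is impossible -/
theorem N_eq_zero (hMem : Stmt_Mem) (D : ℕ →₀ ℕ) (F : Finset (Sym2 ℕ)) (v w : ℕ)
    (hw : D w = 0) : N D (F ∪ {s(v, w)}) = 0 := by
  unfold N
  rw [Finset.card_eq_zero, Finset.filter_eq_empty_iff]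
  intro G hG hF
  rw [hMem] at hG
  have h1 : dg G w = 0 := by rw [hG.2 w, hw]
  unfold dg at h1
  rw [Finset.card_eq_zero, Finset.filter_eq_empty_iff] at h1
  exact h1 (hF (Finset.mem_union_right _ (Finset.mem_singleton_self _)))
    (Sym2.mem_mk_right v w)

theorem mem_tch {F : Finset (Sym2 ℕ)} {e : Sym2 ℕ} {w : ℕ} (he : e ∈ F) (hw : w ∈ e) :
    w ∈ tch F := by
  unfold tch
  rw [Finset.mem_biUnion]
  exact ⟨e, he, Sym2.mem_toFinset.mpr hw⟩

/-- all fresh vertices are equivalent -/
theorem N_fresh (hPerm : Stmt_Perm) (n d k t v w : ℕ) (F : Finset (Sym2 ℕ))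
    (hF : ∀ w ∈ tch F, w < t) (h2 : 2 ≤ t) (ht : t ≤ n + 1) (hv : v < t) (hw : t ≤ w)
    (hwn : w < n + 2) :
    N (Dm n d k) (F ∪ {s(v, w)}) = N (Dm n d k) (F ∪ {s(v, t)}) := by
  have h := hPerm (Dm n d k) (Dm n d k) (Equiv.swap t w) (F ∪ {s(v, t)}) (by
    intro u
    by_cases hut : u = t
    · rw [hut, Equiv.swap_apply_left, Dm_apply, Dm_apply]
      split_ifs <;> first | rfl | omega
    · by_cases huw : u = w
      · rw [huw, Equiv.swap_apply_right, Dm_apply, Dm_apply]
        split_ifs <;> first | rfl | omega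
      · rw [Equiv.swap_apply_of_ne_of_ne hut huw])
  have h3 : (F ∪ {s(v, t)}).image (Sym2.map (Equiv.swap t w)) = F ∪ {s(v, w)} := by
    rw [Finset.image_union, Finset.image_singleton, Sym2.map_mk]
    have h4 : F.image (Sym2.map (Equiv.swap t w)) = F := by
      have h5 : ∀ e ∈ F, Sym2.map (Equiv.swap t w) e = e := by
        intro e he
        have h6 : ∀ u ∈ e, Equiv.swap t w u = u := by
          intro u hu
          have h7 : u < t := hF u (mem_tch he hu)
          exact Equiv.swap_apply_of_ne_of_ne (by omega) (by omega)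
        have h8 : Sym2.map (Equiv.swap t w) e = Sym2.map id e := Sym2.map_congr h6
        rw [h8, Sym2.map_id]
        rfl
      have h9 : F.image (Sym2.map (Equiv.swap t w)) = F.image id := Finset.image_congr h5
      rw [h9, Finset.image_id]
    rw [h4]
    have h5 : Prod.map (Equiv.swap t w) (Equiv.swap t w) (v, t) = (v, w) := by
      rw [Prod.map_apply, Equiv.swap_apply_left, Equiv.swap_apply_of_ne_of_ne (by omega) (by omega)]
    first
    | rw [h5]
    | (rw [Equiv.swap_apply_left, Equiv.swap_apply_of_ne_of_ne (by omega) (by omega)])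
  rw [h3] at h
  exact h

end Pool.Agent.RGA.PendN

namespace Pool.Agent.RGA

open PendN Finset in
theorem pendN_proof (hMem : Stmt_Mem) (hDeg : Stmt_Deg) (hPerm : Stmt_Perm) : Stmt_PendN := by
  intro n d k t v F hL hF h2 ht hv
  have h1 := hDeg (Dm n d k) F v hL
  have h3 : ∑ w ∈ (Dm n d k).support.filter (fun w => w ≠ v ∧ s(v, w) ∉ F),
      (N (Dm n d k) (F ∪ {s(v, w)}) : ℝ)
      = ∑ w ∈ (range (n + 2)).filter (fun w => w ≠ v ∧ s(v, w) ∉ F),
      (N (Dm n d k) (F ∪ {s(v, w)}) : ℝ) := by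
    apply Finset.sum_subset
    · intro w hw
      rw [mem_filter] at hw ⊢
      refine ⟨?_, hw.2⟩
      rw [mem_range]
      by_contra hcon
      have h4 := hw.1
      rw [Finsupp.mem_support_iff, Dm_apply, if_neg (by omega), if_neg hcon] at h4
      exact h4 rfl
    · intro w hw hw'
      rw [mem_filter] at hw
      have h4 : (Dm n d k) w = 0 := by
        by_contra hcon
        exact hw' (mem_filter.mpr ⟨Finsupp.mem_support_iff.mpr hcon, hw.2⟩)
      rw [N_eq_zero hMem _ _ _ _ h4, Nat.cast_zero]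
  rw [h3] at h1
  have h5 : (range (n + 2)).filter (fun w => w ≠ v ∧ s(v, w) ∉ F)
      = (range t).filter (fun w => w ≠ v ∧ s(v, w) ∉ F) ∪ Finset.Ico t (n + 2) := by
    ext w
    rw [mem_union, mem_filter, mem_filter, mem_range, mem_range, Finset.mem_Ico]
    constructor
    · rintro ⟨h6, h7⟩
      by_cases h8 : w < t
      · exact Or.inl ⟨h8, h7⟩
      · exact Or.inr ⟨by omega, h6⟩
    · rintro (⟨h6, h7⟩ | ⟨h6, h7⟩)
      · exact ⟨by omega, h7⟩
      · refine ⟨h7, by omega, ?_⟩
        intro h8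
        have h9 := hF w (mem_tch h8 (Sym2.mem_mk_right v w))
        omega
  have h6 : Disjoint ((range t).filter (fun w => w ≠ v ∧ s(v, w) ∉ F)) (Finset.Ico t (n + 2)) := by
    rw [Finset.disjoint_left]
    intro w hw hw'
    rw [mem_filter, mem_range] at hw
    rw [Finset.mem_Ico] at hw'
    omega
  rw [h5, Finset.sum_union h6] at h1
  have h7 : ∑ w ∈ Finset.Ico t (n + 2), (N (Dm n d k) (F ∪ {s(v, w)}) : ℝ)
      = ((n : ℝ) + 2 - t) * N (Dm n d k) (F ∪ {s(v, t)}) := by
    rw [Finset.sum_congr rfl (g := fun _ => (N (Dm n d k) (F ∪ {s(v, t)}) : ℝ))]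
    · rw [Finset.sum_const, Nat.card_Ico, nsmul_eq_mul, Nat.cast_sub (by omega)]
      push_cast
      ring
    · intro w hw
      rw [Finset.mem_Ico] at hw
      rw [N_fresh hPerm n d k t v w F hF h2 ht hv hw.1 hw.2]
  rw [h7] at h1
  linarith

end Pool.Agent.RGA
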