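import Pool.Agent.RGA.Stmts

/-!
Module RATIO (helper46).
-/

set_option autoImplicit false

namespace Pool.Agent.RGA

open Finset

namespace Ratio

theorem Dm_apply (n d k v : ℕ) :
    Dm n d k v = if v < 2 then k else if v < n + 2 then d else 0 := by
  unfold Dm
  rw [Finsupp.onFinset_apply]

theorem rho_zero (hMem : Stmt_Mem) (n d : ℕ) : rho n d 0 = 0 := by
  have h : N (Dm n d 0) {s(0, 1)} = 0 := by
    unfold N
    rw [card_eq_zero, filter_eq_empty_iff]
    intro G hG h1
    have h2 := ((hMem _ _).1 hG).2 0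
    rw [Dm_apply, if_pos (by norm_num)] at h2
    unfold dg at h2
    rw [card_eq_zero] at h2
    have h3 : s(0, 1) ∈ G.filter (fun e => (0 : ℕ) ∈ e) :=
      mem_filter.2 ⟨h1 (mem_singleton_self _), Sym2.mem_mk_left 0 1⟩
    rw [h2] at h3
    exact absurd h3 (notMem_empty _)
  unfold rho P
  rw [h]
  simp

theorem step (hAdd : Stmt_Add) (n d k : ℕ) (h1 : 0 < N (Dm n d k) ∅)
    (h2 : 0 < N (Dm n d (k + 1)) ∅) :
    (N (Dm n d (k + 1)) ∅ : ℝ) * rho n d (k + 1) = N (Dm n d k) ∅ * (1 - rho n d k) := by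
  have h1' : (0 : ℝ) < N (Dm n d k) ∅ := by exact_mod_cast h1
  have h2' : (0 : ℝ) < N (Dm n d (k + 1)) ∅ := by exact_mod_cast h2
  have h := hAdd (Dm n d k) (Dm n d (k + 1)) 0 1 (by norm_num) (by
    intro v
    rw [Dm_apply, Dm_apply]
    split_ifs <;> omega)
  unfold rho P
  rw [mul_div_cancel₀ _ h2'.ne', h]
  field_simp

end Ratio

open Ratio in
theorem ratio_proof (hPos : Stmt_Pos) (hAdd : Stmt_Add) (hShift : Stmt_Shift)
    (hMem : Stmt_Mem) : Stmt_Ratio := by
  obtain ⟨A, hA⟩ := hPos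
  refine ⟨A, ?_⟩
  intro n d hd hn he
  have hP := fun k (hk : k ≤ d) => hA n d k hd hk hn he
  rw [← (hShift n d).1, ← (hShift n d).2]
  have key : ∀ j : ℕ, j ≤ d → Real.log (N (Dm n d j) ∅) - Real.log (N (Dm n d 0) ∅)
      = ∑ k ∈ Finset.Icc 1 j, (Real.log (1 - rho n d k) - Real.log (rho n d k))
        - Real.log (1 - rho n d j) := by
    intro j
    induction j with
    | zero =>
      intro _
      rw [rho_zero hMem]
      simp
    | succ j ih =>
      intro hj
      have ih' := ih (by omega)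
      have p1 := hP j (by omega)
      have p2 := hP (j + 1) hj
      have hs := step hAdd n d j p1.1 p2.1
      have a1 : (0 : ℝ) < N (Dm n d j) ∅ := by exact_mod_cast p1.1
      have a2 : (0 : ℝ) < N (Dm n d (j + 1)) ∅ := by exact_mod_cast p2.1
      have a3 : 0 < rho n d (j + 1) := p2.2.2 (by omega)
      have a4 : 0 < 1 - rho n d j := by linarith [p1.2.1]
      have hl := congrArg Real.log hs
      rw [Real.log_mul a2.ne' a3.ne', Real.log_mul a1.ne' a4.ne'] at hl
      rw [Finset.sum_Icc_succ_top (by omega)]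
      linarith
  exact key d le_rfl

end Pool.Agent.RGA
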