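import Pool.Agent.RGA.Mem

set_option autoImplicit false

namespace Pool.Agent.RGA

open Finset

namespace Rem

theorem dg_union (F G : Finset (Sym2 ℕ)) (h : Disjoint F G) (v : ℕ) :
    dg (F ∪ G) v = dg F v + dg G v := by
  unfold dg
  rw [Finset.filter_union, Finset.card_union_of_disjoint]
  exact Finset.disjoint_filter_filter h

theorem notMem_of_zero (D : ℕ →₀ ℕ) (G : Finset (Sym2 ℕ)) (hG : G ∈ gr D) (e : Sym2 ℕ) (v : ℕ)
    (hv : v ∈ e) (h0 : D v = 0) : e ∉ G := by
  intro he
  have h := (mem_proof D G).mp hG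
  have h1 := h.2 v
  rw [h0] at h1
  unfold dg at h1
  rw [Finset.card_eq_zero, Finset.filter_eq_empty_iff] at h1
  exact h1 he hv

end Rem

open Rem in
theorem rem_proof : Stmt_Rem := by
  intro D D' F hF hD hsat
  have hdisj : ∀ G' ∈ gr D', Disjoint G' F := by
    intro G' hG'
    rw [Finset.disjoint_left]
    intro e he heF
    obtain ⟨v, hv, h0⟩ := hsat e heF
    exact notMem_of_zero D' G' hG' e v hv h0 he
  unfold N
  apply Finset.card_bij (fun G _ => G \ F)
  · intro G hG
    rw [Finset.mem_filter, mem_proof] at hG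
    obtain ⟨⟨hl, hd⟩, hFG⟩ := hG
    rw [Finset.mem_filter, mem_proof]
    refine ⟨⟨fun e he => hl e (Finset.mem_sdiff.mp he).1, ?_⟩, Finset.empty_subset _⟩
    intro v
    have h1 := dg_union (G \ F) F Finset.sdiff_disjoint v
    rw [Finset.sdiff_union_of_subset hFG, hd v, hD v] at h1
    omega
  · intro G₁ h₁ G₂ h₂ h
    rw [Finset.mem_filter] at h₁ h₂
    have h3 := congrArg (fun S => S ∪ F) h
    simp only [Finset.sdiff_union_of_subset h₁.2, Finset.sdiff_union_of_subset h₂.2] at h3
    exact h3
  · intro G' hG'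
    rw [Finset.mem_filter] at hG'
    have hdis := hdisj G' hG'.1
    have hm := (mem_proof D' G').mp hG'.1
    refine ⟨G' ∪ F, ?_, ?_⟩
    · rw [Finset.mem_filter, mem_proof]
      refine ⟨⟨?_, ?_⟩, Finset.subset_union_right⟩
      · intro e he
        rw [Finset.mem_union] at he
        rcases he with he | he
        · exact hm.1 e he
        · exact hF e he
      · intro v
        rw [dg_union G' F hdis v, hm.2 v, hD v]
    · exact Finset.union_sdiff_cancel_right hdis

end Pool.Agent.RGA
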