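import Pool.Agent.RGA.Stmts

/-!
Module SHIFT (MP_3a123b_co).
-/

set_option autoImplicit false

namespace Pool.Agent.RGA.Shift

open Finset

/-- the relabelling `v ↦ v + 2` for `v < n`, `n ↦ 0`, `n + 1 ↦ 1` -/
def sig (n : ℕ) : Equiv.Perm ℕ where
  toFun v := if v < n then v + 2 else if v < n + 2 then v - n else v
  invFun v := if v < 2 then v + n else if v < n + 2 then v - 2 else v
  left_inv v := by
    show (if (if v < n then v + 2 else if v < n + 2 then v - n else v) < 2
      then (if v < n then v + 2 else if v < n + 2 then v - n else v) + n
      else if (if v < n then v + 2 else if v < n + 2 then v - n else v) < n + 2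
        then (if v < n then v + 2 else if v < n + 2 then v - n else v) - 2
        else (if v < n then v + 2 else if v < n + 2 then v - n else v)) = v
    split_ifs <;> omega
  right_inv v := by
    show (if (if v < 2 then v + n else if v < n + 2 then v - 2 else v) < n
      then (if v < 2 then v + n else if v < n + 2 then v - 2 else v) + 2
      else if (if v < 2 then v + n else if v < n + 2 then v - 2 else v) < n + 2
        then (if v < 2 then v + n else if v < n + 2 then v - 2 else v) - n
        else (if v < 2 then v + n else if v < n + 2 then v - 2 else v)) = v
    split_ifs <;> omega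

theorem sig_apply (n v : ℕ) :
    sig n v = if v < n then v + 2 else if v < n + 2 then v - n else v := rfl

theorem Dm_apply (n d k v : ℕ) :
    Dm n d k v = if v < 2 then k else if v < n + 2 then d else 0 := rfl

theorem Dreg_apply (n d v : ℕ) : Dreg n d v = if v < n then d else 0 := rfl

end Pool.Agent.RGA.Shift

namespace Pool.Agent.RGA

open Shift in
theorem shift_proof (hPerm : Stmt_Perm) : Stmt_Shift := by
  intro n d
  constructor
  · have h := hPerm (Dreg n d) (Dm n d 0) (sig n) ∅ (by
      intro v
      rw [sig_apply, Dm_apply, Dreg_apply]
      split_ifs <;> first | rfl | omega)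
    rw [Finset.image_empty] at h
    exact h
  · have h : Dm n d d = Dreg (n + 2) d := by
      ext v
      rw [Dm_apply, Dreg_apply]
      split_ifs <;> first | rfl | omega
    rw [h]
    rfl

end Pool.Agent.RGA
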