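import Pool.Agent.RGA.Mem

set_option autoImplicit false

namespace Pool.Agent.RGA

open Finset

namespace Sw

theorem dg_union (F G : Finset (Sym2 ℕ)) (h : Disjoint F G) (v : ℕ) :
    dg (F ∪ G) v = dg F v + dg G v := by
  unfold dg
  rw [Finset.filter_union, Finset.card_union_of_disjoint]
  exact Finset.disjoint_filter_filter h

theorem dg_single (e : Sym2 ℕ) (v : ℕ) : dg {e} v = if v ∈ e then 1 else 0 := by
  unfold dg
  rw [Finset.filter_singleton]
  split_ifs <;> rfl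

theorem dg_pair (e f : Sym2 ℕ) (h : e ≠ f) (v : ℕ) :
    dg {e, f} v = (if v ∈ e then 1 else 0) + (if v ∈ f then 1 else 0) := by
  have h1 : ({e, f} : Finset (Sym2 ℕ)) = {e} ∪ {f} := by
    rw [Finset.insert_eq]
  rw [h1, dg_union _ _ (Finset.disjoint_singleton.mpr h), dg_single, dg_single]

/-- indicator form of inclusion-exclusion -/
theorem incl_excl (D : ℕ →₀ ℕ) (H : Finset (Sym2 ℕ)) (e f : Sym2 ℕ) :
    (((gr D).filter (fun G => H ⊆ G ∧ e ∉ G ∧ f ∉ G)).card : ℝ)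
      = N D H - N D (H ∪ {e}) - N D (H ∪ {f}) + N D (H ∪ {e, f}) := by
  have h1 : ∀ e : Sym2 ℕ, (N D (H ∪ {e}) : ℝ)
      = ∑ G ∈ (gr D).filter (fun G => H ⊆ G), if e ∈ G then (1 : ℝ) else 0 := by
    intro e
    unfold N
    rw [Finset.sum_ite, Finset.sum_const_zero, add_zero, Finset.sum_const, nsmul_eq_mul, mul_one,
      Finset.filter_filter]
    congr 2
    ext G
    simp only [Finset.mem_filter, Finset.union_subset_iff, Finset.singleton_subset_iff]
  have h2 : (N D (H ∪ {e, f}) : ℝ)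
      = ∑ G ∈ (gr D).filter (fun G => H ⊆ G),
        (if e ∈ G then (1 : ℝ) else 0) * (if f ∈ G then (1 : ℝ) else 0) := by
    unfold N
    have : ∀ G : Finset (Sym2 ℕ), (if e ∈ G then (1 : ℝ) else 0) * (if f ∈ G then (1 : ℝ) else 0)
        = if (e ∈ G ∧ f ∈ G) then (1 : ℝ) else 0 := by
      intro G
      by_cases h1 : e ∈ G <;> by_cases h2 : f ∈ G <;> simp [h1, h2]
    rw [Finset.sum_congr rfl (fun G _ => this G), Finset.sum_ite, Finset.sum_const_zero, add_zero,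
      Finset.sum_const, nsmul_eq_mul, mul_one, Finset.filter_filter]
    congr 2
    ext G
    simp only [Finset.mem_filter, Finset.union_subset_iff, Finset.insert_subset_iff,
      Finset.singleton_subset_iff]
  have h3 : (N D H : ℝ) = ∑ G ∈ (gr D).filter (fun G => H ⊆ G), (1 : ℝ) := by
    unfold N
    rw [Finset.sum_const, nsmul_eq_mul, mul_one]
  have h4 : (((gr D).filter (fun G => H ⊆ G ∧ e ∉ G ∧ f ∉ G)).card : ℝ)
      = ∑ G ∈ (gr D).filter (fun G => H ⊆ G), if (e ∉ G ∧ f ∉ G) then (1 : ℝ) else 0 := by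
    rw [Finset.sum_ite, Finset.sum_const_zero, add_zero, Finset.sum_const, nsmul_eq_mul, mul_one,
      Finset.filter_filter]
  rw [h4, h3, h1 e, h1 f, h2, ← Finset.sum_sub_distrib, ← Finset.sum_sub_distrib,
    ← Finset.sum_add_distrib]
  apply Finset.sum_congr rfl
  intro G _
  by_cases h1 : e ∈ G <;> by_cases h2 : f ∈ G <;> simp [h1, h2]

/-- the switching map lands in the right set -/
theorem sw_maps (D : ℕ →₀ ℕ) (F G : Finset (Sym2 ℕ)) (a b c e : Sym2 ℕ)
    (hab : a ≠ b) (hce : c ≠ e) (hac : a ≠ c) (hae : a ≠ e) (hbc : b ≠ c) (hbe : b ≠ e)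
    (hcd : ¬ c.IsDiag) (hed : ¬ e.IsDiag)
    (hdeg : ∀ w : ℕ, ((if w ∈ a then 1 else 0) + (if w ∈ b then 1 else 0) : ℕ)
      = (if w ∈ c then 1 else 0) + (if w ∈ e then 1 else 0))
    (haF : a ∉ F) (hbF : b ∉ F)
    (hG : G ∈ gr D) (hF : F ∪ {a, b} ⊆ G) (hc : c ∉ G) (he : e ∉ G) :
    (G \ {a, b}) ∪ {c, e} ∈ gr D ∧ F ∪ {c, e} ⊆ (G \ {a, b}) ∪ {c, e} ∧
      a ∉ (G \ {a, b}) ∪ {c, e} ∧ b ∉ (G \ {a, b}) ∪ {c, e} := by
  have hG' := (mem_proof D G).mp hG
  rw [Finset.union_subset_iff] at hF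
  refine ⟨?_, ?_, ?_, ?_⟩
  · rw [mem_proof]
    refine ⟨?_, ?_⟩
    · intro x hx
      rw [Finset.mem_union, Finset.mem_sdiff] at hx
      rcases hx with hx | hx
      · exact hG'.1 x hx.1
      rw [Finset.mem_insert, Finset.mem_singleton] at hx
      rcases hx with rfl | rfl
      · exact hcd
      · exact hed
    · intro w
      have hd1 : Disjoint (G \ {a, b}) {c, e} := by
        rw [Finset.disjoint_right]
        intro x hx hx2
        rw [Finset.mem_insert, Finset.mem_singleton] at hx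
        rcases hx with rfl | rfl
        · exact hc (Finset.mem_sdiff.mp hx2).1
        · exact he (Finset.mem_sdiff.mp hx2).1
      have h2 := dg_union (G \ {a, b}) {a, b} Finset.sdiff_disjoint w
      rw [Finset.sdiff_union_of_subset hF.2, hG'.2 w, dg_pair a b hab, hdeg w] at h2
      rw [dg_union _ _ hd1, dg_pair c e hce, h2]
  · apply Finset.union_subset_union _ (Finset.Subset.refl _)
    intro x hx
    rw [Finset.mem_sdiff, Finset.mem_insert, Finset.mem_singleton]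
    refine ⟨hF.1 hx, ?_⟩
    rintro (rfl | rfl)
    · exact haF hx
    · exact hbF hx
  · rw [Finset.mem_union, Finset.mem_sdiff, Finset.mem_insert, Finset.mem_insert,
      Finset.mem_singleton]
    simp [hac, hae]
  · rw [Finset.mem_union, Finset.mem_sdiff, Finset.mem_insert, Finset.mem_insert,
      Finset.mem_singleton, Finset.mem_singleton]
    simp [hbc, hbe]

/-- the switching map is undone by the reverse switching -/
theorem sw_inv (G : Finset (Sym2 ℕ)) (a b c e : Sym2 ℕ)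
    (ha : a ∈ G) (hb : b ∈ G) (hc : c ∉ G) (he : e ∉ G) :
    (((G \ {a, b}) ∪ {c, e}) \ {c, e}) ∪ {a, b} = G := by
  ext x
  simp only [Finset.mem_union, Finset.mem_sdiff, Finset.mem_insert, Finset.mem_singleton]
  constructor
  · rintro (⟨h | h, h2⟩ | rfl | rfl)
    · exact h.1
    · exact absurd h h2
    · exact ha
    · exact hb
  · intro hx
    by_cases h1 : x = a ∨ x = b
    · exact Or.inr h1
    · refine Or.inl ⟨Or.inl ⟨hx, h1⟩, ?_⟩
      rintro (rfl | rfl)
      · exact hc hx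
      · exact he hx

theorem sw_card (D : ℕ →₀ ℕ) (F : Finset (Sym2 ℕ)) (a b c e : Sym2 ℕ)
    (hab : a ≠ b) (hce : c ≠ e) (hac : a ≠ c) (hae : a ≠ e) (hbc : b ≠ c) (hbe : b ≠ e)
    (had : ¬ a.IsDiag) (hbd : ¬ b.IsDiag)
    (hcd : ¬ c.IsDiag) (hed : ¬ e.IsDiag)
    (hdeg : ∀ w : ℕ, ((if w ∈ a then 1 else 0) + (if w ∈ b then 1 else 0) : ℕ)
      = (if w ∈ c then 1 else 0) + (if w ∈ e then 1 else 0))
    (haF : a ∉ F) (hbF : b ∉ F) (hcF : c ∉ F) (heF : e ∉ F) :
    ((gr D).filter (fun G => F ∪ {a, b} ⊆ G ∧ c ∉ G ∧ e ∉ G)).card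
      = ((gr D).filter (fun G => F ∪ {c, e} ⊆ G ∧ a ∉ G ∧ b ∉ G)).card := by
  refine Finset.card_bij' (fun G _ => (G \ {a, b}) ∪ {c, e}) (fun G _ => (G \ {c, e}) ∪ {a, b})
    ?_ ?_ ?_ ?_
  · intro G hG
    rw [Finset.mem_filter] at hG
    rw [Finset.mem_filter]
    exact sw_maps D F G a b c e hab hce hac hae hbc hbe hcd hed hdeg haF hbF hG.1 hG.2.1
      hG.2.2.1 hG.2.2.2
  · intro G hG
    rw [Finset.mem_filter] at hG
    rw [Finset.mem_filter]
    exact sw_maps D F G c e a b hce hab hac.symm hbc.symm hae.symm hbe.symm had hbd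
      (fun w => (hdeg w).symm) hcF heF hG.1 hG.2.1 hG.2.2.1 hG.2.2.2
  · intro G hG
    rw [Finset.mem_filter] at hG
    have h := hG.2.1
    rw [Finset.union_subset_iff, Finset.insert_subset_iff, Finset.singleton_subset_iff] at h
    exact sw_inv G a b c e h.2.1 h.2.2 hG.2.2.1 hG.2.2.2
  · intro G hG
    rw [Finset.mem_filter] at hG
    have h := hG.2.1
    rw [Finset.union_subset_iff, Finset.insert_subset_iff, Finset.singleton_subset_iff] at h
    exact sw_inv G c e a b h.2.1 h.2.2 hG.2.2.1 hG.2.2.2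

end Sw

open Pool.Agent.RGA.Sw in
theorem sw_proof : Stmt_Sw := by
  intro D F u v y z _ huv huy huz hvy hvz hyz h1 h2 h3 h4
  have hne : ∀ p q r s : ℕ, (p ≠ r ∧ p ≠ s) ∨ (q ≠ r ∧ q ≠ s) → s(p, q) ≠ s(r, s) := by
    intro p q r s h h'
    rw [Sym2.eq_iff] at h'
    omega
  have hdiag : ∀ p q : ℕ, p ≠ q → ¬ (s(p, q) : Sym2 ℕ).IsDiag := by
    intro p q h
    rw [Sym2.mk_isDiag_iff]
    exact h
  have hdeg : ∀ w : ℕ, ((if w ∈ s(u, v) then 1 else 0) + (if w ∈ s(y, z) then 1 else 0) : ℕ)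
      = (if w ∈ s(u, y) then 1 else 0) + (if w ∈ s(v, z) then 1 else 0) := by
    intro w
    simp only [Sym2.mem_iff]
    by_cases k1 : w = u
    · subst k1; simp [huv, huy, huz]
    · by_cases k2 : w = v
      · subst k2; simp [huv.symm, hvy, hvz]
      · by_cases k3 : w = y
        · subst k3; simp [huy.symm, hvy.symm, hyz]
        · by_cases k4 : w = z
          · subst k4; simp [huz.symm, hvz.symm, hyz.symm]
          · simp [k1, k2, k3, k4]
  have key := sw_card D F s(u, v) s(y, z) s(u, y) s(v, z)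
    (hne _ _ _ _ (Or.inl ⟨huy, huz⟩)) (hne _ _ _ _ (Or.inl ⟨huv, huz⟩))
    (hne _ _ _ _ (Or.inr ⟨huv.symm, hvy⟩)) (hne _ _ _ _ (Or.inl ⟨huv, huz⟩))
    (hne _ _ _ _ (Or.inr ⟨huz.symm, hyz.symm⟩)) (hne _ _ _ _ (Or.inl ⟨hvy.symm, hyz⟩))
    (hdiag _ _ huv) (hdiag _ _ hyz) (hdiag _ _ huy) (hdiag _ _ hvz) hdeg h1 h2 h3 h4
  have key' := congrArg (fun m : ℕ => (m : ℝ)) key
  simp only [incl_excl] at key'
  have e1 : ∀ a b c : Sym2 ℕ, F ∪ {a, b} ∪ {c} = F ∪ {a, b, c} := by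
    intro a b c
    ext x
    simp only [Finset.mem_union, Finset.mem_insert, Finset.mem_singleton]
    tauto
  have e2 : F ∪ {s(u, y), s(v, z)} ∪ {s(u, v), s(y, z)}
      = F ∪ {s(u, v), s(y, z)} ∪ {s(u, y), s(v, z)} := by
    ext x
    simp only [Finset.mem_union, Finset.mem_insert, Finset.mem_singleton]
    tauto
  rw [e1, e1, e1, e1, e2] at key'
  linarith

end Pool.Agent.RGA
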