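import Pool.Agent.RGA.Stmts

/-!
# RGA: module UB
-/

set_option autoImplicit false

namespace Pool.Agent.RGA

open Finset

namespace UB

variable {D : ℕ →₀ ℕ} {F : Finset (Sym2 ℕ)}

lemma mem_tch {x : ℕ} : x ∈ tch F ↔ ∃ e ∈ F, x ∈ e := by
  simp [tch, Sym2.mem_toFinset]

lemma tch_union (F F' : Finset (Sym2 ℕ)) : tch (F ∪ F') = tch F ∪ tch F' := by
  ext x
  simp only [mem_tch, mem_union]
  constructor
  · rintro ⟨e, he | he, hx⟩
    · exact Or.inl ⟨e, he, hx⟩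
    · exact Or.inr ⟨e, he, hx⟩
  · rintro (⟨e, he, hx⟩ | ⟨e, he, hx⟩)
    · exact ⟨e, Or.inl he, hx⟩
    · exact ⟨e, Or.inr he, hx⟩

lemma tch_edge (a b : ℕ) : tch {s(a, b)} = {a, b} := by
  ext x
  simp [mem_tch, Sym2.mem_iff]

lemma tch_add (F : Finset (Sym2 ℕ)) (a b : ℕ) : tch (F ∪ {s(a, b)}) = tch F ∪ {a, b} := by
  rw [tch_union, tch_edge]

lemma card_tch_le (F : Finset (Sym2 ℕ)) : (tch F).card ≤ 2 * F.card := by
  unfold tch
  refine card_biUnion_le.trans ?_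
  calc ∑ e ∈ F, e.toFinset.card ≤ ∑ _e ∈ F, 2 := by
        refine sum_le_sum fun e _ => ?_
        induction e using Sym2.ind with
        | _ a b =>
          rw [Sym2.toFinset_mk_eq]
          exact card_le_two
    _ = 2 * F.card := by rw [sum_const, smul_eq_mul, mul_comm]

lemma dg_eq_zero {x : ℕ} (hx : x ∉ tch F) : dg F x = 0 := by
  unfold dg
  rw [card_eq_zero, filter_eq_empty_iff]
  intro e he hxe
  exact hx (mem_tch.2 ⟨e, he, hxe⟩)

lemma one_le_dg {x : ℕ} (hx : x ∈ tch F) : 1 ≤ dg F x := by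
  obtain ⟨e, he, hxe⟩ := mem_tch.1 hx
  unfold dg
  exact card_pos.2 ⟨e, mem_filter.2 ⟨he, hxe⟩⟩

lemma dg_mono {F F' : Finset (Sym2 ℕ)} (h : F ⊆ F') (x : ℕ) : dg F x ≤ dg F' x :=
  card_le_card (filter_subset_filter _ h)

lemma dg_add_ne (F : Finset (Sym2 ℕ)) {a b x : ℕ} (ha : x ≠ a) (hb : x ≠ b) :
    dg (F ∪ {s(a, b)}) x = dg F x := by
  unfold dg
  rw [filter_union]
  have : ({s(a, b)} : Finset (Sym2 ℕ)).filter (fun e => x ∈ e) = ∅ := by
    rw [filter_eq_empty_iff]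
    intro e he
    rw [mem_singleton] at he
    rw [he, Sym2.mem_iff]
    tauto
  rw [this, union_empty]

lemma dg_add_eq (F : Finset (Sym2 ℕ)) {a b : ℕ} (h : s(a, b) ∉ F) :
    dg (F ∪ {s(a, b)}) a = dg F a + 1 := by
  unfold dg
  rw [filter_union]
  have : ({s(a, b)} : Finset (Sym2 ℕ)).filter (fun e => a ∈ e) = {s(a, b)} := by
    rw [filter_eq_self]
    intro e he
    rw [mem_singleton] at he
    rw [he]; exact Sym2.mem_mk_left a b
  rw [this, card_union_of_disjoint, card_singleton]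
  rw [disjoint_singleton_right]
  intro h'
  exact h (mem_filter.1 h').1

lemma lpl_add {F : Finset (Sym2 ℕ)} (h : Lpl F) {a b : ℕ} (hab : a ≠ b) : Lpl (F ∪ {s(a, b)}) := by
  intro e he
  rw [mem_union, mem_singleton] at he
  rcases he with he | rfl
  · exact h e he
  · simpa using hab

lemma not_mem_of_tch {F : Finset (Sym2 ℕ)} {a b : ℕ} (h : a ∉ tch F) : s(a, b) ∉ F := fun h' =>
  h (mem_tch.2 ⟨_, h', Sym2.mem_mk_left a b⟩)

/-- a graph with degree sequence `D` containing `F` forces `dg F ≤ D` -/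
lemma dg_le_of_pos (hMem : Stmt_Mem) (h : N D F ≠ 0) (x : ℕ) : dg F x ≤ D x := by
  unfold N at h
  rw [Finset.card_ne_zero] at h
  obtain ⟨G, hG⟩ := h
  rw [mem_filter] at hG
  rw [← ((hMem D G).1 hG.1).2 x]
  exact dg_mono hG.2 x

/-- one-sided form of DEG -/
lemma deg_le (hDeg : Stmt_Deg) {H : Finset (Sym2 ℕ)} (hH : Lpl H) (v : ℕ) {T : Finset ℕ}
    (hT : T ⊆ D.support) (hv : ∀ w ∈ T, w ≠ v ∧ s(v, w) ∉ H) :
    ∑ w ∈ T, (N D (H ∪ {s(v, w)}) : ℝ) ≤ ((D v : ℝ) - dg H v) * N D H := by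
  rw [← hDeg D H v hH]
  refine sum_le_sum_of_subset_of_nonneg ?_ (fun w _ _ => by positivity)
  intro w hw
  rw [mem_filter]
  exact ⟨hT hw, hv w hw⟩

lemma deg_le' (hDeg : Stmt_Deg) {H : Finset (Sym2 ℕ)} (hH : Lpl H) (v : ℕ) {T : Finset ℕ}
    (hT : T ⊆ D.support) (hv : ∀ w ∈ T, w ≠ v ∧ s(v, w) ∉ H) {Δ : ℕ} (hΔ : D v ≤ Δ) :
    ∑ w ∈ T, (N D (H ∪ {s(v, w)}) : ℝ) ≤ Δ * N D H := by
  refine (deg_le hDeg hH v hT hv).trans ?_
  refine mul_le_mul_of_nonneg_right ?_ (by positivity)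
  have h1 : (D v : ℝ) ≤ Δ := by exact_mod_cast hΔ
  have h2 : (0 : ℝ) ≤ dg H v := by positivity
  linarith

/-- the vertices not touched by `F` -/
def T (D : ℕ →₀ ℕ) (F : Finset (Sym2 ℕ)) : Finset ℕ := D.support.filter (fun w => w ∉ tch F)

lemma mem_T {w : ℕ} : w ∈ T D F ↔ w ∈ D.support ∧ w ∉ tch F := by simp [T]

lemma T_sub : T D F ⊆ D.support := filter_subset _ _

/-- the sum of the switchings over all pairs of fresh vertices -/
lemma sum_sw (hSw : Stmt_Sw) {F' : Finset (Sym2 ℕ)} {u v : ℕ} (hF' : Lpl F') (huv : u ≠ v)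
    (hn : s(u, v) ∉ F') :
    ∑ y ∈ T D (F' ∪ {s(u, v)}), ∑ z ∈ (T D (F' ∪ {s(u, v)})).erase y,
        ((N D (F' ∪ {s(u, v)} ∪ {s(y, z)}) : ℝ) - N D (F' ∪ {s(u, v)} ∪ {s(y, u)} ∪ {s(y, z)})
          - N D (F' ∪ {s(u, v)} ∪ {s(z, v)} ∪ {s(z, y)}))
      = ∑ y ∈ T D (F' ∪ {s(u, v)}), ∑ z ∈ (T D (F' ∪ {s(u, v)})).erase y,
        ((N D (F' ∪ {s(u, y)} ∪ {s(v, z)}) : ℝ) - N D (F' ∪ {s(u, v)} ∪ {s(u, y)} ∪ {s(v, z)})
          - N D (F' ∪ {s(u, y)} ∪ {s(v, z)} ∪ {s(y, z)})) := by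
  refine sum_congr rfl fun y hy => sum_congr rfl fun z hz => ?_
  rw [mem_erase] at hz
  obtain ⟨hzy, hz⟩ := hz
  rw [mem_T, tch_add] at hy hz
  simp only [mem_union, mem_insert, mem_singleton, not_or] at hy hz
  obtain ⟨_, hy1, hyu, hyv⟩ := hy
  obtain ⟨_, hz1, hzu, hzv⟩ := hz
  have h := hSw D F' u v y z hF' huv (Ne.symm hyu) (Ne.symm hzu) (Ne.symm hyv) (Ne.symm hzv)
    (Ne.symm hzy) hn (not_mem_of_tch hy1) (by rw [Sym2.eq_swap]; exact not_mem_of_tch hy1)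
    (by rw [Sym2.eq_swap]; exact not_mem_of_tch hz1)
  have e1 : F' ∪ {s(u, v)} ∪ {s(y, z)} = F' ∪ {s(u, v), s(y, z)} := by
    rw [union_assoc]; rfl
  have e2 : F' ∪ {s(u, v)} ∪ {s(y, u)} ∪ {s(y, z)} = F' ∪ {s(u, v), s(y, z), s(u, y)} := by
    rw [Sym2.eq_swap (a := y) (b := u)]
    ext e; simp only [mem_union, mem_insert, mem_singleton]; tauto
  have e3 : F' ∪ {s(u, v)} ∪ {s(z, v)} ∪ {s(z, y)} = F' ∪ {s(u, v), s(y, z), s(v, z)} := by
    rw [Sym2.eq_swap (a := z) (b := v), Sym2.eq_swap (a := z) (b := y)]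
    ext e; simp only [mem_union, mem_insert, mem_singleton]; tauto
  have e4 : F' ∪ {s(u, y)} ∪ {s(v, z)} = F' ∪ {s(u, y), s(v, z)} := by
    rw [union_assoc]; rfl
  have e5 : F' ∪ {s(u, v)} ∪ {s(u, y)} ∪ {s(v, z)} = F' ∪ {s(u, y), s(v, z), s(u, v)} := by
    ext e; simp only [mem_union, mem_insert, mem_singleton]; tauto
  have e6 : F' ∪ {s(u, y)} ∪ {s(v, z)} ∪ {s(y, z)} = F' ∪ {s(u, y), s(v, z), s(y, z)} := by
    ext e; simp only [mem_union, mem_insert, mem_singleton]; tauto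
  rw [e2, e3, e5, e6, e1, e4]
  exact h

/-- `∑ N(F + yz)` over fresh pairs, exactly -/
lemma S1_eq (hDeg : Stmt_Deg) {F : Finset (Sym2 ℕ)} (hF : Lpl F) :
    ∑ y ∈ T D F, ∑ z ∈ (T D F).erase y, (N D (F ∪ {s(y, z)}) : ℝ)
      = (∑ y ∈ T D F, (D y : ℝ)) * N D F
        - ∑ w ∈ D.support.filter (fun w => w ∈ tch F), ∑ y ∈ T D F, (N D (F ∪ {s(w, y)}) : ℝ) := by
  have h1 : ∀ y ∈ T D F, ∑ z ∈ (T D F).erase y, (N D (F ∪ {s(y, z)}) : ℝ)
      = (D y : ℝ) * N D F - ∑ w ∈ D.support.filter (fun w => w ∈ tch F), (N D (F ∪ {s(w, y)}) : ℝ) := by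
    intro y hy
    rw [mem_T] at hy
    have h2 := hDeg D F y hF
    rw [dg_eq_zero hy.2, Nat.cast_zero, sub_zero] at h2
    rw [← h2, eq_sub_iff_add_eq]
    have hdec : D.support.filter (fun w => w ≠ y ∧ s(y, w) ∉ F) =
        (T D F).erase y ∪ D.support.filter (fun w => w ∈ tch F) := by
      ext w
      simp only [mem_filter, mem_union, mem_erase, mem_T]
      constructor
      · rintro ⟨hw, hwy, _⟩
        by_cases hwt : w ∈ tch F
        · exact Or.inr ⟨hw, hwt⟩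
        · exact Or.inl ⟨hwy, hw, hwt⟩
      · rintro (⟨hwy, hw, _⟩ | ⟨hw, hwt⟩)
        · exact ⟨hw, hwy, not_mem_of_tch hy.2⟩
        · exact ⟨hw, fun h => hy.2 (h ▸ hwt), not_mem_of_tch hy.2⟩
    have hdisj : Disjoint ((T D F).erase y) (D.support.filter (fun w => w ∈ tch F)) := by
      rw [disjoint_left]
      intro w hw hw'
      rw [mem_erase, mem_T] at hw
      rw [mem_filter] at hw'
      exact hw.2.2 hw'.2
    rw [hdec, sum_union hdisj]
    congr 1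
    refine sum_congr rfl fun w _ => ?_
    rw [Sym2.eq_swap]
  rw [sum_congr rfl h1, sum_sub_distrib, sum_mul]
  congr 1
  rw [sum_comm]

lemma tot_eq (D : ℕ →₀ ℕ) (F : Finset (Sym2 ℕ)) :
    (∑ y ∈ T D F, (D y : ℝ)) = (tot D : ℝ) - ∑ w ∈ D.support.filter (fun w => w ∈ tch F), (D w : ℝ) := by
  rw [eq_sub_iff_add_eq, add_comm]
  unfold tot T
  push_cast
  exact sum_filter_add_sum_filter_not _ _ _

/-- bounds for `S1` -/
lemma S1_bounds (hDeg : Stmt_Deg) {F : Finset (Sym2 ℕ)} (hF : Lpl F) {Δ : ℕ} (hΔ : ∀ v, D v ≤ Δ) :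
    (∑ y ∈ T D F, ∑ z ∈ (T D F).erase y, (N D (F ∪ {s(y, z)}) : ℝ)) ≤ tot D * N D F ∧
    ((tot D : ℝ) - 4 * F.card * Δ) * N D F
      ≤ ∑ y ∈ T D F, ∑ z ∈ (T D F).erase y, (N D (F ∪ {s(y, z)}) : ℝ) := by
  rw [S1_eq hDeg hF, tot_eq]
  have hN : (0 : ℝ) ≤ N D F := by positivity
  have ha0 : (0 : ℝ) ≤ ∑ w ∈ D.support.filter (fun w => w ∈ tch F), (D w : ℝ) :=
    sum_nonneg fun _ _ => by positivity
  have hb0 : (0 : ℝ) ≤ ∑ w ∈ D.support.filter (fun w => w ∈ tch F), ∑ y ∈ T D F, (N D (F ∪ {s(w, y)}) : ℝ) :=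
    sum_nonneg fun _ _ => sum_nonneg fun _ _ => by positivity
  have hcard : ((D.support.filter (fun w => w ∈ tch F)).card : ℝ) ≤ 2 * F.card := by
    have h1 : D.support.filter (fun w => w ∈ tch F) ⊆ tch F := fun w hw => (mem_filter.1 hw).2
    exact_mod_cast (card_le_card h1).trans (card_tch_le F)
  have hΔ0 : (0 : ℝ) ≤ Δ := by positivity
  have ha : ∑ w ∈ D.support.filter (fun w => w ∈ tch F), (D w : ℝ) ≤ 2 * F.card * Δ := by
    calc ∑ w ∈ D.support.filter (fun w => w ∈ tch F), (D w : ℝ)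
        ≤ ∑ _w ∈ D.support.filter (fun w => w ∈ tch F), (Δ : ℝ) := by
          refine sum_le_sum fun w _ => ?_
          exact_mod_cast hΔ w
      _ = (D.support.filter (fun w => w ∈ tch F)).card * Δ := by rw [sum_const, nsmul_eq_mul]
      _ ≤ _ := mul_le_mul_of_nonneg_right hcard hΔ0
  have hb : ∑ w ∈ D.support.filter (fun w => w ∈ tch F), ∑ y ∈ T D F, (N D (F ∪ {s(w, y)}) : ℝ)
      ≤ 2 * F.card * Δ * N D F := by
    calc ∑ w ∈ D.support.filter (fun w => w ∈ tch F), ∑ y ∈ T D F, (N D (F ∪ {s(w, y)}) : ℝ)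
        ≤ ∑ _w ∈ D.support.filter (fun w => w ∈ tch F), (Δ : ℝ) * N D F := by
          refine sum_le_sum fun w hw => ?_
          refine deg_le' hDeg hF w T_sub ?_ (hΔ w)
          intro y hy
          rw [mem_T] at hy
          rw [mem_filter] at hw
          refine ⟨fun h => hy.2 (h ▸ hw.2), ?_⟩
          rw [Sym2.eq_swap]; exact not_mem_of_tch hy.2
      _ = (D.support.filter (fun w => w ∈ tch F)).card * (Δ * N D F) := by rw [sum_const, nsmul_eq_mul]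
      _ ≤ 2 * F.card * (Δ * N D F) := mul_le_mul_of_nonneg_right hcard (by positivity)
      _ = _ := by ring
  constructor
  · nlinarith
  · nlinarith

/-- two-step sums -/
lemma two_step (hDeg : Stmt_Deg) {F : Finset (Sym2 ℕ)} (hF : Lpl F) {Δ : ℕ} (hΔ : ∀ v, D v ≤ Δ) {u : ℕ}
    (hu : u ∈ tch F) :
    ∑ y ∈ T D F, ∑ z ∈ (T D F).erase y, (N D (F ∪ {s(y, u)} ∪ {s(y, z)}) : ℝ) ≤ Δ * (Δ * N D F) := by
  calc ∑ y ∈ T D F, ∑ z ∈ (T D F).erase y, (N D (F ∪ {s(y, u)} ∪ {s(y, z)}) : ℝ)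
      ≤ ∑ y ∈ T D F, (Δ : ℝ) * N D (F ∪ {s(u, y)}) := by
        refine sum_le_sum fun y hy => ?_
        rw [mem_T] at hy
        have hyu : y ≠ u := fun h => hy.2 (h ▸ hu)
        have := deg_le' hDeg (D := D) (lpl_add hF hyu) y (T := (T D F).erase y)
          ((erase_subset _ _).trans T_sub) (by
            intro z hz
            rw [mem_erase, mem_T] at hz
            refine ⟨hz.1, ?_⟩
            rw [mem_union, mem_singleton, not_or]
            refine ⟨not_mem_of_tch hy.2, fun h => ?_⟩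
            rw [Sym2.eq_iff] at h
            rcases h with ⟨_, h⟩ | ⟨h, _⟩
            · exact hz.2.2 (h ▸ hu)
            · exact hyu h) (hΔ y)
        rwa [Sym2.eq_swap (a := u) (b := y)]
    _ = Δ * ∑ y ∈ T D F, (N D (F ∪ {s(u, y)}) : ℝ) := by rw [mul_sum]
    _ ≤ Δ * (Δ * N D F) := by
        refine mul_le_mul_of_nonneg_left ?_ (by positivity)
        refine deg_le' hDeg hF u T_sub ?_ (hΔ u)
        intro y hy
        rw [mem_T] at hy
        refine ⟨fun h => hy.2 (h ▸ hu), ?_⟩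
        rw [Sym2.eq_swap]; exact not_mem_of_tch hy.2

/-- the sum over fresh pairs is symmetric -/
lemma sum_symm (T : Finset ℕ) (f : ℕ → ℕ → ℝ) :
    ∑ y ∈ T, ∑ z ∈ T.erase y, f y z = ∑ y ∈ T, ∑ z ∈ T.erase y, f z y := by
  rw [sum_comm' (t' := T) (s' := fun z => T.erase z)]
  intro y z
  simp only [mem_erase]
  tauto

/-- key inequality -/
lemma key (hDeg : Stmt_Deg) (hSw : Stmt_Sw) (hMem : Stmt_Mem) {F' : Finset (Sym2 ℕ)} {u v : ℕ}
    (hF' : Lpl F') (huv : u ≠ v) (hn : s(u, v) ∉ F') {Δ : ℕ} (hΔ : ∀ v, D v ≤ Δ) :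
    ((tot D : ℝ) - 4 * (F'.card + 1) * Δ - 2 * Δ ^ 2) * N D (F' ∪ {s(u, v)})
      ≤ ((D u : ℝ) - dg F' u) * ((D v : ℝ) - dg F' v) * N D F' := by
  by_cases h0 : N D (F' ∪ {s(u, v)}) = 0
  · by_cases h1 : N D F' = 0
    · rw [h0, h1]; simp
    · have hu := dg_le_of_pos hMem h1 u
      have hv := dg_le_of_pos hMem h1 v
      have hu' : (0 : ℝ) ≤ (D u : ℝ) - dg F' u := by
        have : (dg F' u : ℝ) ≤ D u := by exact_mod_cast hu
        linarith
      have hv' : (0 : ℝ) ≤ (D v : ℝ) - dg F' v := by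
        have : (dg F' v : ℝ) ≤ D v := by exact_mod_cast hv
        linarith
      rw [h0]
      simp only [Nat.cast_zero, mul_zero]
      positivity
  have hF : Lpl (F' ∪ {s(u, v)}) := lpl_add hF' huv
  have hsum := sum_sw (D := D) hSw hF' huv hn
  simp only [sum_sub_distrib] at hsum
  have hcard : (F' ∪ {s(u, v)}).card = F'.card + 1 := by
    rw [card_union_of_disjoint (by simpa using hn), card_singleton]
  have hS1 := (S1_bounds (D := D) hDeg hF hΔ).2
  rw [hcard] at hS1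
  push_cast at hS1
  have hut : u ∈ tch (F' ∪ {s(u, v)}) := by rw [tch_add]; simp
  have hvt : v ∈ tch (F' ∪ {s(u, v)}) := by rw [tch_add]; simp
  have hS2 := two_step (D := D) hDeg hF hΔ hut
  have hS3 := two_step (D := D) hDeg hF hΔ hvt
  rw [sum_symm] at hS3
  have hR2 : (0 : ℝ) ≤ ∑ y ∈ T D (F' ∪ {s(u, v)}), ∑ z ∈ (T D (F' ∪ {s(u, v)})).erase y,
      (N D (F' ∪ {s(u, v)} ∪ {s(u, y)} ∪ {s(v, z)}) : ℝ) :=
    sum_nonneg fun _ _ => sum_nonneg fun _ _ => by positivity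
  have hR3 : (0 : ℝ) ≤ ∑ y ∈ T D (F' ∪ {s(u, v)}), ∑ z ∈ (T D (F' ∪ {s(u, v)})).erase y,
      (N D (F' ∪ {s(u, y)} ∪ {s(v, z)} ∪ {s(y, z)}) : ℝ) :=
    sum_nonneg fun _ _ => sum_nonneg fun _ _ => by positivity
  -- `R1`
  have hvd : (0 : ℝ) ≤ (D v : ℝ) - dg F' v := by
    have h1 : dg F' v ≤ D v := (dg_mono subset_union_left v).trans (dg_le_of_pos hMem h0 v)
    have : (dg F' v : ℝ) ≤ D v := by exact_mod_cast h1
    linarith
  have hR1 : ∑ y ∈ T D (F' ∪ {s(u, v)}), ∑ z ∈ (T D (F' ∪ {s(u, v)})).erase y,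
      (N D (F' ∪ {s(u, y)} ∪ {s(v, z)}) : ℝ) ≤ ((D u : ℝ) - dg F' u) * ((D v : ℝ) - dg F' v) * N D F' := by
    calc ∑ y ∈ T D (F' ∪ {s(u, v)}), ∑ z ∈ (T D (F' ∪ {s(u, v)})).erase y,
          (N D (F' ∪ {s(u, y)} ∪ {s(v, z)}) : ℝ)
        ≤ ∑ y ∈ T D (F' ∪ {s(u, v)}), ((D v : ℝ) - dg F' v) * N D (F' ∪ {s(u, y)}) := by
          refine sum_le_sum fun y hy => ?_
          rw [mem_T, tch_add] at hy
          simp only [mem_union, mem_insert, mem_singleton, not_or] at hy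
          obtain ⟨hys, hy1, hyu, hyv⟩ := hy
          have := deg_le hDeg (D := D) (lpl_add hF' (Ne.symm hyu)) v
            (T := (T D (F' ∪ {s(u, v)})).erase y) ((erase_subset _ _).trans T_sub) (by
              intro z hz
              rw [mem_erase, mem_T, tch_add] at hz
              simp only [mem_union, mem_insert, mem_singleton, not_or] at hz
              obtain ⟨hzy, hzs, hz1, hzu, hzv⟩ := hz
              refine ⟨hzv, ?_⟩
              rw [mem_union, mem_singleton, not_or]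
              refine ⟨by rw [Sym2.eq_swap]; exact not_mem_of_tch hz1, fun h => ?_⟩
              rw [Sym2.eq_iff] at h
              rcases h with ⟨h, _⟩ | ⟨h, _⟩
              · exact huv h.symm
              · exact hyv h.symm)
          rwa [dg_add_ne F' (Ne.symm huv) (Ne.symm hyv)] at this
      _ = ((D v : ℝ) - dg F' v) * ∑ y ∈ T D (F' ∪ {s(u, v)}), (N D (F' ∪ {s(u, y)}) : ℝ) := by
          rw [mul_sum]
      _ ≤ ((D v : ℝ) - dg F' v) * (((D u : ℝ) - dg F' u) * N D F') := by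
          refine mul_le_mul_of_nonneg_left ?_ hvd
          refine deg_le hDeg hF' u T_sub ?_
          intro y hy
          rw [mem_T, tch_add] at hy
          simp only [mem_union, mem_insert, mem_singleton, not_or] at hy
          refine ⟨hy.2.2.1, ?_⟩
          rw [Sym2.eq_swap]; exact not_mem_of_tch hy.2.1
      _ = _ := by ring
  nlinarith

lemma Wt_nonneg (D : ℕ →₀ ℕ) (F : Finset (Sym2 ℕ)) : 0 ≤ Wt D F := prod_nonneg fun _ _ => by positivity

/-- the weight of `F' + uv` -/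
lemma Wt_add (D : ℕ →₀ ℕ) (F' : Finset (Sym2 ℕ)) {u v : ℕ} (huv : u ≠ v) :
    Wt D (F' ∪ {s(u, v)}) = Wt D F' * (if u ∈ tch F' then 1 else (D u : ℝ)) *
      (if v ∈ tch F' then 1 else (D v : ℝ)) := by
  unfold Wt
  rw [tch_add]
  have e1 : tch F' ∪ {u, v} = insert v (insert u (tch F')) := by
    ext x; simp only [mem_union, mem_insert, mem_singleton]; tauto
  rw [e1]
  by_cases hu : u ∈ tch F'
  · rw [insert_eq_of_mem hu, if_pos hu, mul_one]
    by_cases hv : v ∈ tch F'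
    · rw [insert_eq_of_mem hv, if_pos hv, mul_one]
    · rw [prod_insert hv, if_neg hv, mul_comm]
  · rw [if_neg hu]
    by_cases hv : v ∈ tch F'
    · rw [insert_eq_of_mem (mem_insert_of_mem hv), prod_insert hu, if_pos hv]; ring
    · rw [prod_insert (by simp only [mem_insert, not_or]; exact ⟨Ne.symm huv, hv⟩), prod_insert hu,
        if_neg hv]; ring

/-- splitting off one edge -/
lemma exists_split {F : Finset (Sym2 ℕ)} {e : ℕ} (hF : Lpl F) (hc : F.card = e + 1) :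
    ∃ (F' : Finset (Sym2 ℕ)) (u v : ℕ), Lpl F' ∧ F'.card = e ∧ u ≠ v ∧ s(u, v) ∉ F' ∧
      F = F' ∪ {s(u, v)} := by
  have hne : F.Nonempty := by rw [← card_pos]; omega
  obtain ⟨x, hx⟩ := hne
  induction x using Sym2.ind with
  | _ u v =>
    refine ⟨F.erase s(u, v), u, v, fun e he => hF e (mem_of_mem_erase he), ?_, ?_, ?_, ?_⟩
    · rw [card_erase_of_mem hx, hc]; rfl
    · have := hF _ hx
      simpa using this
    · simp
    · ext e
      simp only [mem_union, mem_erase, mem_singleton]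
      constructor
      · intro he
        by_cases h : e = s(u, v)
        · exact Or.inr h
        · exact Or.inl ⟨h, he⟩
      · rintro (⟨_, he⟩ | rfl)
        · exact he
        · exact hx

lemma C_mono {C C' Δ : ℕ} (h : C ≤ C') (hΔ : 1 ≤ Δ) : C * Δ ^ C ≤ C' * Δ ^ C' :=
  Nat.mul_le_mul h (Nat.pow_le_pow_right hΔ h)

end UB

open UB

theorem uB_proof (hMem : Stmt_Mem) (hDeg : Stmt_Deg) (hSw : Stmt_Sw) : Stmt_UB := by
  intro e
  induction e with
  | zero =>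
    refine ⟨1, fun D Δ F hΔ hD hF hc hM => ?_⟩
    rw [card_eq_zero] at hc
    subst hc
    have h1 : P D ∅ ≤ 1 := div_self_le_one _
    have h2 : Wt D ∅ = 1 := by simp [Wt, tch]
    have h3 : (1 : ℝ) ≤ Δ := by exact_mod_cast hΔ
    rw [h2]
    simp only [Nat.cast_one, pow_one, one_mul, mul_one, pow_zero, div_one]
    exact h1.trans h3
  | succ e ih =>
    obtain ⟨C, hC⟩ := ih
    refine ⟨2 * C + 8 * (e + 1) + 8, fun D Δ F hΔ hD hF hc hM => ?_⟩
    obtain ⟨F', u, v, hF', hc', huv, hn, rfl⟩ := exists_split hF hc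
    have hΔ1 : (1 : ℝ) ≤ Δ := by exact_mod_cast hΔ
    have hMC : C * Δ ^ C ≤ tot D := (C_mono (by omega) hΔ).trans hM
    have hPF' := hC D Δ F' hΔ hD hF' hc' hMC
    -- size of `M`
    have hM2 : (8 * (e + 1) + 8) * (Δ : ℝ) ^ 2 ≤ tot D := by
      have h1 : (8 * (e + 1) + 8) * Δ ^ 2 ≤ tot D := by
        refine le_trans ?_ hM
        refine Nat.mul_le_mul (by omega) (Nat.pow_le_pow_right hΔ (by omega))
      exact_mod_cast h1
    have hMpos : (0 : ℝ) < tot D := by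
      have : (0 : ℝ) < (8 * (e + 1) + 8) * (Δ : ℝ) ^ 2 := by positivity
      linarith
    by_cases h0 : N D (F' ∪ {s(u, v)}) = 0
    · unfold P
      rw [h0]
      have := Wt_nonneg D (F' ∪ {s(u, v)})
      simp only [Nat.cast_zero, zero_div]
      positivity
    have hkey := key hDeg hSw hMem hF' huv hn hD
    rw [hc'] at hkey
    have hdu : (0 : ℝ) ≤ (D u : ℝ) - dg F' u := by
      have h1 : dg F' u ≤ D u := (dg_mono subset_union_left u).trans (dg_le_of_pos hMem h0 u)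
      have : (dg F' u : ℝ) ≤ D u := by exact_mod_cast h1
      linarith
    have hdv : (0 : ℝ) ≤ (D v : ℝ) - dg F' v := by
      have h1 : dg F' v ≤ D v := (dg_mono subset_union_left v).trans (dg_le_of_pos hMem h0 v)
      have : (dg F' v : ℝ) ≤ D v := by exact_mod_cast h1
      linarith
    have hle : ∀ x, (D x : ℝ) - dg F' x ≤ Δ * (if x ∈ tch F' then 1 else (D x : ℝ)) := by
      intro x
      have h1 : (D x : ℝ) ≤ Δ := by exact_mod_cast hD x
      have h2 : (0 : ℝ) ≤ dg F' x := by positivity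
      have h3 : (0 : ℝ) ≤ D x := by positivity
      split_ifs
      · linarith
      · nlinarith
    have hifn : ∀ x, (0 : ℝ) ≤ (if x ∈ tch F' then 1 else (D x : ℝ)) := by
      intro x
      split_ifs <;> positivity
    -- `(M/2) N(F) ≤ ...`
    have hhalf : (tot D : ℝ) / 2 * N D (F' ∪ {s(u, v)})
        ≤ ((D u : ℝ) - dg F' u) * ((D v : ℝ) - dg F' v) * N D F' := by
      refine le_trans ?_ hkey
      refine mul_le_mul_of_nonneg_right ?_ (by positivity)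
      have h1 : (Δ : ℝ) ≤ (Δ : ℝ) ^ 2 := by nlinarith
      have h2 : 4 * ((e : ℝ) + 1) * Δ ≤ 4 * ((e : ℝ) + 1) * (Δ : ℝ) ^ 2 :=
        mul_le_mul_of_nonneg_left h1 (by positivity)
      nlinarith
    have hprod : ((D u : ℝ) - dg F' u) * ((D v : ℝ) - dg F' v)
        ≤ (Δ : ℝ) ^ 2 * ((if u ∈ tch F' then 1 else (D u : ℝ)) * (if v ∈ tch F' then 1 else (D v : ℝ))) := by
      calc _ ≤ (Δ * (if u ∈ tch F' then 1 else (D u : ℝ))) * (Δ * (if v ∈ tch F' then 1 else (D v : ℝ))) :=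
            mul_le_mul (hle u) (hle v) hdv (mul_nonneg (by positivity) (hifn u))
        _ = _ := by ring
    set α : ℝ := (if u ∈ tch F' then 1 else (D u : ℝ)) * (if v ∈ tch F' then 1 else (D v : ℝ)) with hα
    have hα0 : 0 ≤ α := mul_nonneg (hifn u) (hifn v)
    have hNpos : (0 : ℝ) ≤ N D ∅ := by positivity
    have h5 : P D (F' ∪ {s(u, v)}) ≤ 2 / tot D * ((Δ : ℝ) ^ 2 * α) * P D F' := by
      unfold P
      rw [← mul_div_assoc]
      refine div_le_div_of_nonneg_right ?_ hNpos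
      have h6 : (tot D : ℝ) / 2 * N D (F' ∪ {s(u, v)}) ≤ (Δ : ℝ) ^ 2 * α * N D F' :=
        hhalf.trans (mul_le_mul_of_nonneg_right hprod (by positivity))
      have h7 : (N D (F' ∪ {s(u, v)}) : ℝ) = 2 / tot D * ((tot D : ℝ) / 2 * N D (F' ∪ {s(u, v)})) := by
        field_simp
      rw [h7]
      calc 2 / tot D * ((tot D : ℝ) / 2 * N D (F' ∪ {s(u, v)}))
          ≤ 2 / tot D * ((Δ : ℝ) ^ 2 * α * N D F') := mul_le_mul_of_nonneg_left h6 (by positivity)
        _ = _ := by ring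
    have h8 : 2 / tot D * ((Δ : ℝ) ^ 2 * α) * P D F'
        ≤ 2 / tot D * ((Δ : ℝ) ^ 2 * α) * ((C : ℝ) * (Δ : ℝ) ^ C * Wt D F' / (tot D : ℝ) ^ e) :=
      mul_le_mul_of_nonneg_left hPF' (by positivity)
    refine (h5.trans h8).trans ?_
    have hW : Wt D (F' ∪ {s(u, v)}) = Wt D F' * α := by rw [Wt_add D F' huv, hα]; ring
    rw [hW]
    have e1 : 2 / tot D * ((Δ : ℝ) ^ 2 * α) * ((C : ℝ) * (Δ : ℝ) ^ C * Wt D F' / (tot D : ℝ) ^ e)
        = (2 * C * (Δ : ℝ) ^ (C + 2)) * (Wt D F' * α / (tot D : ℝ) ^ (e + 1)) := by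
      field_simp
      ring
    have e2 : ((2 * C + 8 * (e + 1) + 8 : ℕ) : ℝ) * (Δ : ℝ) ^ (2 * C + 8 * (e + 1) + 8) * (Wt D F' * α)
          / (tot D : ℝ) ^ (e + 1)
        = (((2 * C + 8 * (e + 1) + 8 : ℕ) : ℝ) * (Δ : ℝ) ^ (2 * C + 8 * (e + 1) + 8)) *
          (Wt D F' * α / (tot D : ℝ) ^ (e + 1)) := by ring
    rw [e1, e2]
    have hWn := Wt_nonneg D F'
    refine mul_le_mul_of_nonneg_right ?_ (by positivity)
    refine mul_le_mul ?_ (pow_le_pow_right₀ hΔ1 (by omega)) (by positivity) (by positivity)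
    push_cast
    have : (0 : ℝ) ≤ e := by positivity
    linarith

end Pool.Agent.RGA
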