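import Pool.Agent.RGA.Q6
import Pool.Agent.RGA.Mem
import Pool.Agent.RGA.Deg
import Pool.Agent.RGA.Sw
import Pool.Agent.RGA.Perm
import Pool.Agent.RGA.Add
import Pool.Agent.RGA.Rem
import Pool.Agent.RGA.PendN
import Pool.Agent.RGA.CoreN
import Pool.Agent.RGA.UB
import Pool.Agent.RGA.L0
import Pool.Agent.RGA.Exi
import Pool.Agent.RGA.Shift
import Pool.Agent.RGA.Pos
import Pool.Agent.RGA.Ratio
import Pool.Agent.RGA.DelM
import Pool.Agent.RGA.DelFin
import Pool.Agent.RGA.MInf
import Pool.Agent.RGA.LeafId
import Pool.Agent.RGA.LeafStep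
import Pool.Agent.RGA.LeafLim
import Pool.Agent.RGA.BC
import Pool.Agent.RGA.Core
import Pool.Agent.RGA.Bridge
import Pool.Agent.RGA.Compl
import Pool.Agent.RGA.Fin
import Pool.Agent.RGA.Iso
import Pool.Agent.RGA.Lev0

/-!
Assembly of all modules.
-/

set_option autoImplicit false

namespace Pool.Agent.RGA

theorem core_main : Stmt_Core := by
  have hMem := mem_proof
  have hDeg := deg_proof
  have hSw := sw_proof
  have hPerm := perm_proof
  have hAdd := add_proof
  have hRem := rem_proof
  have hP := pendN_proof hMem hDeg hPerm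
  have hC := coreN_proof hP hSw
  have hUB := uB_proof hMem hDeg hSw
  have hL0 := l0_proof hMem hDeg hSw hUB
  have hBr := bridge_proof hMem
  have hExi := exi_proof hBr
  have hSh := shift_proof hPerm
  have hPos := pos_proof hExi hSh hAdd hUB
  have hRat := ratio_proof hPos hAdd hSh hMem
  have hIso := iso_proof hPerm
  have hLev := lev0_proof hL0 hPos
  have hQ := q6_proof hP hC hLev hIso hPos
  have hDel := del_of_q6 hQ hRat delM_proof hPos
  have hLI := leafId_proof hMem hDeg hSw hPerm hRem
  have hLS := leafStep_proof hL0 hLI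
  have hLL := leafLim_proof hLI hRem hPerm hL0
  have hBC := bC_proof hLS hLL hExi
  exact core_proof hDel hBC mInf_proof

theorem final_main : Stmt_Final :=
  final_proof core_main (bridge_proof mem_proof) compl_proof

theorem exi_main : Stmt_Exi := exi_proof (bridge_proof mem_proof)

end Pool.Agent.RGA
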