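import Pool.Agent.RGA.Stmts

/-!
MP_3a123b_co: comparison of the sparse expansion with the expansion of Isaev and McKay on the
overlap of the two ranges.  The theorem of Isaev and McKay (quoted in the problem as known) gives
unknown polynomials `p_j` for `j ≥ 8`; the comparison shows that all their coefficients that could
spoil the bound of Q1 vanish.
-/

set_option autoImplicit false

namespace Pool.Agent.RGA

open Finset Filter Topology

/-- The theorem of Isaev and McKay, as quoted in the problem. -/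
def IsaevMcKay : Prop :=
  ∀ σ : ℝ, 0 < σ → ∃ q : ℕ → Polynomial ℝ,
    (∀ j, (q j).natDegree ≤ j) ∧
    (∀ j ∈ Finset.Icc 1 7, ∀ x : ℝ, (q j).eval x = pj j x) ∧
    ∀ m : ℕ, 1 ≤ m → ∃ C : ℝ, ∃ n₀ : ℕ, ∀ n d : ℕ, n₀ ≤ n → 1 ≤ d → d ≤ n - 2 →
      Even (d * n) → (n : ℝ) ^ σ ≤ min (d : ℝ) ((n : ℝ) - 1 - d) →
      |Real.log (RG n d) - (Real.log (Bnd n d)
        + ∑ j ∈ Finset.Icc 1 m, (q j).eval (Lam n d) / (Lam n d ^ j * (n : ℝ) ^ (j - 1)))|
        ≤ C / (Lam n d ^ (m + 1) * (n : ℝ) ^ m)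

namespace Ovl

lemma growth {ι : Type*} (S : Finset ι) (c E : ι → ℝ) (f : ι → ℕ → ℝ)
    (hE : ∀ i ∈ S, 0 < E i) (hinj : Set.InjOn E S)
    (hf : ∀ i ∈ S, Tendsto (fun n : ℕ => f i n / (n : ℝ) ^ E i) atTop (𝓝 1))
    (K : ℝ) (hb : ∀ᶠ n : ℕ in atTop, |∑ i ∈ S, c i * f i n| ≤ K) :
    ∀ i ∈ S, c i = 0 := by
  classical
  by_contra hne
  push Not at hne
  obtain ⟨i1, hi1, hc1⟩ := hne
  have hne' : (S.filter (fun i => c i ≠ 0)).Nonempty := ⟨i1, by simp [hi1, hc1]⟩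
  obtain ⟨i0, hi0, hmax⟩ := Finset.exists_max_image _ E hne'
  rw [Finset.mem_filter] at hi0
  have hlim : Tendsto (fun n : ℕ => (∑ i ∈ S, c i * f i n) / (n : ℝ) ^ E i0) atTop
      (𝓝 (c i0)) := by
    have h1 : ∀ i ∈ S, Tendsto (fun n : ℕ => c i * f i n / (n : ℝ) ^ E i0) atTop
        (𝓝 (if i = i0 then c i0 else 0)) := by
      intro i hi
      by_cases hii : i = i0
      · subst hii
        have := (hf i hi).const_mul (c i)
        simpa [mul_div_assoc] using this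
      · rw [if_neg hii]
        by_cases hci : c i = 0
        · simp [hci]
        · have hlt : E i < E i0 := by
            rcases lt_or_eq_of_le (hmax i (by simp [hi, hci])) with h | h
            · exact h
            · exact absurd (hinj hi hi0.1 h) hii
          have h2 : Tendsto (fun n : ℕ => (n : ℝ) ^ (-(E i0 - E i))) atTop (𝓝 0) :=
            (tendsto_rpow_neg_atTop (by linarith)).comp tendsto_natCast_atTop_atTop
          have h3 := ((hf i hi).mul h2).const_mul (c i)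
          simp only [mul_zero] at h3
          refine h3.congr' ?_
          filter_upwards [eventually_gt_atTop 0] with n hn
          have hn' : (0 : ℝ) < n := by exact_mod_cast hn
          rw [Real.rpow_neg hn'.le, Real.rpow_sub hn']
          have p1 := (Real.rpow_pos_of_pos hn' (E i)).ne'
          have p2 := (Real.rpow_pos_of_pos hn' (E i0)).ne'
          field_simp
    have h2 := tendsto_finsetSum S h1
    have h3 : ∑ i ∈ S, (if i = i0 then c i0 else 0) = c i0 := by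
      rw [Finset.sum_ite_eq' S i0]; simp [hi0.1]
    rw [h3] at h2
    refine h2.congr (fun n => ?_)
    rw [Finset.sum_div]
  have hlim0 : Tendsto (fun n : ℕ => (∑ i ∈ S, c i * f i n) / (n : ℝ) ^ E i0) atTop
      (𝓝 0) := by
    have h4 : Tendsto (fun n : ℕ => K / (n : ℝ) ^ E i0) atTop (𝓝 0) := by
      have h5 : Tendsto (fun n : ℕ => (n : ℝ) ^ (-(E i0))) atTop (𝓝 0) :=
        (tendsto_rpow_neg_atTop (hE i0 hi0.1)).comp tendsto_natCast_atTop_atTop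
      have h6 := h5.const_mul K
      rw [mul_zero] at h6
      refine h6.congr (fun n => ?_)
      rw [Real.rpow_neg (Nat.cast_nonneg n), div_eq_mul_inv]
    refine squeeze_zero_norm' ?_ h4
    filter_upwards [hb] with n hn
    rw [norm_div, Real.norm_eq_abs, Real.norm_of_nonneg (Real.rpow_nonneg (Nat.cast_nonneg n) _)]
    exact div_le_div_of_nonneg_right hn (Real.rpow_nonneg (Nat.cast_nonneg n) _)
  exact hi0.2 (tendsto_nhds_unique hlim hlim0)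

/-! elementary facts about `Λ` and `y = Λ n` -/

lemma lam_eq (n d : ℕ) : lam n d = (d : ℝ) / ((n : ℝ) - 1) := rfl

lemma Lam_mul (n d : ℕ) (hn : 3 ≤ n) :
    Lam n d * ((n : ℝ) - 1) ^ 2 = d * ((n : ℝ) - 1 - d) := by
  have h : ((n : ℝ) - 1) ≠ 0 := by
    have : (3 : ℝ) ≤ n := by exact_mod_cast hn
    linarith
  unfold Lam lam
  field_simp

/-- admissible pairs -/
lemma adm (n d : ℕ) (hd : 1 ≤ d) (hdn : d ≤ n - 2) :
    3 ≤ n ∧ (1 : ℝ) ≤ d ∧ (1 : ℝ) ≤ (n : ℝ) - 1 - d ∧ (3 : ℝ) ≤ n := by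
  have h1 : d + 2 ≤ n := by omega
  have h2 : ((d : ℝ) + 2) ≤ n := by exact_mod_cast h1
  have h3 : (1 : ℝ) ≤ d := by exact_mod_cast hd
  refine ⟨by omega, h3, by linarith, by linarith⟩

lemma Lam_pos (n d : ℕ) (hd : 1 ≤ d) (hdn : d ≤ n - 2) : 0 < Lam n d := by
  obtain ⟨h3, hd1, he1, hn3⟩ := adm n d hd hdn
  have h := Lam_mul n d h3
  have h2 : 0 < (d : ℝ) * ((n : ℝ) - 1 - d) := by positivity
  have h4 : 0 < ((n : ℝ) - 1) ^ 2 := by
    have : 0 < (n : ℝ) - 1 := by linarith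
    positivity
  rw [← h] at h2
  exact pos_of_mul_pos_left h2 h4.le

lemma Lam_le_one (n d : ℕ) : Lam n d ≤ 1 := by
  unfold Lam
  nlinarith [sq_nonneg (lam n d - 1 / 2)]

lemma Bnd_pos (n d : ℕ) (hd : 1 ≤ d) (hdn : d ≤ n - 2) : 0 < Bnd n d := by
  obtain ⟨h3, hd1, he1, hn3⟩ := adm n d hd hdn
  have hn1 : 0 < (n : ℝ) - 1 := by linarith
  have hl : 0 < lam n d := div_pos (by linarith) hn1
  have hl1 : 0 < 1 - lam n d := by
    have : lam n d < 1 := by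
      rw [lam_eq, div_lt_one hn1]; linarith
    linarith
  have hc : 0 < (((n - 1).choose d : ℕ) : ℝ) := by
    exact_mod_cast Nat.choose_pos (by omega)
  unfold Bnd
  have h1 := Real.rpow_pos_of_pos hl (lam n d * (n.choose 2 : ℝ))
  have h2 := Real.rpow_pos_of_pos hl1 ((1 - lam n d) * (n.choose 2 : ℝ))
  have h4 : 0 < Real.sqrt 2 := by positivity
  positivity

lemma log_Mnd (n d : ℕ) (hd : 1 ≤ d) (hdn : d ≤ n - 2) :
    Real.log (Mnd n d) = Real.log (Bnd n d) + S7 n d := by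
  unfold Mnd
  rw [Real.log_mul (Bnd_pos n d hd hdn).ne' (Real.exp_pos _).ne', Real.log_exp]

/-- `y ≥ min (d, n - 1 - d) / 2` -/
lemma y_ge (n d : ℕ) (hd : 1 ≤ d) (hdn : d ≤ n - 2) :
    min (d : ℝ) ((n : ℝ) - 1 - d) / 2 ≤ Lam n d * n := by
  obtain ⟨h3, hd1, he1, hn3⟩ := adm n d hd hdn
  have h := Lam_mul n d h3
  have hL := Lam_pos n d hd hdn
  have hn1 : 0 < (n : ℝ) - 1 := by linarith
  -- min * (n-1) ≤ 2 d (n-1-d)
  have key : min (d : ℝ) ((n : ℝ) - 1 - d) * ((n : ℝ) - 1) ≤ 2 * (d * ((n : ℝ) - 1 - d)) := by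
    rcases le_total (d : ℝ) ((n : ℝ) - 1 - d) with hle | hle
    · rw [min_eq_left hle]; nlinarith
    · rw [min_eq_right hle]; nlinarith
  rw [← h] at key
  have k2 : min (d : ℝ) ((n : ℝ) - 1 - d) ≤ 2 * (Lam n d * ((n : ℝ) - 1)) := by
    have : min (d : ℝ) ((n : ℝ) - 1 - d) * ((n : ℝ) - 1)
        ≤ (2 * (Lam n d * ((n : ℝ) - 1))) * ((n : ℝ) - 1) := by
      refine key.trans (le_of_eq ?_); ring
    exact le_of_mul_le_mul_right this hn1
  nlinarith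

lemma K_le (n d : ℕ) (hd : 1 ≤ d) (hdn : d ≤ n - 2) :
    (d : ℝ) ^ 3 * ((n : ℝ) - d) ^ 3 * n ≤ 8 * ((Lam n d * n) ^ 3 * (n : ℝ) ^ 4) := by
  obtain ⟨h3, hd1, he1, hn3⟩ := adm n d hd hdn
  have h := Lam_mul n d h3
  have hL := Lam_pos n d hd hdn
  have h1 : (d : ℝ) * ((n : ℝ) - d) ≤ 2 * (Lam n d * n * n) := by
    have a1 : (d : ℝ) * ((n : ℝ) - d) ≤ 2 * (d * ((n : ℝ) - 1 - d)) := by nlinarith
    have a2 : (d : ℝ) * ((n : ℝ) - 1 - d) ≤ Lam n d * n * n := by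
      rw [← h]; nlinarith
    linarith
  have h0 : 0 ≤ (d : ℝ) * ((n : ℝ) - d) := by
    have : 0 ≤ (n : ℝ) - d := by linarith
    positivity
  have h2 := pow_le_pow_left₀ h0 h1 3
  have hn0 : (0 : ℝ) ≤ n := by linarith
  calc (d : ℝ) ^ 3 * ((n : ℝ) - d) ^ 3 * n = ((d : ℝ) * ((n : ℝ) - d)) ^ 3 * n := by ring
    _ ≤ (2 * (Lam n d * n * n)) ^ 3 * n := mul_le_mul_of_nonneg_right h2 hn0
    _ = 8 * ((Lam n d * n) ^ 3 * (n : ℝ) ^ 4) := by ring

lemma Q_le (n d : ℕ) (hd : 1 ≤ d) (hdn : d ≤ n - 2) :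
    (Lam n d * n) ^ 3 * (n : ℝ) ^ 4 ≤ 64 * ((d : ℝ) ^ 3 * ((n : ℝ) - d) ^ 3 * n) := by
  obtain ⟨h3, hd1, he1, hn3⟩ := adm n d hd hdn
  have h := Lam_mul n d h3
  have hL := Lam_pos n d hd hdn
  have h1 : Lam n d * n * n ≤ 4 * ((d : ℝ) * ((n : ℝ) - d)) := by
    have a1 : Lam n d * n * n ≤ 4 * (Lam n d * ((n : ℝ) - 1) ^ 2) := by
      have : (n : ℝ) * n ≤ 4 * ((n : ℝ) - 1) ^ 2 := by nlinarith
      nlinarith
    rw [h] at a1
    nlinarith
  have hn0 : (0 : ℝ) ≤ n := by linarith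
  have h0 : 0 ≤ Lam n d * n * n := by positivity
  have h2 := pow_le_pow_left₀ h0 h1 3
  calc (Lam n d * n) ^ 3 * (n : ℝ) ^ 4 = (Lam n d * n * n) ^ 3 * n := by ring
    _ ≤ (4 * ((d : ℝ) * ((n : ℝ) - d))) ^ 3 * n := mul_le_mul_of_nonneg_right h2 hn0
    _ = 64 * ((d : ℝ) ^ 3 * ((n : ℝ) - d) ^ 3 * n) := by ring

/-- coefficients with `5 ≤ k` are harmless -/
lemma V_big (L n : ℝ) (hL : 0 < L) (hL1 : L ≤ 1) (hn : 1 ≤ n) (hy : 1 ≤ L * n)
    (j k : ℕ) (hj : 8 ≤ j) (hk : 5 ≤ k) (hkj : k ≤ j) :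
    L ^ k / (L ^ j * n ^ (j - 1)) * ((L * n) ^ 3 * n ^ 4) ≤ 1 := by
  have hn0 : 0 < n := by linarith
  have hy0 : 0 < L * n := by positivity
  have hyn : L * n ≤ n := by nlinarith
  rw [div_mul_eq_mul_div, div_le_one (by positivity)]
  -- multiply by n^(k+1)
  have hm : 0 < n ^ (k + 1) := by positivity
  refine le_of_mul_le_mul_right ?_ hm
  have e1 : L ^ k * ((L * n) ^ 3 * n ^ 4) * n ^ (k + 1) = (L * n) ^ (k + 3) * n ^ 5 := by ring
  have e2 : L ^ j * n ^ (j - 1) * n ^ (k + 1) = (L * n) ^ j * n ^ k := by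
    obtain ⟨i, rfl⟩ : ∃ i, j = i + 1 := ⟨j - 1, by omega⟩
    simp only [Nat.add_sub_cancel]
    ring
  rw [e1, e2]
  rcases le_total (k + 3) j with hc | hc
  · exact mul_le_mul (pow_le_pow_right₀ hy hc) (pow_le_pow_right₀ hn hk) (by positivity)
      (by positivity)
  · obtain ⟨r, hr⟩ := Nat.exists_eq_add_of_le hc
    have e3 : (L * n) ^ (k + 3) = (L * n) ^ j * (L * n) ^ r := by rw [hr, pow_add]
    rw [e3, mul_assoc]
    refine mul_le_mul_of_nonneg_left ?_ (by positivity)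
    calc (L * n) ^ r * n ^ 5 ≤ n ^ r * n ^ 5 :=
          mul_le_mul_of_nonneg_right (pow_le_pow_left₀ hy0.le hyn r) (by positivity)
      _ = n ^ (r + 5) := by rw [pow_add]
      _ ≤ n ^ k := pow_le_pow_right₀ hn (by omega)

lemma V_small (L n : ℝ) (hL : 0 < L) (hn : 0 < n) (j k : ℕ) (hj : 8 ≤ j) (hk : k ≤ 4) :
    L ^ k / (L ^ j * n ^ (j - 1)) * ((L * n) ^ 3 * n ^ 4) = n ^ (5 - k) / (L * n) ^ (j - k - 3) := by
  obtain ⟨i, rfl⟩ : ∃ i, j = i + k + 3 := ⟨j - k - 3, by omega⟩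
  obtain ⟨l, hl⟩ : ∃ l, 5 = k + l + 1 := ⟨4 - k, by omega⟩
  have e1 : i + k + 3 - k - 3 = i := by omega
  have e2 : i + k + 3 - 1 = i + k + 2 := by omega
  have e3 : 5 - k = l + 1 := by omega
  rw [e1, e2, e3, div_mul_eq_mul_div, div_eq_div_iff (by positivity) (by positivity)]
  have e4 : n ^ 4 = n ^ (k + l) := by congr 1; omega
  rw [e4]
  ring

/-- the general harmless term -/
lemma harmless (n y s : ℝ) (hn : 1 ≤ n) (hy : n ^ s / 2 ≤ y) (a t : ℕ) (hat : (a : ℝ) ≤ s * t) :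
    n ^ a / y ^ t ≤ 2 ^ t := by
  have hn0 : 0 < n := by linarith
  have hp : 0 < n ^ s := Real.rpow_pos_of_pos hn0 s
  have hy0 : 0 < y := by linarith
  rw [div_le_iff₀ (by positivity)]
  have h1 : n ^ a ≤ (n ^ s) ^ t := by
    rw [← Real.rpow_natCast n a, ← Real.rpow_natCast (n ^ s) t, ← Real.rpow_mul hn0.le]
    exact Real.rpow_le_rpow_of_exponent_le hn hat
  have h2 : (n ^ s) ^ t ≤ (2 * y) ^ t := pow_le_pow_left₀ hp.le (by linarith) t
  calc n ^ a ≤ (2 * y) ^ t := h1.trans h2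
    _ = 2 ^ t * y ^ t := mul_pow 2 y t

/-! the path `d ~ n ^ s` -/

noncomputable def dd (s : ℝ) (n : ℕ) : ℕ := 2 * (⌊(n : ℝ) ^ s / 2⌋₊ + 1)

lemma dd_ge (s : ℝ) (n : ℕ) : (n : ℝ) ^ s ≤ dd s n := by
  have := Nat.lt_floor_add_one ((n : ℝ) ^ s / 2)
  unfold dd
  push_cast
  linarith

lemma dd_le (s : ℝ) (n : ℕ) : (dd s n : ℝ) ≤ (n : ℝ) ^ s + 2 := by
  have := Nat.floor_le (by positivity : 0 ≤ (n : ℝ) ^ s / 2)
  unfold dd
  push_cast
  linarith

lemma tendsto_pow_top (s : ℝ) (hs : 0 < s) :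
    Tendsto (fun n : ℕ => (n : ℝ) ^ s) atTop atTop :=
  (tendsto_rpow_atTop hs).comp tendsto_natCast_atTop_atTop

lemma tendsto_pow_neg (s : ℝ) (hs : 0 < s) :
    Tendsto (fun n : ℕ => (n : ℝ) ^ (-s)) atTop (𝓝 0) :=
  (tendsto_rpow_neg_atTop hs).comp tendsto_natCast_atTop_atTop

lemma dd_lim (s : ℝ) (hs : 0 < s) :
    Tendsto (fun n : ℕ => (dd s n : ℝ) / (n : ℝ) ^ s) atTop (𝓝 1) := by
  have h1 : Tendsto (fun n : ℕ => 1 + 2 * (n : ℝ) ^ (-s)) atTop (𝓝 1) := by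
    have := ((tendsto_pow_neg s hs).const_mul 2).const_add 1
    simpa using this
  refine tendsto_of_tendsto_of_tendsto_of_le_of_le' tendsto_const_nhds h1 ?_ ?_
  · filter_upwards [eventually_gt_atTop 0] with n hn
    have hn' : (0 : ℝ) < n := by exact_mod_cast hn
    rw [le_div_iff₀ (Real.rpow_pos_of_pos hn' s), one_mul]
    exact dd_ge s n
  · filter_upwards [eventually_gt_atTop 0] with n hn
    have hn' : (0 : ℝ) < n := by exact_mod_cast hn
    have hp := Real.rpow_pos_of_pos hn' s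
    rw [div_le_iff₀ hp, Real.rpow_neg hn'.le]
    have := dd_le s n
    field_simp
    linarith

lemma ratio_lim : Tendsto (fun n : ℕ => (n : ℝ) / ((n : ℝ) - 1)) atTop (𝓝 1) := by
  have := tendsto_natCast_div_add_atTop (𝕜 := ℝ) (-1)
  simpa [sub_eq_add_neg] using this

lemma lam_lim (s : ℝ) (hs : 0 < s) (hs1 : s < 1) :
    Tendsto (fun n : ℕ => lam n (dd s n)) atTop (𝓝 0) := by
  have h := ((dd_lim s hs).mul ratio_lim).mul (tendsto_pow_neg (1 - s) (by linarith))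
  simp only [mul_one, mul_zero] at h
  refine h.congr' ?_
  filter_upwards [eventually_gt_atTop 0] with n hn
  have hn' : (0 : ℝ) < n := by exact_mod_cast hn
  have hp := (Real.rpow_pos_of_pos hn' s).ne'
  rw [neg_sub, Real.rpow_sub hn', Real.rpow_one, lam_eq]
  have hn0 := hn'.ne'
  field_simp

lemma y_lim (s : ℝ) (hs : 0 < s) (hs1 : s < 1) :
    Tendsto (fun n : ℕ => Lam n (dd s n) * n / (n : ℝ) ^ s) atTop (𝓝 1) := by
  have h := ((dd_lim s hs).mul ratio_lim).mul ((lam_lim s hs hs1).const_sub 1)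
  simp only [mul_one, sub_zero] at h
  refine h.congr (fun n => ?_)
  unfold Lam
  rw [lam_eq]
  ring

lemma W_lim (s : ℝ) (hs : 0 < s) (hs1 : s < 1) (k t : ℕ) (hk : k ≤ 4) :
    Tendsto (fun n : ℕ => ((n : ℝ) ^ (5 - k) / (Lam n (dd s n) * n) ^ t)
      / (n : ℝ) ^ ((5 - (k : ℝ)) - s * t)) atTop (𝓝 1) := by
  have h := ((y_lim s hs hs1).inv₀ one_ne_zero).pow t
  simp only [inv_one, one_pow] at h
  refine h.congr' ?_
  filter_upwards [eventually_gt_atTop 0] with n hn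
  have hn' : (0 : ℝ) < n := by exact_mod_cast hn
  have hk5 : (5 - (k : ℝ)) = ((5 - k : ℕ) : ℝ) := by
    rw [Nat.cast_sub (by omega)]; norm_num
  rw [Real.rpow_sub hn', hk5, Real.rpow_natCast, Real.rpow_mul hn'.le, Real.rpow_natCast]
  have hp := (Real.rpow_pos_of_pos hn' s).ne'
  have hq : (n : ℝ) ^ (5 - k) ≠ 0 := by positivity
  rw [inv_div, div_pow]
  generalize (Lam n (dd s n) * n) ^ t = Y
  rw [div_div_eq_mul_div, div_mul_eq_mul_div, div_div, mul_comm Y, mul_div_mul_left _ _ hq]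

/-- what the theorem of Isaev and McKay says after multiplication by `Q = y ^ 3 n ^ 4` -/
lemma step2 (s0 : ℝ) (hs0 : 0 < s0) (q : ℕ → Polynomial ℝ) (hdeg : ∀ j, (q j).natDegree ≤ j)
    (hq7 : ∀ j ∈ Finset.Icc 1 7, ∀ x : ℝ, (q j).eval x = pj j x)
    (m : ℕ) (hm : 8 ≤ m) (hms : (5 : ℝ) ≤ s0 * ((m - 2 : ℕ) : ℝ)) (C : ℝ) (n₀ : ℕ)
    (hIM : ∀ n d : ℕ, n₀ ≤ n → 1 ≤ d → d ≤ n - 2 →
      Even (d * n) → (n : ℝ) ^ s0 ≤ min (d : ℝ) ((n : ℝ) - 1 - d) →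
      |Real.log (RG n d) - (Real.log (Bnd n d)
        + ∑ j ∈ Finset.Icc 1 m, (q j).eval (Lam n d) / (Lam n d ^ j * (n : ℝ) ^ (j - 1)))|
        ≤ C / (Lam n d ^ (m + 1) * (n : ℝ) ^ m)) :
    ∃ K : ℝ, ∃ n₁ : ℕ, ∀ n d : ℕ, n₁ ≤ n → 1 ≤ d → d ≤ n - 2 →
      Even (d * n) → (n : ℝ) ^ s0 ≤ min (d : ℝ) ((n : ℝ) - 1 - d) →
      |((Lam n d * n) ^ 3 * (n : ℝ) ^ 4) * (Real.log (RG n d) - Real.log (Mnd n d))
        - ∑ i ∈ Finset.Icc 8 m ×ˢ Finset.range 5, (q i.1).coeff i.2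
          * ((n : ℝ) ^ (5 - i.2) / (Lam n d * n) ^ (i.1 - i.2 - 3))| ≤ K := by
  have hev : ∀ᶠ n : ℕ in atTop, (2 : ℝ) ≤ (n : ℝ) ^ s0 :=
    (tendsto_pow_top s0 hs0).eventually_ge_atTop 2
  obtain ⟨n₂, hn₂⟩ := eventually_atTop.mp hev
  refine ⟨|C| * 2 ^ (m - 2) + ∑ j ∈ Finset.Icc 8 m, ∑ k ∈ Finset.Ico 5 (j + 1), |(q j).coeff k|,
    max n₀ n₂, fun n d hn hd hdn he hmin => ?_⟩
  obtain ⟨h3, hd1, he1, hn3⟩ := adm n d hd hdn
  have hb := hIM n d ((le_max_left _ _).trans hn) hd hdn he hmin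
  have h2 := hn₂ n ((le_max_right _ _).trans hn)
  have hL := Lam_pos n d hd hdn
  have hL1 := Lam_le_one n d
  have hy := y_ge n d hd hdn
  have hyn : (n : ℝ) ^ s0 / 2 ≤ Lam n d * n := by linarith
  have hy1 : 1 ≤ Lam n d * n := by linarith
  rw [log_Mnd n d hd hdn]
  set L := Lam n d with hLdef
  set N := (n : ℝ) with hN
  have hN1 : (1 : ℝ) ≤ N := by linarith
  have hN0 : (0 : ℝ) < N := by linarith
  set Q := (L * N) ^ 3 * N ^ 4 with hQ
  have hQ0 : 0 < Q := by positivity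
  -- split of the sum
  have hsplit : Finset.Icc 1 m = Finset.Icc 1 7 ∪ Finset.Icc 8 m := by
    ext x; simp only [Finset.mem_union, Finset.mem_Icc]; omega
  have hdisj : Disjoint (Finset.Icc 1 7) (Finset.Icc 8 m) := by
    rw [Finset.disjoint_left]; intro x; simp only [Finset.mem_Icc]; omega
  rw [hsplit, Finset.sum_union hdisj] at hb
  have hS7 : ∑ j ∈ Finset.Icc 1 7, (q j).eval L / (L ^ j * N ^ (j - 1)) = S7 n d := by
    unfold S7
    refine Finset.sum_congr rfl (fun j hj => ?_)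
    rw [hq7 j hj]
  rw [hS7] at hb
  -- the sum over j ≥ 8, multiplied by Q
  have hsum : Q * ∑ j ∈ Finset.Icc 8 m, (q j).eval L / (L ^ j * N ^ (j - 1))
      = (∑ i ∈ Finset.Icc 8 m ×ˢ Finset.range 5, (q i.1).coeff i.2
          * (N ^ (5 - i.2) / (L * N) ^ (i.1 - i.2 - 3)))
        + ∑ j ∈ Finset.Icc 8 m, ∑ k ∈ Finset.Ico 5 (j + 1), (q j).coeff k
          * (L ^ k / (L ^ j * N ^ (j - 1)) * Q) := by
    rw [Finset.sum_product, ← Finset.sum_add_distrib, Finset.mul_sum]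
    refine Finset.sum_congr rfl (fun j hj => ?_)
    rw [Finset.mem_Icc] at hj
    have e1 : (q j).eval L = ∑ k ∈ Finset.range (j + 1), (q j).coeff k * L ^ k :=
      Polynomial.eval_eq_sum_range' (Nat.lt_succ_of_le (hdeg j)) L
    have e2 : ∑ k ∈ Finset.range 5, (q j).coeff k
          * (N ^ (5 - k) / (L * N) ^ (j - k - 3))
        = ∑ k ∈ Finset.range 5, (q j).coeff k * (L ^ k / (L ^ j * N ^ (j - 1)) * Q) := by
      refine Finset.sum_congr rfl (fun k hk => ?_)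
      rw [Finset.mem_range] at hk
      rw [hQ, V_small L N hL hN0 j k hj.1 (by omega)]
    rw [e2, Finset.sum_range_add_sum_Ico _ (by omega : 5 ≤ j + 1), e1, Finset.sum_div,
      Finset.mul_sum]
    refine Finset.sum_congr rfl (fun k _ => ?_)
    ring
  have hbig : |∑ j ∈ Finset.Icc 8 m, ∑ k ∈ Finset.Ico 5 (j + 1), (q j).coeff k
          * (L ^ k / (L ^ j * N ^ (j - 1)) * Q)|
      ≤ ∑ j ∈ Finset.Icc 8 m, ∑ k ∈ Finset.Ico 5 (j + 1), |(q j).coeff k| := by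
    refine (Finset.abs_sum_le_sum_abs _ _).trans (Finset.sum_le_sum (fun j hj => ?_))
    refine (Finset.abs_sum_le_sum_abs _ _).trans (Finset.sum_le_sum (fun k hk => ?_))
    rw [Finset.mem_Icc] at hj
    rw [Finset.mem_Ico] at hk
    have hv := V_big L N hL hL1 hN1 hy1 j k hj.1 hk.1 (by omega)
    have hv0 : 0 ≤ L ^ k / (L ^ j * N ^ (j - 1)) * Q := by positivity
    rw [abs_mul, abs_of_nonneg hv0]
    exact mul_le_of_le_one_right (abs_nonneg _) hv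
  have herr : Q * (C / (L ^ (m + 1) * N ^ m)) ≤ |C| * 2 ^ (m - 2) := by
    have e3 : Q / (L ^ (m + 1) * N ^ m) = N ^ 5 / (L * N) ^ (m - 2) := by
      obtain ⟨r, rfl⟩ : ∃ r, m = r + 2 := ⟨m - 2, by omega⟩
      rw [Nat.add_sub_cancel, div_eq_div_iff (by positivity) (by positivity), hQ]
      ring
    have e4 : N ^ 5 / (L * N) ^ (m - 2) ≤ 2 ^ (m - 2) :=
      harmless N (L * N) s0 hN1 hyn 5 (m - 2) (by push_cast; exact hms)
    calc Q * (C / (L ^ (m + 1) * N ^ m)) = C * (Q / (L ^ (m + 1) * N ^ m)) := by ring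
      _ ≤ |C| * (Q / (L ^ (m + 1) * N ^ m)) :=
          mul_le_mul_of_nonneg_right (le_abs_self C) (by positivity)
      _ ≤ |C| * 2 ^ (m - 2) := by
          rw [e3]; exact mul_le_mul_of_nonneg_left e4 (abs_nonneg _)
  have hb2 : |Q * (Real.log (RG n d) - (Real.log (Bnd n d) + (S7 n d
      + ∑ j ∈ Finset.Icc 8 m, (q j).eval L / (L ^ j * N ^ (j - 1)))))| ≤ |C| * 2 ^ (m - 2) := by
    rw [abs_mul, abs_of_pos hQ0]
    exact (mul_le_mul_of_nonneg_left hb hQ0.le).trans herr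
  have heq : Q * (Real.log (RG n d) - (Real.log (Bnd n d) + S7 n d))
        - ∑ i ∈ Finset.Icc 8 m ×ˢ Finset.range 5, (q i.1).coeff i.2
          * (N ^ (5 - i.2) / (L * N) ^ (i.1 - i.2 - 3))
      = Q * (Real.log (RG n d) - (Real.log (Bnd n d) + (S7 n d
      + ∑ j ∈ Finset.Icc 8 m, (q j).eval L / (L ^ j * N ^ (j - 1)))))
        + ∑ j ∈ Finset.Icc 8 m, ∑ k ∈ Finset.Ico 5 (j + 1), (q j).coeff k
          * (L ^ k / (L ^ j * N ^ (j - 1)) * Q) := by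
    have : Q * (Real.log (RG n d) - (Real.log (Bnd n d) + (S7 n d
      + ∑ j ∈ Finset.Icc 8 m, (q j).eval L / (L ^ j * N ^ (j - 1)))))
      = Q * (Real.log (RG n d) - (Real.log (Bnd n d) + S7 n d))
        - Q * ∑ j ∈ Finset.Icc 8 m, (q j).eval L / (L ^ j * N ^ (j - 1)) := by ring
    rw [this, hsum]
    ring
  rw [heq]
  exact (abs_add_le _ _).trans (add_le_add hb2 hbig)

lemma exists_s (s0 s1 : ℝ) (h01 : s0 < s1) (bad : Finset (ℕ × ℕ))
    (hbad : ∀ i ∈ bad, s0 * ((i.1 - i.2 - 3 : ℕ) : ℝ) < 5 - (i.2 : ℝ)) :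
    ∃ s : ℝ, s0 < s ∧ s < s1 ∧ Irrational s ∧
      ∀ i ∈ bad, s * ((i.1 - i.2 - 3 : ℕ) : ℝ) < 5 - (i.2 : ℝ) := by
  have hev : ∀ᶠ s : ℝ in 𝓝[>] s0, ∀ i ∈ bad,
      s * ((i.1 - i.2 - 3 : ℕ) : ℝ) < 5 - (i.2 : ℝ) := by
    rw [Filter.eventually_all_finset]
    intro i hi
    refine Filter.Eventually.filter_mono nhdsWithin_le_nhds ?_
    have hc : Continuous (fun s : ℝ => s * ((i.1 - i.2 - 3 : ℕ) : ℝ)) := by fun_prop
    exact (hc.tendsto s0).eventually_lt_const (hbad i hi)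
  have hev2 : ∀ᶠ s : ℝ in 𝓝[>] s0, s < s1 :=
    Filter.Eventually.filter_mono nhdsWithin_le_nhds (eventually_lt_nhds h01)
  obtain ⟨u, hu, hsub⟩ := mem_nhdsGT_iff_exists_Ioo_subset.mp (hev.and hev2)
  obtain ⟨s, hs, h1, h2⟩ := exists_irrational_btwn (Set.mem_Ioi.mp hu)
  have := hsub ⟨h1, h2⟩
  exact ⟨s, h1, this.2, hs, this.1⟩

end Ovl

open Ovl in
/-- the theorem of Isaev and McKay together with the sparse theorem gives Q1 for all `d` -/
theorem overlap (hFinal : Stmt_Final) (hIM : IsaevMcKay) :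
    ∃ C : ℝ, ∃ n₀ : ℕ, ∀ n d : ℕ, n₀ ≤ n → 1 ≤ d → d ≤ n - 2 → Even (d * n) →
      |Real.log (RG n d) - Real.log (Mnd n d)|
        ≤ C / ((d : ℝ) ^ 3 * ((n : ℝ) - d) ^ 3 * n) := by
  obtain ⟨σ, hσ, C1, n1, hS⟩ := hFinal
  obtain ⟨σ0, hσ0, hσσ, hσh⟩ : ∃ σ0 : ℝ, 0 < σ0 ∧ σ0 ≤ σ ∧ σ0 ≤ 1 / 2 :=
    ⟨min σ (1 / 2), lt_min hσ (by norm_num), min_le_left _ _, min_le_right _ _⟩
  obtain ⟨s0, hs0, hs0σ⟩ : ∃ s0 : ℝ, 0 < s0 ∧ s0 < σ0 := ⟨σ0 / 2, by linarith, by linarith⟩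
  obtain ⟨q, hdeg, hq7, hq⟩ := hIM s0 hs0
  obtain ⟨m, hm8, hms⟩ : ∃ m : ℕ, 8 ≤ m ∧ (5 : ℝ) ≤ s0 * ((m - 2 : ℕ) : ℝ) := by
    refine ⟨⌈5 / s0⌉₊ + 8, by omega, ?_⟩
    have h1 := Nat.le_ceil (5 / s0)
    rw [div_le_iff₀ hs0] at h1
    have h2 : ((⌈5 / s0⌉₊ + 8 - 2 : ℕ) : ℝ) = (⌈5 / s0⌉₊ : ℝ) + 6 := by
      rw [show ⌈5 / s0⌉₊ + 8 - 2 = ⌈5 / s0⌉₊ + 6 by omega]; push_cast; ring
    rw [h2]
    nlinarith
  obtain ⟨C2, n2, hm⟩ := hq m (by omega)
  obtain ⟨K, n3, hK⟩ := step2 s0 hs0 q hdeg hq7 m hm8 hms C2 n2 hm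
  classical
  set c : ℕ × ℕ → ℝ := fun i => (q i.1).coeff i.2 with hc
  set P : Finset (ℕ × ℕ) := Finset.Icc 8 m ×ˢ Finset.range 5 with hP
  set bd : ℕ × ℕ → Prop := fun i => s0 * ((i.1 - i.2 - 3 : ℕ) : ℝ) < 5 - (i.2 : ℝ) with hbd
  have hPm : ∀ i ∈ P, 8 ≤ i.1 ∧ i.2 ≤ 4 := by
    intro i hi
    rw [hP, Finset.mem_product, Finset.mem_Icc, Finset.mem_range] at hi
    exact ⟨hi.1.1, by omega⟩
  -- remove the harmless terms
  have step3 : ∃ K3 : ℝ, ∀ n d : ℕ, n3 ≤ n → 1 ≤ d → d ≤ n - 2 →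
      Even (d * n) → (n : ℝ) ^ s0 ≤ min (d : ℝ) ((n : ℝ) - 1 - d) →
      |((Lam n d * n) ^ 3 * (n : ℝ) ^ 4) * (Real.log (RG n d) - Real.log (Mnd n d))
        - ∑ i ∈ P.filter bd, c i
          * ((n : ℝ) ^ (5 - i.2) / (Lam n d * n) ^ (i.1 - i.2 - 3))| ≤ K3 := by
    refine ⟨K + ∑ i ∈ P.filter (fun i => ¬ bd i), |c i| * 2 ^ (i.1 - i.2 - 3),
      fun n d hn hd hdn he hmin => ?_⟩
    have h1 := hK n d hn hd hdn he hmin
    obtain ⟨h3, hd1, he1, hn3⟩ := adm n d hd hdn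
    have hy := y_ge n d hd hdn
    have hL := Lam_pos n d hd hdn
    have hh : |∑ i ∈ P.filter (fun i => ¬ bd i), c i
          * ((n : ℝ) ^ (5 - i.2) / (Lam n d * n) ^ (i.1 - i.2 - 3))|
        ≤ ∑ i ∈ P.filter (fun i => ¬ bd i), |c i| * 2 ^ (i.1 - i.2 - 3) := by
      refine (Finset.abs_sum_le_sum_abs _ _).trans (Finset.sum_le_sum (fun i hi => ?_))
      rw [Finset.mem_filter] at hi
      obtain ⟨hiP, hib⟩ := hi
      have hi2 := hPm i hiP
      have h5 : ((5 - i.2 : ℕ) : ℝ) = 5 - (i.2 : ℝ) := by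
        rw [Nat.cast_sub (by omega)]; norm_num
      have h4 := harmless (n : ℝ) (Lam n d * n) s0 (by linarith) (by linarith) (5 - i.2)
        (i.1 - i.2 - 3) (by rw [h5]; exact not_lt.mp hib)
      have h6 : (0 : ℝ) ≤ (n : ℝ) ^ (5 - i.2) / (Lam n d * n) ^ (i.1 - i.2 - 3) := by positivity
      rw [abs_mul, abs_of_nonneg h6]
      exact mul_le_mul_of_nonneg_left h4 (abs_nonneg _)
    rw [← Finset.sum_filter_add_sum_filter_not P bd] at h1
    have h7 : ((Lam n d * n) ^ 3 * (n : ℝ) ^ 4) * (Real.log (RG n d) - Real.log (Mnd n d))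
        - ∑ i ∈ P.filter bd, c i
          * ((n : ℝ) ^ (5 - i.2) / (Lam n d * n) ^ (i.1 - i.2 - 3))
      = (((Lam n d * n) ^ 3 * (n : ℝ) ^ 4) * (Real.log (RG n d) - Real.log (Mnd n d))
        - (∑ i ∈ P.filter bd, (q i.1).coeff i.2
          * ((n : ℝ) ^ (5 - i.2) / (Lam n d * n) ^ (i.1 - i.2 - 3))
          + ∑ i ∈ P.filter (fun i => ¬ bd i), (q i.1).coeff i.2
          * ((n : ℝ) ^ (5 - i.2) / (Lam n d * n) ^ (i.1 - i.2 - 3))))
        + ∑ i ∈ P.filter (fun i => ¬ bd i), c i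
          * ((n : ℝ) ^ (5 - i.2) / (Lam n d * n) ^ (i.1 - i.2 - 3)) := by
      simp only [hc]
      ring
    rw [h7]
    exact (abs_add_le _ _).trans (add_le_add h1 hh)
  obtain ⟨K3, hK3⟩ := step3
  -- the path
  obtain ⟨s, hs0s, hsσ, hirr, hsb⟩ := exists_s s0 σ0 hs0σ (P.filter bd) (by
    intro i hi; rw [Finset.mem_filter] at hi; exact hi.2)
  have hs : 0 < s := by linarith
  have hs1 : s < 1 := by linarith
  have hvan : ∀ i ∈ P.filter bd, c i = 0 := by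
    refine growth (P.filter bd) c (fun i => (5 - (i.2 : ℝ)) - s * ((i.1 - i.2 - 3 : ℕ) : ℝ))
      (fun i n => (n : ℝ) ^ (5 - i.2) / (Lam n (dd s n) * n) ^ (i.1 - i.2 - 3)) ?_ ?_ ?_
      (K3 + 64 * |C1|) ?_
    · intro i hi
      have := hsb i hi
      show 0 < (5 - (i.2 : ℝ)) - s * ((i.1 - i.2 - 3 : ℕ) : ℝ)
      linarith
    · intro i hi i' hi' hEE
      have hi2 := hPm i (Finset.mem_filter.mp (Finset.mem_coe.mp hi)).1
      have hi2' := hPm i' (Finset.mem_filter.mp (Finset.mem_coe.mp hi')).1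
      obtain ⟨j, k⟩ := i
      obtain ⟨j', k'⟩ := i'
      simp only at hi2 hi2' hEE
      have ht : j - k - 3 = j' - k' - 3 := by
        by_contra hne
        have hne' : ((j - k - 3 : ℕ) : ℝ) - ((j' - k' - 3 : ℕ) : ℝ) ≠ 0 := by
          rw [sub_ne_zero]; exact_mod_cast hne
        apply hirr
        refine ⟨((k' : ℚ) - k) / (((j - k - 3 : ℕ) : ℚ) - ((j' - k' - 3 : ℕ) : ℚ)), ?_⟩
        push_cast
        rw [div_eq_iff hne']
        linarith
      have hk : k = k' := by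
        rw [ht] at hEE
        have : (k : ℝ) = k' := by linarith
        exact_mod_cast this
      subst hk
      have : j = j' := by omega
      rw [this]
    · intro i hi
      have hi2 := hPm i (Finset.mem_filter.mp hi).1
      exact W_lim s hs hs1 i.2 (i.1 - i.2 - 3) hi2.2
    · have e1 := (tendsto_pow_top s hs).eventually_ge_atTop 4
      have e2 := (tendsto_pow_top (1 - s) (by linarith)).eventually_ge_atTop 3
      have e3 := (tendsto_pow_top (σ0 - s) (by linarith)).eventually_ge_atTop 2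
      filter_upwards [e1, e2, e3, eventually_ge_atTop (max (max n1 n3) 3)] with n h1 h2 h3 h4
      have hn1 : n1 ≤ n := by omega
      have hn3 : n3 ≤ n := by omega
      have hn : 3 ≤ n := by omega
      have hnR : (3 : ℝ) ≤ n := by exact_mod_cast hn
      have hn0 : (0 : ℝ) < n := by linarith
      have hnn1 : (1 : ℝ) ≤ n := by linarith
      have f1 : (n : ℝ) = (n : ℝ) ^ s * (n : ℝ) ^ (1 - s) := by
        rw [← Real.rpow_add hn0, add_sub_cancel, Real.rpow_one]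
      have f2 : (n : ℝ) ^ σ0 = (n : ℝ) ^ s * (n : ℝ) ^ (σ0 - s) := by
        rw [← Real.rpow_add hn0, add_sub_cancel]
      have f3 : 2 * (n : ℝ) ^ s + 4 ≤ n := by nlinarith
      have f4 : (n : ℝ) ^ s + 2 ≤ (n : ℝ) ^ σ0 := by nlinarith
      have f5 : (n : ℝ) ^ s0 ≤ (n : ℝ) ^ s := Real.rpow_le_rpow_of_exponent_le hnn1 hs0s.le
      have f6 : (n : ℝ) ^ σ0 ≤ (n : ℝ) ^ σ := Real.rpow_le_rpow_of_exponent_le hnn1 hσσ
      have g1 := dd_ge s n
      have g2 := dd_le s n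
      have hd : 1 ≤ dd s n := by unfold dd; omega
      have hdn : dd s n ≤ n - 2 := by
        have : (dd s n : ℝ) + 2 ≤ n := by linarith
        have : dd s n + 2 ≤ n := by exact_mod_cast this
        omega
      have he : Even (dd s n * n) := by
        unfold dd
        rw [mul_assoc]
        exact even_two_mul _
      have hmin : (n : ℝ) ^ s0 ≤ min (dd s n : ℝ) ((n : ℝ) - 1 - dd s n) :=
        le_min (by linarith) (by linarith)
      have k1 := hK3 n (dd s n) hn3 hd hdn he hmin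
      have k2 := hS n (dd s n) hn1 hd hdn he (Or.inl (by linarith))
      have k3 := Q_le n (dd s n) hd hdn
      obtain ⟨_, hd1, he1, _⟩ := adm n (dd s n) hd hdn
      have hL := Lam_pos n (dd s n) hd hdn
      have hKd : 0 < ((dd s n : ℕ) : ℝ) ^ 3 * ((n : ℝ) - (dd s n : ℕ)) ^ 3 * n := by
        have : 0 < (n : ℝ) - (dd s n : ℕ) := by linarith
        positivity
      have k4 : |((Lam n (dd s n) * n) ^ 3 * (n : ℝ) ^ 4)
          * (Real.log (RG n (dd s n)) - Real.log (Mnd n (dd s n)))| ≤ 64 * |C1| := by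
        have hQ0 : 0 < (Lam n (dd s n) * n) ^ 3 * (n : ℝ) ^ 4 := by positivity
        rw [abs_mul, abs_of_pos hQ0]
        rw [le_div_iff₀ hKd] at k2
        have k5 := le_abs_self C1
        calc ((Lam n (dd s n) * n) ^ 3 * (n : ℝ) ^ 4)
            * |Real.log (RG n (dd s n)) - Real.log (Mnd n (dd s n))|
            ≤ (64 * (((dd s n : ℕ) : ℝ) ^ 3 * ((n : ℝ) - (dd s n : ℕ)) ^ 3 * n))
              * |Real.log (RG n (dd s n)) - Real.log (Mnd n (dd s n))| :=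
              mul_le_mul_of_nonneg_right k3 (abs_nonneg _)
          _ = 64 * (|Real.log (RG n (dd s n)) - Real.log (Mnd n (dd s n))|
              * (((dd s n : ℕ) : ℝ) ^ 3 * ((n : ℝ) - (dd s n : ℕ)) ^ 3 * n)) := by ring
          _ ≤ 64 * C1 := by linarith
          _ ≤ 64 * |C1| := by linarith
      have k6 := abs_sub_abs_le_abs_sub
        (∑ i ∈ P.filter bd, c i
          * ((n : ℝ) ^ (5 - i.2) / (Lam n (dd s n) * n) ^ (i.1 - i.2 - 3)))
        (((Lam n (dd s n) * n) ^ 3 * (n : ℝ) ^ 4)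
          * (Real.log (RG n (dd s n)) - Real.log (Mnd n (dd s n))))
      rw [abs_sub_comm] at k6
      linarith
  -- conclusion
  refine ⟨|C1| + 8 * |K3|, max (max n1 n3) 3, fun n d hn hd hdn he => ?_⟩
  have hn1 : n1 ≤ n := by omega
  have hn3 : n3 ≤ n := by omega
  obtain ⟨_, hd1, he1, hnR⟩ := adm n d hd hdn
  have hL := Lam_pos n d hd hdn
  have hKd : 0 < (d : ℝ) ^ 3 * ((n : ℝ) - d) ^ 3 * n := by
    have : 0 < (n : ℝ) - d := by linarith
    positivity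
  rw [le_div_iff₀ hKd]
  by_cases hcase : ((d : ℝ) ≤ (n : ℝ) ^ σ ∨ ((n : ℝ) - 1 - d) ≤ (n : ℝ) ^ σ)
  · have k2 := hS n d hn1 hd hdn he hcase
    rw [le_div_iff₀ hKd] at k2
    have k5 := le_abs_self C1
    have k6 := abs_nonneg K3
    linarith
  · push Not at hcase
    have hnn1 : (1 : ℝ) ≤ n := by linarith
    have f6 : (n : ℝ) ^ s0 ≤ (n : ℝ) ^ σ :=
      Real.rpow_le_rpow_of_exponent_le hnn1 (by linarith)
    have hmin : (n : ℝ) ^ s0 ≤ min (d : ℝ) ((n : ℝ) - 1 - d) :=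
      le_min (by linarith [hcase.1]) (by linarith [hcase.2])
    have k1 := hK3 n d hn3 hd hdn he hmin
    have hz : ∑ i ∈ P.filter bd, c i
          * ((n : ℝ) ^ (5 - i.2) / (Lam n d * n) ^ (i.1 - i.2 - 3)) = 0 :=
      Finset.sum_eq_zero (fun i hi => by rw [hvan i hi, zero_mul])
    have hQ0 : 0 < (Lam n d * n) ^ 3 * (n : ℝ) ^ 4 := by positivity
    rw [hz, sub_zero, abs_mul, abs_of_pos hQ0] at k1
    have k3 := K_le n d hd hdn
    have k5 := le_abs_self K3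
    have k6 := abs_nonneg C1
    have k7 : |Real.log (RG n d) - Real.log (Mnd n d)| * ((d : ℝ) ^ 3 * ((n : ℝ) - d) ^ 3 * n)
        ≤ |Real.log (RG n d) - Real.log (Mnd n d)| * (8 * ((Lam n d * n) ^ 3 * (n : ℝ) ^ 4)) :=
      mul_le_mul_of_nonneg_left k3 (abs_nonneg _)
    nlinarith

end Pool.Agent.RGA
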