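import Pool.Agent.RGA.Cert15

/-!
The expansion of the probability of the edge between the two special vertices.
-/

set_option autoImplicit false

namespace Pool.Agent.RGA

/-- test of the final entry -/
def hdOK (e : Ent) : Bool :=
  Nat.ble 6 e.J && eqL e.L [(0, 1)] && z3 ((add3 e.p (neg3 p01)).take 6)

lemma hd_ok {e : Ent} (h4 : Ex e.J e.p (qq e.L)) (h : hdOK e = true) :
    Ex 6 p01 (qq [(0, 1)]) := by
  simp only [hdOK, Bool.and_eq_true, Nat.ble_eq] at h
  obtain ⟨⟨h1, h2⟩, h3⟩ := h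
  rw [eqL_eq h2] at h4
  exact h4.change h1 h3

theorem ckh : hdOK CT.e386 = true := by decide +kernel

theorem q6_proof (hP : Stmt_PendN) (hC : Stmt_CoreN) (hL : Stmt_Lev0) (hI : Stmt_Iso)
    (hPos : Stmt_Pos) : Stmt_Q6 :=
  hd_ok (CT.k386 ⟨hP, hC, hL, hI, hPos⟩) ckh

end Pool.Agent.RGA
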