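import Pool.Agent.RGA.RelAux

/-!
The pendant relation and the core relation for the normalised probabilities.
-/

set_option autoImplicit false

namespace Pool.Agent.RGA

open Finset

lemma ev_phi (n d k t v : ℕ) (L : List (ℕ × ℕ)) (hv : v < n + 2) (x : ℝ) :
    ev3 x d k (phi L v) = if tl L v = true then (Dm n d k v : ℝ) - dl L v else 1 := by
  unfold phi
  by_cases h : tl L v = true
  · rw [if_pos h]
    have h1 := (dl_pos_iff L v).mpr h
    have : Nat.beq (dl L v) 0 = false := by
      rw [← Bool.not_eq_true, Nat.beq_eq]; exact h1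
    rw [this]
    simp only [Bool.false_eq_true, if_false, dvs, ev3_add, ev_dv x n d k v hv, ev3_cst]
    push_cast
    ring
  · rw [if_neg h]
    have h1 : dl L v = 0 := by
      by_contra hne
      exact h ((dl_pos_iff L v).mp hne)
    have : Nat.beq (dl L v) 0 = true := by rw [Nat.beq_eq]; exact h1
    rw [this]
    simp

lemma ev_wf (n d k v : ℕ) (L : List (ℕ × ℕ)) (hv : v < n + 2) (x : ℝ) :
    ev3 x d k (wf L v) = if tl L v = true then 1 else (Dm n d k v : ℝ) := by
  unfold wf
  split_ifs
  · simp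
  · exact ev_dv x n d k v hv

/-- weight of a pattern with one more edge -/
lemma Wt_nrm (D : ℕ →₀ ℕ) (a b : ℕ) (hab : a ≠ b) (L : List (ℕ × ℕ)) :
    Wt D (toF (nrm a b :: L)) = Wt D (toF L) * (if tl L a = true then 1 else (D a : ℝ))
      * (if tl L b = true then 1 else (D b : ℝ)) := by
  rw [toF_nrm, Wt_insert D a b hab]
  simp only [mem_tch_toF]

lemma tl_nrm (a b v : ℕ) (L : List (ℕ × ℕ)) :
    tl (nrm a b :: L) v = true ↔ v = a ∨ v = b ∨ tl L v = true := by
  unfold tl
  rw [List.any_cons, Bool.or_eq_true, inc_nrm]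
  tauto

lemma tl_fresh {L : List (ℕ × ℕ)} {t v : ℕ} (h : okP L t = true) (hv : t ≤ v) :
    ¬ tl L v = true := by
  rw [← mem_tch_toF]
  intro hm
  have := tch_lt h v hm
  omega

lemma filt_iff (w v : ℕ) (L : List (ℕ × ℕ)) {t : ℕ} (h : okP L t = true) :
    ((!(Nat.beq w v) && !(memE (nrm v w) L)) = true) ↔ (w ≠ v ∧ s(v, w) ∉ toF L) := by
  rw [Bool.and_eq_true, Bool.not_eq_true', Bool.not_eq_true', ← Bool.not_eq_true, Nat.beq_eq,
    ← Bool.not_eq_true, memE_iff, mem_toF h]

lemma ev_m1 (x : ℝ) (d k t : ℕ) : ev3 x d k (m1 t) = 1 - x * (((t : ℝ) - 2) * d) := by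
  simp only [m1, ev3, ev2, ev1, pev]
  push_cast
  ring

theorem pend_rel (hP : Stmt_PendN) {n d k t v : ℕ} {L : List (ℕ × ℕ)} (hok : okP L t = true)
    (h2 : 2 ≤ t) (htn : t ≤ n + 1) (hvt : v < t) (hk : 1 ≤ k) (hkd : k ≤ d) (hx : 0 < xx n d)
    (hxd : xx n d * ((n : ℝ) * d) = 1) :
    (1 - xx n d * (((t : ℝ) - 2) * d)) * qq (nrm v t :: L) n d k
      = ev3 (xx n d) d k (phi L v) * qq L n d k + xx n d * evT n d k (pendT L v t) := by
  set x := xx n d with hxdef
  set D := Dm n d k with hD
  by_cases h0 : (N D ∅ : ℝ) = 0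
  · rw [qq_zero h0, qq_zero h0]
    unfold evT pendT
    rw [List.map_map]
    have : (fun e : P3 × List (ℕ × ℕ) => ev3 (xx n d) d k e.1 * qq e.2 n d k)
        = fun _ => (0 : ℝ) := by
      funext e
      rw [qq_zero h0]; ring
    have h2 : ∀ l : List ℕ, (List.map ((fun e : P3 × List (ℕ × ℕ) =>
        ev3 (xx n d) d k e.1 * qq e.2 n d k) ∘ fun w => (neg3 (wf L w), nrm v w :: L)) l).sum = 0 := by
      intro l
      rw [this]
      simp [Function.comp_def]
    rw [h2]; ring
  have hok1 : okP L (t + 1) = true := ok_mono hok (by omega)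
  have htm : nrm v t ∉ L := by
    intro hm
    have := (ok_edge hok hm)
    rcases nrm_eq v t with h | h
    · rw [h.1] at this; simp only at this; omega
    · omega
  have hokF : okP (nrm v t :: L) (t + 1) = true := ok_nrm hok1 (by omega) (by omega) (by omega) htm
  have hdpos : (0 : ℝ) < d := by exact_mod_cast (by omega : 0 < d)
  have hWL := Wt_pos hok (by omega : t ≤ n + 2) hk hkd (n := n)
  have hvn : v < n + 2 := by omega
  have hDv := Dm_pos hvn hk hkd
  have hDt : (D t : ℝ) = d := by
    rw [hD, Dm_val n d k t (by omega), if_neg (by omega)]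
  -- the relation for counts
  have hrel := hP n d k t v (toF L) (Lpl_toF hok) (tch_lt hok) h2 htn hvt
  have e0 : toF L ∪ {s(v, t)} = toF (nrm v t :: L) := by
    rw [toF_nrm, Finset.union_comm]; rfl
  rw [e0, N_eq hokF (by omega) hk hkd hx, N_eq hok (by omega) hk hkd hx, dg_toF hok v] at hrel
  have hWF : Wt D (toF (nrm v t :: L)) = Wt D (toF L) * (if tl L v = true then 1 else (D v : ℝ)) * d := by
    rw [Wt_nrm D v t (by omega), if_neg (tl_fresh hok le_rfl), hDt]
  set Wv : ℝ := (if tl L v = true then 1 else (D v : ℝ)) with hWv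
  have hWvpos : 0 < Wv := by
    rw [hWv]; split_ifs
    · exact one_pos
    · exact hDv
  -- the sum
  have hsum : ∑ w ∈ (range t).filter (fun w => w ≠ v ∧ s(v, w) ∉ toF L), (N D (toF L ∪ {s(v, w)}) : ℝ)
      = -(N D ∅ * (Wt D (toF L) * Wv) * x ^ (L.length + 1) * evT n d k (pendT L v t)) := by
    have e1 : evT n d k (pendT L v t)
        = ∑ w ∈ (range t).filter (fun w => (!(Nat.beq w v) && !(memE (nrm v w) L)) = true),
          ev3 x d k (neg3 (wf L w)) * qq (nrm v w :: L) n d k := by
      rw [← list_sum_range]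
      unfold evT pendT
      rw [List.map_map]
      rfl
    have e2 : (range t).filter (fun w => (!(Nat.beq w v) && !(memE (nrm v w) L)) = true)
        = (range t).filter (fun w => w ≠ v ∧ s(v, w) ∉ toF L) := by
      apply Finset.filter_congr
      intro w _
      exact filt_iff w v L hok
    rw [e1, e2, ← neg_mul, Finset.mul_sum]
    apply Finset.sum_congr rfl
    intro w hw
    rw [Finset.mem_filter, Finset.mem_range] at hw
    obtain ⟨hwt, hwv, hws⟩ := hw
    have hwn : w < n + 2 := by omega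
    have hm : nrm v w ∉ L := by rw [← mem_toF hok]; exact hws
    have hokw : okP (nrm v w :: L) t = true := ok_nrm hok hvt hwt (fun h => hwv h.symm) hm
    have e3 : toF L ∪ {s(v, w)} = toF (nrm v w :: L) := by
      rw [toF_nrm, Finset.union_comm]; rfl
    rw [e3, N_eq hokw (by omega) hk hkd hx, Wt_nrm D v w (fun h => hwv h.symm), ev3_neg,
      ev_wf n d k w L hwn]
    simp only [List.length_cons]
    rw [← hWv]
    ring
  rw [hsum, hWF] at hrel
  simp only [List.length_cons] at hrel
  have hphi : ((D v : ℝ) - dl L v) = ev3 x d k (phi L v) * Wv := by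
    rw [ev_phi n d k t v L hvn, hWv]
    by_cases h : tl L v = true
    · rw [if_pos h, if_pos h]; ring
    · rw [if_neg h, if_neg h]
      have h1 : dl L v = 0 := by
        by_contra hne
        exact h ((dl_pos_iff L v).mp hne)
      rw [h1]; push_cast; ring
  rw [hphi] at hrel
  -- cancel
  have hc : (N D ∅ : ℝ) * (Wt D (toF L) * Wv) * x ^ L.length ≠ 0 := by positivity
  apply mul_left_cancel₀ hc
  have hnd : ((n : ℝ) + 2 - t) * (d * x) = 1 - x * (((t : ℝ) - 2) * d) := by
    linear_combination hxd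
  rw [← hnd]
  linear_combination hrel

end Pool.Agent.RGA
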