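import Pool.Agent.RGA.Rel

/-!
The core relation for the normalised probabilities.
-/

set_option autoImplicit false

namespace Pool.Agent.RGA

open Finset

attribute [local irreducible] toF Dm N Wt xx ev3 mul3 add3 neg3 m1 dvs wf phi tl dl nrm okP qq

lemma evT_append (n d k : ℕ) (T T' : List (P3 × List (ℕ × ℕ))) :
    evT n d k (T ++ T') = evT n d k T + evT n d k T' := by
  simp [evT]

lemma evT_zero (n d k : ℕ) (h0 : (N (Dm n d k) ∅ : ℝ) = 0) (T : List (P3 × List (ℕ × ℕ))) :
    evT n d k T = 0 := by
  unfold evT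
  apply List.sum_eq_zero
  intro y hy
  rw [List.mem_map] at hy
  obtain ⟨e, _, rfl⟩ := hy
  rw [qq_zero h0]; ring

theorem core_rel (hC : Stmt_CoreN) {n d k t u v : ℕ} {L : List (ℕ × ℕ)} (hok : okP L t = true)
    (h2 : 2 ≤ t) (htn : t ≤ n) (hut : u < t) (hvt : v < t) (huv : u ≠ v) (hm : nrm u v ∉ L)
    (hk : 1 ≤ k) (hkd : k ≤ d) (hx : 0 < xx n d) (hxd : xx n d * ((n : ℝ) * d) = 1) :
    (1 - xx n d * (((t : ℝ) - 2) * d)) * qq (nrm u v :: L) n d k
      = ev3 (xx n d) d k (mul3 (phi L u) (phi L v)) * qq L n d k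
        + xx n d * evT n d k (coreT L u v t) := by
  set x := xx n d with hxdef
  set D := Dm n d k with hD
  by_cases h0 : (N D ∅ : ℝ) = 0
  · rw [qq_zero h0, qq_zero h0, evT_zero n d k h0]; ring
  have hdpos : (0 : ℝ) < d := by exact_mod_cast (by omega : 0 < d)
  have hWL := Wt_pos hok (by omega : t ≤ n + 2) hk hkd (n := n)
  have hun : u < n + 2 := by omega
  have hvn : v < n + 2 := by omega
  have hDu : (0 : ℝ) < D u := Dm_pos hun hk hkd
  have hDv : (0 : ℝ) < D v := Dm_pos hvn hk hkd
  have hDt : (D t : ℝ) = d := by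
    rw [hD, Dm_val n d k t (by omega), if_neg (by omega)]
  have hDt1 : (D (t + 1) : ℝ) = d := by
    rw [hD, Dm_val n d k (t + 1) (by omega), if_neg (by omega)]
  obtain ⟨F, hF⟩ : ∃ F, F = nrm u v :: L := ⟨_, rfl⟩
  have hokF : okP F t = true := by rw [hF]; exact ok_nrm hok hut hvt huv hm
  have hokF2 : okP F (t + 2) = true := ok_mono hokF (by omega)
  have hokL2 : okP L (t + 2) = true := ok_mono hok (by omega)
  -- freshness
  have fr : ∀ {M : List (ℕ × ℕ)} {s a b : ℕ}, okP M s = true → s ≤ b → a ≠ b → nrm a b ∉ M := by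
    intro M s a b hM hsb hab hmem
    have h1 := ok_edge hM hmem
    rcases nrm_eq a b with h | h
    · rw [h.1] at h1; simp only at h1; omega
    · rw [h.1] at h1; simp only at h1; omega
  set Wu : ℝ := (if tl L u = true then 1 else (D u : ℝ)) with hWu
  set Wv : ℝ := (if tl L v = true then 1 else (D v : ℝ)) with hWv
  have hWupos : 0 < Wu := by rw [hWu]; split_ifs; exacts [one_pos, hDu]
  have hWvpos : 0 < Wv := by rw [hWv]; split_ifs; exacts [one_pos, hDv]
  have hWF : Wt D (toF F) = Wt D (toF L) * Wu * Wv := by rw [hF]; exact Wt_nrm D u v huv L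
  have hphiu : ((D u : ℝ) - dl L u) = ev3 x d k (phi L u) * Wu := by
    rw [ev_phi n d k t u L hun, hWu]
    by_cases h : tl L u = true
    · rw [if_pos h, if_pos h]; ring
    · rw [if_neg h, if_neg h]
      have h1 : dl L u = 0 := by
        by_contra hne
        exact h ((dl_pos_iff L u).mp hne)
      rw [h1]; push_cast; ring
  have hphiv : ((D v : ℝ) - dl L v) = ev3 x d k (phi L v) * Wv := by
    rw [ev_phi n d k t v L hvn, hWv]
    by_cases h : tl L v = true
    · rw [if_pos h, if_pos h]; ring
    · rw [if_neg h, if_neg h]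
      have h1 : dl L v = 0 := by
        by_contra hne
        exact h ((dl_pos_iff L v).mp hne)
      rw [h1]; push_cast; ring
  -- the relation for counts
  have hsn : s(u, v) ∉ toF L := by rw [mem_toF hok]; exact hm
  have hrel := hC n d k t u v (toF L) (Lpl_toF hok) (tch_lt hok) h2 htn hut hvt huv hsn
  -- translation of the edge sets
  have s0 : toF L ∪ {s(u, v)} = toF F := by
    rw [hF, toF_nrm, Finset.union_comm]; rfl
  have s4a : toF L ∪ {s(u, v), s(t, t + 1), s(u, t)} = toF ((t, t + 1) :: nrm u t :: F) := by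
    rw [toF_cons, toF_nrm, hF, toF_nrm]; ext e; simp only [mem_union, mem_insert, mem_singleton]; tauto
  have s4b : toF L ∪ {s(u, v), s(t, t + 1), s(v, t + 1)}
      = toF ((t, t + 1) :: nrm v (t + 1) :: F) := by
    rw [toF_cons, toF_nrm, hF, toF_nrm]; ext e; simp only [mem_union, mem_insert, mem_singleton]; tauto
  have s4c : toF L ∪ {s(u, v), s(u, t), s(v, t + 1)} = toF (nrm u t :: nrm v (t + 1) :: F) := by
    rw [toF_nrm, toF_nrm, hF, toF_nrm]; ext e; simp only [mem_union, mem_insert, mem_singleton]; tauto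
  have s4d : toF L ∪ {s(u, t), s(v, t + 1), s(t, t + 1)}
      = toF ((t, t + 1) :: nrm u t :: nrm v (t + 1) :: L) := by
    rw [toF_cons, toF_nrm, toF_nrm]; ext e; simp only [mem_union, mem_insert, mem_singleton]; tauto
  -- validity
  have oA : okP (nrm u t :: F) (t + 2) = true :=
    ok_nrm hokF2 (by omega) (by omega) (by omega) (fr hokF le_rfl (by omega))
  have oB : okP (nrm v (t + 1) :: F) (t + 2) = true :=
    ok_nrm hokF2 (by omega) (by omega) (by omega) (fr hokF (by omega) (by omega))
  have oBL : okP (nrm v (t + 1) :: L) (t + 2) = true :=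
    ok_nrm hokL2 (by omega) (by omega) (by omega) (fr hok (by omega) (by omega))
  have enrm : nrm t (t + 1) = (t, t + 1) := by
    rcases nrm_eq t (t + 1) with h | h
    · exact h.1
    · omega
  have notin : ∀ {a : ℕ} {M : List (ℕ × ℕ)}, a < t → okP M t = true →
      ∀ b : ℕ, t ≤ b → (t, t + 1) ∉ nrm a b :: M := by
    intro a M ha hM b hb hmem
    rcases List.mem_cons.mp hmem with h | h
    · rcases nrm_eq a b with h1 | h1
      · rw [h1.1, Prod.mk.injEq] at h; omega
      · omega
    · have := ok_edge hM h; simp only at this; omega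
  have o4a : okP ((t, t + 1) :: nrm u t :: F) (t + 2) = true := by
    rw [okP_cons]
    exact ⟨by simp, by simp, notin hut hokF t le_rfl, oA⟩
  have o4b : okP ((t, t + 1) :: nrm v (t + 1) :: F) (t + 2) = true := by
    rw [okP_cons]
    exact ⟨by simp, by simp, notin hvt hokF (t + 1) (by omega), oB⟩
  have nA : nrm u t ∉ nrm v (t + 1) :: F := by
    intro hmem
    rcases List.mem_cons.mp hmem with h | h
    · rcases nrm_eq u t with h1 | h1 <;> rcases nrm_eq v (t + 1) with h2 | h2
      · rw [h1.1, h2.1, Prod.mk.injEq] at h; omega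
      · omega
      · omega
      · omega
    · exact fr hokF le_rfl (by omega) h
  have nAL : nrm u t ∉ nrm v (t + 1) :: L := by
    intro hmem
    apply nA
    rcases List.mem_cons.mp hmem with h | h
    · rw [h]; exact List.mem_cons_self
    · exact List.mem_cons_of_mem _ (by rw [hF]; exact List.mem_cons_of_mem _ h)
  have o4c : okP (nrm u t :: nrm v (t + 1) :: F) (t + 2) = true :=
    ok_nrm oB (by omega) (by omega) (by omega) nA
  have oAB : okP (nrm u t :: nrm v (t + 1) :: L) (t + 2) = true :=
    ok_nrm oBL (by omega) (by omega) (by omega) nAL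
  have o4d : okP ((t, t + 1) :: nrm u t :: nrm v (t + 1) :: L) (t + 2) = true := by
    rw [okP_cons]
    refine ⟨by simp, by simp, ?_, oAB⟩
    intro hmem
    rcases List.mem_cons.mp hmem with h | h
    · rcases nrm_eq u t with h1 | h1
      · rw [h1.1, Prod.mk.injEq] at h; omega
      · omega
    · exact notin hvt hok (t + 1) (by omega) h
  -- weights
  have tuF : tl F u = true := by rw [hF, tl_nrm]; tauto
  have tvF : tl F v = true := by rw [hF, tl_nrm]; tauto
  have ntF : ¬ tl F t = true := tl_fresh hokF le_rfl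
  have nt1F : ¬ tl F (t + 1) = true := tl_fresh hokF (by omega)
  have ntL : ¬ tl L t = true := tl_fresh hok le_rfl
  have nt1L : ¬ tl L (t + 1) = true := tl_fresh hok (by omega)
  have wA : Wt D (toF (nrm u t :: F)) = Wt D (toF F) * d := by
    rw [Wt_nrm D u t (by omega), if_pos tuF, if_neg ntF, hDt]; ring
  have wB : Wt D (toF (nrm v (t + 1) :: F)) = Wt D (toF F) * d := by
    rw [Wt_nrm D v (t + 1) (by omega), if_pos tvF, if_neg nt1F, hDt1]; ring
  have wBL : Wt D (toF (nrm v (t + 1) :: L)) = Wt D (toF L) * Wv * d := by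
    rw [Wt_nrm D v (t + 1) (by omega), if_neg nt1L, hDt1]
  have w4a : Wt D (toF ((t, t + 1) :: nrm u t :: F)) = Wt D (toF F) * d * d := by
    rw [← enrm, Wt_nrm D t (t + 1) (by omega), wA, if_pos, if_neg, hDt1]
    · ring
    · rw [tl_nrm]; push Not; exact ⟨by omega, by omega, by simpa using nt1F⟩
    · rw [tl_nrm]; tauto
  have w4b : Wt D (toF ((t, t + 1) :: nrm v (t + 1) :: F)) = Wt D (toF F) * d * d := by
    rw [← enrm, Wt_nrm D t (t + 1) (by omega), wB, if_neg, if_pos, hDt]
    · ring
    · rw [tl_nrm]; tauto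
    · rw [tl_nrm]; push Not; exact ⟨by omega, by omega, by simpa using ntF⟩
  have w4c : Wt D (toF (nrm u t :: nrm v (t + 1) :: F)) = Wt D (toF F) * d * d := by
    rw [Wt_nrm D u t (by omega), wB, if_pos, if_neg, hDt]
    · ring
    · rw [tl_nrm]; push Not; exact ⟨by omega, by omega, by simpa using ntF⟩
    · rw [tl_nrm]; tauto
  have wAB : Wt D (toF (nrm u t :: nrm v (t + 1) :: L)) = Wt D (toF F) * d * d := by
    rw [Wt_nrm D u t (by omega), wBL, hWF]
    have h1 : (tl (nrm v (t + 1) :: L) u = true) ↔ (tl L u = true) := by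
      rw [tl_nrm]
      constructor
      · rintro (h | h | h)
        · exact absurd h huv
        · omega
        · exact h
      · intro h; right; right; exact h
    have h2 : ¬ tl (nrm v (t + 1) :: L) t = true := by
      rw [tl_nrm]; push Not; exact ⟨by omega, by omega, by simpa using ntL⟩
    rw [if_neg h2, hDt]
    simp only [h1]
    rw [← hWu]; ring
  have w4d : Wt D (toF ((t, t + 1) :: nrm u t :: nrm v (t + 1) :: L)) = Wt D (toF F) * d * d := by
    rw [← enrm, Wt_nrm D t (t + 1) (by omega), wAB, if_pos, if_pos]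
    · ring
    · rw [tl_nrm, tl_nrm]; tauto
    · rw [tl_nrm]; tauto
  -- the first sum
  have hfilt : ∀ (a s : ℕ) (p : ℕ → ℝ), (range s).filter (fun w => w ≠ a ∧ s(a, w) ∉ toF L)
      = (range s).filter (fun w => (!(Nat.beq w a) && !(memE (nrm a w) L)) = true) := by
    intro a s _
    apply Finset.filter_congr
    intro w _
    exact (filt_iff w a L hok).symm
  set c1 : ℕ → P3 := fun w => neg3 (mul3 (if Nat.beq (dl L v) 0 && !(Nat.beq w v) then cst 1
    else dvs v (dl L v)) (wf F w)) with hc1
  have evc1 : ∀ w, w < n + 2 → w ≠ u → ((D v : ℝ) - dl L v) * (Wt D (toF L) * Wu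
      * (if tl L w = true then 1 else (D w : ℝ))) = -(ev3 x d k (c1 w)) * Wt D (toF F) := by
    intro w hwn hwu
    rw [hc1]
    simp only
    rw [ev3_neg, ev3_mul, ev_wf n d k w F hwn, hWF]
    by_cases hwv : w = v
    · subst hwv
      have hb : Nat.beq w w = true := by rw [Nat.beq_eq]
      rw [hb]
      simp only [Bool.not_true, Bool.and_false, Bool.false_eq_true, if_false]
      rw [if_pos tvF, ← hWv]
      unfold dvs
      rw [ev3_add, ev_dv x n d k w hwn, ev3_cst]
      push_cast
      ring
    · have hb : Nat.beq w v = false := by rw [← Bool.not_eq_true, Nat.beq_eq]; exact hwv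
      rw [hb]
      have h1 : (tl F w = true) ↔ (tl L w = true) := by
        rw [hF, tl_nrm]; tauto
      simp only [h1, Bool.not_false, Bool.and_true]
      by_cases h : tl L v = true
      · have h3 := (dl_pos_iff L v).mpr h
        have h4 : Nat.beq (dl L v) 0 = false := by rw [← Bool.not_eq_true, Nat.beq_eq]; exact h3
        rw [h4, hWv, if_pos h]
        simp only [Bool.false_eq_true, if_false]
        unfold dvs
        rw [ev3_add, ev_dv x n d k v hvn, ev3_cst]
        push_cast
        ring
      · have h3 : dl L v = 0 := by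
          by_contra hne
          exact h ((dl_pos_iff L v).mp hne)
        have h4 : Nat.beq (dl L v) 0 = true := by rw [Nat.beq_eq]; exact h3
        rw [h4, hWv, if_neg h, h3]
        simp only [if_true, ev3_cst]
        push_cast
        ring
  have hsum1 : ((D v : ℝ) - dl L v) * ∑ w ∈ (range t).filter (fun w => w ≠ u ∧ s(u, w) ∉ toF L),
        (N D (toF L ∪ {s(u, w)}) : ℝ)
      = -(N D ∅ * Wt D (toF F) * x ^ (L.length + 1) *
        ∑ w ∈ (range t).filter (fun w => (!(Nat.beq w u) && !(memE (nrm u w) L)) = true),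
          ev3 x d k (c1 w) * qq (nrm u w :: L) n d k) := by
    rw [← hfilt u t (fun _ => 0), ← neg_mul, Finset.mul_sum, Finset.mul_sum]
    apply Finset.sum_congr rfl
    intro w hw
    rw [Finset.mem_filter, Finset.mem_range] at hw
    obtain ⟨hwt, hwu, hws⟩ := hw
    have hmw : nrm u w ∉ L := by rw [← mem_toF hok]; exact hws
    have hokw : okP (nrm u w :: L) t = true := ok_nrm hok hut hwt (fun h => hwu h.symm) hmw
    have e3 : toF L ∪ {s(u, w)} = toF (nrm u w :: L) := by
      rw [toF_nrm, Finset.union_comm]; rfl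
    rw [e3, N_eq hokw (by omega) hk hkd hx, Wt_nrm D u w (fun h => hwu h.symm), ← hWu]
    simp only [List.length_cons]
    linear_combination (N D ∅ : ℝ) * x ^ (L.length + 1) * qq (nrm u w :: L) n d k
      * evc1 w (by omega) hwu
  -- the second sum
  set μ : ℝ := 1 - x * (((t : ℝ) - 2) * d) with hμ
  have hμev : ev3 x d k (m1 t) = μ := ev_m1 x d k t
  have hμev1 : ev3 x d k (m1 (t + 1)) = 1 - x * (((t : ℝ) - 1) * d) := by
    rw [ev_m1]; push_cast; ring
  set c2 : ℕ → P3 := fun w => neg3 (mul3 (m1 t) (if Nat.beq w t then cst 1 else wf F w)) with hc2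
  have hsum2 : ∑ w ∈ (range (t + 1)).filter (fun w => w ≠ v ∧ s(v, w) ∉ toF L),
        μ * (N D (toF L ∪ {s(u, t), s(v, w)}) : ℝ)
      = -(N D ∅ * Wt D (toF F) * d * x ^ (L.length + 2) *
        ∑ w ∈ (range (t + 1)).filter (fun w => (!(Nat.beq w v) && !(memE (nrm v w) L)) = true),
          ev3 x d k (c2 w) * qq (nrm u t :: nrm v w :: L) n d k) := by
    rw [← hfilt v (t + 1) (fun _ => 0), ← neg_mul, Finset.mul_sum]
    apply Finset.sum_congr rfl
    intro w hw
    rw [Finset.mem_filter, Finset.mem_range] at hw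
    obtain ⟨hwt, hwv, hws⟩ := hw
    have hmw : nrm v w ∉ L := by rw [← mem_toF hok]; exact hws
    have hok1 : okP L (t + 1) = true := ok_mono hok (by omega)
    have hokw : okP (nrm v w :: L) (t + 1) = true :=
      ok_nrm hok1 (by omega) hwt (fun h => hwv h.symm) hmw
    have hmu : nrm u t ∉ nrm v w :: L := by
      intro hmem
      rcases List.mem_cons.mp hmem with h | h
      · rcases nrm_eq u t with h1 | h1 <;> rcases nrm_eq v w with h2 | h2
        · rw [h1.1, h2.1, Prod.mk.injEq] at h; exact huv h.1
        · rw [h1.1, h2.1, Prod.mk.injEq] at h; omega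
        · omega
        · omega
      · exact fr hok le_rfl (by omega) h
    have hokuw : okP (nrm u t :: nrm v w :: L) (t + 1) = true :=
      ok_nrm hokw (by omega) (by omega) (by omega) hmu
    have e3 : toF L ∪ {s(u, t), s(v, w)} = toF (nrm u t :: nrm v w :: L) := by
      rw [toF_nrm, toF_nrm]; ext e; simp only [mem_union, mem_insert, mem_singleton]; tauto
    have hwei : Wt D (toF (nrm u t :: nrm v w :: L))
        = Wt D (toF F) * d * (if Nat.beq w t = true then 1 else
            (if tl F w = true then 1 else (D w : ℝ))) := by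
      rw [Wt_nrm D u t (by omega), Wt_nrm D v w (fun h => hwv h.symm), ← hWv, hWF]
      by_cases hwt' : w = t
      · subst hwt'
        have hb : Nat.beq w w = true := by rw [Nat.beq_eq]
        have hu1 : (tl (nrm v w :: L) u = true) ↔ (tl L u = true) := by
          rw [tl_nrm]
          constructor
          · rintro (h | h | h)
            · exact absurd h huv
            · omega
            · exact h
          · intro h; right; right; exact h
        have ht1 : tl (nrm v w :: L) w = true := by rw [tl_nrm]; tauto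
        rw [hb, if_pos rfl, if_neg ntL, if_pos ht1, hDt]
        simp only [hu1]
        rw [← hWu]; ring
      · have hb : Nat.beq w t = false := by rw [← Bool.not_eq_true, Nat.beq_eq]; exact hwt'
        have ht1 : ¬ tl (nrm v w :: L) t = true := by
          rw [tl_nrm]; push Not
          exact ⟨by omega, fun h => hwt' h.symm, by simpa using ntL⟩
        rw [hb, if_neg ht1, hDt]
        simp only [Bool.false_eq_true, if_false]
        by_cases hwu : w = u
        · subst hwu
          have h1 : tl (nrm v w :: L) w = true := by rw [tl_nrm]; tauto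
          rw [if_pos h1, if_pos tuF, ← hWu]; ring
        · have hu1 : (tl (nrm v w :: L) u = true) ↔ (tl L u = true) := by
            rw [tl_nrm]
            constructor
            · rintro (h | h | h)
              · exact absurd h huv
              · exact absurd h.symm hwu
              · exact h
            · intro h; right; right; exact h
          have h1 : (tl F w = true) ↔ (tl L w = true) := by
            rw [hF, tl_nrm]; tauto
          simp only [hu1, h1]
          rw [← hWu]; ring
    rw [e3, N_eq hokuw (by omega) hk hkd hx, hwei]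
    have hev : ev3 x d k (c2 w) = -(μ * (if Nat.beq w t = true then 1 else
            (if tl F w = true then 1 else (D w : ℝ)))) := by
      rw [hc2]
      simp only
      rw [ev3_neg, ev3_mul, hμev]
      by_cases hb : Nat.beq w t = true
      · rw [if_pos hb, if_pos hb]; simp
      · rw [if_neg hb, if_neg hb, ev_wf n d k w F (by omega)]
    rw [hev]
    simp only [List.length_cons]
    ring
  -- the third sum
  set c3 : ℕ → P3 := fun w => mul3 (m1 t) (wf F w) with hc3
  have hsum3 : ∑ w ∈ range t, μ * (N D (toF L ∪ {s(u, v), s(t, w)}) : ℝ)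
      = N D ∅ * Wt D (toF F) * d * x ^ (L.length + 2) *
        ∑ w ∈ range t, ev3 x d k (c3 w) * qq (nrm t w :: F) n d k := by
    rw [Finset.mul_sum]
    apply Finset.sum_congr rfl
    intro w hw
    rw [Finset.mem_range] at hw
    have hmw : nrm t w ∉ F := by
      intro hmem
      have h1 := ok_edge hokF hmem
      rcases nrm_eq t w with h | h
      · omega
      · rw [h.1] at h1; simp only at h1; omega
    have hok1 : okP F (t + 1) = true := ok_mono hokF (by omega)
    have hokw : okP (nrm t w :: F) (t + 1) = true :=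
      ok_nrm hok1 (by omega) (by omega) (by omega) hmw
    have e3 : toF L ∪ {s(u, v), s(t, w)} = toF (nrm t w :: F) := by
      rw [toF_nrm, hF, toF_nrm]; ext e; simp only [mem_union, mem_insert, mem_singleton]; tauto
    rw [e3, N_eq hokw (by omega) hk hkd hx, Wt_nrm D t w (by omega), if_neg ntF, hDt, hc3]
    simp only [List.length_cons]
    rw [ev3_mul, hμev, ev_wf n d k w F (by omega)]
    rw [hF]
    simp only [List.length_cons]
    ring
  -- the lists of terms
  have hT : evT n d k (coreT L u v t)
      = ∑ w ∈ (range t).filter (fun w => (!(Nat.beq w u) && !(memE (nrm u w) L)) = true),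
          ev3 x d k (c1 w) * qq (nrm u w :: L) n d k
        + ∑ w ∈ (range (t + 1)).filter (fun w => (!(Nat.beq w v) && !(memE (nrm v w) L)) = true),
          ev3 x d k (c2 w) * qq (nrm u t :: nrm v w :: L) n d k
        + ∑ w ∈ range t, ev3 x d k (c3 w) * qq (nrm t w :: F) n d k
        + μ * (1 - x * (((t : ℝ) - 1) * d)) *
          (qq ((t, t + 1) :: nrm u t :: F) n d k + qq ((t, t + 1) :: nrm v (t + 1) :: F) n d k
            - qq (nrm u t :: nrm v (t + 1) :: F) n d k
            - qq ((t, t + 1) :: nrm u t :: nrm v (t + 1) :: L) n d k) := by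
    unfold coreT
    simp only []
    rw [evT_append, evT_append, evT_append, ← hF]
    change evT n d k (((List.range t).filter (fun w => !(Nat.beq w u) && !(memE (nrm u w) L))).map
        (fun w => (c1 w, nrm u w :: L)))
      + evT n d k (((List.range (t + 1)).filter (fun w => !(Nat.beq w v)
        && !(memE (nrm v w) L))).map (fun w => (c2 w, nrm u t :: nrm v w :: L)))
      + evT n d k ((List.range t).map (fun w => (c3 w, nrm t w :: F)))
      + evT n d k [(mul3 (m1 t) (m1 (t + 1)), (t, t + 1) :: nrm u t :: F),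
        (mul3 (m1 t) (m1 (t + 1)), (t, t + 1) :: nrm v (t + 1) :: F),
        (neg3 (mul3 (m1 t) (m1 (t + 1))), nrm u t :: nrm v (t + 1) :: F),
        (neg3 (mul3 (m1 t) (m1 (t + 1))), (t, t + 1) :: nrm u t :: nrm v (t + 1) :: L)] = _
    have a1 : evT n d k (((List.range t).filter (fun w => !(Nat.beq w u) && !(memE (nrm u w) L))).map
        (fun w => (c1 w, nrm u w :: L)))
        = ∑ w ∈ (range t).filter (fun w => (!(Nat.beq w u) && !(memE (nrm u w) L)) = true),
          ev3 x d k (c1 w) * qq (nrm u w :: L) n d k := by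
      rw [← list_sum_range]; unfold evT; rw [List.map_map]; rfl
    have a2 : evT n d k (((List.range (t + 1)).filter (fun w => !(Nat.beq w v)
        && !(memE (nrm v w) L))).map (fun w => (c2 w, nrm u t :: nrm v w :: L)))
        = ∑ w ∈ (range (t + 1)).filter (fun w => (!(Nat.beq w v) && !(memE (nrm v w) L)) = true),
          ev3 x d k (c2 w) * qq (nrm u t :: nrm v w :: L) n d k := by
      rw [← list_sum_range]; unfold evT; rw [List.map_map]; rfl
    have a3 : evT n d k ((List.range t).map (fun w => (c3 w, nrm t w :: F)))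
        = ∑ w ∈ range t, ev3 x d k (c3 w) * qq (nrm t w :: F) n d k := by
      have := list_sum_range t (fun _ => true) (fun w => ev3 x d k (c3 w) * qq (nrm t w :: F) n d k)
      simp only [List.filter_true, Finset.filter_true] at this
      rw [← this]; unfold evT; rw [List.map_map]; rfl
    have a4 : evT n d k [(mul3 (m1 t) (m1 (t + 1)), (t, t + 1) :: nrm u t :: F),
        (mul3 (m1 t) (m1 (t + 1)), (t, t + 1) :: nrm v (t + 1) :: F),
        (neg3 (mul3 (m1 t) (m1 (t + 1))), nrm u t :: nrm v (t + 1) :: F),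
        (neg3 (mul3 (m1 t) (m1 (t + 1))), (t, t + 1) :: nrm u t :: nrm v (t + 1) :: L)]
        = μ * (1 - x * (((t : ℝ) - 1) * d)) *
          (qq ((t, t + 1) :: nrm u t :: F) n d k + qq ((t, t + 1) :: nrm v (t + 1) :: F) n d k
            - qq (nrm u t :: nrm v (t + 1) :: F) n d k
            - qq ((t, t + 1) :: nrm u t :: nrm v (t + 1) :: L) n d k) := by
      simp only [evT, List.map_cons, List.map_nil, List.sum_cons, List.sum_nil]
      rw [ev3_neg, ev3_mul, ← hxdef, hμev, hμev1]
      ring
    rw [a1, a2, a3, a4]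
  -- put everything together
  rw [s0, s4a, s4b, s4c, s4d, dg_toF hok u, dg_toF hok v, N_eq hokF (by omega) hk hkd hx,
    N_eq hok (by omega) hk hkd hx, N_eq o4a (by omega) hk hkd hx, N_eq o4b (by omega) hk hkd hx,
    N_eq o4c (by omega) hk hkd hx, N_eq o4d (by omega) hk hkd hx, w4a, w4b, w4c, w4d] at hrel
  rw [hsum1] at hrel
  rw [← Finset.mul_sum] at hsum2 hsum3
  have hnd : ((n : ℝ) + 2 - t) * (d * x) = μ := by
    rw [hμ]; linear_combination hxd
  have hnd1 : ((n : ℝ) + 1 - t) * (d * x) = 1 - x * (((t : ℝ) - 1) * d) := by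
    linear_combination hxd
  rw [hT, ev3_mul, ← hF]
  set Q1 := ∑ w ∈ (range t).filter (fun w => (!(Nat.beq w u) && !(memE (nrm u w) L)) = true),
          ev3 x d k (c1 w) * qq (nrm u w :: L) n d k with hQ1
  set Q2 := ∑ w ∈ (range (t + 1)).filter (fun w => (!(Nat.beq w v) && !(memE (nrm v w) L)) = true),
          ev3 x d k (c2 w) * qq (nrm u t :: nrm v w :: L) n d k with hQ2
  set Q3 := ∑ w ∈ range t, ev3 x d k (c3 w) * qq (nrm t w :: F) n d k with hQ3
  set R2 := ∑ w ∈ (range (t + 1)).filter (fun w => w ≠ v ∧ s(v, w) ∉ toF L),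
        (N D (toF L ∪ {s(u, t), s(v, w)}) : ℝ) with hR2
  set R3 := ∑ w ∈ range t, (N D (toF L ∪ {s(u, v), s(t, w)}) : ℝ) with hR3
  have hlenF : F.length = L.length + 1 := by rw [hF]; rfl
  simp only [List.length_cons, hlenF] at hrel
  rw [hphiu, hphiv, hWF] at hrel
  rw [hWF] at hsum2 hsum3
  have hc : (N D ∅ : ℝ) * (Wt D (toF L) * Wu * Wv) * x ^ L.length ≠ 0 := by positivity
  have hdx : (d : ℝ) * x ≠ 0 := by positivity
  apply mul_left_cancel₀ hc
  -- multiply the relation by `x`
  have key : (N D ∅ : ℝ) * (Wt D (toF L) * Wu * Wv) * x ^ L.length * (μ * qq F n d k) * (d * x)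
      = N D ∅ * (Wt D (toF L) * Wu * Wv) * x ^ L.length *
        (ev3 x d k (phi L u) * ev3 x d k (phi L v) * qq L n d k + x * (Q1 + Q2 + Q3
        + μ * (1 - x * (((t : ℝ) - 1) * d)) *
          (qq ((t, t + 1) :: nrm u t :: F) n d k + qq ((t, t + 1) :: nrm v (t + 1) :: F) n d k
            - qq (nrm u t :: nrm v (t + 1) :: F) n d k
            - qq ((t, t + 1) :: nrm u t :: nrm v (t + 1) :: L) n d k))) * (d * x) := by
    rw [← hnd1]
    rw [← hnd] at hsum2 hsum3 ⊢
    linear_combination (d * x) * hrel - hsum2 + hsum3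
  exact mul_right_cancel₀ hdx key

end Pool.Agent.RGA
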