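import Pool.Agent.RGA.RelDefs

/-!
Facts on patterns as lists: weights, degrees, touched vertices.
-/

set_option autoImplicit false

namespace Pool.Agent.RGA

open Finset

lemma nrm_eq (a b : ℕ) : (nrm a b = (a, b) ∧ a < b) ∨ (nrm a b = (b, a) ∧ b ≤ a) := by
  unfold nrm
  by_cases h : a < b
  · left
    have : Nat.blt a b = true := by simpa using h
    simp [this, h]
  · right
    have : Nat.blt a b = false := by
      rw [← Bool.not_eq_true, Nat.blt_eq]; exact h
    simp only [this]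
    exact ⟨by simp, by omega⟩

lemma s_nrm (a b : ℕ) : s((nrm a b).1, (nrm a b).2) = s(a, b) := by
  rcases nrm_eq a b with h | h
  · rw [h.1]
  · rw [h.1]; exact Sym2.eq_swap

lemma inc_iff (v : ℕ) (e : ℕ × ℕ) : inc v e = true ↔ v ∈ s(e.1, e.2) := by
  simp only [inc, Bool.or_eq_true, Nat.beq_eq, Sym2.mem_iff]
  constructor <;> rintro (h | h)
  · left; exact h.symm
  · right; exact h.symm
  · left; exact h.symm
  · right; exact h.symm

lemma inc_nrm (v a b : ℕ) : inc v (nrm a b) = true ↔ v = a ∨ v = b := by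
  rw [inc_iff, s_nrm, Sym2.mem_iff]

lemma toF_cons (e : ℕ × ℕ) (L : List (ℕ × ℕ)) : toF (e :: L) = insert s(e.1, e.2) (toF L) := by
  simp [toF]

lemma toF_nrm (a b : ℕ) (L : List (ℕ × ℕ)) : toF (nrm a b :: L) = insert s(a, b) (toF L) := by
  rw [toF_cons, s_nrm]

lemma mem_tch (F : Finset (Sym2 ℕ)) (v : ℕ) : v ∈ tch F ↔ ∃ e ∈ F, v ∈ e := by
  simp [tch, Finset.mem_biUnion, Sym2.mem_toFinset]

lemma mem_tch_toF (L : List (ℕ × ℕ)) (v : ℕ) : v ∈ tch (toF L) ↔ tl L v = true := by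
  rw [mem_tch]
  simp only [toF, List.mem_toFinset, List.mem_map, tl, List.any_eq_true]
  constructor
  · rintro ⟨e, ⟨f, hf, rfl⟩, hv⟩
    exact ⟨f, hf, (inc_iff v f).mpr hv⟩
  · rintro ⟨f, hf, hv⟩
    exact ⟨_, ⟨f, hf, rfl⟩, (inc_iff v f).mp hv⟩

lemma tch_insert (a b : ℕ) (F : Finset (Sym2 ℕ)) :
    tch (insert s(a, b) F) = insert a (insert b (tch F)) := by
  ext v
  rw [mem_tch, Finset.mem_insert, Finset.mem_insert, mem_tch]
  constructor
  · rintro ⟨e, he, hv⟩
    rcases Finset.mem_insert.mp he with rfl | he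
    · rcases Sym2.mem_iff.mp hv with h | h
      · left; exact h
      · right; left; exact h
    · right; right; exact ⟨e, he, hv⟩
  · rintro (h | h | ⟨e, he, hv⟩)
    · exact ⟨s(a, b), Finset.mem_insert_self _ _, by rw [h]; exact Sym2.mem_mk_left _ _⟩
    · exact ⟨s(a, b), Finset.mem_insert_self _ _, by rw [h]; exact Sym2.mem_mk_right _ _⟩
    · exact ⟨e, Finset.mem_insert_of_mem he, hv⟩

lemma Wt_insert (D : ℕ →₀ ℕ) (a b : ℕ) (hab : a ≠ b) (F : Finset (Sym2 ℕ)) :
    Wt D (insert s(a, b) F) = Wt D F * (if a ∈ tch F then 1 else (D a : ℝ))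
      * (if b ∈ tch F then 1 else (D b : ℝ)) := by
  unfold Wt
  rw [tch_insert]
  by_cases ha : a ∈ tch F <;> by_cases hb : b ∈ tch F
  · rw [Finset.insert_eq_of_mem hb, Finset.insert_eq_of_mem ha]; simp [ha, hb]
  · rw [Finset.insert_eq_of_mem (Finset.mem_insert_of_mem ha), Finset.prod_insert hb]
    simp [ha, hb]; ring
  · rw [Finset.insert_eq_of_mem hb, Finset.prod_insert ha]; simp [ha, hb]; ring
  · rw [Finset.prod_insert, Finset.prod_insert hb]
    · simp [ha, hb]; ring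
    · rw [Finset.mem_insert]; push Not; exact ⟨hab, ha⟩

lemma memE_iff (e : ℕ × ℕ) (L : List (ℕ × ℕ)) : memE e L = true ↔ e ∈ L := by
  simp only [memE, List.any_eq_true, eqE, Bool.and_eq_true, Nat.beq_eq]
  constructor
  · rintro ⟨f, hf, h1, h2⟩
    have : e = f := Prod.ext h1 h2
    rw [this]; exact hf
  · intro h
    exact ⟨e, h, rfl, rfl⟩

lemma okP_cons (e : ℕ × ℕ) (L : List (ℕ × ℕ)) (t : ℕ) :
    okP (e :: L) t = true ↔ e.1 < e.2 ∧ e.2 < t ∧ e ∉ L ∧ okP L t = true := by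
  simp only [okP, List.all_cons, ndE, Bool.and_eq_true, Bool.not_eq_true']
  rw [show (memE e L = false) ↔ e ∉ L by rw [← memE_iff]; simp]
  simp only [Nat.blt_eq]
  tauto

lemma ok_edge {L : List (ℕ × ℕ)} {t : ℕ} (h : okP L t = true) {e : ℕ × ℕ} (he : e ∈ L) :
    e.1 < e.2 ∧ e.2 < t := by
  induction L with
  | nil => simp at he
  | cons f L ih =>
    rw [okP_cons] at h
    rcases List.mem_cons.mp he with rfl | he
    · exact ⟨h.1, h.2.1⟩
    · exact ih h.2.2.2 he

lemma ok_nrm {a b : ℕ} {L : List (ℕ × ℕ)} {t : ℕ} (h : okP L t = true) (ha : a < t) (hb : b < t)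
    (hab : a ≠ b) (hm : nrm a b ∉ L) : okP (nrm a b :: L) t = true := by
  rw [okP_cons]
  rcases nrm_eq a b with h1 | h1
  · rw [h1.1] at hm ⊢; exact ⟨h1.2, hb, hm, h⟩
  · rw [h1.1] at hm ⊢; exact ⟨by simp only; omega, ha, hm, h⟩

lemma ok_mono {L : List (ℕ × ℕ)} {t t' : ℕ} (h : okP L t = true) (ht : t ≤ t') :
    okP L t' = true := by
  induction L with
  | nil => simp [okP, ndE]
  | cons e L ih =>
    rw [okP_cons] at h ⊢
    exact ⟨h.1, by omega, h.2.2.1, ih h.2.2.2⟩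

lemma mem_toF {L : List (ℕ × ℕ)} {t : ℕ} (h : okP L t = true) {a b : ℕ} :
    s(a, b) ∈ toF L ↔ nrm a b ∈ L := by
  simp only [toF, List.mem_toFinset, List.mem_map]
  constructor
  · rintro ⟨f, hf, h2⟩
    have hf1 := (ok_edge h hf).1
    rw [Sym2.eq_iff] at h2
    rcases nrm_eq a b with h3 | h3 <;> rcases h2 with ⟨e1, e2⟩ | ⟨e1, e2⟩
    · rw [h3.1]; have : f = (a, b) := Prod.ext e1 e2
      rw [← this]; exact hf
    · exfalso; omega
    · exfalso; omega
    · rw [h3.1]; have : f = (b, a) := Prod.ext e1 e2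
      rw [← this]; exact hf
  · intro hm
    exact ⟨nrm a b, hm, s_nrm a b⟩

lemma Lpl_toF {L : List (ℕ × ℕ)} {t : ℕ} (h : okP L t = true) : Lpl (toF L) := by
  intro e he
  simp only [toF, List.mem_toFinset, List.mem_map] at he
  obtain ⟨f, hf, rfl⟩ := he
  have := (ok_edge h hf).1
  rw [Sym2.mk_isDiag_iff]
  omega

lemma tch_lt {L : List (ℕ × ℕ)} {t : ℕ} (h : okP L t = true) : ∀ w ∈ tch (toF L), w < t := by
  intro w hw
  rw [mem_tch] at hw
  obtain ⟨e, he, hv⟩ := hw
  simp only [toF, List.mem_toFinset, List.mem_map] at he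
  obtain ⟨f, hf, rfl⟩ := he
  have h1 := ok_edge h hf
  rcases Sym2.mem_iff.mp hv with h2 | h2 <;> omega

lemma sE_not_mem {L : List (ℕ × ℕ)} {t : ℕ} (h : okP L t = true) {e : ℕ × ℕ} (he : e.1 < e.2)
    (hm : e ∉ L) : s(e.1, e.2) ∉ toF L := by
  rw [mem_toF h]
  rcases nrm_eq e.1 e.2 with h1 | h1
  · rw [h1.1]; exact hm
  · omega

lemma dg_toF {L : List (ℕ × ℕ)} {t : ℕ} (h : okP L t = true) (v : ℕ) :
    dg (toF L) v = dl L v := by
  induction L with
  | nil => simp [dg, toF, dl]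
  | cons e L ih =>
    rw [okP_cons] at h
    obtain ⟨h1, h2, h3, h4⟩ := h
    have hn := sE_not_mem h4 h1 h3
    have ih' := ih h4
    unfold dg at ih' ⊢
    rw [toF_cons, Finset.filter_insert]
    unfold dl at ih' ⊢
    rw [List.countP_cons]
    by_cases hv : v ∈ s(e.1, e.2)
    · rw [if_pos hv, Finset.card_insert_of_notMem, ih']
      · rw [if_pos ((inc_iff v e).mpr hv)]
      · rw [Finset.mem_filter]; push Not; intro h5; exact absurd h5 hn
    · rw [if_neg hv, ih', if_neg]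
      · rfl
      · rw [inc_iff]; exact hv

lemma dl_pos_iff (L : List (ℕ × ℕ)) (v : ℕ) : dl L v ≠ 0 ↔ tl L v = true := by
  unfold dl tl
  rw [← Nat.pos_iff_ne_zero, List.countP_pos_iff, List.any_eq_true]

lemma Dm_val (n d k v : ℕ) (hv : v < n + 2) :
    (Dm n d k v : ℝ) = if v < 2 then (k : ℝ) else d := by
  have : Dm n d k v = if v < 2 then k else if v < n + 2 then d else 0 := rfl
  rw [this, if_pos hv]
  split_ifs <;> rfl

lemma ev_dv (x : ℝ) (n d k v : ℕ) (hv : v < n + 2) :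
    ev3 x d k (dv v) = (Dm n d k v : ℝ) := by
  rw [Dm_val n d k v hv]
  unfold dv
  by_cases h : v < 2
  · rw [if_pos h]
    have : Nat.blt v 2 = true := by simpa using h
    rw [this]; simp
  · rw [if_neg h]
    have : Nat.blt v 2 = false := by
      rw [← Bool.not_eq_true, Nat.blt_eq]; exact h
    rw [this]; simp

lemma Dm_pos {n d k v : ℕ} (hv : v < n + 2) (hk : 1 ≤ k) (hkd : k ≤ d) :
    (0 : ℝ) < Dm n d k v := by
  rw [Dm_val n d k v hv]
  have h1 : (0 : ℝ) < k := by exact_mod_cast hk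
  have h2 : (0 : ℝ) < d := by exact_mod_cast (by omega : 0 < d)
  split_ifs <;> assumption

lemma Wt_pos {n d k t : ℕ} {L : List (ℕ × ℕ)} (h : okP L t = true) (ht : t ≤ n + 2)
    (hk : 1 ≤ k) (hkd : k ≤ d) : 0 < Wt (Dm n d k) (toF L) := by
  unfold Wt
  apply Finset.prod_pos
  intro v hv
  exact Dm_pos (by have := tch_lt h v hv; omega) hk hkd

lemma N_le (D : ℕ →₀ ℕ) (F : Finset (Sym2 ℕ)) : N D F ≤ N D ∅ := by
  unfold N
  apply Finset.card_le_card
  intro G hG
  rw [Finset.mem_filter] at hG ⊢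
  exact ⟨hG.1, Finset.empty_subset _⟩

/-- the count in terms of `qq` -/
lemma N_eq {n d k t : ℕ} {L : List (ℕ × ℕ)} (h : okP L t = true) (ht : t ≤ n + 2)
    (hk : 1 ≤ k) (hkd : k ≤ d) (hx : 0 < xx n d) :
    (N (Dm n d k) (toF L) : ℝ)
      = N (Dm n d k) ∅ * (Wt (Dm n d k) (toF L) * xx n d ^ L.length * qq L n d k) := by
  have hW := Wt_pos h ht hk hkd
  have hX : 0 < xx n d ^ L.length := pow_pos hx _
  unfold qq P
  by_cases h0 : (N (Dm n d k) ∅ : ℝ) = 0
  · have h1 : N (Dm n d k) (toF L) ≤ 0 := by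
      have := N_le (Dm n d k) (toF L)
      have h2 : N (Dm n d k) ∅ = 0 := by exact_mod_cast h0
      omega
    have h3 : (N (Dm n d k) (toF L) : ℝ) = 0 := by
      exact_mod_cast Nat.le_zero.mp h1
    rw [h3, h0]; simp
  · field_simp

lemma qq_zero {n d k : ℕ} (h0 : (N (Dm n d k) ∅ : ℝ) = 0) (L : List (ℕ × ℕ)) :
    qq L n d k = 0 := by
  unfold qq P
  rw [h0]; simp

/-- sums over filtered ranges -/
lemma list_sum_range (t : ℕ) (p : ℕ → Bool) (f : ℕ → ℝ) :
    (((List.range t).filter p).map f).sum = ∑ w ∈ (range t).filter (fun w => p w = true), f w := by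
  induction t with
  | zero => simp
  | succ t ih =>
    rw [List.range_succ, List.filter_append, List.map_append, List.sum_append, ih,
      Finset.range_add_one, Finset.filter_insert]
    by_cases hp : p t = true
    · rw [if_pos hp, Finset.sum_insert (by simp)]
      simp [hp]; ring
    · rw [if_neg hp]
      simp [hp]

end Pool.Agent.RGA
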