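import Pool.Agent.RGA.DelDefs

/-!
Patterns as lists of edges: computable functions, and the two relations as lists of terms.
-/

set_option autoImplicit false

namespace Pool.Agent.RGA

/-- normalised edge -/
def nrm (a b : ℕ) : ℕ × ℕ := if Nat.blt a b then (a, b) else (b, a)

/-- incidence -/
def inc (v : ℕ) (e : ℕ × ℕ) : Bool := Nat.beq e.1 v || Nat.beq e.2 v

/-- is `v` touched? -/
def tl (L : List (ℕ × ℕ)) (v : ℕ) : Bool := L.any (inc v)

/-- degree of `v` -/
def dl (L : List (ℕ × ℕ)) (v : ℕ) : ℕ := L.countP (inc v)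

/-- equality test for edges -/
def eqE (e f : ℕ × ℕ) : Bool := Nat.beq e.1 f.1 && Nat.beq e.2 f.2

/-- membership test -/
def memE (e : ℕ × ℕ) (L : List (ℕ × ℕ)) : Bool := L.any (eqE e)

/-- no duplicates -/
def ndE : List (ℕ × ℕ) → Bool
  | [] => true
  | e :: L => !(memE e L) && ndE L

/-- valid patterns with labels `< t` -/
def okP (L : List (ℕ × ℕ)) (t : ℕ) : Bool :=
  L.all (fun e => Nat.blt e.1 e.2 && Nat.blt e.2 t) && ndE L

/-- the polynomial of the degree of a vertex -/
def dv (v : ℕ) : P3 := if Nat.blt v 2 then vk else vd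

/-- `D_v - f` -/
def dvs (v f : ℕ) : P3 := add3 (dv v) (cst (-(f : Int)))

/-- weight factor of a vertex -/
def wf (L : List (ℕ × ℕ)) (v : ℕ) : P3 := if tl L v then cst 1 else dv v

/-- leading factor -/
def phi (L : List (ℕ × ℕ)) (v : ℕ) : P3 := if Nat.beq (dl L v) 0 then cst 1 else dvs v (dl L v)

/-- terms of the pendant relation -/
def pendT (L : List (ℕ × ℕ)) (v t : ℕ) : List (P3 × List (ℕ × ℕ)) :=
  ((List.range t).filter (fun w => !(Nat.beq w v) && !(memE (nrm v w) L))).map
    (fun w => (neg3 (wf L w), nrm v w :: L))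

/-- `1 - x (t - 2) d`, as a polynomial -/
def m1 (t : ℕ) : P3 := [[[1]], [[], [-((t : Int) - 2)]]]

/-- terms of the core relation: `L` is the pattern without the edge `uv` -/
def coreT (L : List (ℕ × ℕ)) (u v t : ℕ) : List (P3 × List (ℕ × ℕ)) :=
  let F := nrm u v :: L
  let mt := m1 t
  let mm := mul3 mt (m1 (t + 1))
  ((List.range t).filter (fun w => !(Nat.beq w u) && !(memE (nrm u w) L))).map
      (fun w => (neg3 (mul3 (if Nat.beq (dl L v) 0 && !(Nat.beq w v) then cst 1 else dvs v (dl L v))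
        (wf F w)), nrm u w :: L))
    ++ ((List.range (t + 1)).filter (fun w => !(Nat.beq w v) && !(memE (nrm v w) L))).map
      (fun w => (neg3 (mul3 mt (if Nat.beq w t then cst 1 else wf F w)), nrm u t :: nrm v w :: L))
    ++ (List.range t).map (fun w => (mul3 mt (wf F w), nrm t w :: F))
    ++ [(mm, (t, t + 1) :: nrm u t :: F), (mm, (t, t + 1) :: nrm v (t + 1) :: F),
        (neg3 mm, nrm u t :: nrm v (t + 1) :: F),
        (neg3 mm, (t, t + 1) :: nrm u t :: nrm v (t + 1) :: L)]

/-- value of a list of terms -/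
noncomputable def evT (n d k : ℕ) (T : List (P3 × List (ℕ × ℕ))) : ℝ :=
  (T.map (fun e => ev3 (xx n d) d k e.1 * qq e.2 n d k)).sum

/-- `(D_v - 1) (D_v - 2) ... (D_v - f + 1)` -/
def fallP (v : ℕ) : ℕ → P3
  | 0 => cst 1
  | 1 => cst 1
  | (f + 2) => mul3 (dvs v (f + 1)) (fallP v (f + 1))

/-- leading coefficient of the normalised probability, labels `< t` -/
def leadP (L : List (ℕ × ℕ)) : ℕ → P3
  | 0 => cst 1
  | (t + 1) => mul3 (fallP t (dl L t)) (leadP L t)

/-- LEV0: leading order of `qq` -/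
def Stmt_Lev0 : Prop :=
  ∀ (L : List (ℕ × ℕ)) (t : ℕ), okP L t = true → Ex 1 (leadP L t) (qq L)

/-- transposition of labels -/
def swv (a b v : ℕ) : ℕ := if Nat.beq v a then b else if Nat.beq v b then a else v

/-- transposition applied to a pattern -/
def swE (a b : ℕ) (L : List (ℕ × ℕ)) : List (ℕ × ℕ) :=
  L.map (fun e => nrm (swv a b e.1) (swv a b e.2))

/-- ISO: relabelling of two regular vertices, or of the two special ones -/
def Stmt_Iso : Prop :=
  ∀ (L : List (ℕ × ℕ)) (a b n d k : ℕ), ((2 ≤ a ∧ a < n + 2 ∧ 2 ≤ b ∧ b < n + 2) ∨ (a < 2 ∧ b < 2)) →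
    qq (swE a b L) n d k = qq L n d k

end Pool.Agent.RGA
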