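import Pool.Agent.RGA.Main

/-!
MP_3a123b_co, Q1: the high-precision asymptotics `M (n, d)` for the number `RG (n, d)` of labelled
`d`-regular graphs, in the whole sparse range `d ≤ n ^ σ` (and the complementary range
`n - 1 - d ≤ n ^ σ`), with one absolute exponent `σ > 0`, one absolute constant `C`.
This is the range in which the question was open: for `min (d, n - 1 - d) ≥ n ^ σ` it is a theorem
of Isaev and McKay.
-/

set_option autoImplicit false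

namespace Pool.Agent.RGA.SparseRange

/-- the number of labelled `d`-regular simple graphs on `n` vertices -/
noncomputable def RG (n d : ℕ) : ℕ :=
  Nat.card {G : SimpleGraph (Fin n) // ∀ v, (G.neighborSet v).ncard = d}

/-- the density `λ = d / (n - 1)` -/
noncomputable def lam (n d : ℕ) : ℝ := (d : ℝ) / ((n : ℝ) - 1)

/-- `Λ = λ (1 - λ)` -/
noncomputable def Lam (n d : ℕ) : ℝ := lam n d * (1 - lam n d)

/-- `B (n, d) = √2 * choose (n-1) d ^ n * λ ^ (λ choose n 2) * (1-λ) ^ ((1-λ) choose n 2)` -/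
noncomputable def B (n d : ℕ) : ℝ :=
  Real.sqrt 2 * ((n - 1).choose d : ℝ) ^ n
    * (lam n d) ^ (lam n d * (n.choose 2 : ℝ))
    * (1 - lam n d) ^ ((1 - lam n d) * (n.choose 2 : ℝ))

/-- the seven polynomials `p_1, ..., p_7` of the problem -/
noncomputable def p : ℕ → ℝ → ℝ
  | 1, x => x / 4
  | 2, x => -(x ^ 2 / 4)
  | 3, x => (2 * x ^ 2 - 23 * x ^ 3) / 24
  | 4, x => (22 * x ^ 3 - 129 * x ^ 4) / 24
  | 5, x => (-3 * x ^ 3 + 115 * x ^ 4 - 483 * x ^ 5) / 12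
  | 6, x => (-375 * x ^ 4 + 6615 * x ^ 5 - 22097 * x ^ 6) / 60
  | 7, x => (1046 * x ^ 4 - 87318 * x ^ 5 + 1002900 * x ^ 6 - 2791541 * x ^ 7) / 720
  | _, _ => 0

/-- `M (n, d) = B (n, d) * exp (∑ j = 1, ..., 7 of p_j (Λ) / (Λ ^ j * n ^ (j - 1)))` -/
noncomputable def M (n d : ℕ) : ℝ :=
  B n d * Real.exp (∑ j ∈ Finset.Icc 1 7, p j (Lam n d) / (Lam n d ^ j * (n : ℝ) ^ (j - 1)))

lemma p_eq (j : ℕ) (x : ℝ) : p j x = RGA.pj j x := by
  match j with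
  | 0 => rfl
  | 1 => rfl
  | 2 => rfl
  | 3 => rfl
  | 4 => rfl
  | 5 => rfl
  | 6 => rfl
  | 7 => rfl
  | (n + 8) => rfl

lemma M_eq (n d : ℕ) : M n d = RGA.Mnd n d := by
  unfold M RGA.Mnd RGA.S7
  have h : ∀ j ∈ Finset.Icc 1 7, p j (Lam n d) / (Lam n d ^ j * (n : ℝ) ^ (j - 1))
      = RGA.pj j (RGA.Lam n d) / (RGA.Lam n d ^ j * (n : ℝ) ^ (j - 1)) := by
    intro j _
    rw [p_eq]; rfl
  rw [Finset.sum_congr rfl h]
  rfl

/-- There are an exponent `σ > 0` and constants `C, n₀` such that for all `n ≥ n₀` and all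
`1 ≤ d ≤ n - 2` with `d n` even and `min (d, n - 1 - d) ≤ n ^ σ` there are `d`-regular graphs and
`|log RG (n, d) - log M (n, d)| ≤ C / (d ^ 3 (n - d) ^ 3 n)`. -/
theorem result :
    ∃ σ : ℝ, 0 < σ ∧ ∃ C : ℝ, ∃ n₀ : ℕ, ∀ n d : ℕ, n₀ ≤ n → 1 ≤ d → d ≤ n - 2 → Even (d * n) →
      min (d : ℝ) ((n : ℝ) - 1 - d) ≤ (n : ℝ) ^ σ →
      0 < RG n d ∧
      |Real.log (RG n d) - Real.log (M n d)| ≤ C / ((d : ℝ) ^ 3 * ((n : ℝ) - d) ^ 3 * n) := by
  obtain ⟨σ, hσ, C, n₀, h⟩ := RGA.final_main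
  refine ⟨σ, hσ, C, n₀, fun n d hn hd hdn he hm => ⟨?_, ?_⟩⟩
  · have h1 : 0 < RGA.Rn n d := RGA.exi_main n d hd (by omega) (by rwa [mul_comm])
    have h2 : RG n d = RGA.Rn n d := RGA.bridge_proof RGA.mem_proof n d
    rw [h2]; exact h1
  · have h1 := h n d hn hd hdn he (min_le_iff.mp hm)
    rw [M_eq]
    exact h1

end Pool.Agent.RGA.SparseRange
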