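import Pool.Agent.RGA.Rel2

/-!
The step lemmas: from expansions of smaller or shorter patterns to the expansion of a pattern,
and the checker.
-/

set_option autoImplicit false

namespace Pool.Agent.RGA

/-- division by `m1 t = 1 - x (t - 2) d` -/
lemma Ex.divm {J t : ℕ} {p : P3} {g h : ℕ → ℕ → ℕ → ℝ} (h1 : Ex J (mul3 (m1 t) p) h)
    (hrel : ∃ A : ℕ, ∀ n d k : ℕ, Dom A n d k →
      (1 - xx n d * (((t : ℝ) - 2) * d)) * g n d k = h n d k) : Ex J p g := by
  obtain ⟨A, hA⟩ := h1
  obtain ⟨B, hB⟩ := hrel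
  set C := t + 2 with hC
  refine ⟨2 * (A + B + C), fun n d k hD => ?_⟩
  have k1 := hA n d k (hD.mono (by omega))
  have k2 := hB n d k (hD.mono (by omega))
  have hd := hD.dR
  have hx := hD.x_pos
  have k3 : |(((t : ℝ) - 2) * d)| ≤ C * (d : ℝ) ^ C := by
    have e1 : |(t : ℝ) - 2| ≤ C := by
      rw [abs_le, hC]; push_cast
      constructor <;> nlinarith [Nat.cast_nonneg (α := ℝ) t]
    have e2 : (d : ℝ) ≤ (d : ℝ) ^ C := by
      calc (d : ℝ) = (d : ℝ) ^ 1 := (pow_one _).symm
        _ ≤ (d : ℝ) ^ C := pow_le_pow_right₀ hd (by omega)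
    rw [abs_mul, abs_of_nonneg (by linarith : (0 : ℝ) ≤ d)]
    exact mul_le_mul e1 e2 (by linarith) (Nat.cast_nonneg _)
  have k4 : |xx n d * (((t : ℝ) - 2) * d)| ≤ 1 / 2 := by
    rw [abs_mul, abs_of_pos hx]
    have s := hD.small' (C := 2 * (A + B + C)) le_rfl
    have s2 : (C : ℝ) * (d : ℝ) ^ C * 2 ≤ ((2 * (A + B + C) : ℕ) : ℝ) * (d : ℝ) ^ (2 * (A + B + C)) := by
      have e1 : (d : ℝ) ^ C ≤ (d : ℝ) ^ (2 * (A + B + C)) := pow_le_pow_right₀ hd (by omega)
      have e2 : (C : ℝ) * 2 ≤ ((2 * (A + B + C) : ℕ) : ℝ) := by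
        push_cast
        nlinarith [Nat.cast_nonneg (α := ℝ) A, Nat.cast_nonneg (α := ℝ) B]
      calc (C : ℝ) * (d : ℝ) ^ C * 2 = (C * 2) * (d : ℝ) ^ C := by ring
        _ ≤ _ := mul_le_mul e2 e1 (by positivity) (Nat.cast_nonneg _)
    have s3 : xx n d * |(((t : ℝ) - 2) * d)| ≤ xx n d * (C * (d : ℝ) ^ C) :=
      mul_le_mul_of_nonneg_left k3 hx.le
    have s4 : (C : ℝ) * (d : ℝ) ^ C * 2 * xx n d ≤ 1 :=
      le_trans (mul_le_mul_of_nonneg_right s2 hx.le) s
    nlinarith
  have k5 : 1 / 2 ≤ 1 - xx n d * (((t : ℝ) - 2) * d) := by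
    have := (abs_le.mp k4).2
    linarith
  rw [← k2, ev3_mul, ev_m1] at k1
  have k6 : (1 - xx n d * (((t : ℝ) - 2) * d)) * g n d k
      - (1 - xx n d * (((t : ℝ) - 2) * d)) * ev3 (xx n d) d k p
      = (1 - xx n d * (((t : ℝ) - 2) * d)) * (g n d k - ev3 (xx n d) d k p) := by ring
  rw [k6, abs_mul, abs_of_pos (by linarith : 0 < 1 - xx n d * (((t : ℝ) - 2) * d))] at k1
  have k7 : 1 / 2 * |g n d k - ev3 (xx n d) d k p| ≤ A * (d : ℝ) ^ A * xx n d ^ J :=
    le_trans (mul_le_mul_of_nonneg_right k5 (abs_nonneg _)) k1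
  have k8 : (A : ℝ) * (d : ℝ) ^ A * 2 ≤ ((2 * (A + B + C) : ℕ) : ℝ) * (d : ℝ) ^ (2 * (A + B + C)) := by
    have e1 : (d : ℝ) ^ A ≤ (d : ℝ) ^ (2 * (A + B + C)) := pow_le_pow_right₀ hd (by omega)
    have e2 : (A : ℝ) * 2 ≤ ((2 * (A + B + C) : ℕ) : ℝ) := by
      push_cast
      nlinarith [Nat.cast_nonneg (α := ℝ) C, Nat.cast_nonneg (α := ℝ) B]
    calc (A : ℝ) * (d : ℝ) ^ A * 2 = (A * 2) * (d : ℝ) ^ A := by ring
      _ ≤ _ := mul_le_mul e2 e1 (by positivity) (Nat.cast_nonneg _)
  have hx0 : 0 ≤ xx n d ^ J := pow_nonneg hx.le _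
  calc |g n d k - ev3 (xx n d) d k p| ≤ (A : ℝ) * (d : ℝ) ^ A * 2 * xx n d ^ J := by linarith
    _ ≤ _ := mul_le_mul_of_nonneg_right k8 hx0

lemma Ex.lower {J J' : ℕ} {p : P3} {f : ℕ → ℕ → ℕ → ℝ} (hf : Ex J p f) (hJ : J' ≤ J) :
    Ex J' p f := by
  obtain ⟨A, hA⟩ := hf
  refine ⟨A, fun n d k hD => le_trans (hA n d k hD) ?_⟩
  have hd := hD.dR
  exact mul_le_mul_of_nonneg_left (pow_le_pow_of_le_one hD.x_pos.le hD.x_le hJ) (by positivity)

/-- the combination of the polynomials with the coefficients of a list of terms -/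
def sumT : List (P3 × List (ℕ × ℕ)) → List P3 → P3
  | [], _ => []
  | _ :: _, [] => []
  | e :: T, p :: ps => add3 (mul3 e.1 p) (sumT T ps)

lemma Ex_evT {J : ℕ} {T : List (P3 × List (ℕ × ℕ))} {ps : List P3}
    (h : List.Forall₂ (fun e p => Ex J p (qq e.2)) T ps) :
    Ex J (sumT T ps) (fun n d k => evT n d k T) := by
  induction h with
  | nil =>
    refine ⟨0, fun n d k hD => ?_⟩
    simp [evT, sumT]
  | @cons e p T ps he _ ih =>
    have h1 : Ex J (mul3 e.1 p) (fun n d k => ev3 (xx n d) d k e.1 * qq e.2 n d k) :=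
      (Ex.poly J e.1).mul he
    exact (h1.add ih).congr_all (fun n d k => by simp [evT])

lemma Dom.xnd {A n d k : ℕ} (h : Dom A n d k) : xx n d * ((n : ℝ) * d) = 1 := by
  have h1 := h.dR
  have h2 := h.nR
  unfold xx
  have : (0 : ℝ) < (n : ℝ) * d := by nlinarith
  field_simp

lemma Dom.le_n {A n d k : ℕ} (h : Dom A n d k) : A + 1 ≤ n := by
  have h1 := h.d_pos
  have h2 : 1 ≤ d ^ (A + 1) := Nat.one_le_pow _ _ h1
  have h3 := h.2.2.1
  nlinarith

theorem pend_step (hP : Stmt_PendN) {J t v : ℕ} {L : List (ℕ × ℕ)} {p p0 : P3} {ps : List P3}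
    (hok : okP L t = true) (h2 : 2 ≤ t) (hvt : v < t) (h0 : Ex (J + 1) p0 (qq L))
    (hT : List.Forall₂ (fun e p => Ex J p (qq e.2)) (pendT L v t) ps)
    (hz : z3 ((add3 (add3 (mul3 (phi L v) p0) (mul3 vx (sumT (pendT L v t) ps)))
      (neg3 (mul3 (m1 t) p))).take (J + 1)) = true) :
    Ex (J + 1) p (qq (nrm v t :: L)) := by
  have h1 : Ex (J + 1) (add3 (mul3 (phi L v) p0) (mul3 vx (sumT (pendT L v t) ps)))
      (fun n d k => ev3 (xx n d) d k (phi L v) * qq L n d k
        + xx n d * evT n d k (pendT L v t)) :=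
    ((Ex.poly (J + 1) (phi L v)).mul h0).add (Ex_evT hT).xmul
  refine Ex.divm (h1.change le_rfl hz) ⟨t, fun n d k hD => ?_⟩
  exact pend_rel hP hok h2 (by have := hD.le_n; omega) hvt hD.1 hD.2.1 hD.x_pos hD.xnd

theorem core_step (hC : Stmt_CoreN) {J t u v : ℕ} {L : List (ℕ × ℕ)} {p p0 : P3} {ps : List P3}
    (hok : okP L t = true) (h2 : 2 ≤ t) (hut : u < t) (hvt : v < t) (huv : u ≠ v)
    (hm : nrm u v ∉ L) (h0 : Ex (J + 1) p0 (qq L))
    (hT : List.Forall₂ (fun e p => Ex J p (qq e.2)) (coreT L u v t) ps)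
    (hz : z3 ((add3 (add3 (mul3 (mul3 (phi L u) (phi L v)) p0)
      (mul3 vx (sumT (coreT L u v t) ps))) (neg3 (mul3 (m1 t) p))).take (J + 1)) = true) :
    Ex (J + 1) p (qq (nrm u v :: L)) := by
  have h1 : Ex (J + 1) (add3 (mul3 (mul3 (phi L u) (phi L v)) p0)
      (mul3 vx (sumT (coreT L u v t) ps)))
      (fun n d k => ev3 (xx n d) d k (mul3 (phi L u) (phi L v)) * qq L n d k
        + xx n d * evT n d k (coreT L u v t)) :=
    ((Ex.poly (J + 1) (mul3 (phi L u) (phi L v))).mul h0).add (Ex_evT hT).xmul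
  refine Ex.divm (h1.change le_rfl hz) ⟨t, fun n d k hD => ?_⟩
  exact core_rel hC hok h2 (by have := hD.le_n; omega) hut hvt huv hm hD.1 hD.2.1 hD.x_pos hD.xnd

/-! ### The checker -/

/-- order of edges -/
def leE (e f : ℕ × ℕ) : Bool := Nat.blt e.1 f.1 || (Nat.beq e.1 f.1 && Nat.ble e.2 f.2)

/-- insertion -/
def insE (e : ℕ × ℕ) : List (ℕ × ℕ) → List (ℕ × ℕ)
  | [] => [e]
  | f :: L => if leE e f then e :: f :: L else f :: insE e L

/-- insertion sort -/
def srt : List (ℕ × ℕ) → List (ℕ × ℕ)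
  | [] => []
  | e :: L => insE e (srt L)

lemma insE_perm (e : ℕ × ℕ) (L : List (ℕ × ℕ)) : (insE e L).Perm (e :: L) := by
  induction L with
  | nil => exact List.Perm.refl _
  | cons f L ih =>
    unfold insE
    split_ifs
    · exact List.Perm.refl _
    · exact (List.Perm.cons f ih).trans (List.Perm.swap e f L)

lemma srt_perm (L : List (ℕ × ℕ)) : (srt L).Perm L := by
  induction L with
  | nil => exact List.Perm.refl _
  | cons e L ih => exact (insE_perm e _).trans (List.Perm.cons e ih)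

lemma qq_perm {L L' : List (ℕ × ℕ)} (h : L.Perm L') (n d k : ℕ) : qq L n d k = qq L' n d k := by
  have h1 : toF L = toF L' := by
    unfold toF
    exact List.toFinset_eq_of_perm _ _ (h.map _)
  unfold qq
  rw [h1, h.length_eq]

/-- equality of patterns -/
def eqL : List (ℕ × ℕ) → List (ℕ × ℕ) → Bool
  | [], [] => true
  | e :: L, f :: M => eqE e f && eqL L M
  | _, _ => false

lemma eqL_eq : ∀ {L M : List (ℕ × ℕ)}, eqL L M = true → L = M := by
  intro L
  induction L with
  | nil => intro M h; cases M with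
    | nil => rfl
    | cons f M => simp [eqL] at h
  | cons e L ih =>
    intro M h
    cases M with
    | nil => simp [eqL] at h
    | cons f M =>
      simp only [eqL, Bool.and_eq_true, eqE, Nat.beq_eq] at h
      rw [ih h.2, Prod.ext h.1.1 h.1.2]

/-- a table entry: precision, sorted pattern, polynomial -/
structure Ent where
  J : ℕ
  L : List (ℕ × ℕ)
  p : P3

/-- validity -/
def Ent.ok (e : Ent) : Prop := Ex e.J e.p (qq e.L)

/-- apply a list of transpositions -/
def swL : List (ℕ × ℕ) → List (ℕ × ℕ) → List (ℕ × ℕ)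
  | [], L => L
  | s :: ss, L => swL ss (swE s.1 s.2 L)

/-- admissible transpositions with labels `< 40` -/
def okS (ss : List (ℕ × ℕ)) : Bool :=
  ss.all (fun s => (Nat.ble 2 s.1 && Nat.blt s.1 40 && Nat.ble 2 s.2 && Nat.blt s.2 40)
    || (Nat.blt s.1 2 && Nat.blt s.2 2))

lemma qq_swL (hI : Stmt_Iso) {n d k : ℕ} (hn : 40 ≤ n) (ss : List (ℕ × ℕ))
    (hs : okS ss = true) (L : List (ℕ × ℕ)) : qq (swL ss L) n d k = qq L n d k := by
  induction ss generalizing L with
  | nil => rfl
  | cons s ss ih =>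
    simp only [okS, List.all_cons, Bool.and_eq_true, Bool.or_eq_true, Nat.blt_eq, Nat.ble_eq] at hs
    have h1 := ih (by simpa [okS] using hs.2) (swE s.1 s.2 L)
    show qq (swL ss (swE s.1 s.2 L)) n d k = qq L n d k
    rw [h1]
    apply hI
    rcases hs.1 with ⟨⟨⟨a, b⟩, c⟩, e⟩ | ⟨a, b⟩
    · left; exact ⟨a, by omega, c, by omega⟩
    · right; exact ⟨a, b⟩

/-- a reference: index in the table and transpositions -/
abbrev Ref := ℕ × List (ℕ × ℕ)

/-- resolve a reference for the pattern `H` at precision `J` -/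
def resolve (tbl : List Ent) (J : ℕ) (H : List (ℕ × ℕ)) (r : Ref) : Option P3 :=
  if Nat.ble J 1 then
    (if okP H r.1 then some (leadP H r.1) else none)
  else
    match tbl[r.1]? with
    | none => none
    | some e => if Nat.ble J e.J && okS r.2 && eqL (srt (swL r.2 H)) e.L then some e.p else none

/-- resolve all terms -/
def resolveAll (tbl : List Ent) (J : ℕ) : List (P3 × List (ℕ × ℕ)) → List Ref → Option (List P3)
  | [], _ => some []
  | _ :: _, [] => none
  | e :: T, r :: rs =>
    match resolve tbl J e.2 r with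
    | none => none
    | some p =>
      match resolveAll tbl J T rs with
      | none => none
      | some ps => some (p :: ps)

lemma resolve_ok (hL : Stmt_Lev0) (hI : Stmt_Iso) {tbl : List Ent} (ht : ∀ e ∈ tbl, e.ok)
    {J : ℕ} {H : List (ℕ × ℕ)} {r : Ref} {p : P3} (h : resolve tbl J H r = some p) :
    Ex J p (qq H) := by
  unfold resolve at h
  by_cases hJ : Nat.ble J 1 = true
  · rw [if_pos hJ] at h
    by_cases hok : okP H r.1 = true
    · rw [if_pos hok, Option.some.injEq] at h
      rw [← h]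
      rw [Nat.ble_eq] at hJ
      exact (hL H r.1 hok).lower hJ
    · rw [if_neg hok] at h
      exact absurd h (by simp)
  · rw [if_neg hJ] at h
    cases he : tbl[r.1]? with
    | none => rw [he] at h; exact absurd h (by simp)
    | some e =>
      rw [he] at h
      simp only at h
      by_cases hc : (Nat.ble J e.J && okS r.2 && eqL (srt (swL r.2 H)) e.L) = true
      · rw [if_pos hc, Option.some.injEq] at h
        rw [← h]
        simp only [Bool.and_eq_true, Nat.ble_eq] at hc
        obtain ⟨⟨h1, h2⟩, h3⟩ := hc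
        have hm : e ∈ tbl := List.mem_of_getElem? he
        have h4 : Ex e.J e.p (qq e.L) := ht e hm
        refine (h4.lower h1).congr ⟨40, fun n d k hD => ?_⟩
        rw [← eqL_eq h3, qq_perm (srt_perm _), qq_swL hI (by have := hD.le_n; omega) _ h2]
      · rw [if_neg hc] at h
        exact absurd h (by simp)

lemma resolveAll_ok (hL : Stmt_Lev0) (hI : Stmt_Iso) {tbl : List Ent} (ht : ∀ e ∈ tbl, e.ok)
    {J : ℕ} {T : List (P3 × List (ℕ × ℕ))} {rs : List Ref} {ps : List P3}
    (h : resolveAll tbl J T rs = some ps) :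
    List.Forall₂ (fun e p => Ex J p (qq e.2)) T ps := by
  induction T generalizing rs ps with
  | nil =>
    simp only [resolveAll, Option.some.injEq] at h
    rw [← h]; exact List.Forall₂.nil
  | cons e T ih =>
    cases rs with
    | nil => simp [resolveAll] at h
    | cons r rs =>
      simp only [resolveAll] at h
      cases h1 : resolve tbl J e.2 r with
      | none => rw [h1] at h; simp at h
      | some p =>
        rw [h1] at h
        simp only at h
        cases h2 : resolveAll tbl J T rs with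
        | none => rw [h2] at h; simp at h
        | some ps' =>
          rw [h2] at h
          simp only [Option.some.injEq] at h
          rw [← h]
          exact List.Forall₂.cons (resolve_ok hL hI ht h1) (ih h2)

/-- an instruction -/
structure Ins where
  core : Bool
  J : ℕ
  L : List (ℕ × ℕ)
  u : ℕ
  v : ℕ
  t : ℕ
  r0 : Ref
  rs : List Ref
  F : List (ℕ × ℕ)
  p : P3

/-- check of an instruction -/
def chk (tbl : List Ent) (i : Ins) : Bool :=
  okP i.L i.t && Nat.ble 2 i.t && Nat.blt i.v i.t &&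
  (match resolve tbl (i.J + 1) i.L i.r0 with
    | none => false
    | some p0 =>
      if i.core then
        Nat.blt i.u i.t && !(Nat.beq i.u i.v) && !(memE (nrm i.u i.v) i.L) &&
        (match resolveAll tbl i.J (coreT i.L i.u i.v i.t) i.rs with
          | none => false
          | some ps =>
            z3 ((add3 (add3 (mul3 (mul3 (phi i.L i.u) (phi i.L i.v)) p0)
              (mul3 vx (sumT (coreT i.L i.u i.v i.t) ps))) (neg3 (mul3 (m1 i.t) i.p))).take (i.J + 1))
            && eqL (srt (nrm i.u i.v :: i.L)) i.F)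
      else
        (match resolveAll tbl i.J (pendT i.L i.v i.t) i.rs with
          | none => false
          | some ps =>
            z3 ((add3 (add3 (mul3 (phi i.L i.v) p0)
              (mul3 vx (sumT (pendT i.L i.v i.t) ps))) (neg3 (mul3 (m1 i.t) i.p))).take (i.J + 1))
            && eqL (srt (nrm i.v i.t :: i.L)) i.F))

lemma chk_ok (hP : Stmt_PendN) (hC : Stmt_CoreN) (hL : Stmt_Lev0) (hI : Stmt_Iso)
    {tbl : List Ent} (ht : ∀ e ∈ tbl, e.ok) {i : Ins} (h : chk tbl i = true) :
    Ent.ok ⟨i.J + 1, i.F, i.p⟩ := by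
  unfold chk at h
  simp only [Bool.and_eq_true, Nat.ble_eq, Nat.blt_eq] at h
  obtain ⟨⟨⟨hok, h2⟩, hv⟩, h⟩ := h
  cases h0 : resolve tbl (i.J + 1) i.L i.r0 with
  | none => rw [h0] at h; simp at h
  | some p0 =>
    rw [h0] at h
    simp only at h
    have e0 := resolve_ok hL hI ht h0
    by_cases hc : i.core = true
    · rw [if_pos hc] at h
      simp only [Bool.and_eq_true, Nat.blt_eq] at h
      obtain ⟨⟨⟨hu, huv⟩, hm⟩, h⟩ := h
      cases h1 : resolveAll tbl i.J (coreT i.L i.u i.v i.t) i.rs with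
      | none => rw [h1] at h; simp at h
      | some ps =>
        rw [h1] at h
        simp only [Bool.and_eq_true] at h
        obtain ⟨hz, hF⟩ := h
        have huv' : i.u ≠ i.v := by
          intro he
          rw [he] at huv
          simp at huv
        have hm' : nrm i.u i.v ∉ i.L := by
          intro he
          rw [← memE_iff] at he
          rw [he] at hm
          simp at hm
        have := core_step hC hok h2 hu hv huv' hm' e0 (resolveAll_ok hL hI ht h1) hz
        show Ex (i.J + 1) i.p (qq i.F)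
        refine this.congr_all (fun n d k => ?_)
        rw [← eqL_eq hF, qq_perm (srt_perm _)]
    · rw [if_neg hc] at h
      cases h1 : resolveAll tbl i.J (pendT i.L i.v i.t) i.rs with
      | none => rw [h1] at h; simp at h
      | some ps =>
        rw [h1] at h
        simp only [Bool.and_eq_true] at h
        obtain ⟨hz, hF⟩ := h
        have := pend_step hP hok h2 hv e0 (resolveAll_ok hL hI ht h1) hz
        show Ex (i.J + 1) i.p (qq i.F)
        refine this.congr_all (fun n d k => ?_)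
        rw [← eqL_eq hF, qq_perm (srt_perm _)]

/-- the table produced by a list of instructions -/
def addI (tbl : List Ent) (is : List Ins) : List Ent :=
  is.foldl (fun tbl i => ⟨i.J + 1, i.F, i.p⟩ :: tbl) tbl

/-- check of a list of instructions -/
def run (tbl : List Ent) : List Ins → Bool
  | [] => true
  | i :: is => chk tbl i && run (⟨i.J + 1, i.F, i.p⟩ :: tbl) is

lemma run_ok (hP : Stmt_PendN) (hC : Stmt_CoreN) (hL : Stmt_Lev0) (hI : Stmt_Iso)
    {tbl : List Ent} (ht : ∀ e ∈ tbl, e.ok) {is : List Ins} (h : run tbl is = true) :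
    ∀ e ∈ addI tbl is, e.ok := by
  induction is generalizing tbl with
  | nil => exact ht
  | cons i is ih =>
    simp only [run, Bool.and_eq_true] at h
    have h1 := chk_ok hP hC hL hI ht h.1
    refine ih (tbl := ⟨i.J + 1, i.F, i.p⟩ :: tbl) ?_ h.2
    intro e he
    rcases List.mem_cons.mp he with rfl | he
    · exact h1
    · exact ht e he

end Pool.Agent.RGA
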